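import Mathlib

/-!
The image of the disc is the region bounded by the image of the circle.
-/

set_option autoImplicit false

namespace AG

open Complex Metric Set

theorem region (f : ℂ → ℂ) (U K : Set ℂ) (hf : ContinuousOn f (closedBall 0 1))
    (hopen : IsOpen (f '' ball 0 1)) (hU : IsOpen U) (hUc : IsPreconnected U) (hK : IsCompact K)
    (hUK : U ⊆ K) (hint : interior K ⊆ U) (hcl : K ⊆ closure U) (hKc : IsPreconnected Kᶜ)
    (h0 : f 0 ∈ U) (hb : ∀ x, ‖x‖ = 1 → f x ∈ K ∧ f x ∉ U) :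
    f '' ball 0 1 = U ∧ f '' closedBall 0 1 = K := by
  have hcomp : IsCompact (f '' closedBall (0 : ℂ) 1) :=
    (isCompact_closedBall (0 : ℂ) 1).image_of_continuousOn hf
  have hclo : closure (f '' ball (0 : ℂ) 1) ⊆ f '' closedBall (0 : ℂ) 1 :=
    closure_minimal (image_mono ball_subset_closedBall) hcomp.isClosed
  have hcases : ∀ y ∈ f '' closedBall (0 : ℂ) 1,
      y ∈ f '' ball (0 : ℂ) 1 ∨ (y ∈ K ∧ y ∉ U) := by
    rintro y ⟨x, hx, rfl⟩
    rw [mem_closedBall, dist_zero_right] at hx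
    rcases hx.lt_or_eq with h | h
    · exact Or.inl ⟨x, by rwa [mem_ball, dist_zero_right], rfl⟩
    · exact Or.inr (hb x h)
  have h1 : U ⊆ f '' ball (0 : ℂ) 1 := by
    refine hUc.subset_of_closure_inter_subset hopen
      ⟨f 0, h0, ⟨0, mem_ball_self one_pos, rfl⟩⟩ ?_
    rintro y ⟨hy1, hy2⟩
    rcases hcases y (hclo hy1) with h | h
    · exact h
    · exact absurd hy2 h.2
  have h2 : f '' ball (0 : ℂ) 1 ⊆ K := by
    by_contra hcon
    obtain ⟨y, hy, hyK⟩ := not_subset.1 hcon
    have h3 : Kᶜ ⊆ f '' ball (0 : ℂ) 1 := by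
      refine hKc.subset_of_closure_inter_subset hopen ⟨y, hyK, hy⟩ ?_
      rintro z ⟨hz1, hz2⟩
      rcases hcases z (hclo hz1) with h | h
      · exact h
      · exact absurd h.1 hz2
    have h4 : (univ : Set ℂ) ⊆ K ∪ f '' closedBall (0 : ℂ) 1 := by
      intro z _
      by_cases hz : z ∈ K
      · exact Or.inl hz
      · exact Or.inr (image_mono ball_subset_closedBall (h3 hz))
    exact noncompact_univ ℂ ((hK.union hcomp).of_isClosed_subset isClosed_univ h4)
  have h5 : f '' ball (0 : ℂ) 1 ⊆ U := (interior_maximal h2 hopen).trans hint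
  have h6 : f '' ball (0 : ℂ) 1 = U := h5.antisymm h1
  refine ⟨h6, ?_⟩
  refine Subset.antisymm ?_ ?_
  · intro y hy
    rcases hcases y hy with h | h
    · exact h2 h
    · exact h.1
  · refine hcl.trans ?_
    rw [← h6]
    exact hclo

end AG
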