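import Pool.Agent.Bloch.Zwa

/-!
Injectivity of the two conformal maps on the closed disc.
-/

set_option autoImplicit false

noncomputable section

namespace AG

open Complex Metric Set
open scoped ComplexConjugate

private theorem mem_SD {y : ℂ} (hy : ‖y‖ < 1) : y ∈ SD :=
  Or.inr (lt_of_le_of_lt (Complex.re_le_norm y) hy)

private theorem one_sub_re {y : ℂ} (hy : ‖y‖ < 1) : 0 < (1 - y).re := by
  rw [Complex.sub_re, Complex.one_re]
  linarith [lt_of_le_of_lt (Complex.re_le_norm y) hy]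

private theorem one_sub_ne {y : ℂ} (hy : ‖y‖ < 1) : 1 - y ≠ 0 := fun h => by
  have := one_sub_re hy
  rw [h] at this
  simp at this

private theorem arg_lt {y : ℂ} (hy : ‖y‖ < 1) : |(1 - y).arg| < Real.pi / 2 := by
  rw [Complex.abs_arg_lt_pi_div_two_iff]
  exact Or.inl (one_sub_re hy)

/-- a real power in polar form -/
private theorem cpow_polar {z : ℂ} (hz : z ≠ 0) (c : ℝ) :
    z ^ (c : ℂ) = (Real.exp (c * Real.log ‖z‖) : ℝ) * exp ((c * z.arg : ℝ) * I) := by
  rw [Complex.cpow_def_of_ne_zero hz, Complex.log, Complex.ofReal_exp, ← Complex.exp_add]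
  congr 1
  push_cast
  ring

private theorem polar_re (r θ : ℝ) : ((r : ℂ) * exp ((θ : ℂ) * I)).re = r * Real.cos θ := by
  rw [Complex.re_ofReal_mul, Complex.exp_ofReal_mul_I_re]

theorem ww_re {x : ℂ} (hx : ‖x‖ < 1) : 0 < (cc * (1 - x^3)^(-(2/3 : ℝ) : ℂ)).re := by
  have hy : ‖x^3‖ < 1 := by
    rw [norm_pow]
    exact pow_lt_one₀ (norm_nonneg _) hx (by norm_num)
  have hc := cc_pos
  rw [Complex.re_ofReal_mul]
  refine mul_pos hc ?_
  rw [← Complex.ofReal_neg, cpow_polar (one_sub_ne hy), polar_re]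
  refine mul_pos (Real.exp_pos _) (Real.cos_pos_of_mem_Ioo ?_)
  have := abs_lt.1 (arg_lt hy)
  constructor <;> linarith [this.1, this.2]

/-- the case of a nonnegative imaginary part -/
private theorem aux {y : ℂ} (hy : ‖y‖ < 1) (hi : 0 ≤ y.im) :
    0 < (cc * (1 - y)^(-(5/6 : ℝ) : ℂ) / (f1 y)^2).re := by
  have hne := f1_ne hy.le
  have h1 : y ≠ 1 := fun h => by rw [h, norm_one] at hy; exact lt_irrefl _ hy
  have harg := f1_arg hy.le h1 hi
  have hA := abs_lt.1 (arg_lt hy)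
  have hc := cc_pos
  have hf : 0 < ‖f1 y‖ := norm_pos_iff.2 hne
  have e1 : f1 y = (‖f1 y‖ : ℂ) * exp (((f1 y).arg : ℂ) * I) :=
    (Complex.norm_mul_exp_arg_mul_I (f1 y)).symm
  have e2 : cc * (1 - y)^(-(5/6 : ℝ) : ℂ) / (f1 y)^2
      = ((cc * Real.exp (-(5/6) * Real.log ‖1 - y‖) / ‖f1 y‖ ^ 2 : ℝ) : ℂ) *
        exp ((-(5/6) * (1 - y).arg - 2 * (f1 y).arg : ℝ) * I) := by
    rw [← Complex.ofReal_neg, cpow_polar (one_sub_ne hy)]
    have e3 : (f1 y)^2 = (‖f1 y‖ : ℂ)^2 * exp ((2 * (f1 y).arg : ℝ) * I) := by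
      conv_lhs => rw [e1]
      rw [mul_pow, ← Complex.exp_nat_mul]
      congr 2
      push_cast
      ring
    rw [e3]
    have e4 : exp ((-(5/6) * (1 - y).arg - 2 * (f1 y).arg : ℝ) * I)
        = exp ((-(5/6) * (1 - y).arg : ℝ) * I) / exp ((2 * (f1 y).arg : ℝ) * I) := by
      rw [← Complex.exp_sub]
      congr 1
      push_cast
      ring
    rw [e4]
    have h5 : exp ((2 * (f1 y).arg : ℝ) * I) ≠ 0 := Complex.exp_ne_zero _
    have h6 : (‖f1 y‖ : ℂ) ≠ 0 := by exact_mod_cast hf.ne'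
    push_cast
    field_simp
  rw [e2, polar_re]
  refine mul_pos (by positivity) (Real.cos_pos_of_mem_Ioo ?_)
  have hnn : 0 ≤ -(1 - y).arg := by linarith [harg.1.trans harg.2]
  constructor
  · linarith [harg.2, Real.pi_pos]
  · linarith [harg.1, hA.1, Real.pi_pos]

theorem zz_re {x : ℂ} (hx : ‖x‖ < 1) : 0 < (cc * (1 - x^3)^(-(5/6 : ℝ) : ℂ) / (f1 (x^3))^2).re := by
  have hy : ‖x^3‖ < 1 := by
    rw [norm_pow]
    exact pow_lt_one₀ (norm_nonneg _) hx (by norm_num)
  generalize x^3 = y at hy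
  rcases le_total 0 y.im with hi | hi
  · exact aux hy hi
  · have h1 := aux (y := conj y) (by rwa [Complex.norm_conj]) (by rw [Complex.conj_im]; linarith)
    have h2 : f1 (conj y) = conj (f1 y) := by
      unfold f1
      rw [EI_conj _ _ _ (Or.inl (mem_SD hy)), map_div₀,
        EI_zero _ _ _ (by norm_num) (by norm_num), Complex.conj_ofReal]
    have h3 : (1 - conj y)^(-(5/6 : ℝ) : ℂ) = conj ((1 - y)^(-(5/6 : ℝ) : ℂ)) := by
      have e1 : 1 - conj y = conj (1 - y) := by simp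
      have h5 : (1 - y).arg ≠ Real.pi := by
        intro h
        have := abs_lt.1 (arg_lt hy)
        rw [h] at this
        linarith [this.2, Real.pi_pos]
      rw [e1, Complex.conj_cpow _ _ h5, map_neg, Complex.conj_ofReal]
    rw [h2, h3] at h1
    have h4 : (cc * conj ((1 - y)^(-(5/6 : ℝ) : ℂ)) / (conj (f1 y))^2 : ℂ)
        = conj (cc * (1 - y)^(-(5/6 : ℝ) : ℂ) / (f1 y)^2) := by
      rw [map_div₀, map_mul, map_pow, Complex.conj_ofReal]
    rw [h4, Complex.conj_re] at h1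
    exact h1

/-- Noshiro-Warschawski on the closed disc -/
private theorem inj_of_re {f f' : ℂ → ℂ} (hc : ContinuousOn f (closedBall 0 1))
    (hd : ∀ x : ℂ, ‖x‖ < 1 → HasDerivAt f (f' x) x) (hr : ∀ x : ℂ, ‖x‖ < 1 → 0 < (f' x).re) :
    InjOn f (closedBall 0 1) := by
  intro a ha b hb hab
  by_contra hne
  set d : ℂ := b - a with hdd
  have hd0 : d ≠ 0 := sub_ne_zero.2 (Ne.symm hne)
  set γ : ℝ → ℂ := fun s => a + (s:ℂ) * d with hγ
  have hmem : ∀ s ∈ Icc (0:ℝ) 1, γ s ∈ closedBall (0:ℂ) 1 := by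
    intro s hs
    have hconv := convex_closedBall (0:ℂ) 1
    have h1 := hconv ha hb (a := 1 - s) (b := s) (by linarith [hs.2]) hs.1 (by ring)
    have h2 : γ s = (1 - s) • a + s • b := by
      simp only [hγ, hdd, Complex.real_smul]
      push_cast
      ring
    rw [h2]; exact h1
  have hmem' : ∀ s ∈ Ioo (0:ℝ) 1, ‖γ s‖ < 1 := by
    intro s hs
    have hconv := strictConvex_closedBall ℝ (0:ℂ) 1
    have h1 := hconv ha hb hne (a := 1 - s) (b := s) (by linarith [hs.2]) hs.1 (by ring)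
    have h2 : γ s = (1 - s) • a + s • b := by
      simp only [hγ, hdd, Complex.real_smul]
      push_cast
      ring
    rw [← h2, interior_closedBall _ one_ne_zero, mem_ball, dist_zero_right] at h1
    exact h1
  set g : ℝ → ℝ := fun s => (f (γ s) * conj d).re with hg
  have hγc : Continuous γ := by fun_prop
  have hgc : ContinuousOn g (Icc 0 1) := by
    have h1 : ContinuousOn (fun s => f (γ s)) (Icc 0 1) := hc.comp hγc.continuousOn hmem
    exact Complex.continuous_re.comp_continuousOn (h1.mul continuousOn_const)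
  have hgd : ∀ s ∈ Ioo (0:ℝ) 1, HasDerivAt g ((f' (γ s) * d * conj d).re) s := by
    intro s hs
    have h1 : HasDerivAt γ d s := by
      have h2 : HasDerivAt (fun t : ℝ => (t:ℂ)) 1 s := (hasDerivAt_id s).ofReal_comp
      exact ((h2.mul_const d).const_add a).congr_deriv (one_mul d)
    have h2 : HasDerivAt (fun s => f (γ s)) (f' (γ s) * d) s :=
      HasDerivAt.comp (h₂ := f) s (hd (γ s) (hmem' s hs)) h1
    have h3 := h2.mul_const (conj d)
    exact (Complex.reCLM.hasFDerivAt.comp_hasDerivAt s h3)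
  obtain ⟨s, hs, hs2⟩ := exists_hasDerivAt_eq_slope g _ one_pos hgc hgd
  have e0 : g 0 = (f a * conj d).re := by simp [hg, hγ]
  have e1 : g 1 = (f b * conj d).re := by simp [hg, hγ, hdd]
  rw [e0, e1, hab, sub_self, zero_div] at hs2
  have h4 : (f' (γ s) * d * conj d).re = ‖d‖ ^ 2 * (f' (γ s)).re := by
    rw [mul_assoc, Complex.mul_conj, Complex.normSq_eq_norm_sq, Complex.re_mul_ofReal, mul_comm]
  rw [h4] at hs2
  have h5 : 0 < ‖d‖ ^ 2 * (f' (γ s)).re :=
    mul_pos (pow_pos (norm_pos_iff.2 hd0) 2) (hr _ (hmem' s hs))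
  linarith

theorem zz_inj : InjOn zz (closedBall 0 1) := by
  refine inj_of_re zz_cont (fun x hx => ?_) (fun x hx => zz_re hx)
  have hy : ‖x^3‖ < 1 := by
    rw [norm_pow]
    exact pow_lt_one₀ (norm_nonneg _) hx (by norm_num)
  exact zz_deriv (mem_SD hy) (f1_ne hy.le)

theorem ww_inj : InjOn ww (closedBall 0 1) := by
  refine inj_of_re ww_cont (fun x hx => ?_) (fun x hx => ww_re hx)
  have hy : ‖x^3‖ < 1 := by
    rw [norm_pow]
    exact pow_lt_one₀ (norm_nonneg _) hx (by norm_num)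
  exact ww_deriv (mem_SD hy)

end AG
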