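import Pool.Agent.Bloch.Arcz
import Pool.Agent.Bloch.Region
import Pool.Agent.Bloch.Zwinj

set_option autoImplicit false

noncomputable section

namespace AG

open Complex Metric Set
open scoped ComplexConjugate Topology

theorem bij_om_pow (k : ℕ) : om ^ (3 + k) = om ^ k := by
  rw [pow_add, om_cube, one_mul]

theorem bij_om_pow' (j k : ℕ) : om ^ (3 * j + k) = om ^ k := by
  rw [pow_add, pow_mul, om_cube, one_pow, one_mul]

theorem bij_om_ne : om ≠ 0 := by
  intro h
  have := om_norm
  rw [h, norm_zero] at this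
  exact zero_ne_one this

theorem bij_om_mod (k : ℕ) : om ^ k = om ^ (k % 3) := by
  conv_lhs => rw [← Nat.div_add_mod k 3]
  exact bij_om_pow' _ _

/-- parametrisation of the unit circle by three arcs -/
theorem bij_circle {x : ℂ} (hx : ‖x‖ = 1) : ∃ (θ : ℝ) (j : ℕ), 0 ≤ θ ∧ θ ≤ 2 * Real.pi / 3 ∧
    x = om ^ j * exp (I * θ) := by
  have h1 : x = exp ((x.arg : ℂ) * I) := by
    have := norm_mul_exp_arg_mul_I x
    rw [hx, ofReal_one, one_mul] at this
    exact this.symm
  have h2 := neg_pi_lt_arg x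
  have h3 := arg_le_pi x
  have hp := Real.pi_pos
  have ho : ∀ j : ℕ, om ^ j = exp ((2 * Real.pi * j / 3 : ℝ) * I) := by
    intro j
    rw [om_exp, ← exp_nat_mul]
    congr 1
    push_cast
    ring
  have key : ∀ (θ : ℝ) (j : ℕ) (n : ℤ), x.arg + 2 * Real.pi * n = θ + 2 * Real.pi * j / 3 →
      x = om ^ j * exp (I * θ) := by
    intro θ j n h
    rw [ho, ← exp_add]
    conv_lhs => rw [h1]
    rw [exp_eq_exp_iff_exists_int]
    refine ⟨-n, ?_⟩
    have h' : (x.arg : ℂ) + 2 * Real.pi * n = θ + 2 * Real.pi * j / 3 := by exact_mod_cast h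
    push_cast
    linear_combination I * h'
  rcases le_or_gt 0 x.arg with ha | ha
  · rcases le_or_gt x.arg (2 * Real.pi / 3) with hb | hb
    · exact ⟨x.arg, 0, ha, hb, key _ _ 0 (by push_cast; ring)⟩
    · exact ⟨x.arg - 2 * Real.pi / 3, 1, by linarith, by linarith, key _ _ 0 (by push_cast; ring)⟩
  · rcases le_or_gt x.arg (-(2 * Real.pi / 3)) with hb | hb
    · exact ⟨x.arg + 4 * Real.pi / 3, 1, by linarith, by linarith, key _ _ 1 (by push_cast; ring)⟩
    · exact ⟨x.arg + 2 * Real.pi / 3, 2, by linarith, by linarith, key _ _ 1 (by push_cast; ring)⟩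

theorem bij_zz_pow (j : ℕ) (x : ℂ) : zz (om ^ j * x) = om ^ j * zz x := by
  induction j with
  | zero => simp
  | succ j ih =>
    rw [pow_succ', mul_assoc, zz_om, ih]
    ring

theorem bij_ww_pow (j : ℕ) (x : ℂ) : ww (om ^ j * x) = om ^ j * ww x := by
  induction j with
  | zero => simp
  | succ j ih =>
    rw [pow_succ', mul_assoc, ww_om, ih]
    ring

theorem bij_tri_pow (j : ℕ) {z : ℂ} (hz : z ∈ Tri) : om ^ j * z ∈ Tri := by
  induction j with
  | zero => simpa using hz
  | succ j ih =>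
    rw [pow_succ', mul_assoc]
    exact tri_om ih

theorem bij_zz_bd {x : ℂ} (hx : ‖x‖ = 1) : zz x ∈ Tri ∧ zz x ∉ Tin := by
  obtain ⟨θ, j, h0, h1, rfl⟩ := bij_circle hx
  have h2 := arcz h0 h1
  rw [bij_zz_pow]
  constructor
  · apply bij_tri_pow
    apply tri_bdry h2.2 (k := 1)
    rw [pow_one]
    exact h2.1
  · intro h
    have h3 := h.2 (1 + 2 * j)
    have e1 : om ^ j * zz (exp (I * θ)) * om ^ (1 + 2 * j) = zz (exp (I * θ)) * om := by
      have : om ^ j * om ^ (1 + 2 * j) = om := by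
        rw [← pow_add]
        have : j + (1 + 2 * j) = 3 * j + 1 := by ring
        rw [this, bij_om_pow', pow_one]
      linear_combination zz (exp (I * θ)) * this
    rw [e1, norm_mul, norm_pow, om_norm, one_pow, one_mul] at h3
    linarith [h2.1]

/-- the open triangle -/
def bijDin : Set ℂ := {w | ∀ k : ℕ, -(bt/2) < (w*om^k).re}

theorem bij_Din_eq : bijDin = ⋂ k ∈ Finset.range 3, {w : ℂ | -(bt/2) < (w*om^k).re} := by
  ext w
  simp only [bijDin, mem_setOf_eq, mem_iInter, Finset.mem_range]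
  constructor
  · intro h k _
    exact h k
  · intro h k
    rw [bij_om_mod]
    exact h _ (Nat.mod_lt _ (by norm_num))

theorem bij_Din_open : IsOpen bijDin := by
  rw [bij_Din_eq]
  refine isOpen_biInter_finset fun k _ => ?_
  exact isOpen_lt continuous_const (Complex.continuous_re.comp (continuous_id.mul continuous_const))

theorem bij_ww_bd {x : ℂ} (hx : ‖x‖ = 1) : ww x ∈ Del ∧ ww x ∉ bijDin := by
  obtain ⟨θ, j, h0, h1, rfl⟩ := bij_circle hx
  have h2 := arcw h0 h1
  have h3 := abs_le.mp (arcw_im h0 h1)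
  have h3s : Real.sqrt 3 ^ 2 = 3 := Real.sq_sqrt (by norm_num)
  have h3p : 0 < Real.sqrt 3 := by positivity
  have hb := bt_pos
  rw [bij_ww_pow]
  set w := ww (exp (I * θ)) with hw
  have ho1 : om.re = -1/2 := rfl
  have ho2 : om.im = Real.sqrt 3 / 2 := rfl
  have k0 : -(bt/2) ≤ w.re := by
    have e1 : w = (w * om) * om ^ 2 := by
      linear_combination (-w) * om_cube
    have e2 : w.re = (w * om).re * (-1/2) + (w * om).im * (Real.sqrt 3 / 2) := by
      conv_lhs => rw [e1]
      rw [mul_re, ← om_conj, conj_re, conj_im, ho1, ho2]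
      ring
    rw [e2, h2]
    nlinarith
  have k2 : -(bt/2) ≤ (w * om ^ 2).re := by
    have e1 : w * om ^ 2 = (w * om) * om := by ring
    have e2 : (w * om ^ 2).re = (w * om).re * (-1/2) - (w * om).im * (Real.sqrt 3 / 2) := by
      rw [e1, mul_re, ho1, ho2]
    rw [e2, h2]
    nlinarith
  constructor
  · intro k
    have e1 : om ^ j * w * om ^ k = w * om ^ ((j + k) % 3) := by
      rw [← bij_om_mod, pow_add]
      ring
    rw [e1]
    have h4 : (j + k) % 3 < 3 := Nat.mod_lt _ (by norm_num)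
    interval_cases (j + k) % 3
    · simpa using k0
    · rw [pow_one, h2]
    · exact k2
  · intro h
    have h3 := h (1 + 2 * j)
    have e1 : om ^ j * w * om ^ (1 + 2 * j) = w * om := by
      have : om ^ j * om ^ (1 + 2 * j) = om := by
        rw [← pow_add]
        have : j + (1 + 2 * j) = 3 * j + 1 := by ring
        rw [this, bij_om_pow', pow_one]
      linear_combination w * this
    rw [e1, h2] at h3
    exact lt_irrefl _ h3

/-- an injective image of the open disc with nonvanishing derivative is open -/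
theorem bij_open (f f' : ℂ → ℂ) (hf : ∀ x ∈ ball (0 : ℂ) 1, HasDerivAt f (f' x) x)
    (h0 : ∀ x ∈ ball (0 : ℂ) 1, f' x ≠ 0) : IsOpen (f '' ball 0 1) := by
  rw [isOpen_iff_mem_nhds]
  rintro _ ⟨x, hx, rfl⟩
  have hd : DifferentiableOn ℂ f (ball 0 1) := fun y hy =>
    (hf y hy).differentiableAt.differentiableWithinAt
  have ha : AnalyticAt ℂ f x := hd.analyticAt (isOpen_ball.mem_nhds hx)
  have hs := ha.hasStrictDerivAt
  rw [(hf x hx).deriv] at hs
  rw [← hs.map_nhds_eq (h0 x hx)]
  exact Filter.image_mem_map (isOpen_ball.mem_nhds hx)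

theorem bij_SD {x : ℂ} (hx : ‖x‖ < 1) : x ^ 3 ∈ SD := by
  right
  have : ‖x ^ 3‖ < 1 := by
    rw [norm_pow]
    exact pow_lt_one₀ (norm_nonneg _) hx (by norm_num)
  exact (re_le_norm _).trans_lt this

theorem bij_star_preconn {U : Set ℂ} (h0 : (0 : ℂ) ∈ U)
    (hs : ∀ z ∈ U, ∀ r : ℝ, 0 ≤ r → r < 1 → (r : ℂ) * z ∈ U) : IsPreconnected U := by
  have : StarConvex ℝ (0 : ℂ) U := by
    rw [starConvex_zero_iff]
    intro z hz r hr0 hr1
    rcases hr1.lt_or_eq with h | h
    · rw [real_smul]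
      exact hs z hz r hr0 h
    · rw [h, one_smul]
      exact hz
  exact (this.isPathConnected h0).isConnected.isPreconnected

theorem bij_closure {U K : Set ℂ} (hs : ∀ z ∈ K, ∀ r : ℝ, 0 ≤ r → r < 1 → (r : ℂ) * z ∈ U) :
    K ⊆ closure U := by
  intro z hz
  have h1 : Filter.Tendsto (fun r : ℝ => (r : ℂ) * z) (𝓝[<] 1) (𝓝 z) := by
    have : Filter.Tendsto (fun r : ℝ => (r : ℂ) * z) (𝓝 1) (𝓝 (((1 : ℝ) : ℂ) * z)) :=
      (Complex.continuous_ofReal.mul continuous_const).tendsto _
    rw [ofReal_one, one_mul] at this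
    exact this.mono_left nhdsWithin_le_nhds
  refine mem_closure_of_tendsto h1 ?_
  have h2 : Ioo (0 : ℝ) 1 ∈ 𝓝[<] (1 : ℝ) := Ioo_mem_nhdsLT one_pos
  filter_upwards [h2] with r hr
  exact hs z hz r hr.1.le hr.2

theorem bij_zz : zz '' ball 0 1 = Tin ∧ zz '' closedBall 0 1 = Tri := by
  have h0 : zz 0 = 0 := by simp [zz]
  have h0T : (0 : ℂ) ∈ Tin := by
    refine ⟨by simp, fun k => ?_⟩
    simp
  apply region zz Tin Tri zz_cont
  · apply bij_open zz (fun x => cc * (1 - x^3)^(-(5/6 : ℝ) : ℂ) / (f1 (x^3))^2)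
    · intro x hx
      rw [mem_ball, dist_zero_right] at hx
      refine zz_deriv (bij_SD hx) (f1_ne ?_)
      rw [norm_pow]
      exact pow_le_one₀ (norm_nonneg _) hx.le
    · intro x hx h
      rw [mem_ball, dist_zero_right] at hx
      have := zz_re hx
      rw [h] at this
      simp at this
  · exact tin_open
  · exact bij_star_preconn h0T fun z hz r hr0 hr1 => tri_star (tin_sub hz) hr0 hr1
  · exact tri_compact
  · exact tin_sub
  · exact tri_int
  · exact bij_closure fun z hz r hr0 hr1 => tri_star hz hr0 hr1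
  · exact tri_compl
  · rw [h0]
    exact h0T
  · exact fun x hx => bij_zz_bd hx

theorem bij_ww : ww '' ball 0 1 = bijDin ∧ ww '' closedBall 0 1 = Del := by
  have h0 : ww 0 = 0 := by simp [ww]
  have h0T : (0 : ℂ) ∈ bijDin := by
    intro k
    have := bt_pos
    rw [zero_mul, zero_re]
    linarith
  apply region ww bijDin Del ww_cont
  · apply bij_open ww (fun x => cc * (1 - x^3)^(-(2/3 : ℝ) : ℂ))
    · intro x hx
      rw [mem_ball, dist_zero_right] at hx
      exact ww_deriv (bij_SD hx)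
    · intro x hx h
      rw [mem_ball, dist_zero_right] at hx
      have := ww_re hx
      rw [h] at this
      simp at this
  · exact bij_Din_open
  · exact bij_star_preconn h0T fun z hz r hr0 hr1 k => del_star (fun k => (hz k).le) hr0 hr1 k
  · exact del_compact
  · exact fun w hw k => (hw k).le
  · exact del_int
  · exact bij_closure fun z hz r hr0 hr1 k => del_star hz hr0 hr1 k
  · exact del_compl
  · rw [h0]
    exact h0T
  · exact fun x hx => bij_ww_bd hx

theorem zz_img : zz '' closedBall 0 1 = Tri := bij_zz.2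
theorem zz_img_in : zz '' ball 0 1 = Tin := bij_zz.1
theorem ww_img : ww '' closedBall 0 1 = Del := bij_ww.2

/-- the map of the triangles -/
def F0 (z : ℂ) : ℂ := ww (Function.invFunOn zz (closedBall 0 1) z)

theorem F0_zz {x : ℂ} (hx : ‖x‖ ≤ 1) : F0 (zz x) = ww x := by
  have hx' : x ∈ closedBall (0 : ℂ) 1 := by simpa using hx
  rw [F0, zz_inj.leftInvOn_invFunOn hx']

theorem bij_exists {z : ℂ} (hz : z ∈ Tri) : ∃ x : ℂ, ‖x‖ ≤ 1 ∧ zz x = z := by
  rw [← zz_img] at hz
  obtain ⟨x, hx, rfl⟩ := hz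
  exact ⟨x, by simpa using hx, rfl⟩

theorem F0_cont : ContinuousOn F0 Tri := by
  have h1 : ContinuousOn (Function.invFunOn zz (closedBall 0 1)) Tri := by
    rw [continuousOn_iff_isClosed]
    intro t ht
    refine ⟨zz '' (t ∩ closedBall 0 1), ?_, ?_⟩
    · exact (((isCompact_closedBall (0 : ℂ) 1).inter_left ht).image_of_continuousOn
        (zz_cont.mono inter_subset_right)).isClosed
    · ext z
      constructor
      · rintro ⟨h2, h3⟩
        obtain ⟨x, hx, rfl⟩ := bij_exists h3
        have hx' : x ∈ closedBall (0 : ℂ) 1 := by simpa using hx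
        rw [mem_preimage, zz_inj.leftInvOn_invFunOn hx'] at h2
        exact ⟨⟨x, ⟨h2, hx'⟩, rfl⟩, h3⟩
      · rintro ⟨⟨x, ⟨h2, hx'⟩, rfl⟩, h3⟩
        refine ⟨?_, h3⟩
        rw [mem_preimage, zz_inj.leftInvOn_invFunOn hx']
        exact h2
  refine ww_cont.comp h1 ?_
  intro z hz
  obtain ⟨x, hx, rfl⟩ := bij_exists hz
  have hx' : x ∈ closedBall (0 : ℂ) 1 := by simpa using hx
  rw [zz_inj.leftInvOn_invFunOn hx']
  exact hx'

theorem F0_inj : InjOn F0 Tri := by
  intro z hz z' hz' h
  obtain ⟨x, hx, rfl⟩ := bij_exists hz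
  obtain ⟨x', hx', rfl⟩ := bij_exists hz'
  rw [F0_zz hx, F0_zz hx'] at h
  rw [ww_inj (by simpa using hx) (by simpa using hx') h]

theorem F0_img : F0 '' Tri = Del := by
  rw [← ww_img, ← zz_img, image_image]
  apply image_congr
  intro x hx
  exact F0_zz (by simpa using hx)

theorem F0_conj {z : ℂ} (hz : z ∈ Tri) : F0 (conj z) = conj (F0 z) := by
  obtain ⟨x, hx, rfl⟩ := bij_exists hz
  rw [← zz_conj hx, F0_zz hx, F0_zz (by rwa [Complex.norm_conj]), ww_conj hx]

theorem F0_om {z : ℂ} (hz : z ∈ Tri) : F0 (om * z) = om * F0 z := by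
  obtain ⟨x, hx, rfl⟩ := bij_exists hz
  rw [← zz_om, F0_zz hx, F0_zz (by rwa [norm_mul, om_norm, one_mul]), ww_om]

/-- a point on two sides is a vertex -/
theorem bij_vertex {u : ℂ} (hu : ‖u‖ < 1) (h1 : ‖u‖^2 + 2*aa*(u*om).re + 1 = 0)
    (h2 : ‖u‖^2 + 2*aa*(u*om^2).re + 1 = 0) : u = rv := by
  have ho1 : om.re = -1/2 := rfl
  have ho2 : om.im = Real.sqrt 3 / 2 := rfl
  have h3p : 0 < Real.sqrt 3 := by positivity
  have haa := aa_gt
  rw [mul_re, ho1, ho2] at h1
  rw [mul_re, ← om_conj, conj_re, conj_im, ho1, ho2] at h2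
  have him : u.im = 0 := by
    have h3 : aa * Real.sqrt 3 * u.im = 0 := by linear_combination (1/2) * h2 - (1/2) * h1
    rcases mul_eq_zero.mp h3 with h | h
    · exfalso
      have : 0 < aa * Real.sqrt 3 := by positivity
      linarith
    · exact h
  have hn : ‖u‖ ^ 2 = u.re ^ 2 := by
    rw [Complex.sq_norm, normSq_apply, him]
    ring
  rw [hn, him] at h1
  have hrv := rv_pos
  have hrv1 := rv_lt
  have h4 : (u.re - rv) * (rv * u.re - 1) = 0 := by
    linear_combination rv * h1 + u.re * aa_eq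
  have h5 : u.re < 1 := (re_le_norm u).trans_lt hu
  have h6 : rv * u.re - 1 ≠ 0 := by
    intro h
    nlinarith
  have h7 : u.re = rv := by
    rcases mul_eq_zero.mp h4 with h | h
    · linarith
    · exact absurd h h6
  apply Complex.ext
  · rw [h7, ofReal_re]
  · rw [him, ofReal_im]

/-- sides go to sides -/
theorem F0_side {z : ℂ} (hz : z ∈ Tri) {k : ℕ} (hk : ‖z‖^2 + 2*aa*(z*om^k).re + 1 = 0) :
    (F0 z * om^k).re = -(bt/2) := by
  have hz1 := hz.1
  obtain ⟨x, hx, rfl⟩ := bij_exists hz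
  rcases hx.lt_or_eq with hx1 | hx1
  · exfalso
    have h1 : zz x ∈ Tin := by
      rw [← zz_img_in]
      exact ⟨x, by simpa using hx1, rfl⟩
    linarith [h1.2 k]
  obtain ⟨θ, j, h0, h1, rfl⟩ := bij_circle hx1
  have hen : ‖exp (I * θ)‖ ≤ 1 := (arcz_norm θ).le
  have ho1 : om.re = -1/2 := rfl
  rw [F0_zz hx, bij_ww_pow]
  rw [bij_zz_pow] at hk hz1
  have h2 := arcz h0 h1
  have h3 := arcw h0 h1
  rw [norm_mul, norm_pow, om_norm, one_pow, one_mul] at hk hz1
  have e1 : ∀ w : ℂ, om ^ j * w * om ^ k = w * om ^ ((j + k) % 3) := by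
    intro w
    rw [← bij_om_mod, pow_add]
    ring
  rw [e1] at hk ⊢
  have h4 : (j + k) % 3 < 3 := Nat.mod_lt _ (by norm_num)
  have e2 : om ^ 2 * (zz (exp (I * θ))) = zz (om ^ 2 * exp (I * θ)) := (bij_zz_pow 2 _).symm
  interval_cases (j + k) % 3
  · -- the vertex `rv * om`
    have h5 : om ^ 2 * zz (exp (I * θ)) = rv := by
      apply bij_vertex
      · rw [norm_mul, norm_pow, om_norm, one_pow, one_mul]
        exact hz1
      · have : om ^ 2 * zz (exp (I * θ)) * om = zz (exp (I * θ)) * om ^ 0 := by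
          linear_combination zz (exp (I * θ)) * om_cube
        rw [this, norm_mul, norm_pow, om_norm, one_pow, one_mul]
        exact hk
      · have : om ^ 2 * zz (exp (I * θ)) * om ^ 2 = zz (exp (I * θ)) * om := by
          linear_combination zz (exp (I * θ)) * om * om_cube
        rw [this, norm_mul, norm_pow, om_norm, one_pow, one_mul]
        exact h2.1
    have h6 : om ^ 2 * exp (I * θ) = 1 := by
      apply zz_inj
      · rw [mem_closedBall, dist_zero_right, norm_mul, norm_pow, om_norm, one_pow, one_mul]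
        exact hen
      · simp
      · rw [bij_zz_pow, h5, zz_one]
    have h7 : exp (I * θ) = om * 1 := by
      linear_combination om * h6 - exp (I * θ) * om_cube
    rw [h7, ww_om, ww_one, pow_zero, mul_one, mul_comm, re_ofReal_mul, ho1]
    ring
  · rw [pow_one]
    exact h3
  · have h5 : zz (exp (I * θ)) = rv := bij_vertex hz1 h2.1 hk
    have h6 : exp (I * θ) = 1 := by
      apply zz_inj
      · rw [mem_closedBall, dist_zero_right]
        exact hen
      · simp
      · rw [h5, zz_one]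
    rw [h6, ww_one, re_ofReal_mul, ← om_conj, conj_re, ho1]
    ring

end AG
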