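import Mathlib

/-!
Analytic continuation from a small disc to the unit disc (module CONTB of the disproof of the
Ahlfors-Grunsky conjecture, MP_b327a3_an).
-/

set_option autoImplicit false

noncomputable section

namespace AG

open Complex Metric Set
open scoped ComplexConjugate

/-- a function holomorphic on a disc about `0` is the sum of its power series there -/
theorem contb_aux1 {f : ℂ → ℂ} {p : FormalMultilinearSeries ℂ ℂ ℂ} {R : ℝ} (hR : 0 < R)
    (hp : HasFPowerSeriesAt f p 0) (hf : DifferentiableOn ℂ f (ball 0 R)) :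
    ENNReal.ofReal R ≤ p.radius ∧ ∀ z ∈ ball (0:ℂ) R, f z = p.sum z := by
  have key : ∀ r : NNReal, 0 < r → (r:ℝ) < R → HasFPowerSeriesOnBall f p 0 r := by
    intro r hr hrR
    have h1 : DifferentiableOn ℂ f (closedBall 0 r) :=
      hf.mono (closedBall_subset_ball hrR)
    have h2 := h1.hasFPowerSeriesOnBall hr
    have h3 := h2.hasFPowerSeriesAt.eq_formalMultilinearSeries hp
    rwa [h3] at h2
  constructor
  · refine le_of_forall_lt fun c hc => ?_
    have hct : c ≠ ⊤ := ne_top_of_lt hc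
    have hc1 : c.toReal < R := by
      rwa [← ENNReal.ofReal_toReal hct, ENNReal.ofReal_lt_ofReal_iff hR] at hc
    set m : ℝ := (c.toReal + R) / 2 with hm
    have hm0 : 0 < m := by
      have : 0 ≤ c.toReal := ENNReal.toReal_nonneg
      linarith
    have hmR : m < R := by linarith
    have h4 := (key m.toNNReal (Real.toNNReal_pos.mpr hm0)
      (by rw [Real.coe_toNNReal _ hm0.le]; exact hmR)).r_le
    refine lt_of_lt_of_le ?_ h4
    rw [← ENNReal.ofReal_toReal hct]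
    show ENNReal.ofReal c.toReal < ENNReal.ofReal m
    rw [ENNReal.ofReal_lt_ofReal_iff hm0]
    linarith
  · intro z hz
    have hz' : ‖z‖ < R := by simpa using hz
    set m : ℝ := (‖z‖ + R) / 2 with hm
    have hm0 : 0 < m := by
      have := norm_nonneg z
      linarith
    have hmR : m < R := by linarith
    have h4 := key m.toNNReal (Real.toNNReal_pos.mpr hm0)
      (by rw [Real.coe_toNNReal _ hm0.le]; exact hmR)
    have h5 := h4.sum (y := z) (by
      rw [Metric.mem_eball, edist_zero_right]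
      rw [← ofReal_norm]
      show ENNReal.ofReal ‖z‖ < ENNReal.ofReal m
      rw [ENNReal.ofReal_lt_ofReal_iff hm0]
      linarith)
    simpa using h5

/-- gluing of local extensions at the points of a circle -/
theorem contb_glue {f : ℂ → ℂ} {R : ℝ} (hR : 0 < R) (hf : DifferentiableOn ℂ f (ball 0 R))
    (hloc : ∀ ζ : ℂ, ‖ζ‖ = R → ∃ δ > 0, ∃ G : ℂ → ℂ, DifferentiableOn ℂ G (ball ζ δ) ∧
      ∀ z ∈ ball ζ δ ∩ ball (0:ℂ) R, G z = f z) :
    ∃ R' > R, ∃ g : ℂ → ℂ, DifferentiableOn ℂ g (ball 0 R') ∧ ∀ z ∈ ball (0:ℂ) R, g z = f z := by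
  classical
  choose! δ hδ G hG hGf using hloc
  -- two local extensions agree
  have hagree : ∀ ζ ζ' z : ℂ, ‖ζ‖ = R → ‖ζ'‖ = R → z ∈ ball ζ (δ ζ) → z ∈ ball ζ' (δ ζ') →
      z ∉ ball (0:ℂ) R → G ζ z = G ζ' z := by
    intro ζ ζ' z hζ hζ' hz hz' hzR
    have hzR' : R ≤ ‖z‖ := by simpa using hzR
    have hz0 : 0 < ‖z‖ := lt_of_lt_of_le hR hzR'
    have hproj : ∀ ξ : ℂ, ‖ξ‖ = R → ‖((R / ‖z‖ : ℝ) : ℂ) * z - ξ‖ ≤ ‖z - ξ‖ := by
      intro ξ hξ
      have h1 : ‖((R / ‖z‖ : ℝ) : ℂ) * z - ξ‖ ^ 2 ≤ ‖z - ξ‖ ^ 2 := by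
        rw [← Complex.normSq_eq_norm_sq, ← Complex.normSq_eq_norm_sq]
        have e1 : Complex.normSq z = ‖z‖ ^ 2 := Complex.normSq_eq_norm_sq z
        have e2 : Complex.normSq ξ = R ^ 2 := by rw [Complex.normSq_eq_norm_sq, hξ]
        have e3 : Complex.normSq (z - ξ) = ‖z‖ ^ 2 + R ^ 2 - 2 * (z * conj ξ).re := by
          rw [Complex.normSq_sub, e1, e2]
        have e4 : Complex.normSq (((R / ‖z‖ : ℝ) : ℂ) * z - ξ)
            = R ^ 2 + R ^ 2 - 2 * ((R / ‖z‖) * (z * conj ξ).re) := by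
          have e5 : (((R / ‖z‖ : ℝ) : ℂ) * z * conj ξ).re = R / ‖z‖ * (z * conj ξ).re := by
            rw [mul_assoc, Complex.re_ofReal_mul]
          rw [Complex.normSq_sub, e2, Complex.normSq_mul, e1, Complex.normSq_ofReal, e5]
          have e6 : R / ‖z‖ * (R / ‖z‖) * ‖z‖ ^ 2 = R ^ 2 := by
            field_simp
          rw [e6]
        rw [e3, e4]
        have h2 : (z * conj ξ).re ≤ ‖z‖ * R := by
          calc (z * conj ξ).re ≤ ‖z * conj ξ‖ := Complex.re_le_norm _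
            _ = ‖z‖ * R := by rw [norm_mul, Complex.norm_conj, hξ]
        have h3 : 0 ≤ 1 - R / ‖z‖ := by
          rw [sub_nonneg, div_le_one hz0]
          exact hzR'
        have h4 : R / ‖z‖ * ‖z‖ = R := by field_simp
        have h5 := mul_le_mul_of_nonneg_left h2 h3
        have h6 : (1 - R / ‖z‖) * (‖z‖ * R) = (‖z‖ - R) * R := by
          field_simp
        nlinarith [sq_nonneg (‖z‖ - R)]
      exact (pow_le_pow_iff_left₀ (norm_nonneg _) (norm_nonneg _) two_ne_zero).mp h1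
    have hV : IsOpen (ball ζ (δ ζ) ∩ ball ζ' (δ ζ')) := isOpen_ball.inter isOpen_ball
    have hVc : Convex ℝ (ball ζ (δ ζ) ∩ ball ζ' (δ ζ')) := (convex_ball _ _).inter (convex_ball _ _)
    set P : ℂ := ((R / ‖z‖ : ℝ) : ℂ) * z with hP
    have hPV : P ∈ ball ζ (δ ζ) ∩ ball ζ' (δ ζ') := by
      constructor
      · rw [mem_ball, dist_eq_norm]
        exact (hproj ζ hζ).trans_lt (by rwa [mem_ball, dist_eq_norm] at hz)
      · rw [mem_ball, dist_eq_norm]
        exact (hproj ζ' hζ').trans_lt (by rwa [mem_ball, dist_eq_norm] at hz')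
    have hPn : ‖P‖ = R := by
      rw [hP, norm_mul, Complex.norm_real, Real.norm_of_nonneg (by positivity)]
      field_simp
    -- a point of the intersection inside the disc
    obtain ⟨ε, hε, hball⟩ := Metric.isOpen_iff.mp hV P hPV
    have hPcl : P ∈ closure (ball (0:ℂ) R) := by
      rw [closure_ball _ hR.ne']
      simp [hPn]
    obtain ⟨Q, hQR, hQd⟩ := Metric.mem_closure_iff.mp hPcl ε hε
    have hQV : Q ∈ ball ζ (δ ζ) ∩ ball ζ' (δ ζ') := hball (by rw [mem_ball, dist_comm]; exact hQd)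
    have ha1 : AnalyticOnNhd ℂ (G ζ) (ball ζ (δ ζ) ∩ ball ζ' (δ ζ')) :=
      ((hG ζ hζ).mono inter_subset_left).analyticOnNhd hV
    have ha2 : AnalyticOnNhd ℂ (G ζ') (ball ζ (δ ζ) ∩ ball ζ' (δ ζ')) :=
      ((hG ζ' hζ').mono inter_subset_right).analyticOnNhd hV
    refine ha1.eqOn_of_preconnected_of_eventuallyEq ha2 hVc.isPreconnected hQV ?_ ⟨hz, hz'⟩
    filter_upwards [(hV.inter isOpen_ball).mem_nhds ⟨hQV, hQR⟩] with x hx
    rw [hGf ζ hζ x ⟨hx.1.1, hx.2⟩, hGf ζ' hζ' x ⟨hx.1.2, hx.2⟩]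
  -- the glued function
  let g : ℂ → ℂ := fun z => if z ∈ ball (0:ℂ) R then f z else
    if h : ∃ ζ : ℂ, ‖ζ‖ = R ∧ z ∈ ball ζ (δ ζ) then G h.choose z else 0
  have hgf : ∀ z ∈ ball (0:ℂ) R, g z = f z := by
    intro z hz
    simp only [g]
    rw [if_pos hz]
  have hgG : ∀ ζ z : ℂ, ‖ζ‖ = R → z ∈ ball ζ (δ ζ) → g z = G ζ z := by
    intro ζ z hζ hz
    by_cases hzR : z ∈ ball (0:ℂ) R
    · rw [hgf z hzR, hGf ζ hζ z ⟨hz, hzR⟩]
    · have h : ∃ ζ : ℂ, ‖ζ‖ = R ∧ z ∈ ball ζ (δ ζ) := ⟨ζ, hζ, hz⟩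
      simp only [g]
      rw [if_neg hzR, dif_pos h]
      exact hagree _ _ z h.choose_spec.1 hζ h.choose_spec.2 hz hzR
  have hU : IsOpen (ball (0:ℂ) R ∪ ⋃ ζ ∈ sphere (0:ℂ) R, ball ζ (δ ζ)) :=
    isOpen_ball.union (isOpen_biUnion fun ζ _ => isOpen_ball)
  have hsub : closedBall (0:ℂ) R ⊆ ball (0:ℂ) R ∪ ⋃ ζ ∈ sphere (0:ℂ) R, ball ζ (δ ζ) := by
    intro z hz
    have hz' : ‖z‖ ≤ R := by simpa using hz
    rcases lt_or_eq_of_le hz' with h | h
    · left
      simpa using h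
    · right
      rw [mem_iUnion₂]
      exact ⟨z, by simpa using h, mem_ball_self (hδ z h)⟩
  obtain ⟨ε, hε, hthick⟩ := (isCompact_closedBall (0:ℂ) R).exists_thickening_subset_open hU hsub
  refine ⟨R + ε, by linarith, g, ?_, hgf⟩
  intro z hz
  have hz' : z ∈ ball (0:ℂ) R ∪ ⋃ ζ ∈ sphere (0:ℂ) R, ball ζ (δ ζ) := by
    apply hthick
    rw [thickening_closedBall hε hR.le]
    simpa [add_comm] using hz
  refine DifferentiableAt.differentiableWithinAt ?_
  rcases hz' with h | h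
  · refine ((hf z h).differentiableAt (isOpen_ball.mem_nhds h)).congr_of_eventuallyEq ?_
    filter_upwards [isOpen_ball.mem_nhds h] with x hx
    exact hgf x hx
  · rw [mem_iUnion₂] at h
    obtain ⟨ζ, hζ, hzζ⟩ := h
    have hζ' : ‖ζ‖ = R := by simpa using hζ
    refine ((hG ζ hζ' z hzζ).differentiableAt (isOpen_ball.mem_nhds hzζ)).congr_of_eventuallyEq ?_
    filter_upwards [isOpen_ball.mem_nhds hzζ] with x hx
    exact hgG ζ x hζ' hx

theorem cont_ball (F1 : ℂ → ℂ) {R0 : ℝ} (hR0 : 0 < R0) (hR1 : R0 < 1)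
    (h0 : DifferentiableOn ℂ F1 (ball 0 R0))
    (hstep : ∀ R, R0 ≤ R → R < 1 → ∀ f : ℂ → ℂ, DifferentiableOn ℂ f (ball 0 R) →
      (∀ z ∈ ball (0:ℂ) R0, f z = F1 z) → ∀ ζ : ℂ, ‖ζ‖ = R →
      ∃ δ > 0, ∃ G : ℂ → ℂ, DifferentiableOn ℂ G (ball ζ δ) ∧ ∀ z ∈ ball ζ δ ∩ ball (0:ℂ) R, G z = f z) :
    ∃ f : ℂ → ℂ, DifferentiableOn ℂ f (ball 0 1) ∧ ∀ z ∈ ball (0:ℂ) R0, f z = F1 z := by
  have han : AnalyticAt ℂ F1 0 := h0.analyticAt (ball_mem_nhds _ hR0)
  obtain ⟨p, hp⟩ := han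
  obtain ⟨hr0, hsum0⟩ := contb_aux1 hR0 hp h0
  have hdiff : ∀ R : ℝ, ENNReal.ofReal R ≤ p.radius → DifferentiableOn ℂ p.sum (ball 0 R) := by
    intro R hR
    rcases le_or_gt R 0 with hR' | hR'
    · rw [ball_eq_empty.mpr hR']
      exact differentiableOn_empty
    · have hpos : 0 < p.radius := lt_of_lt_of_le (ENNReal.ofReal_pos.mpr hR') hR
      have h1 := (p.hasFPowerSeriesOnBall hpos).differentiableOn
      refine h1.mono ?_
      intro z hz
      rw [Metric.mem_eball, edist_zero_right, ← ofReal_norm]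
      refine lt_of_lt_of_le ?_ hR
      rw [ENNReal.ofReal_lt_ofReal_iff hR']
      simpa using hz
  have hrad : ENNReal.ofReal 1 ≤ p.radius := by
    by_contra hcon
    push Not at hcon
    have hne : p.radius ≠ ⊤ := ne_top_of_lt hcon
    set R : ℝ := p.radius.toReal with hRdef
    have hRof : ENNReal.ofReal R = p.radius := ENNReal.ofReal_toReal hne
    have hR0R : R0 ≤ R := by
      rw [← hRof] at hr0
      exact (ENNReal.ofReal_le_ofReal_iff ENNReal.toReal_nonneg).mp hr0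
    have hR1' : R < 1 := by
      rw [← hRof] at hcon
      exact (ENNReal.ofReal_lt_ofReal_iff one_pos).mp hcon
    have hRpos : 0 < R := lt_of_lt_of_le hR0 hR0R
    have hd := hdiff R hRof.le
    have heq : ∀ z ∈ ball (0:ℂ) R0, p.sum z = F1 z := fun z hz => (hsum0 z hz).symm
    obtain ⟨R', hR', g, hg, hgf⟩ := contb_glue hRpos hd (hstep R hR0R hR1' p.sum hd heq)
    have hgp : HasFPowerSeriesAt g p 0 := by
      refine hp.congr ?_
      filter_upwards [ball_mem_nhds (0:ℂ) hR0] with z hz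
      rw [hgf z (ball_subset_ball hR0R hz), heq z hz]
    have h2 := (contb_aux1 (hRpos.trans hR') hgp hg).1
    rw [← hRof, ENNReal.ofReal_le_ofReal_iff hRpos.le] at h2
    exact absurd h2 (not_le.mpr hR')
  exact ⟨p.sum, hdiff 1 hrad, fun z hz => (hsum0 z hz).symm⟩

end AG
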