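import Pool.Agent.Bloch.Geom
import Pool.Agent.Bloch.Contb

/-!
Global extension by reflections (module EXT of the disproof of the Ahlfors-Grunsky conjecture,
MP_b327a3_an).
-/

set_option autoImplicit false

noncomputable section

namespace AG

open Complex Metric Set Filter
open scoped ComplexConjugate Topology

/-! ### algebra of the reflection -/

theorem ext_den {z : ℂ} (hz : ‖z‖ < 1) : (aa:ℂ) + conj z ≠ 0 := by
  intro h
  have h1 : (aa:ℂ) = -conj z := eq_neg_of_add_eq_zero_left h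
  have h2 : ‖(aa:ℂ)‖ = ‖z‖ := by rw [h1, norm_neg, RCLike.norm_conj]
  rw [Complex.norm_real, Real.norm_eq_abs, abs_of_pos (by linarith [aa_gt])] at h2
  linarith [aa_gt]

theorem ext_nsq (z : ℂ) : ‖z‖^2 = z.re^2 + z.im^2 := norm_sq_re_im z

theorem ext_den_sq (z : ℂ) : ‖(aa:ℂ) + conj z‖^2 = aa^2 + 2*aa*z.re + ‖z‖^2 := by
  rw [ext_nsq, ext_nsq]
  simp
  ring

theorem ext_num_sq (z : ℂ) : ‖-(1 + (aa:ℂ) * conj z)‖^2 = 1 + 2*aa*z.re + aa^2 * ‖z‖^2 := by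
  rw [ext_nsq, ext_nsq]
  simp
  ring

theorem ext_s0_sq {z : ℂ} (hz : ‖z‖ < 1) :
    ‖s0 z‖^2 * (aa^2 + 2*aa*z.re + ‖z‖^2) = 1 + 2*aa*z.re + aa^2 * ‖z‖^2 := by
  rw [← ext_den_sq, ← ext_num_sq, s0, norm_div, div_pow]
  have h := ext_den hz
  have h2 : ‖(aa:ℂ) + conj z‖^2 ≠ 0 := by
    rw [ne_eq, sq_eq_zero_iff, norm_eq_zero]; exact h
  rw [div_mul_cancel₀ _ h2]

theorem ext_den_pos {z : ℂ} (hz : ‖z‖ < 1) : 0 < aa^2 + 2*aa*z.re + ‖z‖^2 := by
  rw [← ext_den_sq]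
  have h := ext_den hz
  positivity

theorem ext_s0_lt {z : ℂ} (hz : ‖z‖ < 1) {r : ℝ} (hr : 0 < r) :
    ‖s0 z‖ < r ↔ (aa^2 - r^2) * ‖z‖^2 + 2*aa*(1-r^2)*z.re + 1 - r^2*aa^2 < 0 := by
  have h1 := ext_s0_sq hz
  have h2 := ext_den_pos hz
  have h3 : ‖s0 z‖ < r ↔ ‖s0 z‖^2 < r^2 := by
    rw [sq_lt_sq₀ (norm_nonneg _) hr.le]
  rw [h3, ← mul_lt_mul_iff_left₀ h2, h1]
  constructor <;> intro h <;> nlinarith

/-- the reflection maps the disc to itself -/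
theorem ext_s0_ball {z : ℂ} (hz : ‖z‖ < 1) : ‖s0 z‖ < 1 := by
  rw [ext_s0_lt hz one_pos]
  have := aa_gt
  have h0 := norm_nonneg z
  nlinarith [mul_pos (show 0 < aa^2 - 1 by nlinarith) (show 0 < 1 - ‖z‖^2 by nlinarith)]

/-- the reflection decreases the modulus on the other side of the geodesic -/
theorem ext_s0_dec {z : ℂ} (hz : ‖z‖ < 1) (h0 : 0 < ‖z‖) (hq : ‖z‖^2 + 2*aa*z.re + 1 < 0) :
    ‖s0 z‖ < ‖z‖ := by
  rw [ext_s0_lt hz h0]
  have : (1 - ‖z‖^2) * (‖z‖^2 + 2*aa*z.re + 1) < 0 := by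
    apply mul_neg_of_pos_of_neg _ hq
    nlinarith
  nlinarith

/-- fixed points -/
theorem ext_s0_fix {z : ℂ} (hz : ‖z‖ < 1) (hq : ‖z‖^2 + 2*aa*z.re + 1 = 0) : s0 z = z := by
  have h := ext_den hz
  rw [s0, div_eq_iff h]
  have h1 : z * conj z = ((‖z‖^2 : ℝ) : ℂ) := by
    rw [Complex.mul_conj, Complex.normSq_eq_norm_sq]
  have h2 : z + conj z = ((2 * z.re : ℝ) : ℂ) := Complex.add_conj z
  have h3 : z * ((aa:ℂ) + conj z) + (1 + (aa:ℂ) * conj z) = ((‖z‖^2 + 2*aa*z.re + 1 : ℝ) : ℂ) := by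
    calc z * ((aa:ℂ) + conj z) + (1 + (aa:ℂ) * conj z)
        = z * conj z + aa * (z + conj z) + 1 := by ring
      _ = _ := by rw [h1, h2]; push_cast; ring
  rw [hq] at h3
  push_cast at h3
  linear_combination -h3

/-- the holomorphic part of the reflection -/
def hh0 (w : ℂ) : ℂ := -(1 + aa * w) / (aa + w)

theorem ext_hh0 (z : ℂ) : s0 z = hh0 (conj z) := rfl

theorem ext_hh0_diff {w : ℂ} (hw : ‖w‖ < 1) : DifferentiableAt ℂ hh0 w := by
  have h : (aa:ℂ) + w ≠ 0 := by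
    have := ext_den (z := conj w) (by rwa [RCLike.norm_conj])
    rwa [Complex.conj_conj] at this
  unfold hh0
  apply DifferentiableAt.div _ _ h
  · exact ((differentiableAt_const _).add ((differentiableAt_const _).mul differentiableAt_id)).neg
  · exact (differentiableAt_const _).add differentiableAt_id

theorem ext_s0_cont {z : ℂ} (hz : ‖z‖ < 1) : ContinuousAt s0 z := by
  have h1 : s0 = fun z => hh0 (conj z) := by
    funext z; exact ext_hh0 z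
  rw [h1]
  have h2 : ContinuousAt hh0 (conj z) := (ext_hh0_diff (by rwa [RCLike.norm_conj])).continuousAt
  exact ContinuousAt.comp (f := fun z : ℂ => conj z) (g := hh0) h2
    Complex.continuous_conj.continuousAt

/-- the reflected function -/
def rfl0 (f : ℂ → ℂ) (z : ℂ) : ℂ := -bt - conj (f (s0 z))

theorem ext_rfl0_diff {f : ℂ → ℂ} {z : ℂ} (hz : ‖z‖ < 1) (hf : DifferentiableAt ℂ f (s0 z)) :
    DifferentiableAt ℂ (rfl0 f) z := by
  have h1 : DifferentiableAt ℂ (fun w => f (hh0 w)) (conj z) := by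
    have h2 : DifferentiableAt ℂ hh0 (conj z) := ext_hh0_diff (by rwa [RCLike.norm_conj])
    have h3 : DifferentiableAt ℂ f (hh0 (conj z)) := by rwa [← ext_hh0]
    exact DifferentiableAt.comp (f := hh0) (g := f) (conj z) h3 h2
  have h4 := h1.conj_conj
  rw [Complex.conj_conj] at h4
  have h5 : rfl0 f = fun z => -(bt:ℂ) - (conj ∘ (fun w => f (hh0 w)) ∘ conj) z := by
    funext z
    simp [rfl0, ext_hh0]
  rw [h5]
  exact (differentiableAt_const _).sub h4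

/-- the midpoint of the side -/
def mm0 : ℝ := aa - Real.sqrt (aa^2 - 1)

theorem ext_mm0_eq : mm0^2 - 2*aa*mm0 + 1 = 0 := by
  unfold mm0
  have h : 0 ≤ aa^2 - 1 := by nlinarith [aa_gt]
  nlinarith [Real.sq_sqrt h]

theorem ext_mm0_pos : 0 < mm0 := by
  have h1 := aa_gt
  have h2 : Real.sqrt (aa^2 - 1) < aa := by
    rw [Real.sqrt_lt' (by linarith)]
    linarith
  unfold mm0
  linarith

theorem ext_mm0_lt_one : mm0 < 1 := by
  have h1 := aa_gt
  have h2 : aa - 1 < Real.sqrt (aa^2 - 1) := by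
    apply Real.lt_sqrt_of_sq_lt
    nlinarith
  unfold mm0
  linarith

/-- `mm0` is the smaller root -/
theorem ext_mm0_lt {x : ℝ} (h1 : x < 1) (hx : x^2 - 2*aa*x + 1 < 0) : mm0 < x := by
  by_contra hcon
  push Not at hcon
  have h2 := ext_mm0_eq
  have h3 := ext_mm0_lt_one
  have h4 := aa_gt
  nlinarith [mul_nonneg (show 0 ≤ mm0 - x by linarith) (show 0 ≤ 2*aa - mm0 - x by linarith)]

theorem ext_mm0_lt_rv : mm0 < rv := by
  apply ext_mm0_lt rv_lt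
  have := aa_eq
  nlinarith [rv_pos]

theorem ext_mu_norm : ‖(-(mm0:ℂ))‖ = mm0 := by
  rw [norm_neg, Complex.norm_real, Real.norm_eq_abs, abs_of_pos ext_mm0_pos]

theorem ext_mu_q : ‖(-(mm0:ℂ))‖^2 + 2*aa*(-(mm0:ℂ)).re + 1 = 0 := by
  rw [ext_mu_norm]
  have := ext_mm0_eq
  simp
  linarith

theorem ext_mu_tri : (-(mm0:ℂ)) ∈ Tri := by
  apply tri_bdry (k := 0)
  · rw [ext_mu_norm]; exact ext_mm0_lt_rv.le
  · simpa using ext_mu_q

theorem ext_mu_ball : ‖(-(mm0:ℂ))‖ < 1 := by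
  rw [ext_mu_norm]; exact ext_mm0_lt_one

theorem ext_mu_fix : s0 (-(mm0:ℂ)) = -(mm0:ℂ) := ext_s0_fix ext_mu_ball ext_mu_q

/-- a parametrisation of the side near the midpoint -/
def cy0 (y : ℝ) : ℂ := ⟨-aa + Real.sqrt (aa^2 - 1 - y^2), y⟩

theorem ext_cy_zero : cy0 0 = -(mm0:ℂ) := by
  unfold cy0 mm0
  apply Complex.ext
  · simp
    ring
  · simp

theorem ext_cy_cont : Continuous cy0 := by
  have h1 : cy0 = fun y : ℝ => ((-aa + Real.sqrt (aa^2 - 1 - y^2) : ℝ) : ℂ) + (y:ℂ) * I := by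
    funext y
    unfold cy0
    apply Complex.ext <;> simp
  rw [h1]
  fun_prop

theorem ext_cy_q {y : ℝ} (hy : y^2 ≤ aa^2 - 1) : ‖cy0 y‖^2 + 2*aa*(cy0 y).re + 1 = 0 := by
  rw [ext_nsq]
  have h : 0 ≤ aa^2 - 1 - y^2 := by linarith
  have h2 := Real.sq_sqrt h
  unfold cy0
  simp only
  nlinarith

theorem ext_cy_tendsto : Tendsto cy0 (𝓝[≠] 0) (𝓝[≠] (-(mm0:ℂ))) := by
  rw [tendsto_nhdsWithin_iff]
  constructor
  · have := ext_cy_cont.tendsto 0
    rw [ext_cy_zero] at this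
    exact this.mono_left nhdsWithin_le_nhds
  · filter_upwards [self_mem_nhdsWithin] with y hy
    intro h
    apply hy
    have h2 : (cy0 y).im = (-(mm0:ℂ)).im := by rw [h]
    simpa [cy0] using h2

/-- near the midpoint the side accumulates -/
theorem ext_freq (P : ℂ → Prop) (hP : ∀ᶠ z in 𝓝 (-(mm0:ℂ)), z ∈ Tri → s0 z = z → P z) :
    ∃ᶠ z in 𝓝[≠] (-(mm0:ℂ)), P z := by
  apply ext_cy_tendsto.frequently
  apply Eventually.frequently
  have h1 : Tendsto cy0 (𝓝[≠] 0) (𝓝 (-(mm0:ℂ))) :=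
    tendsto_nhds_of_tendsto_nhdsWithin ext_cy_tendsto
  have h2 : ∀ᶠ z in 𝓝 (-(mm0:ℂ)), ‖z‖ < rv := by
    apply continuous_norm.continuousAt.eventually_lt_const
    show ‖(-(mm0:ℂ))‖ < rv
    rw [ext_mu_norm]; exact ext_mm0_lt_rv
  have h3 : ∀ᶠ y in 𝓝[≠] (0:ℝ), y^2 ≤ aa^2 - 1 := by
    apply eventually_nhdsWithin_of_eventually_nhds
    have : ContinuousAt (fun y : ℝ => y^2) 0 := by fun_prop
    have h4 := this.eventually_lt_const (u := aa^2 - 1) (by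
      have := aa_gt
      show (0:ℝ)^2 < aa^2 - 1
      nlinarith)
    filter_upwards [h4] with y hy using hy.le
  filter_upwards [h1.eventually hP, h1.eventually h2, h3] with y hy1 hy2 hy3
  have hq := ext_cy_q hy3
  apply hy1
  · apply tri_bdry hy2.le (k := 0)
    simpa using hq
  · exact ext_s0_fix (lt_trans hy2 rv_lt) hq

/-! ### the identity theorem -/

/-- `F1` is holomorphic on the open face -/
theorem ext_F1_diff {F1 : ℂ → ℂ}
    (hloc : ∀ ζ ∈ Tri, ∃ δ > 0, ∃ G : ℂ → ℂ, DifferentiableOn ℂ G (ball ζ δ) ∧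
      (∀ z ∈ ball ζ δ ∩ Tri, G z = F1 z)) : DifferentiableOn ℂ F1 Tin := by
  intro ζ hζ
  obtain ⟨δ, hδ, G, hG, hGF⟩ := hloc ζ (tin_sub hζ)
  have h1 : DifferentiableAt ℂ G ζ := hG.differentiableAt (ball_mem_nhds ζ hδ)
  apply DifferentiableAt.differentiableWithinAt
  apply h1.congr_of_eventuallyEq
  filter_upwards [ball_mem_nhds ζ hδ, tin_open.mem_nhds hζ] with z hz1 hz2
  exact (hGF z ⟨hz1, tin_sub hz2⟩).symm

theorem ext_tin_conn (R : ℝ) (hR : 0 < R) : IsPreconnected (Tin ∩ ball (0:ℂ) R) := by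
  have h0 : (0:ℂ) ∈ Tin ∩ ball (0:ℂ) R := by
    refine ⟨?_, mem_ball_self hR⟩
    have := tri_star (z := 0) zero_mem_tri (r := 0) le_rfl one_pos
    simpa using this
  have h1 : StarConvex ℝ (0:ℂ) (Tin ∩ ball (0:ℂ) R) := by
    rw [starConvex_zero_iff]
    rintro z ⟨hz1, hz2⟩ a ha0 ha1
    rw [Complex.real_smul]
    rcases eq_or_lt_of_le ha1 with h | h
    · subst h
      rw [Complex.ofReal_one, one_mul]
      exact ⟨hz1, hz2⟩
    · refine ⟨tri_star (tin_sub hz1) ha0 h, ?_⟩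
      rw [mem_ball_zero_iff] at hz2 ⊢
      rw [norm_mul, Complex.norm_real, Real.norm_eq_abs, abs_of_nonneg ha0]
      nlinarith [norm_nonneg z]
  exact (h1.isPathConnected h0).isConnected.isPreconnected

theorem ext_identity {f g : ℂ → ℂ} {U : Set ℂ} (hU : IsOpen U) (hc : IsPreconnected U)
    (hf : DifferentiableOn ℂ f U) (hg : DifferentiableOn ℂ g U) {z0 : ℂ} (h0 : z0 ∈ U)
    (he : ∀ᶠ z in 𝓝 z0, f z = g z) : ∀ z ∈ U, f z = g z :=
  (hf.analyticOnNhd hU).eqOn_of_preconnected_of_eventuallyEq (hg.analyticOnNhd hU) hc h0 he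

/-- (1) `f = F1` on the part of the open face in the ball -/
theorem ext_tin {F1 f : ℂ → ℂ} (h1 : DifferentiableOn ℂ F1 Tin) {R0 R : ℝ} (hR0 : 0 < R0)
    (hRR : R0 ≤ R) (hf : DifferentiableOn ℂ f (ball 0 R))
    (hfF : ∀ z ∈ ball (0:ℂ) R0, f z = F1 z) : ∀ z ∈ Tin ∩ ball (0:ℂ) R, f z = F1 z := by
  have hR : 0 < R := lt_of_lt_of_le hR0 hRR
  have h0 : (0:ℂ) ∈ Tin ∩ ball (0:ℂ) R := by
    refine ⟨?_, mem_ball_self hR⟩
    have := tri_star (z := 0) zero_mem_tri (r := 0) le_rfl one_pos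
    simpa using this
  apply ext_identity (tin_open.inter isOpen_ball) (ext_tin_conn R hR)
    (hf.mono inter_subset_right) (h1.mono inter_subset_left) h0
  filter_upwards [ball_mem_nhds (0:ℂ) hR0] with z hz using hfF z hz

/-- (2) local extensions at points of the face agree with `f` -/
theorem ext_face {F1 f : ℂ → ℂ} (h1 : DifferentiableOn ℂ F1 Tin) {R0 R : ℝ} (hR0 : 0 < R0)
    (hRR : R0 ≤ R) (hf : DifferentiableOn ℂ f (ball 0 R))
    (hfF : ∀ z ∈ ball (0:ℂ) R0, f z = F1 z) {ζ : ℂ} (hζ : ζ ∈ Tri) (hζR : ‖ζ‖ ≤ R) {δ : ℝ}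
    (hδ : 0 < δ) {G : ℂ → ℂ} (hG : DifferentiableOn ℂ G (ball ζ δ))
    (hGF : ∀ z ∈ ball ζ δ ∩ Tri, G z = F1 z) : ∀ z ∈ ball ζ δ ∩ ball (0:ℂ) R, G z = f z := by
  have hR : 0 < R := lt_of_lt_of_le hR0 hRR
  have hconv : IsPreconnected (ball ζ δ ∩ ball (0:ℂ) R) :=
    ((convex_ball ζ δ).inter (convex_ball 0 R)).isPreconnected
  obtain ⟨r, hr0, hr1, hr2⟩ : ∃ r : ℝ, 0 ≤ r ∧ r < 1 ∧ 1 - r < δ := by
    refine ⟨max 0 (1 - δ/2), le_max_left _ _, max_lt one_pos (by linarith), ?_⟩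
    have := le_max_right 0 (1 - δ/2)
    linarith
  have hz0 : (r:ℂ) * ζ ∈ Tin := tri_star hζ hr0 hr1
  have hzb : (r:ℂ) * ζ ∈ ball ζ δ := by
    rw [mem_ball, dist_eq_norm]
    have : (r:ℂ) * ζ - ζ = -(((1 - r : ℝ):ℂ) * ζ) := by push_cast; ring
    rw [this, norm_neg, norm_mul, Complex.norm_real, Real.norm_eq_abs,
      abs_of_pos (by linarith)]
    have := hζ.1
    nlinarith [norm_nonneg ζ]
  have hzR : (r:ℂ) * ζ ∈ ball (0:ℂ) R := by
    rw [mem_ball_zero_iff, norm_mul, Complex.norm_real, Real.norm_eq_abs, abs_of_nonneg hr0]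
    nlinarith [norm_nonneg ζ]
  have hT := ext_tin h1 hR0 hRR hf hfF
  apply ext_identity (isOpen_ball.inter isOpen_ball) hconv (hG.mono inter_subset_left)
    (hf.mono inter_subset_right) ⟨hzb, hzR⟩
  filter_upwards [isOpen_ball.mem_nhds hzb, isOpen_ball.mem_nhds hzR, tin_open.mem_nhds hz0] with
    z hz1 hz2 hz3
  rw [hGF z ⟨hz1, tin_sub hz3⟩, hT z ⟨hz3, hz2⟩]

/-- rotation -/
theorem ext_rot {F1 f : ℂ → ℂ} (hrt : ∀ z ∈ Tri, F1 (om * z) = om * F1 z) {R0 R : ℝ}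
    (hR0 : 0 < R0) (hsub : ball (0:ℂ) R0 ⊆ Tin)
    (hRR : R0 ≤ R) (hf : DifferentiableOn ℂ f (ball 0 R))
    (hfF : ∀ z ∈ ball (0:ℂ) R0, f z = F1 z) : ∀ z ∈ ball (0:ℂ) R, f (om * z) = om * f z := by
  have hR : 0 < R := lt_of_lt_of_le hR0 hRR
  have hom : ∀ z : ℂ, ‖om * z‖ = ‖z‖ := by
    intro z; rw [norm_mul, om_norm, one_mul]
  apply ext_identity isOpen_ball (convex_ball 0 R).isPreconnected (f := fun z => f (om * z))
    (g := fun z => om * f z) _ (hf.const_mul om) (mem_ball_self hR)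
  · filter_upwards [ball_mem_nhds (0:ℂ) hR0] with z hz
    have hz' : om * z ∈ ball (0:ℂ) R0 := by
      rw [mem_ball_zero_iff] at hz ⊢
      rwa [hom]
    rw [hfF _ hz', hfF z hz, hrt z (tin_sub (hsub hz))]
  · apply hf.comp (differentiableOn_id.const_mul om)
    intro z hz
    rw [mem_ball_zero_iff] at hz ⊢
    simp only [id]
    rwa [hom]

theorem ext_rot_pow {f : ℂ → ℂ} {R : ℝ} (h : ∀ z ∈ ball (0:ℂ) R, f (om * z) = om * f z) (k : ℕ) :
    ∀ z ∈ ball (0:ℂ) R, f (om^k * z) = om^k * f z := by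
  induction k with
  | zero => intro z _; simp
  | succ k ih =>
    intro z hz
    have hz' : om^k * z ∈ ball (0:ℂ) R := by
      rw [mem_ball_zero_iff] at hz ⊢
      rwa [norm_mul, norm_pow, om_norm, one_pow, one_mul]
    rw [pow_succ', mul_assoc, h _ hz', ih z hz, mul_assoc]

/-- near the midpoint -/
theorem ext_mid {F1 f : ℂ → ℂ}
    (hloc : ∀ ζ ∈ Tri, ∃ δ > 0, ∃ G : ℂ → ℂ, DifferentiableOn ℂ G (ball ζ δ) ∧
      (∀ z ∈ ball ζ δ ∩ Tri, G z = F1 z))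
    (hside : ∀ z ∈ Tri, s0 z = z → F1 z = -bt - conj (F1 z))
    {R0 R : ℝ} (hR0 : 0 < R0) (hRR : R0 ≤ R) (hmR : mm0 < R)
    (hf : DifferentiableOn ℂ f (ball 0 R))
    (hfF : ∀ z ∈ ball (0:ℂ) R0, f z = F1 z) :
    ∀ᶠ z in 𝓝 (-(mm0:ℂ)), f z = rfl0 f z := by
  obtain ⟨δ, hδ, G, hG, hGF⟩ := hloc _ ext_mu_tri
  have hGf := ext_face (ext_F1_diff hloc) hR0 hRR hf hfF ext_mu_tri
    (by rw [ext_mu_norm]; exact hmR.le) hδ hG hGF
  have hs0 : Tendsto s0 (𝓝 (-(mm0:ℂ))) (𝓝 (-(mm0:ℂ))) := by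
    have := ext_s0_cont ext_mu_ball
    unfold ContinuousAt at this
    rwa [ext_mu_fix] at this
  have e1 : ∀ᶠ z in 𝓝 (-(mm0:ℂ)), z ∈ ball (-(mm0:ℂ)) δ := ball_mem_nhds _ hδ
  have e2 : ∀ᶠ z in 𝓝 (-(mm0:ℂ)), z ∈ ball (0:ℂ) R :=
    isOpen_ball.mem_nhds (by rw [mem_ball_zero_iff, ext_mu_norm]; exact hmR)
  have e3 : ∀ᶠ z in 𝓝 (-(mm0:ℂ)), z ∈ ball (0:ℂ) 1 :=
    isOpen_ball.mem_nhds (by rw [mem_ball_zero_iff]; exact ext_mu_ball)
  have e4 := hs0.eventually e1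
  have e5 := hs0.eventually e2
  have hGan : AnalyticAt ℂ G (-(mm0:ℂ)) := hG.analyticAt (ball_mem_nhds _ hδ)
  have hTan : AnalyticAt ℂ (rfl0 G) (-(mm0:ℂ)) := by
    rw [analyticAt_iff_eventually_differentiableAt]
    filter_upwards [e3, e4] with z hz3 hz4
    rw [mem_ball_zero_iff] at hz3
    exact ext_rfl0_diff hz3 (hG.differentiableAt (isOpen_ball.mem_nhds hz4))
  have hfr : ∃ᶠ z in 𝓝[≠] (-(mm0:ℂ)), G z = rfl0 G z := by
    apply ext_freq
    filter_upwards [e1] with z hz1 hz2 hz3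
    have h1 := hGF z ⟨hz1, hz2⟩
    rw [rfl0, hz3, h1]
    exact hside z hz2 hz3
  have hev := (hGan.frequently_eq_iff_eventually_eq hTan).1 hfr
  filter_upwards [e1, e2, e4, e5, hev] with z hz1 hz2 hz4 hz5 hz6
  have h1 := hGf z ⟨hz1, hz2⟩
  have h2 := hGf (s0 z) ⟨hz4, hz5⟩
  rw [← h1, hz6, rfl0, rfl0, h2]

/-- the set where both `z` and its reflection are in the ball is convex -/
theorem ext_conv {R : ℝ} (hR : 0 < R) (hR1 : R ≤ 1) :
    Convex ℝ {z : ℂ | ‖z‖ < R ∧ ‖s0 z‖ < R} := by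
  have haa := aa_gt
  have h1 : {z : ℂ | ‖z‖ < R ∧ ‖s0 z‖ < R} =
      ball (0:ℂ) R ∩ {z : ℂ | (aa^2 - R^2) * ‖z‖^2 + 2*aa*(1-R^2)*z.re < R^2*aa^2 - 1} := by
    ext z
    constructor
    · rintro ⟨hz1, hz2⟩
      refine ⟨by rwa [mem_ball_zero_iff], ?_⟩
      rw [ext_s0_lt (lt_of_lt_of_le hz1 hR1) hR] at hz2
      show (aa^2 - R^2) * ‖z‖^2 + 2*aa*(1-R^2)*z.re < R^2*aa^2 - 1
      linarith
    · rintro ⟨hz1, hz2⟩
      rw [mem_ball_zero_iff] at hz1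
      refine ⟨hz1, ?_⟩
      rw [ext_s0_lt (lt_of_lt_of_le hz1 hR1) hR]
      have hz2' : (aa^2 - R^2) * ‖z‖^2 + 2*aa*(1-R^2)*z.re < R^2*aa^2 - 1 := hz2
      linarith
  rw [h1]
  apply (convex_ball 0 R).inter
  intro z hz w hw a b ha hb hab
  have hz' : (aa^2 - R^2) * ‖z‖^2 + 2*aa*(1-R^2)*z.re < R^2*aa^2 - 1 := hz
  have hw' : (aa^2 - R^2) * ‖w‖^2 + 2*aa*(1-R^2)*w.re < R^2*aa^2 - 1 := hw
  show (aa^2 - R^2) * ‖a • z + b • w‖^2 + 2*aa*(1-R^2)*(a • z + b • w).re < R^2*aa^2 - 1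
  have hA : 0 < aa^2 - R^2 := by nlinarith
  have h2 : ‖a • z + b • w‖^2 ≤ a * ‖z‖^2 + b * ‖w‖^2 := by
    rw [ext_nsq, ext_nsq, ext_nsq]
    have hb' : b = 1 - a := by linarith
    subst hb'
    simp only [Complex.add_re, Complex.add_im, Complex.real_smul, Complex.mul_re, Complex.mul_im,
      Complex.ofReal_re, Complex.ofReal_im, zero_mul, sub_zero, add_zero]
    nlinarith [mul_nonneg (mul_nonneg ha hb) (sq_nonneg (z.re - w.re)),
      mul_nonneg (mul_nonneg ha hb) (sq_nonneg (z.im - w.im))]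
  have h3 : (a • z + b • w).re = a * z.re + b * w.re := by simp
  rw [h3]
  have h4 := mul_le_mul_of_nonneg_left h2 hA.le
  rcases eq_or_lt_of_le ha with h | h
  · have hb1 : b = 1 := by linarith
    subst hb1
    rw [← h] at h4 ⊢
    nlinarith
  · have h5 := mul_lt_mul_of_pos_left hz' h
    have h6 := mul_le_mul_of_nonneg_left hw'.le hb
    have h7 : a * (R^2*aa^2 - 1) + b * (R^2*aa^2 - 1) = R^2*aa^2 - 1 := by
      rw [← add_mul, hab, one_mul]
    linarith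

/-- functional equation on the intersection of the ball and its reflection -/
theorem ext_refl_eq {F1 f : ℂ → ℂ}
    (hloc : ∀ ζ ∈ Tri, ∃ δ > 0, ∃ G : ℂ → ℂ, DifferentiableOn ℂ G (ball ζ δ) ∧
      (∀ z ∈ ball ζ δ ∩ Tri, G z = F1 z))
    (hside : ∀ z ∈ Tri, s0 z = z → F1 z = -bt - conj (F1 z))
    {R0 R : ℝ} (hR0 : 0 < R0) (hRR : R0 ≤ R) (hR1 : R ≤ 1) (hmR : mm0 < R)
    (hf : DifferentiableOn ℂ f (ball 0 R))
    (hfF : ∀ z ∈ ball (0:ℂ) R0, f z = F1 z) :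
    ∀ z : ℂ, ‖z‖ < R → ‖s0 z‖ < R → f z = rfl0 f z := by
  have hR : 0 < R := lt_of_lt_of_le hR0 hRR
  have hopen : IsOpen {z : ℂ | ‖z‖ < R ∧ ‖s0 z‖ < R} := by
    rw [isOpen_iff_mem_nhds]
    rintro z ⟨hz1, hz2⟩
    have h1 : ∀ᶠ w in 𝓝 z, ‖w‖ < R := continuous_norm.continuousAt.eventually_lt_const hz1
    have h2 : ∀ᶠ w in 𝓝 z, ‖s0 w‖ < R :=
      (ext_s0_cont (lt_of_lt_of_le hz1 hR1)).norm.eventually_lt_const hz2
    filter_upwards [h1, h2] with w hw1 hw2 using ⟨hw1, hw2⟩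
  intro z hz1 hz2
  refine ext_identity (U := {z : ℂ | ‖z‖ < R ∧ ‖s0 z‖ < R}) hopen (ext_conv hR hR1).isPreconnected
    (hf.mono ?_) ?_ (z0 := -(mm0:ℂ)) ?_ (ext_mid hloc hside hR0 hRR hmR hf hfF) z ⟨hz1, hz2⟩
  · rintro w ⟨hw1, _⟩
    rwa [mem_ball_zero_iff]
  · rintro w ⟨hw1, hw2⟩
    apply DifferentiableAt.differentiableWithinAt
    apply ext_rfl0_diff (lt_of_lt_of_le hw1 hR1)
    apply hf.differentiableAt
    apply isOpen_ball.mem_nhds
    rwa [mem_ball_zero_iff]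
  · refine ⟨by rw [ext_mu_norm]; exact hmR, ?_⟩
    rw [ext_mu_fix, ext_mu_norm]
    exact hmR

theorem ext_refl (F1 : ℂ → ℂ)
    (hloc : ∀ ζ ∈ Tri, ∃ δ > 0, ∃ G : ℂ → ℂ, DifferentiableOn ℂ G (ball ζ δ) ∧
      (∀ z ∈ ball ζ δ ∩ Tri, G z = F1 z))
    (hside : ∀ z ∈ Tri, s0 z = z → F1 z = -bt - conj (F1 z))
    (hcj : ∀ z ∈ Tri, F1 (conj z) = conj (F1 z))
    (hrt : ∀ z ∈ Tri, F1 (om * z) = om * F1 z) :
    ∃ F : ℂ → ℂ, DifferentiableOn ℂ F (ball 0 1) ∧ (∀ z ∈ Tri, F z = F1 z) ∧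
      (∀ z ∈ ball (0:ℂ) 1, F (conj z) = conj (F z)) ∧ (∀ z ∈ ball (0:ℂ) 1, F (om * z) = om * F z) ∧
      (∀ z ∈ ball (0:ℂ) 1, F (s0 z) = -bt - conj (F z)) := by
  have h0 : (0:ℂ) ∈ Tin := by
    have := tri_star (z := 0) zero_mem_tri (r := 0) le_rfl one_pos
    simpa using this
  obtain ⟨R1, hR1, hsub1⟩ := Metric.isOpen_iff.1 tin_open 0 h0
  obtain ⟨R0, hR0, hR0lt, hsub⟩ : ∃ R0 : ℝ, 0 < R0 ∧ R0 < 1 ∧ ball (0:ℂ) R0 ⊆ Tin := by
    refine ⟨min R1 (1/2), lt_min hR1 (by norm_num), ?_, ?_⟩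
    · exact lt_of_le_of_lt (min_le_right _ _) (by norm_num)
    · exact (ball_subset_ball (min_le_left _ _)).trans hsub1
  have hF1 := ext_F1_diff hloc
  obtain ⟨F, hF, hFF⟩ := cont_ball F1 hR0 hR0lt (hF1.mono hsub) (by
    intro R hRR hRlt f hf hfF ζ hζ
    have hR : 0 < R := lt_of_lt_of_le hR0 hRR
    by_cases hT : ζ ∈ Tri
    · obtain ⟨δ, hδ, G, hG, hGF⟩ := hloc ζ hT
      exact ⟨δ, hδ, G, hG, ext_face hF1 hR0 hRR hf hfF hT hζ.le hδ hG hGF⟩
    · obtain ⟨k, hk⟩ : ∃ k : ℕ, ‖ζ‖^2 + 2*aa*(ζ*om^k).re + 1 < 0 := by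
        by_contra hcon
        push Not at hcon
        exact hT ⟨by rw [hζ]; exact hRlt, hcon⟩
      have hnk : ∀ z : ℂ, ‖om^k * z‖ = ‖z‖ := by
        intro z; rw [norm_mul, norm_pow, om_norm, one_pow, one_mul]
      have hk0 : om^k ≠ 0 := by
        intro h
        have := hnk 1
        rw [h] at this
        simp at this
      have hζ1 : ‖om^k * ζ‖ < 1 := by rw [hnk, hζ]; exact hRlt
      have hq : ‖om^k * ζ‖^2 + 2*aa*(om^k * ζ).re + 1 < 0 := by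
        rw [hnk, mul_comm (om^k)]; exact hk
      have hdec : ‖s0 (om^k * ζ)‖ < R := by
        have := ext_s0_dec hζ1 (by rw [hnk, hζ]; exact hR) hq
        rwa [hnk, hζ] at this
      have hmR : mm0 < R := by
        apply ext_mm0_lt hRlt
        rw [hnk, hζ] at hq
        have h1 : |(om^k * ζ).re| ≤ ‖om^k * ζ‖ := Complex.abs_re_le_norm _
        rw [hnk, hζ] at h1
        have h2 := neg_abs_le (om^k * ζ).re
        have h3 := aa_gt
        nlinarith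
      have hev : ∀ᶠ z in 𝓝 ζ, ‖om^k * z‖ < 1 ∧ ‖s0 (om^k * z)‖ < R := by
        have hc : ContinuousAt (fun z : ℂ => om^k * z) ζ := by fun_prop
        have h1 : ∀ᶠ z in 𝓝 ζ, ‖om^k * z‖ < 1 := hc.norm.eventually_lt_const hζ1
        have h2 : ContinuousAt (fun z : ℂ => s0 (om^k * z)) ζ :=
          ContinuousAt.comp (f := fun z : ℂ => om^k * z) (g := s0) (ext_s0_cont hζ1) hc
        have h3 := h2.norm.eventually_lt_const hdec
        filter_upwards [h1, h3] with z hz1 hz3 using ⟨hz1, hz3⟩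
      obtain ⟨δ, hδ, hball⟩ := Metric.eventually_nhds_iff_ball.1 hev
      have hrotk := ext_rot_pow (ext_rot hrt hR0 hsub hRR hf hfF) k
      refine ⟨δ, hδ, fun z => (om^k)⁻¹ * rfl0 f (om^k * z), ?_, ?_⟩
      · intro z hz
        obtain ⟨hz1, hz2⟩ := hball z hz
        apply DifferentiableAt.differentiableWithinAt
        apply DifferentiableAt.const_mul
        have h1 : DifferentiableAt ℂ (rfl0 f) (om^k * z) := by
          apply ext_rfl0_diff hz1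
          apply hf.differentiableAt
          apply isOpen_ball.mem_nhds
          rwa [mem_ball_zero_iff]
        exact DifferentiableAt.comp (f := fun z : ℂ => om^k * z) (g := rfl0 f) z h1
          (differentiableAt_id.const_mul _)
      · rintro z ⟨hz, hzR⟩
        obtain ⟨hz1, hz2⟩ := hball z hz
        have hzR' : ‖om^k * z‖ < R := by
          rw [hnk]; rwa [mem_ball_zero_iff] at hzR
        have h1 := ext_refl_eq hloc hside hR0 hRR hRlt.le hmR hf hfF (om^k * z) hzR' hz2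
        show (om^k)⁻¹ * rfl0 f (om^k * z) = f z
        rw [← h1, hrotk z hzR, ← mul_assoc, inv_mul_cancel₀ hk0, one_mul])
  refine ⟨F, hF, ?_, ?_, ?_, ?_⟩
  · intro z hz
    obtain ⟨δ, hδ, G, hG, hGF⟩ := hloc z hz
    have h1 := ext_face hF1 hR0 hR0lt.le hF hFF hz hz.1.le hδ hG hGF z
      ⟨mem_ball_self hδ, by rw [mem_ball_zero_iff]; exact hz.1⟩
    rw [← h1, hGF z ⟨mem_ball_self hδ, hz⟩]
  · have h1 : ∀ z ∈ ball (0:ℂ) 1, F z = conj (F (conj z)) := by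
      apply ext_identity isOpen_ball (convex_ball 0 1).isPreconnected hF
        (g := fun z => conj (F (conj z))) _ (mem_ball_self one_pos)
      · filter_upwards [ball_mem_nhds (0:ℂ) hR0] with z hz
        have hz' : conj z ∈ ball (0:ℂ) R0 := by
          rw [mem_ball_zero_iff] at hz ⊢
          rwa [RCLike.norm_conj]
        rw [hFF _ hz', hFF z hz, hcj z (tin_sub (hsub hz)), Complex.conj_conj]
      · intro z hz
        apply DifferentiableAt.differentiableWithinAt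
        have h2 : DifferentiableAt ℂ F (conj z) := by
          apply hF.differentiableAt
          apply isOpen_ball.mem_nhds
          rw [mem_ball_zero_iff] at hz ⊢
          rwa [RCLike.norm_conj]
        have h3 := h2.conj_conj
        rw [Complex.conj_conj] at h3
        exact h3
    intro z hz
    have hz' : conj z ∈ ball (0:ℂ) 1 := by
      rw [mem_ball_zero_iff] at hz ⊢
      rwa [RCLike.norm_conj]
    rw [h1 _ hz', Complex.conj_conj]
  · exact ext_rot hrt hR0 hsub hR0lt.le hF hFF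
  · intro z hz
    rw [mem_ball_zero_iff] at hz
    have h1 := ext_refl_eq hloc hside hR0 hR0lt.le le_rfl ext_mm0_lt_one hF hFF z hz
      (ext_s0_ball hz)
    rw [h1, rfl0]
    simp

end AG
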