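import Pool.Agent.Bloch.Hypcont

/-!
Gamma function identities.
-/

set_option autoImplicit false

noncomputable section

namespace AG

open Complex Metric Set
open scoped ComplexConjugate

private theorem g13 : 0 < Real.Gamma (1/3) := Real.Gamma_pos_of_pos (by norm_num)
private theorem g23 : 0 < Real.Gamma (2/3) := Real.Gamma_pos_of_pos (by norm_num)
private theorem g14 : 0 < Real.Gamma (1/4) := Real.Gamma_pos_of_pos (by norm_num)
private theorem g34 : 0 < Real.Gamma (3/4) := Real.Gamma_pos_of_pos (by norm_num)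
private theorem g112 : 0 < Real.Gamma (1/12) := Real.Gamma_pos_of_pos (by norm_num)
private theorem g1112 : 0 < Real.Gamma (11/12) := Real.Gamma_pos_of_pos (by norm_num)
private theorem g712 : 0 < Real.Gamma (7/12) := Real.Gamma_pos_of_pos (by norm_num)
private theorem g16 : 0 < Real.Gamma (1/6) := Real.Gamma_pos_of_pos (by norm_num)
private theorem g43 : Real.Gamma (4/3) = Real.Gamma (1/3) / 3 := by
  have h := Real.Gamma_add_one (s := 1/3) (by norm_num)
  rw [show (1/3 + 1 : ℝ) = 4/3 by norm_num] at h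
  rw [h]; ring

private theorem s3 : 0 < 1 + Real.sqrt 3 := by positivity

private theorem rvp : 0 < rv := by unfold rv; positivity

private theorem rvsq : rv * rv * (1 + Real.sqrt 3) = 1 := by
  unfold rv
  have h := Real.mul_self_sqrt s3.le
  have h2 : 0 < Real.sqrt (1 + Real.sqrt 3) := Real.sqrt_pos.2 s3
  field_simp
  nlinarith [h]

private theorem sin12 : Real.sin (Real.pi * (1/12)) = Real.sqrt 2 * (Real.sqrt 3 - 1) / 4 := by
  rw [show Real.pi * (1/12) = Real.pi / 3 - Real.pi / 4 by ring, Real.sin_sub,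
    Real.sin_pi_div_three, Real.cos_pi_div_three, Real.sin_pi_div_four, Real.cos_pi_div_four]
  ring

private theorem sin4 : Real.sin (Real.pi * (1/4)) = Real.sqrt 2 / 2 := by
  rw [show Real.pi * (1/4) = Real.pi / 4 by ring, Real.sin_pi_div_four]

/-- the reflection formula for the two products -/
private theorem key : Real.Gamma (1/12) * Real.Gamma (11/12)
    = (1 + Real.sqrt 3) * (Real.Gamma (1/4) * Real.Gamma (3/4)) := by
  have h1 := Real.Gamma_mul_Gamma_one_sub (1/12)
  have h2 := Real.Gamma_mul_Gamma_one_sub (1/4)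
  rw [show (1 - 1/12 : ℝ) = 11/12 by norm_num, sin12] at h1
  rw [show (1 - 1/4 : ℝ) = 3/4 by norm_num, sin4] at h2
  rw [h1, h2]
  have h3 : Real.sqrt 3 * Real.sqrt 3 = 3 := Real.mul_self_sqrt (by norm_num)
  have h4 : 0 < Real.sqrt 2 := by positivity
  have h5 : 1 < Real.sqrt 3 := by
    rw [show (1 : ℝ) = Real.sqrt 1 by simp]
    exact Real.sqrt_lt_sqrt (by norm_num) (by norm_num)
  have h6 : Real.sqrt 3 - 1 ≠ 0 := by linarith
  field_simp
  nlinarith [h3]

private theorem btp : 0 < bt := by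
  unfold bt
  have := g13; have := g1112; have := g14
  have := rvp
  positivity

theorem cc_pos : 0 < cc := by
  unfold cc
  have := btp; have := g23; have := g13
  positivity

private theorem e1z : EI (5/12) (1/12) (7/12) 0
    = ((Real.Gamma (1/12) * Real.Gamma (7/12) / Real.Gamma (2/3) : ℝ) : ℂ) := by
  rw [EI_zero _ _ _ (by norm_num) (by norm_num)]
  norm_num

private theorem e2z : EI (5/12) (3/4) (7/12) 0
    = ((Real.Gamma (3/4) * Real.Gamma (7/12) / Real.Gamma (4/3) : ℝ) : ℂ) := by
  rw [EI_zero _ _ _ (by norm_num) (by norm_num)]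
  norm_num

private theorem e3z : EI (2/3) (1/3) 1 0 = 3 := by
  rw [EI_zero _ _ _ (by norm_num) (by norm_num)]
  rw [show (1/3 + 1 : ℝ) = 4/3 by norm_num, g43, Real.Gamma_one]
  have := g13.ne'
  rw [show Real.Gamma (1/3) * 1 / (Real.Gamma (1/3) / 3) = 3 by field_simp]
  norm_num

private theorem e1o : EI (5/12) (1/12) (7/12) 1
    = ((Real.Gamma (1/12) * Real.Gamma (1/6) / Real.Gamma (1/4) : ℝ) : ℂ) := by
  rw [EI_one _ _ _ (by norm_num) (by norm_num)]
  norm_num

private theorem e2o : EI (5/12) (3/4) (7/12) 1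
    = ((Real.Gamma (3/4) * Real.Gamma (1/6) / Real.Gamma (11/12) : ℝ) : ℂ) := by
  rw [EI_one _ _ _ (by norm_num) (by norm_num)]
  norm_num

private theorem e3o : EI (2/3) (1/3) 1 1
    = ((Real.Gamma (1/3) * Real.Gamma (1/3) / Real.Gamma (2/3) : ℝ) : ℂ) := by
  rw [EI_one _ _ _ (by norm_num) (by norm_num)]
  norm_num

theorem f1_one : f1 1 ≠ 0 := by
  unfold f1
  rw [e1z, e1o]
  have := g112; have := g16; have := g14; have := g712; have := g23
  rw [← Complex.ofReal_div, Complex.ofReal_ne_zero]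
  positivity

/-- normalisation of `zz` in terms of the unnormalised integrals -/
theorem zz_EI (x : ℂ) : zz x = (rv:ℂ)⁻¹ * x * EI (5/12) (3/4) (7/12) (x^3) / EI (5/12) (1/12) (7/12) (x^3) := by
  have h : (cc : ℂ) * EI (5/12) (1/12) (7/12) 0 / EI (5/12) (3/4) (7/12) 0 = (rv : ℂ)⁻¹ := by
    rw [e1z, e2z, ← Complex.ofReal_mul, ← Complex.ofReal_div, ← Complex.ofReal_inv]
    congr 1
    rw [g43]
    unfold cc bt
    have h1 := key
    have h2 := rvsq
    have hrv : 1 / Real.sqrt (1 + Real.sqrt 3) = rv := rfl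
    rw [hrv]
    have := g112.ne'; have := g16.ne'; have := g14.ne'; have := g712.ne'; have := g23.ne'
    have := g13.ne'; have := g34.ne'; have := g1112.ne'
    have h3 := rvp.ne'
    field_simp
    rw [show rv ^ 2 * Real.Gamma (11/12) * Real.Gamma (1/12)
      = rv ^ 2 * (Real.Gamma (1/12) * Real.Gamma (11/12)) by ring, h1]
    linear_combination (Real.Gamma (1/4) * Real.Gamma (3/4)) * h2
  unfold zz f1 f2
  rw [← h, div_div_eq_mul_div]
  ring

theorem zz_one : zz 1 = rv := by
  rw [zz_EI, one_pow, e1o, e2o]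
  have h1 := key
  have h2 := rvsq
  have := g112.ne'; have := g16.ne'; have := g14.ne'
  have := g34.ne'; have := g1112.ne'
  have h3 := rvp.ne'
  rw [← Complex.ofReal_inv, mul_one, ← Complex.ofReal_mul, ← Complex.ofReal_div]
  congr 1
  field_simp
  rw [show rv ^ 2 * Real.Gamma (11/12) * Real.Gamma (1/12)
    = rv ^ 2 * (Real.Gamma (1/12) * Real.Gamma (11/12)) by ring, h1]
  linear_combination -(Real.Gamma (1/4) * Real.Gamma (3/4)) * h2

theorem ww_one : ww 1 = bt := by
  unfold ww f3
  rw [one_pow, e3z, e3o]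
  unfold cc
  have := g13.ne'; have := g23.ne'
  rw [show (3 : ℂ) = ((3 : ℝ) : ℂ) by norm_num, mul_one, ← Complex.ofReal_div,
    ← Complex.ofReal_mul]
  congr 1
  field_simp

end AG
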