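import Pool.Agent.Bloch.Defs

/-!
Geometry of the central face (module GEOM of the Bloch project).
-/

set_option autoImplicit false

noncomputable section

namespace AG

open Complex Metric Set
open scoped ComplexConjugate

theorem geom_s3 : Real.sqrt 3 ^ 2 = 3 := Real.sq_sqrt (by norm_num)

theorem geom_s3_pos : 0 < Real.sqrt 3 := Real.sqrt_pos.mpr (by norm_num)

theorem rv_pos : 0 < rv := by
  have := geom_s3_pos
  unfold rv
  positivity

theorem rv_sq : rv^2 = 1 / (1 + Real.sqrt 3) := by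
  have h := geom_s3_pos
  unfold rv
  rw [div_pow, one_pow, Real.sq_sqrt (by positivity)]

theorem rv_lt : rv < 1 := by
  have h := geom_s3_pos
  have h1 : rv ^ 2 < 1 := by
    rw [rv_sq, div_lt_one (by positivity)]
    linarith
  nlinarith [rv_pos]

theorem bt_pos : 0 < bt := by
  have h := geom_s3_pos
  have h1 : 0 < Real.Gamma (1/3) := Real.Gamma_pos_of_pos (by norm_num)
  have h2 : 0 < Real.Gamma (11/12) := Real.Gamma_pos_of_pos (by norm_num)
  have h3 : 0 < Real.Gamma (1/4) := Real.Gamma_pos_of_pos (by norm_num)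
  unfold bt
  positivity

/-- `aa = rv + 1/rv` -/
theorem aa_eq : aa * rv = 1 + rv^2 := by
  have h := geom_s3_pos
  have e : aa * rv = (2 + Real.sqrt 3) * rv^2 := by unfold aa; ring
  rw [e, rv_sq]
  field_simp
  ring

theorem aa_gt : 2 < aa := by
  have h := rv_pos
  have h1 := rv_lt
  have h2 := aa_eq
  by_contra hc
  push Not at hc
  nlinarith [sq_nonneg (rv - 1), mul_pos h h, sq_pos_of_pos (sub_pos.mpr h1)]

theorem om_re : om.re = -1/2 := rfl
theorem om_im : om.im = Real.sqrt 3 / 2 := rfl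

theorem om_sq : om^2 = ⟨-1/2, -(Real.sqrt 3 / 2)⟩ := by
  have h := geom_s3
  apply Complex.ext
  · simp only [pow_two, Complex.mul_re, om_re, om_im]
    nlinarith
  · simp only [pow_two, Complex.mul_im, om_re, om_im]
    ring

theorem om_cube : om^3 = 1 := by
  have h := geom_s3
  rw [pow_succ, om_sq]
  apply Complex.ext
  · simp only [Complex.mul_re, om_re, om_im, Complex.one_re]
    nlinarith
  · simp only [Complex.mul_im, om_re, om_im, Complex.one_im]
    ring

theorem om_conj : conj om = om^2 := by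
  rw [om_sq]
  apply Complex.ext
  · simp [om_re]
  · simp [om_im]

theorem om_norm : ‖om‖ = 1 := by
  have h : ‖om‖^3 = 1 := by rw [← norm_pow, om_cube, norm_one]
  exact (pow_eq_one_iff_of_nonneg (norm_nonneg _) (by norm_num)).mp h

theorem om_sum : 1 + om + om^2 = 0 := by
  rw [om_sq]
  apply Complex.ext
  · simp only [Complex.add_re, om_re, Complex.one_re, Complex.zero_re]
    norm_num
  · simp only [Complex.add_im, om_im, Complex.one_im, Complex.zero_im]
    ring

theorem om_exp : om = exp (2 * Real.pi * I / 3) := by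
  have e : (2 * Real.pi * I / 3 : ℂ) = ((Real.pi - Real.pi / 3 : ℝ) : ℂ) * I := by
    push_cast
    ring
  rw [e, Complex.exp_mul_I, ← Complex.ofReal_cos, ← Complex.ofReal_sin, Real.cos_pi_sub,
    Real.sin_pi_sub, Real.cos_pi_div_three, Real.sin_pi_div_three]
  apply Complex.ext
  · simp [om_re]
    norm_num
  · simp [om_im]

/-- powers of `om` only depend on the exponent modulo 3 -/
theorem om_pow_mod (k : ℕ) : om^k = om^(k % 3) := by
  conv_lhs => rw [← Nat.div_add_mod k 3, pow_add, pow_mul, om_cube, one_pow, one_mul]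

theorem om_pow_cases (P : ℂ → Prop) (h0 : P 1) (h1 : P om) (h2 : P (om^2)) (k : ℕ) :
    P (om^k) := by
  rw [om_pow_mod k]
  have h : k % 3 < 3 := Nat.mod_lt _ (by norm_num)
  interval_cases k % 3
  · simpa using h0
  · simpa using h1
  · exact h2

theorem mul_om_re (z : ℂ) : (z * om).re = -z.re/2 - Real.sqrt 3 / 2 * z.im := by
  rw [Complex.mul_re, om_re, om_im]
  ring

theorem mul_om_sq_re (z : ℂ) : (z * om^2).re = -z.re/2 + Real.sqrt 3 / 2 * z.im := by
  rw [om_sq, Complex.mul_re]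
  ring

theorem norm_sq_re_im (z : ℂ) : ‖z‖^2 = z.re^2 + z.im^2 := by
  rw [← Complex.normSq_eq_norm_sq, Complex.normSq_apply]
  ring

/-- among the three directions one has small real part -/
theorem exists_dir (z : ℂ) : ∃ k : ℕ, (z * om^k).re ≤ -(‖z‖/2) := by
  by_contra hc
  push Not at hc
  have h0 := hc 0
  have h1 := hc 1
  have h2 := hc 2
  rw [pow_zero, mul_one] at h0
  rw [pow_one, mul_om_re] at h1
  rw [mul_om_sq_re] at h2
  have hn := norm_sq_re_im z
  have hs := geom_s3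
  have hsp := geom_s3_pos
  set m := ‖z‖ with hm
  have hm0 : 0 ≤ m := norm_nonneg z
  set x := z.re
  set y := z.im
  set s := Real.sqrt 3
  -- x > -m/2, -x/2 - s/2 y > -m/2, -x/2 + s/2 y > -m/2
  have a1 : 0 < (m - x) - s * y := by linarith
  have a2 : 0 < (m - x) + s * y := by linarith
  have a3 : 0 < (m - x)^2 - 3 * y^2 := by
    have := mul_pos a1 a2
    nlinarith
  have a4 : 0 < m - x := by linarith
  nlinarith

/-- complement of a compact star shaped set of the plane -/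
theorem geom_compl (K : Set ℂ) (R : ℝ) (h0 : (0:ℂ) ∈ K) (hR : ∀ z ∈ K, ‖z‖ < R)
    (hs : ∀ z ∈ K, ∀ r : ℝ, 0 ≤ r → r < 1 → (r:ℂ) * z ∈ K) : IsPreconnected Kᶜ := by
  have hRpos : 0 < R := by simpa using hR 0 h0
  have hout : IsPreconnected {z : ℂ | R ≤ ‖z‖} := by
    have e : {z : ℂ | R ≤ ‖z‖} = (fun p : ℝ × ℂ => (p.1:ℂ) * p.2) '' (Ici R ×ˢ sphere (0:ℂ) 1) := by
      ext z
      constructor
      · intro hz
        have hz' : R ≤ ‖z‖ := hz
        have hzp : 0 < ‖z‖ := lt_of_lt_of_le hRpos hz'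
        refine ⟨(‖z‖, z / ‖z‖), ⟨hz', ?_⟩, ?_⟩
        · rw [mem_sphere_zero_iff_norm, norm_div, Complex.norm_real, norm_norm, div_self hzp.ne']
        · have : ((‖z‖:ℝ):ℂ) ≠ 0 := by exact_mod_cast hzp.ne'
          show ((‖z‖:ℝ):ℂ) * (z / ‖z‖) = z
          field_simp
      · rintro ⟨⟨r, u⟩, ⟨hr, hu⟩, rfl⟩
        have hr' : R ≤ r := hr
        have hu' : ‖u‖ = 1 := by simpa using hu
        show R ≤ ‖(r:ℂ) * u‖
        rw [norm_mul, hu', mul_one, Complex.norm_real, Real.norm_eq_abs]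
        exact le_trans hr' (le_abs_self r)
    rw [e]
    apply IsPreconnected.image
    · exact isPreconnected_Ici.prod
        (isPreconnected_sphere (by rw [Complex.rank_real_complex]; exact Nat.one_lt_ofNat) 0 1)
    · fun_prop
  apply isPreconnected_of_forall (R:ℂ)
  intro y hy
  have hy0 : y ≠ 0 := by
    rintro rfl
    exact hy h0
  have hyp : 0 < ‖y‖ := norm_pos_iff.mpr hy0
  have hray : IsPreconnected ((fun r : ℝ => (r:ℂ) * y) '' Ici 1) :=
    isPreconnected_Ici.image _ (by fun_prop)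
  refine ⟨((fun r : ℝ => (r:ℂ) * y) '' Ici 1) ∪ {z : ℂ | R ≤ ‖z‖}, ?_, ?_, ?_, ?_⟩
  · apply union_subset
    · rintro _ ⟨r, hr, rfl⟩ hk
      have hr1 : (1:ℝ) ≤ r := hr
      rcases eq_or_lt_of_le hr1 with h | h
      · apply hy
        rw [← h] at hk
        simpa using hk
      · apply hy
        have := hs _ hk (r⁻¹) (by positivity) (inv_lt_one_of_one_lt₀ h)
        have hrc : (r:ℂ) ≠ 0 := by
          have : r ≠ 0 := by linarith
          exact_mod_cast this
        simpa [← mul_assoc, hrc] using this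
    · intro z hz hk
      exact absurd (hR z hk) (not_lt.mpr hz)
  · right
    show R ≤ ‖(R:ℂ)‖
    rw [Complex.norm_real, Real.norm_eq_abs]
    exact le_abs_self R
  · left
    exact ⟨1, by simp, by simp⟩
  · refine IsPreconnected.union ((max 1 (R / ‖y‖) : ℝ) * y) ⟨max 1 (R / ‖y‖), mem_Ici.mpr (le_max_left _ _), rfl⟩
      ?_ hray hout
    show R ≤ ‖((max 1 (R / ‖y‖) : ℝ) : ℂ) * y‖
    rw [norm_mul, Complex.norm_real, Real.norm_eq_abs]
    calc R = R / ‖y‖ * ‖y‖ := by field_simp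
      _ ≤ |max 1 (R / ‖y‖)| * ‖y‖ := by
        apply mul_le_mul_of_nonneg_right _ (norm_nonneg _)
        exact le_trans (le_max_right _ _) (le_abs_self _)

/-- sharp bound used for closedness too: norm at most one suffices -/
theorem geom_rv {z : ℂ} (h1 : ‖z‖ ≤ 1) (h : ∀ k : ℕ, 0 ≤ ‖z‖^2 + 2*aa*(z*om^k).re + 1) :
    ‖z‖ ≤ rv := by
  obtain ⟨k, hk⟩ := exists_dir z
  have h2 := h k
  have h3 : 0 ≤ ‖z‖^2 - aa * ‖z‖ + 1 := by
    have := aa_gt
    nlinarith
  have h4 := aa_eq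
  have h5 := rv_pos
  have h6 := rv_lt
  by_contra hc
  push Not at hc
  -- rv*(m^2 - aa m + 1) = (m - rv) (rv m - 1)
  have h7 : rv * (‖z‖^2 - aa * ‖z‖ + 1) = (‖z‖ - rv) * (rv * ‖z‖ - 1) := by
    linear_combination (-‖z‖) * h4
  have h8 : rv * ‖z‖ - 1 < 0 := by nlinarith
  nlinarith [mul_nonneg h5.le h3, mul_pos (sub_pos.mpr hc) (neg_pos.mpr h8)]

theorem tri_rv {z : ℂ} (hz : z ∈ Tri) : ‖z‖ ≤ rv := geom_rv hz.1.le hz.2

theorem tin_sub : Tin ⊆ Tri := fun _ hz => ⟨hz.1, fun k => (hz.2 k).le⟩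

theorem tin_open : IsOpen Tin := by
  have e : Tin = {z : ℂ | ‖z‖ < 1} ∩ ({z | 0 < ‖z‖^2 + 2*aa*(z*1).re + 1} ∩
      ({z | 0 < ‖z‖^2 + 2*aa*(z*om).re + 1} ∩ {z | 0 < ‖z‖^2 + 2*aa*(z*om^2).re + 1})) := by
    ext z
    constructor
    · intro hz
      refine ⟨hz.1, ?_, ?_, hz.2 2⟩
      · simpa using hz.2 0
      · simpa using hz.2 1
    · rintro ⟨h, h0, h1, h2⟩
      exact ⟨h, fun k => om_pow_cases (fun w => 0 < ‖z‖^2 + 2*aa*(z*w).re + 1) h0 h1 h2 k⟩
  rw [e]
  refine IsOpen.inter ?_ (IsOpen.inter ?_ (IsOpen.inter ?_ ?_))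
  · exact isOpen_lt (by fun_prop) (by fun_prop)
  · exact isOpen_lt (by fun_prop) (by fun_prop)
  · exact isOpen_lt (by fun_prop) (by fun_prop)
  · exact isOpen_lt (by fun_prop) (by fun_prop)

theorem tri_compact : IsCompact Tri := by
  have e : Tri = closedBall (0:ℂ) 1 ∩ ({z | 0 ≤ ‖z‖^2 + 2*aa*(z*1).re + 1} ∩
      ({z | 0 ≤ ‖z‖^2 + 2*aa*(z*om).re + 1} ∩ {z | 0 ≤ ‖z‖^2 + 2*aa*(z*om^2).re + 1})) := by
    ext z
    constructor
    · intro hz
      refine ⟨by simpa using hz.1.le, ?_, ?_, hz.2 2⟩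
      · simpa using hz.2 0
      · simpa using hz.2 1
    · rintro ⟨h, h0, h1, h2⟩
      have hk := fun k => om_pow_cases (fun w => 0 ≤ ‖z‖^2 + 2*aa*(z*w).re + 1) h0 h1 h2 k
      refine ⟨lt_of_le_of_lt (geom_rv (by simpa using h) hk) rv_lt, hk⟩
  rw [e]
  apply (isCompact_closedBall (0:ℂ) 1).inter_right
  refine IsClosed.inter ?_ (IsClosed.inter ?_ ?_)
  · exact isClosed_le (by fun_prop) (by fun_prop)
  · exact isClosed_le (by fun_prop) (by fun_prop)
  · exact isClosed_le (by fun_prop) (by fun_prop)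

theorem geom_real_mul_re (r : ℝ) (z w : ℂ) : ((r:ℂ) * z * w).re = r * (z * w).re := by
  rw [mul_assoc, Complex.re_ofReal_mul]

theorem tri_star {z : ℂ} (hz : z ∈ Tri) {r : ℝ} (h0 : 0 ≤ r) (h1 : r < 1) :
    (r:ℂ) * z ∈ Tin := by
  have hn : ‖(r:ℂ) * z‖ = r * ‖z‖ := by
    rw [norm_mul, Complex.norm_real, Real.norm_eq_abs, abs_of_nonneg h0]
  have hz1 := hz.1
  have hz0 := norm_nonneg z
  constructor
  · rw [hn]
    nlinarith
  · intro k
    rw [hn, geom_real_mul_re]
    have h := hz.2 k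
    have h2 : 0 ≤ r * (‖z‖^2 + 2*aa*(z*om^k).re + 1) := mul_nonneg h0 h
    have h3 : 0 < (1 - r) * (1 - r * ‖z‖^2) := by
      apply mul_pos (by linarith)
      nlinarith
    nlinarith

theorem zero_mem_tri : (0:ℂ) ∈ Tri := by
  constructor
  · simp
  · intro k
    simp

/-- points of the interior of a set may be pushed radially outwards -/
theorem geom_push {K : Set ℂ} {z : ℂ} (hz : z ∈ interior K) :
    ∃ r : ℝ, 0 ≤ r ∧ r < 1 ∧ ∃ w ∈ K, z = (r:ℂ) * w := by
  have hc : ContinuousAt (fun t : ℝ => (t:ℂ) * z) 1 := by fun_prop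
  have h1 : interior K ∈ nhds ((fun t : ℝ => (t:ℂ) * z) 1) := by
    simpa using isOpen_interior.mem_nhds hz
  have h2 := hc.preimage_mem_nhds h1
  obtain ⟨ε, hε, hb⟩ := Metric.mem_nhds_iff.mp h2
  have h3 : (1 + ε/2) ∈ ball (1:ℝ) ε := by
    rw [Metric.mem_ball, Real.dist_eq]
    rw [add_sub_cancel_left, abs_of_pos (by positivity)]
    linarith
  have h4 : ((1 + ε/2 : ℝ) : ℂ) * z ∈ K := interior_subset (hb h3)
  refine ⟨(1 + ε/2)⁻¹, by positivity, inv_lt_one_of_one_lt₀ (by linarith), _, h4, ?_⟩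
  have h5 : ((1 + ε/2 : ℝ) : ℂ) ≠ 0 := by
    have : (1 + ε/2 : ℝ) ≠ 0 := by positivity
    exact_mod_cast this
  rw [← mul_assoc, ← Complex.ofReal_mul, inv_mul_cancel₀ (by positivity), Complex.ofReal_one,
    one_mul]

theorem tri_int : interior Tri ⊆ Tin := by
  intro z hz
  obtain ⟨r, h0, h1, w, hw, rfl⟩ := geom_push hz
  exact tri_star hw h0 h1

theorem tri_compl : IsPreconnected (Triᶜ) :=
  geom_compl Tri 1 zero_mem_tri (fun _ hz => hz.1) (fun _ hz _ h0 h1 => tin_sub (tri_star hz h0 h1))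

theorem tri_om {z : ℂ} (hz : z ∈ Tri) : om * z ∈ Tri := by
  constructor
  · rw [norm_mul, om_norm, one_mul]
    exact hz.1
  · intro k
    have h := hz.2 (k+1)
    rw [norm_mul, om_norm, one_mul]
    have e : om * z * om^k = z * om^(k+1) := by ring
    rw [e]
    exact h

theorem tri_om_pow {z : ℂ} (hz : z ∈ Tri) (k : ℕ) : z * om^k ∈ Tri := by
  induction k with
  | zero => simpa using hz
  | succ n ih =>
    have e : z * om^(n+1) = om * (z * om^n) := by ring
    rw [e]
    exact tri_om ih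

theorem tri_conj {z : ℂ} (hz : z ∈ Tri) : conj z ∈ Tri := by
  constructor
  · rw [Complex.norm_conj]
    exact hz.1
  · intro k
    rw [Complex.norm_conj]
    have h := hz.2 (2*k)
    have e : conj z * om^k = conj (z * om^(2*k)) := by
      rw [map_mul, map_pow, om_conj, pow_mul, ← pow_mul om 2 2, ← pow_mul]
      congr 1
      rw [om_pow_mod k, om_pow_mod (2*2*k)]
      congr 1
      omega
    rw [e, Complex.conj_re]
    exact h

theorem tri_bdry {z : ℂ} (hz : ‖z‖ ≤ rv) {k : ℕ} (hk : ‖z‖^2 + 2*aa*(z*om^k).re + 1 = 0) :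
    z ∈ Tri := by
  -- it is enough to treat w = z * om^k
  have key : ∀ w : ℂ, ‖w‖ ≤ rv → ‖w‖^2 + 2*aa*w.re + 1 = 0 → w ∈ Tri := by
    intro w hw hw1
    have h4 := aa_eq
    have h5 := rv_pos
    have h6 := rv_lt
    have ha := aa_gt
    have hs := geom_s3
    have hsp := geom_s3_pos
    have hm0 := norm_nonneg w
    have hn := norm_sq_re_im w
    have h7 : rv * (‖w‖^2 - aa * ‖w‖ + 1) = (‖w‖ - rv) * (rv * ‖w‖ - 1) := by
      linear_combination (-‖w‖) * h4
    have h8 : rv * ‖w‖ - 1 < 0 := by nlinarith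
    have h9 : 0 ≤ ‖w‖^2 - aa * ‖w‖ + 1 := by
      by_contra hc
      push Not at hc
      have : rv * (‖w‖^2 - aa * ‖w‖ + 1) < 0 := mul_neg_of_pos_of_neg h5 hc
      have h10 : 0 ≤ (rv - ‖w‖) * (1 - rv * ‖w‖) :=
        mul_nonneg (by linarith) (by linarith)
      nlinarith
    set m := ‖w‖ with hm
    set x := w.re with hx
    set y := w.im with hy
    have hx0 : x < 0 := by nlinarith
    -- m ≤ -2 x
    have h11 : m ≤ -2 * x := by nlinarith
    have h12 : y^2 ≤ 3 * x^2 := by nlinarith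
    have h13 : |y| ≤ Real.sqrt 3 * (-x) := by
      apply abs_le_of_sq_le_sq _ (mul_nonneg hsp.le (by linarith))
      rw [mul_pow, hs]
      nlinarith
    have h14 := abs_le.mp h13
    constructor
    · linarith
    · intro j
      apply om_pow_cases (fun v => 0 ≤ ‖w‖^2 + 2*aa*(w*v).re + 1)
      · rw [mul_one]
        exact hw1.ge
      · rw [mul_om_re]
        have : 0 ≤ aa * (3 * (-x) - Real.sqrt 3 * y) := by
          apply mul_nonneg (by linarith)
          nlinarith [mul_le_mul_of_nonneg_left h14.2 hsp.le]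
        nlinarith
      · rw [mul_om_sq_re]
        have : 0 ≤ aa * (3 * (-x) + Real.sqrt 3 * y) := by
          apply mul_nonneg (by linarith)
          nlinarith [mul_le_mul_of_nonneg_left h14.1 hsp.le]
        nlinarith
  have h1 : ‖z * om^k‖ = ‖z‖ := by rw [norm_mul, norm_pow, om_norm, one_pow, mul_one]
  have h2 := key (z * om^k) (by rw [h1]; exact hz) (by rw [h1]; exact hk)
  have h3 := tri_om_pow h2 (2*k)
  have e : z * om^k * om^(2*k) = z := by
    rw [mul_assoc, ← pow_add]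
    have : k + 2*k = 3*k := by ring
    rw [this, pow_mul, om_cube, one_pow, mul_one]
  rwa [e] at h3

theorem rv_mem (k : ℕ) : (rv:ℂ) * om^k ∈ Tri := by
  apply tri_om_pow
  have hp := rv_pos
  have hn : ‖(rv:ℂ)‖ = rv := by
    rw [Complex.norm_real, Real.norm_eq_abs, abs_of_pos hp]
  apply tri_bdry (k := 1)
  · rw [hn]
  · rw [hn, pow_one, mul_om_re]
    simp only [Complex.ofReal_re, Complex.ofReal_im]
    have := aa_eq
    nlinarith

theorem del_star {z : ℂ} (hz : z ∈ Del) {r : ℝ} (h0 : 0 ≤ r) (h1 : r < 1) (k : ℕ) :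
    -(bt/2) < ((r:ℂ) * z * om^k).re := by
  rw [geom_real_mul_re]
  have h := hz k
  have hb := bt_pos
  nlinarith [mul_le_mul_of_nonneg_left h h0]

theorem del_int : interior Del ⊆ {w | ∀ k : ℕ, -(bt/2) < (w*om^k).re} := by
  intro z hz k
  obtain ⟨r, h0, h1, w, hw, rfl⟩ := geom_push hz
  exact del_star hw h0 h1 k

theorem zero_mem_del : (0:ℂ) ∈ Del := by
  intro k
  have := bt_pos
  simp
  linarith

theorem del_bt {z : ℂ} (hz : z ∈ Del) : ‖z‖ ≤ bt := by
  obtain ⟨k, hk⟩ := exists_dir z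
  have := hz k
  linarith

theorem del_compact : IsCompact Del := by
  have e : Del = closedBall (0:ℂ) bt ∩ ({z | -(bt/2) ≤ (z*1).re} ∩
      ({z | -(bt/2) ≤ (z*om).re} ∩ {z | -(bt/2) ≤ (z*om^2).re})) := by
    ext z
    constructor
    · intro hz
      refine ⟨by simpa using del_bt hz, ?_, ?_, hz 2⟩
      · simpa using hz 0
      · simpa using hz 1
    · rintro ⟨h, h0, h1, h2⟩
      exact fun k => om_pow_cases (fun w => -(bt/2) ≤ (z*w).re) h0 h1 h2 k
  rw [e]
  apply (isCompact_closedBall (0:ℂ) bt).inter_right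
  refine IsClosed.inter ?_ (IsClosed.inter ?_ ?_)
  · exact isClosed_le (by fun_prop) (by fun_prop)
  · exact isClosed_le (by fun_prop) (by fun_prop)
  · exact isClosed_le (by fun_prop) (by fun_prop)

theorem del_compl : IsPreconnected (Delᶜ) :=
  geom_compl Del (bt + 1) zero_mem_del (fun _ hz => by linarith [del_bt hz])
    (fun _ hz _ h0 h1 k => (del_star hz h0 h1 k).le)

end AG
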