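import Pool.Agent.Bloch.Defs

/-!
BLOCH, module HYPDER: derivative of the Euler integral under the integral sign.
-/

set_option autoImplicit false

noncomputable section

namespace AG

open Complex Metric Set MeasureTheory
open scoped ComplexConjugate

theorem hypder_wint (b d : ℝ) (hb : 0 < b) (hd : 0 < d) :
    IntervalIntegrable (fun t : ℝ => t^(b-1) * (1-t)^(d-1)) volume 0 1 := by
  have h := Complex.betaIntegral_convergent (u := (b:ℂ)) (v := (d:ℂ)) (by simpa using hb)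
    (by simpa using hd)
  have h2 := h.norm
  rw [intervalIntegrable_iff_integrableOn_Ioo_of_le zero_le_one] at h2 ⊢
  refine h2.congr_fun ?_ measurableSet_Ioo
  intro t ht
  have h0 : 0 < t := ht.1
  have h1 : 0 < 1 - t := by linarith [ht.2]
  simp only [norm_mul]
  have e1 : ‖(t:ℂ) ^ ((b:ℂ) - 1)‖ = t^(b-1) := by
    rw [Complex.norm_cpow_eq_rpow_re_of_pos h0]; simp
  have e2 : ‖(1 - (t:ℂ)) ^ ((d:ℂ) - 1)‖ = (1-t)^(d-1) := by
    have : (1 - (t:ℂ)) = ((1 - t : ℝ) : ℂ) := by push_cast; ring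
    rw [this, Complex.norm_cpow_eq_rpow_re_of_pos h1]; simp
  rw [e1, e2]

theorem hypder_wintC (b d : ℝ) (hb : 0 < b) (hd : 0 < d) :
    IntervalIntegrable (fun t : ℝ => ((t^(b-1) * (1-t)^(d-1) : ℝ) : ℂ)) volume 0 1 := by
  have h := hypder_wint b d hb hd
  rw [intervalIntegrable_iff] at h ⊢
  exact h.ofReal

theorem hypder_slit {y : ℂ} (hy : y ∈ SD) {t : ℝ} (ht0 : 0 ≤ t) (ht1 : t ≤ 1) :
    1 - (t:ℂ) * y ∈ slitPlane := by
  rw [Complex.mem_slitPlane_iff]
  by_cases h0 : y.im = 0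
  · left
    have h1 : y.re < 1 := by
      rcases hy with h | h
      · exact absurd h0 h
      · exact h
    simp only [sub_re, one_re, mul_re, ofReal_re, ofReal_im, zero_mul, sub_zero]
    by_cases h2 : y.re ≤ 0
    · nlinarith
    · push Not at h2
      nlinarith
  · by_cases h3 : t = 0
    · left; simp [h3]
    · right
      simp only [sub_im, one_im, mul_im, ofReal_re, ofReal_im, zero_mul, add_zero, zero_sub]
      exact neg_ne_zero.mpr (mul_ne_zero h3 h0)

theorem hypder_SD_open : IsOpen SD := by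
  have h1 : IsOpen {y : ℂ | y.im ≠ 0} := isOpen_ne_fun continuous_im continuous_const
  have h2 : IsOpen {y : ℂ | y.re < 1} := isOpen_lt continuous_re continuous_const
  exact h1.union h2

theorem hypder_cont (a : ℂ) :
    ContinuousOn (fun p : ℝ × ℂ => (1 - (p.1:ℂ) * p.2) ^ a) (Icc (0:ℝ) 1 ×ˢ SD) := by
  apply ContinuousOn.cpow
  · fun_prop
  · fun_prop
  · rintro ⟨t, y⟩ ⟨ht, hy⟩
    exact hypder_slit hy ht.1 ht.2

theorem hypder_cont1 (a : ℂ) {y : ℂ} (hy : y ∈ SD) :
    ContinuousOn (fun t : ℝ => (1 - (t:ℂ) * y) ^ a) (uIcc (0:ℝ) 1) := by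
  rw [uIcc_of_le zero_le_one]
  apply ContinuousOn.cpow
  · fun_prop
  · fun_prop
  · intro t ht
    exact hypder_slit hy ht.1 ht.2

theorem hypder_int (a b d : ℝ) (hb : 0 < b) (hd : 0 < d) {y : ℂ} (hy : y ∈ SD) :
    IntervalIntegrable (fun t : ℝ => ((t^(b-1) * (1-t)^(d-1) : ℝ) : ℂ) * (1 - t*y)^(-a : ℂ))
      volume 0 1 :=
  (hypder_wintC b d hb hd).mul_continuousOn (hypder_cont1 _ hy)

theorem EI_hasDeriv (a b d : ℝ) (hb : 0 < b) (hd : 0 < d) {y : ℂ} (hy : y ∈ SD) :
    HasDerivAt (EI a b d) (a * EI (a+1) (b+1) d y) y := by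
  obtain ⟨ε, hε, hball⟩ := Metric.isOpen_iff.mp hypder_SD_open y hy
  have hsub : closedBall y (ε/2) ⊆ SD :=
    (closedBall_subset_ball (by linarith)).trans hball
  obtain ⟨C, hC⟩ := (isCompact_Icc.prod (isCompact_closedBall y (ε/2))).exists_bound_of_continuousOn
    ((hypder_cont (-a - 1 : ℂ)).mono (prod_mono (subset_refl (Icc (0:ℝ) 1)) hsub))
  have hC0 : 0 ≤ C := (norm_nonneg _).trans (hC (0, y) ⟨⟨le_refl _, zero_le_one⟩,
    mem_closedBall_self (by linarith)⟩)
  have key := intervalIntegral.hasDerivAt_integral_of_dominated_loc_of_deriv_le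
    (μ := volume) (a := 0) (b := 1) (𝕜 := ℂ) (E := ℂ)
    (F := fun (z : ℂ) (t : ℝ) => ((t^(b-1) * (1-t)^(d-1) : ℝ) : ℂ) * (1 - t*z)^(-a : ℂ))
    (F' := fun (z : ℂ) (t : ℝ) => ((t^(b-1) * (1-t)^(d-1) : ℝ) : ℂ) *
      ((-a : ℂ) * (1 - t*z)^(-a - 1 : ℂ) * (-t)))
    (x₀ := y) (s := ball y (ε/2))
    (bound := fun t => |t^(b-1) * (1-t)^(d-1)| * (|a| * C))
    (ball_mem_nhds _ (by linarith)) ?_ ?_ ?_ ?_ ?_ ?_
  · have h2 := key.2
    have e : (∫ t in (0:ℝ)..1, ((t^(b-1) * (1-t)^(d-1) : ℝ) : ℂ) *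
      ((-a : ℂ) * (1 - t*y)^(-a - 1 : ℂ) * (-t))) = a * EI (a+1) (b+1) d y := by
      unfold EI
      rw [← intervalIntegral.integral_const_mul]
      rw [intervalIntegral.integral_of_le zero_le_one, intervalIntegral.integral_of_le zero_le_one,
        integral_Ioc_eq_integral_Ioo, integral_Ioc_eq_integral_Ioo]
      refine setIntegral_congr_fun measurableSet_Ioo ?_
      intro t ht
      have h0 : 0 < t := ht.1
      have e1 : t^(b+1-1) = t^(b-1) * t := by
        rw [show b + 1 - 1 = (b - 1) + 1 by ring, Real.rpow_add_one h0.ne']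
      have e2 : (-((a+1 : ℝ) : ℂ)) = -(a:ℂ) - 1 := by push_cast; ring
      simp only [e1, e2]
      push_cast
      ring
    rw [e] at h2
    exact h2
  · refine Filter.Eventually.of_forall (fun z => ?_)
    apply Measurable.aestronglyMeasurable
    fun_prop
  · exact hypder_int a b d hb hd hy
  · apply Measurable.aestronglyMeasurable
    fun_prop
  · refine Filter.Eventually.of_forall (fun t ht z hz => ?_)
    rw [uIoc_of_le zero_le_one] at ht
    have hc := hC (t, z) ⟨⟨ht.1.le, ht.2⟩, ball_subset_closedBall hz⟩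
    simp only at hc
    rw [norm_mul, norm_mul, norm_mul, Complex.norm_real, Real.norm_eq_abs, norm_neg, norm_neg,
      Complex.norm_real, Complex.norm_real, Real.norm_eq_abs, Real.norm_eq_abs]
    have ht1 : |t| ≤ 1 := by rw [abs_of_pos ht.1]; exact ht.2
    have h1 : |a| * ‖(1 - (t:ℂ)*z)^(-a - 1 : ℂ)‖ * |t| ≤ |a| * C := by
      calc |a| * ‖(1 - (t:ℂ)*z)^(-a - 1 : ℂ)‖ * |t| ≤ |a| * C * 1 := by
            apply mul_le_mul _ ht1 (abs_nonneg _) (mul_nonneg (abs_nonneg _) hC0)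
            exact mul_le_mul_of_nonneg_left hc (abs_nonneg _)
        _ = |a| * C := mul_one _
    exact mul_le_mul_of_nonneg_left h1 (abs_nonneg _)
  · exact ((hypder_wint b d hb hd).abs).mul_const _
  · refine Filter.Eventually.of_forall (fun t ht z hz => ?_)
    rw [uIoc_of_le zero_le_one] at ht
    have hz' : z ∈ SD := hsub (ball_subset_closedBall hz)
    have hs := hypder_slit hz' ht.1.le ht.2
    apply HasDerivAt.const_mul
    have h1 : HasDerivAt (fun z : ℂ => 1 - (t:ℂ) * z) (-(t:ℂ)) z := by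
      have := ((hasDerivAt_id z).const_mul (t:ℂ)).const_sub 1
      simpa using this
    exact h1.cpow_const hs

end AG
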