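import Pool.Agent.Bloch.Defs
import Pool.Agent.Bloch.Hypder

/-!
BLOCH, module HYPARG: conjugation symmetry and argument bounds of the Euler integral.
-/

set_option autoImplicit false

noncomputable section

namespace AG

open Complex Metric Set MeasureTheory
open scoped ComplexConjugate

theorem EI_conj (a b d : ℝ) {y : ℂ} (hy : y ∈ SD ∨ y = 1) :
    EI a b d (conj y) = conj (EI a b d y) := by
  unfold EI
  rw [intervalIntegral.integral_of_le zero_le_one, intervalIntegral.integral_of_le zero_le_one,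
    integral_Ioc_eq_integral_Ioo, integral_Ioc_eq_integral_Ioo, ← integral_conj]
  refine setIntegral_congr_fun measurableSet_Ioo ?_
  intro t ht
  have hs : 1 - (t:ℂ) * y ∈ slitPlane := by
    rcases hy with h | h
    · exact hypder_slit h ht.1.le ht.2.le
    · rw [Complex.mem_slitPlane_iff]; left
      subst h
      simpa using ht.2
  have harg : (1 - (t:ℂ) * y).arg ≠ Real.pi := Complex.slitPlane_arg_ne_pi hs
  simp only [map_mul, Complex.conj_ofReal]
  congr 1
  have e : 1 - (t:ℂ) * conj y = conj (1 - (t:ℂ) * y) := by simp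
  rw [e]
  have h2 := Complex.conj_cpow (1 - (t:ℂ) * y) (-a : ℂ) harg
  rw [h2]
  simp

theorem hyparg_im (z : ℂ) (φ : ℝ) :
    (z * exp (-(φ:ℂ) * I)).im = ‖z‖ * Real.sin (z.arg - φ) := by
  conv_lhs => rw [← Complex.norm_mul_exp_arg_mul_I z]
  have e : ((‖z‖ : ℝ) : ℂ) * exp (z.arg * I) * exp (-(φ:ℂ) * I)
      = ((‖z‖ : ℝ) : ℂ) * exp (((z.arg - φ : ℝ) : ℂ) * I) := by
    rw [mul_assoc, ← Complex.exp_add]
    congr 2
    push_cast; ring
  rw [e, Complex.im_ofReal_mul, Complex.exp_ofReal_mul_I_im]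

theorem hyparg_im2 {z w : ℂ} (hz : z ≠ 0) (hw : w ≠ 0) :
    z.im * w.re - z.re * w.im = ‖z‖ * ‖w‖ * Real.sin (z.arg - w.arg) := by
  have hz' : ‖z‖ ≠ 0 := norm_ne_zero_iff.mpr hz
  have hw' : ‖w‖ ≠ 0 := norm_ne_zero_iff.mpr hw
  rw [Real.sin_sub, Complex.sin_arg, Complex.sin_arg, Complex.cos_arg hz, Complex.cos_arg hw]
  field_simp

/-- a point of the closed disc other than 1 lies in the slit plane -/
theorem hyparg_re {y : ℂ} (hy : ‖y‖ ≤ 1) (hy1 : y ≠ 1) : y.re < 1 := by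
  by_contra h
  push Not at h
  have h1 : y.re ^ 2 + y.im ^ 2 ≤ 1 := by
    have h2 : ‖y‖ ^ 2 ≤ 1 := by
      have := norm_nonneg y
      nlinarith
    rw [← Complex.normSq_eq_norm_sq, Complex.normSq_apply] at h2
    nlinarith
  apply hy1
  have h3 : y.re = 1 := by nlinarith [sq_nonneg y.im]
  have h4 : y.im = 0 := by
    have : y.im ^ 2 ≤ 0 := by rw [h3] at h1; linarith
    exact pow_eq_zero_iff (two_ne_zero) |>.mp (le_antisymm this (sq_nonneg _))
  exact Complex.ext (by simpa using h3) (by simpa using h4)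

theorem hyparg_arg_neg {z : ℂ} (hr : 0 < z.re) (hi : z.im ≤ 0) :
    -(Real.pi / 2) < z.arg ∧ z.arg ≤ 0 := by
  have h1 : |z.arg| < Real.pi / 2 := Complex.abs_arg_lt_pi_div_two_iff.mpr (Or.inl hr)
  refine ⟨(abs_lt.mp h1).1, ?_⟩
  rcases lt_or_eq_of_le hi with h | h
  · exact (Complex.arg_neg_iff.mpr h).le
  · exact (Complex.arg_eq_zero_iff.mpr ⟨hr.le, h⟩).le

theorem hyparg_between {y : ℂ} (hr : y.re < 1) (hi : 0 ≤ y.im) {t : ℝ} (ht0 : 0 ≤ t)
    (ht1 : t ≤ 1) :
    0 < (1 - (t:ℂ) * y).re ∧ (1 - y).arg ≤ (1 - (t:ℂ) * y).arg ∧ (1 - (t:ℂ) * y).arg ≤ 0 := by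
  have hre : 0 < (1 - (t:ℂ) * y).re := by
    simp only [sub_re, one_re, mul_re, ofReal_re, ofReal_im, zero_mul, sub_zero]
    by_cases h2 : y.re ≤ 0
    · nlinarith
    · push Not at h2
      nlinarith
  have him : (1 - (t:ℂ) * y).im ≤ 0 := by
    simp only [sub_im, one_im, mul_im, ofReal_re, ofReal_im, zero_mul, add_zero, zero_sub]
    have := mul_nonneg ht0 hi
    linarith
  have hre1 : 0 < (1 - y).re := by simpa using hr
  have him1 : (1 - y).im ≤ 0 := by simpa using hi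
  have A := hyparg_arg_neg hre him
  have B := hyparg_arg_neg hre1 him1
  refine ⟨hre, ?_, A.2⟩
  by_contra hlt
  push Not at hlt
  have hz : (1 - (t:ℂ) * y) ≠ 0 := by
    intro h; rw [h] at hre; simp at hre
  have hw : (1 - y) ≠ 0 := by
    intro h; rw [h] at hre1; simp at hre1
  have h1 := hyparg_im2 hz hw
  have h2 : Real.sin ((1 - (t:ℂ) * y).arg - (1 - y).arg) < 0 := by
    apply Real.sin_neg_of_neg_of_neg_pi_lt
    · linarith
    · linarith [Real.pi_pos]
  have h3 : 0 < ‖1 - (t:ℂ) * y‖ * ‖1 - y‖ :=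
    mul_pos (norm_pos_iff.mpr hz) (norm_pos_iff.mpr hw)
  have h4 := mul_neg_of_pos_of_neg h3 h2
  rw [← h1] at h4
  simp only [sub_im, one_im, mul_im, ofReal_re, ofReal_im, zero_mul, add_zero, zero_sub,
    sub_re, one_re, mul_re, sub_zero] at h4
  have h5 : 0 ≤ (1 - t) * y.im := mul_nonneg (by linarith) hi
  nlinarith

theorem hyparg_cpow {z : ℂ} (hz : z ≠ 0) (a : ℝ) :
    (z ^ (-a : ℂ)).re = Real.exp (-(a * Real.log ‖z‖)) * Real.cos (a * z.arg) ∧
    ∀ φ : ℝ, ((z ^ (-a : ℂ)) * exp (-(φ:ℂ) * I)).im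
      = Real.exp (-(a * Real.log ‖z‖)) * Real.sin (-(a * z.arg) - φ) := by
  rw [Complex.cpow_def_of_ne_zero hz]
  constructor
  · rw [Complex.exp_re]
    have h1 : (Complex.log z * (-a : ℂ)).re = -(a * Real.log ‖z‖) := by
      simp [Complex.log_re, Complex.log_im]; ring
    have h2 : (Complex.log z * (-a : ℂ)).im = -(a * z.arg) := by
      simp [Complex.log_re, Complex.log_im]; ring
    rw [h1, h2, Real.cos_neg]
  · intro φ
    rw [← Complex.exp_add, Complex.exp_im]
    have h1 : (Complex.log z * (-a : ℂ) + -(φ:ℂ) * I).re = -(a * Real.log ‖z‖) := by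
      simp [Complex.log_re, Complex.log_im]; ring
    have h2 : (Complex.log z * (-a : ℂ) + -(φ:ℂ) * I).im = -(a * z.arg) - φ := by
      simp [Complex.log_re, Complex.log_im]; ring
    rw [h1, h2]

theorem EI_arg (a b d : ℝ) (ha : 0 < a) (ha1 : a < 1) (hb : 0 < b) (hd : 0 < d) {y : ℂ}
    (hy : ‖y‖ ≤ 1) (hy1 : y ≠ 1) (hi : 0 ≤ y.im) :
    EI a b d y ≠ 0 ∧ 0 ≤ (EI a b d y).arg ∧ (EI a b d y).arg ≤ - a * (1 - y).arg := by
  have hr := hyparg_re hy hy1
  have hSD : y ∈ SD := Or.inr hr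
  have hint := hypder_int a b d hb hd hSD
  have hre1 : 0 < (1 - y).re := by simpa using hr
  have him1 : (1 - y).im ≤ 0 := by simpa using hi
  have B := hyparg_arg_neg hre1 him1
  have hpi := Real.pi_pos
  -- pointwise facts
  have hw : ∀ t : ℝ, 0 ≤ t → t ≤ 1 → 0 ≤ t^(b-1) * (1-t)^(d-1) := fun t h0 h1 =>
    mul_nonneg (Real.rpow_nonneg h0 _) (Real.rpow_nonneg (by linarith) _)
  have hne : ∀ t : ℝ, 0 ≤ t → t ≤ 1 → 1 - (t:ℂ) * y ≠ 0 := fun t h0 h1 =>
    slitPlane_ne_zero (hypder_slit hSD h0 h1)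
  -- real part
  have hRe : 0 < (EI a b d y).re := by
    have e : (EI a b d y).re = ∫ t in (0:ℝ)..1,
        (((t^(b-1) * (1-t)^(d-1) : ℝ) : ℂ) * (1 - t*y)^(-a : ℂ)).re := by
      have := Complex.reCLM.intervalIntegral_comp_comm hint
      simpa [EI] using this.symm
    rw [e]
    apply intervalIntegral.intervalIntegral_pos_of_pos_on _ _ zero_lt_one
    · have h2 := hint
      rw [intervalIntegrable_iff] at h2 ⊢
      exact h2.re
    · intro t ht
      rw [Complex.re_ofReal_mul, (hyparg_cpow (hne t ht.1.le ht.2.le) a).1]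
      have A := hyparg_between hr hi ht.1.le ht.2.le
      have A2 := hyparg_arg_neg A.1 (by
        have := mul_nonneg ht.1.le hi
        simp only [sub_im, one_im, mul_im, ofReal_re, ofReal_im, zero_mul, add_zero, zero_sub]
        linarith)
      apply mul_pos
      · exact mul_pos (Real.rpow_pos_of_pos ht.1 _) (Real.rpow_pos_of_pos (by linarith [ht.2]) _)
      · apply mul_pos (Real.exp_pos _)
        apply Real.cos_pos_of_mem_Ioo
        constructor
        · nlinarith [A2.1, A2.2]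
        · nlinarith [A2.1, A2.2]
  -- rotated imaginary part
  have hrot : ∀ φ : ℝ, (EI a b d y * exp (-(φ:ℂ) * I)).im = ∫ t in (0:ℝ)..1,
      (t^(b-1) * (1-t)^(d-1)) * ((1 - t*y)^(-a : ℂ) * exp (-(φ:ℂ) * I)).im := by
    intro φ
    have h := Complex.imCLM.intervalIntegral_comp_comm (hint.mul_const (exp (-(φ:ℂ) * I)))
    rw [intervalIntegral.integral_mul_const] at h
    have h' : (EI a b d y * exp (-(φ:ℂ) * I)).im = ∫ t in (0:ℝ)..1,
        (((t^(b-1) * (1-t)^(d-1) : ℝ) : ℂ) * (1 - t*y)^(-a : ℂ) * exp (-(φ:ℂ) * I)).im := by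
      simpa [EI] using h.symm
    rw [h']
    congr 1
    ext t
    rw [mul_assoc, Complex.im_ofReal_mul]
  have hIm : 0 ≤ (EI a b d y).im := by
    have h := hrot 0
    have e0 : EI a b d y * exp (-((0:ℝ):ℂ) * I) = EI a b d y := by simp
    rw [e0] at h
    rw [h]
    apply intervalIntegral.integral_nonneg zero_le_one
    intro t ht
    apply mul_nonneg (hw t ht.1 ht.2)
    rw [(hyparg_cpow (hne t ht.1 ht.2) a).2]
    apply mul_nonneg (Real.exp_pos _).le
    have A := hyparg_between hr hi ht.1 ht.2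
    apply Real.sin_nonneg_of_nonneg_of_le_pi
    · nlinarith [A.2.2]
    · nlinarith [A.2.1, A.2.2, B.1]
  have hIm2 : (EI a b d y * exp (-((-a * (1 - y).arg : ℝ):ℂ) * I)).im ≤ 0 := by
    rw [hrot]
    have hneg : 0 ≤ ∫ t in (0:ℝ)..1, -((t^(b-1) * (1-t)^(d-1)) *
        ((1 - t*y)^(-a : ℂ) * exp (-((-a * (1 - y).arg : ℝ):ℂ) * I)).im) := by
      apply intervalIntegral.integral_nonneg zero_le_one
      intro t ht
      rw [(hyparg_cpow (hne t ht.1 ht.2) a).2]
      have A := hyparg_between hr hi ht.1 ht.2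
      have h1 : Real.sin (-(a * (1 - (t:ℂ)*y).arg) - -a * (1 - y).arg) ≤ 0 := by
        apply Real.sin_nonpos_of_nonpos_of_neg_pi_le
        · nlinarith [A.2.1]
        · nlinarith [A.2.1, A.2.2, B.1, B.2]
      have h2 := hw t ht.1 ht.2
      have h3 := (Real.exp_pos (-(a * Real.log ‖1 - (t:ℂ)*y‖))).le
      have h4 := mul_nonneg h2 (mul_nonneg h3 (neg_nonneg.mpr h1))
      linarith
    rw [intervalIntegral.integral_neg] at hneg
    linarith
  have hE : EI a b d y ≠ 0 := by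
    intro h; rw [h] at hRe; simp at hRe
  refine ⟨hE, Complex.arg_nonneg_iff.mpr hIm, ?_⟩
  by_contra hlt
  push Not at hlt
  rw [hyparg_im] at hIm2
  have h1 : |(EI a b d y).arg| < Real.pi / 2 := Complex.abs_arg_lt_pi_div_two_iff.mpr (Or.inl hRe)
  have h2 := (abs_lt.mp h1).2
  have h3 : 0 < Real.sin ((EI a b d y).arg - -a * (1 - y).arg) := by
    apply Real.sin_pos_of_pos_of_lt_pi
    · linarith
    · nlinarith [B.2]
  have h4 := mul_pos (norm_pos_iff.mpr hE) h3
  linarith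

end AG
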