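import Pool.Agent.Bloch.Defs
import Pool.Agent.Bloch.Hypder

/-!
BLOCH, module HYPCONT: continuity of the Euler integral on the closed disc and its values at 0, 1.
-/

set_option autoImplicit false

noncomputable section

namespace AG

open Complex Metric Set MeasureTheory
open scoped ComplexConjugate

theorem hypcont_slit {y : ℂ} (hy : ‖y‖ ≤ 1) {t : ℝ} (ht0 : 0 ≤ t) (ht1 : t < 1) :
    1 - (t:ℂ) * y ∈ slitPlane := by
  rw [Complex.mem_slitPlane_iff]
  left
  have h1 : y.re ≤ 1 := (Complex.re_le_norm y).trans hy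
  simp only [sub_re, one_re, mul_re, ofReal_re, ofReal_im, zero_mul, sub_zero]
  nlinarith

theorem hypcont_norm {y : ℂ} (hy : ‖y‖ ≤ 1) {t : ℝ} (ht0 : 0 ≤ t) :
    1 - t ≤ ‖1 - (t:ℂ) * y‖ := by
  have h1 : ‖(1:ℂ)‖ - ‖(t:ℂ) * y‖ ≤ ‖1 - (t:ℂ) * y‖ := norm_sub_norm_le _ _
  rw [norm_one, norm_mul, Complex.norm_real, Real.norm_eq_abs, abs_of_nonneg ht0] at h1
  nlinarith

theorem hypcont_bound (a b d : ℝ) (ha : 0 ≤ a) {y : ℂ} (hy : ‖y‖ ≤ 1) {t : ℝ}
    (ht0 : 0 < t) (ht1 : t < 1) :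
    ‖((t^(b-1) * (1-t)^(d-1) : ℝ) : ℂ) * (1 - t*y)^(-a : ℂ)‖ ≤ t^(b-1) * (1-t)^(d-a-1) := by
  have h1t : 0 < 1 - t := by linarith
  have e : (-a : ℂ) = ((-a : ℝ) : ℂ) := by push_cast; rfl
  have p0 : 0 ≤ t^(b-1) := Real.rpow_nonneg ht0.le _
  have p1 : 0 ≤ (1-t)^(d-1) := Real.rpow_nonneg h1t.le _
  rw [norm_mul, Complex.norm_real, Real.norm_eq_abs, abs_of_nonneg (mul_nonneg p0 p1), e,
    Complex.norm_cpow_real]
  have h2 : ‖1 - (t:ℂ) * y‖ ^ (-a) ≤ (1 - t)^(-a) :=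
    Real.rpow_le_rpow_of_nonpos h1t (hypcont_norm hy ht0.le) (by linarith)
  calc t^(b-1) * (1-t)^(d-1) * ‖1 - (t:ℂ) * y‖ ^ (-a)
      ≤ t^(b-1) * (1-t)^(d-1) * (1 - t)^(-a) := mul_le_mul_of_nonneg_left h2 (mul_nonneg p0 p1)
    _ = t^(b-1) * (1-t)^(d-a-1) := by
        rw [mul_assoc, ← Real.rpow_add h1t]
        congr 2; ring

theorem hypcont_ae : ∀ᵐ t : ℝ ∂volume, t ≠ 1 := by
  rw [ae_iff]
  simp

theorem EI_cont (a b d : ℝ) (ha : 0 ≤ a) (hb : 0 < b) (hd : a < d) :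
    ContinuousOn (EI a b d) (closedBall 0 1) := by
  intro y0 hy0
  refine intervalIntegral.continuousWithinAt_of_dominated_interval
    (bound := fun t => t^(b-1) * (1-t)^(d-a-1)) ?_ ?_ ?_ ?_
  · refine Filter.Eventually.of_forall (fun z => ?_)
    apply Measurable.aestronglyMeasurable
    fun_prop
  · refine Filter.eventually_of_mem self_mem_nhdsWithin (fun z hz => ?_)
    filter_upwards [hypcont_ae] with t ht1 ht
    rw [uIoc_of_le zero_le_one] at ht
    exact hypcont_bound a b d ha (by simpa using hz) ht.1 (lt_of_le_of_ne ht.2 ht1)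
  · exact hypder_wint b (d-a) hb (by linarith)
  · filter_upwards [hypcont_ae] with t ht1 ht
    rw [uIoc_of_le zero_le_one] at ht
    have hs := hypcont_slit (y := y0) (by simpa using hy0) ht.1.le (lt_of_le_of_ne ht.2 ht1)
    apply ContinuousAt.continuousWithinAt
    apply ContinuousAt.mul continuousAt_const
    have hc : ContinuousAt (fun x : ℂ => 1 - (t:ℂ) * x) y0 := by fun_prop
    exact hc.cpow continuousAt_const hs

theorem hypcont_beta (b d : ℝ) (hb : 0 < b) (hd : 0 < d) :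
    (∫ t in (0:ℝ)..1, ((t^(b-1) * (1-t)^(d-1) : ℝ) : ℂ)) =
      ((Real.Gamma b * Real.Gamma d / Real.Gamma (b + d) : ℝ) : ℂ) := by
  have h := Complex.Gamma_mul_Gamma_eq_betaIntegral (s := (b:ℂ)) (t := (d:ℂ)) (by simpa using hb)
    (by simpa using hd)
  have hG : Real.Gamma (b + d) ≠ 0 := (Real.Gamma_pos_of_pos (by linarith)).ne'
  have e : (∫ t in (0:ℝ)..1, ((t^(b-1) * (1-t)^(d-1) : ℝ) : ℂ)) = Complex.betaIntegral b d := by
    unfold Complex.betaIntegral
    rw [intervalIntegral.integral_of_le zero_le_one, intervalIntegral.integral_of_le zero_le_one,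
        integral_Ioc_eq_integral_Ioo, integral_Ioc_eq_integral_Ioo]
    refine setIntegral_congr_fun measurableSet_Ioo ?_
    intro t ht
    have h0 : 0 < t := ht.1
    have h1 : 0 < 1 - t := by linarith [ht.2]
    simp only
    rw [ofReal_mul, Complex.ofReal_cpow h0.le, Complex.ofReal_cpow h1.le]
    push_cast
    rfl
  rw [e]
  rw [← Complex.ofReal_add, Complex.Gamma_ofReal, Complex.Gamma_ofReal, Complex.Gamma_ofReal] at h
  have hG' : (Real.Gamma (b + d) : ℂ) ≠ 0 := by exact_mod_cast hG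
  push_cast
  rw [eq_div_iff hG', h]
  ring

theorem EI_zero (a b d : ℝ) (hb : 0 < b) (hd : 0 < d) :
    EI a b d 0 = ((Real.Gamma b * Real.Gamma d / Real.Gamma (b + d) : ℝ) : ℂ) := by
  rw [← hypcont_beta b d hb hd]
  unfold EI
  congr 1
  ext t
  simp

theorem EI_one (a b d : ℝ) (hb : 0 < b) (hd : a < d) :
    EI a b d 1 = ((Real.Gamma b * Real.Gamma (d - a) / Real.Gamma (b + d - a) : ℝ) : ℂ) := by
  rw [show b + d - a = b + (d - a) by ring, ← hypcont_beta b (d-a) hb (by linarith)]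
  unfold EI
  rw [intervalIntegral.integral_of_le zero_le_one, intervalIntegral.integral_of_le zero_le_one,
        integral_Ioc_eq_integral_Ioo, integral_Ioc_eq_integral_Ioo]
  refine setIntegral_congr_fun measurableSet_Ioo ?_
  intro t ht
  have h1 : 0 < 1 - t := by linarith [ht.2]
  have e : (-a : ℂ) = ((-a : ℝ) : ℂ) := by push_cast; rfl
  have e2 : (1 - (t:ℂ) * 1) = ((1 - t : ℝ) : ℂ) := by push_cast; ring
  simp only
  rw [e, e2, ← Complex.ofReal_cpow h1.le, ← Complex.ofReal_mul]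
  congr 1
  rw [mul_assoc, ← Real.rpow_add h1]
  congr 2; ring

end AG
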