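import Pool.Agent.Bloch.Hypder
import Pool.Agent.Bloch.Hypcont

/-!
Module HYPSYM: symmetry of the hypergeometric function, for the Euler integrals.
-/

set_option autoImplicit false

noncomputable section

namespace AG

open Complex Metric Set Filter Topology
open scoped ComplexConjugate

theorem hypsym_SD_open : IsOpen SD := by
  have : SD = {y : ℂ | y.im ≠ 0} ∪ {y : ℂ | y.re < 1} := rfl
  rw [this]
  apply IsOpen.union
  · exact isOpen_ne.preimage Complex.continuous_im
  · exact isOpen_Iio.preimage Complex.continuous_re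

theorem hypsym_SD_zero : (0:ℂ) ∈ SD := Or.inr (by simp)

theorem hypsym_SD_star : StarConvex ℝ 0 SD := by
  rw [starConvex_zero_iff]
  intro y hy r h0 h1
  rcases hy with hy | hy
  · rcases h0.eq_or_lt with rfl | h
    · rw [zero_smul]
      exact hypsym_SD_zero
    · left
      simp [hy, h.ne']
  · right
    simp only [Complex.real_smul, Complex.re_ofReal_mul]
    rcases le_or_gt y.re 0 with h | h
    · nlinarith
    · nlinarith

theorem hypsym_SD_conn : IsPreconnected SD :=
  (hypsym_SD_star.isPathConnected hypsym_SD_zero).isConnected.isPreconnected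

theorem hypsym_ball_sub : ball (0:ℂ) 1 ⊆ SD := by
  intro y hy
  right
  have : ‖y‖ < 1 := by simpa using hy
  exact lt_of_le_of_lt (Complex.re_le_norm y) this

/-- Pochhammer symbol -/
def hypsymP (a : ℝ) (n : ℕ) : ℝ := ∏ k ∈ Finset.range n, (a + k)

theorem hypsym_iter (a b d : ℝ) (hb : 0 < b) (hd : 0 < d) (n : ℕ) {y : ℂ} (hy : y ∈ SD) :
    iteratedDeriv n (EI a b d) y = hypsymP a n * EI (a + n) (b + n) d y := by
  induction n generalizing y with
  | zero => simp [hypsymP]
  | succ n ih =>
    rw [iteratedDeriv_succ]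
    have h1 : iteratedDeriv n (EI a b d) =ᶠ[𝓝 y] fun y => hypsymP a n * EI (a + n) (b + n) d y := by
      filter_upwards [hypsym_SD_open.mem_nhds hy] with z hz
      exact ih hz
    rw [h1.deriv_eq]
    have h2 := (EI_hasDeriv (a + n) (b + n) d (by positivity) hd hy).const_mul (hypsymP a n : ℂ)
    rw [h2.deriv]
    unfold hypsymP
    rw [Finset.prod_range_succ]
    push_cast
    rw [← mul_assoc, add_assoc a, add_assoc b]

theorem hypsym_gamma (b : ℝ) (hb : 0 < b) (n : ℕ) :
    Real.Gamma (b + n) = hypsymP b n * Real.Gamma b := by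
  induction n with
  | zero => simp [hypsymP]
  | succ n ih =>
    have h : b + n ≠ 0 := by positivity
    push_cast
    rw [← add_assoc, Real.Gamma_add_one h, ih]
    unfold hypsymP
    rw [Finset.prod_range_succ]
    ring

theorem hypsym_norm (a b d : ℝ) (hb : 0 < b) (hd : 0 < d) (n : ℕ) :
    iteratedDeriv n (EI a b d) 0 / EI a b d 0 =
      ((hypsymP a n * hypsymP b n / hypsymP (b + d) n : ℝ) : ℂ) := by
  rw [hypsym_iter a b d hb hd n hypsym_SD_zero, EI_zero _ _ _ hb hd,
    EI_zero _ _ _ (by positivity) hd, ← Complex.ofReal_mul, ← Complex.ofReal_div]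
  congr 1
  rw [show b + n + d = (b + d) + n by ring, hypsym_gamma b hb, hypsym_gamma (b + d) (by positivity)]
  have g1 := (Real.Gamma_pos_of_pos hb).ne'
  have g2 := (Real.Gamma_pos_of_pos hd).ne'
  have g3 := (Real.Gamma_pos_of_pos (add_pos hb hd)).ne'
  have g4 : hypsymP (b + d) n ≠ 0 := by
    unfold hypsymP
    exact Finset.prod_ne_zero_iff.mpr fun k _ => by positivity
  field_simp

theorem hypsym_diff (a b d : ℝ) (hb : 0 < b) (hd : 0 < d) : DifferentiableOn ℂ (EI a b d) SD :=
  fun _ hy => (EI_hasDeriv a b d hb hd hy).differentiableAt.differentiableWithinAt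

theorem EI_sym {y : ℂ} (hy : y ∈ SD) :
    EI (1/12) (5/12) (1/4) y / EI (1/12) (5/12) (1/4) 0 = f1 y := by
  have hd1 : DifferentiableOn ℂ (fun y => EI (1/12) (5/12) (1/4) y / EI (1/12) (5/12) (1/4) 0) SD :=
    (hypsym_diff _ _ _ (by norm_num) (by norm_num)).div_const _
  have hd2 : DifferentiableOn ℂ f1 SD := by
    unfold f1
    exact (hypsym_diff _ _ _ (by norm_num) (by norm_num)).div_const _
  have hE : EqOn (fun y => EI (1/12) (5/12) (1/4) y / EI (1/12) (5/12) (1/4) 0) f1 SD := by
    apply AnalyticOnNhd.eqOn_of_preconnected_of_eventuallyEq (z₀ := 0)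
      (hd1.analyticOnNhd hypsym_SD_open) (hd2.analyticOnNhd hypsym_SD_open) hypsym_SD_conn
      hypsym_SD_zero
    filter_upwards [isOpen_ball.mem_nhds (mem_ball_self (x := (0:ℂ)) one_pos)] with z hz
    have t1 := Complex.hasSum_taylorSeries_on_ball (hd1.mono hypsym_ball_sub) hz
    have t2 := Complex.hasSum_taylorSeries_on_ball (hd2.mono hypsym_ball_sub) hz
    refine t1.unique ?_
    convert t2 using 4 with n
    have e1 : iteratedDeriv n (fun y => EI (1/12) (5/12) (1/4) y / EI (1/12) (5/12) (1/4) 0) 0 =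
        iteratedDeriv n (EI (1/12) (5/12) (1/4)) 0 / EI (1/12) (5/12) (1/4) 0 := by
      rw [iteratedDeriv_div_const]
    have e2 : iteratedDeriv n f1 0 =
        iteratedDeriv n (EI (5/12) (1/12) (7/12)) 0 / EI (5/12) (1/12) (7/12) 0 := by
      unfold f1
      rw [iteratedDeriv_div_const]
    rw [e1, e2, hypsym_norm _ _ _ (by norm_num) (by norm_num),
      hypsym_norm _ _ _ (by norm_num) (by norm_num)]
    congr 1
    rw [show (5:ℝ)/12 + 1/4 = 1/12 + 7/12 by norm_num]
    ring
  exact hE hy

end AG
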