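import Pool.Agent.Bloch.Defs
import Pool.Agent.Bloch.Hypder

/-!
BLOCH, module HYPODE: hypergeometric equation of the Euler integral by one integration by parts.
-/

set_option autoImplicit false

noncomputable section

namespace AG

open Complex Metric Set MeasureTheory
open scoped ComplexConjugate

theorem hypode_cpow1 {z : ℂ} (hz : z ≠ 0) (a : ℝ) :
    z ^ (-((a+1 : ℝ) : ℂ)) = z ^ (-((a+2 : ℝ) : ℂ)) * z := by
  have : (-((a+1 : ℝ) : ℂ)) = (-((a+2 : ℝ) : ℂ)) + 1 := by push_cast; ring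
  rw [this, Complex.cpow_add _ _ hz, Complex.cpow_one]

theorem hypode_cpow0 {z : ℂ} (hz : z ≠ 0) (a : ℝ) :
    z ^ (-(a : ℂ)) = z ^ (-((a+2 : ℝ) : ℂ)) * z * z := by
  have : (-(a : ℂ)) = (-((a+1 : ℝ) : ℂ)) + 1 := by push_cast; ring
  rw [this, Complex.cpow_add _ _ hz, Complex.cpow_one, hypode_cpow1 hz]

theorem hypode_deriv (a b d : ℝ) {y : ℂ} (hy : y ∈ SD) {t : ℝ} (ht0 : 0 < t) (ht1 : t < 1) :
    HasDerivAt (fun t : ℝ => ((t^b * (1-t)^d : ℝ) : ℂ) * (1 - (t:ℂ)*y)^(-((a+1 : ℝ) : ℂ)))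
      (-(y * (1 - y) * ((a+1) * (((t^(b+2-1) * (1-t)^(d-1) : ℝ) : ℂ)
            * (1 - t*y)^(-((a+2 : ℝ) : ℂ)))) +
        ((b + d) - (a + b + 1) * y) * (((t^(b+1-1) * (1-t)^(d-1) : ℝ) : ℂ)
            * (1 - t*y)^(-((a+1 : ℝ) : ℂ))) -
        b * (((t^(b-1) * (1-t)^(d-1) : ℝ) : ℂ) * (1 - t*y)^(-a : ℂ)))) t := by
  have hs := hypder_slit hy ht0.le ht1.le
  have hne : 1 - (t:ℂ)*y ≠ 0 := slitPlane_ne_zero hs
  have h1t : 0 < 1 - t := by linarith
  have d1 : HasDerivAt (fun t : ℝ => t^b) (b * t^(b-1)) t :=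
    Real.hasDerivAt_rpow_const (Or.inl ht0.ne')
  have d2 : HasDerivAt (fun t : ℝ => (1-t)^d) (-(d * (1-t)^(d-1))) t := by
    have h : HasDerivAt (fun t : ℝ => 1 - t) (-1) t := by
      simpa using (hasDerivAt_id t).const_sub 1
    have h' := h.rpow_const (p := d) (Or.inl h1t.ne')
    simpa using h'
  have d3 := (d1.mul d2).ofReal_comp
  have d4 : HasDerivAt (fun s : ℂ => (1 - s*y)^(-((a+1 : ℝ) : ℂ)))
      ((-((a+1 : ℝ) : ℂ)) * (1 - t*y)^((-((a+1 : ℝ) : ℂ)) - 1) * (-y)) (t:ℂ) := by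
    have h : HasDerivAt (fun s : ℂ => 1 - s*y) (-y) (t:ℂ) := by
      have := ((hasDerivAt_id (t:ℂ)).mul_const y).const_sub 1
      simpa using this
    exact h.cpow_const hs
  have d5 := d4.comp_ofReal
  have d6 := d3.mul d5
  refine HasDerivAt.congr_deriv d6 ?_
  have e0 : (-((a+1 : ℝ) : ℂ)) - 1 = (-((a+2 : ℝ) : ℂ)) := by push_cast; ring
  rw [e0]
  have hb1 : t^b = t^(b-1) * t := by
    rw [← Real.rpow_add_one ht0.ne']; congr 1; ring
  have hb2 : t^(b+1-1) = t^(b-1) * t := by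
    rw [← Real.rpow_add_one ht0.ne']; congr 1; ring
  have hb3 : t^(b+2-1) = t^(b-1) * t * t := by
    rw [← Real.rpow_add_one ht0.ne', ← Real.rpow_add_one ht0.ne']; congr 1; ring
  have hd1 : (1-t)^d = (1-t)^(d-1) * (1-t) := by
    rw [← Real.rpow_add_one h1t.ne']; congr 1; ring
  simp only [Pi.mul_apply]
  rw [hypode_cpow0 hne a, hypode_cpow1 hne a, hb1, hb2, hb3, hd1]
  push_cast
  ring

theorem hypode_cont (a b d : ℝ) (hb : 0 < b) (hd : 0 < d) {y : ℂ} (hy : y ∈ SD) :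
    ContinuousOn (fun t : ℝ => ((t^b * (1-t)^d : ℝ) : ℂ) * (1 - (t:ℂ)*y)^(-((a+1 : ℝ) : ℂ)))
      (Icc 0 1) := by
  have h := hypder_cont1 (-((a+1 : ℝ) : ℂ)) hy
  rw [uIcc_of_le zero_le_one] at h
  refine ContinuousOn.mul ?_ h
  apply Continuous.continuousOn
  apply Complex.continuous_ofReal.comp
  apply Continuous.mul
  · exact Real.continuous_rpow_const hb.le
  · exact (Real.continuous_rpow_const hd.le).comp (continuous_const.sub continuous_id)

theorem EI_ode (a b d : ℝ) (hb : 0 < b) (hd : 0 < d) {y : ℂ} (hy : y ∈ SD) :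
    y * (1 - y) * (a * (a+1) * EI (a+2) (b+2) d y)
      + ((b + d) - (a + b + 1) * y) * (a * EI (a+1) (b+1) d y) - a * b * EI a b d y = 0 := by
  have hI0 := hypder_int a b d hb hd hy
  have hI1 := hypder_int (a+1) (b+1) d (by linarith) hd hy
  have hI2 := hypder_int (a+2) (b+2) d (by linarith) hd hy
  have hg := (((hI2.const_mul ((a:ℂ)+1)).const_mul (y * (1 - y))).add
    (hI1.const_mul ((b + d) - (a + b + 1) * y : ℂ))).sub (hI0.const_mul (b:ℂ))
  have hftc := intervalIntegral.integral_eq_sub_of_hasDerivAt_of_le (zero_le_one (α := ℝ))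
    (hypode_cont a b d hb hd hy) (fun t ht => hypode_deriv a b d hy ht.1 ht.2) hg.neg
  have hz : (((1:ℝ)^b * (1-(1:ℝ))^d : ℝ) : ℂ) * (1 - ((1:ℝ):ℂ)*y)^(-((a+1 : ℝ) : ℂ)) -
      (((0:ℝ)^b * (1-(0:ℝ))^d : ℝ) : ℂ) * (1 - ((0:ℝ):ℂ)*y)^(-((a+1 : ℝ) : ℂ)) = 0 := by
    rw [sub_self, Real.zero_rpow hd.ne', Real.zero_rpow hb.ne']
    simp
  rw [hz, intervalIntegral.integral_neg, intervalIntegral.integral_sub, intervalIntegral.integral_add,
    intervalIntegral.integral_const_mul, intervalIntegral.integral_const_mul,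
    intervalIntegral.integral_const_mul, intervalIntegral.integral_const_mul] at hftc
  · have h0 := neg_eq_zero.mp hftc
    have h1 : y * (1 - y) * (((a:ℂ)+1) * EI (a+2) (b+2) d y)
      + ((b + d) - (a + b + 1) * y) * EI (a+1) (b+1) d y - b * EI a b d y = 0 := h0
    linear_combination (a:ℂ) * h1
  · exact (hI2.const_mul ((a:ℂ)+1)).const_mul (y * (1 - y))
  · exact hI1.const_mul _
  · exact ((hI2.const_mul ((a:ℂ)+1)).const_mul (y * (1 - y))).add (hI1.const_mul _)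
  · exact hI0.const_mul _

end AG
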