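import Pool.Agent.Bloch.Hypder
import Pool.Agent.Bloch.Hypode
import Pool.Agent.Bloch.Hypcont

/-!
Module WRON: the Wronskian identity.
-/

set_option autoImplicit false

noncomputable section

namespace AG

open Complex Metric Set
open scoped ComplexConjugate

theorem wron_SD_star : StarConvex ℝ (0 : ℂ) SD := by
  rw [starConvex_zero_iff]
  rintro y hy t h0 h1
  simp only [SD, mem_ofPred_eq, smul_im, smul_re, smul_eq_mul] at hy ⊢
  rcases hy with hy | hy
  · rcases eq_or_lt_of_le h0 with rfl | h0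
    · right
      simp
    · left
      exact mul_ne_zero h0.ne' hy
  · right
    rcases le_or_gt y.re 0 with h | h
    · have := mul_nonpos_of_nonneg_of_nonpos h0 h
      linarith
    · have := mul_le_mul_of_nonneg_right h1 h.le
      linarith

theorem wron_SD_open : IsOpen SD := by
  have h1 : IsOpen {y : ℂ | y.im ≠ 0} := isOpen_ne_fun Complex.continuous_im continuous_const
  have h2 : IsOpen {y : ℂ | y.re < 1} := isOpen_lt Complex.continuous_re continuous_const
  exact h1.union h2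

theorem wron_SD_zero : (0 : ℂ) ∈ SD := Or.inr (by simp)

theorem wron_SD_slit {y : ℂ} (hy : y ∈ SD) : 1 - y ∈ slitPlane := by
  rw [mem_slitPlane_iff]
  rcases hy with hy | hy
  · right
    simpa using hy
  · left
    simpa using hy

theorem wron_EI_ne (a b d : ℝ) (hb : 0 < b) (hd : 0 < d) : EI a b d 0 ≠ 0 := by
  rw [EI_zero a b d hb hd]
  have h1 := Real.Gamma_pos_of_pos hb
  have h2 := Real.Gamma_pos_of_pos hd
  have h3 := Real.Gamma_pos_of_pos (add_pos hb hd)
  exact_mod_cast (div_pos (mul_pos h1 h2) h3).ne'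

/-- the normalised integral, its derivative and second derivative -/
theorem wron_data (a b d : ℝ) (hb : 0 < b) (hd : 0 < d) :
    ∃ g0 g1 g2 : ℂ → ℂ, (∀ y, g0 y = EI a b d y / EI a b d 0) ∧ g0 0 = 1 ∧
      (∀ y ∈ SD, HasDerivAt g0 (g1 y) y) ∧ (∀ y ∈ SD, HasDerivAt g1 (g2 y) y) ∧
      ∀ y ∈ SD, y * (1 - y) * g2 y + (((b : ℂ) + d) - ((a : ℂ) + b + 1) * y) * g1 y
        - a * b * g0 y = 0 := by
  have hN := wron_EI_ne a b d hb hd
  refine ⟨fun y => EI a b d y / EI a b d 0, fun y => a * EI (a+1) (b+1) d y / EI a b d 0,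
    fun y => a * (a+1) * EI (a+2) (b+2) d y / EI a b d 0, fun y => rfl, div_self hN, ?_, ?_, ?_⟩
  · intro y hy
    exact (EI_hasDeriv a b d hb hd hy).div_const _
  · intro y hy
    have h := ((EI_hasDeriv (a+1) (b+1) d (by linarith) hd hy).const_mul (a : ℂ)).div_const
      (EI a b d 0)
    refine h.congr_deriv ?_
    rw [show a + 1 + 1 = a + 2 by ring, show b + 1 + 1 = b + 2 by ring]
    push_cast
    ring
  · intro y hy
    have h := EI_ode a b d hb hd hy
    have h2 := congrArg (fun z => z / EI a b d 0) h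
    simp only [zero_div] at h2
    linear_combination h2

/-- Wronskian -/
theorem wron {y : ℂ} (hy : y ∈ SD) :
    f1 y * f2 y + 3 * y * (f1 y * deriv f2 y - deriv f1 y * f2 y) = (1 - y)^(-(5/6 : ℝ) : ℂ) := by
  obtain ⟨p0, p1, p2, hp, hp00, hp0, hp1, hpo⟩ := wron_data (5/12) (1/12) (7/12) (by norm_num)
    (by norm_num)
  obtain ⟨q0, q1, q2, hq, hq00, hq0, hq1, hqo⟩ := wron_data (5/12) (3/4) (7/12) (by norm_num)
    (by norm_num)
  have e1 : f1 = p0 := funext fun y => (hp y).symm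
  have e2 : f2 = q0 := funext fun y => (hq y).symm
  rw [e1, e2, (hp0 y hy).deriv, (hq0 y hy).deriv]
  set U : ℂ → ℂ := fun y => p0 y * q0 y + 3 * y * (p0 y * q1 y - p1 y * q0 y) with hU
  set W : ℂ → ℂ := fun y => U y * (1 - y) ^ ((5/6 : ℝ) : ℂ) with hW
  have hWd : ∀ z ∈ SD, HasDerivAt W 0 z := by
    intro z hz
    have a1 := (hp0 z hz).mul (hq0 z hz)
    have a2 := (hp0 z hz).mul (hq1 z hz)
    have a3 := (hp1 z hz).mul (hq0 z hz)
    have a4 : HasDerivAt U _ z := a1.add (((hasDerivAt_id z).const_mul 3).mul (a2.sub a3))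
    have a5 : HasDerivAt (fun y : ℂ => (1 - y) ^ ((5/6 : ℝ) : ℂ)) _ z :=
      ((hasDerivAt_id z).const_sub 1).cpow_const (wron_SD_slit hz)
    have a6 : HasDerivAt W _ z := a4.mul a5
    refine a6.congr_deriv ?_
    have hz1 : (1 : ℂ) - z ≠ 0 := slitPlane_ne_zero (wron_SD_slit hz)
    have h5 : ((1 : ℂ) - z) ^ ((5/6 : ℝ) : ℂ) = (1 - z) ^ (((5/6 : ℝ) : ℂ) - 1) * (1 - z) := by
      rw [cpow_sub _ _ hz1, cpow_one, div_mul_cancel₀ _ hz1]
    have o1 := hpo z hz
    have o2 := hqo z hz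
    simp only [id, h5]
    push_cast at o1 o2 ⊢
    set c := (1 - z) ^ ((5/6 : ℂ) - 1)
    simp only [hU]
    linear_combination (c * 3 * p0 z) * o2 - (c * 3 * q0 z) * o1
  have hc : W y = W 0 := by
    refine wron_SD_open.is_const_of_deriv_eq_zero (wron_SD_star.isPathConnected wron_SD_zero).isConnected.isPreconnected
      (fun z hz => (hWd z hz).differentiableAt.differentiableWithinAt)
      (fun z hz => (hWd z hz).deriv) hy wron_SD_zero
  have h0 : W 0 = 1 := by
    simp [hW, hU, hp00, hq00]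
  have hy1 : (1 : ℂ) - y ≠ 0 := slitPlane_ne_zero (wron_SD_slit hy)
  have h1 : U y * (1 - y) ^ ((5/6 : ℝ) : ℂ) = 1 := hc.trans h0
  rw [cpow_neg]
  exact eq_inv_of_mul_eq_one_left h1

end AG
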