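import Pool.Agent.Bloch.Hypder
import Pool.Agent.Bloch.Hyparg
import Pool.Agent.Bloch.Hypsym
import Pool.Agent.Bloch.Wron
import Pool.Agent.Bloch.Gamma

/-!
The derivatives, the continuity and the symmetries of the two conformal maps.
-/

set_option autoImplicit false

noncomputable section

namespace AG

open Complex Metric Set
open scoped ComplexConjugate

/-! ### Membership in the slit plane -/

private theorem mem_SD {y : ℂ} (hy : ‖y‖ ≤ 1) (h1 : y ≠ 1) : y ∈ SD := by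
  by_cases him : y.im = 0
  · right
    have hre : y.re ≤ 1 := (Complex.re_le_norm y).trans hy
    rcases hre.lt_or_eq with h | h
    · exact h
    · exact absurd (Complex.ext h him) h1
  · exact Or.inl him

private theorem mem_SD' {y : ℂ} (hy : ‖y‖ ≤ 1) : y ∈ SD ∨ y = 1 := by
  by_cases h1 : y = 1
  · exact Or.inr h1
  · exact Or.inl (mem_SD hy h1)

private theorem isOpen_SD : IsOpen SD := by
  have h1 : SD = {y : ℂ | y.im ≠ 0} ∪ {y : ℂ | y.re < 1} := rfl
  rw [h1]
  exact (isOpen_ne.preimage Complex.continuous_im).union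
    (isOpen_Iio.preimage Complex.continuous_re)

/-- the value at zero of an Euler integral is a positive number -/
private theorem EI_zero_pos (a b d : ℝ) (hb : 0 < b) (hd : 0 < d) :
    ∃ c : ℝ, 0 < c ∧ EI a b d 0 = (c : ℂ) := by
  refine ⟨Real.Gamma b * Real.Gamma d / Real.Gamma (b + d), ?_, EI_zero a b d hb hd⟩
  have h1 := Real.Gamma_pos_of_pos hb
  have h2 := Real.Gamma_pos_of_pos hd
  have h3 := Real.Gamma_pos_of_pos (add_pos hb hd)
  positivity

private theorem EI_zero_ne (a b d : ℝ) (hb : 0 < b) (hd : 0 < d) : EI a b d 0 ≠ 0 := by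
  obtain ⟨c, hc, h⟩ := EI_zero_pos a b d hb hd
  rw [h]
  exact_mod_cast hc.ne'

/-! ### The argument of `f1` -/

theorem f1_arg {y : ℂ} (hy : ‖y‖ ≤ 1) (h1 : y ≠ 1) (hi : 0 ≤ y.im) :
    0 ≤ (f1 y).arg ∧ (f1 y).arg ≤ - (1/12) * (1 - y).arg := by
  rw [← EI_sym (mem_SD hy h1)]
  obtain ⟨c, hc, h⟩ := EI_zero_pos (1/12) (5/12) (1/4) (by norm_num) (by norm_num)
  rw [h, div_eq_inv_mul, ← Complex.ofReal_inv, Complex.arg_real_mul _ (inv_pos.2 hc)]
  exact (EI_arg (1/12) (5/12) (1/4) (by norm_num) (by norm_num) (by norm_num) (by norm_num)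
    hy h1 hi).2

private theorem f1_conj {y : ℂ} (hy : ‖y‖ ≤ 1) : f1 (conj y) = conj (f1 y) := by
  unfold f1
  rw [EI_conj _ _ _ (mem_SD' hy), map_div₀]
  obtain ⟨c, hc, h⟩ := EI_zero_pos (5/12) (1/12) (7/12) (by norm_num) (by norm_num)
  rw [h, Complex.conj_ofReal]

private theorem f2_conj {y : ℂ} (hy : ‖y‖ ≤ 1) : f2 (conj y) = conj (f2 y) := by
  unfold f2
  rw [EI_conj _ _ _ (mem_SD' hy), map_div₀]
  obtain ⟨c, hc, h⟩ := EI_zero_pos (5/12) (3/4) (7/12) (by norm_num) (by norm_num)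
  rw [h, Complex.conj_ofReal]

private theorem f3_conj {y : ℂ} (hy : ‖y‖ ≤ 1) : f3 (conj y) = conj (f3 y) := by
  unfold f3
  rw [EI_conj _ _ _ (mem_SD' hy), map_div₀]
  obtain ⟨c, hc, h⟩ := EI_zero_pos (2/3) (1/3) 1 (by norm_num) (by norm_num)
  rw [h, Complex.conj_ofReal]

theorem f1_ne {y : ℂ} (hy : ‖y‖ ≤ 1) : f1 y ≠ 0 := by
  have key : ∀ z : ℂ, ‖z‖ ≤ 1 → 0 ≤ z.im → f1 z ≠ 0 := by
    intro z hz hi
    by_cases h1 : z = 1
    · rw [h1]; exact f1_one
    · unfold f1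
      exact div_ne_zero (EI_arg (5/12) (1/12) (7/12) (by norm_num) (by norm_num) (by norm_num)
        (by norm_num) hz h1 hi).1 (EI_zero_ne _ _ _ (by norm_num) (by norm_num))
  rcases le_total 0 y.im with hi | hi
  · exact key y hy hi
  · intro h0
    have h1 : f1 (conj y) = 0 := by rw [f1_conj hy, h0, map_zero]
    refine key (conj y) (by rwa [Complex.norm_conj]) ?_ h1
    rw [Complex.conj_im]
    linarith

theorem f1_zero : f1 0 = 1 := by
  unfold f1
  exact div_self (EI_zero_ne _ _ _ (by norm_num) (by norm_num))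

/-! ### Derivatives -/

private theorem f1_hasDeriv {y : ℂ} (hy : y ∈ SD) : HasDerivAt f1 (deriv f1 y) y := by
  have h := (EI_hasDeriv (5/12) (1/12) (7/12) (by norm_num) (by norm_num) hy).div_const
    (EI (5/12) (1/12) (7/12) 0)
  exact (show DifferentiableAt ℂ f1 y from h.differentiableAt).hasDerivAt

private theorem f2_hasDeriv {y : ℂ} (hy : y ∈ SD) : HasDerivAt f2 (deriv f2 y) y := by
  have h := (EI_hasDeriv (5/12) (3/4) (7/12) (by norm_num) (by norm_num) hy).div_const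
    (EI (5/12) (3/4) (7/12) 0)
  exact (show DifferentiableAt ℂ f2 y from h.differentiableAt).hasDerivAt

theorem zz_deriv {x : ℂ} (hx : x^3 ∈ SD) (hf : f1 (x^3) ≠ 0) :
    HasDerivAt zz (cc * (1 - x^3)^(-(5/6 : ℝ) : ℂ) / (f1 (x^3))^2) x := by
  have hp : HasDerivAt (fun x : ℂ => x^3) (3 * x^2) x := by
    simpa using hasDerivAt_pow 3 x
  have h1 := (f1_hasDeriv hx).comp x hp
  have h2 := (f2_hasDeriv hx).comp x hp
  have h3 := (((hasDerivAt_id x).const_mul (cc : ℂ)).mul h2).div h1 hf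
  have h4 : HasDerivAt zz _ x := h3
  refine h4.congr_deriv ?_
  rw [← wron hx]
  simp only [Function.comp, id, mul_one, Pi.mul_apply]
  congr 1
  ring

/-- the derivative of the third function -/
private theorem f3_key {y : ℂ} (hy : y ∈ SD) :
    EI (2/3) (1/3) 1 y + 3 * y * ((2/3 : ℝ) * EI (2/3 + 1) (1/3 + 1) 1 y)
      = 3 * (1 - y)^(-(2/3 : ℝ) : ℂ) := by
  have hslit : ∀ t : ℝ, t ∈ Icc (0:ℝ) 1 → 1 - (t:ℂ) * y ∈ slitPlane := fun t ht =>
    hypder_slit hy ht.1 ht.2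
  set G : ℝ → ℂ := fun t => 3 * (((t ^ (1/3 : ℝ) : ℝ) : ℂ) *
    (1 - (t:ℂ) * y) ^ (-(2/3 : ℝ) : ℂ)) with hG
  set g1 : ℝ → ℂ := fun t => ((t ^ ((1/3 : ℝ) - 1) * (1 - t) ^ ((1:ℝ) - 1) : ℝ) : ℂ) *
    (1 - (t:ℂ) * y) ^ (-(2/3 : ℝ) : ℂ) with hg1
  set g2 : ℝ → ℂ := fun t => ((t ^ ((1/3 + 1 : ℝ) - 1) * (1 - t) ^ ((1:ℝ) - 1) : ℝ) : ℂ) *
    (1 - (t:ℂ) * y) ^ (-((2/3 + 1 : ℝ) : ℂ)) with hg2
  have hlin : ∀ t : ℝ, HasDerivAt (fun t : ℝ => 1 - (t:ℂ) * y) (-y) t := by
    intro t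
    have h1 : HasDerivAt (fun t : ℝ => (t:ℂ)) 1 t := (hasDerivAt_id t).ofReal_comp
    simpa using (h1.mul_const y).const_sub 1
  have hcpow : ∀ (c : ℂ), ContinuousOn (fun t : ℝ => (1 - (t:ℂ) * y) ^ c) (Icc 0 1) := by
    intro c t ht
    have h1 : ContinuousAt (fun t : ℝ => 1 - (t:ℂ) * y) t := (hlin t).continuousAt
    exact (h1.cpow continuousAt_const (hslit t ht)).continuousWithinAt
  have hcont : ContinuousOn G (Icc 0 1) := by
    refine continuousOn_const.mul (ContinuousOn.mul ?_ (hcpow _))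
    exact Complex.continuous_ofReal.comp_continuousOn
      (continuousOn_id.rpow_const fun t _ => Or.inr (by norm_num))
  have i1 : IntervalIntegrable g1 MeasureTheory.volume 0 1 := by
    have h1 := hypder_wintC (1/3) 1 (by norm_num) one_pos
    refine h1.mul_continuousOn ?_
    rw [uIcc_of_le zero_le_one]
    exact hcpow _
  have i2 : IntervalIntegrable g2 MeasureTheory.volume 0 1 := by
    have h1 := hypder_wintC (1/3 + 1) 1 (by norm_num) one_pos
    refine h1.mul_continuousOn ?_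
    rw [uIcc_of_le zero_le_one]
    exact hcpow _
  have hder : ∀ t ∈ Ioo (0:ℝ) 1, HasDerivAt G (g1 t + 3 * y * ((2/3 : ℝ) * g2 t)) t := by
    intro t ht
    have h1 : HasDerivAt (fun t : ℝ => ((t ^ (1/3 : ℝ) : ℝ) : ℂ))
        (((1/3 : ℝ) * t ^ ((1/3 : ℝ) - 1) : ℝ) : ℂ) t :=
      (Real.hasDerivAt_rpow_const (Or.inl ht.1.ne')).ofReal_comp
    have h2 : HasDerivAt (fun t : ℝ => (1 - (t:ℂ) * y) ^ (-(2/3 : ℝ) : ℂ))
        ((-(2/3 : ℝ) : ℂ) * (1 - (t:ℂ) * y) ^ ((-(2/3 : ℝ) : ℂ) - 1) * (-y)) t :=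
      HasDerivAt.comp (h₂ := fun z : ℂ => z ^ (-(2/3 : ℝ) : ℂ)) t
        (hasStrictDerivAt_cpow_const (hslit t ⟨ht.1.le, ht.2.le⟩)).hasDerivAt (hlin t)
    have h3 := (h1.mul h2).const_mul (3 : ℂ)
    refine h3.congr_deriv ?_
    simp only [hg1, hg2]
    rw [show ((1:ℝ) - 1) = 0 by norm_num, Real.rpow_zero,
      show ((1/3 + 1 : ℝ) - 1) = 1/3 by norm_num,
      show (-((2/3 + 1 : ℝ) : ℂ)) = (-(2/3 : ℝ) : ℂ) - 1 by push_cast; ring]
    push_cast
    ring
  have hint : IntervalIntegrable (fun t => g1 t + 3 * y * ((2/3 : ℝ) * g2 t))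
      MeasureTheory.volume 0 1 := i1.add ((i2.const_mul _).const_mul _)
  have h := intervalIntegral.integral_eq_sub_of_hasDerivAt_of_le zero_le_one hcont hder hint
  rw [intervalIntegral.integral_add i1 ((i2.const_mul _).const_mul _),
    intervalIntegral.integral_const_mul, intervalIntegral.integral_const_mul] at h
  have e1 : EI (2/3) (1/3) 1 y = ∫ t in (0:ℝ)..1, g1 t := rfl
  have e2 : EI (2/3 + 1) (1/3 + 1) 1 y = ∫ t in (0:ℝ)..1, g2 t := rfl
  rw [e1, e2, h]
  simp only [hG]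
  rw [Real.one_rpow, Real.zero_rpow (by norm_num)]
  push_cast
  ring_nf

theorem ww_deriv {x : ℂ} (hx : x^3 ∈ SD) :
    HasDerivAt ww (cc * (1 - x^3)^(-(2/3 : ℝ) : ℂ)) x := by
  have hp : HasDerivAt (fun x : ℂ => x^3) (3 * x^2) x := by
    simpa using hasDerivAt_pow 3 x
  have h0 : EI (2/3) (1/3) 1 0 = 3 := by
    rw [EI_zero _ _ _ (by norm_num) (by norm_num)]
    have h := Real.Gamma_add_one (s := 1/3) (by norm_num)
    rw [h, Real.Gamma_one]
    have : Real.Gamma (1/3) ≠ 0 := (Real.Gamma_pos_of_pos (by norm_num)).ne'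
    rw [show Real.Gamma (1/3) * 1 / (1/3 * Real.Gamma (1/3)) = 3 by field_simp]
    norm_num
  have h1 := ((EI_hasDeriv (2/3) (1/3) 1 (by norm_num) (by norm_num) hx).div_const
    (EI (2/3) (1/3) 1 0)).comp x hp
  have h3 := ((hasDerivAt_id x).const_mul (cc : ℂ)).mul h1
  have h4 : HasDerivAt ww _ x := h3
  refine h4.congr_deriv ?_
  have h5 := f3_key hx
  simp only [Function.comp, id, mul_one]
  rw [h0]
  linear_combination (cc / 3 : ℂ) * h5

/-! ### Continuity -/

private theorem cube_maps : MapsTo (fun x : ℂ => x^3) (closedBall 0 1) (closedBall 0 1) := by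
  intro x hx
  rw [mem_closedBall, dist_zero_right] at hx ⊢
  rw [norm_pow]
  exact pow_le_one₀ (norm_nonneg _) hx

theorem zz_cont : ContinuousOn zz (closedBall 0 1) := by
  have hc : ContinuousOn (fun x : ℂ => x^3) (closedBall 0 1) := (continuous_pow 3).continuousOn
  have h1 : ContinuousOn (fun x : ℂ => f1 (x^3)) (closedBall 0 1) :=
    ((EI_cont (5/12) (1/12) (7/12) (by norm_num) (by norm_num) (by norm_num)).div_const _).comp
      hc cube_maps
  have h2 : ContinuousOn (fun x : ℂ => f2 (x^3)) (closedBall 0 1) :=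
    ((EI_cont (5/12) (3/4) (7/12) (by norm_num) (by norm_num) (by norm_num)).div_const _).comp
      hc cube_maps
  refine ((continuousOn_const.mul continuousOn_id).mul h2).div h1 fun x hx => ?_
  have := cube_maps hx
  rw [mem_closedBall, dist_zero_right] at this
  exact f1_ne this

theorem ww_cont : ContinuousOn ww (closedBall 0 1) := by
  have hc : ContinuousOn (fun x : ℂ => x^3) (closedBall 0 1) := (continuous_pow 3).continuousOn
  have h2 : ContinuousOn (fun x : ℂ => f3 (x^3)) (closedBall 0 1) :=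
    ((EI_cont (2/3) (1/3) 1 (by norm_num) (by norm_num) (by norm_num)).div_const _).comp
      hc cube_maps
  exact (continuousOn_const.mul continuousOn_id).mul h2

/-! ### Symmetries -/

theorem zz_conj {x : ℂ} (hx : ‖x‖ ≤ 1) : zz (conj x) = conj (zz x) := by
  have h3 : ‖x^3‖ ≤ 1 := by
    rw [norm_pow]
    exact pow_le_one₀ (norm_nonneg _) hx
  unfold zz
  rw [← map_pow, f1_conj h3, f2_conj h3, map_div₀, map_mul, map_mul, Complex.conj_ofReal]

theorem ww_conj {x : ℂ} (hx : ‖x‖ ≤ 1) : ww (conj x) = conj (ww x) := by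
  have h3 : ‖x^3‖ ≤ 1 := by
    rw [norm_pow]
    exact pow_le_one₀ (norm_nonneg _) hx
  unfold ww
  rw [← map_pow, f3_conj h3, map_mul, map_mul, Complex.conj_ofReal]

private theorem om3 (x : ℂ) : (om * x)^3 = x^3 := by
  have h : om^3 = 1 := by
    have h3 : Real.sqrt 3 * Real.sqrt 3 = 3 := Real.mul_self_sqrt (by norm_num)
    unfold om
    apply Complex.ext
    · simp only [pow_succ, pow_zero, one_mul, Complex.mul_re, Complex.mul_im, Complex.one_re]
      nlinarith [h3]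
    · simp only [pow_succ, pow_zero, one_mul, Complex.mul_re, Complex.mul_im, Complex.one_im]
      linear_combination (-(Real.sqrt 3) / 8) * h3
  rw [mul_pow, h, one_mul]

theorem zz_om {x : ℂ} : zz (om * x) = om * zz x := by
  unfold zz
  rw [om3]
  ring

theorem ww_om {x : ℂ} : ww (om * x) = om * ww x := by
  unfold ww
  rw [om3]
  ring

end AG
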