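import Pool.Agent.Bloch.Geom
import Pool.Agent.Bloch.Hypder
import Pool.Agent.Bloch.Gamma
import Pool.Agent.Bloch.Zwa
import Pool.Agent.Bloch.Zwinj
import Pool.Agent.Bloch.Bij

/-!
Module LOC: local extension of `F0` away from the vertices.
-/

set_option autoImplicit false

noncomputable section

namespace AG

open Complex Metric Set
open scoped ComplexConjugate


theorem loc_SD_open : IsOpen SD := by
  have h1 : IsOpen {y : ℂ | y.im ≠ 0} := isOpen_ne_fun Complex.continuous_im continuous_const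
  have h2 : IsOpen {y : ℂ | y.re < 1} := isOpen_lt Complex.continuous_re continuous_const
  exact h1.union h2

theorem loc_mem_SD {y : ℂ} (hy : ‖y‖ ≤ 1) (h1 : y ≠ 1) : y ∈ SD := by
  by_contra h
  have hi : y.im = 0 := by
    by_contra h2
    exact h (Or.inl h2)
  have hr : 1 ≤ y.re := by
    by_contra h2
    exact h (Or.inr (not_le.1 h2))
  have h3 : y.re ≤ 1 := (Complex.re_le_norm y).trans hy
  exact h1 (Complex.ext (by simp; linarith) (by simp [hi]))

/-- a point of the closed disc which does not go to a vertex -/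
theorem loc_cube {x : ℂ} (hv : ∀ k : ℕ, zz x ≠ rv * om^k) : x^3 ≠ 1 := by
  intro h
  have hf : (x - 1) * ((x - om) * (x - om^2)) = 0 := by
    have e1 := om_sum
    have e2 := om_cube
    linear_combination h + (x - x^2) * e1 + (x - 1) * e2
  rcases mul_eq_zero.1 hf with h1 | h1
  · apply hv 0
    rw [sub_eq_zero.1 h1, zz_one]
    simp
  rcases mul_eq_zero.1 h1 with h1 | h1
  · apply hv 1
    rw [sub_eq_zero.1 h1]
    have := zz_om (x := 1)
    rw [zz_one, mul_one] at this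
    rw [this]
    ring
  · apply hv 2
    rw [sub_eq_zero.1 h1]
    have h2 := zz_om (x := 1)
    have h3 := zz_om (x := om * 1)
    rw [h2, zz_one, mul_one] at h3
    rw [pow_two, h3]
    ring

theorem loc_analytic {x : ℂ} (hx : x^3 ∈ SD) (hf : f1 (x^3) ≠ 0) :
    AnalyticAt ℂ zz x ∧ AnalyticAt ℂ ww x := by
  have c3 : ContinuousAt (fun x : ℂ => x^3) x := (continuous_pow 3).continuousAt
  have h1 : ∀ᶠ u in nhds x, u^3 ∈ SD := c3.eventually (loc_SD_open.mem_nhds hx)
  have cf : ContinuousAt f1 (x^3) :=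
    ((EI_hasDeriv (5/12) (1/12) (7/12) (by norm_num) (by norm_num) hx).div_const _).continuousAt
  have h2 : ∀ᶠ u in nhds x, f1 (u^3) ≠ 0 :=
    (ContinuousAt.comp (f := fun x : ℂ => x^3) (g := f1) cf c3).eventually_ne hf
  constructor
  · rw [Complex.analyticAt_iff_eventually_differentiableAt]
    filter_upwards [h1, h2] with u hu1 hu2
    exact (zz_deriv hu1 hu2).differentiableAt
  · rw [Complex.analyticAt_iff_eventually_differentiableAt]
    filter_upwards [h1] with u hu1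
    exact (ww_deriv hu1).differentiableAt

theorem loc_ext {ζ : ℂ} (hζ : ζ ∈ Tri) (hv : ∀ k : ℕ, ζ ≠ rv * om^k) :
    ∃ δ > 0, ∃ G : ℂ → ℂ, DifferentiableOn ℂ G (ball ζ δ) ∧ (∀ z ∈ ball ζ δ ∩ Tri, G z = F0 z) ∧
      deriv G ζ ≠ 0 := by
  rw [← zz_img] at hζ
  obtain ⟨x, hx, rfl⟩ := hζ
  have hx' : ‖x‖ ≤ 1 := by simpa using hx
  have hx3 : ‖x^3‖ ≤ 1 := by
    rw [norm_pow]
    exact pow_le_one₀ (norm_nonneg _) hx'
  have hne := loc_cube hv
  have hS := loc_mem_SD hx3 hne
  have hf := f1_ne hx3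
  obtain ⟨az, aw⟩ := loc_analytic hS hf
  have h1 : (1 : ℂ) - x^3 ≠ 0 := sub_ne_zero.2 (Ne.symm hne)
  have hcc : (cc : ℂ) ≠ 0 := by exact_mod_cast cc_pos.ne'
  have dz : deriv zz x ≠ 0 := by
    rw [(zz_deriv hS hf).deriv]
    exact div_ne_zero (mul_ne_zero hcc (by rw [cpow_ne_zero_iff]; exact Or.inl h1)) (pow_ne_zero 2 hf)
  have dw : deriv ww x ≠ 0 := by
    rw [(ww_deriv hS).deriv]
    exact mul_ne_zero hcc (by rw [cpow_ne_zero_iff]; exact Or.inl h1)
  set χ := az.hasStrictDerivAt.localInverse _ _ _ dz with hχ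
  have aχ : AnalyticAt ℂ χ (zz x) := az.analyticAt_localInverse dz
  have hl : ∀ᶠ u in nhds x, χ (zz u) = u := az.hasStrictDerivAt.eventually_left_inverse dz
  have hχx : χ (zz x) = x := hl.self_of_nhds
  have dχ : HasDerivAt χ (deriv zz x)⁻¹ (zz x) := (az.hasStrictDerivAt.to_localInverse dz).hasDerivAt
  have aw' : AnalyticAt ℂ ww (χ (zz x)) := by rw [hχx]; exact aw
  have aG : AnalyticAt ℂ (fun z => ww (χ z)) (zz x) := aw'.fun_comp aχ
  obtain ⟨N, hN1, hN2, hN3⟩ := _root_.mem_nhds_iff.1 hl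
  have hK : IsCompact (zz '' (closedBall 0 1 \ N)) :=
    ((isCompact_closedBall 0 1).diff hN2).image_of_continuousOn (zz_cont.mono sdiff_subset)
  have hnx : zz x ∉ zz '' (closedBall 0 1 \ N) := by
    rintro ⟨u, hu, hux⟩
    exact hu.2 (by rw [zz_inj hu.1 hx hux]; exact hN3)
  have e1 : ∀ᶠ z in nhds (zz x), z ∉ zz '' (closedBall 0 1 \ N) := hK.isClosed.isOpen_compl.mem_nhds hnx
  have e2 := Complex.analyticAt_iff_eventually_differentiableAt.1 aG
  obtain ⟨δ, hδ, hb⟩ := Metric.eventually_nhds_iff_ball.1 (e1.and e2)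
  refine ⟨δ, hδ, fun z => ww (χ z), fun z hz => (hb z hz).2.differentiableWithinAt, ?_, ?_⟩
  · rintro z ⟨hz, hzT⟩
    rw [← zz_img] at hzT
    obtain ⟨u, hu, rfl⟩ := hzT
    have huN : u ∈ N := by
      by_contra h
      exact (hb _ hz).1 ⟨u, ⟨hu, h⟩, rfl⟩
    have := hN1 huN
    simp only [mem_ofPred_eq] at this
    simp only []
    rw [this, F0_zz (by simpa using hu)]
  · have := (aw'.differentiableAt.hasDerivAt).comp (zz x) dχ
    rw [hχx] at this
    have h2 : deriv (fun z => ww (χ z)) (zz x) = deriv ww x * (deriv zz x)⁻¹ := this.deriv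
    rw [h2]
    exact mul_ne_zero dw (inv_ne_zero dz)

end AG
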