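import Pool.Agent.Bloch.Defs

set_option autoImplicit false

noncomputable section

namespace AG

open Complex Metric Set
open scoped ComplexConjugate Topology Interval

/-! ## module REFL: Schwarz reflection -/

/-- Boundary integral of a rectangle whose interior misses the imaginary axis. -/
theorem refl_rect {r : ℝ} {G : ℂ → ℂ} (hc : ContinuousOn G (ball 0 r))
    (hp : DifferentiableOn ℂ G {t | ‖t‖ < r ∧ 0 < t.re})
    (hn : DifferentiableOn ℂ G {t | ‖t‖ < r ∧ t.re < 0}) (z w : ℂ)
    (hsub : [[z.re, w.re]] ×ℂ [[z.im, w.im]] ⊆ ball (0 : ℂ) r)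
    (h0 : (0 : ℝ) ∉ Ioo (min z.re w.re) (max z.re w.re)) :
    (∫ x : ℝ in z.re..w.re, G (x + z.im * I)) - (∫ x : ℝ in z.re..w.re, G (x + w.im * I)) +
      I • (∫ y : ℝ in z.im..w.im, G (re w + y * I)) -
      I • (∫ y : ℝ in z.im..w.im, G (re z + y * I)) = 0 := by
  apply Complex.integral_boundary_rect_eq_zero_of_continuousOn_of_differentiableOn G z w
    (hc.mono hsub)
  have hIoo : Ioo (min z.re w.re) (max z.re w.re) ×ℂ Ioo (min z.im w.im) (max z.im w.im) ⊆
      ball (0 : ℂ) r := by
    refine subset_trans ?_ hsub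
    intro t ht
    rw [mem_reProdIm] at ht ⊢
    exact ⟨Ioo_subset_Icc_self ht.1, Ioo_subset_Icc_self ht.2⟩
  rcases le_or_gt 0 (min z.re w.re) with h | h
  · apply hp.mono
    intro t ht
    refine ⟨by simpa using hIoo ht, ?_⟩
    rw [mem_reProdIm] at ht
    exact lt_of_le_of_lt h ht.1.1
  · have h' : max z.re w.re ≤ 0 := by
      by_contra h2
      push Not at h2
      exact h0 ⟨h, h2⟩
    apply hn.mono
    intro t ht
    refine ⟨by simpa using hIoo ht, ?_⟩
    rw [mem_reProdIm] at ht
    exact lt_of_lt_of_le ht.1.2 h'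

/-- A continuous function on a ball which is holomorphic off the imaginary axis is holomorphic. -/
theorem refl_painleve {r : ℝ} {G : ℂ → ℂ} (hc : ContinuousOn G (ball 0 r))
    (hp : DifferentiableOn ℂ G {t | ‖t‖ < r ∧ 0 < t.re})
    (hn : DifferentiableOn ℂ G {t | ‖t‖ < r ∧ t.re < 0}) : DifferentiableOn ℂ G (ball 0 r) := by
  refine (Complex.isConservativeOn_and_continuousOn_iff_isDifferentiableOn isOpen_ball).1 ⟨?_, hc⟩
  intro z w hsub
  rw [← add_eq_zero_iff_eq_neg, wedgeIntegral_add_wedgeIntegral_eq]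
  rw [Rectangle] at hsub
  by_cases h0 : (0 : ℝ) ∈ Ioo (min z.re w.re) (max z.re w.re)
  · have h0' : (0 : ℝ) ∈ [[z.re, w.re]] := Ioo_subset_Icc_self h0
    have hs1 : [[z.re, (⟨0, w.im⟩ : ℂ).re]] ×ℂ [[z.im, (⟨0, w.im⟩ : ℂ).im]] ⊆ ball (0 : ℂ) r := by
      refine subset_trans ?_ hsub
      intro t ht
      rw [mem_reProdIm] at ht ⊢
      exact ⟨uIcc_subset_uIcc left_mem_uIcc h0' ht.1, ht.2⟩
    have hs2 : [[(⟨0, z.im⟩ : ℂ).re, w.re]] ×ℂ [[(⟨0, z.im⟩ : ℂ).im, w.im]] ⊆ ball (0 : ℂ) r := by
      refine subset_trans ?_ hsub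
      intro t ht
      rw [mem_reProdIm] at ht ⊢
      exact ⟨uIcc_subset_uIcc h0' right_mem_uIcc ht.1, ht.2⟩
    have e1 := refl_rect hc hp hn z ⟨0, w.im⟩ hs1 (by
      rintro ⟨h1, h2⟩
      simp only [min_lt_iff, lt_max_iff, lt_self_iff_false, or_false] at h1 h2
      linarith)
    have e2 := refl_rect hc hp hn ⟨0, z.im⟩ w hs2 (by
      rintro ⟨h1, h2⟩
      simp only [min_lt_iff, lt_max_iff, lt_self_iff_false, false_or] at h1 h2
      linarith)
    simp only at e1 e2
    have hint : ∀ y ∈ [[z.im, w.im]], ∀ a ∈ [[z.re, w.re]], ∀ b ∈ [[z.re, w.re]],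
        IntervalIntegrable (fun x : ℝ => G (x + y * I)) MeasureTheory.volume a b := by
      intro y hy a ha b hb
      apply ContinuousOn.intervalIntegrable
      apply hc.comp (by fun_prop)
      intro x hx
      apply hsub
      rw [mem_reProdIm]
      refine ⟨?_, by simpa using hy⟩
      have := uIcc_subset_uIcc ha hb hx
      simpa using this
    have a1 := intervalIntegral.integral_add_adjacent_intervals
      (hint z.im left_mem_uIcc z.re left_mem_uIcc 0 h0')
      (hint z.im left_mem_uIcc 0 h0' w.re right_mem_uIcc)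
    have a2 := intervalIntegral.integral_add_adjacent_intervals
      (hint w.im right_mem_uIcc z.re left_mem_uIcc 0 h0')
      (hint w.im right_mem_uIcc 0 h0' w.re right_mem_uIcc)
    rw [← a1, ← a2]
    linear_combination e1 + e2
  · exact refl_rect hc hp hn z w hsub h0

theorem schwarz_refl {r : ℝ} (hr : 0 < r) (H : ℂ → ℂ) (hc : ContinuousOn H {t | ‖t‖ < r ∧ 0 ≤ t.re})
    (hd : DifferentiableOn ℂ H {t | ‖t‖ < r ∧ 0 < t.re})
    (him : ∀ t : ℂ, ‖t‖ < r → t.re = 0 → (H t).re = 0) :
    ∃ G : ℂ → ℂ, DifferentiableOn ℂ G (ball 0 r) ∧ ∀ t : ℂ, ‖t‖ < r → 0 ≤ t.re → G t = H t := by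
  classical
  set K : ℂ → ℂ := fun t => -conj (H (-conj t)) with hK
  refine ⟨fun t => if 0 ≤ t.re then H t else K t, ?_, fun t _ h => if_pos h⟩
  have hop : IsOpen {t : ℂ | ‖t‖ < r ∧ 0 < t.re} :=
    (isOpen_lt continuous_norm continuous_const).inter
      (isOpen_lt continuous_const Complex.continuous_re)
  have hon : IsOpen {t : ℂ | ‖t‖ < r ∧ t.re < 0} :=
    (isOpen_lt continuous_norm continuous_const).inter
      (isOpen_lt Complex.continuous_re continuous_const)
  apply refl_painleve
  · apply ContinuousOn.if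
    · rintro t ⟨ht, hf⟩
      rw [frontier_setOfPred_le_re] at hf
      have h1 : t.re = 0 := hf
      have h2 : -conj t = t := by
        apply Complex.ext <;> simp [h1]
      have h3 := him t (by simpa using ht) h1
      rw [hK]
      simp only
      rw [h2]
      apply Complex.ext <;> simp [h3]
    · apply hc.mono
      rintro t ⟨ht, hf⟩
      rw [IsClosed.closure_eq (isClosed_le continuous_const Complex.continuous_re)] at hf
      exact ⟨by simpa using ht, hf⟩
    · have h1 : ContinuousOn K {t | ‖t‖ < r ∧ t.re ≤ 0} := by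
        apply ContinuousOn.neg
        apply Complex.continuous_conj.comp_continuousOn
        apply hc.comp (by fun_prop)
        rintro t ⟨h1, h2⟩
        refine ⟨by simpa using h1, by simpa using h2⟩
      apply h1.mono
      rintro t ⟨ht, hf⟩
      simp only [not_le] at hf
      rw [closure_setOfPred_re_lt] at hf
      exact ⟨by simpa using ht, hf⟩
  · apply hd.congr
    rintro t ⟨_, h2⟩
    exact if_pos h2.le
  · have h1 : DifferentiableOn ℂ K {t | ‖t‖ < r ∧ t.re < 0} := by
      rintro t ⟨h1, h2⟩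
      apply DifferentiableAt.differentiableWithinAt
      have h3 : K = conj ∘ (fun s => -H (-s)) ∘ conj := by
        funext s
        simp [hK]
      rw [h3, differentiableAt_conj_conj_iff]
      apply DifferentiableAt.neg
      have h4 : DifferentiableAt ℂ H (-conj t) := by
        apply hd.differentiableAt
        apply hop.mem_nhds
        refine ⟨by simpa using h1, by simpa using h2⟩
      exact DifferentiableAt.comp (conj t) h4 differentiableAt_id.neg
    apply h1.congr
    rintro t ⟨_, h2⟩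
    exact if_neg (not_le.2 h2)

end AG
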