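import Pool.Agent.Bloch.Hypcont
import Pool.Agent.Bloch.Gamma
import Pool.Agent.Bloch.Zwa

set_option autoImplicit false

noncomputable section

namespace AG

open Complex Metric Set
open scoped ComplexConjugate

theorem vlow_f1_cont : ContinuousOn f1 (closedBall 0 1) := by
  unfold f1
  exact (EI_cont (5/12) (1/12) (7/12) (by norm_num) (by norm_num) (by norm_num)).div_const _

theorem vlow_M : ∃ M : ℝ, 0 < M ∧ ∀ x : ℝ, 0 ≤ x → x ≤ 1 → (‖f1 ((x:ℂ)^3)‖^2)⁻¹ ≤ M := by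
  have h1 : ContinuousOn (fun x : ℝ => (‖f1 ((x:ℂ)^3)‖^2)⁻¹) (Icc 0 1) := by
    have hmaps : MapsTo (fun x : ℝ => (x:ℂ)^3) (Icc 0 1) (closedBall 0 1) := by
      intro x hx
      rw [mem_closedBall_zero_iff, norm_pow, Complex.norm_real, Real.norm_of_nonneg hx.1]
      exact pow_le_one₀ hx.1 hx.2
    have h2 : ContinuousOn (fun x : ℝ => f1 ((x:ℂ)^3)) (Icc 0 1) :=
      vlow_f1_cont.comp (by fun_prop) hmaps
    apply ContinuousOn.inv₀ (h2.norm.pow 2)
    intro x hx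
    have h3 := hmaps hx
    rw [mem_closedBall_zero_iff] at h3
    exact (pow_pos (norm_pos_iff.mpr (f1_ne h3)) 2).ne'
  obtain ⟨C, hC⟩ := isCompact_Icc.exists_bound_of_continuousOn h1
  refine ⟨max 1 C, by positivity, fun x h0 h1 => ?_⟩
  have := hC x ⟨h0, h1⟩
  rw [Real.norm_eq_abs] at this
  exact ((le_abs_self _).trans this).trans (le_max_right _ _)

theorem vlow_SD {x : ℝ} (h0 : 0 ≤ x) (h1 : x < 1) : (x:ℂ)^3 ∈ SD := by
  right
  have : ((x:ℂ)^3).re = x^3 := by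
    rw [← Complex.ofReal_pow, Complex.ofReal_re]
  rw [this]
  exact pow_lt_one₀ h0 h1 (by norm_num)

theorem vlow_pow {x : ℝ} (h0 : 0 ≤ x) (h1 : x < 1) (s : ℝ) :
    (1 - (x:ℂ)^3)^(-(s : ℝ) : ℂ) = (((1 - x^3)^(-s) : ℝ) : ℂ) := by
  have h2 : x^3 < 1 := pow_lt_one₀ h0 h1 (by norm_num)
  have h3 : (1 - (x:ℂ)^3) = ((1 - x^3 : ℝ) : ℂ) := by push_cast; ring
  rw [h3, ← Complex.ofReal_neg, ← Complex.ofReal_cpow (by linarith)]

theorem vlow_zz {x : ℝ} (h0 : 0 ≤ x) (h1 : x < 1) {M : ℝ}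
    (hM : ∀ x : ℝ, 0 ≤ x → x ≤ 1 → (‖f1 ((x:ℂ)^3)‖^2)⁻¹ ≤ M) :
    ‖(rv:ℂ) - zz x‖ ≤ 6 * cc * M * (1 - x)^(1/6 : ℝ) := by
  have hcc := cc_pos
  have hM0 : 0 ≤ M := (inv_nonneg.mpr (by positivity)).trans (hM 0 le_rfl zero_le_one)
  have key := image_norm_le_of_norm_deriv_right_le_deriv_boundary'
    (f := fun u : ℝ => zz u - zz x)
    (f' := fun u : ℝ => cc * (1 - (u:ℂ)^3)^(-(5/6 : ℝ) : ℂ) / (f1 ((u:ℂ)^3))^2)
    (a := x) (b := 1)
    (B := fun u : ℝ => 6 * cc * M * ((1 - x)^(1/6 : ℝ) - (1 - u)^(1/6 : ℝ)))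
    (B' := fun u : ℝ => cc * M * (1 - u)^(-(5/6) : ℝ)) ?_ ?_ ?_ ?_ ?_ ?_
  · have h2 := key (right_mem_Icc.mpr h1.le)
    simp only [ofReal_one, zz_one, sub_self] at h2
    rwa [Real.zero_rpow (by norm_num), sub_zero] at h2
  · apply ContinuousOn.sub _ continuousOn_const
    apply zz_cont.comp (by fun_prop)
    intro u hu
    rw [mem_closedBall_zero_iff, Complex.norm_real, Real.norm_of_nonneg (h0.trans hu.1)]
    exact hu.2
  · intro u hu
    have hu0 : 0 ≤ u := h0.trans hu.1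
    have hn : ‖(u:ℂ)^3‖ ≤ 1 := by
      rw [norm_pow, Complex.norm_real, Real.norm_of_nonneg hu0]
      exact pow_le_one₀ hu0 hu.2.le
    have h3 := (zz_deriv (vlow_SD hu0 hu.2) (f1_ne hn)).comp_ofReal
    exact (h3.sub_const _).hasDerivWithinAt
  · simp
  · apply ContinuousOn.mul continuousOn_const
    apply ContinuousOn.sub continuousOn_const
    apply ContinuousOn.rpow_const
    · fun_prop
    · intro u _
      right
      norm_num
  · intro u hu
    have hu1 : 0 < 1 - u := by linarith [hu.2]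
    have h3 : HasDerivAt (fun u : ℝ => 1 - u) (-1) u := (hasDerivAt_id' u).const_sub 1
    have h4 := h3.rpow_const (p := (1/6 : ℝ)) (Or.inl hu1.ne')
    have h5 := (h4.const_sub ((1 - x)^(1/6 : ℝ))).const_mul (6 * cc * M)
    apply HasDerivAt.hasDerivWithinAt
    refine h5.congr_deriv ?_
    have : (1/6 - 1 : ℝ) = -(5/6) := by norm_num
    rw [this]
    ring
  · intro u hu
    have hu0 : 0 ≤ u := h0.trans hu.1
    have hu1 : 0 < 1 - u := by linarith [hu.2]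
    rw [vlow_pow hu0 hu.2, norm_div, norm_mul, Complex.norm_real, Complex.norm_real,
      Real.norm_of_nonneg hcc.le, norm_pow, div_eq_mul_inv]
    have h3 : u^3 ≤ u := by nlinarith [mul_nonneg hu0 hu1.le]
    have h4 : 0 < 1 - u^3 := by linarith
    rw [Real.norm_of_nonneg (Real.rpow_nonneg h4.le _)]
    have h5 : (1 - u^3)^(-(5/6) : ℝ) ≤ (1 - u)^(-(5/6) : ℝ) :=
      Real.rpow_le_rpow_of_nonpos hu1 (by linarith) (by norm_num)
    calc cc * (1 - u^3)^(-(5/6) : ℝ) * (‖f1 ((u:ℂ)^3)‖^2)⁻¹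
        ≤ cc * (1 - u)^(-(5/6) : ℝ) * M := by
          apply mul_le_mul _ (hM u hu0 hu.2.le) (by positivity) (by positivity)
          exact mul_le_mul_of_nonneg_left h5 hcc.le
      _ = cc * M * (1 - u)^(-(5/6) : ℝ) := by ring

theorem vlow_ww {x : ℝ} (h0 : 0 ≤ x) (h1 : x < 1) :
    3 * cc * (3:ℝ)^(-(2/3) : ℝ) * (1 - x)^(1/3 : ℝ) ≤ ‖(bt:ℂ) - ww x‖ := by
  have hcc := cc_pos
  have mono : MonotoneOn (fun u : ℝ => (ww u).re + 3 * cc * (3:ℝ)^(-(2/3) : ℝ) *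
      (1 - u)^(1/3 : ℝ)) (Icc 0 1) := by
    apply monotoneOn_of_deriv_nonneg (convex_Icc 0 1)
    · apply ContinuousOn.add
      · apply Complex.continuous_re.comp_continuousOn
        apply ww_cont.comp (by fun_prop)
        intro u hu
        rw [mem_closedBall_zero_iff, Complex.norm_real, Real.norm_of_nonneg hu.1]
        exact hu.2
      · apply ContinuousOn.mul continuousOn_const
        apply ContinuousOn.rpow_const
        · fun_prop
        · intro u _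
          right
          norm_num
    · intro u hu
      rw [interior_Icc] at hu
      have hu1 : 0 < 1 - u := by linarith [hu.2]
      have h3 := (ww_deriv (vlow_SD hu.1.le hu.2)).real_of_complex
      have h4 : HasDerivAt (fun u : ℝ => 1 - u) (-1) u := (hasDerivAt_id' u).const_sub 1
      have h5 := h4.rpow_const (p := (1/3 : ℝ)) (Or.inl hu1.ne')
      exact (h3.add (h5.const_mul _)).differentiableAt.differentiableWithinAt
    · intro u hu
      rw [interior_Icc] at hu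
      have hu1 : 0 < 1 - u := by linarith [hu.2]
      have h3 := (ww_deriv (vlow_SD hu.1.le hu.2)).real_of_complex
      have h4 : HasDerivAt (fun u : ℝ => 1 - u) (-1) u := (hasDerivAt_id' u).const_sub 1
      have h5 := h4.rpow_const (p := (1/3 : ℝ)) (Or.inl hu1.ne')
      have h6 := h3.fun_add (h5.const_mul (3 * cc * (3:ℝ)^(-(2/3) : ℝ)))
      rw [h6.deriv, vlow_pow hu.1.le hu.2, ← Complex.ofReal_mul, Complex.ofReal_re]
      have e : (1/3 - 1 : ℝ) = -(2/3) := by norm_num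
      rw [e]
      have h7 : 1 - u^3 ≤ 3 * (1 - u) := by
        have : 1 - u^3 = (1 - u) * (1 + u + u^2) := by ring
        rw [this]
        nlinarith [hu.1, hu.2, mul_pos hu.1 hu1]
      have h8 : 0 < 1 - u^3 := by
        have : 1 - u^3 = (1 - u) * (1 + u + u^2) := by ring
        rw [this]
        have := hu.1
        positivity
      have h9 : (3 * (1 - u))^(-(2/3) : ℝ) ≤ (1 - u^3)^(-(2/3) : ℝ) :=
        Real.rpow_le_rpow_of_nonpos h8 h7 (by norm_num)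
      rw [Real.mul_rpow (by norm_num) hu1.le] at h9
      have h10 := mul_le_mul_of_nonneg_left h9 hcc.le
      nlinarith
  have h2 := mono ⟨h0, h1.le⟩ (right_mem_Icc.mpr zero_le_one) h1.le
  simp only [ofReal_one, ww_one, sub_self, ofReal_re] at h2
  rw [Real.zero_rpow (by norm_num), mul_zero, add_zero] at h2
  have h3 := Complex.re_le_norm ((bt:ℂ) - ww x)
  rw [Complex.sub_re, ofReal_re] at h3
  linarith

theorem vlow : ∃ c > 0, ∀ x : ℝ, 0 ≤ x → x < 1 → c * ‖(rv:ℂ) - zz x‖^2 ≤ ‖(bt:ℂ) - ww x‖ := by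
  obtain ⟨M, hM0, hM⟩ := vlow_M
  have hcc := cc_pos
  have h3 : (0:ℝ) < (3:ℝ)^(-(2/3) : ℝ) := by positivity
  refine ⟨3 * cc * (3:ℝ)^(-(2/3) : ℝ) / (6 * cc * M)^2, by positivity, fun x h0 h1 => ?_⟩
  have hx : 0 < 1 - x := by linarith
  refine le_trans ?_ (vlow_ww h0 h1)
  have h4 := vlow_zz h0 h1 hM
  have h5 := pow_le_pow_left₀ (norm_nonneg _) h4 2
  have h6 : ((1 - x)^(1/6 : ℝ))^2 = (1 - x)^(1/3 : ℝ) := by
    rw [← Real.rpow_natCast, ← Real.rpow_mul hx.le]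
    norm_num
  rw [mul_pow, h6] at h5
  have h7 : 0 < 3 * cc * (3:ℝ)^(-(2/3) : ℝ) / (6 * cc * M)^2 := by positivity
  calc 3 * cc * (3:ℝ)^(-(2/3) : ℝ) / (6 * cc * M)^2 * ‖(rv:ℂ) - zz x‖^2
      ≤ 3 * cc * (3:ℝ)^(-(2/3) : ℝ) / (6 * cc * M)^2 * ((6 * cc * M)^2 * (1 - x)^(1/3 : ℝ)) :=
        mul_le_mul_of_nonneg_left h5 h7.le
    _ = 3 * cc * (3:ℝ)^(-(2/3) : ℝ) * (1 - x)^(1/3 : ℝ) := by
        field_simp

end AG
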