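import Pool.Agent.Bloch.Geom
import Pool.Agent.Bloch.Zwa
import Pool.Agent.Bloch.Bij
import Pool.Agent.Bloch.Loc
import Pool.Agent.Bloch.Refl
import Pool.Agent.Bloch.Vlow

/-!
Local analytic extension of the map of the triangles at the vertex `rv`.
-/

set_option autoImplicit false

noncomputable section

namespace AG

open Complex Metric Set Filter Topology
open scoped ComplexConjugate

/-! ### Constants -/

/-- tangent of `π / 12` -/
def vxT : ℝ := 2 - Real.sqrt 3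

theorem vx_sq : Real.sqrt 3 ^ 2 = 3 := Real.sq_sqrt (by norm_num)

theorem vx_lo : (1.7 : ℝ) < Real.sqrt 3 := by
  rw [Real.lt_sqrt (by norm_num)]; norm_num

theorem vx_hi : Real.sqrt 3 < (1.8 : ℝ) := by
  rw [Real.sqrt_lt' (by norm_num)]; norm_num

theorem vxT_pos : 0 < vxT := by unfold vxT; linarith [vx_hi]

theorem vxT_lt : vxT < 1 / 3 := by unfold vxT; linarith [vx_lo]

theorem vxT_mul : vxT * (2 + Real.sqrt 3) = 1 := by
  unfold vxT
  nlinarith [vx_sq]

theorem vx_rv : rv ^ 2 * (1 + Real.sqrt 3) = 1 := by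
  rw [rv_sq]
  have : (0 : ℝ) < 1 + Real.sqrt 3 := by positivity
  field_simp

theorem vx_rv2 : 1 - rv ^ 2 = Real.sqrt 3 * (1 + rv ^ 2) * vxT := by
  unfold vxT
  have h1 := vx_rv
  have h2 := vx_sq
  have h3 : (0 : ℝ) < 1 + Real.sqrt 3 := by positivity
  have h4 : (1 - rv ^ 2 - Real.sqrt 3 * (1 + rv ^ 2) * (2 - Real.sqrt 3)) * (1 + Real.sqrt 3) = 0 := by
    ring_nf
    ring_nf at h1 h2
    nlinarith
  have h5 := (mul_eq_zero.1 h4).resolve_right h3.ne'
  linarith

/-! ### The Moebius map exchanging `0` and `rv` -/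

def vxm (s : ℂ) : ℂ := (rv - s) / (1 - rv * s)

theorem vx_den {s : ℂ} (hs : ‖s‖ < 1) : (1 : ℂ) - rv * s ≠ 0 := by
  intro h
  have h1 : (rv : ℂ) * s = 1 := by linear_combination -h
  have h2 : ‖(rv : ℂ) * s‖ = 1 := by rw [h1]; simp
  rw [norm_mul, Complex.norm_real, Real.norm_of_nonneg rv_pos.le] at h2
  have := rv_lt
  have := rv_pos
  nlinarith [norm_nonneg s]

theorem vxm_zero : vxm 0 = rv := by unfold vxm; simp

theorem vx_rvsq_lt : rv ^ 2 < 1 := by
  have := rv_lt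
  have := rv_pos
  nlinarith

theorem vx_one_sub : (1 : ℂ) - rv ^ 2 ≠ 0 := by
  have h := vx_rvsq_lt
  have : ((1 - rv ^ 2 : ℝ) : ℂ) ≠ 0 := by
    rw [Ne, Complex.ofReal_eq_zero]
    linarith
  simpa using this

theorem vxm_rv : vxm rv = 0 := by unfold vxm; simp

theorem vx_one_sub_m {s : ℂ} (hs : ‖s‖ < 1) : 1 - rv * vxm s = (1 - rv ^ 2) / (1 - rv * s) := by
  have h := vx_den hs
  unfold vxm
  field_simp
  ring

theorem vx_sub_m {s : ℂ} (hs : ‖s‖ < 1) : rv - vxm s = s * (1 - rv ^ 2) / (1 - rv * s) := by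
  have h := vx_den hs
  unfold vxm
  field_simp
  ring

theorem vxm_vxm {s : ℂ} (hs : ‖s‖ < 1) : vxm (vxm s) = s := by
  have h := vx_den hs
  have h1 := vx_one_sub
  have e : vxm (vxm s) = (rv - vxm s) / (1 - rv * vxm s) := rfl
  rw [e, vx_one_sub_m hs, vx_sub_m hs, div_div_div_cancel_right₀ h, mul_div_assoc, div_self h1,
    mul_one]

theorem vxm_diff : DifferentiableOn ℂ vxm (ball 0 1) := by
  intro s hs
  rw [mem_ball_zero_iff] at hs
  have h := vx_den hs
  have : DifferentiableAt ℂ vxm s := by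
    unfold vxm
    exact ((differentiableAt_const _).sub differentiableAt_id).div
      ((differentiableAt_const _).sub ((differentiableAt_const _).mul differentiableAt_id)) h
  exact this.differentiableWithinAt

theorem vxm_norm {s : ℂ} (hs : ‖s‖ < 1) : ‖vxm s‖ < 1 := by
  have h := vx_den hs
  have h0 : 0 < ‖(1 : ℂ) - rv * s‖ := norm_pos_iff.2 h
  unfold vxm
  rw [norm_div, div_lt_one h0]
  have h1 : ‖(rv : ℂ) - s‖ ^ 2 < ‖(1 : ℂ) - rv * s‖ ^ 2 := by
    rw [Complex.sq_norm, Complex.sq_norm, Complex.normSq_apply, Complex.normSq_apply]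
    have h2 : s.re ^ 2 + s.im ^ 2 < 1 := by
      have h3 : ‖s‖ ^ 2 < 1 := by nlinarith [norm_nonneg s]
      rw [Complex.sq_norm, Complex.normSq_apply] at h3
      nlinarith
    have h4 := vx_rvsq_lt
    simp only [sub_re, sub_im, ofReal_re, ofReal_im, mul_re, mul_im, one_re, one_im]
    nlinarith [mul_pos (sub_pos.2 h4) (sub_pos.2 h2)]
  exact lt_of_pow_lt_pow_left₀ 2 h0.le h1

theorem vxm_near {s : ℂ} (hs : ‖s‖ ≤ rv) : 0 ≤ (vxm s).re := by
  have hs1 : ‖s‖ < 1 := lt_of_le_of_lt hs rv_lt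
  have h1 : ‖(rv : ℂ) - vxm s‖ ≤ rv := by
    rw [vx_sub_m hs1, norm_div, norm_mul]
    have h2 : ‖(1 : ℂ) - rv ^ 2‖ = 1 - rv ^ 2 := by
      have : (1 : ℂ) - rv ^ 2 = ((1 - rv ^ 2 : ℝ) : ℂ) := by push_cast; ring
      rw [this, Complex.norm_real, Real.norm_of_nonneg (by linarith [vx_rvsq_lt])]
    have h3 : 1 - rv ^ 2 ≤ ‖(1 : ℂ) - rv * s‖ := by
      have h4 := norm_sub_norm_le (1 : ℂ) (rv * s)
      rw [norm_one, norm_mul, Complex.norm_real, Real.norm_of_nonneg rv_pos.le] at h4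
      nlinarith [rv_pos]
    have h5 : 0 < 1 - rv ^ 2 := by linarith [vx_rvsq_lt]
    rw [h2, div_le_iff₀ (by linarith)]
    nlinarith [rv_pos, norm_nonneg s]
  have h2 : ((rv : ℂ) - vxm s).re ≤ rv := le_trans (Complex.re_le_norm _) h1
  simp only [sub_re, ofReal_re] at h2
  linarith

/-! ### The sides in the new coordinate -/

theorem vx_om_re : om.re = -1 / 2 := rfl
theorem vx_om_im : om.im = Real.sqrt 3 / 2 := rfl

theorem vx_om2 : om ^ 2 = ⟨-1 / 2, -(Real.sqrt 3 / 2)⟩ := by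
  rw [← om_conj]
  rfl

theorem vx_Q {s : ℂ} (hs : ‖s‖ < 1) (w : ℂ) :
    (‖vxm s‖ ^ 2 + 2 * aa * (vxm s * w).re + 1) * ‖(1 : ℂ) - rv * s‖ ^ 2 =
      ‖(rv : ℂ) - s‖ ^ 2 + 2 * aa * ((rv - s) * conj (1 - rv * s) * w).re +
        ‖(1 : ℂ) - rv * s‖ ^ 2 := by
  have h := vx_den hs
  have h0 : ‖(1 : ℂ) - rv * s‖ ≠ 0 := norm_ne_zero_iff.2 h
  have h1 : ‖vxm s‖ ^ 2 * ‖(1 : ℂ) - rv * s‖ ^ 2 = ‖(rv : ℂ) - s‖ ^ 2 := by
    unfold vxm
    rw [norm_div]
    field_simp
  have h2 : (vxm s * w).re * ‖(1 : ℂ) - rv * s‖ ^ 2 =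
      ((rv - s) * conj (1 - rv * s) * w).re := by
    have h3 : vxm s * w * ((‖(1 : ℂ) - rv * s‖ ^ 2 : ℝ) : ℂ) =
        (rv - s) * conj (1 - rv * s) * w := by
      have h4 : ((‖(1 : ℂ) - rv * s‖ ^ 2 : ℝ) : ℂ) = (1 - rv * s) * conj (1 - rv * s) := by
        rw [Complex.mul_conj, Complex.sq_norm]
      rw [h4]
      unfold vxm
      field_simp
    rw [← h3, Complex.re_mul_ofReal]
  linear_combination h1 + 2 * aa * h2

theorem vx_aux_id (v x y a q : ℝ) (ha : a * v = 1 + v ^ 2) :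
    v * ((v - x) ^ 2 + y ^ 2 + 2 * a * (-(1 / 2) * (v * (1 + x ^ 2 + y ^ 2) - (1 + v ^ 2) * x)
      + (q / 2) * ((1 - v ^ 2) * y)) + ((1 - v * x) ^ 2 + v ^ 2 * y ^ 2)) =
      (1 - v ^ 2) ^ 2 * x + q * (1 + v ^ 2) * (1 - v ^ 2) * y := by
  linear_combination (-(v * (1 + x ^ 2 + y ^ 2) - (1 + v ^ 2) * x) + q * (1 - v ^ 2) * y) * ha

theorem vx_Q1 {s : ℂ} (hs : ‖s‖ < 1) :
    rv * ((‖vxm s‖ ^ 2 + 2 * aa * (vxm s * om).re + 1) * ‖(1 : ℂ) - rv * s‖ ^ 2) =
      (1 - rv ^ 2) * (Real.sqrt 3 * (1 + rv ^ 2)) * (vxT * s.re + s.im) := by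
  rw [vx_Q hs]
  have h := vx_aux_id rv s.re s.im aa (Real.sqrt 3) aa_eq
  have e : ((rv - s) * conj (1 - rv * s) * om).re =
      -(1 / 2) * (rv * (1 + s.re ^ 2 + s.im ^ 2) - (1 + rv ^ 2) * s.re)
      + (Real.sqrt 3 / 2) * ((1 - rv ^ 2) * s.im) := by
    simp only [map_sub, map_mul, map_one, mul_re, mul_im, sub_re, sub_im, ofReal_re, ofReal_im,
      conj_ofReal, conj_re, conj_im, one_re, one_im, vx_om_re, vx_om_im]
    ring
  have e1 : ‖(rv : ℂ) - s‖ ^ 2 = (rv - s.re) ^ 2 + s.im ^ 2 := by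
    rw [Complex.sq_norm, Complex.normSq_apply]
    simp only [sub_re, sub_im, ofReal_re, ofReal_im]
    ring
  have e2 : ‖(1 : ℂ) - rv * s‖ ^ 2 = (1 - rv * s.re) ^ 2 + rv ^ 2 * s.im ^ 2 := by
    rw [Complex.sq_norm, Complex.normSq_apply]
    simp only [sub_re, sub_im, ofReal_re, ofReal_im, mul_re, mul_im, one_re, one_im]
    ring
  rw [e, e1, e2, h]
  linear_combination (1 - rv ^ 2) * s.re * vx_rv2

theorem vx_Q2 {s : ℂ} (hs : ‖s‖ < 1) :
    rv * ((‖vxm s‖ ^ 2 + 2 * aa * (vxm s * om ^ 2).re + 1) * ‖(1 : ℂ) - rv * s‖ ^ 2) =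
      (1 - rv ^ 2) * (Real.sqrt 3 * (1 + rv ^ 2)) * (vxT * s.re - s.im) := by
  rw [vx_Q hs]
  have h := vx_aux_id rv s.re s.im aa (-Real.sqrt 3) aa_eq
  have e : ((rv - s) * conj (1 - rv * s) * om ^ 2).re =
      -(1 / 2) * (rv * (1 + s.re ^ 2 + s.im ^ 2) - (1 + rv ^ 2) * s.re)
      + (-Real.sqrt 3 / 2) * ((1 - rv ^ 2) * s.im) := by
    rw [vx_om2]
    simp only [map_sub, map_mul, map_one, mul_re, mul_im, sub_re, sub_im, ofReal_re, ofReal_im,
      conj_ofReal, conj_re, conj_im, one_re, one_im]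
    ring
  have e1 : ‖(rv : ℂ) - s‖ ^ 2 = (rv - s.re) ^ 2 + s.im ^ 2 := by
    rw [Complex.sq_norm, Complex.normSq_apply]
    simp only [sub_re, sub_im, ofReal_re, ofReal_im]
    ring
  have e2 : ‖(1 : ℂ) - rv * s‖ ^ 2 = (1 - rv * s.re) ^ 2 + rv ^ 2 * s.im ^ 2 := by
    rw [Complex.sq_norm, Complex.normSq_apply]
    simp only [sub_re, sub_im, ofReal_re, ofReal_im, mul_re, mul_im, one_re, one_im]
    ring
  rw [e, e1, e2, h]
  linear_combination (1 - rv ^ 2) * s.re * vx_rv2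

theorem vx_om_pow (k : ℕ) : om ^ k = om ^ (k % 3) := by
  conv_lhs => rw [← Nat.div_add_mod k 3, pow_add, pow_mul, om_cube, one_pow, one_mul]

theorem vx_const_pos : 0 < (1 - rv ^ 2) * (Real.sqrt 3 * (1 + rv ^ 2)) := by
  have := vx_rvsq_lt
  have h3 : 0 < Real.sqrt 3 := by positivity
  have : 0 < 1 - rv ^ 2 := by linarith
  positivity

theorem vx_D_pos {s : ℂ} (hs : ‖s‖ < 1) : 0 < rv * ‖(1 : ℂ) - rv * s‖ ^ 2 := by
  have h := norm_pos_iff.2 (vx_den hs)
  have := rv_pos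
  positivity

theorem vx_Q0 {s : ℂ} (hs : ‖s‖ ≤ rv) : 0 < ‖vxm s‖ ^ 2 + 2 * aa * (vxm s * om ^ 0).re + 1 := by
  have h1 := vxm_near hs
  have h2 := aa_gt
  rw [pow_zero, mul_one]
  positivity

/-- points of the sector go to the triangle -/
theorem vx_mem_Tri {s : ℂ} (hs : ‖s‖ ≤ rv) (hsec : |s.im| ≤ vxT * s.re) : vxm s ∈ Tri := by
  have hs1 : ‖s‖ < 1 := lt_of_le_of_lt hs rv_lt
  refine ⟨vxm_norm hs1, fun k => ?_⟩
  rw [vx_om_pow]
  have hk : k % 3 < 3 := Nat.mod_lt _ (by norm_num)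
  have hab := abs_le.1 hsec
  have hc := vx_const_pos
  have hD := vx_D_pos hs1
  interval_cases h : k % 3
  · exact (vx_Q0 hs).le
  · rw [pow_one]
    have h1 := vx_Q1 hs1
    by_contra hcon
    push Not at hcon
    nlinarith [mul_nonneg hc.le (by linarith [hab.1] : 0 ≤ vxT * s.re + s.im),
      mul_pos hD (neg_pos.2 hcon)]
  · have h1 := vx_Q2 hs1
    by_contra hcon
    push Not at hcon
    nlinarith [mul_nonneg hc.le (by linarith [hab.2] : 0 ≤ vxT * s.re - s.im),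
      mul_pos hD (neg_pos.2 hcon)]

/-- points of the open sector go to the open triangle -/
theorem vx_mem_Tin {s : ℂ} (hs : ‖s‖ ≤ rv) (hsec : |s.im| < vxT * s.re) : vxm s ∈ Tin := by
  have hs1 : ‖s‖ < 1 := lt_of_le_of_lt hs rv_lt
  refine ⟨vxm_norm hs1, fun k => ?_⟩
  rw [vx_om_pow]
  have hk : k % 3 < 3 := Nat.mod_lt _ (by norm_num)
  have hab := abs_lt.1 hsec
  have hc := vx_const_pos
  have hD := vx_D_pos hs1
  interval_cases h : k % 3
  · exact vx_Q0 hs
  · rw [pow_one]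
    have h1 := vx_Q1 hs1
    by_contra hcon
    push Not at hcon
    nlinarith [mul_pos hc (by linarith [hab.1] : 0 < vxT * s.re + s.im),
      mul_nonneg hD.le (neg_nonneg.2 hcon)]
  · have h1 := vx_Q2 hs1
    by_contra hcon
    push Not at hcon
    nlinarith [mul_pos hc (by linarith [hab.2] : 0 < vxT * s.re - s.im),
      mul_nonneg hD.le (neg_nonneg.2 hcon)]

/-- points of the triangle come from the sector -/
theorem vx_sector {z : ℂ} (hz : z ∈ Tri) : |(vxm z).im| ≤ vxT * (vxm z).re := by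
  have hz1 : ‖z‖ < 1 := hz.1
  have hs1 := vxm_norm hz1
  have e := vxm_vxm hz1
  have h1 := vx_Q1 hs1
  have h2 := vx_Q2 hs1
  rw [e] at h1 h2
  have hz2 := hz.2 1
  have hz3 := hz.2 2
  rw [pow_one] at hz2
  have hc := vx_const_pos
  have hD := vx_D_pos hs1
  have n1 : 0 ≤ vxT * (vxm z).re + (vxm z).im := by
    by_contra hcon
    push Not at hcon
    nlinarith [mul_pos hc (neg_pos.2 hcon), mul_nonneg hD.le hz2]
  have n2 : 0 ≤ vxT * (vxm z).re - (vxm z).im := by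
    by_contra hcon
    push Not at hcon
    nlinarith [mul_pos hc (neg_pos.2 hcon), mul_nonneg hD.le hz3]
  rw [abs_le]
  constructor <;> linarith

/-! ### Sixth roots -/

theorem vx_re6 (s : ℂ) : (s ^ 6).re = (s.re ^ 2 - s.im ^ 2) *
    (s.re ^ 2 - (2 + Real.sqrt 3) ^ 2 * s.im ^ 2) * (s.re ^ 2 - vxT ^ 2 * s.im ^ 2) := by
  have h1 : (s ^ 6).re = (s.re ^ 2 - s.im ^ 2) * (s.re ^ 4 - 14 * s.re ^ 2 * s.im ^ 2 + s.im ^ 4) := by
    simp only [pow_succ, pow_zero, one_mul, mul_re, mul_im]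
    ring
  have e1 : vxT ^ 2 = 7 - 4 * Real.sqrt 3 := by
    unfold vxT
    linear_combination vx_sq
  have e2 : (2 + Real.sqrt 3) ^ 2 = 7 + 4 * Real.sqrt 3 := by linear_combination vx_sq
  rw [h1, e1, e2]
  linear_combination (s.re ^ 2 - s.im ^ 2) * (16 * s.im ^ 4) * vx_sq

def vxr (t : ℂ) : ℂ := t ^ (((6 : ℕ) : ℂ)⁻¹)

theorem vxr_pow (t : ℂ) : vxr t ^ 6 = t := Complex.cpow_nat_inv_pow t (by norm_num)

theorem vxr_zero : vxr 0 = 0 := by
  unfold vxr
  rw [Complex.zero_cpow]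
  norm_num

/-- real and imaginary part of a root -/
theorem vx_cpow (t : ℂ) (ht : t ≠ 0) (n : ℕ) : ∃ r : ℝ, 0 < r ∧
    (t ^ ((n : ℂ)⁻¹)).re = r * Real.cos (t.arg / n) ∧
    (t ^ ((n : ℂ)⁻¹)).im = r * Real.sin (t.arg / n) := by
  refine ⟨Real.exp (Real.log ‖t‖ / n), Real.exp_pos _, ?_⟩
  rw [Complex.cpow_def_of_ne_zero ht]
  have e : Complex.log t * (n : ℂ)⁻¹ = ((Real.log ‖t‖ / n : ℝ) : ℂ) + ((t.arg / n : ℝ) : ℂ) * I := by
    rw [Complex.log]
    push_cast
    ring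
  rw [e, Complex.exp_add, ← Complex.ofReal_exp, Complex.exp_mul_I, ← Complex.ofReal_cos,
    ← Complex.ofReal_sin]
  generalize Real.exp (Real.log ‖t‖ / n) = A
  generalize Real.cos (t.arg / n) = B
  generalize Real.sin (t.arg / n) = C
  constructor
  · simp
  · simp

theorem vx_trig {θ : ℝ} (h : |θ| ≤ Real.pi / 6) : 2 * |Real.sin θ| ≤ 1.25 * Real.cos θ ∧
    0 < Real.cos θ := by
  have hpi := Real.pi_lt_d2
  have h1 : |θ| ≤ 0.53 := by linarith
  have h2 := Real.abs_sin_le_abs (x := θ)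
  have h3 := Real.one_sub_sq_div_two_le_cos (x := θ)
  have h4 : θ ^ 2 ≤ 0.2809 := by
    rw [← sq_abs]
    nlinarith [abs_nonneg θ]
  constructor
  · nlinarith
  · nlinarith

/-- the root of a point of the right half plane is in the sector -/
theorem vxr_sector {t : ℂ} (ht : 0 ≤ t.re) : |(vxr t).im| ≤ vxT * (vxr t).re ∧
    (0 < t.re → |(vxr t).im| < vxT * (vxr t).re) ∧
    (t.re = 0 → |(vxr t).im| = vxT * (vxr t).re) := by
  by_cases h0 : t = 0
  · subst h0
    rw [vxr_zero]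
    simp
  · obtain ⟨r, hr, hre, him⟩ := vx_cpow t h0 6
    have harg : |t.arg| ≤ Real.pi / 2 := Complex.abs_arg_le_pi_div_two_iff.2 ht
    have harg6 : |t.arg / (6 : ℕ)| ≤ Real.pi / 12 := by
      rw [abs_div]
      push_cast
      rw [abs_of_pos (by norm_num : (0 : ℝ) < 6)]
      linarith
    have hpi := Real.pi_pos
    have hpi2 := Real.pi_lt_d2
    set θ := t.arg / (6 : ℕ) with hθ
    have h1 : |θ| ≤ 0.27 := by linarith
    have h2 := Real.abs_sin_le_abs (x := θ)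
    have h3 := Real.one_sub_sq_div_two_le_cos (x := θ)
    have h4 : θ ^ 2 ≤ 0.0729 := by
      rw [← sq_abs]
      nlinarith [abs_nonneg θ]
    have e6 := vx_re6 (vxr t)
    rw [vxr_pow] at e6
    have hx : (vxr t).re = r * Real.cos θ := hre
    have hy : (vxr t).im = r * Real.sin θ := him
    set x := (vxr t).re
    set y := (vxr t).im
    have hcos : 0.9 < Real.cos θ := by nlinarith
    have hxpos : 0 < x := by rw [hx]; positivity
    have hyx : 2 * |y| ≤ x := by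
      rw [hx, hy, abs_mul, abs_of_pos hr]
      have : 2 * |Real.sin θ| ≤ Real.cos θ := by linarith
      nlinarith
    have hy2 : y ^ 2 ≤ x ^ 2 / 4 := by
      rw [← sq_abs y]
      nlinarith [abs_nonneg y]
    have p1 : 0 < x ^ 2 - y ^ 2 := by nlinarith
    have hT1 := vxT_pos
    have hT2 := vxT_lt
    have hT3 : vxT ^ 2 ≤ 1 := by nlinarith
    have hT4 : vxT ^ 2 * y ^ 2 ≤ y ^ 2 := by nlinarith [sq_nonneg y]
    have p2 : 0 < x ^ 2 - vxT ^ 2 * y ^ 2 := by linarith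
    have hs : 0 < 2 + Real.sqrt 3 := by positivity
    have hTm := vxT_mul
    -- the middle factor
    have e7 : x ^ 2 - (2 + Real.sqrt 3) ^ 2 * y ^ 2 =
        (x - (2 + Real.sqrt 3) * |y|) * (x + (2 + Real.sqrt 3) * |y|) := by
      rw [← sq_abs y]; ring
    have p3 : 0 < x + (2 + Real.sqrt 3) * |y| := by positivity
    have e8 : t.re = (x - (2 + Real.sqrt 3) * |y|) *
        ((x ^ 2 - y ^ 2) * (x + (2 + Real.sqrt 3) * |y|) * (x ^ 2 - vxT ^ 2 * y ^ 2)) := by
      rw [e6, e7]; ring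
    have p4 : 0 < (x ^ 2 - y ^ 2) * (x + (2 + Real.sqrt 3) * |y|) * (x ^ 2 - vxT ^ 2 * y ^ 2) := by
      positivity
    have e9 : vxT * x - |y| = vxT * (x - (2 + Real.sqrt 3) * |y|) := by
      linear_combination |y| * hTm
    refine ⟨?_, ?_, ?_⟩
    · have : 0 ≤ x - (2 + Real.sqrt 3) * |y| := by
        by_contra hcon
        push Not at hcon
        nlinarith
      nlinarith
    · intro hpos
      have : 0 < x - (2 + Real.sqrt 3) * |y| := by
        by_contra hcon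
        push Not at hcon
        nlinarith
      nlinarith
    · intro hz
      rw [hz] at e8
      have := (mul_eq_zero.1 e8.symm).resolve_right p4.ne'
      rw [this, mul_zero] at e9
      linarith

theorem vxr_norm {t : ℂ} {R : ℝ} (hR : 0 ≤ R) (ht : ‖t‖ < R ^ 6) : ‖vxr t‖ < R := by
  have h : ‖vxr t‖ ^ 6 < R ^ 6 := by
    rw [← norm_pow, vxr_pow]
    exact ht
  exact lt_of_pow_lt_pow_left₀ 6 hR h

/-- uniqueness of the root in the sector -/
theorem vxr_of_sector {s : ℂ} (hsec : |s.im| ≤ vxT * s.re) : vxr (s ^ 6) = s := by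
  have hre : 0 ≤ s.re := by
    have := vxT_pos
    by_contra hcon
    push Not at hcon
    nlinarith [abs_nonneg s.im]
  have harg : |s.arg| < Real.pi / 6 := by
    by_cases h0 : s = 0
    · subst h0
      simp only [arg_zero, abs_zero]
      have := Real.pi_pos
      positivity
    · have hn : 0 < ‖s‖ := norm_pos_iff.2 h0
      rw [Complex.arg_of_re_nonneg hre]
      have hb : |s.im / ‖s‖| < 1 / 2 := by
        rw [abs_div, abs_of_pos hn, div_lt_iff₀ hn]
        have h1 : s.re ≤ ‖s‖ := Complex.re_le_norm s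
        have := vxT_pos
        have := vxT_lt
        nlinarith
      have hb' := abs_lt.1 hb
      have hpi := Real.pi_pos
      have hmem : s.im / ‖s‖ ∈ Icc (-1 : ℝ) 1 := ⟨by linarith, by linarith⟩
      have hp6 : Real.pi / 6 ∈ Icc (-(Real.pi / 2)) (Real.pi / 2) := ⟨by linarith, by linarith⟩
      have hp6' : -(Real.pi / 6) ∈ Icc (-(Real.pi / 2)) (Real.pi / 2) :=
        ⟨by linarith, by linarith⟩
      rw [abs_lt]
      constructor
      · rw [Real.lt_arcsin_iff_sin_lt hp6' hmem, Real.sin_neg, Real.sin_pi_div_six]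
        linarith
      · rw [Real.arcsin_lt_iff_lt_sin hmem hp6, Real.sin_pi_div_six]
        linarith
  have ha := abs_lt.1 harg
  unfold vxr
  apply Complex.pow_cpow_nat_inv (by norm_num)
  · push_cast; exact ha.1
  · push_cast; exact ha.2.le

theorem vx_re6_nonneg {s : ℂ} (hsec : |s.im| ≤ vxT * s.re) : 0 ≤ (s ^ 6).re := by
  rw [vx_re6]
  have hT1 := vxT_pos
  have hT2 := vxT_lt
  have hTm := vxT_mul
  have hre : 0 ≤ s.re := by
    by_contra hcon
    push Not at hcon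
    nlinarith [abs_nonneg s.im]
  have hs : 0 < 2 + Real.sqrt 3 := by positivity
  have h1 : (2 + Real.sqrt 3) * |s.im| ≤ s.re := by
    have := mul_le_mul_of_nonneg_left hsec hs.le
    nlinarith
  have h2 : (2 + Real.sqrt 3) ^ 2 * s.im ^ 2 ≤ s.re ^ 2 := by
    rw [← sq_abs s.im, ← mul_pow]
    exact pow_le_pow_left₀ (by positivity) h1 2
  have h3 : s.im ^ 2 ≤ (2 + Real.sqrt 3) ^ 2 * s.im ^ 2 := by
    have : 1 ≤ (2 + Real.sqrt 3) ^ 2 := by nlinarith [Real.sqrt_nonneg 3]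
    nlinarith [sq_nonneg s.im]
  have h4 : vxT ^ 2 * s.im ^ 2 ≤ s.im ^ 2 := by
    have : vxT ^ 2 ≤ 1 := by nlinarith
    nlinarith [sq_nonneg s.im]
  have p1 : 0 ≤ s.re ^ 2 - s.im ^ 2 := by linarith
  have p2 : 0 ≤ s.re ^ 2 - (2 + Real.sqrt 3) ^ 2 * s.im ^ 2 := by linarith
  have p3 : 0 ≤ s.re ^ 2 - vxT ^ 2 * s.im ^ 2 := by linarith
  positivity

/-! ### The value at the vertex and the cone of the Euclidean triangle -/

theorem vx_rv_mem : (rv : ℂ) ∈ Tri := by
  have := rv_mem 0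
  simpa using this

theorem vx_F0_rv : F0 rv = bt := by
  have h := F0_zz (x := 1) (by simp)
  rwa [zz_one, ww_one] at h

theorem vx_cone {z : ℂ} (hz : z ∈ Tri) : (((bt : ℂ) - F0 z) * om).re ≤ 0 ∧
    (((bt : ℂ) - F0 z) * om ^ 2).re ≤ 0 := by
  have hD : F0 z ∈ Del := by rw [← F0_img]; exact mem_image_of_mem _ hz
  have h1 := hD 1
  have h2 := hD 2
  rw [pow_one] at h1
  rw [sub_mul, sub_mul, sub_re, sub_re, Complex.re_ofReal_mul, Complex.re_ofReal_mul, vx_om2,
    vx_om_re]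
  rw [vx_om2] at h2
  constructor
  · linarith
  · simp only
    linarith

/-! ### Regularity of `F0` in the open triangle -/

theorem vx_F0_diff {z : ℂ} (hz : z ∈ Tin) : DifferentiableAt ℂ F0 z := by
  have hz' := tin_sub hz
  have hv : ∀ k : ℕ, z ≠ rv * om ^ k := by
    rintro k rfl
    -- the vertex is on a side
    have h1 := hz.2 (2 * k + 1)
    have e : (rv : ℂ) * om ^ k * om ^ (2 * k + 1) = rv * om := by
      have : om ^ k * om ^ (2 * k + 1) = om := by
        rw [← pow_add, show k + (2 * k + 1) = 3 * k + 1 by ring, pow_succ, pow_mul, om_cube,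
          one_pow, one_mul]
      rw [mul_assoc, this]
    rw [e, norm_mul, norm_pow, om_norm, one_pow, mul_one, Complex.norm_real,
      Real.norm_of_nonneg rv_pos.le, Complex.re_ofReal_mul, vx_om_re] at h1
    have := aa_eq
    nlinarith
  obtain ⟨δ, hδ, G, hG, hGF, -⟩ := loc_ext hz' hv
  have hGd : DifferentiableAt ℂ G z :=
    (hG z (mem_ball_self hδ)).differentiableAt (isOpen_ball.mem_nhds (mem_ball_self hδ))
  refine hGd.congr_of_eventuallyEq ?_
  have h1 : ball z δ ∩ Tin ∈ 𝓝 z :=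
    inter_mem (isOpen_ball.mem_nhds (mem_ball_self hδ)) (tin_open.mem_nhds hz)
  filter_upwards [h1] with x hx
  exact (hGF x ⟨hx.1, tin_sub hx.2⟩).symm

/-! ### The cubed function in the right half disc -/

def vxH (t : ℂ) : ℂ := ((bt : ℂ) - F0 (vxm (vxr t))) ^ 3

theorem vx_re_cube {w : ℂ} (h : w.re = 0) : (w ^ 3).re = 0 := by
  simp only [pow_succ, pow_zero, one_mul, mul_re, mul_im, h]
  ring

theorem vx_cube_om (a : ℂ) (k : ℕ) : (a * om ^ k) ^ 3 = a ^ 3 := by
  rw [mul_pow, ← pow_mul, mul_comm k 3, pow_mul, om_cube, one_pow, mul_one]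

theorem vxr_cont {t : ℂ} (ht : 0 ≤ t.re) : ContinuousAt vxr t := by
  unfold vxr
  exact Complex.continuousAt_cpow_const_of_re_pos (Or.inl ht) (by norm_num)

theorem vxH_cont : ContinuousOn vxH {t | ‖t‖ < rv ^ 6 ∧ 0 ≤ t.re} := by
  have h1 : ContinuousOn vxr {t | ‖t‖ < rv ^ 6 ∧ 0 ≤ t.re} := fun t ht =>
    (vxr_cont ht.2).continuousWithinAt
  have h2 : ContinuousOn (fun t => vxm (vxr t)) {t | ‖t‖ < rv ^ 6 ∧ 0 ≤ t.re} := by
    refine vxm_diff.continuousOn.comp h1 fun t ht => ?_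
    rw [mem_ball_zero_iff]
    exact (vxr_norm rv_pos.le ht.1).trans rv_lt
  have h3 : ContinuousOn (fun t => F0 (vxm (vxr t))) {t | ‖t‖ < rv ^ 6 ∧ 0 ≤ t.re} := by
    refine F0_cont.comp h2 fun t ht => ?_
    exact vx_mem_Tri (vxr_norm rv_pos.le ht.1).le (vxr_sector ht.2).1
  exact (continuousOn_const.sub h3).pow 3

theorem vxH_diff : DifferentiableOn ℂ vxH {t | ‖t‖ < rv ^ 6 ∧ 0 < t.re} := by
  intro t ht
  have hs := vxr_norm rv_pos.le ht.1
  have h1 : DifferentiableAt ℂ vxr t := by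
    unfold vxr
    exact differentiableAt_id.cpow_const (Or.inl ht.2)
  have h2 : DifferentiableAt ℂ vxm (vxr t) :=
    (vxm_diff _ (mem_ball_zero_iff.2 (hs.trans rv_lt))).differentiableAt
      (isOpen_ball.mem_nhds (mem_ball_zero_iff.2 (hs.trans rv_lt)))
  have h3 : DifferentiableAt ℂ F0 (vxm (vxr t)) :=
    vx_F0_diff (vx_mem_Tin hs.le ((vxr_sector ht.2.le).2.1 ht.2))
  have h4' : DifferentiableAt ℂ (F0 ∘ (vxm ∘ vxr)) t :=
    DifferentiableAt.comp t (g := F0) (f := vxm ∘ vxr) h3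
      (DifferentiableAt.comp t (g := vxm) (f := vxr) h2 h1)
  have h4 : DifferentiableAt ℂ (fun t => F0 (vxm (vxr t))) t := h4'
  exact (((differentiableAt_const _).sub h4).pow 3).differentiableWithinAt

theorem vxH_im {t : ℂ} (h1 : ‖t‖ < rv ^ 6) (h2 : t.re = 0) : (vxH t).re = 0 := by
  have hs := vxr_norm rv_pos.le h1
  have hs1 := hs.trans rv_lt
  have hsec := vxr_sector h2.ge
  have hz := vx_mem_Tri hs.le hsec.1
  have heq := hsec.2.2 h2
  have hD := vx_D_pos hs1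
  have key : ∀ k : ℕ, (om ^ k).re = -1 / 2 →
      ‖vxm (vxr t)‖ ^ 2 + 2 * aa * (vxm (vxr t) * om ^ k).re + 1 = 0 → (vxH t).re = 0 := by
    intro k hk hQ
    have h3 := F0_side hz hQ
    unfold vxH
    rw [← vx_cube_om _ k]
    apply vx_re_cube
    rw [sub_mul, sub_re, Complex.re_ofReal_mul, hk, h3]
    ring
  rcases abs_cases (vxr t).im with ⟨h3, _⟩ | ⟨h3, _⟩
  · apply key 2
    · rw [vx_om2]
    · have h4 := vx_Q2 hs1
      rw [h3] at heq
      rw [← heq, sub_self, mul_zero] at h4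
      have h5 : ‖vxm (vxr t)‖ ^ 2 + 2 * aa * (vxm (vxr t) * om ^ 2).re + 1 = 0 := by
        by_contra hne
        apply hD.ne'
        have h6 : (‖vxm (vxr t)‖ ^ 2 + 2 * aa * (vxm (vxr t) * om ^ 2).re + 1) *
            (rv * ‖(1 : ℂ) - rv * vxr t‖ ^ 2) = 0 := by linear_combination h4
        exact (mul_eq_zero.1 h6).resolve_left hne
      exact h5
  · apply key 1
    · rw [pow_one, vx_om_re]
    · have h4 := vx_Q1 hs1
      rw [h3] at heq
      rw [← heq, neg_add_cancel, mul_zero] at h4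
      rw [pow_one]
      by_contra hne
      apply hD.ne'
      have h6 : (‖vxm (vxr t)‖ ^ 2 + 2 * aa * (vxm (vxr t) * om).re + 1) *
          (rv * ‖(1 : ℂ) - rv * vxr t‖ ^ 2) = 0 := by linear_combination h4
      exact (mul_eq_zero.1 h6).resolve_left hne

/-! ### Lower bound on the real axis -/

/-- real points of the triangle are images of real points -/
theorem vx_real {y : ℝ} (h0 : 0 < y) (h1 : y < rv) : ∃ x : ℝ, 0 ≤ x ∧ x < 1 ∧ zz x = y := by
  have hc : ContinuousOn (fun x : ℝ => (zz x).re) (Icc 0 1) := by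
    have h2 : ContinuousOn (fun x : ℝ => zz (x : ℂ)) (Icc 0 1) := by
      refine zz_cont.comp Complex.continuous_ofReal.continuousOn fun x hx => ?_
      rw [mem_closedBall_zero_iff, Complex.norm_real, Real.norm_of_nonneg hx.1]
      exact hx.2
    exact Complex.continuous_re.comp_continuousOn h2
  have hiv := intermediate_value_Icc (zero_le_one) hc
  have hz0 : (zz ((0 : ℝ) : ℂ)).re = 0 := by
    unfold zz
    simp
  have hz1 : (zz ((1 : ℝ) : ℂ)).re = rv := by
    rw [Complex.ofReal_one, zz_one, Complex.ofReal_re]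
  obtain ⟨x, hx, hxy⟩ := hiv (show y ∈ Icc _ _ by
    simp only [hz0, hz1]; exact ⟨h0.le, h1.le⟩)
  have hxn : ‖(x : ℂ)‖ ≤ 1 := by
    rw [Complex.norm_real, Real.norm_of_nonneg hx.1]
    exact hx.2
  have hconj := zz_conj hxn
  rw [Complex.conj_ofReal] at hconj
  have him : (zz x).im = 0 := by
    have := congrArg Complex.im hconj
    rw [Complex.conj_im] at this
    linarith
  have hzz : zz x = y := by
    apply Complex.ext
    · rw [Complex.ofReal_re]; exact hxy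
    · rw [Complex.ofReal_im]; exact him
  refine ⟨x, hx.1, lt_of_le_of_ne hx.2 ?_, hzz⟩
  rintro rfl
  rw [Complex.ofReal_one, zz_one, Complex.ofReal_inj] at hzz
  linarith

theorem vxr_real {t : ℝ} (ht : 0 < t) : ∃ s : ℝ, 0 < s ∧ vxr t = s ∧ s ^ 6 = t := by
  refine ⟨t ^ ((6 : ℝ)⁻¹), by positivity, ?_, ?_⟩
  · unfold vxr
    rw [Complex.ofReal_cpow ht.le]
    push_cast
    rfl
  · rw [← Real.rpow_natCast, ← Real.rpow_mul ht.le]
    norm_num

theorem vx_low : ∃ c > 0, ∀ t : ℝ, 0 < t → t < rv ^ 6 → (vxH t).im = 0 ∧ c * t ≤ (vxH t).re := by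
  obtain ⟨c, hc, hlow⟩ := vlow
  have hv2 : 0 < 1 - rv ^ 2 := by linarith [vx_rvsq_lt]
  refine ⟨c ^ 3 * (1 - rv ^ 2) ^ 6, by positivity, fun t ht ht1 => ?_⟩
  obtain ⟨s, hs, hvs, hst⟩ := vxr_real ht
  have hsv : s < rv := by
    refine lt_of_pow_lt_pow_left₀ 6 rv_pos.le ?_
    rw [hst]; exact ht1
  have hrv := rv_pos
  have hrv1 := rv_lt
  have hden : 0 < 1 - rv * s := by nlinarith
  -- the point
  set y : ℝ := (rv - s) / (1 - rv * s) with hy
  have hm : vxm (vxr t) = y := by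
    rw [hvs, hy]
    unfold vxm
    push_cast
    rfl
  have hy0 : 0 < y := by
    rw [hy]
    exact div_pos (by linarith) hden
  have hyv : rv - y = s * (1 - rv ^ 2) / (1 - rv * s) := by
    rw [hy]
    field_simp
    ring
  have hyv' : s * (1 - rv ^ 2) ≤ rv - y := by
    rw [hyv, le_div_iff₀ hden]
    nlinarith [mul_pos hs hv2, mul_pos hrv hs]
  have hy1 : y < rv := by
    have := mul_pos hs hv2
    linarith
  obtain ⟨x, hx0, hx1, hxy⟩ := vx_real hy0 hy1
  have hxn : ‖(x : ℂ)‖ ≤ 1 := by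
    rw [Complex.norm_real, Real.norm_of_nonneg hx0]
    exact hx1.le
  have hF : F0 y = ww x := by rw [← hxy, F0_zz hxn]
  have hl := hlow x hx0 hx1
  rw [hxy] at hl
  have e1 : ‖(rv : ℂ) - y‖ = rv - y := by
    rw [← Complex.ofReal_sub, Complex.norm_real, Real.norm_of_nonneg (by linarith)]
  rw [e1, ← hF] at hl
  -- the value is real
  have hyT : (y : ℂ) ∈ Tri := by
    rw [← hm]
    refine vx_mem_Tri ?_ ?_
    · rw [hvs, Complex.norm_real, Real.norm_of_nonneg hs.le]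
      exact hsv.le
    · rw [hvs, Complex.ofReal_im, Complex.ofReal_re, abs_zero]
      exact mul_nonneg vxT_pos.le hs.le
  have him : (F0 y).im = 0 := by
    have h := F0_conj hyT
    rw [Complex.conj_ofReal] at h
    have := congrArg Complex.im h
    rw [Complex.conj_im] at this
    linarith
  have hcone := (vx_cone hyT).1
  have hFre : (F0 y).re ≤ bt := by
    rw [mul_re, vx_om_re, vx_om_im, sub_re, sub_im, Complex.ofReal_re, Complex.ofReal_im, him] at hcone
    linarith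
  set a : ℝ := bt - (F0 y).re with ha
  have haF : (bt : ℂ) - F0 y = a := by
    apply Complex.ext
    · rw [sub_re, Complex.ofReal_re, Complex.ofReal_re]
    · rw [sub_im, Complex.ofReal_im, Complex.ofReal_im, him, sub_zero]
  have ha0 : 0 ≤ a := by linarith
  rw [haF, Complex.norm_real, Real.norm_of_nonneg ha0] at hl
  have hH : vxH t = ((a ^ 3 : ℝ) : ℂ) := by
    unfold vxH
    rw [hm, haF]
    push_cast
    rfl
  rw [hH, Complex.ofReal_im, Complex.ofReal_re]
  refine ⟨rfl, ?_⟩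
  have h5 : c * (s * (1 - rv ^ 2)) ^ 2 ≤ a := by
    have h6 : (s * (1 - rv ^ 2)) ^ 2 ≤ (rv - y) ^ 2 :=
      pow_le_pow_left₀ (by positivity) hyv' 2
    nlinarith
  have h7 : (c * (s * (1 - rv ^ 2)) ^ 2) ^ 3 ≤ a ^ 3 := pow_le_pow_left₀ (by positivity) h5 3
  have h8 : (c * (s * (1 - rv ^ 2)) ^ 2) ^ 3 = c ^ 3 * (1 - rv ^ 2) ^ 6 * s ^ 6 := by ring
  rw [h8, hst] at h7
  exact h7

/-! ### Second derivative -/

theorem vx_deriv2 {B : ℂ → ℂ} {v : ℂ} {δ : ℝ} (hδ : 0 < δ) (hB : DifferentiableOn ℂ B (ball v δ))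
    (c : ℂ) : deriv (fun z => c - (z - v) ^ 2 * B z) v = 0 ∧
      deriv (deriv (fun z => c - (z - v) ^ 2 * B z)) v = -2 * B v := by
  have hBd : ∀ z ∈ ball v δ, HasDerivAt B (deriv B z) z := fun z hz =>
    ((hB z hz).differentiableAt (isOpen_ball.mem_nhds hz)).hasDerivAt
  have h1 : ∀ z ∈ ball v δ, HasDerivAt (fun z => c - (z - v) ^ 2 * B z)
      (-(2 * (z - v) * B z + (z - v) ^ 2 * deriv B z)) z := by
    intro z hz
    have h2 : HasDerivAt (fun z : ℂ => (z - v) ^ 2) (2 * (z - v)) z := by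
      have h20 : HasDerivAt (fun z : ℂ => z - v) 1 z := (hasDerivAt_id z).sub_const v
      have h21 := h20.fun_pow 2
      refine h21.congr_deriv ?_
      simp
    have h3 := (h2.mul (hBd z hz)).const_sub c
    exact h3
  have hv : v ∈ ball v δ := mem_ball_self hδ
  constructor
  · rw [(h1 v hv).deriv]
    simp
  · have h4 : deriv (fun z => c - (z - v) ^ 2 * B z) =ᶠ[𝓝 v]
        fun z => -(2 * (z - v) * B z + (z - v) ^ 2 * deriv B z) := by
      filter_upwards [isOpen_ball.mem_nhds hv] with z hz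
      exact (h1 z hz).deriv
    rw [h4.deriv_eq]
    have hdB : DifferentiableAt ℂ (deriv B) v :=
      ((hB.deriv isOpen_ball) v hv).differentiableAt (isOpen_ball.mem_nhds hv)
    have h5 : HasDerivAt (fun z : ℂ => 2 * (z - v)) 2 v := by
      have := ((hasDerivAt_id v).sub_const v).const_mul (2 : ℂ)
      simpa using this
    have h6 : HasDerivAt (fun z : ℂ => (z - v) ^ 2) 0 v := by
      have h20 : HasDerivAt (fun z : ℂ => z - v) 1 v := (hasDerivAt_id v).sub_const v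
      have h21 := h20.fun_pow 2
      refine h21.congr_deriv ?_
      simp
    have h7 := ((h5.mul (hBd v hv)).add (h6.mul hdB.hasDerivAt)).neg
    have h8 := h7.deriv
    simp only [sub_self, mul_zero, zero_mul, add_zero, ne_eq, OfNat.ofNat_ne_zero,
      not_false_eq_true, zero_pow] at h8
    rw [show -2 * B v = -(2 * B v) by ring]
    rw [← h8]
    rfl

/-! ### Cube roots -/

/-- two numbers with the same cube -/
theorem vx_cube_eq {a b : ℂ} (h : a ^ 3 = b ^ 3) (h1 : (a * om).re ≤ 0) (h2 : (a * om ^ 2).re ≤ 0)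
    (hb : 0 < b.re) : a = b := by
  have h3 : (a - b) * ((a - om * b) * (a - om ^ 2 * b)) = 0 := by
    have e1 := om_sum
    have e2 := om_cube
    have : (a - b) * ((a - om * b) * (a - om ^ 2 * b)) =
        a ^ 3 - (1 + om + om ^ 2) * a ^ 2 * b + (om + om ^ 2 + om ^ 3) * a * b ^ 2
          - om ^ 3 * b ^ 3 := by ring
    rw [this, e1, e2]
    have e3 : om + om ^ 2 + 1 = 0 := by linear_combination e1
    rw [e3, h]
    ring
  rcases mul_eq_zero.1 h3 with h4 | h4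
  · exact sub_eq_zero.1 h4
  · exfalso
    rcases mul_eq_zero.1 h4 with h5 | h5
    · have h6 : b = a * om ^ 2 := by
        have h7 := sub_eq_zero.1 h5
        rw [h7]
        have e2 := om_cube
        linear_combination (-b) * e2
      rw [h6] at hb
      linarith
    · have h6 : b = a * om := by
        have h7 := sub_eq_zero.1 h5
        rw [h7]
        have e2 := om_cube
        linear_combination (-b) * e2
      rw [h6] at hb
      linarith

/-- the product of the square of a point of the sector with the cube root of a number with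
positive real part has positive real part -/
theorem vx_prod_pos {s w : ℂ} (hs : s ≠ 0) (hsec : |s.im| ≤ vxT * s.re) (hw : 0 < w.re) :
    0 < (s ^ 2 * w ^ (((3 : ℕ) : ℂ)⁻¹)).re := by
  have hw0 : w ≠ 0 := by
    rintro rfl
    simp at hw
  obtain ⟨r, hr, hre, him⟩ := vx_cpow w hw0 3
  have harg : |w.arg| ≤ Real.pi / 2 := Complex.abs_arg_le_pi_div_two_iff.2 hw.le
  have harg3 : |w.arg / (3 : ℕ)| ≤ Real.pi / 6 := by
    rw [abs_div]
    push_cast
    rw [abs_of_pos (by norm_num : (0 : ℝ) < 3)]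
    linarith
  obtain ⟨ht1, ht2⟩ := vx_trig harg3
  set p := (w ^ (((3 : ℕ) : ℂ)⁻¹)).re
  set q := (w ^ (((3 : ℕ) : ℂ)⁻¹)).im
  have hp : 0 < p := by rw [hre]; positivity
  have hq : 2 * |q| ≤ 1.25 * p := by
    rw [hre, him, abs_mul, abs_of_pos hr]
    nlinarith
  have hT1 := vxT_pos
  have hT2 := vxT_lt
  have hx : 0 < s.re := by
    have h1 : 0 ≤ s.re := by
      by_contra hcon
      push Not at hcon
      nlinarith [abs_nonneg s.im]
    rcases h1.lt_or_eq with h | h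
    · exact h
    · exfalso
      rw [← h, mul_zero] at hsec
      have h2 := abs_eq_zero.1 (le_antisymm hsec (abs_nonneg _))
      exact hs (Complex.ext h.symm h2)
  have hy : 3 * |s.im| ≤ s.re := by nlinarith
  rw [mul_re]
  have e1 : (s ^ 2).re = s.re ^ 2 - s.im ^ 2 := by
    simp only [pow_two, mul_re]
  have e2 : (s ^ 2).im = 2 * s.re * s.im := by
    simp only [pow_two, mul_im]
    ring
  rw [e1, e2]
  have h3 : 2 * s.re * s.im * q ≤ 2 * s.re * (|s.im| * |q|) := by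
    have : s.im * q ≤ |s.im| * |q| := by
      rw [← abs_mul]
      exact le_abs_self _
    nlinarith
  have h4 : |s.im| * |q| ≤ (s.re / 3) * (0.625 * p) := by
    apply mul_le_mul
    · linarith
    · linarith
    · exact abs_nonneg _
    · positivity
  have h5 : s.im ^ 2 ≤ s.re ^ 2 / 9 := by
    rw [← sq_abs s.im]
    nlinarith [abs_nonneg s.im]
  have h6 : 2 * s.re * (|s.im| * |q|) ≤ 2 * s.re * ((s.re / 3) * (0.625 * p)) :=
    mul_le_mul_of_nonneg_left h4 (by linarith)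
  have h7 : s.im ^ 2 * p ≤ s.re ^ 2 / 9 * p := mul_le_mul_of_nonneg_right h5 hp.le
  have h8 : 0 < s.re ^ 2 * p := by positivity
  have h9 : 0 < (s.re ^ 2 - s.im ^ 2) * p - 2 * s.re * s.im * q := by nlinarith
  exact h9

/-! ### The extension -/

theorem vert_ext : ∃ δ > 0, ∃ G : ℂ → ℂ, DifferentiableOn ℂ G (ball (rv:ℂ) δ) ∧
      (∀ z ∈ ball (rv:ℂ) δ ∩ Tri, G z = F0 z) ∧ deriv G rv = 0 ∧ deriv (deriv G) rv ≠ 0 := by
  have hr0 : 0 < rv ^ 6 := by have := rv_pos; positivity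
  obtain ⟨G1, hG1, hG1H⟩ := schwarz_refl hr0 vxH vxH_cont vxH_diff
    (fun t h1 h2 => vxH_im h1 h2)
  obtain ⟨c, hc, hlow⟩ := vx_low
  have hG10 : G1 0 = 0 := by
    rw [hG1H 0 (by simpa using hr0) (by simp)]
    unfold vxH
    rw [vxr_zero, vxm_zero, vx_F0_rv]
    simp
  have h0mem : (0 : ℂ) ∈ ball (0 : ℂ) (rv ^ 6) := mem_ball_self hr0
  have hd0 : HasDerivAt G1 (deriv G1 0) 0 :=
    ((hG1 0 h0mem).differentiableAt (isOpen_ball.mem_nhds h0mem)).hasDerivAt
  -- the derivative at zero is positive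
  have hpos : (deriv G1 0).im = 0 ∧ c ≤ (deriv G1 0).re := by
    have hcl : IsClosed {w : ℂ | w.im = 0 ∧ c ≤ w.re} :=
      (isClosed_eq Complex.continuous_im continuous_const).inter
        (isClosed_le continuous_const Complex.continuous_re)
    have hcomp : HasDerivAt (fun t : ℝ => G1 t) (deriv G1 0) 0 := by
      have := hd0
      rw [← Complex.ofReal_zero] at this
      have h := this.comp_ofReal
      simpa using h
    have htend := (hasDerivAt_iff_tendsto_slope.1 hcomp).mono_left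
      (nhdsWithin_mono (0 : ℝ) (fun x (hx : 0 < x) => (ne_of_gt hx : x ≠ 0)) :
        𝓝[>] (0 : ℝ) ≤ 𝓝[≠] 0)
    refine hcl.mem_of_tendsto htend ?_
    have hmem : Ioo (0 : ℝ) (rv ^ 6) ∈ 𝓝[>] (0 : ℝ) := Ioo_mem_nhdsGT hr0
    filter_upwards [hmem] with t ht
    have hn : ‖(t : ℂ)‖ < rv ^ 6 := by
      rw [Complex.norm_real, Real.norm_of_nonneg ht.1.le]
      exact ht.2
    have hH := hG1H t hn (by rw [Complex.ofReal_re]; exact ht.1.le)
    obtain ⟨h1, h2⟩ := hlow t ht.1 ht.2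
    rw [slope_def_module, Complex.ofReal_zero, hG10, sub_zero, sub_zero, hH]
    constructor
    · rw [Complex.smul_im, h1, smul_zero]
    · rw [Complex.smul_re, smul_eq_mul, ← div_eq_inv_mul, le_div_iff₀ ht.1]
      exact h2
  -- the quotient
  set H1 : ℂ → ℂ := dslope G1 0 with hH1
  have hH1d : DifferentiableOn ℂ H1 (ball 0 (rv ^ 6)) :=
    (Complex.differentiableOn_dslope (isOpen_ball.mem_nhds h0mem)).2 hG1
  have hH10 : H1 0 = deriv G1 0 := dslope_same _ _
  have hH1m : ∀ t, t * H1 t = G1 t := by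
    intro t
    have := sub_smul_dslope G1 0 t
    rw [hG10, sub_zero, sub_zero, smul_eq_mul] at this
    exact this
  have hH1c : ContinuousAt H1 0 :=
    ((hH1d 0 h0mem).differentiableAt (isOpen_ball.mem_nhds h0mem)).continuousAt
  have hre0 : 0 < (H1 0).re := by
    rw [hH10]
    exact lt_of_lt_of_le hc hpos.2
  have hev : ∀ᶠ t in 𝓝 (0 : ℂ), 0 < (H1 t).re ∧ t ∈ ball (0 : ℂ) (rv ^ 6) := by
    have h1 : ContinuousAt (fun t => (H1 t).re) 0 := Complex.continuous_re.continuousAt.comp hH1c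
    exact (h1.eventually (lt_mem_nhds hre0)).and (isOpen_ball.mem_nhds h0mem)
  -- the neighbourhood
  have hrvball : (rv : ℂ) ∈ ball (0 : ℂ) 1 := by
    rw [mem_ball_zero_iff, Complex.norm_real, Real.norm_of_nonneg rv_pos.le]
    exact rv_lt
  have hmc : ContinuousAt vxm rv :=
    ((vxm_diff _ hrvball).differentiableAt (isOpen_ball.mem_nhds hrvball)).continuousAt
  have hm6 : Tendsto (fun z => vxm z ^ 6) (𝓝 (rv : ℂ)) (𝓝 0) := by
    have h1 := hmc.tendsto.pow 6
    rw [vxm_rv] at h1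
    simpa using h1
  have hev2 : ∀ᶠ z in 𝓝 (rv : ℂ), (0 < (H1 (vxm z ^ 6)).re ∧ vxm z ^ 6 ∈ ball (0 : ℂ) (rv ^ 6)) ∧
      z ∈ ball (0 : ℂ) 1 := (hm6.eventually hev).and (isOpen_ball.mem_nhds hrvball)
  obtain ⟨δ, hδ, hball⟩ := Metric.eventually_nhds_iff_ball.1 hev2
  -- the function
  set B : ℂ → ℂ := fun z => (H1 (vxm z ^ 6)) ^ (((3 : ℕ) : ℂ)⁻¹) / (1 - rv * z) ^ 2 with hB
  have hBd : DifferentiableOn ℂ B (ball (rv : ℂ) δ) := by
    intro z hz
    obtain ⟨⟨h1, h2⟩, h3⟩ := hball z hz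
    have hd1 : DifferentiableAt ℂ vxm z :=
      (vxm_diff _ h3).differentiableAt (isOpen_ball.mem_nhds h3)
    have hd2 : DifferentiableAt ℂ (fun z => vxm z ^ 6) z := hd1.pow 6
    have hd3 : DifferentiableAt ℂ H1 (vxm z ^ 6) :=
      (hH1d _ h2).differentiableAt (isOpen_ball.mem_nhds h2)
    have hd4 : DifferentiableAt ℂ (fun z => H1 (vxm z ^ 6)) z := hd3.comp z hd2
    have hd5 : DifferentiableAt ℂ (fun z => (H1 (vxm z ^ 6)) ^ (((3 : ℕ) : ℂ)⁻¹)) z :=
      hd4.cpow_const (Or.inl h1)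
    have hd6 : DifferentiableAt ℂ (fun z : ℂ => (1 - rv * z) ^ 2) z := by fun_prop
    exact (hd5.div hd6 (pow_ne_zero 2 (vx_den (mem_ball_zero_iff.1 h3)))).differentiableWithinAt
  have hd := vx_deriv2 hδ hBd (bt : ℂ)
  refine ⟨δ, hδ, fun z => bt - (z - rv) ^ 2 * B z, ?_, ?_, hd.1, ?_⟩
  · intro z hz
    have h1 : DifferentiableAt ℂ B z := (hBd z hz).differentiableAt (isOpen_ball.mem_nhds hz)
    have h2 : DifferentiableAt ℂ (fun z : ℂ => (z - rv) ^ 2) z := by fun_prop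
    exact ((differentiableAt_const _).sub (h2.mul h1)).differentiableWithinAt
  · rintro z ⟨hz, hzT⟩
    obtain ⟨⟨h1, h2⟩, h3⟩ := hball z hz
    have hz1 : ‖z‖ < 1 := mem_ball_zero_iff.1 h3
    have hsec := vx_sector hzT
    have hs1 := vxm_norm hz1
    have hroot := vxr_of_sector hsec
    have hre := vx_re6_nonneg hsec
    have hn : ‖vxm z ^ 6‖ < rv ^ 6 := mem_ball_zero_iff.1 h2
    have hH := hG1H _ hn hre
    unfold vxH at hH
    rw [hroot, vxm_vxm hz1, ← hH1m] at hH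
    have hden := vx_den hz1
    have e : (z - rv) ^ 2 * B z = vxm z ^ 2 * (H1 (vxm z ^ 6)) ^ (((3 : ℕ) : ℂ)⁻¹) := by
      rw [hB]
      unfold vxm
      simp only
      field_simp
      ring
    simp only
    rw [e]
    have hcube : ((bt : ℂ) - F0 z) ^ 3 =
        (vxm z ^ 2 * (H1 (vxm z ^ 6)) ^ (((3 : ℕ) : ℂ)⁻¹)) ^ 3 := by
      rw [mul_pow, Complex.cpow_nat_inv_pow _ (by norm_num), ← hH]
      ring
    by_cases hs0 : vxm z = 0
    · rw [hs0] at hcube ⊢
      have : ((bt : ℂ) - F0 z) ^ 3 = 0 := by rw [hcube]; simp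
      have h4 := pow_eq_zero_iff (three_ne_zero) |>.1 this
      simp only [ne_eq, OfNat.ofNat_ne_zero, not_false_eq_true, zero_pow, zero_mul, sub_zero]
      linear_combination h4
    · obtain ⟨hc1, hc2⟩ := vx_cone hzT
      have h4 := vx_cube_eq hcube hc1 hc2 (vx_prod_pos hs0 hsec h1)
      rw [← h4]
      ring
  · have h4 := hd.2
    rw [h4]
    have hBv : B rv ≠ 0 := by
      rw [hB]
      simp only
      rw [vxm_rv]
      have h5 : H1 ((0 : ℂ) ^ 6) ≠ 0 := by
        rw [zero_pow (by norm_num)]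
        intro h
        rw [h] at hre0
        simp at hre0
      refine div_ne_zero ?_ (pow_ne_zero 2 (vx_den (mem_ball_zero_iff.1 hrvball)))
      rw [Complex.cpow_ne_zero_iff]
      left
      exact h5
    simpa using hBv

end AG
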