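import Pool.Agent.Bloch.Defs
import Pool.Agent.Bloch.Geom
import Pool.Agent.Bloch.Gamma
import Pool.Agent.Bloch.Zwa
import Pool.Agent.Bloch.Bij
import Pool.Agent.Bloch.Loc
import Pool.Agent.Bloch.Vertx
import Pool.Agent.Bloch.Ext

/-!
Module AGEX: existence of the Ahlfors-Grunsky function.
-/

set_option autoImplicit false

noncomputable section

namespace AG

open Complex Metric Set
open scoped ComplexConjugate
open Filter Topology

theorem agex_zero_mem : (0:ℂ) ∈ Tri := by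
  refine ⟨by simp, fun k => by simp⟩

theorem agex_eq {F G : ℂ → ℂ} (hF : DifferentiableOn ℂ F (ball 0 1)) {ζ : ℂ} (hζ : ζ ∈ Tri) {δ : ℝ}
    (hδ : 0 < δ) (hG : DifferentiableOn ℂ G (ball ζ δ)) (h : ∀ z ∈ ball ζ δ ∩ Tri, G z = F z) :
    F =ᶠ[𝓝 ζ] G := by
  obtain ⟨ε, hε, hε1⟩ := Metric.isOpen_iff.1 (isOpen_ball (x := (0:ℂ)) (ε := 1)) ζ
    (by simpa using hζ.1)
  set ρ := min ε δ with hρ
  have hρ0 : 0 < ρ := lt_min hε hδ
  have hF1 : AnalyticOnNhd ℂ F (ball ζ ρ) :=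
    (hF.mono ((ball_subset_ball (min_le_left _ _)).trans hε1)).analyticOnNhd isOpen_ball
  have hG1 : AnalyticOnNhd ℂ G (ball ζ ρ) :=
    (hG.mono (ball_subset_ball (min_le_right _ _))).analyticOnNhd isOpen_ball
  -- a point of `Tin` in the ball
  have hlim : Tendsto (fun r : ℝ => (r:ℂ) * ζ) (𝓝[<] 1) (𝓝 ζ) := by
    have : Tendsto (fun r : ℝ => (r:ℂ) * ζ) (𝓝 1) (𝓝 (((1:ℝ):ℂ) * ζ)) :=
      Continuous.tendsto (by fun_prop) 1
    rw [ofReal_one, one_mul] at this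
    exact this.mono_left nhdsWithin_le_nhds
  have h1 : ∀ᶠ r : ℝ in 𝓝[<] 1, (r:ℂ) * ζ ∈ ball ζ ρ := hlim (ball_mem_nhds ζ hρ0)
  have h2 : ∀ᶠ r : ℝ in 𝓝[<] 1, 0 ≤ r :=
    nhdsWithin_le_nhds ((eventually_gt_nhds (zero_lt_one' ℝ)).mono fun _ h => h.le)
  have h3 : ∀ᶠ r : ℝ in 𝓝[<] 1, r < 1 := eventually_mem_nhdsWithin
  obtain ⟨r, hr1, hr2, hr3⟩ := (h1.and (h2.and h3)).exists
  have hT : (r:ℂ) * ζ ∈ Tin := tri_star hζ hr2 hr3
  have heq : F =ᶠ[𝓝 ((r:ℂ) * ζ)] G := by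
    filter_upwards [tin_open.mem_nhds hT, isOpen_ball.mem_nhds hr1] with z hz1 hz2
    exact (h z ⟨ball_subset_ball (min_le_right _ _) hz2, tin_sub hz1⟩).symm
  have hall := hF1.eqOn_of_preconnected_of_eventuallyEq hG1 (convex_ball ζ ρ).isPreconnected hr1 heq
  filter_upwards [ball_mem_nhds ζ hρ0] with z hz
  exact hall hz

theorem agex_om_ne (k : ℕ) : om ^ k ≠ 0 := by
  intro h
  have h1 : ‖om ^ k‖ = 1 := by rw [norm_pow, om_norm, one_pow]
  rw [h] at h1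
  simp at h1

theorem agex_loc {ζ : ℂ} (hζ : ζ ∈ Tri) : ∃ δ > 0, ∃ G : ℂ → ℂ, DifferentiableOn ℂ G (ball ζ δ) ∧
      (∀ z ∈ ball ζ δ ∩ Tri, G z = F0 z) := by
  by_cases hv : ∀ k : ℕ, ζ ≠ rv * om^k
  · obtain ⟨δ, hδ, G, h1, h2, -⟩ := loc_ext hζ hv
    exact ⟨δ, hδ, G, h1, h2⟩
  · push Not at hv
    obtain ⟨k, rfl⟩ := hv
    obtain ⟨δ, hδ, G, h1, h2, -⟩ := vert_ext
    have hinv : om ^ (2 * k) * om ^ k = 1 := by
      rw [← pow_add, show 2 * k + k = 3 * k by ring, pow_mul, om_cube, one_pow]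
    have hn : ‖om ^ (2 * k)‖ = 1 := by rw [norm_pow, om_norm, one_pow]
    have hmem : ∀ z ∈ ball ((rv:ℂ) * om ^ k) δ, om ^ (2 * k) * z ∈ ball (rv:ℂ) δ := by
      intro z hz
      rw [mem_ball, dist_eq] at hz ⊢
      have e : om ^ (2 * k) * z - rv = om ^ (2 * k) * (z - rv * om ^ k) := by
        linear_combination (rv:ℂ) * hinv
      rw [e, norm_mul, hn, one_mul]
      exact hz
    have htri : ∀ (j : ℕ) (z : ℂ), z ∈ Tri → om ^ j * z ∈ Tri ∧ F0 (om ^ j * z) = om ^ j * F0 z := by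
      intro j
      induction j with
      | zero => intro z hz; simpa using hz
      | succ j ih =>
        intro z hz
        obtain ⟨i1, i2⟩ := ih z hz
        rw [pow_succ', mul_assoc]
        refine ⟨tri_om i1, ?_⟩
        rw [F0_om i1, i2, mul_assoc]
    refine ⟨δ, hδ, fun z => om ^ k * G (om ^ (2 * k) * z), ?_, ?_⟩
    · refine DifferentiableOn.const_mul (h1.comp (by fun_prop) hmem) _
    · rintro z ⟨hz1, hz2⟩
      obtain ⟨i1, i2⟩ := htri (2 * k) z hz2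
      simp only
      rw [h2 _ ⟨hmem z hz1, i1⟩, i2, ← mul_assoc, mul_comm (om ^ k), hinv, one_mul]

theorem agex_side {z : ℂ} (hz : z ∈ Tri) (hs : s0 z = z) : F0 z = -bt - conj (F0 z) := by
  have hne : (aa:ℂ) + conj z ≠ 0 := by
    intro h0
    have h1 : ‖(aa:ℂ)‖ = ‖z‖ := by
      have h2 : (aa:ℂ) = - conj z := eq_neg_of_add_eq_zero_left h0
      rw [h2, norm_neg, Complex.norm_conj]
    rw [Complex.norm_real, Real.norm_eq_abs] at h1
    have h2 := hz.1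
    have h3 := aa_gt
    have h4 := le_abs_self aa
    linarith
  unfold s0 at hs
  rw [div_eq_iff hne] at hs
  have h1 : ‖z‖ ^ 2 + 2 * aa * (z * om ^ 0).re + 1 = 0 := by
    have h2 : z * conj z = ((‖z‖ ^ 2 : ℝ) : ℂ) := by
      rw [Complex.mul_conj, Complex.normSq_eq_norm_sq]
    have h3 : z + conj z = ((2 * z.re : ℝ) : ℂ) := Complex.add_conj z
    have h4 : ((‖z‖ ^ 2 + 2 * aa * z.re + 1 : ℝ) : ℂ) = 0 := by
      push_cast at h2 h3 ⊢
      linear_combination (-1 : ℂ) * hs - h2 - (aa : ℂ) * h3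
    rw [pow_zero, mul_one]
    exact_mod_cast h4
  have h2 := F0_side hz h1
  rw [pow_zero, mul_one] at h2
  have h3 : F0 z + conj (F0 z) = ((2 * (F0 z).re : ℝ) : ℂ) := Complex.add_conj _
  rw [h2] at h3
  push_cast at h3
  linear_combination h3

theorem agex_zz0 : zz 0 = 0 := by simp [zz]

theorem agex_ww0 : ww 0 = 0 := by simp [ww]

theorem exists_AG : ∃ F : ℂ → ℂ, AGF F := by
  obtain ⟨F, hd, hF0, hcj, hrt, hrf⟩ := ext_refl F0 (fun ζ hζ => agex_loc hζ)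
    (fun z hz hs => agex_side hz hs) (fun z hz => F0_conj hz) (fun z hz => F0_om hz)
  have hrvm : (rv:ℂ) ∈ Tri := by simpa using rv_mem 0
  have hzero : F 0 = 0 := by
    rw [hF0 0 agex_zero_mem]
    have h1 := F0_zz (x := 0) (by simp)
    rwa [agex_zz0, agex_ww0] at h1
  have hSD : (0:ℂ) ^ 3 ∈ SD := by simp [SD]
  refine ⟨F, hd, hzero, ?_, hcj, hrt, hrf, ?_, ?_, ?_, ?_, ?_, ?_⟩
  · -- derivative at the centre
    have hz := zz_deriv (x := 0) hSD (by
      rw [zero_pow (by norm_num), f1_zero]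
      exact one_ne_zero)
    have hw := ww_deriv (x := 0) hSD
    rw [zero_pow (by norm_num), f1_zero, sub_zero, one_cpow, mul_one, one_pow, div_one] at hz
    rw [zero_pow (by norm_num), sub_zero, one_cpow, mul_one] at hw
    have hFd : HasDerivAt F (deriv F 0) (zz 0) := by
      rw [agex_zz0]
      exact (hd.differentiableAt (ball_mem_nhds 0 one_pos)).hasDerivAt
    have hcomp := hFd.comp (0:ℂ) hz
    have heq : (F ∘ zz) =ᶠ[𝓝 0] ww := by
      filter_upwards [ball_mem_nhds (0:ℂ) one_pos] with x hx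
      have hx1 : ‖x‖ ≤ 1 := by
        rw [mem_ball_zero_iff] at hx
        exact hx.le
      have h1 : zz x ∈ Tri := by
        rw [← zz_img]
        exact ⟨x, by simpa using hx1, rfl⟩
      rw [Function.comp_apply, hF0 _ h1, F0_zz hx1]
    have h2 := (hcomp.congr_of_eventuallyEq heq.symm).unique hw
    have h3 : (cc:ℂ) ≠ 0 := by exact_mod_cast cc_pos.ne'
    exact mul_right_cancel₀ h3 (by rw [h2, one_mul])
  · intro z hz w hw h
    rw [hF0 z hz, hF0 w hw] at h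
    exact F0_inj hz hw h
  · rw [← F0_img]
    exact Set.image_congr fun z hz => hF0 z hz
  · rw [hF0 _ hrvm]
    have h1 := F0_zz (x := 1) (by simp)
    rwa [zz_one, ww_one] at h1
  · intro z hz hv
    obtain ⟨δ, hδ, G, h1, h2, h3⟩ := loc_ext hz hv
    have h4 := agex_eq hd hz hδ h1 fun w hw => by rw [h2 w hw, hF0 w hw.2]
    rw [h4.deriv_eq]
    exact h3
  · obtain ⟨δ, hδ, G, h1, h2, h3, -⟩ := vert_ext
    have h4 := agex_eq hd hrvm hδ h1 fun w hw => by rw [h2 w hw, hF0 w hw.2]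
    rw [h4.deriv_eq]
    exact h3
  · obtain ⟨δ, hδ, G, h1, h2, -, h3⟩ := vert_ext
    have h4 := agex_eq hd hrvm hδ h1 fun w hw => by rw [h2 w hw, hF0 w hw.2]
    rw [h4.deriv.deriv_eq]
    exact h3

end AG
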