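import Pool.Agent.Bloch.Geom
import Pool.Agent.Bloch.Gamma
import Pool.Agent.Bloch.Zwa

set_option autoImplicit false

noncomputable section

namespace AG

open Complex Metric Set
open scoped ComplexConjugate

/-- `exp (i α)` is in the slit domain for `0 < α < 2 π` -/
theorem arcw_SD {α : ℝ} (h0 : 0 < α) (h1 : α < 2 * Real.pi) : exp (I * α) ∈ SD := by
  right
  rw [mul_comm, exp_mul_I, ← ofReal_cos, ← ofReal_sin]
  simp only [add_re, ofReal_re, mul_re, I_re, I_im, ofReal_im, mul_zero, mul_one, sub_self,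
    add_zero]
  rcases (Real.cos_le_one α).lt_or_eq with h | h
  · exact h
  · exfalso
    rw [Real.cos_eq_one_iff] at h
    obtain ⟨n, hn⟩ := h
    have hp := Real.pi_pos
    have hn0 : (0 : ℝ) < n := by
      by_contra hcon
      push Not at hcon
      nlinarith
    have hn1 : (n : ℝ) < 1 := by
      by_contra hcon
      push Not at hcon
      nlinarith
    have a1 : (0 : ℤ) < n := by exact_mod_cast hn0
    have a2 : n < (1 : ℤ) := by exact_mod_cast hn1
    omega

theorem arcw_cube (θ : ℝ) : exp (I * θ) ^ 3 = exp (I * (3 * θ : ℝ)) := by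
  rw [← exp_nat_mul]
  congr 1
  push_cast
  ring

/-- polar form of `1 - exp (i α)` -/
theorem arcw_polar (α : ℝ) : 1 - exp (I * α) =
    ((2 * Real.sin (α / 2) : ℝ) : ℂ) * exp (((α / 2 - Real.pi / 2 : ℝ) : ℂ) * I) := by
  have h1 : exp (I * α) = exp (((α / 2 : ℝ) : ℂ) * I) ^ 2 := by
    rw [← exp_nat_mul]
    congr 1
    push_cast
    ring
  have h2 : exp (((α / 2 - Real.pi / 2 : ℝ) : ℂ) * I) = -I * exp (((α / 2 : ℝ) : ℂ) * I) := by
    have : (((α / 2 - Real.pi / 2 : ℝ) : ℂ)) * I = -(Real.pi / 2 * I) + ((α / 2 : ℝ) : ℂ) * I := by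
      push_cast
      ring
    rw [this, exp_add, exp_neg, exp_pi_div_two_mul_I]
    simp
  rw [h1, h2, exp_mul_I, ← ofReal_cos, ← ofReal_sin]
  have h3 : ((Real.sin (α / 2) : ℝ) : ℂ) ^ 2 + ((Real.cos (α / 2) : ℝ) : ℂ) ^ 2 = 1 := by
    exact_mod_cast Real.sin_sq_add_cos_sq (α / 2)
  push_cast at h3 ⊢
  linear_combination (-1) * h3 + (2 * sin (α / 2) ^ 2 - sin (α / 2) ^ 2) * I_sq

/-- powers of a complex number in polar form -/
theorem arcw_cpow {r φ : ℝ} (hr : 0 < r) (h1 : -Real.pi < φ) (h2 : φ ≤ Real.pi) (c : ℝ) :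
    ((r : ℂ) * exp ((φ : ℂ) * I)) ^ (c : ℂ)
      = (Real.exp (c * Real.log r) : ℂ) * exp (((c * φ : ℝ) : ℂ) * I) := by
  have hr' : (r : ℂ) ≠ 0 := by exact_mod_cast hr.ne'
  rw [cpow_def_of_ne_zero (mul_ne_zero hr' (exp_ne_zero _)), log_ofReal_mul hr (exp_ne_zero _),
    log_exp (by simpa using h1) (by simpa using h2), ofReal_exp, ← exp_add]
  congr 1
  push_cast
  ring

theorem arcw_hasDerivC {θ : ℝ} (h0 : 0 < θ) (h1 : θ < 2 * Real.pi / 3) :
    HasDerivAt (fun θ : ℝ => ww (exp (I * θ)) * om)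
      (((cc * Real.exp (-(2/3) * Real.log (2 * Real.sin (3 * θ / 2))) : ℝ) : ℂ) * (-I)) θ := by
  have hx : exp (I * θ) ^ 3 ∈ SD := by
    rw [arcw_cube]
    exact arcw_SD (by linarith) (by linarith)
  have hd := ww_deriv hx
  have he : HasDerivAt (fun θ : ℝ => exp (I * (θ : ℂ))) (exp (I * θ) * (I * 1)) θ :=
    (((hasDerivAt_id (θ : ℂ)).const_mul I).cexp).comp_ofReal
  have h2 : HasDerivAt (fun θ : ℝ => ww (exp (I * (θ : ℂ))))
      (cc * (1 - exp (I * θ) ^ 3) ^ (-(2/3 : ℝ) : ℂ) * (exp (I * θ) * (I * 1))) θ :=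
    HasDerivAt.comp (h₂ := ww) (h := fun θ : ℝ => exp (I * (θ : ℂ))) θ hd he
  have hs : 0 < Real.sin (3 * θ / 2) := by
    apply Real.sin_pos_of_pos_of_lt_pi <;> linarith [Real.pi_pos]
  have h4 : (1 - exp (I * θ) ^ 3) ^ (-(2/3 : ℝ) : ℂ) =
      (Real.exp (-(2/3) * Real.log (2 * Real.sin (3 * θ / 2))) : ℂ) *
        exp (((-(2/3) * (3 * θ / 2 - Real.pi / 2) : ℝ) : ℂ) * I) := by
    rw [arcw_cube, arcw_polar]
    have := arcw_cpow (r := 2 * Real.sin (3 * θ / 2)) (φ := 3 * θ / 2 - Real.pi / 2)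
      (by positivity) (by linarith [Real.pi_pos]) (by linarith [Real.pi_pos]) (-(2/3))
    rw [← this]
    congr 1
    push_cast
    ring
  have h5 : (cc : ℂ) * (1 - exp (I * θ) ^ 3) ^ (-(2/3 : ℝ) : ℂ) * (exp (I * θ) * (I * 1)) * om =
      ((cc * Real.exp (-(2/3) * Real.log (2 * Real.sin (3 * θ / 2))) : ℝ) : ℂ) * (-I) := by
    rw [h4, om_exp]
    have : exp (((-(2/3) * (3 * θ / 2 - Real.pi / 2) : ℝ) : ℂ) * I) * exp (I * θ) *
        exp (2 * Real.pi * I / 3) = -1 := by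
      rw [← exp_add, ← exp_add, ← exp_pi_mul_I]
      congr 1
      push_cast
      ring
    push_cast at this ⊢
    linear_combination (cc : ℂ) * exp (-(2/3) * (Real.log (2 * Real.sin (3 * θ / 2)) : ℂ)) * I
      * this
  rw [← h5]
  exact h2.mul_const om

theorem arcw_hasDeriv {θ : ℝ} (h0 : 0 < θ) (h1 : θ < 2 * Real.pi / 3) :
    HasDerivAt (fun θ : ℝ => (ww (exp (I * θ)) * om).re) 0 θ := by
  have h3 := (Complex.reCLM.hasFDerivAt (x := ww (exp (I * θ)) * om)).comp_hasDerivAt θ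
    (arcw_hasDerivC h0 h1)
  have h6 : reCLM (((cc * Real.exp (-(2/3) * Real.log (2 * Real.sin (3 * θ / 2))) : ℝ) : ℂ)
      * (-I)) = 0 := by
    rw [reCLM_apply, re_ofReal_mul]
    simp
  rw [h6] at h3
  exact h3

theorem arcw_hasDerivIm {θ : ℝ} (h0 : 0 < θ) (h1 : θ < 2 * Real.pi / 3) :
    HasDerivAt (fun θ : ℝ => (ww (exp (I * θ)) * om).im)
      (-(cc * Real.exp (-(2/3) * Real.log (2 * Real.sin (3 * θ / 2))))) θ := by
  have h3 := (Complex.imCLM.hasFDerivAt (x := ww (exp (I * θ)) * om)).comp_hasDerivAt θ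
    (arcw_hasDerivC h0 h1)
  have h6 : imCLM (((cc * Real.exp (-(2/3) * Real.log (2 * Real.sin (3 * θ / 2))) : ℝ) : ℂ)
      * (-I)) = -(cc * Real.exp (-(2/3) * Real.log (2 * Real.sin (3 * θ / 2)))) := by
    rw [imCLM_apply, im_ofReal_mul]
    simp
  rw [h6] at h3
  exact h3

theorem arcw_cont : Continuous (fun θ : ℝ => ww (exp (I * θ)) * om) := by
  refine Continuous.mul (ww_cont.comp_continuous ?_ ?_) continuous_const
  · exact Complex.continuous_exp.comp (continuous_const.mul Complex.continuous_ofReal)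
  · intro x
    rw [mem_closedBall, dist_zero_right, mul_comm, norm_exp_ofReal_mul_I]

/-- the imaginary part stays between the values at the end points -/
theorem arcw_im {θ : ℝ} (h0 : 0 ≤ θ) (h1 : θ ≤ 2 * Real.pi / 3) :
    |(ww (exp (I * θ)) * om).im| ≤ Real.sqrt 3 / 2 * bt := by
  have hm : AntitoneOn (fun θ : ℝ => (ww (exp (I * θ)) * om).im) (Icc 0 (2 * Real.pi / 3)) := by
    apply antitoneOn_of_deriv_nonpos (convex_Icc _ _)
      (Complex.continuous_im.comp arcw_cont).continuousOn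
    · rw [interior_Icc]
      intro x hx
      exact (arcw_hasDerivIm hx.1 hx.2).differentiableAt.differentiableWithinAt
    · rw [interior_Icc]
      intro x hx
      show deriv (fun θ : ℝ => (ww (exp (I * θ)) * om).im) x ≤ 0
      rw [(arcw_hasDerivIm hx.1 hx.2).deriv]
      have := cc_pos
      have : 0 < cc * Real.exp (-(2/3) * Real.log (2 * Real.sin (3 * x / 2))) := by positivity
      linarith
  have hp : (0 : ℝ) ≤ 2 * Real.pi / 3 := by positivity
  have ho2 : om.im = Real.sqrt 3 / 2 := rfl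
  have e0 : (ww (exp (I * (0 : ℝ))) * om).im = Real.sqrt 3 / 2 * bt := by
    rw [ofReal_zero, mul_zero, exp_zero, ww_one, im_ofReal_mul, ho2]
    ring
  have e1 : (ww (exp (I * ((2 * Real.pi / 3 : ℝ) : ℂ))) * om).im = -(Real.sqrt 3 / 2 * bt) := by
    have : exp (I * ((2 * Real.pi / 3 : ℝ) : ℂ)) = om * 1 := by
      rw [om_exp, mul_one]
      congr 1
      push_cast
      ring
    have e3 : om * (bt : ℂ) * om = bt * om ^ 2 := by ring
    rw [this, ww_om, ww_one, e3, im_ofReal_mul, ← om_conj, conj_im, ho2]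
    ring
  have a1 := hm (left_mem_Icc.mpr hp) ⟨h0, h1⟩ h0
  have a2 := hm ⟨h0, h1⟩ (right_mem_Icc.mpr hp) h1
  simp only [e0, e1] at a1 a2
  rw [abs_le]
  exact ⟨a2, a1⟩

theorem arcw {θ : ℝ} (h0 : 0 ≤ θ) (h1 : θ ≤ 2 * Real.pi / 3) :
    (ww (exp (I * θ)) * om).re = -(bt/2) := by
  have hz : (ww (exp (I * (0 : ℝ))) * om).re = -(bt/2) := by
    rw [ofReal_zero, mul_zero, exp_zero, ww_one, re_ofReal_mul]
    simp [om]
    ring
  rcases h0.eq_or_lt with rfl | h0
  · exact hz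
  · have hc : ContinuousOn (fun θ : ℝ => (ww (exp (I * θ)) * om).re) (Icc 0 θ) := by
      apply Complex.continuous_re.comp_continuousOn
      refine ContinuousOn.mul (ww_cont.comp ?_ ?_) continuousOn_const
      · exact (Complex.continuous_exp.comp (continuous_const.mul
          Complex.continuous_ofReal)).continuousOn
      · intro x _
        show exp (I * x) ∈ closedBall (0 : ℂ) 1
        rw [mem_closedBall, dist_zero_right, mul_comm, norm_exp_ofReal_mul_I]
    obtain ⟨c, _, hc2⟩ := exists_hasDerivAt_eq_slope _ (fun _ => 0) h0 hc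
      fun x hx => arcw_hasDeriv hx.1 (hx.2.trans_le h1)
    rw [eq_comm, div_eq_zero_iff] at hc2
    rcases hc2 with h | h
    · rw [sub_eq_zero] at h
      rw [h, hz]
    · linarith

end AG
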