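import Pool.Agent.Bloch.Defs

/-!
Module IMEQ: the connection identity by rotating the path of integration.
-/

set_option autoImplicit false

noncomputable section

namespace AG

open Complex Metric Set MeasureTheory Filter Topology
open scoped ComplexConjugate

/-- the exponent `-5/12` -/
def imeqc : ℂ := ((-(5/12) : ℝ) : ℂ)

/-- holomorphic part of the integrand -/
def imeqQ (α : ℝ) (w : ℂ) : ℂ := (1 - w)^imeqc * (1 - w * exp (I*α))^imeqc

/-- domain of `imeqQ` -/
def imeqD (α : ℝ) : Set ℂ := {w | 1 - w ∈ slitPlane ∧ 1 - w * exp (I*α) ∈ slitPlane}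

theorem imeqD_open (α : ℝ) : IsOpen (imeqD α) := by
  apply IsOpen.inter
  · exact isOpen_slitPlane.preimage (by fun_prop)
  · exact isOpen_slitPlane.preimage (by fun_prop)

theorem imeqQ_diff (α : ℝ) : DifferentiableOn ℂ (imeqQ α) (imeqD α) := by
  intro w hw
  apply DifferentiableAt.differentiableWithinAt
  unfold imeqQ
  have h1 := hw.1
  have h2 := hw.2
  have e1 : DifferentiableAt ℂ (fun w : ℂ => 1 - w) w := by fun_prop
  have e2 : DifferentiableAt ℂ (fun w : ℂ => 1 - w * exp (I*α)) w := by fun_prop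
  exact (e1.cpow_const h1).mul (e2.cpow_const h2)

theorem imeqQ_contD (α : ℝ) : ContinuousOn (imeqQ α) (imeqD α) :=
  (imeqQ_diff α).continuousOn

theorem imeqQ'_contD (α : ℝ) : ContinuousOn (deriv (imeqQ α)) (imeqD α) :=
  ((imeqQ_diff α).deriv (imeqD_open α)).continuousOn

theorem imeq_re (t θ : ℝ) : (1 - t * exp (I * θ)).re = 1 - t * Real.cos θ := by
  have : exp (I * θ) = Complex.cos θ + Complex.sin θ * I := by
    rw [mul_comm, Complex.exp_mul_I]
  rw [this, ← Complex.ofReal_cos, ← Complex.ofReal_sin]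
  simp only [Complex.sub_re, Complex.one_re, Complex.add_re,
    Complex.ofReal_re, Complex.mul_re, Complex.ofReal_im, Complex.I_re, Complex.I_im]
  ring

theorem imeq_mem_lt {t θ : ℝ} (h0 : 0 ≤ t) (h1 : t < 1) : 1 - t * exp (I * θ) ∈ slitPlane := by
  left
  rw [imeq_re]
  have := Real.cos_le_one θ
  nlinarith

theorem imeq_cos_lt {θ : ℝ} (h0 : 0 < θ) (h1 : θ < 2 * Real.pi) : Real.cos θ < 1 := by
  have h2 : 0 < Real.sin (θ/2) := Real.sin_pos_of_pos_of_lt_pi (by linarith) (by linarith)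
  have h3 : Real.cos θ = 1 - 2 * Real.sin (θ/2)^2 := by
    have := Real.cos_two_mul (θ/2)
    have h4 := Real.sin_sq_add_cos_sq (θ/2)
    rw [show 2 * (θ/2) = θ by ring] at this
    rw [this]
    linarith
  rw [h3]
  have : 0 < Real.sin (θ/2)^2 := by positivity
  linarith

theorem imeq_mem_le {t θ : ℝ} (h0 : 0 ≤ t) (h1 : t ≤ 1) (hθ : Real.cos θ < 1) :
    1 - t * exp (I * θ) ∈ slitPlane := by
  left
  rw [imeq_re]
  rcases h0.eq_or_lt with rfl | h
  · simp
  · nlinarith

theorem imeq_rot (α x t : ℝ) : (t * exp (-(I * x))) * exp (I * α) = t * exp (I * ((α - x : ℝ) : ℂ)) := by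
  rw [mul_assoc, ← Complex.exp_add]
  congr 2
  push_cast
  ring

theorem imeq_neg (x : ℝ) : exp (-(I * x)) = exp (I * ((-x : ℝ) : ℂ)) := by
  congr 1
  push_cast
  ring

theorem imeq_memD_lt (α x : ℝ) {t : ℝ} (h0 : 0 ≤ t) (h1 : t < 1) :
    (t * exp (-(I * x)) : ℂ) ∈ imeqD α := by
  constructor
  · rw [imeq_neg]
    exact imeq_mem_lt h0 h1
  · rw [imeq_rot]
    exact imeq_mem_lt h0 h1

theorem imeq_memD {α x t : ℝ} (h0 : 0 ≤ t) (h1 : t ≤ 1) (hx : 0 < x) (hxa : x < α)
    (hα : α < 2 * Real.pi) : (t * exp (-(I * x)) : ℂ) ∈ imeqD α := by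
  constructor
  · rw [imeq_neg]
    exact imeq_mem_le h0 h1 (by rw [Real.cos_neg]; exact imeq_cos_lt hx (by linarith))
  · rw [imeq_rot]
    exact imeq_mem_le h0 h1 (imeq_cos_lt (by linarith) (by linarith))

/-- rotated integrand without the power of `t` -/
def imeqP (b α x t : ℝ) : ℂ := exp (-(I * b * x)) * imeqQ α (t * exp (-(I * x)))

/-- its derivative in `x` times `t^(1-b)` -/
def imeqP' (b α x t : ℝ) : ℂ := -I * exp (-(I * b * x)) *
  (b * imeqQ α (t * exp (-(I * x))) + t * exp (-(I * x)) * deriv (imeqQ α) (t * exp (-(I * x))))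

def imeqI (b α x : ℝ) : ℂ := ∫ t in (0:ℝ)..1, ((t^(b-1) : ℝ) : ℂ) * imeqP b α x t

theorem imeq_expder (b x : ℝ) : HasDerivAt (fun x : ℝ => exp (-(I * b * x))) (-(I * b) * exp (-(I * b * x))) x := by
  have h1 : HasDerivAt (fun x : ℝ => -(I * b * (x:ℂ))) (-(I * b)) x := by
    have h2 := (Complex.ofRealCLM.hasDerivAt (x := x)).const_mul (-(I * b))
    simp only [Complex.ofRealCLM_apply, Complex.ofReal_one, mul_one] at h2
    refine h2.congr_of_eventuallyEq (Eventually.of_forall fun y => ?_)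
    simp only
    ring
  exact h1.cexp.congr_deriv (by ring)

theorem imeqP_derx {b α x t : ℝ} (h : (t * exp (-(I * x)) : ℂ) ∈ imeqD α) :
    HasDerivAt (fun x => imeqP b α x t) (imeqP' b α x t) x := by
  unfold imeqP imeqP'
  have hQ : HasDerivAt (imeqQ α) (deriv (imeqQ α) (t * exp (-(I * x)))) (t * exp (-(I * x))) :=
    ((imeqQ_diff α).differentiableAt ((imeqD_open α).mem_nhds h)).hasDerivAt
  have h1 : HasDerivAt (fun x : ℝ => (t * exp (-(I * x)) : ℂ)) (t * (-I * exp (-(I * x)))) x := by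
    have := (imeq_expder 1 x).const_mul (t:ℂ)
    simpa using this
  have h2 := hQ.comp x h1
  have h3 := (imeq_expder b x).mul h2
  refine h3.congr_deriv ?_
  simp only [Function.comp_apply]
  ring

theorem imeqP_dert {b α x t : ℝ} (h : (t * exp (-(I * x)) : ℂ) ∈ imeqD α) :
    HasDerivAt (fun t => imeqP b α x t)
      (exp (-(I * b * x)) * (exp (-(I * x)) * deriv (imeqQ α) (t * exp (-(I * x))))) t := by
  unfold imeqP
  have hQ : HasDerivAt (imeqQ α) (deriv (imeqQ α) (t * exp (-(I * x)))) (t * exp (-(I * x))) :=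
    ((imeqQ_diff α).differentiableAt ((imeqD_open α).mem_nhds h)).hasDerivAt
  have h1 : HasDerivAt (fun t : ℝ => (t * exp (-(I * x)) : ℂ)) (exp (-(I * x))) t := by
    have h2 := (Complex.ofRealCLM.hasDerivAt (x := t)).mul_const (exp (-(I * x)))
    simpa using h2
  have h2 := (hQ.comp t h1).const_mul (exp (-(I * b * x)))
  refine h2.congr_deriv ?_
  ring

theorem imeq_norm_exp (x : ℝ) : ‖exp (-(I * x))‖ = 1 := by
  rw [Complex.norm_exp]
  simp

theorem imeq_norm_exp' (b x : ℝ) : ‖exp (-(I * b * x))‖ = 1 := by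
  have : exp (-(I * b * x)) = exp (-(I * ((b * x : ℝ) : ℂ))) := by
    congr 1
    push_cast
    ring
  rw [this, imeq_norm_exp]

theorem imeq_low (t θ : ℝ) (h0 : 0 ≤ t) : 1 - t ≤ ‖1 - t * exp (I * θ)‖ := by
  have h := norm_sub_norm_le (1:ℂ) (t * exp (I * θ))
  have h2 : ‖(t:ℂ) * exp (I * θ)‖ = t := by
    rw [norm_mul, mul_comm I (θ:ℂ), Complex.norm_exp_ofReal_mul_I, mul_one, Complex.norm_real,
      Real.norm_of_nonneg h0]
  rw [h2, norm_one] at h
  exact h

theorem imeqP_bound (b α x : ℝ) {t : ℝ} (h0 : 0 ≤ t) (h1 : t < 1) :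
    ‖imeqP b α x t‖ ≤ (1 - t)^(-(5/6) : ℝ) := by
  unfold imeqP imeqQ
  rw [norm_mul, norm_mul, imeq_norm_exp', one_mul, imeq_rot, imeq_neg]
  unfold imeqc
  rw [Complex.norm_cpow_real, Complex.norm_cpow_real]
  have h2 : 0 < 1 - t := by linarith
  have e1 : ‖1 - t * exp (I * ((-x : ℝ) : ℂ))‖ ^ (-(5/12) : ℝ) ≤ (1 - t)^(-(5/12) : ℝ) :=
    Real.rpow_le_rpow_of_nonpos h2 (imeq_low t _ h0) (by norm_num)
  have e2 : ‖1 - t * exp (I * ((α - x : ℝ) : ℂ))‖ ^ (-(5/12) : ℝ) ≤ (1 - t)^(-(5/12) : ℝ) :=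
    Real.rpow_le_rpow_of_nonpos h2 (imeq_low t _ h0) (by norm_num)
  calc _ ≤ (1 - t)^(-(5/12) : ℝ) * (1 - t)^(-(5/12) : ℝ) :=
        mul_le_mul e1 e2 (by positivity) (by positivity)
    _ = (1 - t)^(-(5/6) : ℝ) := by
        rw [← Real.rpow_add h2]
        norm_num

theorem imeq_beta (b : ℝ) (hb : 0 < b) :
    IntervalIntegrable (fun t : ℝ => t^(b-1) * (1 - t)^(-(5/6) : ℝ)) volume 0 1 := by
  have h := Complex.betaIntegral_convergent (u := (b:ℂ)) (v := ((1/6 : ℝ) : ℂ)) (by simpa using hb)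
    (by rw [Complex.ofReal_re]; norm_num)
  have h2 := h.norm
  apply h2.congr
  intro t ht
  rw [uIoc_of_le zero_le_one] at ht
  have ht0 : 0 < t := ht.1
  have ht1 : 0 ≤ 1 - t := by linarith [ht.2]
  simp only
  rw [norm_mul]
  have e1 : ((t:ℂ) ^ ((b:ℂ) - 1)) = ((t^(b-1) : ℝ) : ℂ) := by
    rw [Complex.ofReal_cpow ht0.le]
    push_cast
    ring_nf
  have e2 : ((1 - (t:ℂ)) ^ (((1/6 : ℝ) : ℂ) - 1)) = (((1-t)^(-(5/6) : ℝ) : ℝ) : ℂ) := by
    rw [Complex.ofReal_cpow ht1]
    push_cast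
    norm_num
  rw [e1, e2, Complex.norm_real, Complex.norm_real, Real.norm_of_nonneg (by positivity),
    Real.norm_of_nonneg (by positivity)]

theorem imeqP_meas (b α x : ℝ) : Measurable (fun t : ℝ => ((t^(b-1) : ℝ) : ℂ) * imeqP b α x t) := by
  unfold imeqP imeqQ
  fun_prop

theorem imeq_cont_x (b α t : ℝ) (h0 : 0 ≤ t) (h1 : t < 1) : Continuous (fun x => imeqP b α x t) := by
  rw [continuous_iff_continuousAt]
  intro x
  exact (imeqP_derx (imeq_memD_lt α x h0 h1)).continuousAt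

theorem imeqI_cont (b α : ℝ) (hb : 0 < b) : Continuous (imeqI b α) := by
  unfold imeqI
  apply intervalIntegral.continuous_of_dominated_interval
    (bound := fun t : ℝ => t^(b-1) * (1 - t)^(-(5/6) : ℝ))
  · intro x
    exact (imeqP_meas b α x).aestronglyMeasurable
  · intro x
    have : ∀ᵐ t : ℝ, t ≠ 1 := by
      rw [ae_iff]
      simp
    filter_upwards [this] with t ht1 ht
    rw [uIoc_of_le zero_le_one] at ht
    have h1 : t < 1 := lt_of_le_of_ne ht.2 ht1
    rw [norm_mul, Complex.norm_real, Real.norm_of_nonneg (by have := ht.1; positivity)]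
    exact mul_le_mul_of_nonneg_left (imeqP_bound b α x ht.1.le h1) (by have := ht.1; positivity)
  · exact imeq_beta b hb
  · have : ∀ᵐ t : ℝ, t ≠ 1 := by
      rw [ae_iff]
      simp
    filter_upwards [this] with t ht1 ht
    rw [uIoc_of_le zero_le_one] at ht
    have h1 : t < 1 := lt_of_le_of_ne ht.2 ht1
    exact (imeq_cont_x b α t ht.1.le h1).const_mul _

theorem imeqI_int (b α x : ℝ) (hb : 0 < b) :
    IntervalIntegrable (fun t : ℝ => ((t^(b-1) : ℝ) : ℂ) * imeqP b α x t) volume 0 1 := by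
  refine IntervalIntegrable.mono_fun (imeq_beta b hb) (imeqP_meas b α x).aestronglyMeasurable ?_
  have : ∀ᵐ t : ℝ ∂(volume.restrict (uIoc 0 1)), t ≠ 1 :=
    ae_restrict_of_ae (by rw [ae_iff]; simp)
  filter_upwards [this, ae_restrict_mem measurableSet_uIoc] with t ht1 ht
  rw [uIoc_of_le zero_le_one] at ht
  have h1 : t < 1 := lt_of_le_of_ne ht.2 ht1
  have h2 : 0 < 1 - t := by linarith
  have h3 := ht.1
  rw [norm_mul, Complex.norm_real, Real.norm_of_nonneg (by positivity), Real.norm_of_nonneg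
    (by positivity)]
  exact mul_le_mul_of_nonneg_left (imeqP_bound b α x ht.1.le h1) (by positivity)

theorem imeqP'_cont (b α : ℝ) (hα : α < 2 * Real.pi) :
    ContinuousOn (fun p : ℝ × ℝ => imeqP' b α p.1 p.2) (Ioo 0 α ×ˢ Icc 0 1) := by
  unfold imeqP'
  have hm : MapsTo (fun p : ℝ × ℝ => ((p.2 : ℂ) * exp (-(I * (p.1 : ℂ))) : ℂ)) (Ioo 0 α ×ˢ Icc 0 1)
      (imeqD α) := by
    rintro ⟨x, t⟩ ⟨hx, ht⟩
    exact imeq_memD ht.1 ht.2 hx.1 hx.2 hα
  have hc : ContinuousOn (fun p : ℝ × ℝ => ((p.2 : ℂ) * exp (-(I * (p.1 : ℂ))) : ℂ))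
      (Ioo 0 α ×ˢ Icc 0 1) := by
    apply Continuous.continuousOn
    fun_prop
  have h1 := (imeqQ_contD α).comp hc hm
  have h2 := (imeqQ'_contD α).comp hc hm
  have h3 : ContinuousOn (fun p : ℝ × ℝ => -I * exp (-(I * b * (p.1:ℂ)))) (Ioo 0 α ×ˢ Icc 0 1) := by
    apply Continuous.continuousOn
    fun_prop
  exact h3.mul ((h1.const_mul (b:ℂ) |>.congr fun _ _ => rfl).add (hc.mul h2))

theorem imeqI_der {b α x : ℝ} (hb : 0 < b) (hα : α < 2 * Real.pi) (h0 : 0 < x) (h1 : x < α) :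
    HasDerivAt (imeqI b α) (-I * imeqP b α x 1) x := by
  obtain ⟨x1, hx1, hx1'⟩ := exists_between h0
  obtain ⟨x2, hx2, hx2'⟩ := exists_between h1
  have hK : IsCompact (Icc x1 x2 ×ˢ Icc (0:ℝ) 1) := isCompact_Icc.prod isCompact_Icc
  have hsub : (Icc x1 x2 ×ˢ Icc (0:ℝ) 1) ⊆ (Ioo 0 α ×ˢ Icc (0:ℝ) 1) := by
    rintro ⟨y, t⟩ ⟨hy, ht⟩
    exact ⟨⟨lt_of_lt_of_le hx1 hy.1, lt_of_le_of_lt hy.2 hx2'⟩, ht⟩
  obtain ⟨C, hC⟩ := hK.exists_bound_of_continuousOn ((imeqP'_cont b α hα).mono hsub)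
  have hmain := intervalIntegral.hasDerivAt_integral_of_dominated_loc_of_deriv_le
    (μ := volume) (a := 0) (b := 1) (F := fun x t => ((t^(b-1) : ℝ) : ℂ) * imeqP b α x t)
    (F' := fun x t => ((t^(b-1) : ℝ) : ℂ) * imeqP' b α x t) (x₀ := x) (s := Icc x1 x2)
    (bound := fun t => t^(b-1) * C) (Icc_mem_nhds hx1' hx2)
    (Eventually.of_forall fun y => (imeqP_meas b α y).aestronglyMeasurable)
    (imeqI_int b α x hb)
    (by
      apply ContinuousOn.aestronglyMeasurable _ measurableSet_uIoc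
      rw [uIoc_of_le zero_le_one]
      apply ContinuousOn.mul
      · apply Complex.continuous_ofReal.comp_continuousOn
        intro t ht
        exact (Real.continuousAt_rpow_const t (b-1) (Or.inl ht.1.ne')).continuousWithinAt
      · have := (imeqP'_cont b α hα).comp (f := fun t : ℝ => (x, t)) (s := Ioc (0:ℝ) 1)
          (by fun_prop) (fun t ht => ⟨⟨h0, h1⟩, ⟨ht.1.le, ht.2⟩⟩)
        exact this)
    (by
      refine Eventually.of_forall fun t ht y hy => ?_
      rw [uIoc_of_le zero_le_one] at ht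
      have h3 := ht.1
      rw [norm_mul, Complex.norm_real, Real.norm_of_nonneg (by positivity)]
      exact mul_le_mul_of_nonneg_left (hC (y, t) ⟨hy, ⟨ht.1.le, ht.2⟩⟩) (by positivity))
    ((intervalIntegral.intervalIntegrable_rpow' (by linarith)).mul_const C)
    (by
      refine Eventually.of_forall fun t ht y hy => ?_
      rw [uIoc_of_le zero_le_one] at ht
      exact (imeqP_derx (imeq_memD ht.1.le ht.2 (lt_of_lt_of_le hx1 hy.1)
        (lt_of_le_of_lt hy.2 hx2') hα)).const_mul _)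
  have hval : ∫ t in (0:ℝ)..1, ((t^(b-1) : ℝ) : ℂ) * imeqP' b α x t = -I * imeqP b α x 1 := by
    have hP : ∀ t ∈ Icc (0:ℝ) 1, ContinuousAt (fun t => imeqP b α x t) t := fun t ht =>
      (imeqP_dert (imeq_memD ht.1 ht.2 h0 h1 hα)).continuousAt
    have := intervalIntegral.integral_eq_sub_of_hasDerivAt_of_le (a := 0) (b := 1)
      (f := fun t => -I * (((t^b : ℝ) : ℂ) * imeqP b α x t))
      (f' := fun t => ((t^(b-1) : ℝ) : ℂ) * imeqP' b α x t) zero_le_one
      (by
        intro t ht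
        apply ContinuousAt.continuousWithinAt
        apply ContinuousAt.mul continuousAt_const
        apply ContinuousAt.mul _ (hP t ht)
        exact Complex.continuous_ofReal.continuousAt.comp
          (Real.continuousAt_rpow_const t b (Or.inr hb.le)))
      (by
        intro t ht
        have hp := imeqP_dert (b := b) (imeq_memD ht.1.le ht.2.le h0 h1 hα)
        have ht0 : 0 < t := ht.1
        have hr : HasDerivAt (fun t : ℝ => ((t^b : ℝ) : ℂ)) (((b * t^(b-1) : ℝ)) : ℂ) t :=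
          (Real.hasDerivAt_rpow_const (Or.inl ht0.ne')).ofReal_comp
        have := (hr.mul hp).const_mul (-I)
        refine this.congr_deriv ?_
        unfold imeqP' imeqP
        have e : ((t^b : ℝ) : ℂ) = ((t^(b-1) : ℝ) : ℂ) * t := by
          rw [← Complex.ofReal_mul]
          congr 1
          rw [← Real.rpow_add_one ht0.ne']
          congr 1
          ring
        rw [e]
        push_cast
        ring)
      hmain.1
    rw [this]
    simp [Real.zero_rpow hb.ne']
  rw [hval] at hmain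
  exact hmain.2

/-- polar form -/
theorem imeq_polar (θ : ℝ) : 1 - exp (I * θ) = ((2 * Real.sin (θ/2) : ℝ) : ℂ) *
    exp (I * (((θ - Real.pi)/2 : ℝ) : ℂ)) := by
  have h1 : exp (I * (((θ - Real.pi)/2 : ℝ) : ℂ)) = exp (I * (θ/2)) * (-I) := by
    have : I * (((θ - Real.pi)/2 : ℝ) : ℂ) = I * (θ/2) + (-(Real.pi/2 * I)) := by
      push_cast
      ring
    rw [this, Complex.exp_add, Complex.exp_neg, Complex.exp_pi_div_two_mul_I]
    simp
  have h2 : exp (I * θ) = exp (I * (θ/2)) * exp (I * (θ/2)) := by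
    rw [← Complex.exp_add]
    congr 1
    ring
  have h3 : exp (-(I * (θ/2))) * exp (I * (θ/2)) = 1 := by
    rw [← Complex.exp_add]
    simp
  rw [h1, Complex.ofReal_mul, Complex.ofReal_sin, Complex.sin]
  push_cast
  rw [h2, show -((θ:ℂ)/2) * I = -(I * (θ/2)) by ring, show ((θ:ℂ)/2) * I = I * (θ/2) by ring]
  have hI : I * I = -1 := Complex.I_mul_I
  linear_combination (-1 : ℂ) * h3 + (exp (-(I * (θ/2))) * exp (I * (θ/2)) - exp (I * (θ/2)) * exp (I * (θ/2))) * hI

theorem imeq_cpow {r φ : ℝ} (hr : 0 < r) (h1 : -Real.pi < φ) (h2 : φ ≤ Real.pi) (c : ℝ) :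
    ((r:ℂ) * exp (I * φ))^(c:ℂ) = ((r^c : ℝ) : ℂ) * exp (I * ((c * φ : ℝ) : ℂ)) := by
  have h0 : (r:ℂ) * exp (I * φ) ≠ 0 :=
    mul_ne_zero (by exact_mod_cast hr.ne') (Complex.exp_ne_zero _)
  rw [Complex.cpow_def_of_ne_zero h0, Complex.log_ofReal_mul hr (Complex.exp_ne_zero _),
    Complex.log_exp (by simpa using h1) (by simpa using h2), add_mul, Complex.exp_add]
  congr 1
  · rw [Real.rpow_def_of_pos hr, ← Complex.ofReal_mul, Complex.ofReal_exp]
  · congr 1
    push_cast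
    ring

theorem imeqQ_val {α x : ℝ} (h0 : 0 < x) (h1 : x < α) (hα : α < 2 * Real.pi) :
    ∃ M : ℝ, imeqQ α (exp (-(I * x))) = M * exp (I * ((-(5/12) * (α/2 - x) : ℝ) : ℂ)) := by
  have hpi := Real.pi_pos
  have s1 : 0 < Real.sin (x/2) := Real.sin_pos_of_pos_of_lt_pi (by linarith) (by linarith)
  have s2 : 0 < Real.sin ((α - x)/2) := Real.sin_pos_of_pos_of_lt_pi (by linarith) (by linarith)
  have e1 : 1 - exp (-(I * x)) = ((2 * Real.sin (x/2) : ℝ) : ℂ) *
      exp (I * (((Real.pi - x)/2 : ℝ) : ℂ)) := by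
    have h := congrArg conj (imeq_polar x)
    rw [map_sub, map_one, map_mul, ← Complex.exp_conj, ← Complex.exp_conj, Complex.conj_ofReal,
      map_mul, map_mul, Complex.conj_I, Complex.conj_ofReal, Complex.conj_ofReal] at h
    rw [show -(I * (x:ℂ)) = -I * x by ring, h]
    congr 2
    push_cast
    ring
  have e2 : 1 - exp (-(I * x)) * exp (I * α) = ((2 * Real.sin ((α - x)/2) : ℝ) : ℂ) *
      exp (I * (((α - x - Real.pi)/2 : ℝ) : ℂ)) := by
    have h := imeq_rot α x 1
    rw [Complex.ofReal_one, one_mul, one_mul] at h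
    rw [h]
    exact imeq_polar (α - x)
  refine ⟨(2 * Real.sin (x/2))^(-(5/12) : ℝ) * (2 * Real.sin ((α - x)/2))^(-(5/12) : ℝ), ?_⟩
  unfold imeqQ imeqc
  rw [e1, e2, imeq_cpow (by positivity) (by linarith) (by linarith),
    imeq_cpow (by positivity) (by linarith) (by linarith)]
  rw [Complex.ofReal_mul (_ ^ _)]
  have e3 : exp (I * ((-(5/12) * (α/2 - x) : ℝ) : ℂ)) =
      exp (I * ((-(5/12) * ((Real.pi - x)/2) : ℝ) : ℂ)) *
        exp (I * ((-(5/12) * ((α - x - Real.pi)/2) : ℝ) : ℂ)) := by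
    rw [← Complex.exp_add]
    congr 1
    push_cast
    ring
  rw [e3]
  ring

/-- the two rotated integrals differ by a function with real derivative -/
def imeqE (α x : ℝ) : ℂ := exp (I * α / 24) * imeqI (1/12) α x - exp (3 * I * α / 8) * imeqI (3/4) α x

theorem imeqE_der {α x : ℝ} (h0 : 0 < x) (h1 : x < α) (hα : α < 2 * Real.pi) :
    ∃ m : ℝ, HasDerivAt (imeqE α) (m : ℂ) x := by
  have d1 := (imeqI_der (b := 1/12) (by norm_num) hα h0 h1).const_mul (exp (I * α / 24))
  have d2 := (imeqI_der (b := 3/4) (by norm_num) hα h0 h1).const_mul (exp (3 * I * α / 8))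
  have d := d1.sub d2
  obtain ⟨M, hM⟩ := imeqQ_val h0 h1 hα
  have hM' : imeqQ α (((1:ℝ):ℂ) * exp (-(I * x))) = M * exp (I * ((-(5/12) * (α/2 - x) : ℝ) : ℂ)) := by
    rw [Complex.ofReal_one, one_mul, hM]
  have e1 : exp (I * α / 24) * (-I * imeqP (1/12) α x 1) =
      -I * (M * exp (I * ((-(1/3) * (α/2 - x) : ℝ) : ℂ))) := by
    unfold imeqP
    rw [hM']
    have : exp (I * ((-(1/3) * (α/2 - x) : ℝ) : ℂ)) = exp (I * α / 24) *
        exp (-(I * ((1/12 : ℝ) : ℂ) * x)) * exp (I * ((-(5/12) * (α/2 - x) : ℝ) : ℂ)) := by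
      rw [← Complex.exp_add, ← Complex.exp_add]
      congr 1
      push_cast
      ring
    rw [this]
    ring
  have e2 : exp (3 * I * α / 8) * (-I * imeqP (3/4) α x 1) =
      -I * (M * exp (-(I * ((-(1/3) * (α/2 - x) : ℝ) : ℂ)))) := by
    unfold imeqP
    rw [hM']
    have : exp (-(I * ((-(1/3) * (α/2 - x) : ℝ) : ℂ))) = exp (3 * I * α / 8) *
        exp (-(I * ((3/4 : ℝ) : ℂ) * x)) * exp (I * ((-(5/12) * (α/2 - x) : ℝ) : ℂ)) := by
      rw [← Complex.exp_add, ← Complex.exp_add]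
      congr 1
      push_cast
      ring
    rw [this]
    ring
  refine ⟨M * (2 * Real.sin (-(1/3) * (α/2 - x))), ?_⟩
  refine d.congr_deriv ?_
  rw [e1, e2]
  generalize -(1/3) * (α/2 - x) = y
  rw [Complex.ofReal_mul, Complex.ofReal_mul, Complex.ofReal_sin, Complex.sin]
  rw [show -(y:ℂ) * I = -(I * y) by ring, show (y:ℂ) * I = I * y by ring]
  push_cast
  ring

theorem imeq_EI (b α : ℝ) : imeqI b α 0 = EI (5/12) b (7/12) (exp (I * α)) := by
  unfold imeqI EI
  apply intervalIntegral.integral_congr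
  intro t ht
  rw [uIcc_of_le zero_le_one] at ht
  have h1 : 0 ≤ 1 - t := by linarith [ht.2]
  simp only
  unfold imeqP imeqQ imeqc
  simp only [Complex.ofReal_zero, mul_zero, neg_zero, Complex.exp_zero, one_mul, mul_one]
  rw [Complex.ofReal_mul, show ((7/12 : ℝ) - 1) = -(5/12) by norm_num, Complex.ofReal_cpow h1,
    Complex.ofReal_sub, Complex.ofReal_one, ← Complex.ofReal_neg]
  ring

theorem imeq_conj_cpow {z : ℂ} (hz : z ∈ slitPlane) (c : ℝ) :
    conj (z^(c:ℂ)) = (conj z)^(c:ℂ) := by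
  have := Complex.conj_cpow z (c:ℂ) (Complex.slitPlane_arg_ne_pi hz)
  rw [Complex.conj_ofReal] at this
  exact this.symm

theorem imeq_conj (b α : ℝ) : exp (I * ((b * α / 2 : ℝ) : ℂ)) * imeqI b α α =
    conj (exp (I * ((b * α / 2 : ℝ) : ℂ)) * imeqI b α 0) := by
  rw [map_mul, ← Complex.exp_conj, map_mul, Complex.conj_I, Complex.conj_ofReal]
  have h1 : conj (imeqI b α 0) = exp (I * b * α) * imeqI b α α := by
    unfold imeqI
    have hcj : conj (∫ t in (0:ℝ)..1, ((t^(b-1) : ℝ) : ℂ) * imeqP b α 0 t) =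
        ∫ t in (0:ℝ)..1, conj (((t^(b-1) : ℝ) : ℂ) * imeqP b α 0 t) := by
      rw [intervalIntegral.integral_of_le zero_le_one, intervalIntegral.integral_of_le zero_le_one]
      exact integral_conj.symm
    rw [hcj, ← intervalIntegral.integral_const_mul]
    apply intervalIntegral.integral_congr_ae
    have : ∀ᵐ t : ℝ, t ≠ 1 := by
      rw [ae_iff]
      simp
    filter_upwards [this] with t ht1 ht
    rw [uIoc_of_le zero_le_one] at ht
    have h1 : t < 1 := lt_of_le_of_ne ht.2 ht1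
    have m1 : (1 : ℂ) - t ∈ slitPlane := by
      left
      simpa using h1
    have m2 : 1 - t * exp (I * α) ∈ slitPlane := imeq_mem_lt ht.1.le h1
    unfold imeqP imeqQ imeqc
    simp only [Complex.ofReal_zero, mul_zero, neg_zero, Complex.exp_zero, one_mul, mul_one]
    rw [map_mul, map_mul, imeq_conj_cpow m1, imeq_conj_cpow m2, Complex.conj_ofReal]
    have e1 : conj (1 - (t:ℂ)) = 1 - t := by
      rw [map_sub, map_one, Complex.conj_ofReal]
    have e2 : conj (1 - (t:ℂ) * exp (I * α)) = 1 - t * exp (-(I * α)) := by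
      rw [map_sub, map_one, map_mul, Complex.conj_ofReal, ← Complex.exp_conj, map_mul,
        Complex.conj_I, Complex.conj_ofReal]
      congr 3
      ring
    have e3 : (t:ℂ) * exp (-(I * α)) * exp (I * α) = t := by
      rw [mul_assoc, ← Complex.exp_add]
      simp
    have e4 : exp (I * b * α) * exp (-(I * b * α)) = 1 := by
      rw [← Complex.exp_add]
      simp
    rw [e1, e2, e3]
    linear_combination (-(((t^(b-1) : ℝ) : ℂ) * ((1 - t * exp (-(I * α)))^((-(5/12) : ℝ) : ℂ) *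
      (1 - (t:ℂ))^((-(5/12) : ℝ) : ℂ)))) * e4
  rw [h1, ← mul_assoc, ← Complex.exp_add]
  congr 2
  push_cast
  ring

/-- the connection identity, by rotating the contour of integration -/
theorem im_eq {α : ℝ} (h0 : 0 < α) (h1 : α < 2 * Real.pi) :
    (exp (I * α / 24) * EI (5/12) (1/12) (7/12) (exp (I * α))).im
      = (exp (3 * I * α / 8) * EI (5/12) (3/4) (7/12) (exp (I * α))).im := by
  have hcont : Continuous (imeqE α) :=
    ((imeqI_cont (1/12) α (by norm_num)).const_mul _).sub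
      ((imeqI_cont (3/4) α (by norm_num)).const_mul _)
  have hder : ∀ x ∈ Ioo 0 α, HasDerivAt (fun x => (imeqE α x).im) 0 x := by
    intro x hx
    obtain ⟨m, hm⟩ := imeqE_der hx.1 hx.2 h1
    have h2 := Complex.imCLM.hasFDerivAt.comp_hasDerivAt x hm
    refine h2.congr_deriv ?_
    simp
  obtain ⟨c, hc, hs⟩ := exists_hasDerivAt_eq_slope (fun x => (imeqE α x).im) (fun _ => 0) h0
    (Complex.continuous_im.comp hcont).continuousOn hder
  have h3 : (imeqE α α).im = (imeqE α 0).im := by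
    have h4 : α - 0 ≠ 0 := by
      rw [sub_zero]
      exact h0.ne'
    have h5 := (div_eq_zero_iff.mp hs.symm).resolve_right h4
    linarith
  have c1 : imeqE α α = conj (exp (I * α / 24) * imeqI (1/12) α 0) -
      conj (exp (3 * I * α / 8) * imeqI (3/4) α 0) := by
    unfold imeqE
    have g1 := imeq_conj (1/12) α
    have g2 := imeq_conj (3/4) α
    rw [show I * ((1/12 * α / 2 : ℝ) : ℂ) = I * α / 24 by push_cast; ring] at g1
    rw [show I * ((3/4 * α / 2 : ℝ) : ℂ) = 3 * I * α / 8 by push_cast; ring] at g2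
    rw [g1, g2]
  rw [c1] at h3
  unfold imeqE at h3
  rw [imeq_EI, imeq_EI, Complex.sub_im, Complex.sub_im, Complex.conj_im, Complex.conj_im] at h3
  linarith

end AG
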