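import Pool.Agent.Bloch.Arcw
import Pool.Agent.Bloch.Imeq
import Pool.Agent.Bloch.Hyparg
import Pool.Agent.Bloch.Hypcont

set_option autoImplicit false

noncomputable section

namespace AG

open Complex Metric Set
open scoped ComplexConjugate

theorem arcz_conj_exp (α : ℝ) : exp (I * ((2 * Real.pi - α : ℝ) : ℂ)) = conj (exp (I * α)) := by
  rw [← exp_conj, map_mul, conj_I, conj_ofReal]
  have : I * ((2 * Real.pi - α : ℝ) : ℂ) = 2 * Real.pi * I + -I * α := by
    push_cast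
    ring
  rw [this, exp_add, exp_two_pi_mul_I, one_mul]

theorem arcz_arg {α : ℝ} (h0 : 0 < α) (h1 : α < 2 * Real.pi) :
    (1 - exp (I * α)).arg = α / 2 - Real.pi / 2 := by
  have hs : 0 < Real.sin (α / 2) := by
    apply Real.sin_pos_of_pos_of_lt_pi <;> linarith [Real.pi_pos]
  rw [arcw_polar, exp_mul_I]
  exact arg_mul_cos_add_sin_mul_I (by positivity)
    ⟨by linarith [Real.pi_pos], by linarith [Real.pi_pos]⟩

theorem arcz_norm (α : ℝ) : ‖exp (I * α)‖ = 1 := by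
  rw [mul_comm, norm_exp_ofReal_mul_I]

theorem arcz_ne {α : ℝ} (h0 : 0 < α) (h1 : α < 2 * Real.pi) : exp (I * α) ≠ 1 := by
  intro h
  rcases arcw_SD h0 h1 with h2 | h2 <;> rw [h] at h2 <;> simp at h2

theorem arcz_im (α : ℝ) : (exp (I * α)).im = Real.sin α := by
  rw [mul_comm, exp_ofReal_mul_I_im]

theorem arcz_EI0 (a b d : ℝ) (hb : 0 < b) (hd : 0 < d) :
    ∃ K : ℝ, 0 < K ∧ EI a b d 0 = (K : ℂ) :=
  ⟨_, by have := Real.Gamma_pos_of_pos hb
         have := Real.Gamma_pos_of_pos hd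
         have := Real.Gamma_pos_of_pos (add_pos hb hd)
         positivity, EI_zero a b d hb hd⟩

/-- the argument of `exp (i α / 24) f1 (exp (i α))` -/
theorem arcz_psi {α : ℝ} (h0 : 0 < α) (h1 : α < 2 * Real.pi) :
    0 ≤ α / 24 + (f1 (exp (I * α))).arg ∧ α / 24 + (f1 (exp (I * α))).arg ≤ Real.pi / 12 := by
  rcases le_or_gt α Real.pi with h | h
  · have h2 := f1_arg (arcz_norm α).le (arcz_ne h0 h1)
      (by rw [arcz_im]; exact Real.sin_nonneg_of_nonneg_of_le_pi h0.le h)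
    rw [arcz_arg h0 h1] at h2
    constructor <;> linarith [h2.1, h2.2]
  · have h0' : 0 < 2 * Real.pi - α := by linarith
    have h1' : 2 * Real.pi - α < 2 * Real.pi := by linarith
    have h2 := f1_arg (arcz_norm (2 * Real.pi - α)).le (arcz_ne h0' h1')
      (by rw [arcz_im]; exact Real.sin_nonneg_of_nonneg_of_le_pi h0'.le (by linarith))
    rw [arcz_arg h0' h1'] at h2
    have h3 : f1 (exp (I * ((2 * Real.pi - α : ℝ) : ℂ))) = conj (f1 (exp (I * α))) := by
      obtain ⟨K, hK, hK2⟩ := arcz_EI0 (5/12) (1/12) (7/12) (by norm_num) (by norm_num)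
      rw [arcz_conj_exp, f1, f1, EI_conj _ _ _ (Or.inl (arcw_SD h0 h1)), hK2, map_div₀,
        conj_ofReal]
    rw [h3] at h2
    have h4 : (f1 (exp (I * α))).arg = -(conj (f1 (exp (I * α)))).arg := by
      rw [← h3]
      have := arg_conj (f1 (exp (I * ((2 * Real.pi - α : ℝ) : ℂ))))
      rw [if_neg, h3, conj_conj] at this
      · rw [this, h3]
      · rw [h3]
        intro h5
        rw [h5] at h2
        linarith [h2.2, Real.pi_pos]
    rw [h4]
    constructor <;> linarith [h2.1, h2.2]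

theorem arcz_sin : Real.sin (Real.pi / 12) = Real.sqrt 2 * (Real.sqrt 3 - 1) / 4 := by
  have : Real.pi / 12 = Real.pi / 3 - Real.pi / 4 := by ring
  rw [this, Real.sin_sub, Real.sin_pi_div_three, Real.cos_pi_div_four, Real.cos_pi_div_three,
    Real.sin_pi_div_four]
  ring

theorem arcz_cos : Real.cos (Real.pi / 12) = Real.sqrt 2 * (Real.sqrt 3 + 1) / 4 := by
  have : Real.pi / 12 = Real.pi / 3 - Real.pi / 4 := by ring
  rw [this, Real.cos_sub, Real.sin_pi_div_three, Real.cos_pi_div_four, Real.cos_pi_div_three,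
    Real.sin_pi_div_four]
  ring

/-- the relation of the two integrals on the unit circle -/
theorem arcz_XY {α : ℝ} (h0 : 0 < α) (h1 : α < 2 * Real.pi) :
    ∃ x1 x2 : ℝ, 0 ≤ x2 ∧ (2 + Real.sqrt 3) * x2 ≤ x1 ∧ 0 < x1 ∧
      exp (I * α / 24) * EI (5/12) (1/12) (7/12) (exp (I * α)) = ⟨x1, x2⟩ ∧
      exp (3 * I * α / 8) * EI (5/12) (3/4) (7/12) (exp (I * α)) =
        ⟨(Real.sqrt 3 - 1) / 2 * x1 - (Real.sqrt 3 + 3) / 2 * x2, x2⟩ := by
  obtain ⟨K, hK, hK2⟩ := arcz_EI0 (5/12) (1/12) (7/12) (by norm_num) (by norm_num)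
  set y : ℂ := exp (I * α) with hy
  set X : ℂ := exp (I * α / 24) * EI (5/12) (1/12) (7/12) y with hX
  set Y : ℂ := exp (3 * I * α / 8) * EI (5/12) (3/4) (7/12) y with hY
  set ψ : ℝ := α / 24 + (f1 y).arg with hψ
  obtain ⟨hψ0, hψ1⟩ := arcz_psi h0 h1
  have hf : f1 y ≠ 0 := f1_ne (arcz_norm α).le
  have hfn : 0 < ‖f1 y‖ := norm_pos_iff.mpr hf
  have hXe : X = ((K * ‖f1 y‖ : ℝ) : ℂ) * exp ((ψ : ℂ) * I) := by
    have e1 : EI (5/12) (1/12) (7/12) y = K * f1 y := by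
      have hK' : (K : ℂ) ≠ 0 := by exact_mod_cast hK.ne'
      rw [f1, hK2, mul_div_cancel₀ _ hK']
    rw [hX, e1, hψ]
    conv_lhs => rw [← norm_mul_exp_arg_mul_I (f1 y)]
    push_cast
    rw [add_mul, exp_add]
    ring_nf
  have hX1 : X.re = K * ‖f1 y‖ * Real.cos ψ := by
    rw [hXe, re_ofReal_mul, exp_ofReal_mul_I_re]
  have hX2 : X.im = K * ‖f1 y‖ * Real.sin ψ := by
    rw [hXe, im_ofReal_mul, exp_ofReal_mul_I_im]
  have hKf : 0 < K * ‖f1 y‖ := by positivity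
  have hp := Real.pi_pos
  have h3 : (0 : ℝ) < Real.sqrt 3 := by positivity
  have h3s : Real.sqrt 3 ^ 2 = 3 := Real.sq_sqrt (by norm_num)
  have h2 : (0 : ℝ) < Real.sqrt 2 := by positivity
  have h2s : Real.sqrt 2 ^ 2 = 2 := Real.sq_sqrt (by norm_num)
  have hx2 : 0 ≤ X.im := by
    rw [hX2]
    exact mul_nonneg hKf.le (Real.sin_nonneg_of_nonneg_of_le_pi hψ0 (by linarith))
  have hx1 : 0 < X.re := by
    rw [hX1]
    exact mul_pos hKf (Real.cos_pos_of_mem_Ioo ⟨by linarith, by linarith⟩)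
  have hx12 : (2 + Real.sqrt 3) * X.im ≤ X.re := by
    have e1 : Real.sin (ψ - Real.pi / 12) ≤ 0 :=
      Real.sin_nonpos_of_nonpos_of_neg_pi_le (by linarith) (by linarith)
    rw [Real.sin_sub, arcz_sin, arcz_cos] at e1
    have e2 : (Real.sqrt 3 + 1) * Real.sin ψ - (Real.sqrt 3 - 1) * Real.cos ψ ≤ 0 := by
      by_contra hcon
      push Not at hcon
      nlinarith [mul_pos h2 hcon]
    have e3 : (2 + Real.sqrt 3) * Real.sin ψ ≤ Real.cos ψ := by
      have e4 : (2 + Real.sqrt 3) * Real.sin ψ - Real.cos ψ = (Real.sqrt 3 + 1) / 2 *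
          ((Real.sqrt 3 + 1) * Real.sin ψ - (Real.sqrt 3 - 1) * Real.cos ψ) := by
        linear_combination (-Real.sin ψ / 2 + Real.cos ψ / 2) * h3s
      have e5 : (Real.sqrt 3 + 1) / 2 *
          ((Real.sqrt 3 + 1) * Real.sin ψ - (Real.sqrt 3 - 1) * Real.cos ψ) ≤ 0 :=
        mul_nonpos_of_nonneg_of_nonpos (by positivity) e2
      linarith
    rw [hX1, hX2]
    nlinarith
  have hXY : X.im = Y.im := im_eq h0 h1
  have h0' : 0 < 2 * Real.pi - α := by linarith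
  have h1' : 2 * Real.pi - α < 2 * Real.pi := by linarith
  have h4 := im_eq h0' h1'
  rw [arcz_conj_exp, EI_conj _ _ _ (Or.inl (arcw_SD h0 h1)),
    EI_conj _ _ _ (Or.inl (arcw_SD h0 h1))] at h4
  have h5 : exp (I * ((2 * Real.pi - α : ℝ) : ℂ) / 24) * conj (EI (5/12) (1/12) (7/12) y) =
      exp (((Real.pi / 12 : ℝ) : ℂ) * I) * conj X := by
    rw [hX, map_mul, ← exp_conj, ← mul_assoc, ← exp_add]
    congr 2
    simp only [map_div₀, map_mul, conj_I, conj_ofReal]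
    have : conj (24 : ℂ) = 24 := by
      have := conj_ofReal 24
      simpa using this
    rw [this]
    push_cast
    ring
  have h6 : exp (3 * I * ((2 * Real.pi - α : ℝ) : ℂ) / 8) * conj (EI (5/12) (3/4) (7/12) y) =
      exp (((3 * Real.pi / 4 : ℝ) : ℂ) * I) * conj Y := by
    rw [hY, map_mul, ← exp_conj, ← mul_assoc, ← exp_add]
    congr 2
    simp only [map_div₀, map_mul, conj_I, conj_ofReal]
    have : conj (8 : ℂ) = 8 := by
      have := conj_ofReal 8
      simpa using this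
    have h33 : conj (3 : ℂ) = 3 := by
      have := conj_ofReal 3
      simpa using this
    rw [this, h33]
    push_cast
    ring
  rw [h5, h6, mul_im, mul_im, exp_ofReal_mul_I_re, exp_ofReal_mul_I_im, exp_ofReal_mul_I_re,
    exp_ofReal_mul_I_im, conj_re, conj_im, conj_re, conj_im, arcz_sin, arcz_cos] at h4
  have h7 : Real.cos (3 * Real.pi / 4) = -(Real.sqrt 2 / 2) := by
    have : 3 * Real.pi / 4 = Real.pi - Real.pi / 4 := by ring
    rw [this, Real.cos_pi_sub, Real.cos_pi_div_four]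
  have h8 : Real.sin (3 * Real.pi / 4) = Real.sqrt 2 / 2 := by
    have : 3 * Real.pi / 4 = Real.pi - Real.pi / 4 := by ring
    rw [this, Real.sin_pi_sub, Real.sin_pi_div_four]
  rw [h7, h8] at h4
  have h9 : Y.re = (Real.sqrt 3 - 1) / 2 * X.re - (Real.sqrt 3 + 3) / 2 * X.im := by
    have e1 : Real.sqrt 2 * (Y.re - ((Real.sqrt 3 - 1) / 2 * X.re - (Real.sqrt 3 + 3) / 2 * X.im))
        = 0 := by
      rw [hXY] at h4 ⊢
      linear_combination (-2) * h4
    rcases mul_eq_zero.mp e1 with h | h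
    · exact absurd h h2.ne'
    · linarith
  refine ⟨X.re, X.im, hx2, hx12, hx1, rfl, ?_⟩
  rw [← h9, hXY]

theorem arcz {θ : ℝ} (h0 : 0 ≤ θ) (h1 : θ ≤ 2 * Real.pi / 3) :
    ‖zz (exp (I * θ))‖^2 + 2*aa*(zz (exp (I * θ)) * om).re + 1 = 0 ∧ ‖zz (exp (I * θ))‖ ≤ rv := by
  have h3 : (0 : ℝ) < Real.sqrt 3 := by positivity
  have h3s : Real.sqrt 3 ^ 2 = 3 := Real.sq_sqrt (by norm_num)
  have hrv := rv_pos
  have hrv2 : rv ^ 2 * (1 + Real.sqrt 3) = 1 := by
    rw [rv_sq]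
    field_simp
  rcases h0.eq_or_lt with rfl | h0
  · have e1 : zz (exp (I * (0 : ℝ))) = rv := by
      rw [ofReal_zero, mul_zero, exp_zero, zz_one]
    rw [e1, re_ofReal_mul, norm_real, Real.norm_of_nonneg hrv.le]
    refine ⟨?_, le_rfl⟩
    have : om.re = -1/2 := rfl
    rw [this]
    linarith [aa_eq]
  rcases h1.eq_or_lt with rfl | h1
  · have e1 : zz (exp (I * ((2 * Real.pi / 3 : ℝ) : ℂ))) = om * rv := by
      have : exp (I * ((2 * Real.pi / 3 : ℝ) : ℂ)) = om * 1 := by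
        rw [om_exp, mul_one]
        congr 1
        push_cast
        ring
      rw [this, zz_om, zz_one]
    have e2 : (om * (rv : ℂ) * om).re = rv * (om ^ 2).re := by
      rw [← re_ofReal_mul]
      congr 1
      ring
    have e3 : (om ^ 2).re = -1/2 := by
      rw [← om_conj]
      rfl
    rw [e1, e2, e3, norm_mul, om_norm, one_mul, norm_real, Real.norm_of_nonneg hrv.le]
    exact ⟨by linarith [aa_eq], le_rfl⟩
  obtain ⟨x1, x2, hx2, hx12, hx1, hX, hY⟩ := arcz_XY (α := 3 * θ) (by linarith) (by linarith)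
  set z := zz (exp (I * θ)) with hz
  have hN : 0 < x1 ^ 2 + x2 ^ 2 := by positivity
  have key : z * ((rv : ℂ) * ⟨x1, x2⟩) =
      ⟨(Real.sqrt 3 - 1) / 2 * x1 - (Real.sqrt 3 + 3) / 2 * x2, x2⟩ := by
    rw [← hX, ← hY, hz, zz_EI, arcw_cube]
    have hE : EI (5/12) (1/12) (7/12) (exp (I * ((3 * θ : ℝ) : ℂ))) ≠ 0 := by
      intro h
      rw [h, mul_zero] at hX
      have := congrArg Complex.re hX
      simp at this
      linarith
    have hrv' : (rv : ℂ) ≠ 0 := by exact_mod_cast hrv.ne'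
    have he : exp (I * θ) * exp (I * ((3 * θ : ℝ) : ℂ) / 24) = exp (3 * I * ((3 * θ : ℝ) : ℂ) / 8) := by
      rw [← exp_add]
      congr 1
      push_cast
      ring
    rw [← he]
    field_simp
  have hre := congrArg Complex.re key
  have him := congrArg Complex.im key
  simp only [mul_re, mul_im, ofReal_re, ofReal_im, zero_mul, sub_zero, add_zero] at hre him
  have hn : ‖z‖ ^ 2 = z.re ^ 2 + z.im ^ 2 := by
    rw [Complex.sq_norm, normSq_apply]
    ring
  have ho1 : om.re = -1/2 := rfl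
  have ho2 : om.im = Real.sqrt 3 / 2 := rfl
  -- solve for `z`
  have hzr : z.re * (rv * (x1 ^ 2 + x2 ^ 2)) =
      ((Real.sqrt 3 - 1) / 2 * x1 - (Real.sqrt 3 + 3) / 2 * x2) * x1 + x2 * x2 := by
    linear_combination x1 * hre + x2 * him
  have hzi : z.im * (rv * (x1 ^ 2 + x2 ^ 2)) =
      x2 * x1 - ((Real.sqrt 3 - 1) / 2 * x1 - (Real.sqrt 3 + 3) / 2 * x2) * x2 := by
    linear_combination x1 * him - x2 * hre
  set A : ℝ := (Real.sqrt 3 - 1) / 2 * x1 - (Real.sqrt 3 + 3) / 2 * x2 with hA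
  set N : ℝ := x1 ^ 2 + x2 ^ 2 with hNd
  have hzr' : z.re = (A * x1 + x2 * x2) / (rv * N) := by
    rw [eq_div_iff (by positivity)]
    exact hzr
  have hzi' : z.im = (x2 * x1 - A * x2) / (rv * N) := by
    rw [eq_div_iff (by positivity)]
    exact hzi
  have hn' : ‖z‖ ^ 2 = (1 + Real.sqrt 3) * (A ^ 2 + x2 ^ 2) / N := by
    rw [hn, hzr', hzi', div_pow, div_pow, ← add_div, div_eq_div_iff (by positivity) hN.ne']
    linear_combination (-(A ^ 2 + x2 ^ 2) * N ^ 2) * hrv2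
      + (-(A ^ 2 + x2 ^ 2) * N) * hNd
  have hid : (1 + Real.sqrt 3) * (A ^ 2 + x2 ^ 2) -
      (2 + Real.sqrt 3) * ((A * x1 + x2 * x2) + Real.sqrt 3 * (x2 * x1 - A * x2)) + N = 0 := by
    rw [hA, hNd]
    linear_combination (1/4 * x1^2 * Real.sqrt 3 - 1/4 * x2^2 * Real.sqrt 3 - 3/4 * x1^2
      - 3/2 * x1 * x2 - 3/4 * x2^2) * h3s
  constructor
  · have h5 : (z * om).re = -z.re / 2 - z.im * Real.sqrt 3 / 2 := by
      rw [mul_re, ho1, ho2]
      ring
    rw [h5, hn', hzr', hzi', aa]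
    have h6 : (1 + Real.sqrt 3) * (A ^ 2 + x2 ^ 2) / N + 2 * ((2 + Real.sqrt 3) * rv) *
        (-((A * x1 + x2 * x2) / (rv * N)) / 2 - (x2 * x1 - A * x2) / (rv * N) * Real.sqrt 3 / 2) + 1
        = ((1 + Real.sqrt 3) * (A ^ 2 + x2 ^ 2) -
      (2 + Real.sqrt 3) * ((A * x1 + x2 * x2) + Real.sqrt 3 * (x2 * x1 - A * x2)) + N) / N := by
      field_simp
      ring
    rw [h6, hid, zero_div]
  · have h7 : ‖z‖ ^ 2 ≤ rv ^ 2 := by
      rw [hn', rv_sq, div_le_div_iff₀ hN (by positivity), one_mul]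
      have h8 : (1 + Real.sqrt 3) * (A ^ 2 + x2 ^ 2) * (1 + Real.sqrt 3) - N =
          (6 + 4 * Real.sqrt 3) * (x2 * ((2 + Real.sqrt 3) * x2 - x1)) := by
        rw [hA, hNd]
        linear_combination (1/4 * x1^2 * Real.sqrt 3^2 - 1/2 * x1 * x2 * Real.sqrt 3^2
          + 1/4 * x2^2 * Real.sqrt 3^2 - 2 * x1 * x2 * Real.sqrt 3 + 2 * x2^2 * Real.sqrt 3
          + 1/4 * x1^2 - 5/2 * x1 * x2 + 13/4 * x2^2) * h3s
      have h9 : x2 * ((2 + Real.sqrt 3) * x2 - x1) ≤ 0 :=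
        mul_nonpos_of_nonneg_of_nonpos hx2 (by linarith)
      have h10 : (6 + 4 * Real.sqrt 3) * (x2 * ((2 + Real.sqrt 3) * x2 - x1)) ≤ 0 :=
        mul_nonpos_of_nonneg_of_nonpos (by positivity) h9
      linarith
    exact (sq_le_sq₀ (norm_nonneg _) hrv.le).mp h7

end AG
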