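import Pool.Agent.Bloch.Defs

/-!
Perturbation of a simple critical point.
-/

set_option autoImplicit false

noncomputable section

namespace AG

open Complex Metric Set
open scoped ComplexConjugate Topology

theorem critp_rv_pos : 0 < rv := by
  unfold rv
  positivity

theorem critp_rv_lt : rv < 1 := by
  unfold rv
  have h3 : 0 < Real.sqrt 3 := by positivity
  have h4 : 1 < Real.sqrt (1 + Real.sqrt 3) := by
    rw [Real.lt_sqrt (by norm_num)]
    linarith
  rw [div_lt_one (by linarith)]
  exact h4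

theorem critp_om_norm : ‖om‖ = 1 := by
  have h : ‖om‖ ^ 2 = 1 := by
    rw [← Complex.normSq_eq_norm_sq, Complex.normSq_apply]
    unfold om
    have h3 : Real.sqrt 3 * Real.sqrt 3 = 3 := Real.mul_self_sqrt (by norm_num)
    simp only
    nlinarith
  nlinarith [norm_nonneg om]

/-- Cauchy estimate on a smaller ball. -/
theorem critp_cauchy {k : ℂ → ℂ} {v : ℂ} {R ρ δ : ℝ} (hρ : 0 < ρ)
    (hk : DifferentiableOn ℂ k (ball v R)) (hb : ∀ z ∈ ball v R, ‖k z‖ ≤ δ) {z : ℂ}
    (hz : z ∈ ball v (R - ρ)) : ‖deriv k z‖ ≤ δ / ρ := by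
  have hsub : closedBall z ρ ⊆ ball v R := by
    intro w hw
    rw [mem_closedBall] at hw
    rw [mem_ball] at hz ⊢
    calc dist w v ≤ dist w z + dist z v := dist_triangle _ _ _
      _ < R := by linarith
  exact norm_deriv_le_of_forall_mem_sphere_norm_le hρ (hk.diffContOnCl_ball hsub)
    (fun w hw => hb w (hsub (sphere_subset_closedBall hw)))

/-- Uniqueness: a function with almost constant second derivative. -/
theorem critp_unique {g : ℂ → ℂ} {v v' z A : ℂ} {s : ℝ} (hA : A ≠ 0)
    (hg : DifferentiableOn ℂ g (ball v s))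
    (h2 : ∀ w ∈ ball v s, ‖deriv (deriv g) w - A‖ < ‖A‖) (hv' : v' ∈ ball v s)
    (h0 : deriv g v' = 0) (hz : z ∈ ball v s) (hgz : g z = g v') : z = v' := by
  by_contra hne
  set d : ℂ := z - v' with hd
  have hd0 : d ≠ 0 := sub_ne_zero.2 hne
  have hseg : ∀ t : ℝ, t ∈ Icc (0:ℝ) 1 → v' + t * d ∈ ball v s := by
    intro t ht
    have := (convex_ball v s).add_smul_sub_mem hv' hz ht
    simpa [hd, Complex.real_smul] using this
  have hdg : DifferentiableOn ℂ (deriv g) (ball v s) := hg.deriv isOpen_ball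
  have hmap : ∀ t : ℝ, HasDerivAt (fun t : ℝ => v' + t * d) d t := by
    intro t
    have h1 : HasDerivAt (fun t : ℝ => (t:ℂ)) 1 t := Complex.ofRealCLM.hasDerivAt
    simpa using (h1.mul_const d).const_add v'
  have hre : ∀ w ∈ ball v s, 0 < (conj A * deriv (deriv g) w).re := by
    intro w hw
    have h3 := h2 w hw
    have h4 : (conj A * deriv (deriv g) w) = conj A * A + conj A * (deriv (deriv g) w - A) := by ring
    have h5 : (conj A * A).re = ‖A‖^2 := by
      rw [mul_comm, Complex.mul_conj, Complex.normSq_eq_norm_sq, Complex.ofReal_re]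
    have h6 : -(‖A‖ * ‖deriv (deriv g) w - A‖) ≤ (conj A * (deriv (deriv g) w - A)).re := by
      have := Complex.abs_re_le_norm (conj A * (deriv (deriv g) w - A))
      rw [norm_mul, Complex.norm_conj] at this
      exact (abs_le.1 this).1
    rw [h4, Complex.add_re, h5]
    have h7 : 0 < ‖A‖ := norm_pos_iff.2 hA
    nlinarith
  -- first function
  set φ1 : ℝ → ℝ := fun t => (conj A * (deriv g (v' + t * d) / d)).re with hφ1
  have hφ1d : ∀ t ∈ Icc (0:ℝ) 1, HasDerivAt φ1 (conj A * deriv (deriv g) (v' + t * d)).re t := by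
    intro t ht
    have h3 : HasDerivAt (fun t : ℝ => deriv g (v' + t * d)) (deriv (deriv g) (v' + t * d) * d) t :=
      HasDerivAt.comp t (h₂ := deriv g) (hdg.differentiableAt (isOpen_ball.mem_nhds
        (hseg t ht))).hasDerivAt (hmap t)
    have h4 := (h3.div_const d).const_mul (conj A)
    have h5 := Complex.reCLM.hasFDerivAt.comp_hasDerivAt t h4
    rw [mul_div_cancel_right₀ _ hd0] at h5
    exact h5
  have hpos1 : ∀ t ∈ Ioc (0:ℝ) 1, 0 < φ1 t := by
    intro t ht
    have hmono : StrictMonoOn φ1 (Icc (0:ℝ) 1) := by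
      refine strictMonoOn_of_deriv_pos (convex_Icc 0 1)
        (fun t ht => (hφ1d t ht).continuousAt.continuousWithinAt) (fun t ht => ?_)
      rw [interior_Icc] at ht
      rw [(hφ1d t (Ioo_subset_Icc_self ht)).deriv]
      exact hre _ (hseg t (Ioo_subset_Icc_self ht))
    have h3 := hmono (left_mem_Icc.2 zero_le_one) (Ioc_subset_Icc_self ht) ht.1
    have h4 : φ1 0 = 0 := by simp [hφ1, h0]
    linarith
  -- second function
  set φ0 : ℝ → ℝ := fun t => (conj A * (g (v' + t * d) / d^2)).re with hφ0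
  have hφ0d : ∀ t ∈ Icc (0:ℝ) 1, HasDerivAt φ0 (φ1 t) t := by
    intro t ht
    have h3 : HasDerivAt (fun t : ℝ => g (v' + t * d)) (deriv g (v' + t * d) * d) t :=
      HasDerivAt.comp t (h₂ := g) (hg.differentiableAt (isOpen_ball.mem_nhds
        (hseg t ht))).hasDerivAt (hmap t)
    have h4 := (h3.div_const (d^2)).const_mul (conj A)
    have h5 := Complex.reCLM.hasFDerivAt.comp_hasDerivAt t h4
    have h6 : deriv g (v' + t * d) * d / d^2 = deriv g (v' + t * d) / d := by
      field_simp
    rw [h6] at h5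
    exact h5
  have hmono0 : StrictMonoOn φ0 (Icc (0:ℝ) 1) := by
    refine strictMonoOn_of_deriv_pos (convex_Icc 0 1)
      (fun t ht => (hφ0d t ht).continuousAt.continuousWithinAt) (fun t ht => ?_)
    rw [interior_Icc] at ht
    rw [(hφ0d t (Ioo_subset_Icc_self ht)).deriv]
    exact hpos1 t (Ioo_subset_Ioc_self ht)
  have h3 := hmono0 (left_mem_Icc.2 zero_le_one) (right_mem_Icc.2 zero_le_one) zero_lt_one
  have h4 : φ0 0 = φ0 1 := by
    simp only [hφ0, Complex.ofReal_zero, zero_mul, add_zero, Complex.ofReal_one, one_mul]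
    rw [hd, add_sub_cancel, hgz]
  linarith

/-- Perturbation of a simple critical point, for one vertex. -/
theorem critp_local {F : ℂ → ℂ} {v : ℂ} {s : ℝ} (hs : 0 < s)
    (hF : DifferentiableOn ℂ F (ball v (2*s))) (h1 : deriv F v = 0)
    (hA : deriv (deriv F) v ≠ 0)
    (h2 : ∀ z ∈ ball v s, ‖deriv (deriv F) z - deriv (deriv F) v‖ ≤ ‖deriv (deriv F) v‖ / 2) :
    ∃ κ C : ℝ, 0 < κ ∧ 0 < C ∧ ∀ (k : ℂ → ℂ) (δ : ℝ), δ ≤ κ →
    DifferentiableOn ℂ k (ball v (2*s)) →
    (∀ z ∈ ball v (2*s), ‖k z‖ ≤ δ) →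
    ∃ v' ∈ ball v s, deriv (fun x => F x + k x) v' = 0 ∧
      ‖F v' + k v' - (F v + k v)‖ ≤ C * δ^2 ∧
      ∀ z ∈ ball v s, F z + k z = F v' + k v' → z = v' := by
  set A := deriv (deriv F) v with hAdef
  set a := ‖A‖ with ha
  have ha0 : 0 < a := norm_pos_iff.2 hA
  refine ⟨a * s^2 / 32, (3*a/2) * (17/(a*s))^2 + (2/s) * (17/(a*s)), by positivity, by positivity, ?_⟩
  intro k δ hδ hk hb
  have hδ0 : 0 ≤ δ := (norm_nonneg _).trans (hb v (mem_ball_self (by positivity)))
  have hss : ball v s ⊆ ball v (2*s) := ball_subset_ball (by linarith)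
  have hdF : DifferentiableOn ℂ (deriv F) (ball v (2*s)) := hF.deriv isOpen_ball
  have hdk : DifferentiableOn ℂ (deriv k) (ball v (2*s)) := hk.deriv isOpen_ball
  have hk1 : ∀ z ∈ ball v (2*s - s/2), ‖deriv k z‖ ≤ δ / (s/2) := fun z hz =>
    critp_cauchy (by positivity) hk hb hz
  have hk1' : ∀ z ∈ ball v s, ‖deriv k z‖ ≤ 2 * δ / s := by
    intro z hz
    have := hk1 z (ball_subset_ball (by linarith) hz)
    calc _ ≤ _ := this
      _ = 2 * δ / s := by field_simp
  have hk2 : ∀ z ∈ ball v s, ‖deriv (deriv k) z‖ ≤ 4 * δ / s^2 := by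
    intro z hz
    have := critp_cauchy (k := deriv k) (R := 2*s - s/2) (ρ := s/2) (by positivity)
      (hdk.mono (ball_subset_ball (by linarith))) hk1
      (z := z) (ball_subset_ball (by linarith) hz)
    calc _ ≤ _ := this
      _ = 4 * δ / s^2 := by field_simp; ring
  have hk2' : ∀ z ∈ ball v s, ‖deriv (deriv k) z‖ ≤ a / 8 := by
    intro z hz
    refine (hk2 z hz).trans ?_
    rw [div_le_iff₀ (by positivity)]
    linarith
  -- first derivative of F
  have hF1 : ∀ z ∈ ball v s, ‖deriv F z - A * (z - v)‖ ≤ a / 2 * ‖z - v‖ := by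
    intro z hz
    have hd : ∀ w ∈ ball v s, HasDerivWithinAt (fun w => deriv F w - A * (w - v))
        (deriv (deriv F) w - A) (ball v s) w := by
      intro w hw
      have h3 := (hdF.differentiableAt (isOpen_ball.mem_nhds (hss hw))).hasDerivAt
      have h4 : HasDerivAt (fun w => A * (w - v)) A w := by
        simpa using ((hasDerivAt_id w).sub_const v).const_mul A
      exact (h3.sub h4).hasDerivWithinAt
    have := (convex_ball v s).norm_image_sub_le_of_norm_hasDerivWithin_le hd h2
      (mem_ball_self hs) hz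
    simpa [h1] using this
  have hFlow : ∀ z ∈ ball v s, a / 2 * ‖z - v‖ ≤ ‖deriv F z‖ := by
    intro z hz
    have h3 := hF1 z hz
    have h4 : ‖A * (z - v)‖ ≤ ‖deriv F z‖ + ‖deriv F z - A * (z - v)‖ := by
      have := norm_sub_norm_le (A * (z - v)) (deriv F z)
      rw [norm_sub_rev] at this
      linarith
    rw [norm_mul] at h4
    linarith
  have hFup : ∀ z ∈ ball v s, ‖deriv F z‖ ≤ 3 * a / 2 * ‖z - v‖ := by
    intro z hz
    have h3 := hF1 z hz
    have h4 : ‖deriv F z‖ ≤ ‖A * (z - v)‖ + ‖deriv F z - A * (z - v)‖ := by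
      have := norm_sub_norm_le (deriv F z) (A * (z - v))
      linarith
    rw [norm_mul] at h4
    linarith
  have hFval : ∀ z ∈ ball v s, ‖F z - F v‖ ≤ 3 * a / 2 * ‖z - v‖ ^ 2 := by
    intro z hz
    have hsub : closedBall v ‖z - v‖ ⊆ ball v s := by
      intro w hw
      rw [mem_closedBall, dist_eq_norm] at hw
      rw [mem_ball, dist_eq_norm] at hz ⊢
      linarith
    have hd : ∀ w ∈ closedBall v ‖z - v‖, HasDerivWithinAt F (deriv F w)
        (closedBall v ‖z - v‖) w := fun w hw =>
      (hF.differentiableAt (isOpen_ball.mem_nhds (hss (hsub hw)))).hasDerivAt.hasDerivWithinAt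
    have hb' : ∀ w ∈ closedBall v ‖z - v‖, ‖deriv F w‖ ≤ 3 * a / 2 * ‖z - v‖ := by
      intro w hw
      refine (hFup w (hsub hw)).trans ?_
      rw [mem_closedBall, dist_eq_norm] at hw
      gcongr
    have := (convex_closedBall v ‖z - v‖).norm_image_sub_le_of_norm_hasDerivWithin_le hd hb'
      (mem_closedBall_self (norm_nonneg _)) (by rw [mem_closedBall, dist_eq_norm] : z ∈ _)
    calc _ ≤ _ := this
      _ = _ := by ring
  -- existence of the critical point
  have hex : ∃ v', ‖v' - v‖ ≤ 17/(a*s) * δ ∧ deriv F v' + deriv k v' = 0 := by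
    rcases hδ0.eq_or_lt with h0 | hpos
    · refine ⟨v, by simp [← h0], ?_⟩
      have h3 := hk1' v (mem_ball_self hs)
      rw [← h0, mul_zero, zero_div] at h3
      rw [h1, norm_le_zero_iff.1 h3, add_zero]
    · set r : ℝ := 17/(a*s) * δ with hr
      have hr0 : 0 < r := by positivity
      have hrs : r < s := by
        have : r ≤ 17/(a*s) * (a * s^2 / 32) := by
          rw [hr]; gcongr
        have h3 : 17/(a*s) * (a * s^2 / 32) = 17/32 * s := by field_simp
        rw [h3] at this
        linarith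
      have hsub : closedBall v r ⊆ ball v s := fun w hw => by
        rw [mem_closedBall] at hw; rw [mem_ball]; linarith
      have hdf : DifferentiableOn ℂ (fun z => deriv F z + deriv k z) (ball v (2*s)) := hdF.add hdk
      have hdc : DiffContOnCl ℂ (fun z => deriv F z + deriv k z) (ball v r) :=
        hdf.diffContOnCl_ball (hsub.trans hss)
      have hε : ∀ z ∈ sphere v r, a * r / 2 - 4 * δ / s ≤
          ‖(deriv F z + deriv k z) - (deriv F v + deriv k v)‖ := by
        intro z hz
        have hz' := hsub (sphere_subset_closedBall hz)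
        have h3 := hFlow z hz'
        have h4 := hk1' z hz'
        have h5 := hk1' v (mem_ball_self hs)
        have h6 : ‖z - v‖ = r := by rwa [mem_sphere, dist_eq_norm] at hz
        rw [h6] at h3
        rw [h1, zero_add]
        have h7 : ‖deriv F z‖ ≤ ‖deriv F z + deriv k z - deriv k v‖ + ‖deriv k z‖ +
            ‖deriv k v‖ := by
          have h8 : deriv F z = (deriv F z + deriv k z - deriv k v) - deriv k z + deriv k v := by
            ring
          calc ‖deriv F z‖ = ‖(deriv F z + deriv k z - deriv k v) - deriv k z + deriv k v‖ := by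
                rw [← h8]
            _ ≤ ‖(deriv F z + deriv k z - deriv k v) - deriv k z‖ + ‖deriv k v‖ := norm_add_le _ _
            _ ≤ _ := by gcongr; exact norm_sub_le _ _
        have h9 : 4 * δ / s = 2 * δ / s + 2 * δ / s := by ring
        rw [h9]
        linarith
      have hfreq : ∃ᶠ z in 𝓝 v, (deriv F z + deriv k z) ≠ (deriv F v + deriv k v) := by
        have hv2 : v ∈ ball v (2*s) := mem_ball_self (by positivity)
        have hD : HasDerivAt (fun z => deriv F z + deriv k z)
            (deriv (deriv F) v + deriv (deriv k) v) v :=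
          (hdF.differentiableAt (isOpen_ball.mem_nhds hv2)).hasDerivAt.add
            (hdk.differentiableAt (isOpen_ball.mem_nhds hv2)).hasDerivAt
        have hne : deriv (deriv F) v + deriv (deriv k) v ≠ 0 := by
          intro h3
          have h4 : ‖deriv (deriv F) v‖ = ‖deriv (deriv k) v‖ := by
            rw [eq_neg_of_add_eq_zero_left h3, norm_neg]
          have h5 := hk2' v (mem_ball_self hs)
          rw [← h4] at h5
          change a ≤ a / 8 at h5
          linarith
        have h3 := hD.eventually_ne (c := deriv F v + deriv k v) hne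
        have h4 : ∃ᶠ z in 𝓝[≠] v, (deriv F z + deriv k z) ≠ (deriv F v + deriv k v) :=
          h3.frequently
        exact h4.filter_mono nhdsWithin_le_nhds
      have hcov := hdc.ball_subset_image_closedBall hr0 hε hfreq
      have hmem : (0:ℂ) ∈ ball (deriv F v + deriv k v) ((a * r / 2 - 4 * δ / s) / 2) := by
        rw [mem_ball, dist_eq_norm, zero_sub, norm_neg, h1, zero_add]
        refine (hk1' v (mem_ball_self hs)).trans_lt ?_
        have h3 : a * r / 2 = 17 / 2 * (δ / s) := by
          rw [hr]; field_simp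
        rw [h3]
        have h4 : 0 < δ / s := by positivity
        have h5 : 4 * δ / s = 4 * (δ / s) := by ring
        have h6 : 2 * δ / s = 2 * (δ / s) := by ring
        rw [h5, h6]
        linarith
      obtain ⟨v', hv', h3⟩ := hcov hmem
      exact ⟨v', by rwa [mem_closedBall, dist_eq_norm] at hv', h3⟩
  obtain ⟨v', hv'r, hv'0⟩ := hex
  have hrs : 17/(a*s) * δ < s := by
    have : 17/(a*s) * δ ≤ 17/(a*s) * (a * s^2 / 32) := by gcongr
    have h3 : 17/(a*s) * (a * s^2 / 32) = 17/32 * s := by field_simp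
    rw [h3] at this
    linarith
  have hv's : v' ∈ ball v s := by rw [mem_ball, dist_eq_norm]; linarith
  have hderiv : ∀ w ∈ ball v (2*s), HasDerivAt (fun x => F x + k x) (deriv F w + deriv k w) w :=
    fun w hw => (hF.differentiableAt (isOpen_ball.mem_nhds hw)).hasDerivAt.add
      (hk.differentiableAt (isOpen_ball.mem_nhds hw)).hasDerivAt
  have hd0 : deriv (fun x => F x + k x) v' = 0 := by
    rw [(hderiv v' (hss hv's)).deriv, hv'0]
  refine ⟨v', hv's, hd0, ?_, ?_⟩
  · have h3 : F v' + k v' - (F v + k v) = (F v' - F v) + (k v' - k v) := by ring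
    rw [h3]
    have h4 := hFval v' hv's
    have h5 : ‖k v' - k v‖ ≤ 2 * δ / s * ‖v' - v‖ := by
      have hd : ∀ w ∈ ball v s, HasDerivWithinAt k (deriv k w) (ball v s) w := fun w hw =>
        (hk.differentiableAt (isOpen_ball.mem_nhds (hss hw))).hasDerivAt.hasDerivWithinAt
      exact (convex_ball v s).norm_image_sub_le_of_norm_hasDerivWithin_le hd hk1'
        (mem_ball_self hs) hv's
    calc ‖(F v' - F v) + (k v' - k v)‖ ≤ ‖F v' - F v‖ + ‖k v' - k v‖ := norm_add_le _ _
      _ ≤ 3 * a / 2 * (17/(a*s) * δ)^2 + 2 * δ / s * (17/(a*s) * δ) := by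
        refine add_le_add (h4.trans ?_) (h5.trans ?_)
        · gcongr
        · gcongr
      _ = _ := by ring
  · intro z hz hgz
    refine critp_unique (g := fun x => F x + k x) (A := A) hA
      ((hF.add hk).mono hss) ?_ hv's hd0 hz hgz
    intro w hw
    have h3 : deriv (deriv (fun x => F x + k x)) w = deriv (deriv F) w + deriv (deriv k) w := by
      have h4 : deriv (fun x => F x + k x) =ᶠ[𝓝 w] fun x => deriv F x + deriv k x := by
        filter_upwards [isOpen_ball.mem_nhds (hss hw)] with x hx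
        exact (hderiv x hx).deriv
      rw [h4.deriv_eq]
      exact ((hdF.differentiableAt (isOpen_ball.mem_nhds (hss hw))).hasDerivAt.add
        (hdk.differentiableAt (isOpen_ball.mem_nhds (hss hw))).hasDerivAt).deriv
    rw [h3]
    have h4 := h2 w hw
    have h5 := hk2' w hw
    calc ‖deriv (deriv F) w + deriv (deriv k) w - A‖
        = ‖(deriv (deriv F) w - A) + deriv (deriv k) w‖ := by congr 1; ring
      _ ≤ ‖deriv (deriv F) w - A‖ + ‖deriv (deriv k) w‖ := norm_add_le _ _
      _ < ‖A‖ := by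
        change _ < a
        linarith

theorem critp_rot {F : ℂ → ℂ} (hF : AGF F) (j : ℕ) {z : ℂ} (hz : z ∈ ball (0:ℂ) 1) :
    F (om^j * z) = om^j * F z := by
  induction j with
  | zero => simp
  | succ j ih =>
    have hm : om^j * z ∈ ball (0:ℂ) 1 := by
      rw [mem_ball_zero_iff] at hz ⊢
      rwa [norm_mul, norm_pow, critp_om_norm, one_pow, one_mul]
    rw [pow_succ', mul_assoc, hF.rt _ hm, ih, mul_assoc]

theorem crit_pert {F : ℂ → ℂ} (hF : AGF F) : ∃ s κ C : ℝ, 0 < s ∧ 0 < κ ∧ 0 < C ∧
    rv + 2 * s < 1 ∧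
    ∀ v : ℂ, ∀ j : ℕ, v = rv * om^j → ∀ (k : ℂ → ℂ) (δ : ℝ), δ ≤ κ → DifferentiableOn ℂ k (ball v (2*s)) →
    (∀ z ∈ ball v (2*s), ‖k z‖ ≤ δ) →
    ∃ v' ∈ ball v s, deriv (fun x => F x + k x) v' = 0 ∧
      ‖F v' + k v' - (bt * om^j + k v)‖ ≤ C * δ^2 ∧
      ∀ z ∈ ball v s, F z + k z = F v' + k v' → z = v' := by
  have hrv : (rv:ℂ) ∈ ball (0:ℂ) 1 := by
    rw [mem_ball_zero_iff, Complex.norm_real, Real.norm_of_nonneg critp_rv_pos.le]
    exact critp_rv_lt
  have hdd : DifferentiableOn ℂ (deriv (deriv F)) (ball 0 1) :=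
    (hF.diff.deriv isOpen_ball).deriv isOpen_ball
  have hcont : ContinuousAt (deriv (deriv F)) rv :=
    (hdd.differentiableAt (isOpen_ball.mem_nhds hrv)).continuousAt
  have hA0 : 0 < ‖deriv (deriv F) rv‖ := norm_pos_iff.2 hF.crit2
  obtain ⟨s1, hs1, hs1'⟩ := Metric.continuousAt_iff.1 hcont (‖deriv (deriv F) rv‖ / 2) (by positivity)
  set s : ℝ := min s1 ((1 - rv)/4) with hs
  have hs0 : 0 < s := lt_min hs1 (by have := critp_rv_lt; linarith)
  have hsr : rv + 2 * s < 1 := by
    have := min_le_right s1 ((1 - rv)/4)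
    have h2 := critp_rv_lt
    change s ≤ _ at this
    linarith
  have hball : ∀ z : ℂ, z ∈ ball (rv:ℂ) (2*s) → z ∈ ball (0:ℂ) 1 := by
    intro z hz
    rw [mem_ball, dist_eq_norm] at hz
    rw [mem_ball_zero_iff]
    have h3 : ‖z‖ ≤ ‖z - rv‖ + ‖(rv:ℂ)‖ := by
      have := norm_add_le (z - rv) (rv:ℂ)
      simpa using this
    rw [Complex.norm_real, Real.norm_of_nonneg critp_rv_pos.le] at h3
    linarith
  obtain ⟨κ, C, hκ, hC, hmain⟩ := critp_local (F := F) (v := rv) hs0
    (hF.diff.mono hball) hF.crit hF.crit2 (by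
      intro z hz
      have := hs1' (show dist z rv < s1 from lt_of_lt_of_le hz (min_le_left _ _))
      rw [dist_eq_norm] at this
      exact this.le)
  refine ⟨s, κ, C, hs0, hκ, hC, hsr, ?_⟩
  intro v j hv k δ hδ hk hb
  have hom0 : om^j ≠ 0 := by
    intro h
    have := congrArg norm h
    rw [norm_pow, critp_om_norm] at this
    simp at this
  have homn : ‖om^j‖ = 1 := by rw [norm_pow, critp_om_norm, one_pow]
  have hrot : ∀ (z : ℂ) (ρ : ℝ), z ∈ ball (rv:ℂ) ρ → om^j * z ∈ ball v ρ := by
    intro z ρ hz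
    rw [mem_ball, dist_eq_norm] at hz ⊢
    have : om^j * z - v = om^j * (z - rv) := by rw [hv]; ring
    rwa [this, norm_mul, homn, one_mul]
  have hrot' : ∀ (z : ℂ) (ρ : ℝ), z ∈ ball v ρ → (om^j)⁻¹ * z ∈ ball (rv:ℂ) ρ := by
    intro z ρ hz
    rw [mem_ball, dist_eq_norm] at hz ⊢
    have : (om^j)⁻¹ * z - rv = (om^j)⁻¹ * (z - v) := by
      rw [hv]; field_simp
    rwa [this, norm_mul, norm_inv, homn, inv_one, one_mul]
  obtain ⟨v', hv', h1, h2, h3⟩ := hmain (fun z => (om^j)⁻¹ * k (om^j * z)) δ hδ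
    (by
      refine DifferentiableOn.const_mul ?_ _
      refine hk.comp (by fun_prop) (fun z hz => hrot z _ hz))
    (by
      intro z hz
      rw [norm_mul, norm_inv, homn, inv_one, one_mul]
      exact hb _ (hrot z _ hz))
  have hs2 : s ≤ 2 * s := by linarith
  have hFr : ∀ z ∈ ball (rv:ℂ) (2*s), F z + (om^j)⁻¹ * k (om^j * z)
      = (om^j)⁻¹ * (F (om^j * z) + k (om^j * z)) := by
    intro z hz
    rw [critp_rot hF j (hball z hz)]
    field_simp
  refine ⟨om^j * v', hrot v' _ hv', ?_, ?_, ?_⟩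
  · have hm : om^j * v' ∈ ball v (2*s) := hrot v' _ (ball_subset_ball hs2 hv')
    have hball1 : om^j * v' ∈ ball (0:ℂ) 1 := by
      have := hball v' (ball_subset_ball hs2 hv')
      rw [mem_ball_zero_iff] at this ⊢
      rwa [norm_mul, homn, one_mul]
    have hdiff : DifferentiableAt ℂ (fun x => F x + k x) (om^j * v') :=
      (hF.diff.differentiableAt (isOpen_ball.mem_nhds hball1)).add
        (hk.differentiableAt (isOpen_ball.mem_nhds hm))
    have e1 : HasDerivAt (fun z => (om^j)⁻¹ * (F (om^j * z) + k (om^j * z)))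
        ((om^j)⁻¹ * (deriv (fun x => F x + k x) (om^j * v') * om^j)) v' := by
      have h4 : HasDerivAt (fun z : ℂ => om^j * z) (om^j) v' := by
        simpa using (hasDerivAt_id v').const_mul (om^j)
      exact (HasDerivAt.comp v' hdiff.hasDerivAt h4).const_mul _
    have e2 : (fun z => F z + (om^j)⁻¹ * k (om^j * z)) =ᶠ[𝓝 v']
        fun z => (om^j)⁻¹ * (F (om^j * z) + k (om^j * z)) := by
      filter_upwards [isOpen_ball.mem_nhds (ball_subset_ball hs2 hv')] with z hz
      exact hFr z hz
    rw [e2.deriv_eq, e1.deriv] at h1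
    rcases mul_eq_zero.1 h1 with h | h
    · exact absurd h (inv_ne_zero hom0)
    · rcases mul_eq_zero.1 h with h | h
      · exact h
      · exact absurd h hom0
  · have e1 := hFr v' (ball_subset_ball hs2 hv')
    rw [e1, hF.vert] at h2
    have e2 : F (om^j * v') + k (om^j * v') - (bt * om^j + k v) =
        om^j * ((om^j)⁻¹ * (F (om^j * v') + k (om^j * v')) - (bt + (om^j)⁻¹ * k (om^j * rv))) := by
      have e3 : v = om^j * rv := by rw [hv, mul_comm]
      rw [e3]
      field_simp
    rw [e2, norm_mul, homn, one_mul]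
    exact h2
  · intro z hz hgz
    have h4 := h3 ((om^j)⁻¹ * z) (hrot' z _ hz)
    have e1 := hFr v' (ball_subset_ball hs2 hv')
    have e2 := hFr ((om^j)⁻¹ * z) (ball_subset_ball hs2 (hrot' z _ hz))
    rw [e1, e2, mul_inv_cancel_left₀ hom0, hgz] at h4
    rw [← h4 rfl, mul_inv_cancel_left₀ hom0]

end AG
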