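import Mathlib

/-!
Definitions for the disproof of the Ahlfors-Grunsky conjecture on Bloch's constant
(problem MP_b327a3_an, frozen statement S05862).
-/

set_option autoImplicit false

noncomputable section

namespace AG

open Complex Metric Set
open scoped ComplexConjugate

/-- modulus of the vertices of the central face -/
def rv : ℝ := 1 / Real.sqrt (1 + Real.sqrt 3)

/-- the conjectured value of Bloch's constant -/
def bt : ℝ := (1 / Real.sqrt (1 + Real.sqrt 3)) *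
  (Real.Gamma (1/3) * Real.Gamma (11/12) / Real.Gamma (1/4))

/-- centre (in modulus) of the circle carrying a side of the central face -/
def aa : ℝ := (2 + Real.sqrt 3) * rv

/-- primitive cube root of unity -/
def om : ℂ := ⟨-1/2, Real.sqrt 3 / 2⟩

/-- reflection in the side opposite to the vertex `rv` -/
def s0 (z : ℂ) : ℂ := -(1 + aa * conj z) / (aa + conj z)

/-- closed central face (hyperbolic triangle with angles pi/6) -/
def Tri : Set ℂ := {z | ‖z‖ < 1 ∧ ∀ k : ℕ, 0 ≤ ‖z‖^2 + 2*aa*(z*om^k).re + 1}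

/-- open central face -/
def Tin : Set ℂ := {z | ‖z‖ < 1 ∧ ∀ k : ℕ, 0 < ‖z‖^2 + 2*aa*(z*om^k).re + 1}

/-- closed Euclidean equilateral triangle of circumradius `bt` -/
def Del : Set ℂ := {w | ∀ k : ℕ, -(bt/2) ≤ (w*om^k).re}

/-- the pairs (hyperbolic motion, Euclidean motion) -/
inductive Gp : (ℂ → ℂ) → (ℂ → ℂ) → Prop
  | one : Gp (fun z => z) (fun w => w)
  | cj {g t : ℂ → ℂ} : Gp g t → Gp (fun z => conj (g z)) (fun w => conj (t w))
  | rt {g t : ℂ → ℂ} : Gp g t → Gp (fun z => om * g z) (fun w => om * t w)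
  | rf {g t : ℂ → ℂ} : Gp g t → Gp (fun z => s0 (g z)) (fun w => -bt - conj (t w))

/-- the Ahlfors-Grunsky function, axiomatised -/
structure AGF (F : ℂ → ℂ) : Prop where
  diff : DifferentiableOn ℂ F (ball 0 1)
  zero : F 0 = 0
  one : deriv F 0 = 1
  cj : ∀ z ∈ ball (0:ℂ) 1, F (conj z) = conj (F z)
  rt : ∀ z ∈ ball (0:ℂ) 1, F (om * z) = om * F z
  rf : ∀ z ∈ ball (0:ℂ) 1, F (s0 z) = -bt - conj (F z)
  inj : InjOn F Tri
  img : F '' Tri = Del
  vert : F rv = bt
  reg : ∀ z ∈ Tri, (∀ k : ℕ, z ≠ rv * om^k) → deriv F z ≠ 0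
  crit : deriv F rv = 0
  crit2 : deriv (deriv F) rv ≠ 0

/-- the vertices of the tessellation -/
def Vert : Set ℂ := {v | ∃ g t : ℂ → ℂ, Gp g t ∧ g rv = v}

/-- the first variation of the circumradius of the face of `g` under the displacement `c` -/
def LL (t g c : ℂ → ℂ) : ℝ :=
  (1/3) * ∑ k ∈ Finset.range 3, (conj (t (om^k) - t 0) * c (g (rv * om^k))).re

/-- the first clause of the conjecture -/
def HypH : Prop := ∀ f : ℂ → ℂ, DifferentiableOn ℂ f (ball (0:ℂ) 1) → f 0 = 0 → deriv f 0 = 1 →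
  ∀ r : ℝ, r < bt → ∃ S : Set ℂ, S ⊆ ball (0:ℂ) 1 ∧ IsOpen S ∧ IsConnected S ∧ InjOn f S ∧
    ∃ w : ℂ, ball w r ⊆ f '' S

/-- motions of the plane with their linear part -/
def EM (t : ℂ → ℂ) : Prop := ∃ ζ l : ℂ, ‖ζ‖ = 1 ∧ ((∀ w, t w = ζ * w + l) ∨ (∀ w, t w = ζ * conj w + l))

/-- slit plane for the variable of the hypergeometric functions: complement of [1, infinity) -/
def SD : Set ℂ := {y | y.im ≠ 0 ∨ y.re < 1}

/-- Euler integral -/
def EI (a b d : ℝ) (y : ℂ) : ℂ :=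
  ∫ t in (0:ℝ)..1, ((t^(b-1) * (1-t)^(d-1) : ℝ) : ℂ) * (1 - t*y)^(-a : ℂ)

def f1 (y : ℂ) : ℂ := EI (5/12) (1/12) (7/12) y / EI (5/12) (1/12) (7/12) 0
def f2 (y : ℂ) : ℂ := EI (5/12) (3/4) (7/12) y / EI (5/12) (3/4) (7/12) 0
def f3 (y : ℂ) : ℂ := EI (2/3) (1/3) 1 y / EI (2/3) (1/3) 1 0

/-- the scaling constant -/
def cc : ℝ := 3 * bt * Real.Gamma (2/3) / Real.Gamma (1/3)^2

/-- conformal map of the disc onto the hyperbolic triangle -/
def zz (x : ℂ) : ℂ := cc * x * f2 (x^3) / f1 (x^3)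

/-- conformal map of the disc onto the Euclidean triangle -/
def ww (x : ℂ) : ℂ := cc * x * f3 (x^3)

/-- sign of `ell z` tells the side of the geodesic through the midpoints of two sides -/
def ell (z : ℂ) : ℝ := 4*aa*z.re - 1 - ‖z‖^2

open Classical in
/-- the null field -/
def c0 (z : ℂ) : ℂ := if 0 < ell z then I else 0

end AG
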