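import Pool.Agent.Bloch.Gp

set_option autoImplicit false

noncomputable section

namespace AG

open Complex Metric Set
open scoped ComplexConjugate

theorem face_aux1 {A B x : ℂ} (hAB : ‖A‖^2 - ‖B‖^2 = 1) (hx : ‖x‖ < 1) :
    1 - ‖(A * x + B) / (conj B * x + conj A)‖^2 = (1 - ‖x‖^2) / ‖conj B * x + conj A‖^2 := by
  have h1 := gp_aux_lt hAB hx
  have h0 : ‖conj B * x + conj A‖^2 ≠ 0 := by positivity
  have h2 : ‖conj B * x + conj A‖^2 - ‖A * x + B‖^2 = (‖A‖^2 - ‖B‖^2) * (1 - ‖x‖^2) := by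
    simp only [Complex.sq_norm, Complex.normSq_apply]
    simp
    ring
  rw [hAB, one_mul] at h2
  rw [norm_div, div_pow, ← h2, sub_div, div_self h0]

theorem face_aux2 {A B : ℂ} (hAB : ‖A‖^2 - ‖B‖^2 = 1) : 0 < ‖A‖ ∧ ‖B‖ ≤ ‖A‖ := by
  have h1 := norm_nonneg A
  have h2 := norm_nonneg B
  constructor
  · by_contra h
    have h3 : ‖A‖ = 0 := by linarith
    rw [h3] at hAB
    nlinarith
  · nlinarith

theorem face_aux3 {A B x : ℂ} {R : ℝ} (hAB : ‖A‖^2 - ‖B‖^2 = 1) (hR : R < 1) (hx : ‖x‖ ≤ R) :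
    ‖A‖ * (1 - R) ≤ ‖conj B * x + conj A‖ ∧ ‖conj B * x + conj A‖ ≤ 2 * ‖A‖ := by
  obtain ⟨h1, h2⟩ := face_aux2 hAB
  have h3 : ‖conj B * x‖ ≤ ‖A‖ * R := by
    rw [norm_mul, Complex.norm_conj]
    exact mul_le_mul h2 hx (norm_nonneg _) h1.le
  have h4 : ‖conj A‖ = ‖A‖ := Complex.norm_conj A
  constructor
  · have h5 : ‖conj A‖ ≤ ‖conj B * x + conj A‖ + ‖conj B * x‖ := by
      calc ‖conj A‖ = ‖(conj B * x + conj A) - conj B * x‖ := by congr 1; ring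
        _ ≤ _ := norm_sub_le _ _
    rw [h4] at h5
    linarith
  · calc ‖conj B * x + conj A‖ ≤ ‖conj B * x‖ + ‖conj A‖ := norm_add_le _ _
      _ ≤ ‖A‖ * R + ‖A‖ := by rw [h4]; linarith
      _ ≤ 2 * ‖A‖ := by nlinarith

theorem face_aux4 {A B : ℂ} {R : ℝ} (hAB : ‖A‖^2 - ‖B‖^2 = 1) (h0 : 0 ≤ R) (hR : R < 1)
    {g : ℂ → ℂ} {x y : ℂ} (hx : ‖x‖ ≤ R) (hy : ‖y‖ ≤ R) {z z' : ℂ}
    (hg : g z = (A * x + B) / (conj B * x + conj A))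
    (hg' : g z' = (A * y + B) / (conj B * y + conj A)) :
    (1 - R^2) / (4 * ‖A‖^2) ≤ 1 - ‖g z‖^2 ∧ 1 - ‖g z'‖^2 ≤ 1 / ((1 - R)^2 * ‖A‖^2) ∧
      ‖g z' - g z‖ ≤ 2 / ((1 - R)^2 * ‖A‖^2) := by
  obtain ⟨hA, hBA⟩ := face_aux2 hAB
  have hx1 : ‖x‖ < 1 := hx.trans_lt hR
  have hy1 : ‖y‖ < 1 := hy.trans_lt hR
  obtain ⟨hx2, hx3⟩ := face_aux3 hAB hR hx
  obtain ⟨hy2, hy3⟩ := face_aux3 hAB hR hy
  have hR' : 0 < 1 - R := by linarith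
  have hL : 0 < ‖A‖ * (1 - R) := mul_pos hA hR'
  have hDx : 0 < ‖conj B * x + conj A‖ := hL.trans_le hx2
  have hDy : 0 < ‖conj B * y + conj A‖ := hL.trans_le hy2
  have hDx0 := norm_pos_iff.1 hDx
  have hDy0 := norm_pos_iff.1 hDy
  have hx4 : ‖x‖^2 ≤ R^2 := pow_le_pow_left₀ (norm_nonneg _) hx 2
  refine ⟨?_, ?_, ?_⟩
  · rw [hg, face_aux1 hAB hx1]
    apply div_le_div₀
    · nlinarith
    · linarith
    · positivity
    · calc ‖conj B * x + conj A‖^2 ≤ (2 * ‖A‖)^2 := pow_le_pow_left₀ hDx.le hx3 2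
        _ = 4 * ‖A‖^2 := by ring
  · rw [hg', face_aux1 hAB hy1]
    apply div_le_div₀
    · norm_num
    · nlinarith [sq_nonneg ‖y‖]
    · positivity
    · calc (1 - R)^2 * ‖A‖^2 = (‖A‖ * (1 - R))^2 := by ring
        _ ≤ _ := pow_le_pow_left₀ hL.le hy2 2
  · have e : g z' - g z = (y - x) / ((conj B * y + conj A) * (conj B * x + conj A)) := by
      rw [hg, hg', div_sub_div _ _ hDy0 hDx0]
      congr 1
      have h1 : A * conj A - B * conj B = 1 := by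
        rw [Complex.mul_conj, Complex.mul_conj]
        rw [Complex.sq_norm, Complex.sq_norm] at hAB
        exact_mod_cast hAB
      linear_combination (y - x) * h1
    rw [e, norm_div, norm_mul]
    apply div_le_div₀
    · norm_num
    · calc ‖y - x‖ ≤ ‖y‖ + ‖x‖ := norm_sub_le _ _
        _ ≤ 2 := by linarith
    · positivity
    · calc (1 - R)^2 * ‖A‖^2 = (‖A‖ * (1 - R)) * (‖A‖ * (1 - R)) := by ring
        _ ≤ _ := mul_le_mul hy2 hx2 hL.le hDy.le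

theorem face_aux5 {R : ℝ} (h0 : 0 ≤ R) (hR : R < 1) {g t : ℂ → ℂ} (h : Gp g t) :
    ∃ N : ℝ, 0 < N ∧ ∀ z z' : ℂ, ‖z‖ ≤ R → ‖z'‖ ≤ R →
      (1 - R^2) / (4 * N) ≤ 1 - ‖g z‖^2 ∧ 1 - ‖g z'‖^2 ≤ 1 / ((1 - R)^2 * N) ∧
      ‖g z' - g z‖ ≤ 2 / ((1 - R)^2 * N) := by
  obtain ⟨A, B, ζ, l, hAB, hζ, h1⟩ := h.form
  obtain ⟨hA, hBA⟩ := face_aux2 hAB
  refine ⟨‖A‖^2, by positivity, fun z z' hz hz' => ?_⟩
  have hz1 : z ∈ ball (0:ℂ) 1 := by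
    rw [mem_ball_zero_iff]
    exact hz.trans_lt hR
  have hz1' : z' ∈ ball (0:ℂ) 1 := by
    rw [mem_ball_zero_iff]
    exact hz'.trans_lt hR
  rcases h1 with ⟨h1, -⟩ | ⟨h1, -⟩
  · exact face_aux4 hAB h0 hR hz hz' (h1 z hz1) (h1 z' hz1')
  · exact face_aux4 hAB h0 hR (by rwa [Complex.norm_conj]) (by rwa [Complex.norm_conj])
      (h1 z hz1) (h1 z' hz1')

/-- Harnack type comparison on one face -/
theorem face_comp (R : ℝ) (hR : R < 1) : ∃ K > 0, ∀ g t : ℂ → ℂ, Gp g t → ∀ z z' : ℂ, ‖z‖ ≤ R →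
    ‖z'‖ ≤ R → 1 - ‖g z'‖^2 ≤ K * (1 - ‖g z‖^2) := by
  rcases lt_or_ge R 0 with h0 | h0
  · exact ⟨1, one_pos, fun g t _ z z' hz _ => absurd (norm_nonneg z) (by linarith)⟩
  · have hR' : 0 < 1 - R := by linarith
    have hR2 : 0 < 1 - R^2 := by nlinarith
    refine ⟨4 / ((1 - R)^2 * (1 - R^2)), by positivity, fun g t h z z' hz hz' => ?_⟩
    obtain ⟨N, hN, h1⟩ := face_aux5 h0 hR h
    obtain ⟨h2, h3, h4⟩ := h1 z z' hz hz'
    calc 1 - ‖g z'‖^2 ≤ 1 / ((1 - R)^2 * N) := h3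
      _ = 4 / ((1 - R)^2 * (1 - R^2)) * ((1 - R^2) / (4 * N)) := by
          field_simp
      _ ≤ _ := mul_le_mul_of_nonneg_left h2 (by positivity)

/-- diameter of a face -/
theorem face_diam (R : ℝ) (hR : R < 1) : ∃ K > 0, ∀ g t : ℂ → ℂ, Gp g t → ∀ z z' : ℂ, ‖z‖ ≤ R →
    ‖z'‖ ≤ R → ‖g z' - g z‖ ≤ K * (1 - ‖g z‖^2) := by
  rcases lt_or_ge R 0 with h0 | h0
  · exact ⟨1, one_pos, fun g t _ z z' hz _ => absurd (norm_nonneg z) (by linarith)⟩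
  · have hR' : 0 < 1 - R := by linarith
    have hR2 : 0 < 1 - R^2 := by nlinarith
    refine ⟨8 / ((1 - R)^2 * (1 - R^2)), by positivity, fun g t h z z' hz hz' => ?_⟩
    obtain ⟨N, hN, h1⟩ := face_aux5 h0 hR h
    obtain ⟨h2, h3, h4⟩ := h1 z z' hz hz'
    calc ‖g z' - g z‖ ≤ 2 / ((1 - R)^2 * N) := h4
      _ = 8 / ((1 - R)^2 * (1 - R^2)) * ((1 - R^2) / (4 * N)) := by
          field_simp
          norm_num
      _ ≤ _ := mul_le_mul_of_nonneg_left h2 (by positivity)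

end AG
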