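import Pool.Agent.Bloch.Defs

set_option autoImplicit false

noncomputable section

namespace AG

open Complex Metric Set
open scoped ComplexConjugate

/-! ## module PHI (imports Mathlib only): reparametrisation of the outer annulus -/

/-- a banach type surjectivity statement -/
theorem phi_surj (φ : ℂ → ℂ) (w : ℂ) (R c : ℝ) (hR : 0 ≤ R) (hc : 0 ≤ c)
    (hL : ∀ x ∈ closedBall w R, ∀ y ∈ closedBall w R, ‖φ x - φ y - (x - y)‖ ≤ c * ‖x - y‖)
    (hw : ‖w - φ w‖ ≤ (1 - c) * R) : ∃ z ∈ closedBall w R, φ z = w := by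
  have happ : ApproximatesLinearOn φ ((ContinuousLinearEquiv.refl ℂ ℂ : ℂ ≃L[ℂ] ℂ) : ℂ →L[ℂ] ℂ)
      (closedBall w R) ⟨c, hc⟩ := by
    intro x hx y hy
    exact hL x hx y hy
  have hs := happ.surjOn_closedBall_of_nonlinearRightInverse
    (ContinuousLinearEquiv.refl ℂ ℂ : ℂ ≃L[ℂ] ℂ).toNonlinearRightInverse hR (b := w)
    Subset.rfl
  have hnn : (((ContinuousLinearEquiv.refl ℂ ℂ : ℂ ≃L[ℂ] ℂ).toNonlinearRightInverse.nnnorm : NNReal)
      : ℝ) = 1 := by
    show ‖((ContinuousLinearEquiv.refl ℂ ℂ).symm : ℂ →L[ℂ] ℂ)‖ = 1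
    simp
  have hmem : w ∈ closedBall (φ w)
      ((((ContinuousLinearEquiv.refl ℂ ℂ : ℂ ≃L[ℂ] ℂ).toNonlinearRightInverse.nnnorm : ℝ)⁻¹ -
        ((⟨c, hc⟩ : NNReal) : ℝ)) * R) := by
    rw [mem_closedBall, dist_eq_norm, hnn]
    simpa using hw
  obtain ⟨z, hz, hzw⟩ := hs hmem
  exact ⟨z, hz, hzw⟩

def phiA (a : ℝ) : Set ℂ := {z | a < ‖z‖ ∧ ‖z‖ < 1/a}
def phiN (a : ℝ) : Set ℂ := {z | a ≤ ‖z‖ ∧ ‖z‖ ≤ 1/a}

theorem phiA_open (a : ℝ) : IsOpen (phiA a) :=
  (isOpen_lt continuous_const continuous_norm).inter (isOpen_lt continuous_norm continuous_const)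

theorem phiN_compact (a : ℝ) : IsCompact (phiN a) := by
  have h : phiN a = {z : ℂ | a ≤ ‖z‖} ∩ closedBall 0 (1/a) := by
    ext z
    simp [phiN]
  rw [h]
  exact (isCompact_closedBall _ _).inter_left (isClosed_le continuous_const continuous_norm)

theorem phiN_sub {a b : ℝ} (ha : 0 < a) (hab : a < b) : phiN b ⊆ phiA a := by
  intro z hz
  refine ⟨lt_of_lt_of_le hab hz.1, lt_of_le_of_lt hz.2 ?_⟩
  exact one_div_lt_one_div_of_lt ha hab

theorem phi_bd (W : ℂ → ℂ) {ρ ρb : ℝ} (h0 : 0 < ρ) (h1 : ρ < ρb)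
    (hW : DifferentiableOn ℂ W (phiA ρ)) : ∃ M : ℝ, 1 ≤ M ∧ ∀ z ∈ phiN ρb,
      ‖W z‖ ≤ M ∧ ‖deriv W z‖ ≤ M := by
  have hsub := phiN_sub h0 h1
  obtain ⟨M1, hM1⟩ := (phiN_compact ρb).exists_bound_of_continuousOn (hW.continuousOn.mono hsub)
  obtain ⟨M2, hM2⟩ := (phiN_compact ρb).exists_bound_of_continuousOn
    ((hW.deriv (phiA_open ρ)).continuousOn.mono hsub)
  refine ⟨max 1 (max M1 M2), le_max_left _ _, fun z hz => ⟨?_, ?_⟩⟩
  · exact (hM1 z hz).trans ((le_max_left _ _).trans (le_max_right _ _))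
  · exact (hM2 z hz).trans ((le_max_right _ _).trans (le_max_right _ _))

/-- real part of `W` near the circle -/
theorem phi_re (W : ℂ → ℂ) {ρ ρa M : ℝ} (h0 : 0 < ρ) (h1 : ρ < ρa) (h2 : ρa < 1)
    (hW : DifferentiableOn ℂ W (phiA ρ)) (htan : ∀ z, ‖z‖ = 1 → (W z).re = 0)
    (hM : ∀ z ∈ phiN ρa, ‖deriv W z‖ ≤ M) {z : ℂ} (hz : z ∈ phiN ρa) :
    |(W z).re| ≤ M * |‖z‖ - 1| := by
  have ha : 0 < ρa := h0.trans h1
  have hz0 : 0 < ‖z‖ := ha.trans_le hz.1
  have hzne : (‖z‖ : ℂ) ≠ 0 := by exact_mod_cast hz0.ne'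
  set u : ℂ := z / ‖z‖ with hu
  have hu1 : ‖u‖ = 1 := by
    rw [hu, norm_div, Complex.norm_real, norm_norm, div_self hz0.ne']
  have hzu : z = ‖z‖ * u := by
    rw [hu]; field_simp
  have hinv : 1 ≤ 1/ρa := by
    rw [le_div_iff₀ ha]; linarith
  have hseg : segment ℝ u z ⊆ phiN ρa := by
    rintro p ⟨a, b, ha0, hb0, hab, rfl⟩
    have hp : a • u + b • z = ((a + b * ‖z‖ : ℝ) : ℂ) * u := by
      rw [real_smul, real_smul]
      conv_lhs => rw [hzu]
      push_cast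
      ring
    have hn : ‖a • u + b • z‖ = a + b * ‖z‖ := by
      rw [hp, norm_mul, hu1, mul_one, Complex.norm_real, Real.norm_eq_abs, abs_of_nonneg]
      positivity
    refine ⟨?_, ?_⟩
    · rw [hn]
      have : a = 1 - b := by linarith
      have h3 := hz.1
      nlinarith
    · rw [hn]
      have h3 := hz.2
      have h4 : a * 1 + b * ‖z‖ ≤ a * (1/ρa) + b * (1/ρa) :=
        add_le_add (mul_le_mul_of_nonneg_left hinv ha0) (mul_le_mul_of_nonneg_left h3 hb0)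
      have h5 : a * (1/ρa) + b * (1/ρa) = 1/ρa := by rw [← add_mul, hab, one_mul]
      linarith
  have hd : ∀ x ∈ segment ℝ u z, DifferentiableAt ℂ W x := fun x hx =>
    hW.differentiableAt ((phiA_open ρ).mem_nhds (phiN_sub h0 h1 (hseg hx)))
  have hmv := (convex_segment u z).norm_image_sub_le_of_norm_deriv_le hd
    (fun x hx => hM x (hseg hx)) (left_mem_segment ℝ u z) (right_mem_segment ℝ u z)
  have h3 : ‖z - u‖ = |‖z‖ - 1| := by
    have : z - u = ((‖z‖ - 1 : ℝ) : ℂ) * u := by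
      conv_lhs => rw [hzu]
      push_cast
      ring
    rw [this, norm_mul, hu1, mul_one, Complex.norm_real, Real.norm_eq_abs]
  rw [h3] at hmv
  have h4 : (W z).re = (W z - W u).re := by
    rw [sub_re, htan u hu1, sub_zero]
  rw [h4]
  exact (abs_re_le_norm _).trans hmv

theorem phi_norm_lt {M ε x r : ℝ} (hε : 0 < ε) (hM : 0 ≤ M) (hεM : ε * M ≤ 1) (hr0 : 0 < r) (hr1 : r < 1)
    (hx : |x| ≤ M * |r - 1|) : r * Real.exp (ε * x) < 1 := by
  have h1 : |r - 1| = 1 - r := by rw [abs_of_neg (by linarith)]; ring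
  rw [h1] at hx
  have h2 : ε * x ≤ 1 - r := by
    calc ε * x ≤ ε * (M * (1 - r)) := mul_le_mul_of_nonneg_left ((le_abs_self x).trans hx) hε.le
      _ = (ε * M) * (1 - r) := by ring
      _ ≤ 1 * (1 - r) := mul_le_mul_of_nonneg_right hεM (by linarith)
      _ = 1 - r := one_mul _
  have h3 : r < Real.exp (-(1 - r)) := by
    have := Real.add_one_lt_exp (x := -(1-r)) (by linarith)
    linarith
  calc r * Real.exp (ε * x) ≤ r * Real.exp (1 - r) :=
        mul_le_mul_of_nonneg_left (Real.exp_le_exp.2 h2) hr0.le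
    _ < Real.exp (-(1 - r)) * Real.exp (1 - r) := mul_lt_mul_of_pos_right h3 (Real.exp_pos _)
    _ = 1 := by rw [← Real.exp_add]; simp

theorem phi_norm_ge {M ε x r ρa : ℝ} (hε : 0 < ε) (hM : 0 ≤ M) (ha : 0 < ρa) (hεM : ε * M ≤ ρa)
    (hr1 : 1 ≤ r) (hr2 : r ≤ 1/ρa)
    (hx : |x| ≤ M * |r - 1|) : 1 ≤ r * Real.exp (ε * x) := by
  have h1 : |r - 1| = r - 1 := abs_of_nonneg (by linarith)
  rw [h1] at hx
  have h2 : -(ε * M * (r - 1)) ≤ ε * x := by
    have h3 := (abs_le.1 hx).1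
    have h4 := mul_le_mul_of_nonneg_left h3 hε.le
    linarith
  have h3 : 1 - ε * M * (r-1) ≤ Real.exp (-(ε * M * (r - 1))) := by
    have := Real.add_one_le_exp (-(ε * M * (r-1)))
    linarith
  have h4 : ε * M * r ≤ 1 := by
    calc ε * M * r ≤ ρa * (1/ρa) := mul_le_mul hεM hr2 (by linarith) ha.le
      _ = 1 := by field_simp
  have h5 : 1 ≤ r * (1 - ε * M * (r - 1)) := by
    have : r * (1 - ε * M * (r - 1)) = r - (ε * M * r) * (r - 1) := by ring
    rw [this]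
    have := mul_le_mul_of_nonneg_right h4 (show 0 ≤ r - 1 by linarith)
    linarith
  refine h5.trans (mul_le_mul_of_nonneg_left ?_ (by linarith))
  exact h3.trans (Real.exp_le_exp.2 h2)

/-- bounds for the displacement -/
theorem phi_disp (W : ℂ → ℂ) {ρ ρa : ℝ} (h0 : 0 < ρ) (h1 : ρ < ρa) (h2 : ρa < 1)
    (hW : DifferentiableOn ℂ W (phiA ρ)) : ∃ M C L : ℝ, 1 ≤ M ∧ 1 ≤ C ∧ 1 ≤ L ∧
      (∀ z ∈ phiN ρa, ‖W z‖ ≤ M ∧ ‖deriv W z‖ ≤ M) ∧ ∀ ε : ℝ, 0 < ε → ε * M ≤ 1 →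
      (∀ z ∈ phiN ρa, ‖z * exp (ε * W z) - z‖ ≤ C * ε) ∧
      ∀ x ∈ phiN ρa, ∀ y ∈ phiN ρa,
        ‖(x * exp (ε * W x) - x) - (y * exp (ε * W y) - y)‖ ≤ L * ε * ‖x - y‖ := by
  set ρb : ℝ := (ρ + ρa) / 2 with hρb
  have hb0 : 0 < ρb := by rw [hρb]; linarith
  have hb1 : ρ < ρb := by rw [hρb]; linarith
  have hb2 : ρb < ρa := by rw [hρb]; linarith
  have ha : 0 < ρa := h0.trans h1
  obtain ⟨M, hM1, hM⟩ := phi_bd W h0 hb1 hW
  have hM0 : 0 < M := by linarith
  have hNN : phiN ρa ⊆ phiN ρb := by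
    intro z hz
    exact ⟨hb2.le.trans hz.1, hz.2.trans (one_div_le_one_div_of_le hb0 hb2.le)⟩
  obtain ⟨C1, hC1⟩ : ∃ C1 : ℝ, C1 = 2 * M + 3 * M / ρb := ⟨_, rfl⟩
  have hC1pos : 1 ≤ C1 := by
    have : 0 < 3 * M / ρb := by positivity
    rw [hC1]; linarith
  obtain ⟨c0, hc0⟩ : ∃ c0 : ℝ, c0 = min (ρa - ρb) (1/ρb - 1/ρa) := ⟨_, rfl⟩
  have hc0pos : 0 < c0 := by
    rw [hc0]
    refine lt_min (by linarith) ?_
    have := one_div_lt_one_div_of_lt hb0 hb2
    linarith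
  have hL1 : 1 ≤ C1 + 2 * C1 / c0 := by
    have : 0 < 2 * C1 / c0 := by positivity
    linarith
  refine ⟨M, C1, C1 + 2 * C1 / c0, hM1, hC1pos, hL1, fun z hz => hM z (hNN hz), ?_⟩
  intro ε hε hεM
  have hsmall : ∀ z ∈ phiN ρb, ‖(ε:ℂ) * W z‖ ≤ ε * M := by
    intro z hz
    rw [norm_mul, Complex.norm_real, Real.norm_eq_abs, abs_of_pos hε]
    exact mul_le_mul_of_nonneg_left (hM z hz).1 hε.le
  have hexp1 : ∀ z ∈ phiN ρb, ‖exp (ε * W z) - 1‖ ≤ 2 * (ε * M) := by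
    intro z hz
    refine (norm_exp_sub_one_le ((hsmall z hz).trans hεM)).trans ?_
    linarith [hsmall z hz]
  have hexp3 : ∀ z ∈ phiN ρb, ‖exp (ε * W z)‖ ≤ 3 := by
    intro z hz
    have h3 := hexp1 z hz
    calc ‖exp (ε * W z)‖ = ‖(exp (ε * W z) - 1) + 1‖ := by ring_nf
      _ ≤ ‖exp (ε * W z) - 1‖ + ‖(1:ℂ)‖ := norm_add_le _ _
      _ ≤ 3 := by rw [norm_one]; linarith
  have hdisp : ∀ z ∈ phiN ρb, ‖z * exp (ε * W z) - z‖ ≤ C1 * ε := by
    intro z hz
    have h3 : z * exp (ε * W z) - z = z * (exp (ε * W z) - 1) := by ring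
    rw [h3, norm_mul]
    have h4 : ‖z‖ * ‖exp (ε * W z) - 1‖ ≤ (1/ρb) * (2 * (ε * M)) :=
      mul_le_mul hz.2 (hexp1 z hz) (norm_nonneg _) (by positivity)
    refine h4.trans ?_
    rw [hC1]
    have h5 : (1/ρb) * (2 * (ε * M)) = (2 * M / ρb) * ε := by ring
    rw [h5]
    apply mul_le_mul_of_nonneg_right _ hε.le
    have h6 : 2 * M / ρb ≤ 3 * M / ρb := by
      apply div_le_div_of_nonneg_right _ hb0.le
      linarith
    linarith
  refine ⟨fun z hz => hdisp z (hNN hz), ?_⟩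
  intro x hx y hy
  by_cases hxy : ‖x - y‖ < c0
  · -- convex piece
    have hball : ball x c0 ⊆ phiN ρb := by
      intro z hz
      rw [mem_ball, dist_eq_norm] at hz
      have h3 : ‖x‖ - ‖z‖ ≤ ‖z - x‖ := by
        have := norm_sub_norm_le x z
        rwa [norm_sub_rev] at this
      have h4 : ‖z‖ - ‖x‖ ≤ ‖z - x‖ := norm_sub_norm_le z x
      have h5 : c0 ≤ ρa - ρb := by rw [hc0]; exact min_le_left _ _
      have h6 : c0 ≤ 1/ρb - 1/ρa := by rw [hc0]; exact min_le_right _ _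
      have h7 := hx.1
      have h8 := hx.2
      exact ⟨by linarith, by linarith⟩
    have hderiv : ∀ z ∈ ball x c0, HasDerivWithinAt (fun z => z * exp (ε * W z) - z)
        ((1 * exp (ε * W z) + z * (exp (ε * W z) * (ε * deriv W z))) - 1) (ball x c0) z := by
      intro z hz
      have hWz : HasDerivAt W (deriv W z) z :=
        (hW.differentiableAt ((phiA_open ρ).mem_nhds (phiN_sub h0 hb1 (hball hz)))).hasDerivAt
      have h3 := ((hWz.const_mul (ε:ℂ)).cexp)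
      exact (((hasDerivAt_id z).mul h3).sub (hasDerivAt_id z)).hasDerivWithinAt
    have hbound : ∀ z ∈ ball x c0,
        ‖(1 * exp (ε * W z) + z * (exp (ε * W z) * (ε * deriv W z))) - 1‖ ≤ C1 * ε := by
      intro z hz
      have hzb := hball hz
      have h3 : (1 * exp (ε * W z) + z * (exp (ε * W z) * (ε * deriv W z))) - 1 =
          (exp (ε * W z) - 1) + z * (exp (ε * W z) * (ε * deriv W z)) := by ring
      rw [h3]
      refine (norm_add_le _ _).trans ?_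
      have h4 : ‖z * (exp (ε * W z) * (ε * deriv W z))‖ ≤ (1/ρb) * (3 * (ε * M)) := by
        rw [norm_mul, norm_mul, norm_mul, Complex.norm_real, Real.norm_eq_abs, abs_of_pos hε]
        refine mul_le_mul hzb.2 ?_ (by positivity) (by positivity)
        refine mul_le_mul (hexp3 z hzb) ?_ (by positivity) (by norm_num)
        exact mul_le_mul_of_nonneg_left (hM z hzb).2 hε.le
      have h5 := hexp1 z hzb
      have h6 : C1 * ε = 2 * (ε * M) + (1/ρb) * (3 * (ε * M)) := by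
        rw [hC1]; ring
      rw [h6]
      exact add_le_add h5 h4
    have hmv := Convex.norm_image_sub_le_of_norm_hasDerivWithin_le hderiv hbound
      (convex_ball x c0) (x := y) (y := x)
      (by rw [mem_ball, dist_eq_norm, norm_sub_rev]; exact hxy) (mem_ball_self hc0pos)
    refine hmv.trans ?_
    apply mul_le_mul_of_nonneg_right _ (norm_nonneg _)
    apply mul_le_mul_of_nonneg_right _ hε.le
    have : 0 < 2 * C1 / c0 := by positivity
    linarith
  · push Not at hxy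
    have h3 := hdisp x (hNN hx)
    have h4 := hdisp y (hNN hy)
    calc ‖(x * exp (ε * W x) - x) - (y * exp (ε * W y) - y)‖
        ≤ ‖x * exp (ε * W x) - x‖ + ‖y * exp (ε * W y) - y‖ := norm_sub_le _ _
      _ ≤ 2 * C1 * ε := by linarith
      _ = (2 * C1 / c0) * ε * c0 := by field_simp
      _ ≤ (2 * C1 / c0) * ε * ‖x - y‖ := mul_le_mul_of_nonneg_left hxy (by positivity)
      _ ≤ _ := by
        apply mul_le_mul_of_nonneg_right _ (norm_nonneg _)
        apply mul_le_mul_of_nonneg_right _ hε.le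
        linarith

theorem phi_exists (V : ℂ → ℂ) {ρ ρa : ℝ} (h0 : 0 < ρ) (h1 : ρ < ρa) (h2 : ρa < 1)
    (hV : DifferentiableOn ℂ V {z | ρ < ‖z‖ ∧ ‖z‖ < 1/ρ})
    (htan : ∀ z, ‖z‖ = 1 → (V z * conj z).re = 0) :
    ∃ ε0 > 0, ∃ C > 0, ∀ ε : ℝ, 0 < ε → ε < ε0 → ∃ φ : ℂ → ℂ,
      DifferentiableOn ℂ φ {z | ρa < ‖z‖ ∧ ‖z‖ < 1} ∧
      (∀ z, ρa < ‖z‖ → ‖z‖ < 1 → ‖φ z‖ < 1 ∧ ‖φ z - z‖ ≤ C * ε ∧ ‖φ z - z - ε * V z‖ ≤ C * ε^2) ∧
      InjOn φ {z | ρa < ‖z‖ ∧ ‖z‖ < 1} ∧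
      (∀ w, ρa + C * ε < ‖w‖ → ‖w‖ < 1 → ∃ z, ρa < ‖z‖ ∧ ‖z‖ < 1 ∧ φ z = w) := by
  have ha : 0 < ρa := h0.trans h1
  have hinv : 1 < 1/ρa := by
    rw [lt_div_iff₀ ha]; linarith
  set W : ℂ → ℂ := fun z => V z / z with hWdef
  have hW : DifferentiableOn ℂ W (phiA ρ) := by
    refine hV.div differentiableOn_id ?_
    intro z hz
    have : 0 < ‖z‖ := h0.trans hz.1
    exact norm_pos_iff.1 this
  have htW : ∀ z, ‖z‖ = 1 → (W z).re = 0 := by
    intro z hz
    have hzz : z * conj z = 1 := by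
      rw [mul_conj, normSq_eq_norm_sq, hz]; norm_num
    have hz0 : z ≠ 0 := by
      intro h
      rw [h, norm_zero] at hz
      exact zero_ne_one hz
    have : W z = V z * conj z := by
      rw [hWdef]
      simp only
      rw [div_eq_iff hz0, mul_assoc, mul_comm (conj z) z, hzz, mul_one]
    rw [this]
    exact htan z hz
  obtain ⟨M, C1, L, hM1, hC1, hL1, hM, hdisp⟩ := phi_disp W h0 h1 h2 hW
  have hM0 : 0 < M := by linarith
  have hC10 : 0 < C1 := by linarith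
  have hL0 : 0 < L := by linarith
  refine ⟨min (ρa / M) (min (1/(2*L)) ((1/ρa - 1)/(2*C1))), ?_, 2 * C1 + M^2, by positivity, ?_⟩
  · refine lt_min (by positivity) (lt_min (by positivity) ?_)
    exact div_pos (by linarith) (by positivity)
  intro ε hε hεε
  have e1 : ε * M ≤ ρa := by
    have : ε < ρa / M := lt_of_lt_of_le hεε (min_le_left _ _)
    rw [lt_div_iff₀ hM0] at this
    exact this.le
  have e2 : L * ε ≤ 1/2 := by
    have : ε < 1/(2*L) := lt_of_lt_of_le hεε ((min_le_right _ _).trans (min_le_left _ _))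
    rw [lt_div_iff₀ (by positivity)] at this
    linarith
  have e3 : 2 * C1 * ε ≤ 1/ρa - 1 := by
    have : ε < (1/ρa - 1)/(2*C1) :=
      lt_of_lt_of_le hεε ((min_le_right _ _).trans (min_le_right _ _))
    rw [lt_div_iff₀ (by positivity)] at this
    linarith
  have e4 : ε * M ≤ 1 := e1.trans h2.le
  obtain ⟨hd, hLip⟩ := hdisp ε hε e4
  have hann : ∀ z : ℂ, ρa < ‖z‖ → ‖z‖ < 1 → z ∈ phiN ρa := fun z h3 h4 =>
    ⟨h3.le, h4.le.trans hinv.le⟩
  have hnorm : ∀ z : ℂ, ‖z * exp (ε * W z)‖ = ‖z‖ * Real.exp (ε * (W z).re) := by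
    intro z
    rw [norm_mul, Complex.norm_exp]
    congr 2
    simp
  refine ⟨fun z => z * exp (ε * W z), ?_, ?_, ?_, ?_⟩
  · intro z hz
    have hWz : DifferentiableAt ℂ W z :=
      hW.differentiableAt ((phiA_open ρ).mem_nhds (phiN_sub h0 h1 (hann z hz.1 hz.2)))
    exact (differentiableAt_id.mul (hWz.const_mul (ε:ℂ)).cexp).differentiableWithinAt
  · intro z hz1 hz2
    have hzN := hann z hz1 hz2
    have hz0 : 0 < ‖z‖ := ha.trans hz1
    refine ⟨?_, ?_, ?_⟩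
    · simp only
      rw [hnorm]
      exact phi_norm_lt hε hM0.le e4 hz0 hz2
        (phi_re W h0 h1 h2 hW htW (fun z hz => (hM z hz).2) hzN)
    · refine (hd z hzN).trans ?_
      apply mul_le_mul_of_nonneg_right _ hε.le
      have : 0 < M^2 := by positivity
      linarith
    · have hzne : z ≠ 0 := norm_pos_iff.1 hz0
      have h3 : z * exp (ε * W z) - z - ε * V z = z * (exp (ε * W z) - 1 - ε * W z) := by
        have : V z = z * W z := by
          rw [hWdef]; field_simp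
        rw [this]
        ring
      simp only
      rw [h3, norm_mul]
      have h4 : ‖(ε:ℂ) * W z‖ ≤ ε * M := by
        rw [norm_mul, Complex.norm_real, Real.norm_eq_abs, abs_of_pos hε]
        exact mul_le_mul_of_nonneg_left (hM z hzN).1 hε.le
      have h5 := norm_exp_sub_one_sub_id_le (h4.trans e4)
      have h6 : ‖(ε:ℂ) * W z‖^2 ≤ (ε * M)^2 := pow_le_pow_left₀ (norm_nonneg _) h4 2
      calc ‖z‖ * ‖exp (ε * W z) - 1 - ε * W z‖ ≤ 1 * (ε * M)^2 :=
            mul_le_mul hz2.le (h5.trans h6) (norm_nonneg _) (by norm_num)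
        _ = M^2 * ε^2 := by ring
        _ ≤ (2 * C1 + M^2) * ε^2 := by
          apply mul_le_mul_of_nonneg_right _ (by positivity)
          linarith
  · intro x hx y hy hxy
    simp only at hxy
    have h3 := hLip x (hann x hx.1 hx.2) y (hann y hy.1 hy.2)
    rw [hxy] at h3
    have h4 : (y * exp (ε * W y) - x) - (y * exp (ε * W y) - y) = y - x := by ring
    rw [h4, norm_sub_rev y x] at h3
    have h5 : ‖x - y‖ ≤ 1/2 * ‖x - y‖ := h3.trans (mul_le_mul_of_nonneg_right e2 (norm_nonneg _))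
    have h6 : ‖x - y‖ ≤ 0 := by linarith
    exact sub_eq_zero.1 (norm_le_zero_iff.1 h6)
  · intro w hw1 hw2
    have hM2 : 0 < M^2 := by positivity
    have hCε : 2 * C1 * ε ≤ (2 * C1 + M^2) * ε := by
      apply mul_le_mul_of_nonneg_right _ hε.le
      linarith
    have hcb : closedBall w (2 * C1 * ε) ⊆ phiN ρa := by
      intro z hz
      rw [mem_closedBall, dist_eq_norm] at hz
      have h3 : ‖w‖ - ‖z‖ ≤ ‖z - w‖ := by
        have := norm_sub_norm_le w z
        rwa [norm_sub_rev] at this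
      have h4 : ‖z‖ - ‖w‖ ≤ ‖z - w‖ := norm_sub_norm_le z w
      exact ⟨by linarith, by linarith⟩
    have hwN : w ∈ phiN ρa := hcb (mem_closedBall_self (by positivity))
    obtain ⟨z, hz, hzw⟩ := phi_surj (fun z => z * exp (ε * W z)) w (2 * C1 * ε) (1/2)
      (by positivity) (by norm_num)
      (by
        intro x hx y hy
        have h3 := hLip x (hcb hx) y (hcb hy)
        have h4 : x * exp (ε * W x) - y * exp (ε * W y) - (x - y) =
          (x * exp (ε * W x) - x) - (y * exp (ε * W y) - y) := by ring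
        rw [h4]
        exact h3.trans (mul_le_mul_of_nonneg_right e2 (norm_nonneg _)))
      (by
        have := hd w hwN
        rw [norm_sub_rev]
        linarith)
    have hzN := hcb hz
    rw [mem_closedBall, dist_eq_norm] at hz
    have h3 : ‖w‖ - ‖z‖ ≤ ‖z - w‖ := by
      have := norm_sub_norm_le w z
      rwa [norm_sub_rev] at this
    refine ⟨z, by linarith, ?_, hzw⟩
    by_contra hcon
    push Not at hcon
    have h4 := phi_norm_ge (x := (W z).re) hε hM0.le ha e1 hcon hzN.2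
      (phi_re W h0 h1 h2 hW htW (fun z hz => (hM z hz).2) hzN)
    rw [← hnorm] at h4
    rw [hzw] at h4
    linarith

end AG
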