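import Pool.Agent.Bloch.Defs

set_option autoImplicit false

noncomputable section

namespace AG

open Complex Metric Set
open scoped ComplexConjugate Topology

/-! ## module SPLIT: Laurent splitting with bounds -/

/-- A Cauchy integral is differentiable outside the circle. -/
theorem split_diff {f : ℂ → ℂ} {s : ℝ} (hs : 0 < s) (hf : ContinuousOn f (sphere 0 s)) {z0 : ℂ}
    (hz : s < ‖z0‖) : DifferentiableAt ℂ (fun z => ∮ ζ in C(0, s), (ζ - z)⁻¹ * f ζ) z0 := by
  have hcm : ∀ θ : ℝ, circleMap 0 s θ ∈ sphere (0 : ℂ) s := fun θ => circleMap_mem_sphere 0 hs.le θ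
  have hfc : Continuous (fun θ : ℝ => f (circleMap 0 s θ)) :=
    hf.comp_continuous (continuous_circleMap 0 s) hcm
  have hne : ∀ z : ℂ, s < ‖z‖ → ∀ θ : ℝ, circleMap 0 s θ - z ≠ 0 := by
    intro z hz θ h
    have h1 := hcm θ
    rw [mem_sphere_zero_iff_norm] at h1
    rw [sub_eq_zero.1 h] at h1
    linarith
  have hint : ∀ z : ℂ, s < ‖z‖ → ∀ n : ℕ, Continuous (fun θ : ℝ =>
      deriv (circleMap 0 s) θ • (((circleMap 0 s θ - z)⁻¹) ^ n * f (circleMap 0 s θ))) := by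
    intro z hz n
    have h1 : Continuous (fun θ : ℝ => deriv (circleMap 0 s) θ) := by
      have : deriv (circleMap 0 s) = fun θ => circleMap 0 s θ * I := by
        funext θ; exact deriv_circleMap 0 s θ
      rw [this]
      exact (continuous_circleMap 0 s).mul continuous_const
    have h2 : Continuous (fun θ : ℝ => (circleMap 0 s θ - z)⁻¹) :=
      ((continuous_circleMap 0 s).sub continuous_const).inv₀ (hne z hz)
    exact h1.smul ((h2.pow n).mul hfc)
  obtain ⟨M, hM⟩ : ∃ M, ∀ θ ∈ Icc (0 : ℝ) (2 * Real.pi), ‖f (circleMap 0 s θ)‖ ≤ M :=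
    (isCompact_Icc).exists_bound_of_continuousOn hfc.continuousOn
  set ε : ℝ := (‖z0‖ - s) / 2 with hε
  have hε0 : 0 < ε := by rw [hε]; linarith
  have hball : ∀ z ∈ ball z0 ε, s + ε ≤ ‖z‖ := by
    intro z hz
    rw [mem_ball, dist_eq_norm] at hz
    have h1 : ‖z0‖ ≤ ‖z0 - z‖ + ‖z‖ := by
      calc ‖z0‖ = ‖(z0 - z) + z‖ := by ring_nf
        _ ≤ _ := norm_add_le _ _
    rw [norm_sub_rev] at h1
    have h2 : ε = (‖z0‖ - s) / 2 := hε
    linarith
  have key := intervalIntegral.hasDerivAt_integral_of_dominated_loc_of_deriv_le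
    (μ := MeasureTheory.volume) (a := 0) (b := 2 * Real.pi)
    (F := fun z θ => deriv (circleMap 0 s) θ • ((circleMap 0 s θ - z)⁻¹ * f (circleMap 0 s θ)))
    (F' := fun z θ => deriv (circleMap 0 s) θ •
      (((circleMap 0 s θ - z)⁻¹) ^ 2 * f (circleMap 0 s θ)))
    (x₀ := z0) (s := ball z0 ε) (bound := fun _ => s * ((ε⁻¹) ^ 2 * M))
    (ball_mem_nhds z0 hε0)
    (by
      filter_upwards [ball_mem_nhds z0 hε0] with z hz
      have h1 := hint z (by linarith [hball z hz]) 1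
      simp only [pow_one] at h1
      exact h1.aestronglyMeasurable)
    (by
      have h1 := hint z0 hz 1
      simp only [pow_one] at h1
      exact h1.intervalIntegrable _ _)
    ((hint z0 hz 2).aestronglyMeasurable)
    (by
      refine Filter.Eventually.of_forall fun θ hθ z hz => ?_
      rw [norm_smul, norm_mul, norm_pow, deriv_circleMap, norm_mul, norm_I, mul_one]
      have h1 := hcm θ
      rw [mem_sphere_zero_iff_norm] at h1
      rw [h1]
      have h2 : ε ≤ ‖circleMap 0 s θ - z‖ := by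
        have h3 := hball z hz
        have h4 : ‖z‖ ≤ ‖circleMap 0 s θ - z‖ + ‖circleMap 0 s θ‖ := by
          calc ‖z‖ = ‖-(circleMap 0 s θ - z) + circleMap 0 s θ‖ := by ring_nf
            _ ≤ ‖-(circleMap 0 s θ - z)‖ + ‖circleMap 0 s θ‖ := norm_add_le _ _
            _ = _ := by rw [norm_neg]
        rw [h1] at h4
        linarith
      have h3 : ‖(circleMap 0 s θ - z)⁻¹‖ ≤ ε⁻¹ := by
        rw [norm_inv]
        exact inv_anti₀ hε0 h2
      have h4 : ‖f (circleMap 0 s θ)‖ ≤ M := by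
        apply hM
        rw [uIoc_of_le (by positivity)] at hθ
        exact ⟨hθ.1.le, hθ.2⟩
      have h5 : ‖(circleMap 0 s θ - z)⁻¹‖ ^ 2 ≤ (ε⁻¹) ^ 2 :=
        pow_le_pow_left₀ (norm_nonneg _) h3 2
      exact mul_le_mul_of_nonneg_left (mul_le_mul h5 h4 (norm_nonneg _) (by positivity)) hs.le)
    (continuous_const.intervalIntegrable _ _)
    (by
      refine Filter.Eventually.of_forall fun θ _ z hz => ?_
      have h0 := hne z (by linarith [hball z hz]) θ
      have h1 : HasDerivAt (fun z : ℂ => circleMap 0 s θ - z) (-1) z := by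
        simpa using (hasDerivAt_id z).const_sub (circleMap 0 s θ)
      have h2 := h1.inv h0
      have h3 : HasDerivAt (fun z : ℂ => (circleMap 0 s θ - z)⁻¹)
          (((circleMap 0 s θ - z)⁻¹) ^ 2) z := by
        refine h2.congr_deriv ?_
        rw [neg_neg, one_div, inv_pow]
      exact (h3.mul_const (f (circleMap 0 s θ))).const_smul (deriv (circleMap 0 s) θ))
  have h1 := key.2.differentiableAt
  have h2 : (fun z => ∮ ζ in C(0, s), (ζ - z)⁻¹ * f ζ) = fun z => ∫ θ in (0 : ℝ)..2 * Real.pi,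
      deriv (circleMap 0 s) θ • ((circleMap 0 s θ - z)⁻¹ * f (circleMap 0 s θ)) := rfl
  rw [h2]
  exact h1

theorem laurent_split {r1 r2 r3 r4 : ℝ} (h1 : 0 < r1) (h2 : r1 < r2) (h3 : r2 < r3) (h4 : r3 < r4) :
    ∃ C > 0, ∀ (e : ℂ → ℂ) (δ : ℝ), DifferentiableOn ℂ e {z | r1 < ‖z‖ ∧ ‖z‖ < r4} →
    (∀ z, r1 < ‖z‖ → ‖z‖ < r4 → ‖e z‖ ≤ δ) →
    ∃ e1 e2 : ℂ → ℂ, DifferentiableOn ℂ e1 (ball 0 r3) ∧ DifferentiableOn ℂ e2 {z | r2 < ‖z‖} ∧
      (∀ z ∈ ball (0:ℂ) r3, ‖e1 z‖ ≤ C * δ) ∧ (∀ z, r2 < ‖z‖ → ‖e2 z‖ ≤ C * δ) ∧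
      (∀ z, r2 < ‖z‖ → ‖z‖ < r3 → e z = e1 z + e2 z) := by
  set s2 : ℝ := (r1 + r2) / 2 with hs2
  set s3 : ℝ := (r3 + r4) / 2 with hs3
  have a1 : r1 < s2 := by rw [hs2]; linarith
  have a2 : s2 < r2 := by rw [hs2]; linarith
  have a3 : r3 < s3 := by rw [hs3]; linarith
  have a4 : s3 < r4 := by rw [hs3]; linarith
  have s2pos : 0 < s2 := h1.trans a1
  have s3pos : 0 < s3 := by linarith
  set C1 : ℝ := s3 * (s3 - r3)⁻¹ with hC1
  set C2 : ℝ := s2 * (r2 - s2)⁻¹ with hC2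
  have hC1p : 0 < C1 := mul_pos s3pos (inv_pos.2 (by linarith))
  have hC2p : 0 < C2 := mul_pos s2pos (inv_pos.2 (by linarith))
  refine ⟨max C1 C2, lt_max_of_lt_left hC1p, ?_⟩
  intro e δ he hδ
  have hA : IsOpen {z : ℂ | r1 < ‖z‖ ∧ ‖z‖ < r4} :=
    (isOpen_lt continuous_const continuous_norm).inter (isOpen_lt continuous_norm continuous_const)
  have hδ0 : 0 ≤ δ := by
    have hn : ‖(s2 : ℂ)‖ = s2 := by
      rw [Complex.norm_real, Real.norm_of_nonneg s2pos.le]
    exact (norm_nonneg _).trans (hδ (s2 : ℂ) (by rw [hn]; exact a1) (by rw [hn]; linarith))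
  have hsub2 : sphere (0 : ℂ) s2 ⊆ {z : ℂ | r1 < ‖z‖ ∧ ‖z‖ < r4} := by
    intro z hz
    rw [mem_sphere_zero_iff_norm] at hz
    exact ⟨by rw [hz]; exact a1, by rw [hz]; linarith⟩
  have hsub3 : sphere (0 : ℂ) s3 ⊆ {z : ℂ | r1 < ‖z‖ ∧ ‖z‖ < r4} := by
    intro z hz
    rw [mem_sphere_zero_iff_norm] at hz
    exact ⟨by rw [hz]; linarith, by rw [hz]; exact a4⟩
  have hc2 : ContinuousOn e (sphere 0 s2) := he.continuousOn.mono hsub2
  have hc3 : ContinuousOn e (sphere 0 s3) := he.continuousOn.mono hsub3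
  have hci3 : CircleIntegrable e 0 s3 := hc3.circleIntegrable s3pos.le
  have hpi : ‖(2 * Real.pi * I : ℂ)⁻¹‖ = (2 * Real.pi)⁻¹ := by
    rw [norm_inv, norm_mul, norm_mul, norm_I, mul_one, Complex.norm_real,
      Real.norm_of_nonneg Real.pi_pos.le]
    norm_num
  have hpi0 : (2 * Real.pi * I : ℂ) ≠ 0 := by
    simp [Real.pi_ne_zero, I_ne_zero]
  set e1 : ℂ → ℂ := fun z => (2 * Real.pi * I : ℂ)⁻¹ • ∮ ζ in C(0, s3), (ζ - z)⁻¹ • e ζ with he1
  set e2 : ℂ → ℂ := fun z => -((2 * Real.pi * I : ℂ)⁻¹ * ∮ ζ in C(0, s2), (ζ - z)⁻¹ * e ζ) with he2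
  have hbound : ∀ {s : ℝ} {d : ℝ} {z : ℂ}, 0 < s → 0 < d →
      (∀ ζ ∈ sphere (0 : ℂ) s, d ≤ ‖ζ - z‖ ∧ ‖e ζ‖ ≤ δ) →
      ‖(2 * Real.pi * I : ℂ)⁻¹ * ∮ ζ in C(0, s), (ζ - z)⁻¹ * e ζ‖ ≤ s * d⁻¹ * δ := by
    intro s d z hs hd hh
    have h5 : ‖∮ ζ in C(0, s), (ζ - z)⁻¹ * e ζ‖ ≤ 2 * Real.pi * s * (d⁻¹ * δ) := by
      apply circleIntegral.norm_integral_le_of_norm_le_const hs.le
      intro ζ hζ
      rw [norm_mul, norm_inv]
      exact mul_le_mul (inv_anti₀ hd (hh ζ hζ).1) (hh ζ hζ).2 (norm_nonneg _)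
        (inv_nonneg.2 hd.le)
    rw [norm_mul, hpi]
    calc (2 * Real.pi)⁻¹ * ‖∮ ζ in C(0, s), (ζ - z)⁻¹ * e ζ‖
        ≤ (2 * Real.pi)⁻¹ * (2 * Real.pi * s * (d⁻¹ * δ)) :=
          mul_le_mul_of_nonneg_left h5 (by positivity)
      _ = s * d⁻¹ * δ := by
          field_simp
  refine ⟨e1, e2, ?_, ?_, ?_, ?_, ?_⟩
  · -- interior Cauchy integral
    have hp := hasFPowerSeriesOn_cauchy_integral (f := e) (c := 0) (R := ⟨s3, s3pos.le⟩)
      hci3 s3pos
    have hd := hp.differentiableOn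
    refine hd.mono ?_
    intro z hz
    rw [Metric.eball_coe]
    exact ball_subset_ball a3.le hz
  · intro z hz
    have hz' : r2 < ‖z‖ := hz
    have h5 := split_diff s2pos hc2 (z0 := z) (by linarith)
    exact ((h5.const_mul _).neg).differentiableWithinAt
  · intro z hz
    rw [mem_ball_zero_iff] at hz
    have h5 := hbound (s := s3) (d := s3 - r3) (z := z) s3pos (by linarith) (by
      intro ζ hζ
      refine ⟨?_, hδ ζ (hsub3 hζ).1 (hsub3 hζ).2⟩
      rw [mem_sphere_zero_iff_norm] at hζ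
      have := norm_sub_norm_le ζ z
      rw [hζ] at this
      linarith)
    calc ‖e1 z‖ ≤ C1 * δ := h5
      _ ≤ _ := mul_le_mul_of_nonneg_right (le_max_left _ _) hδ0
  · intro z hz
    have h5 := hbound (s := s2) (d := r2 - s2) (z := z) s2pos (by linarith) (by
      intro ζ hζ
      refine ⟨?_, hδ ζ (hsub2 hζ).1 (hsub2 hζ).2⟩
      rw [mem_sphere_zero_iff_norm] at hζ
      have := norm_sub_norm_le z ζ
      rw [hζ, norm_sub_rev] at this
      linarith)
    calc ‖e2 z‖ ≤ C2 * δ := by rw [he2]; simp only; rw [norm_neg]; exact h5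
      _ ≤ _ := mul_le_mul_of_nonneg_right (le_max_right _ _) hδ0
  · intro z hz2 hz3
    have hzA : z ∈ {z : ℂ | r1 < ‖z‖ ∧ ‖z‖ < r4} := ⟨by linarith, by linarith⟩
    have hg : DifferentiableOn ℂ (dslope e z) {z : ℂ | r1 < ‖z‖ ∧ ‖z‖ < r4} :=
      (differentiableOn_dslope (hA.mem_nhds hzA)).2 he
    have hsubA : closedBall (0 : ℂ) s3 \ ball 0 s2 ⊆ {z : ℂ | r1 < ‖z‖ ∧ ‖z‖ < r4} := by
      rintro w ⟨hw1, hw2⟩
      rw [mem_closedBall_zero_iff] at hw1
      rw [mem_ball_zero_iff, not_lt] at hw2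
      exact ⟨by linarith, by linarith⟩
    have heq := circleIntegral_eq_of_differentiable_on_annulus_off_countable (c := 0) s2pos
      (by linarith : s2 ≤ s3) countable_empty (hg.continuousOn.mono hsubA) (by
        rintro w ⟨⟨hw1, hw2⟩, -⟩
        apply hg.differentiableAt
        apply hA.mem_nhds
        rw [mem_ball_zero_iff] at hw1
        rw [mem_closedBall_zero_iff, not_le] at hw2
        exact ⟨by linarith, by linarith⟩)
    -- both sides
    have hside : ∀ {s : ℝ}, 0 < s → ContinuousOn e (sphere 0 s) → (∀ ζ ∈ sphere (0 : ℂ) s, ζ ≠ z) →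
        ∮ ζ in C(0, s), dslope e z ζ = (∮ ζ in C(0, s), (ζ - z)⁻¹ * e ζ) -
          (∮ ζ in C(0, s), (ζ - z)⁻¹) * e z := by
      intro s hs hce hne
      have hinv : ContinuousOn (fun ζ : ℂ => (ζ - z)⁻¹) (sphere 0 s) :=
        (continuousOn_id.sub continuousOn_const).inv₀ (fun ζ hζ => sub_ne_zero.2 (hne ζ hζ))
      have h6 : ∮ ζ in C(0, s), dslope e z ζ
          = ∮ ζ in C(0, s), ((ζ - z)⁻¹ * e ζ - (ζ - z)⁻¹ * e z) := by
        apply circleIntegral.integral_congr hs.le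
        intro ζ hζ
        simp only
        rw [dslope_of_ne _ (hne ζ hζ), slope_def_field]
        rw [div_eq_inv_mul, mul_sub]
      have i1 : CircleIntegrable (fun ζ : ℂ => (ζ - z)⁻¹ * e ζ) 0 s :=
        (hinv.mul hce).circleIntegrable hs.le
      have i2 : CircleIntegrable (fun ζ : ℂ => (ζ - z)⁻¹ * e z) 0 s :=
        (hinv.mul continuousOn_const).circleIntegrable hs.le
      have h7 := circleIntegral.integral_smul_const (fun ζ : ℂ => (ζ - z)⁻¹) (e z) 0 s
      simp only [smul_eq_mul] at h7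
      rw [h6, circleIntegral.integral_sub i1 i2, h7]
    rw [hside s3pos hc3 (fun ζ hζ h => by
        rw [mem_sphere_zero_iff_norm, h] at hζ; linarith),
      hside s2pos hc2 (fun ζ hζ h => by
        rw [mem_sphere_zero_iff_norm, h] at hζ; linarith)] at heq
    have h8 : ∮ ζ in C(0, s3), (ζ - z)⁻¹ = 2 * Real.pi * I := by
      apply circleIntegral.integral_sub_inv_of_mem_ball
      rw [mem_ball_zero_iff]
      linarith
    have h9 : ∮ ζ in C(0, s2), (ζ - z)⁻¹ = 0 := by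
      apply circleIntegral_eq_zero_of_differentiable_on_off_countable s2pos.le countable_empty
      · apply (continuousOn_id.sub continuousOn_const).inv₀
        intro ζ hζ h
        have h' : ζ = z := sub_eq_zero.1 (by simpa using h)
        rw [mem_closedBall_zero_iff, h'] at hζ
        linarith
      · rintro ζ ⟨hζ, -⟩
        rw [mem_ball_zero_iff] at hζ
        apply DifferentiableAt.inv (differentiableAt_id.sub_const z)
        intro h
        have h' : ζ = z := sub_eq_zero.1 h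
        rw [h'] at hζ
        linarith
    rw [h8, h9, zero_mul, sub_zero] at heq
    have h10 : (2 * Real.pi * I : ℂ) * e z = (∮ ζ in C(0, s3), (ζ - z)⁻¹ * e ζ) -
        ∮ ζ in C(0, s2), (ζ - z)⁻¹ * e ζ := by
      rw [← heq]; ring
    have h11 : e z = (2 * Real.pi * I : ℂ)⁻¹ * ((∮ ζ in C(0, s3), (ζ - z)⁻¹ * e ζ) -
        ∮ ζ in C(0, s2), (ζ - z)⁻¹ * e ζ) := by
      rw [← h10, ← mul_assoc, inv_mul_cancel₀ hpi0, one_mul]
    rw [h11]
    simp only [he1, he2, smul_eq_mul]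
    ring

end AG
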