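import Pool.Agent.Bloch.Defs
import Pool.Agent.Bloch.Split
import Pool.Agent.Bloch.Phi

set_option autoImplicit false

noncomputable section

namespace AG

open Complex Metric Set
open scoped ComplexConjugate

/-! ## module FEPS (uses SPLIT, PHI) -/

theorem feps_quad {F : ℂ → ℂ} (hF : DifferentiableOn ℂ F (ball 0 1)) {R : ℝ} (hR : R < 1) :
    ∃ K : ℝ, 0 < K ∧ (∀ z ∈ closedBall (0:ℂ) R, ‖deriv F z‖ ≤ K) ∧
      ∀ z ∈ closedBall (0:ℂ) R, ∀ w ∈ closedBall (0:ℂ) R,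
        ‖F w - F z - deriv F z * (w - z)‖ ≤ K * ‖w - z‖^2 := by
  have hsub : closedBall (0:ℂ) R ⊆ ball 0 1 := closedBall_subset_ball hR
  have hF1 := hF.deriv isOpen_ball
  have hF2 := hF1.deriv isOpen_ball
  obtain ⟨K1, hK1⟩ := (isCompact_closedBall (0:ℂ) R).exists_bound_of_continuousOn
    (hF1.continuousOn.mono hsub)
  obtain ⟨K2, hK2⟩ := (isCompact_closedBall (0:ℂ) R).exists_bound_of_continuousOn
    (hF2.continuousOn.mono hsub)
  obtain ⟨K, hK⟩ : ∃ K : ℝ, K = max 1 (max K1 K2) := ⟨_, rfl⟩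
  have hK0 : 0 < K := lt_of_lt_of_le one_pos (by rw [hK]; exact le_max_left _ _)
  have hK1' : K1 ≤ K := by rw [hK]; exact (le_max_left _ _).trans (le_max_right _ _)
  have hK2' : K2 ≤ K := by rw [hK]; exact (le_max_right _ _).trans (le_max_right _ _)
  refine ⟨K, hK0, fun z hz => (hK1 z hz).trans hK1', ?_⟩
  intro z hz w hw
  have hlip : ∀ x ∈ closedBall (0:ℂ) R, ‖deriv F x - deriv F z‖ ≤ K * ‖x - z‖ := by
    intro x hx
    exact (convex_closedBall (0:ℂ) R).norm_image_sub_le_of_norm_deriv_le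
      (fun y hy => hF1.differentiableAt (isOpen_ball.mem_nhds (hsub hy)))
      (fun y hy => (hK2 y hy).trans hK2') hz hx
  have hseg : segment ℝ z w ⊆ closedBall (0:ℂ) R := (convex_closedBall (0:ℂ) R).segment_subset hz hw
  have hder : ∀ x ∈ segment ℝ z w, HasDerivWithinAt (fun x => F x - deriv F z * x)
      (deriv F x - deriv F z) (segment ℝ z w) x := by
    intro x hx
    have h1 : HasDerivAt F (deriv F x) x :=
      (hF.differentiableAt (isOpen_ball.mem_nhds (hsub (hseg hx)))).hasDerivAt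
    have h2 : HasDerivAt (fun x => deriv F z * x) (deriv F z) x := by
      simpa using (hasDerivAt_id x).const_mul (deriv F z)
    exact (h1.sub h2).hasDerivWithinAt
  have hbd : ∀ x ∈ segment ℝ z w, ‖deriv F x - deriv F z‖ ≤ K * ‖w - z‖ := by
    intro x hx
    refine (hlip x (hseg hx)).trans ?_
    apply mul_le_mul_of_nonneg_left _ hK0.le
    have hxw : ‖x - z‖ ≤ ‖w - z‖ := by
      obtain ⟨a, b, ha, hb, hab, rfl⟩ := hx
      have : a • z + b • w - z = b • (w - z) := by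
        have h3 : a = 1 - b := by linarith
        rw [h3]
        simp only [real_smul]
        push_cast
        ring
      rw [this, norm_smul, Real.norm_eq_abs, abs_of_nonneg hb]
      have hb1 : b ≤ 1 := by linarith
      exact mul_le_of_le_one_left (norm_nonneg _) hb1
    exact hxw
  have hmv := Convex.norm_image_sub_le_of_norm_hasDerivWithin_le hder hbd (convex_segment z w)
    (left_mem_segment ℝ z w) (right_mem_segment ℝ z w)
  have e1 : (F w - deriv F z * w) - (F z - deriv F z * z) = F w - F z - deriv F z * (w - z) := by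
    ring
  rw [e1] at hmv
  calc ‖F w - F z - deriv F z * (w - z)‖ ≤ K * ‖w - z‖ * ‖w - z‖ := hmv
    _ = K * ‖w - z‖^2 := by ring

theorem feps {F : ℂ → ℂ} (hF : DifferentiableOn ℂ F (ball 0 1)) (h V : ℂ → ℂ) {ρ ρo ρi : ℝ}
    (h0 : 0 < ρ) (h1 : ρ < ρo) (h2 : ρo < ρi) (h3 : ρi < 1) (hh : DifferentiableOn ℂ h (ball 0 1))
    (hV : DifferentiableOn ℂ V {z | ρ < ‖z‖ ∧ ‖z‖ < 1/ρ})
    (htan : ∀ z, ‖z‖ = 1 → (V z * conj z).re = 0)
    (hFV : ∀ z, ρ < ‖z‖ → ‖z‖ < 1 → h z = deriv F z * V z) :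
    ∃ ε0 > 0, ∃ C > 0, ∀ ε : ℝ, 0 < ε → ε < ε0 → ∃ f φ : ℂ → ℂ,
      DifferentiableOn ℂ f (ball 0 1) ∧
      (∀ z, ‖z‖ < ρi → ‖f z - (F z + ε * h z)‖ ≤ C * ε^2) ∧
      DifferentiableOn ℂ φ {z | ρo < ‖z‖ ∧ ‖z‖ < 1} ∧
      (∀ z, ρo < ‖z‖ → ‖z‖ < 1 → ‖φ z‖ < 1 ∧ ‖φ z - z‖ ≤ C * ε ∧ ‖f z - F (φ z)‖ ≤ C * ε^2) ∧
      InjOn φ {z | ρo < ‖z‖ ∧ ‖z‖ < 1} ∧
      (∀ w, ρo + C * ε < ‖w‖ → ‖w‖ < 1 → ∃ z, ρo < ‖z‖ ∧ ‖z‖ < 1 ∧ φ z = w) := by
  obtain ⟨ρa, hρa⟩ : ∃ ρa : ℝ, ρa = (ρ + ρo) / 2 := ⟨_, rfl⟩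
  obtain ⟨ρe, hρe⟩ : ∃ ρe : ℝ, ρe = (ρi + 1) / 2 := ⟨_, rfl⟩
  obtain ⟨R, hR⟩ : ∃ R : ℝ, R = (ρe + 1) / 2 := ⟨_, rfl⟩
  have ha1 : ρ < ρa := by rw [hρa]; linarith
  have ha2 : ρa < ρo := by rw [hρa]; linarith
  have ha3 : ρa < 1 := by linarith
  have ha0 : 0 < ρa := by linarith
  have he1 : ρi < ρe := by rw [hρe]; linarith
  have he2 : ρe < 1 := by rw [hρe]; linarith
  have hR1 : ρe < R := by rw [hR]; linarith
  have hR2 : R < 1 := by rw [hR]; linarith
  obtain ⟨ε1, hε1, C1, hC1, hphi⟩ := phi_exists V h0 ha1 ha3 hV htan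
  obtain ⟨Cs, hCs, hsplit⟩ := laurent_split ha0 ha2 h2 he1
  obtain ⟨K, hK, hK1, hK2⟩ := feps_quad hF hR2
  refine ⟨min ε1 ((R - ρe) / C1), lt_min hε1 (div_pos (by linarith) hC1),
    C1 + Cs * (K * C1^2 + K * C1), by positivity, ?_⟩
  intro ε hε hεε
  have e1 : ε < ε1 := lt_of_lt_of_le hεε (min_le_left _ _)
  have e2 : C1 * ε ≤ R - ρe := by
    have : ε < (R - ρe) / C1 := lt_of_lt_of_le hεε (min_le_right _ _)
    rw [lt_div_iff₀ hC1] at this
    linarith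
  obtain ⟨φ, hφd, hφb, hφi, hφs⟩ := hphi ε hε e1
  obtain ⟨e, he⟩ : ∃ e : ℂ → ℂ, e = fun z => F (φ z) - (F z + ε * h z) := ⟨_, rfl⟩
  have hopena : IsOpen {z : ℂ | ρa < ‖z‖ ∧ ‖z‖ < 1} :=
    (isOpen_lt continuous_const continuous_norm).inter (isOpen_lt continuous_norm continuous_const)
  have hFφ : ∀ z : ℂ, ρa < ‖z‖ → ‖z‖ < 1 → DifferentiableAt ℂ (fun z => F (φ z)) z := by
    intro z hz1 hz2
    have h4 : DifferentiableAt ℂ φ z := hφd.differentiableAt (hopena.mem_nhds ⟨hz1, hz2⟩)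
    have h5 : DifferentiableAt ℂ F (φ z) := hF.differentiableAt
      (isOpen_ball.mem_nhds (by rw [mem_ball_zero_iff]; exact (hφb z hz1 hz2).1))
    exact h5.comp z h4
  have hFd : ∀ z : ℂ, ‖z‖ < 1 → DifferentiableAt ℂ (fun z => F z + ε * h z) z := by
    intro z hz
    have hz' : ball (0:ℂ) 1 ∈ nhds z := isOpen_ball.mem_nhds (by rw [mem_ball_zero_iff]; exact hz)
    exact (hF.differentiableAt hz').add ((hh.differentiableAt hz').const_mul (ε:ℂ))
  have hed : DifferentiableOn ℂ e {z | ρa < ‖z‖ ∧ ‖z‖ < ρe} := by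
    intro z hz
    rw [he]
    exact ((hFφ z hz.1 (hz.2.trans he2)).sub (hFd z (hz.2.trans he2))).differentiableWithinAt
  obtain ⟨δ, hδ⟩ : ∃ δ : ℝ, δ = (K * C1^2 + K * C1) * ε^2 := ⟨_, rfl⟩
  have heb : ∀ z, ρa < ‖z‖ → ‖z‖ < ρe → ‖e z‖ ≤ δ := by
    intro z hz1 hz2
    obtain ⟨b1, b2, b3⟩ := hφb z hz1 (hz2.trans he2)
    have hzR : z ∈ closedBall (0:ℂ) R := by
      rw [mem_closedBall_zero_iff]; linarith
    have hφR : φ z ∈ closedBall (0:ℂ) R := by
      rw [mem_closedBall_zero_iff]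
      have h4 : ‖φ z‖ ≤ ‖φ z - z‖ + ‖z‖ := by
        simpa using norm_add_le (φ z - z) z
      linarith
    have hV1 : h z = deriv F z * V z := hFV z (ha1.trans hz1) (hz2.trans he2)
    have h5 : e z = (F (φ z) - F z - deriv F z * (φ z - z)) +
        deriv F z * (φ z - z - ε * V z) := by
      rw [he]
      simp only
      rw [hV1]
      ring
    rw [h5]
    refine (norm_add_le _ _).trans ?_
    have h6 : ‖F (φ z) - F z - deriv F z * (φ z - z)‖ ≤ K * (C1 * ε)^2 := by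
      refine (hK2 z hzR _ hφR).trans ?_
      exact mul_le_mul_of_nonneg_left (pow_le_pow_left₀ (norm_nonneg _) b2 2) hK.le
    have h7 : ‖deriv F z * (φ z - z - ε * V z)‖ ≤ K * (C1 * ε^2) := by
      rw [norm_mul]
      exact mul_le_mul (hK1 z hzR) b3 (norm_nonneg _) hK.le
    rw [hδ]
    calc _ ≤ K * (C1 * ε)^2 + K * (C1 * ε^2) := add_le_add h6 h7
      _ = _ := by ring
  obtain ⟨a1, a2, hd1, hd2, hb1, hb2, hsum⟩ := hsplit e δ hed heb
  have hf2 : ∀ z : ℂ, ρo < ‖z‖ →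
      (if ‖z‖ < ρi then F z + ε * h z + a1 z else F (φ z) - a2 z) = F (φ z) - a2 z := by
    intro z hz
    split_ifs with hc
    · have h4 := hsum z hz hc
      rw [he] at h4
      simp only at h4
      linear_combination -h4
    · rfl
  have hopeno : IsOpen {z : ℂ | ρo < ‖z‖} := isOpen_lt continuous_const continuous_norm
  have hδC : Cs * δ ≤ (C1 + Cs * (K * C1^2 + K * C1)) * ε^2 := by
    rw [hδ]
    have : 0 ≤ C1 * ε^2 := by positivity
    linarith
  refine ⟨fun z => if ‖z‖ < ρi then F z + ε * h z + a1 z else F (φ z) - a2 z, φ, ?_, ?_, ?_, ?_,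
    ?_, ?_⟩
  · intro z hz
    rw [mem_ball_zero_iff] at hz
    apply DifferentiableAt.differentiableWithinAt
    by_cases hc : ‖z‖ < ρi
    · have hz' : ball (0:ℂ) ρi ∈ nhds z :=
        isOpen_ball.mem_nhds (by rw [mem_ball_zero_iff]; exact hc)
      have h4 : DifferentiableAt ℂ (fun z => F z + ε * h z + a1 z) z :=
        (hFd z hz).add (hd1.differentiableAt hz')
      refine h4.congr_of_eventuallyEq ?_
      filter_upwards [hz'] with x hx
      rw [mem_ball_zero_iff] at hx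
      rw [if_pos hx]
    · push Not at hc
      have hzo : ρo < ‖z‖ := h2.trans_le hc
      have hz' : {z : ℂ | ρo < ‖z‖} ∈ nhds z := hopeno.mem_nhds hzo
      have h4 : DifferentiableAt ℂ (fun z => F (φ z) - a2 z) z :=
        (hFφ z (ha2.trans hzo) hz).sub (hd2.differentiableAt hz')
      refine h4.congr_of_eventuallyEq ?_
      filter_upwards [hz'] with x hx
      exact hf2 x hx
  · intro z hz
    simp only
    rw [if_pos hz]
    have h4 : F z + ε * h z + a1 z - (F z + ε * h z) = a1 z := by ring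
    rw [h4]
    exact (hb1 z (by rw [mem_ball_zero_iff]; exact hz)).trans hδC
  · exact hφd.mono fun z hz => ⟨ha2.trans hz.1, hz.2⟩
  · intro z hz1 hz2
    obtain ⟨b1, b2, b3⟩ := hφb z (ha2.trans hz1) hz2
    refine ⟨b1, ?_, ?_⟩
    · refine b2.trans ?_
      apply mul_le_mul_of_nonneg_right _ hε.le
      have : 0 < Cs * (K * C1^2 + K * C1) := by positivity
      linarith
    · simp only
      rw [hf2 z hz1]
      have h4 : F (φ z) - a2 z - F (φ z) = -a2 z := by ring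
      rw [h4, norm_neg]
      exact (hb2 z hz1).trans hδC
  · have hsub : {z : ℂ | ρo < ‖z‖ ∧ ‖z‖ < 1} ⊆ {z : ℂ | ρa < ‖z‖ ∧ ‖z‖ < 1} :=
      fun z hz => ⟨ha2.trans hz.1, hz.2⟩
    exact hφi.mono hsub
  · intro w hw1 hw2
    have h4 : C1 * ε ≤ (C1 + Cs * (K * C1^2 + K * C1)) * ε := by
      apply mul_le_mul_of_nonneg_right _ hε.le
      have : 0 < Cs * (K * C1^2 + K * C1) := by positivity
      linarith
    obtain ⟨z, hz1, hz2, hz3⟩ := hφs w (by linarith) hw2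
    refine ⟨z, ?_, hz2, hz3⟩
    have b2 := (hφb z hz1 hz2).2.1
    rw [hz3] at b2
    have h5 : ‖w‖ ≤ ‖w - z‖ + ‖z‖ := by
      simpa using norm_add_le (w - z) z
    linarith

end AG
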