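import Pool.Agent.Bloch.Defs
import Pool.Agent.Bloch.Geom

set_option autoImplicit false

noncomputable section

namespace AG

open Complex Metric Set
open scoped ComplexConjugate

theorem Gp.comp {g t g' t' : ℂ → ℂ} (h : Gp g t) (h' : Gp g' t') :
    Gp (fun z => g (g' z)) (fun w => t (t' w)) := by
  induction h with
  | one => exact h'
  | cj _ ih => exact Gp.cj ih
  | rt _ ih => exact Gp.rt ih
  | rf _ ih => exact Gp.rf ih

theorem gp_aux_den {u : ℂ} (hu : ‖u‖ < 1) : (aa : ℂ) + u ≠ 0 := by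
  intro h
  have h1 : ‖(aa : ℂ)‖ = ‖u‖ := by
    have : (aa : ℂ) = -u := by linear_combination h
    rw [this, norm_neg]
  have h2 := aa_gt
  rw [Complex.norm_real, Real.norm_eq_abs, abs_of_pos (by linarith)] at h1
  linarith

/-- the basic identity for the reflection `s0` -/
theorem gp_aux_s0 {u : ℂ} (hu : ‖u‖ < 1) :
    (1 - ‖s0 u‖ ^ 2) * ‖(aa : ℂ) + conj u‖ ^ 2 = (aa ^ 2 - 1) * (1 - ‖u‖ ^ 2) := by
  have hu' : ‖conj u‖ < 1 := by rwa [Complex.norm_conj]
  have hne : ‖(aa : ℂ) + conj u‖ ^ 2 ≠ 0 := by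
    have := gp_aux_den hu'
    positivity
  have h1 : ‖s0 u‖ ^ 2 * ‖(aa : ℂ) + conj u‖ ^ 2 = ‖1 + aa * conj u‖ ^ 2 := by
    unfold s0
    rw [norm_div, norm_neg, div_pow, div_mul_cancel₀ _ hne]
  rw [sub_mul, h1, one_mul]
  simp only [Complex.sq_norm, Complex.normSq_apply]
  simp
  ring

theorem gp_aux_s0_mem {u : ℂ} (hu : u ∈ ball (0 : ℂ) 1) : s0 u ∈ ball (0 : ℂ) 1 := by
  rw [mem_ball_zero_iff] at hu ⊢
  have h1 := gp_aux_s0 hu
  have haa := aa_gt
  have hu' : ‖conj u‖ < 1 := by rwa [Complex.norm_conj]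
  have hne : 0 < ‖(aa : ℂ) + conj u‖ ^ 2 := by
    have := gp_aux_den hu'
    positivity
  have h2 : 0 < (aa ^ 2 - 1) * (1 - ‖u‖ ^ 2) := by
    apply mul_pos
    · nlinarith
    · nlinarith [norm_nonneg u]
  rw [← h1] at h2
  have h3 : 0 < 1 - ‖s0 u‖ ^ 2 := by
    by_contra hcon
    push Not at hcon
    nlinarith
  nlinarith [norm_nonneg (s0 u)]

theorem gp_aux_s0_s0 {u : ℂ} (hu : u ∈ ball (0 : ℂ) 1) : s0 (s0 u) = u := by
  have hu2 := gp_aux_s0_mem hu
  rw [mem_ball_zero_iff] at hu hu2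
  have haa := aa_gt
  have hc : ‖conj (s0 u)‖ < 1 := by rwa [Complex.norm_conj]
  have h1 := gp_aux_den hu
  have h2 := gp_aux_den hc
  have e1 : conj (s0 u) = -(1 + aa * u) / (aa + u) := by
    unfold s0
    simp
  have e2 : s0 (s0 u) = -(1 + aa * conj (s0 u)) / (aa + conj (s0 u)) := rfl
  rw [e2, e1]
  rw [e1] at h2
  rw [div_eq_iff h2]
  field_simp
  ring

theorem gp_aux_om_mem {u : ℂ} (hu : u ∈ ball (0 : ℂ) 1) : om * u ∈ ball (0 : ℂ) 1 := by
  rw [mem_ball_zero_iff] at hu ⊢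
  rwa [norm_mul, om_norm, one_mul]

theorem gp_aux_cj_mem {u : ℂ} (hu : u ∈ ball (0 : ℂ) 1) : conj u ∈ ball (0 : ℂ) 1 := by
  rw [mem_ball_zero_iff] at hu ⊢
  rwa [Complex.norm_conj]

theorem Gp.mapsTo {g t : ℂ → ℂ} (h : Gp g t) {z : ℂ} (hz : z ∈ ball (0:ℂ) 1) : g z ∈ ball (0:ℂ) 1 := by
  induction h with
  | one => exact hz
  | cj _ ih => exact gp_aux_cj_mem ih
  | rt _ ih => exact gp_aux_om_mem ih
  | rf _ ih => exact gp_aux_s0_mem ih

theorem Gp.inv {g t : ℂ → ℂ} (h : Gp g t) : ∃ g' t' : ℂ → ℂ, Gp g' t' ∧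
    (∀ z ∈ ball (0:ℂ) 1, g' (g z) = z ∧ g (g' z) = z) ∧ (∀ w, t' (t w) = w ∧ t (t' w) = w) := by
  induction h with
  | one => exact ⟨_, _, Gp.one, fun z _ => ⟨rfl, rfl⟩, fun w => ⟨rfl, rfl⟩⟩
  | @cj g t h ih =>
    obtain ⟨g', t', h', h1, h2⟩ := ih
    refine ⟨_, _, h'.comp (Gp.cj Gp.one), fun z hz => ⟨?_, ?_⟩, fun w => ⟨?_, ?_⟩⟩
    · simp only [Complex.conj_conj]
      exact (h1 z hz).1
    · simp only
      rw [(h1 (conj z) (gp_aux_cj_mem hz)).2, Complex.conj_conj]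
    · simp only [Complex.conj_conj]
      exact (h2 w).1
    · simp only
      rw [(h2 (conj w)).2, Complex.conj_conj]
  | @rt g t h ih =>
    obtain ⟨g', t', h', h1, h2⟩ := ih
    have e3 : om * (om * om) = 1 := by
      have := om_cube
      linear_combination this
    refine ⟨_, _, h'.comp (Gp.rt (Gp.rt Gp.one)), fun z hz => ⟨?_, ?_⟩, fun w => ⟨?_, ?_⟩⟩
    · simp only
      have : om * (om * (om * g z)) = g z := by linear_combination (g z) * e3
      rw [this]
      exact (h1 z hz).1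
    · simp only
      rw [(h1 (om * (om * z)) (gp_aux_om_mem (gp_aux_om_mem hz))).2]
      linear_combination z * e3
    · simp only
      have : om * (om * (om * t w)) = t w := by linear_combination (t w) * e3
      rw [this]
      exact (h2 w).1
    · simp only
      rw [(h2 (om * (om * w))).2]
      linear_combination w * e3
  | @rf g t h ih =>
    obtain ⟨g', t', h', h1, h2⟩ := ih
    refine ⟨_, _, h'.comp (Gp.rf Gp.one), fun z hz => ⟨?_, ?_⟩, fun w => ⟨?_, ?_⟩⟩
    · simp only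
      rw [gp_aux_s0_s0 (h.mapsTo hz)]
      exact (h1 z hz).1
    · simp only
      rw [(h1 (s0 z) (gp_aux_s0_mem hz)).2, gp_aux_s0_s0 hz]
    · simp only
      have : -(bt : ℂ) - conj (-(bt : ℂ) - conj (t w)) = t w := by
        simp
      rw [this]
      exact (h2 w).1
    · simp only
      rw [(h2 (-(bt : ℂ) - conj w)).2]
      simp

theorem gp_aux_lt {A B x : ℂ} (hAB : ‖A‖^2 - ‖B‖^2 = 1) (hx : ‖x‖ < 1) :
    conj B * x + conj A ≠ 0 := by
  intro h
  have h1 : ‖conj A‖ = ‖conj B * x‖ := by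
    have : conj A = -(conj B * x) := by linear_combination h
    rw [this, norm_neg]
  rw [Complex.norm_conj, norm_mul, Complex.norm_conj] at h1
  have h2 := norm_nonneg B
  have h3 := norm_nonneg x
  have h4 : ‖A‖ ≤ ‖B‖ := by
    rw [h1]
    nlinarith
  have h5 := norm_nonneg A
  nlinarith

/-- the action of the generators on `(A x + B) / (conj B x + conj A)` -/
theorem gp_aux_cj (A B x : ℂ) : conj ((A * x + B) / (conj B * x + conj A)) =
    (conj A * conj x + conj B) / (conj (conj B) * conj x + conj (conj A)) := by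
  simp

theorem gp_aux_rt {A B x : ℂ} (hAB : ‖A‖^2 - ‖B‖^2 = 1) (hx : ‖x‖ < 1) :
    om * ((A * x + B) / (conj B * x + conj A)) =
      ((om^2 * A) * x + om^2 * B) / (conj (om^2 * B) * x + conj (om^2 * A)) := by
  have h1 := gp_aux_lt hAB hx
  have h2 : om ≠ 0 := by
    intro h
    have := om_norm
    rw [h, norm_zero] at this
    exact zero_ne_one this
  have e1 : conj (om^2 * B) * x + conj (om^2 * A) = om * (conj B * x + conj A) := by
    have h3 : conj om = om^2 := om_conj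
    have h4 := om_cube
    simp only [map_mul, map_pow, h3]
    linear_combination (om * (conj B * x + conj A)) * h4
  rw [e1]
  field_simp

theorem gp_aux_alg (a D N k : ℂ) (hD : D ≠ 0) (hk : k ≠ 0) (h : a + N / D ≠ 0) :
    -(1 + a * (N / D)) / (a + N / D) = -k * (D + a * N) / (k * (a * D + N)) := by
  have h4 : N = N / D * D := (div_mul_cancel₀ _ hD).symm
  generalize N / D = m at h h4
  subst h4
  have h2 : a * D + m * D ≠ 0 := by
    rw [← add_mul]
    exact mul_ne_zero h hD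
  rw [div_eq_div_iff h (mul_ne_zero hk h2)]
  ring

theorem gp_aux_rf {A B x : ℂ} (hAB : ‖A‖^2 - ‖B‖^2 = 1) (hx : ‖x‖ < 1) :
    ∃ A' B' : ℂ, ‖A'‖^2 - ‖B'‖^2 = 1 ∧
    s0 ((A * x + B) / (conj B * x + conj A)) = (A' * conj x + B') / (conj B' * conj x + conj A') ∧
    A' = -(I / Real.sqrt (aa^2 - 1)) * (B + aa * conj A) ∧
    B' = -(I / Real.sqrt (aa^2 - 1)) * (A + aa * conj B) := by
  have haa := aa_gt
  set k : ℂ := I / Real.sqrt (aa^2 - 1) with hk
  have hpos : 0 < aa^2 - 1 := by nlinarith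
  have hs : 0 < Real.sqrt (aa^2 - 1) := Real.sqrt_pos.2 hpos
  have hs2 : Real.sqrt (aa^2 - 1) ^ 2 = aa^2 - 1 := Real.sq_sqrt hpos.le
  have hkc : conj k = -k := by
    rw [hk]
    simp [neg_div]
  have hk0 : k ≠ 0 := by
    rw [hk]
    have : (Real.sqrt (aa^2 - 1) : ℂ) ≠ 0 := by exact_mod_cast hs.ne'
    exact div_ne_zero I_ne_zero this
  have hkn : ‖k‖^2 * (aa^2 - 1) = 1 := by
    rw [hk, norm_div, Complex.norm_I, Complex.norm_real, Real.norm_eq_abs, abs_of_pos hs, div_pow,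
      hs2, one_pow]
    field_simp
  refine ⟨-k * (B + aa * conj A), -k * (A + aa * conj B), ?_, ?_, rfl, rfl⟩
  · rw [norm_mul, norm_mul, norm_neg, mul_pow, mul_pow, ← mul_sub]
    have h1 : ‖B + aa * conj A‖^2 - ‖A + aa * conj B‖^2 = (aa^2 - 1) * (‖A‖^2 - ‖B‖^2) := by
      simp only [Complex.sq_norm, Complex.normSq_apply]
      simp
      ring
    rw [h1, hAB, mul_one, hkn]
  · have h1 := gp_aux_lt hAB hx
    have h1c : B * conj x + A ≠ 0 := by
      intro h
      apply h1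
      have := congrArg conj h
      simpa using this
    have hu : ‖(A * x + B) / (conj B * x + conj A)‖ < 1 := by
      rw [norm_div, div_lt_one (norm_pos_iff.2 h1)]
      have h2 : ‖conj B * x + conj A‖^2 - ‖A * x + B‖^2 = (‖A‖^2 - ‖B‖^2) * (1 - ‖x‖^2) := by
        simp only [Complex.sq_norm, Complex.normSq_apply]
        simp
        ring
      rw [hAB, one_mul] at h2
      have h3 : 0 < 1 - ‖x‖^2 := by nlinarith [norm_nonneg x]
      apply lt_of_pow_lt_pow_left₀ 2 (norm_nonneg _)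
      linarith
    have hden := gp_aux_den (u := conj ((A * x + B) / (conj B * x + conj A))) (by
      rwa [Complex.norm_conj])
    unfold s0
    have e0 : conj ((A * x + B) / (conj B * x + conj A)) =
        (conj A * conj x + conj B) / (B * conj x + A) := by simp
    rw [e0] at hden ⊢
    have e1 : conj (-k * (A + aa * conj B)) * conj x + conj (-k * (B + aa * conj A)) =
        k * ((aa : ℂ) * (B * conj x + A) + (conj A * conj x + conj B)) := by
      simp only [map_mul, map_neg, hkc, map_add, Complex.conj_conj, Complex.conj_ofReal]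
      ring
    have e3 : -k * (B + aa * conj A) * conj x + -k * (A + aa * conj B) =
        -k * ((B * conj x + A) + aa * (conj A * conj x + conj B)) := by ring
    rw [e1, e3]
    exact gp_aux_alg _ _ _ _ h1c hk0 hden

theorem Gp.form {g t : ℂ → ℂ} (h : Gp g t) : ∃ A B ζ l : ℂ, ‖A‖^2 - ‖B‖^2 = 1 ∧ ‖ζ‖ = 1 ∧
    (((∀ z ∈ ball (0:ℂ) 1, g z = (A * z + B) / (conj B * z + conj A)) ∧ (∀ w, t w = ζ * w + l)) ∨
     ((∀ z ∈ ball (0:ℂ) 1, g z = (A * conj z + B) / (conj B * conj z + conj A)) ∧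
        (∀ w, t w = ζ * conj w + l))) := by
  have nz : ∀ {z : ℂ}, z ∈ ball (0:ℂ) 1 → ‖z‖ < 1 := fun hz => by simpa using hz
  have nc : ∀ {z : ℂ}, z ∈ ball (0:ℂ) 1 → ‖conj z‖ < 1 := fun hz => by
    rw [Complex.norm_conj]; exact nz hz
  induction h with
  | one =>
    refine ⟨1, 0, 1, 0, by simp, by simp, Or.inl ⟨fun z _ => by simp, fun w => by simp⟩⟩
  | @cj g t h ih =>
    obtain ⟨A, B, ζ, l, hAB, hζ, h1 | h1⟩ := ih
    · refine ⟨conj A, conj B, conj ζ, conj l, by simpa using hAB, by simpa using hζ,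
        Or.inr ⟨fun z hz => ?_, fun w => ?_⟩⟩
      · simp only
        rw [h1.1 z hz, gp_aux_cj]
      · simp only
        rw [h1.2 w]
        simp
    · refine ⟨conj A, conj B, conj ζ, conj l, by simpa using hAB, by simpa using hζ,
        Or.inl ⟨fun z hz => ?_, fun w => ?_⟩⟩
      · simp only
        rw [h1.1 z hz, gp_aux_cj, Complex.conj_conj]
      · simp only
        rw [h1.2 w]
        simp
  | @rt g t h ih =>
    obtain ⟨A, B, ζ, l, hAB, hζ, h1⟩ := ih
    have hAB' : ‖om^2 * A‖^2 - ‖om^2 * B‖^2 = 1 := by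
      rw [norm_mul, norm_mul, norm_pow, om_norm]
      simpa using hAB
    refine ⟨om^2 * A, om^2 * B, om * ζ, om * l, hAB', by rw [norm_mul, om_norm, hζ, one_mul], ?_⟩
    rcases h1 with h1 | h1
    · refine Or.inl ⟨fun z hz => ?_, fun w => ?_⟩
      · simp only
        rw [h1.1 z hz, gp_aux_rt hAB (nz hz)]
      · simp only
        rw [h1.2 w]
        ring
    · refine Or.inr ⟨fun z hz => ?_, fun w => ?_⟩
      · simp only
        rw [h1.1 z hz, gp_aux_rt hAB (nc hz)]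
      · simp only
        rw [h1.2 w]
        ring
  | @rf g t h ih =>
    obtain ⟨A, B, ζ, l, hAB, hζ, h1⟩ := ih
    obtain ⟨A', B', hAB', -, hA', hB'⟩ := gp_aux_rf (x := 0) hAB (by simp)
    refine ⟨A', B', -conj ζ, -bt - conj l, hAB', by simpa using hζ, ?_⟩
    rcases h1 with h1 | h1
    · refine Or.inr ⟨fun z hz => ?_, fun w => ?_⟩
      · simp only
        obtain ⟨A2, B2, -, h2, hA2, hB2⟩ := gp_aux_rf hAB (nz hz)
        rw [h1.1 z hz, h2, hA2, hB2, hA', hB']
      · simp only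
        rw [h1.2 w]
        simp
        ring
    · refine Or.inl ⟨fun z hz => ?_, fun w => ?_⟩
      · simp only
        obtain ⟨A2, B2, -, h2, hA2, hB2⟩ := gp_aux_rf hAB (nc hz)
        rw [h1.1 z hz, h2, hA2, hB2, hA', hB', Complex.conj_conj]
      · simp only
        rw [h1.2 w]
        simp
        ring

/-- barycentric coordinates -/
def bar (k : ℕ) (w : ℂ) : ℝ := (2 * (w * om^k).re / bt + 1) / 3

theorem gp_aux_pow (k : ℕ) : om^k = om^(k % 3) := by
  conv_lhs => rw [← Nat.div_add_mod k 3]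
  rw [pow_add, pow_mul, om_cube, one_pow, one_mul]

theorem gp_aux_bar_mod (k : ℕ) (w : ℂ) : bar k w = bar (k % 3) w := by
  unfold bar
  rw [gp_aux_pow k]

theorem gp_aux_re (k : ℕ) (w : ℂ) : (conj w * om^k).re = (w * om^(2 * k)).re := by
  have h1 : conj (conj w * om^k) = w * om^(2 * k) := by
    rw [map_mul, Complex.conj_conj, map_pow, om_conj, ← pow_mul]
  rw [← h1, Complex.conj_re]

theorem gp_aux_bar_cj (k : ℕ) (w : ℂ) : bar k (conj w) = bar (2 * k % 3) w := by
  rw [← gp_aux_bar_mod]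
  unfold bar
  rw [gp_aux_re]

theorem gp_aux_bar_rt (k : ℕ) (w : ℂ) : bar k (om * w) = bar ((k + 1) % 3) w := by
  rw [← gp_aux_bar_mod]
  unfold bar
  rw [show om * w * om^k = w * om^(k + 1) by ring]

theorem gp_aux_bar_rf (k : ℕ) (w : ℂ) :
    bar k (-bt - conj w) = -bar (2 * k % 3) w + (2 - 2 * (om^k).re) / 3 := by
  rw [← gp_aux_bar_mod]
  have hb := bt_pos
  unfold bar
  have h1 : ((-(bt : ℂ) - conj w) * om^k).re = -bt * (om^k).re - (w * om^(2 * k)).re := by
    rw [← gp_aux_re, sub_mul, Complex.sub_re]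
    congr 1
    rw [show -(bt : ℂ) * om^k = ((-bt : ℝ) : ℂ) * om^k by push_cast; ring, Complex.re_ofReal_mul]
  rw [h1]
  field_simp
  ring

theorem Gp.bary {g t : ℂ → ℂ} (h : Gp g t) : ∃ (σ : ℤ) (p : ℕ → ℕ) (n : ℕ → ℤ),
    ((σ = 1 ∧ n 0 + n 1 + n 2 = 0) ∨ (σ = -1 ∧ n 0 + n 1 + n 2 = 2)) ∧
    (∀ k < 3, p k < 3) ∧ (∀ k < 3, ∀ w, bar k (t w) = σ * bar (p k) w + n k) := by
  induction h with
  | one =>
    refine ⟨1, fun k => k, fun _ => 0, Or.inl ⟨rfl, by norm_num⟩, fun k hk => hk, fun k _ w => ?_⟩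
    simp
  | @cj g t h ih =>
    obtain ⟨σ, p, n, h1, h2, h3⟩ := ih
    refine ⟨σ, fun k => p (2 * k % 3), fun k => n (2 * k % 3), ?_, fun k _ => h2 _ (Nat.mod_lt _ (by norm_num)),
      fun k _ w => ?_⟩
    · have e : n (2 * 0 % 3) + n (2 * 1 % 3) + n (2 * 2 % 3) = n 0 + n 1 + n 2 := by
        norm_num
        ring
      rw [e]
      exact h1
    · rw [gp_aux_bar_cj]
      exact h3 _ (Nat.mod_lt _ (by norm_num)) w
  | @rt g t h ih =>
    obtain ⟨σ, p, n, h1, h2, h3⟩ := ih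
    refine ⟨σ, fun k => p ((k + 1) % 3), fun k => n ((k + 1) % 3), ?_,
      fun k _ => h2 _ (Nat.mod_lt _ (by norm_num)), fun k _ w => ?_⟩
    · have e : n ((0 + 1) % 3) + n ((1 + 1) % 3) + n ((2 + 1) % 3) = n 0 + n 1 + n 2 := by
        norm_num
        ring
      rw [e]
      exact h1
    · rw [gp_aux_bar_rt]
      exact h3 _ (Nat.mod_lt _ (by norm_num)) w
  | @rf g t h ih =>
    obtain ⟨σ, p, n, h1, h2, h3⟩ := ih
    refine ⟨-σ, fun k => p (2 * k % 3), fun k => -n (2 * k % 3) + (if k = 0 then 0 else 1), ?_,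
      fun k _ => h2 _ (Nat.mod_lt _ (by norm_num)), fun k hk w => ?_⟩
    · have e : (-n (2 * 0 % 3) + (if (0:ℕ) = 0 then 0 else 1)) +
          (-n (2 * 1 % 3) + (if (1:ℕ) = 0 then 0 else 1)) +
          (-n (2 * 2 % 3) + (if (2:ℕ) = 0 then 0 else 1)) = 2 - (n 0 + n 1 + n 2) := by
        norm_num
        ring
      rw [e]
      rcases h1 with ⟨h4, h5⟩ | ⟨h4, h5⟩
      · right
        exact ⟨by rw [h4], by rw [h5]; norm_num⟩
      · left
        exact ⟨by rw [h4]; norm_num, by rw [h5]; norm_num⟩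
    · rw [gp_aux_bar_rf, h3 _ (Nat.mod_lt _ (by norm_num)) w]
      have e : (2 - 2 * (om^k).re) / 3 = (if k = 0 then 0 else 1 : ℝ) := by
        interval_cases k
        · simp
        · simp [om]
          norm_num
        · have : (om^2).re = -1/2 := by
            rw [← om_conj, Complex.conj_re]
            rfl
          rw [this]
          norm_num
      rw [e]
      push_cast
      ring

/-- orientation preserving pairs -/
def Gpo (g t : ℂ → ℂ) (A B ζ l : ℂ) : Prop := Gp g t ∧ ‖A‖^2 - ‖B‖^2 = 1 ∧ ‖ζ‖ = 1 ∧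
  (∀ z ∈ ball (0:ℂ) 1, g z = (A * z + B) / (conj B * z + conj A)) ∧ (∀ w, t w = ζ * w + l)

/-- every pair can be made orientation preserving by composing with conjugation first -/
theorem Gp.orient {g t : ℂ → ℂ} (h : Gp g t) : (∃ A B ζ l, Gpo g t A B ζ l) ∨
    ∃ A B ζ l, Gpo (fun z => g (conj z)) (fun w => t (conj w)) A B ζ l := by
  obtain ⟨A, B, ζ, l, hAB, hζ, h1 | h1⟩ := h.form
  · exact Or.inl ⟨A, B, ζ, l, h, hAB, hζ, h1⟩
  · refine Or.inr ⟨A, B, ζ, l, h.comp (Gp.cj Gp.one), hAB, hζ, fun z hz => ?_, fun w => ?_⟩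
    · simp only
      rw [h1.1 (conj z) (gp_aux_cj_mem hz), Complex.conj_conj]
    · simp only
      rw [h1.2, Complex.conj_conj]

end AG
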