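import Pool.Agent.Bloch.Gp

set_option autoImplicit false

noncomputable section

namespace AG

open Complex Metric Set
open scoped ComplexConjugate

theorem comp_F {F : ℂ → ℂ} (hF : AGF F) {g t : ℂ → ℂ} (h : Gp g t) {z : ℂ} (hz : z ∈ ball (0:ℂ) 1) :
    F (g z) = t (F z) := by
  induction h with
  | one => rfl
  | cj h ih =>
    simp only
    rw [hF.cj _ (h.mapsTo hz), ih]
  | rt h ih =>
    simp only
    rw [hF.rt _ (h.mapsTo hz), ih]
  | rf h ih =>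
    simp only
    rw [hF.rf _ (h.mapsTo hz), ih]

theorem orb_aux1 (c M : ℝ) : {v : ℝ | |v| ≤ M ∧ ∃ n : ℤ, v = c + n}.Finite := by
  apply Set.Finite.subset ((Set.finite_Icc ⌈-M - c⌉ ⌊M - c⌋).image (fun n : ℤ => c + (n : ℝ)))
  rintro v ⟨hv, n, rfl⟩
  refine ⟨n, ⟨?_, ?_⟩, rfl⟩
  · rw [Int.ceil_le]
    have := (abs_le.1 hv).1
    linarith
  · rw [Int.le_floor]
    have := (abs_le.1 hv).2
    linarith

theorem orb_aux2 {w w' : ℂ} (h0 : bar 0 w = bar 0 w') (h1 : bar 1 w = bar 1 w') : w = w' := by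
  have hb := bt_pos
  have key : ∀ k : ℕ, bar k w = bar k w' → (w * om^k).re = (w' * om^k).re := by
    intro k hk
    unfold bar at hk
    generalize (w * om^k).re = x at hk ⊢
    generalize (w' * om^k).re = y at hk ⊢
    field_simp at hk
    linarith
  have e0 := key 0 h0
  have e1 := key 1 h1
  have h3 : 0 < Real.sqrt 3 := by positivity
  simp only [pow_zero, mul_one] at e0
  simp only [pow_one, Complex.mul_re, om] at e1
  apply Complex.ext e0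
  rw [e0] at e1
  have : Real.sqrt 3 * (w.im - w'.im) = 0 := by linarith
  rcases mul_eq_zero.1 this with h | h
  · exact absurd h h3.ne'
  · linarith

theorem orb_aux3 {k : ℕ} {w : ℂ} {M : ℝ} (hw : ‖w‖ ≤ M) : |bar k w| ≤ (2 * M / bt + 1) / 3 := by
  have hb := bt_pos
  unfold bar
  have h1 : |(w * om^k).re| ≤ M := by
    calc |(w * om^k).re| ≤ ‖w * om^k‖ := Complex.abs_re_le_norm _
      _ = ‖w‖ := by rw [norm_mul, norm_pow, om_norm, one_pow, mul_one]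
      _ ≤ M := hw
  rw [abs_div, abs_of_pos (by norm_num : (0:ℝ) < 3)]
  apply div_le_div_of_nonneg_right _ (by norm_num)
  calc |2 * (w * om^k).re / bt + 1| ≤ |2 * (w * om^k).re / bt| + |1| := abs_add_le _ _
    _ = 2 * |(w * om^k).re| / bt + 1 := by
        rw [abs_div, abs_mul, abs_of_pos hb, abs_one]
        norm_num
    _ ≤ 2 * M / bt + 1 := by
        have : 2 * |(w * om^k).re| / bt ≤ 2 * M / bt :=
          div_le_div_of_nonneg_right (by linarith) hb.le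
        linarith

/-- the values of the plane motions at `w0` in a bounded set are finitely many -/
theorem orb_aux4 (w0 : ℂ) (M : ℝ) : {w : ℂ | ‖w‖ ≤ M ∧ ∃ g t : ℂ → ℂ, Gp g t ∧ t w0 = w}.Finite := by
  set M' : ℝ := (2 * M / bt + 1) / 3 with hM'
  set V : Set ℝ := ⋃ j ∈ Finset.range 3, ({v : ℝ | |v| ≤ M' ∧ ∃ n : ℤ, v = bar j w0 + n} ∪
    {v : ℝ | |v| ≤ M' ∧ ∃ n : ℤ, v = -bar j w0 + n}) with hV
  have hVf : V.Finite := by
    apply Set.Finite.biUnion (Finset.finite_toSet _)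
    intro j _
    exact (orb_aux1 _ _).union (orb_aux1 _ _)
  have hmem : ∀ w : ℂ, ‖w‖ ≤ M → (∃ g t : ℂ → ℂ, Gp g t ∧ t w0 = w) → ∀ k < 3, bar k w ∈ V := by
    rintro w hw ⟨g, t, h, rfl⟩ k hk
    obtain ⟨σ, p, n, h1, h2, h3⟩ := h.bary
    have h4 := orb_aux3 (k := k) hw
    have h5 := h3 k hk w0
    rw [hV]
    simp only [Set.mem_iUnion]
    refine ⟨p k, Finset.mem_range.2 (h2 k hk), ?_⟩
    rcases h1 with ⟨h1, -⟩ | ⟨h1, -⟩
    · left
      refine ⟨h4, n k, ?_⟩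
      rw [h5, h1]
      push_cast
      ring
    · right
      refine ⟨h4, n k, ?_⟩
      rw [h5, h1]
      push_cast
      ring
  apply Set.Finite.of_finite_image (f := fun w : ℂ => (bar 0 w, bar 1 w))
  · apply Set.Finite.subset (hVf.prod hVf)
    rintro _ ⟨w, ⟨hw, h⟩, rfl⟩
    exact ⟨hmem w hw h 0 (by norm_num), hmem w hw h 1 (by norm_num)⟩
  · intro w _ w' _ hww'
    simp only [Prod.mk.injEq] at hww'
    exact orb_aux2 hww'.1 hww'.2

/-- the fibres of `F` in a compact disc are finite -/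
theorem orb_aux5 {F : ℂ → ℂ} (hF : AGF F) (w : ℂ) {R : ℝ} (hR : R < 1) :
    {x : ℂ | ‖x‖ ≤ R ∧ F x = w}.Finite := by
  by_contra hinf
  have hsub : {x : ℂ | ‖x‖ ≤ R ∧ F x = w} ⊆ closedBall 0 R := by
    intro x hx
    rw [mem_closedBall_zero_iff]
    exact hx.1
  obtain ⟨x0, hx0, hacc⟩ := Set.Infinite.exists_accPt_of_subset_isCompact hinf
    (isCompact_closedBall (0:ℂ) R) hsub
  rw [accPt_iff_frequently_nhdsNE] at hacc
  have hx1 : x0 ∈ ball (0:ℂ) 1 := by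
    rw [mem_closedBall_zero_iff] at hx0
    rw [mem_ball_zero_iff]
    exact hx0.trans_lt hR
  have han : AnalyticOnNhd ℂ F (ball (0:ℂ) 1) := hF.diff.analyticOnNhd isOpen_ball
  have heq : EqOn F (fun _ => w) (ball (0:ℂ) 1) :=
    han.eqOn_of_preconnected_of_frequently_eq analyticOnNhd_const
      (convex_ball (0:ℂ) 1).isPreconnected hx1 (hacc.mono fun x hx => hx.2)
  have h0 : F =ᶠ[nhds 0] (fun _ => w) := by
    filter_upwards [isOpen_ball.mem_nhds (mem_ball_self (x := (0:ℂ)) one_pos)] with x hx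
    exact heq hx
  have h1 := hF.one
  rw [h0.deriv_eq, deriv_const] at h1
  exact zero_ne_one h1

theorem orbit_fin {F : ℂ → ℂ} (hF : AGF F) {z : ℂ} (hz : z ∈ ball (0:ℂ) 1) {R : ℝ} (hR : R < 1) :
    {x : ℂ | ‖x‖ ≤ R ∧ ∃ g t : ℂ → ℂ, Gp g t ∧ g z = x}.Finite := by
  have hcont : ContinuousOn F (closedBall (0:ℂ) R) := by
    apply hF.diff.continuousOn.mono
    intro x hx
    rw [mem_closedBall_zero_iff] at hx
    rw [mem_ball_zero_iff]
    exact hx.trans_lt hR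
  obtain ⟨M, hM⟩ := (isCompact_closedBall (0:ℂ) R).exists_bound_of_continuousOn hcont
  apply Set.Finite.of_finite_fibers F
  · apply (orb_aux4 (F z) M).subset
    rintro _ ⟨x, ⟨hx, g, t, h, rfl⟩, rfl⟩
    exact ⟨hM _ (by rwa [mem_closedBall_zero_iff]), g, t, h, (comp_F hF h hz).symm⟩
  · intro w _
    apply (orb_aux5 hF w hR).subset
    rintro x ⟨⟨hx, -⟩, hxw⟩
    exact ⟨hx, hxw⟩

theorem orb_aux6 (k : ℕ) {g t : ℂ → ℂ} (h : Gp g t) : ∃ g' t' : ℂ → ℂ, Gp g' t' ∧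
    ∀ z, g' z = om^k * g z := by
  induction k with
  | zero => exact ⟨g, t, h, fun z => by simp⟩
  | succ k ih =>
    obtain ⟨g', t', h', h1⟩ := ih
    refine ⟨_, _, Gp.rt h', fun z => ?_⟩
    rw [h1]
    ring

theorem orb_aux7 {u : ℂ} (hu : ‖u‖ < 1) (h : ‖u‖ ≤ ‖s0 u‖) :
    0 ≤ ‖u‖^2 + 2 * aa * u.re + 1 := by
  have h1 := gp_aux_s0 hu
  have h2 : ‖(aa : ℂ) + conj u‖ ^ 2 = aa^2 + 2 * aa * u.re + ‖u‖^2 := by
    simp only [Complex.sq_norm, Complex.normSq_apply]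
    simp
    ring
  have h3 : ‖u‖^2 ≤ ‖s0 u‖^2 := pow_le_pow_left₀ (norm_nonneg _) h 2
  have h4 : 0 < 1 - ‖u‖^2 := by nlinarith [norm_nonneg u]
  have h5 : (1 - ‖s0 u‖ ^ 2) * ‖(aa : ℂ) + conj u‖ ^ 2 ≤ (1 - ‖u‖^2) * ‖(aa : ℂ) + conj u‖ ^ 2 :=
    mul_le_mul_of_nonneg_right (by linarith) (by positivity)
  rw [h1, mul_comm] at h5
  have h6 := le_of_mul_le_mul_left h5 h4
  rw [h2] at h6
  linarith

/-- the orbit point of minimal modulus lies in the central face -/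
theorem orb_aux8 {F : ℂ → ℂ} (hF : AGF F) {z : ℂ} (hz : z ∈ ball (0:ℂ) 1) :
    ∃ g t : ℂ → ℂ, Gp g t ∧ g z ∈ Tri := by
  have hz1 : ‖z‖ < 1 := by rwa [mem_ball_zero_iff] at hz
  obtain ⟨x0, ⟨hx0, g, t, h, hgz⟩, hmin⟩ := Set.exists_min_image _ (fun x : ℂ => ‖x‖)
    (orbit_fin hF hz hz1) ⟨z, le_refl _, _, _, Gp.one, rfl⟩
  refine ⟨g, t, h, ?_⟩
  rw [hgz]
  have hmin' : ∀ g' t' : ℂ → ℂ, Gp g' t' → ‖x0‖ ≤ ‖g' z‖ := by
    intro g' t' h'
    rcases le_or_gt ‖g' z‖ ‖z‖ with h1 | h1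
    · exact hmin _ ⟨h1, g', t', h', rfl⟩
    · exact hx0.trans h1.le
  refine ⟨hx0.trans_lt hz1, fun k => ?_⟩
  obtain ⟨g', t', h', h1⟩ := orb_aux6 k h
  have h2 := hmin' _ _ (Gp.rf h')
  rw [h1, hgz] at h2
  have h3 : ‖om^k * x0‖ = ‖x0‖ := by rw [norm_mul, norm_pow, om_norm, one_pow, one_mul]
  have h4 : ‖om^k * x0‖ < 1 := by
    rw [h3]
    exact hx0.trans_lt hz1
  have h5 := orb_aux7 h4 (by rwa [h3])
  rw [h3, mul_comm (om^k) x0] at h5
  exact h5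

theorem cover {F : ℂ → ℂ} (hF : AGF F) {z : ℂ} (hz : z ∈ ball (0:ℂ) 1) :
    ∃ g t : ℂ → ℂ, ∃ A B ζ l : ℂ, Gpo g t A B ζ l ∧ ∃ z' ∈ Tri, g z' = z := by
  obtain ⟨g, t, h, hx⟩ := orb_aux8 hF hz
  obtain ⟨g', t', h', h1, -⟩ := h.inv
  rcases h'.orient with ⟨A, B, ζ, l, h2⟩ | ⟨A, B, ζ, l, h2⟩
  · exact ⟨g', t', A, B, ζ, l, h2, g z, hx, (h1 z hz).1⟩
  · refine ⟨_, _, A, B, ζ, l, h2, conj (g z), tri_conj hx, ?_⟩
    rw [Complex.conj_conj]
    exact (h1 z hz).1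

end AG
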