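import Pool.Agent.Bloch.Geom
import Pool.Agent.Bloch.Gp
import Pool.Agent.Bloch.Orb

set_option autoImplicit false

noncomputable section

namespace AG

open Complex Metric Set
open scoped ComplexConjugate

/-! ## module RIG (uses GEOM, GP, comp_F) -/

theorem rig_tin_ball {z : ℂ} (hz : z ∈ Tin) : z ∈ ball (0:ℂ) 1 := by
  simpa using hz.1

/-- `F` maps the open face into the interior of the Euclidean triangle -/
theorem rig_int {F : ℂ → ℂ} (hF : AGF F) {q : ℂ} (hq : q ∈ Tin) : F q ∈ interior Del := by
  have hT : IsOpen Tin := tin_open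
  have hd : DifferentiableOn ℂ F Tin := hF.diff.mono fun z hz => rig_tin_ball hz
  have hinj : InjOn F Tin := hF.inj.mono tin_sub
  have han : AnalyticAt ℂ F q := (hd.analyticOnNhd hT) q hq
  rcases han.eventually_constant_or_nhds_le_map_nhds with h | h
  · exfalso
    have h1 : ∀ᶠ z in nhds q, F z = F q ∧ z ∈ Tin := h.and (hT.mem_nhds hq)
    have h2 : ∀ᶠ z in nhds q, z = q := h1.mono fun z hz => hinj hz.2 hq hz.1
    have h3 : ∀ᶠ z in nhdsWithin q {q}ᶜ, False := by
      filter_upwards [h2.filter_mono nhdsWithin_le_nhds, self_mem_nhdsWithin] with z hz hz'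
      exact hz' hz
    exact (NormedField.nhdsNE_neBot q).ne (Filter.eventually_false_iff_eq_bot.1 h3)
  · rw [mem_interior_iff_mem_nhds]
    have h1 : F '' Tin ∈ Filter.map F (nhds q) := Filter.image_mem_map (hT.mem_nhds hq)
    refine Filter.mem_of_superset (h h1) ?_
    rintro _ ⟨z, hz, rfl⟩
    rw [← hF.img]
    exact ⟨z, tin_sub hz, rfl⟩

theorem rig_bar_sum (w : ℂ) : bar 0 w + bar 1 w + bar 2 w = 1 := by
  have h : (w * om^0).re + (w * om^1).re + (w * om^2).re = 0 := by
    have : w * om^0 + w * om^1 + w * om^2 = 0 := by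
      have := om_sum
      linear_combination w * this
    have h2 := congrArg Complex.re this
    simpa using h2
  have hb := bt_pos
  unfold bar
  have : bt ≠ 0 := hb.ne'
  simp only [pow_zero, mul_one, pow_one] at h ⊢
  field_simp
  linear_combination 2 * h

theorem rig_bar_pos {F : ℂ → ℂ} (hF : AGF F) {q : ℂ} (hq : q ∈ Tin) (k : ℕ) : 0 < bar k (F q) := by
  have h := del_int (rig_int hF hq) k
  have hb := bt_pos
  unfold bar
  have : -1 < 2 * (F q * om^k).re / bt := by
    rw [lt_div_iff₀ hb]
    linarith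
  linarith

theorem rig_bar_nonneg {w : ℂ} (hw : w ∈ Del) (k : ℕ) : 0 ≤ bar k w := by
  have h := hw k
  have hb := bt_pos
  unfold bar
  have : -1 ≤ 2 * (w * om^k).re / bt := by
    rw [le_div_iff₀ hb]
    linarith
  linarith

theorem rig_bar_zero (k : ℕ) : bar k 0 = 1/3 := by
  simp [bar]

theorem rig_eq_zero {w : ℂ} (h : ∀ k < 3, bar k w = 1/3) : w = 0 := by
  have hb := bt_pos
  have hb' : bt ≠ 0 := hb.ne'
  have h0 := h 0 (by norm_num)
  have h1 := h 1 (by norm_num)
  unfold bar at h0 h1
  simp only [pow_zero, mul_one, pow_one] at h0 h1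
  have e0 : w.re = 0 := by
    field_simp at h0
    linarith
  have e1 : (w * om).re = 0 := by
    field_simp at h1
    linarith
  rw [Complex.mul_re, e0] at e1
  have h3 : w.im = 0 := by
    have : w.im * om.im = 0 := by linarith
    rcases mul_eq_zero.1 this with h | h
    · exact h
    · exfalso
      have : om.im = Real.sqrt 3 / 2 := rfl
      rw [this] at h
      have : 0 < Real.sqrt 3 := Real.sqrt_pos.2 (by norm_num)
      linarith
  exact Complex.ext e0 h3

/-- a quadratic polynomial vanishing near a point vanishes identically -/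
theorem rig_poly {a b c q : ℂ} (h : ∀ᶠ z in nhds q, a * z^2 + b * z + c = 0) (z : ℂ) :
    a * z^2 + b * z + c = 0 := by
  have h1 : AnalyticOnNhd ℂ (fun z : ℂ => a * z^2 + b * z + c) univ := by
    intro x _
    fun_prop
  have h2 := h1.eqOn_of_preconnected_of_eventuallyEq (g := fun _ => 0)
    (fun x _ => analyticAt_const) isPreconnected_univ (mem_univ q) h
  exact h2 (mem_univ z)

theorem rig_den {A B : ℂ} (hAB : ‖A‖^2 - ‖B‖^2 = 1) {z : ℂ} (hz : ‖z‖ < 1) : conj B * z + conj A ≠ 0 := by
  intro h
  have h1 : conj A = - (conj B * z) := by linear_combination h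
  have h2 : ‖A‖ = ‖B‖ * ‖z‖ := by
    have := congrArg norm h1
    rw [norm_neg, norm_mul, Complex.norm_conj, Complex.norm_conj] at this
    exact this
  have h3 := norm_nonneg B
  have h4 := norm_nonneg z
  rw [h2] at hAB
  have h5 : ‖z‖^2 ≤ 1 := by nlinarith
  nlinarith [mul_nonneg h3 h3]

/-- a Moebius map which agrees near a point with a rotation is a rotation -/
theorem rig_moeb {A B η q : ℂ} (hAB : ‖A‖^2 - ‖B‖^2 = 1) (hq : ‖q‖ < 1)
    (h : ∀ᶠ z in nhds q, (A * z + B) / (conj B * z + conj A) = η * z) {z : ℂ} (hz : ‖z‖ < 1) :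
    (A * z + B) / (conj B * z + conj A) = η * z := by
  have h1 : ∀ᶠ z in nhds q, (-(η * conj B)) * z^2 + (A - η * conj A) * z + B = 0 := by
    have h2 : ∀ᶠ z : ℂ in nhds q, ‖z‖ < 1 := by
      have : ball (0:ℂ) 1 ∈ nhds q := isOpen_ball.mem_nhds (by simpa using hq)
      filter_upwards [this] with z hz
      simpa using hz
    filter_upwards [h, h2] with z hz1 hz2
    rw [div_eq_iff (rig_den hAB hz2)] at hz1
    linear_combination hz1
  have h3 := rig_poly h1 z
  rw [div_eq_iff (rig_den hAB hz)]
  linear_combination h3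

theorem rig_om_pow (k : ℕ) : om^k * om^(2*k) = 1 := by
  rw [← pow_add, show k + 2 * k = 3 * k by ring, pow_mul, om_cube, one_pow]

theorem rig_tri_om {z : ℂ} (hz : z ∈ Tri) (k : ℕ) : om^k * z ∈ Tri := by
  induction k with
  | zero => simpa using hz
  | succ k ih =>
    have := tri_om ih
    rwa [← mul_assoc, ← pow_succ'] at this

theorem rig_F_om {F : ℂ → ℂ} (hF : AGF F) {z : ℂ} (hz : ‖z‖ < 1) (k : ℕ) : F (om^k * z) = om^k * F z := by
  induction k with
  | zero => simp
  | succ k ih =>
    have h1 : ‖om^k * z‖ < 1 := by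
      rw [norm_mul, norm_pow, om_norm, one_pow, one_mul]
      exact hz
    have h2 := hF.rt (om^k * z) (by simpa using h1)
    rw [ih, ← mul_assoc, ← mul_assoc, ← pow_succ'] at h2
    exact h2

theorem rig_conj_om (k : ℕ) : conj (om^k) = om^(2*k) := by
  rw [map_pow, om_conj, ← pow_mul]

theorem rigid {F : ℂ → ℂ} (hF : AGF F) {g t : ℂ → ℂ} (h : Gp g t) {q : ℂ} (hq : q ∈ Tin)
    (hgq : g q ∈ Tri) : ∃ k : ℕ,
    ((∀ z ∈ ball (0:ℂ) 1, g z = om^k * z) ∧ (∀ w, t w = om^k * w)) ∨
    ((∀ z ∈ ball (0:ℂ) 1, g z = om^k * conj z) ∧ (∀ w, t w = om^k * conj w)) := by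
  have hb := bt_pos
  have hqb : q ∈ ball (0:ℂ) 1 := rig_tin_ball hq
  have hqn : ‖q‖ < 1 := hq.1
  have hFg : ∀ z ∈ ball (0:ℂ) 1, F (g z) = t (F z) := fun z hz => comp_F hF h hz
  have hDel : t (F q) ∈ Del := by
    rw [← hFg q hqb, ← hF.img]
    exact ⟨_, hgq, rfl⟩
  -- barycentric coordinates
  obtain ⟨σ, p, n, hσ, hp, hbar⟩ := h.bary
  have hx : ∀ k, 0 < bar k (F q) := rig_bar_pos hF hq
  have hxs := rig_bar_sum (F q)
  have hx1 : ∀ k < 3, bar k (F q) < 1 := by
    intro k hk
    interval_cases k
    · linarith [hx 1, hx 2]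
    · linarith [hx 0, hx 2]
    · linarith [hx 0, hx 1]
  have hy : ∀ k, 0 ≤ bar k (t (F q)) := rig_bar_nonneg hDel
  have hys := rig_bar_sum (t (F q))
  have hy1 : ∀ k < 3, bar k (t (F q)) ≤ 1 := by
    intro k hk
    interval_cases k
    · linarith [hy 1, hy 2]
    · linarith [hy 0, hy 2]
    · linarith [hy 0, hy 1]
  have hn : σ = 1 ∧ ∀ k < 3, n k = 0 := by
    rcases hσ with ⟨hs, hsum⟩ | ⟨hs, hsum⟩
    · refine ⟨hs, fun k hk => ?_⟩
      have h1 := hbar k hk (F q)
      have h2 := hx (p k)
      have h3 := hx1 (p k) (hp k hk)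
      have h4 := hy k
      have h5 := hy1 k hk
      rw [h1, hs] at h4 h5
      push_cast at h4 h5
      have h6 : (-1:ℝ) < n k := by linarith
      have h7 : (n k : ℝ) < 1 := by linarith
      have h8 : (-1:ℤ) < n k := by exact_mod_cast h6
      have h9 : (n k : ℤ) < 1 := by exact_mod_cast h7
      omega
    · exfalso
      have hn1 : ∀ k < 3, n k = 1 := by
        intro k hk
        have h1 := hbar k hk (F q)
        have h2 := hx (p k)
        have h3 := hx1 (p k) (hp k hk)
        have h4 := hy k
        have h5 := hy1 k hk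
        rw [h1, hs] at h4 h5
        push_cast at h4 h5
        have h6 : (0:ℝ) < n k := by linarith
        have h7 : (n k : ℝ) < 2 := by linarith
        have h8 : (0:ℤ) < n k := by exact_mod_cast h6
        have h9 : (n k : ℤ) < 2 := by exact_mod_cast h7
        omega
      have e0 := hn1 0 (by norm_num)
      have e1 := hn1 1 (by norm_num)
      have e2 := hn1 2 (by norm_num)
      omega
  have hbar' : ∀ k < 3, ∀ w, bar k (t w) = bar (p k) w := by
    intro k hk w
    rw [hbar k hk w, hn.1, hn.2 k hk]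
    simp
  have ht0 : t 0 = 0 := by
    apply rig_eq_zero
    intro k hk
    rw [hbar' k hk, rig_bar_zero]
  -- values at bt
  have hbt0 : bar 0 (bt:ℂ) = 1 := by
    unfold bar
    simp
    field_simp
    norm_num
  have hbt1 : bar 1 (bt:ℂ) = 0 := by
    unfold bar
    have : ((bt:ℂ) * om^1).re = bt * (-1/2) := by
      simp [om]
    rw [this]
    field_simp
    norm_num
  have hbt2 : bar 2 (bt:ℂ) = 0 := by
    have := rig_bar_sum (bt:ℂ)
    linarith
  have hval : ∀ k < 3, bar k (t bt) = 0 ∨ bar k (t bt) = 1 := by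
    intro k hk
    rw [hbar' k hk]
    have := hp k hk
    interval_cases (p k)
    · right; exact hbt0
    · left; exact hbt1
    · left; exact hbt2
  have hex : ∃ k < 3, bar k (t bt) = 1 := by
    by_contra hcon
    push Not at hcon
    have h0 := (hval 0 (by norm_num)).resolve_right (hcon 0 (by norm_num))
    have h1 := (hval 1 (by norm_num)).resolve_right (hcon 1 (by norm_num))
    have h2 := (hval 2 (by norm_num)).resolve_right (hcon 2 (by norm_num))
    have := rig_bar_sum (t bt)
    linarith
  obtain ⟨k, hk, hk1⟩ := hex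
  obtain ⟨A, B, ζ, l, hAB, hζ, hform⟩ := h.form
  -- the rotation part
  have hl : l = 0 := by
    rcases hform with ⟨_, h2⟩ | ⟨_, h2⟩
    · have := h2 0
      rw [ht0] at this
      simpa using this.symm
    · have := h2 0
      rw [ht0] at this
      simpa using this.symm
  have htb : t bt = ζ * bt := by
    rcases hform with ⟨_, h2⟩ | ⟨_, h2⟩
    · rw [h2, hl, add_zero]
    · rw [h2, hl, add_zero, Complex.conj_ofReal]
  have hzo : ζ * om^k = 1 := by
    have h1 : (ζ * om^k).re = 1 := by
      rw [htb] at hk1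
      unfold bar at hk1
      have h2 : (ζ * bt * om^k).re = bt * (ζ * om^k).re := by
        rw [show ζ * bt * om^k = (bt:ℂ) * (ζ * om^k) by ring, Complex.re_ofReal_mul]
      rw [h2] at hk1
      field_simp at hk1
      linarith
    have h3 : ‖ζ * om^k‖ = 1 := by
      rw [norm_mul, norm_pow, om_norm, hζ]
      simp
    have h4 : (ζ * om^k).im = 0 := by
      have h5 := Complex.sq_norm (ζ * om^k)
      rw [Complex.normSq_apply, h3, h1] at h5
      nlinarith
    exact Complex.ext (by simpa using h1) (by simpa using h4)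
  have hzeta : ζ = om^(2*k) := by
    have := rig_om_pow k
    calc ζ = ζ * (om^k * om^(2*k)) := by rw [this, mul_one]
      _ = (ζ * om^k) * om^(2*k) := by ring
      _ = om^(2*k) := by rw [hzo, one_mul]
  refine ⟨2*k, ?_⟩
  have hcont_ball : ball (0:ℂ) 1 ∈ nhds q := isOpen_ball.mem_nhds hqb
  rcases hform with ⟨h1, h2⟩ | ⟨h1, h2⟩
  · left
    refine ⟨?_, fun w => by rw [h2, hl, add_zero, hzeta]⟩
    -- g' = om^k g
    have hF1 : ∀ z ∈ ball (0:ℂ) 1, F (om^k * g z) = F z := by
      intro z hz
      have hgz : ‖g z‖ < 1 := by simpa using h.mapsTo hz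
      rw [rig_F_om hF hgz, hFg z hz, h2, hl, add_zero, ← mul_assoc, mul_comm (om^k) ζ, hzo, one_mul]
    have hq1 : om^k * g q = q := hF.inj (rig_tri_om hgq k) (tin_sub hq) (hF1 q hqb)
    have hcg : ContinuousAt (fun z => om^k * ((A * z + B) / (conj B * z + conj A))) q := by
      have := rig_den hAB hqn
      fun_prop (disch := exact this)
    have hev : ∀ᶠ z in nhds q, om^k * ((A * z + B) / (conj B * z + conj A)) ∈ Tin := by
      apply hcg.eventually_mem
      rw [← h1 q hqb, hq1]
      exact tin_open.mem_nhds hq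
    have hev2 : ∀ᶠ z in nhds q, (A * z + B) / (conj B * z + conj A) = om^(2*k) * z := by
      filter_upwards [hev, hcont_ball, tin_open.mem_nhds hq] with z hz1 hz2 hz3
      rw [← h1 z hz2] at hz1 ⊢
      have h5 := hF.inj (tin_sub hz1) (tin_sub hz3) (hF1 z hz2)
      calc g z = (om^k * om^(2*k)) * g z := by rw [rig_om_pow, one_mul]
        _ = om^(2*k) * (om^k * g z) := by ring
        _ = om^(2*k) * z := by rw [h5]
    intro z hz
    rw [h1 z hz]
    exact rig_moeb hAB hqn hev2 (by simpa using hz)
  · right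
    refine ⟨?_, fun w => by rw [h2, hl, add_zero, hzeta]⟩
    have hcz : ∀ z : ℂ, ‖z‖ < 1 → conj z ∈ ball (0:ℂ) 1 := fun z hz => by
      simpa using hz
    -- F (conj (om^k g z)) = F z
    have hF1 : ∀ z ∈ ball (0:ℂ) 1, F (conj (om^k * g z)) = F z := by
      intro z hz
      have hgz : ‖g z‖ < 1 := by simpa using h.mapsTo hz
      have hgz2 : om^k * g z ∈ ball (0:ℂ) 1 := by
        rw [mem_ball_zero_iff, norm_mul, norm_pow, om_norm, one_pow, one_mul]
        exact hgz
      rw [hF.cj _ hgz2, rig_F_om hF hgz, hFg z hz, h2, hl, add_zero, ← mul_assoc, mul_comm (om^k) ζ, hzo,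
        one_mul, Complex.conj_conj]
    have hq1 : conj (om^k * g q) = q :=
      hF.inj (tri_conj (rig_tri_om hgq k)) (tin_sub hq) (hF1 q hqb)
    have hcg : ContinuousAt (fun z => conj (om^k * ((A * conj z + B) / (conj B * conj z + conj A)))) q := by
      have := rig_den hAB (z := conj q) (by simpa using hqn)
      have hc : ContinuousAt (fun z : ℂ => conj z) q := Complex.continuous_conj.continuousAt
      refine Complex.continuous_conj.continuousAt.comp ?_
      refine continuousAt_const.mul ?_
      exact ((continuousAt_const.mul hc).add continuousAt_const).div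
        ((continuousAt_const.mul hc).add continuousAt_const) this
    have hev : ∀ᶠ z in nhds q, conj (om^k * ((A * conj z + B) / (conj B * conj z + conj A))) ∈ Tin := by
      apply hcg.eventually_mem
      rw [← h1 q hqb, hq1]
      exact tin_open.mem_nhds hq
    have hev2 : ∀ᶠ z in nhds q, (A * conj z + B) / (conj B * conj z + conj A) = om^(2*k) * conj z := by
      filter_upwards [hev, hcont_ball, tin_open.mem_nhds hq] with z hz1 hz2 hz3
      rw [← h1 z hz2] at hz1 ⊢
      have h5 := hF.inj (tin_sub hz1) (tin_sub hz3) (hF1 z hz2)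
      have h6 : om^k * g z = conj z := by
        rw [← h5, Complex.conj_conj, h5]
      calc g z = (om^k * om^(2*k)) * g z := by rw [rig_om_pow, one_mul]
        _ = om^(2*k) * (om^k * g z) := by ring
        _ = om^(2*k) * conj z := by rw [h6]
    have hev3 : ∀ᶠ z in nhds (conj q), (A * z + B) / (conj B * z + conj A) = om^(2*k) * z := by
      have ht : Filter.Tendsto (fun z : ℂ => conj z) (nhds (conj q)) (nhds q) := by
        have := Complex.continuous_conj.tendsto (conj q)
        rwa [Complex.conj_conj] at this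
      have := ht.eventually hev2
      simpa [Complex.conj_conj] using this
    intro z hz
    rw [h1 z hz]
    exact rig_moeb hAB (by simpa using hqn) hev3 (by simpa using hz)

end AG
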