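import Pool.Agent.Bloch.Geom
import Pool.Agent.Bloch.Gp
import Pool.Agent.Bloch.Orb

set_option autoImplicit false

noncomputable section

namespace AG

open Complex Metric Set
open scoped ComplexConjugate

theorem vert_or {v : ℂ} (hv : v ∈ Vert) :
    ∃ g t : ℂ → ℂ, ∃ A B ζ l : ℂ, Gpo g t A B ζ l ∧ g rv = v := by
  obtain ⟨g, t, h, hg⟩ := hv
  rcases h.orient with ⟨A, B, ζ, l, ho⟩ | ⟨A, B, ζ, l, ho⟩
  · exact ⟨g, t, A, B, ζ, l, ho, hg⟩
  · refine ⟨_, _, A, B, ζ, l, ho, ?_⟩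
    simp only [conj_ofReal]
    exact hg

theorem vert_rot (k : ℕ) : Gp (fun z => om ^ k * z) (fun w => om ^ k * w) := by
  induction k with
  | zero => simpa using Gp.one
  | succ k ih =>
    have h := ih.rt
    have e1 : (fun z : ℂ => om * (om ^ k * z)) = fun z => om ^ (k + 1) * z := by
      funext z; rw [pow_succ]; ring
    rw [e1] at h
    exact h

theorem vert_map {g t : ℂ → ℂ} (h : Gp g t) (k : ℕ) : g (rv * om^k) ∈ Vert := by
  refine ⟨_, _, h.comp (vert_rot k), ?_⟩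
  show g (om ^ k * rv) = g (rv * om ^ k)
  rw [mul_comm]

theorem vert_rv_mem : (rv : ℂ) ∈ ball (0 : ℂ) 1 := by
  have h1 := rv_pos
  have h2 := rv_lt
  rw [mem_ball_zero_iff, norm_real, Real.norm_of_nonneg h1.le]
  exact h2

theorem vert_den {A B : ℂ} (h : ‖A‖^2 - ‖B‖^2 = 1) {z : ℂ} (hz : z ∈ ball (0:ℂ) 1) :
    conj B * z + conj A ≠ 0 := by
  intro h0
  have hz' : ‖z‖ < 1 := by simpa using hz
  have h1 : conj A = - (conj B * z) := by linear_combination h0
  have h2 : ‖A‖ = ‖B‖ * ‖z‖ := by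
    have := congrArg norm h1
    rwa [norm_neg, norm_mul, norm_conj, norm_conj] at this
  rw [h2, mul_pow] at h
  have h3 : ‖z‖ ^ 2 ≤ 1 := by nlinarith [norm_nonneg z]
  nlinarith [sq_nonneg ‖B‖, mul_nonneg (sq_nonneg ‖B‖) (sub_nonneg.2 h3)]

theorem vert_g_deriv {g t : ℂ → ℂ} {A B ζ l : ℂ} (h : Gpo g t A B ζ l) {z : ℂ}
    (hz : z ∈ ball (0:ℂ) 1) : HasDerivAt g ((conj B * z + conj A)^2)⁻¹ z := by
  obtain ⟨-, hn, -, hg, -⟩ := h
  have hd := vert_den hn hz
  have h1 : HasDerivAt (fun z => A * z + B) A z := by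
    simpa using ((hasDerivAt_id z).const_mul A).add_const B
  have h2 : HasDerivAt (fun z => conj B * z + conj A) (conj B) z := by
    simpa using ((hasDerivAt_id z).const_mul (conj B)).add_const (conj A)
  have h3 := h1.div h2 hd
  have e : (A * (conj B * z + conj A) - (A * z + B) * conj B) / (conj B * z + conj A) ^ 2 =
      ((conj B * z + conj A)^2)⁻¹ := by
    rw [div_eq_mul_inv]
    have : A * (conj B * z + conj A) - (A * z + B) * conj B = 1 := by
      have hA : A * conj A = ((‖A‖ ^ 2 : ℝ) : ℂ) := by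
        rw [mul_conj, normSq_eq_norm_sq]
      have hB : B * conj B = ((‖B‖ ^ 2 : ℝ) : ℂ) := by
        rw [mul_conj, normSq_eq_norm_sq]
      have hAB : A * conj A - B * conj B = 1 := by
        rw [hA, hB, ← ofReal_sub, hn, ofReal_one]
      linear_combination hAB
    rw [this, one_mul]
  rw [e] at h3
  refine h3.congr_of_eventuallyEq ?_
  filter_upwards [isOpen_ball.mem_nhds hz] with w hw
  exact hg w hw

theorem vert_F_diffAt {F : ℂ → ℂ} (hF : AGF F) {z : ℂ} (hz : z ∈ ball (0:ℂ) 1) :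
    DifferentiableAt ℂ F z := hF.diff.differentiableAt (isOpen_ball.mem_nhds hz)

theorem vert_F'_diffAt {F : ℂ → ℂ} (hF : AGF F) {z : ℂ} (hz : z ∈ ball (0:ℂ) 1) :
    DifferentiableAt ℂ (deriv F) z :=
  (hF.diff.deriv isOpen_ball).differentiableAt (isOpen_ball.mem_nhds hz)

/-- first derivative of the functional equation -/
theorem vert_d1 {F : ℂ → ℂ} (hF : AGF F) {g t : ℂ → ℂ} {A B ζ l : ℂ} (h : Gpo g t A B ζ l) {z : ℂ}
    (hz : z ∈ ball (0:ℂ) 1) :
    deriv F (g z) * ((conj B * z + conj A)^2)⁻¹ = ζ * deriv F z := by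
  have hgz := h.1.mapsTo hz
  have h1 : HasDerivAt (fun w => F (g w)) (deriv F (g z) * ((conj B * z + conj A)^2)⁻¹) z :=
    (vert_F_diffAt hF hgz).hasDerivAt.comp z (vert_g_deriv h hz)
  have h2 : HasDerivAt (fun w => ζ * F w + l) (ζ * deriv F z) z :=
    ((vert_F_diffAt hF hz).hasDerivAt.const_mul ζ).add_const l
  have h3 : (fun w => F (g w)) =ᶠ[nhds z] (fun w => ζ * F w + l) := by
    filter_upwards [isOpen_ball.mem_nhds hz] with w hw
    rw [comp_F hF h.1 hw, h.2.2.2.2]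
  exact h1.unique (h2.congr_of_eventuallyEq h3)

/-- second derivative of the functional equation -/
theorem vert_d2 {F : ℂ → ℂ} (hF : AGF F) {g t : ℂ → ℂ} {A B ζ l : ℂ} (h : Gpo g t A B ζ l) {z : ℂ}
    (hz : z ∈ ball (0:ℂ) 1) (h0 : deriv F (g z) = 0) :
    deriv (deriv F) (g z) = ζ * deriv (deriv F) z * (conj B * z + conj A)^4 := by
  have hgz := h.1.mapsTo hz
  have hden := vert_den h.2.1 hz
  have hD : HasDerivAt (fun w => ((conj B * w + conj A)^2)⁻¹)
      (deriv (fun w => ((conj B * w + conj A)^2)⁻¹) z) z := by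
    apply DifferentiableAt.hasDerivAt
    apply DifferentiableAt.inv
    · fun_prop
    · exact pow_ne_zero 2 hden
  have h1 : HasDerivAt (fun w => deriv F (g w) * ((conj B * w + conj A)^2)⁻¹)
      (deriv (deriv F) (g z) * ((conj B * z + conj A)^2)⁻¹ * ((conj B * z + conj A)^2)⁻¹ +
        deriv F (g z) * deriv (fun w => ((conj B * w + conj A)^2)⁻¹) z) z :=
    ((vert_F'_diffAt hF hgz).hasDerivAt.comp z (vert_g_deriv h hz)).mul hD
  have h2 : HasDerivAt (fun w => ζ * deriv F w) (ζ * deriv (deriv F) z) z :=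
    (vert_F'_diffAt hF hz).hasDerivAt.const_mul ζ
  have h3 : (fun w => deriv F (g w) * ((conj B * w + conj A)^2)⁻¹) =ᶠ[nhds z]
      (fun w => ζ * deriv F w) := by
    filter_upwards [isOpen_ball.mem_nhds hz] with w hw
    exact vert_d1 hF h hw
  have h4 := h1.unique (h2.congr_of_eventuallyEq h3)
  rw [h0, zero_mul, add_zero] at h4
  have : (conj B * z + conj A)^2 ≠ 0 := pow_ne_zero 2 hden
  field_simp at h4
  linear_combination h4

theorem vert_bary {F : ℂ → ℂ} (hF : AGF F) {v : ℂ} (hv : v ∈ Vert) : v ≠ 0 := by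
  obtain ⟨g, t, h, hg⟩ := hv
  intro h0
  have h1 : F (g rv) = t (F rv) := comp_F hF h vert_rv_mem
  rw [hg, h0, hF.zero, hF.vert] at h1
  obtain ⟨σ, p, n, -, hp, hb⟩ := h.bary
  have h2 := hb 0 (by norm_num) (bt : ℂ)
  rw [← h1] at h2
  have hbt := bt_pos
  have h3 : bar 0 0 = 1 / 3 := by simp [bar]
  have h4 : ∀ k < 3, bar k (bt : ℂ) = if k = 0 then 1 else 0 := by
    intro k hk
    have e : ∀ w : ℂ, ((bt : ℂ) * w).re = bt * w.re := fun w => by simp
    interval_cases k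
    · simp only [bar, e]
      field_simp
      norm_num
    · simp only [bar, e, pow_one]
      have : om.re = -1 / 2 := by simp [om]
      rw [this]
      field_simp
      norm_num
    · simp only [bar, e]
      have : (om ^ 2).re = -1 / 2 := by
        rw [← om_conj]; simp [om]
      rw [this]
      field_simp
      norm_num
  rw [h3, h4 (p 0) (hp 0 (by norm_num))] at h2
  split_ifs at h2
  · have : (1 : ℝ) = ((3 * (σ + n 0) : ℤ) : ℝ) := by push_cast; linarith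
    have h5 : (1 : ℤ) = 3 * (σ + n 0) := by exact_mod_cast this
    omega
  · have : (1 : ℝ) = ((3 * (n 0) : ℤ) : ℝ) := by push_cast; linarith
    have h5 : (1 : ℤ) = 3 * (n 0) := by exact_mod_cast this
    omega

theorem vert_crit {F : ℂ → ℂ} (hF : AGF F) {v : ℂ} (hv : v ∈ Vert) :
    v ∈ ball (0:ℂ) 1 ∧ v ≠ 0 ∧ deriv F v = 0 ∧ deriv (deriv F) v ≠ 0 := by
  have hne := vert_bary hF hv
  obtain ⟨g, t, A, B, ζ, l, h, hg⟩ := vert_or hv
  have hrv := vert_rv_mem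
  have hden := vert_den h.2.1 hrv
  have hv' : v ∈ ball (0:ℂ) 1 := by rw [← hg]; exact h.1.mapsTo hrv
  have h1 := vert_d1 hF h hrv
  rw [hF.crit, mul_zero, hg] at h1
  have h2 : deriv F v = 0 := by
    rcases mul_eq_zero.1 h1 with h | h
    · exact h
    · exact absurd (inv_eq_zero.1 h) (pow_ne_zero 2 hden)
  refine ⟨hv', hne, h2, ?_⟩
  have h3 := vert_d2 hF h hrv (by rw [hg]; exact h2)
  rw [hg] at h3
  rw [h3]
  have hζ : ζ ≠ 0 := by
    intro h0
    have := h.2.2.1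
    rw [h0, norm_zero] at this
    exact zero_ne_one this
  exact mul_ne_zero (mul_ne_zero hζ hF.crit2) (pow_ne_zero 4 hden)

theorem vert_fin {F : ℂ → ℂ} (hF : AGF F) {R : ℝ} (hR : R < 1) : {v | v ∈ Vert ∧ ‖v‖ ≤ R}.Finite := by
  refine (orbit_fin hF vert_rv_mem hR).subset ?_
  rintro v ⟨⟨g, t, h, hg⟩, hv⟩
  exact ⟨hv, g, t, h, hg⟩

theorem vert_comp {g t : ℂ → ℂ} (h : Gp g t) {v : ℂ} (hv : v ∈ Vert) : g v ∈ Vert := by
  obtain ⟨g', t', h', hg'⟩ := hv
  exact ⟨_, _, h.comp h', by show g (g' rv) = g v; rw [hg']⟩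

/-- transformation of the second derivative -/
theorem vert_tr {F : ℂ → ℂ} (hF : AGF F) {g t : ℂ → ℂ} {A B ζ l : ℂ} (h : Gpo g t A B ζ l) {v : ℂ}
    (hv : v ∈ Vert) : deriv (deriv F) (g v) = ζ * deriv (deriv F) v * (conj B * v + conj A)^4 :=
  vert_d2 hF h (vert_crit hF hv).1 (vert_crit hF (vert_comp h.1 hv)).2.2.1

/-- `1 - |g z|^2` -/
theorem vert_one_sub {A B z : ℂ} (hn : ‖A‖^2 - ‖B‖^2 = 1) (hd : conj B * z + conj A ≠ 0) :
    1 - ‖(A * z + B) / (conj B * z + conj A)‖^2 = (1 - ‖z‖^2) / ‖conj B * z + conj A‖^2 := by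
  have hp : ‖conj B * z + conj A‖ ≠ 0 := norm_ne_zero_iff.2 hd
  rw [norm_div, div_pow, eq_div_iff (pow_ne_zero 2 hp), sub_mul, div_mul_cancel₀ _ (pow_ne_zero 2 hp),
    one_mul]
  have e : ∀ w : ℂ, ‖w‖^2 = w.re * w.re + w.im * w.im := fun w => by
    rw [← normSq_eq_norm_sq, normSq_apply]
  rw [e, e, e]
  rw [e A, e B] at hn
  simp only [add_re, mul_re, add_im, mul_im, conj_re, conj_im]
  linear_combination (1 - (z.re * z.re + z.im * z.im)) * hn

/-- control of the second derivative at the vertices -/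
theorem vert_F2 {F : ℂ → ℂ} (hF : AGF F) : ∃ C > 0, ∀ v ∈ Vert,
    ‖(v^2 * deriv (deriv F) v)⁻¹‖ ≤ C * (1 - ‖v‖^2)^2 := by
  -- lower bound for |v|
  obtain ⟨c, hc, hcv⟩ : ∃ c > 0, ∀ v ∈ Vert, c ≤ ‖v‖ := by
    have hfin := vert_fin hF (R := 1/2) (by norm_num)
    by_cases hne : {v | v ∈ Vert ∧ ‖v‖ ≤ 1/2}.Nonempty
    · obtain ⟨v0, hv0, hmin⟩ := Set.exists_min_image _ (fun v : ℂ => ‖v‖) hfin hne
      refine ⟨‖v0‖, norm_pos_iff.2 (vert_bary hF hv0.1), fun v hv => ?_⟩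
      by_cases h : ‖v‖ ≤ 1/2
      · exact hmin v ⟨hv, h⟩
      · exact hv0.2.trans (not_le.1 h).le
    · refine ⟨1/2, by norm_num, fun v hv => ?_⟩
      by_contra h
      exact hne ⟨v, hv, (not_le.1 h).le⟩
  have hrv := vert_rv_mem
  have hr1 : 0 < 1 - rv ^ 2 := by
    have h1 := rv_pos
    have h2 := rv_lt
    nlinarith
  have hF0 : 0 < ‖deriv (deriv F) rv‖ := norm_pos_iff.2 hF.crit2
  refine ⟨1 / (c ^ 2 * (‖deriv (deriv F) rv‖ * (1 - rv ^ 2) ^ 2)), by positivity, fun v hv => ?_⟩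
  obtain ⟨g, t, A, B, ζ, l, h, hg⟩ := vert_or hv
  have hden := vert_den h.2.1 hrv
  have hvc := vert_crit hF hv
  have h3 := vert_d2 hF h hrv (by rw [hg]; exact hvc.2.2.1)
  rw [hg] at h3
  have h4 := vert_one_sub h.2.1 hden
  rw [← h.2.2.2.1 rv hrv, hg, norm_real, Real.norm_of_nonneg rv_pos.le] at h4
  have hp : 0 < ‖conj B * (rv : ℂ) + conj A‖ := norm_pos_iff.2 hden
  rw [norm_inv, norm_mul, norm_pow, h3, norm_mul, norm_mul, h.2.2.1, one_mul, norm_pow, h4]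
  have hcv' : c ^ 2 ≤ ‖v‖ ^ 2 := pow_le_pow_left₀ hc.le (hcv v hv) 2
  set Q := ‖conj B * (rv : ℂ) + conj A‖
  set P := ‖deriv (deriv F) (rv : ℂ)‖
  have e : 1 / (c ^ 2 * (P * (1 - rv ^ 2) ^ 2)) * ((1 - rv ^ 2) / Q ^ 2) ^ 2 =
      (c ^ 2 * (P * Q ^ 4))⁻¹ := by
    field_simp
  rw [e]
  apply inv_anti₀ (by positivity)
  exact mul_le_mul_of_nonneg_right hcv' (by positivity)

end AG
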