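import Pool.Agent.Bloch.Geom
import Pool.Agent.Bloch.Gp
import Pool.Agent.Bloch.Orb
import Pool.Agent.Bloch.Rig
import Pool.Agent.Bloch.Vtx

/-!
The null field: sliding the strip of faces along the geodesic through the midpoints of two sides
(module NULL of the disproof of the Ahlfors-Grunsky conjecture, MP_b327a3_an).
-/

set_option autoImplicit false

noncomputable section

namespace AG

open Complex Metric Set
open scoped ComplexConjugate

theorem null_om_re : om.re = -1/2 := rfl
theorem null_om_im : om.im = Real.sqrt 3 / 2 := rfl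
theorem null_s3 : Real.sqrt 3 * Real.sqrt 3 = 3 := Real.mul_self_sqrt (by norm_num)
theorem null_om2_re : (om^2).re = -1/2 := by
  rw [← om_conj, Complex.conj_re, null_om_re]
theorem null_om2_im : (om^2).im = -(Real.sqrt 3 / 2) := by
  rw [← om_conj, Complex.conj_im, null_om_im]

/-- the half turn about the midpoint of side 1 -/
def null_R1 (z : ℂ) : ℂ := om * (om * s0 (om * (om * conj z)))

/-- the half turn about the midpoint of side 2 -/
def null_R2 (z : ℂ) : ℂ := om * s0 (om * conj z)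

theorem null_R1_eq (z : ℂ) : null_R1 z = -(om^2 + aa * z) / (aa + om * z) := by
  have h1 : conj (om * (om * conj z)) = om * z := by
    rw [map_mul, map_mul, Complex.conj_conj, om_conj]
    linear_combination (om * z) * om_cube
  unfold null_R1 s0
  rw [h1]
  have h2 : om * (om * (-(1 + aa * (om * z)) / (aa + om * z)))
      = (-(om^2 + aa * z * om^3)) / (aa + om * z) := by ring
  rw [h2, om_cube, mul_one]

theorem null_R2_eq (z : ℂ) : null_R2 z = -(om + aa * z) / (aa + om^2 * z) := by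
  have h1 : conj (om * conj z) = om^2 * z := by
    rw [map_mul, Complex.conj_conj, om_conj]
  unfold null_R2 s0
  rw [h1]
  have h2 : om * (-(1 + aa * (om^2 * z)) / (aa + om^2 * z))
      = (-(om + aa * z * om^3)) / (aa + om^2 * z) := by ring
  rw [h2, om_cube, mul_one]

/-- denominators do not vanish in the disc -/
theorem null_den {u z : ℂ} (hu : ‖u‖ = 1) (hz : z ∈ ball (0:ℂ) 1) : (aa:ℂ) + u * z ≠ 0 := by
  intro h
  have h1 : (aa:ℂ) = -(u * z) := eq_neg_of_add_eq_zero_left h
  have h2 : ‖(aa:ℂ)‖ = ‖z‖ := by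
    rw [h1, norm_neg, norm_mul, hu, one_mul]
  have h3 : ‖z‖ < 1 := by simpa using hz
  have h4 := aa_gt
  rw [Complex.norm_real, Real.norm_of_nonneg (by linarith)] at h2
  linarith

theorem null_om2_norm : ‖om^2‖ = 1 := by rw [norm_pow, om_norm, one_pow]

/-- both half turns at once: `R z = -(conj u + aa z) / (aa + u z)` with `u = om` or `u = om^2` -/
theorem null_half {u z : ℂ} (hu : ‖u‖ = 1) (hre : u.re = -1/2) (hz : z ∈ ball (0:ℂ) 1) :
    ‖(aa:ℂ) + u * z‖^2 * (1 - ‖-(conj u + aa * z) / (aa + u * z)‖^2) = (aa^2 - 1) * (1 - ‖z‖^2) ∧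
    ‖(aa:ℂ) + u * z‖^2 * ell (-(conj u + aa * z) / (aa + u * z)) = -(aa^2 - 1) * ell z := by
  have hD : (aa:ℂ) + u * z ≠ 0 := null_den hu hz
  have hDn : ‖(aa:ℂ) + u * z‖ ≠ 0 := norm_ne_zero_iff.mpr hD
  have hu2 : u.re^2 + u.im^2 = 1 := by
    have := Complex.sq_norm u
    rw [hu, Complex.normSq_apply] at this
    nlinarith
  have hn1 : ‖(aa:ℂ) + u * z‖^2 = (aa + (u.re*z.re - u.im*z.im))^2 + (u.re*z.im + u.im*z.re)^2 := by
    rw [Complex.sq_norm, Complex.normSq_apply]
    simp
    ring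
  have hn2 : ‖-(conj u + aa * z)‖^2 = (u.re + aa * z.re)^2 + (-u.im + aa * z.im)^2 := by
    rw [norm_neg, Complex.sq_norm, Complex.normSq_apply]
    simp
    ring
  have hn3 : ‖z‖^2 = z.re^2 + z.im^2 := by
    rw [Complex.sq_norm, Complex.normSq_apply]
    ring
  have hre2 : (-(conj u + aa * z) / (aa + u * z)).re
      = -((u.re + aa * z.re) * (aa + (u.re*z.re - u.im*z.im))
          + (-u.im + aa * z.im) * (u.re*z.im + u.im*z.re)) / ‖(aa:ℂ) + u * z‖^2 := by
    rw [Complex.div_re, ← Complex.sq_norm]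
    simp
    ring
  constructor
  · rw [norm_div, div_pow, mul_sub, mul_div_cancel₀ _ (pow_ne_zero 2 hDn), mul_one, hn1, hn2, hn3]
    nlinarith
  · unfold ell
    rw [norm_div, div_pow, hre2]
    have e1 : ‖(aa:ℂ) + u * z‖^2 * (4 * aa * (-((u.re + aa * z.re) * (aa + (u.re*z.re - u.im*z.im))
          + (-u.im + aa * z.im) * (u.re*z.im + u.im*z.re)) / ‖(aa:ℂ) + u * z‖^2) - 1
          - ‖-(conj u + aa * z)‖^2 / ‖(aa:ℂ) + u * z‖^2)
        = 4 * aa * (-((u.re + aa * z.re) * (aa + (u.re*z.re - u.im*z.im))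
          + (-u.im + aa * z.im) * (u.re*z.im + u.im*z.re))) - ‖(aa:ℂ) + u * z‖^2
          - ‖-(conj u + aa * z)‖^2 := by
      field_simp
    rw [e1, hn1, hn2, hn3, hre]
    have hi : u.im^2 = 3/4 := by nlinarith
    linear_combination (4 * aa * z.re - (1 + z.re^2 + z.im^2)) * hi

/-- the group generated by the two half turns, with the sign of the linear part -/
inductive null_H : (ℂ → ℂ) → (ℂ → ℂ) → ℝ → Prop
  | one : null_H (fun z => z) (fun w => w) 1
  | r1 {g t : ℂ → ℂ} {e : ℝ} : null_H g t e →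
      null_H (fun z => null_R1 (g z)) (fun w => om * (om * (-bt - conj (om * (om * conj (t w)))))) (-e)
  | r2 {g t : ℂ → ℂ} {e : ℝ} : null_H g t e →
      null_H (fun z => null_R2 (g z)) (fun w => om * (-bt - conj (om * conj (t w)))) (-e)

theorem null_H_Gp {g t : ℂ → ℂ} {e : ℝ} (h : null_H g t e) : Gp g t := by
  induction h with
  | one => exact Gp.one
  | r1 _ ih => exact Gp.rt (Gp.rt (Gp.rf (Gp.rt (Gp.rt (Gp.cj ih)))))
  | r2 _ ih => exact Gp.rt (Gp.rf (Gp.rt (Gp.cj ih)))

theorem null_H_t {g t : ℂ → ℂ} {e : ℝ} (h : null_H g t e) : ∃ l : ℂ, ∀ w, t w = e * w + l := by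
  induction h with
  | one => exact ⟨0, fun w => by simp⟩
  | @r1 g t e _ ih =>
    obtain ⟨l, hl⟩ := ih
    refine ⟨-l - bt * om^2, fun w => ?_⟩
    beta_reduce
    rw [hl w]
    simp only [map_mul, Complex.conj_conj, om_conj]
    push_cast
    linear_combination (-(e * w + l)) * (om^3 + 1) * om_cube
  | @r2 g t e _ ih =>
    obtain ⟨l, hl⟩ := ih
    refine ⟨-l - bt * om, fun w => ?_⟩
    beta_reduce
    rw [hl w]
    simp only [map_mul, Complex.conj_conj, om_conj]
    push_cast
    linear_combination (-(e * w + l)) * om_cube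

theorem null_om2_re' : (om^2).re = -1/2 := null_om2_re

theorem null_conj_om2 : conj (om^2) = om := by
  rw [map_pow, om_conj]
  linear_combination om * om_cube

/-- the half turns in the common form -/
theorem null_R1_half (z : ℂ) : null_R1 z = -(conj om + aa * z) / (aa + om * z) := by
  rw [null_R1_eq, om_conj]

theorem null_R2_half (z : ℂ) : null_R2 z = -(conj (om^2) + aa * z) / (aa + om^2 * z) := by
  rw [null_R2_eq, null_conj_om2]

theorem null_sq_pos : 0 < aa^2 - 1 := by
  have := aa_gt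
  nlinarith

/-- one half turn changes the sign of `ell` up to a positive factor -/
theorem null_ell_step {u z : ℂ} (hu : ‖u‖ = 1) (hre : u.re = -1/2) (hz : z ∈ ball (0:ℂ) 1) :
    ∃ c : ℝ, 0 < c ∧ ell (-(conj u + aa * z) / (aa + u * z)) = -(c * ell z) := by
  have hD : (aa:ℂ) + u * z ≠ 0 := null_den hu hz
  have hDn : 0 < ‖(aa:ℂ) + u * z‖^2 := by
    have := norm_pos_iff.mpr hD
    positivity
  have h := (null_half hu hre hz).2
  refine ⟨(aa^2 - 1) / ‖(aa:ℂ) + u * z‖^2, div_pos null_sq_pos hDn, ?_⟩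
  have h2 : ell (-(conj u + aa * z) / (aa + u * z))
      = (-(aa^2 - 1) * ell z) / ‖(aa:ℂ) + u * z‖^2 := by
    rw [eq_div_iff hDn.ne', mul_comm]
    exact h
  rw [h2]
  ring

theorem null_H_ell {g t : ℂ → ℂ} {e : ℝ} (h : null_H g t e) :
    (e = 1 ∨ e = -1) ∧ ∀ z ∈ ball (0:ℂ) 1, ∃ c : ℝ, 0 < c ∧ ell (g z) = e * (c * ell z) := by
  induction h with
  | one => exact ⟨Or.inl rfl, fun z _ => ⟨1, one_pos, by simp⟩⟩
  | @r1 g t e hg ih =>
    obtain ⟨he, ih⟩ := ih
    refine ⟨?_, fun z hz => ?_⟩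
    · rcases he with he | he <;> simp [he]
    · obtain ⟨c, hc, hcz⟩ := ih z hz
      obtain ⟨c', hc', hcz'⟩ := null_ell_step om_norm null_om_re ((null_H_Gp hg).mapsTo hz)
      refine ⟨c' * c, mul_pos hc' hc, ?_⟩
      beta_reduce
      rw [null_R1_half, hcz', hcz]
      ring
  | @r2 g t e hg ih =>
    obtain ⟨he, ih⟩ := ih
    refine ⟨?_, fun z hz => ?_⟩
    · rcases he with he | he <;> simp [he]
    · obtain ⟨c, hc, hcz⟩ := ih z hz
      obtain ⟨c', hc', hcz'⟩ := null_ell_step null_om2_norm null_om2_re ((null_H_Gp hg).mapsTo hz)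
      refine ⟨c' * c, mul_pos hc' hc, ?_⟩
      beta_reduce
      rw [null_R2_half, hcz', hcz]
      ring

/-- if a half turn does not bring `z` closer to `0` then `z` satisfies the inequality of the side -/
theorem null_side {u z : ℂ} (hu : ‖u‖ = 1) (hre : u.re = -1/2) (hz : z ∈ ball (0:ℂ) 1)
    (h : ‖z‖ ≤ ‖-(conj u + aa * z) / (aa + u * z)‖) : 0 ≤ ‖z‖^2 + 2*aa*(z*u).re + 1 := by
  have h1 := (null_half hu hre hz).1
  have hz1 : ‖z‖ < 1 := by simpa using hz
  have h2 : ‖z‖^2 ≤ ‖-(conj u + aa * z) / (aa + u * z)‖^2 := by gcongr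
  have h3 : ‖(aa:ℂ) + u * z‖^2 = aa^2 + 2*aa*(z*u).re + ‖z‖^2 := by
    have hu2 : u.re^2 + u.im^2 = 1 := by
      have := Complex.sq_norm u
      rw [hu, Complex.normSq_apply] at this
      nlinarith
    rw [Complex.sq_norm, Complex.normSq_apply, Complex.sq_norm, Complex.normSq_apply]
    simp
    linear_combination (z.re^2 + z.im^2) * hu2
  have h4 : (aa^2 - 1) * (1 - ‖z‖^2) ≤ ‖(aa:ℂ) + u * z‖^2 * (1 - ‖z‖^2) := by
    rw [← h1]
    gcongr
  have h5 : 0 < 1 - ‖z‖^2 := by nlinarith [norm_nonneg z]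
  have h6 := le_of_mul_le_mul_right h4 h5
  rw [h3] at h6
  linarith

theorem null_pow_mod (z : ℂ) (k : ℕ) : z * om^k = z * om^(k % 3) := by
  conv_lhs => rw [← Nat.mod_add_div k 3, pow_add, pow_mul, om_cube, one_pow, mul_one]

/-- points of the disc with `ell = 0` can be brought to the central face by the strip group -/
theorem null_bring {F : ℂ → ℂ} (hF : AGF F) {p : ℂ} (hp : p ∈ ball (0:ℂ) 1) (hl : ell p = 0) :
    ∃ g t : ℂ → ℂ, ∃ e : ℝ, null_H g t e ∧ g p ∈ Tri := by
  have hp1 : ‖p‖ < 1 := by simpa using hp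
  have hfin := orbit_fin hF hp hp1
  have hfin2 : {x : ℂ | ‖x‖ ≤ ‖p‖ ∧ ∃ g t : ℂ → ℂ, ∃ e : ℝ, null_H g t e ∧ g p = x}.Finite := by
    refine hfin.subset ?_
    rintro x ⟨hx, g, t, e, hg, hgx⟩
    exact ⟨hx, g, t, null_H_Gp hg, hgx⟩
  obtain ⟨x, ⟨hx, g, t, e, hg, hgx⟩, hmin⟩ := Set.exists_min_image _ (fun x : ℂ => ‖x‖) hfin2
    ⟨p, le_rfl, _, _, _, null_H.one, rfl⟩
  have hxb : x ∈ ball (0:ℂ) 1 := by
    rw [← hgx]
    exact (null_H_Gp hg).mapsTo hp
  have hxl : ell x = 0 := by
    obtain ⟨c, _, hc⟩ := (null_H_ell hg).2 p hp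
    rw [← hgx, hc, hl]
    ring
  have hle : ∀ (g' t' : ℂ → ℂ) (e' : ℝ), null_H g' t' e' → ‖x‖ ≤ ‖g' p‖ := by
    intro g' t' e' hg'
    by_contra hcon
    push Not at hcon
    exact absurd (hmin (g' p) ⟨hcon.le.trans hx, g', t', e', hg', rfl⟩) (not_le.mpr hcon)
  have h1 : 0 ≤ ‖x‖^2 + 2*aa*(x*om).re + 1 := by
    apply null_side om_norm null_om_re hxb
    have := hle _ _ _ (null_H.r1 hg)
    simpa only [hgx, null_R1_half] using this
  have h2 : 0 ≤ ‖x‖^2 + 2*aa*(x*om^2).re + 1 := by
    apply null_side null_om2_norm null_om2_re hxb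
    have := hle _ _ _ (null_H.r2 hg)
    simpa only [hgx, null_R2_half] using this
  have h0 : 0 ≤ ‖x‖^2 + 2*aa*x.re + 1 := by
    unfold ell at hxl
    have : 4 * aa * x.re = 1 + ‖x‖^2 := by linarith
    nlinarith [sq_nonneg ‖x‖]
  refine ⟨g, t, e, hg, ?_⟩
  rw [hgx]
  refine ⟨by simpa using hxb, fun k => ?_⟩
  rw [null_pow_mod]
  have : k % 3 < 3 := Nat.mod_lt _ (by norm_num)
  interval_cases k % 3
  · simpa using h0
  · simpa using h1
  · exact h2

theorem ell_rv : 0 < ell rv := by
  have h1 := rv_pos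
  have h2 := rv_lt
  have h3 := aa_eq
  unfold ell
  rw [Complex.ofReal_re, Complex.norm_real, Real.norm_of_nonneg h1.le]
  nlinarith

theorem null_ell_om {j : ℕ} (hj : j = 1 ∨ j = 2) : ell (rv * om^j) < 0 := by
  have h1 := rv_pos
  have h3 := aa_eq
  have h4 : ‖(rv:ℂ) * om^j‖ = rv := by
    rw [norm_mul, norm_pow, om_norm, one_pow, mul_one, Complex.norm_real, Real.norm_of_nonneg h1.le]
  have h5 : ((rv:ℂ) * om^j).re = rv * (-1/2) := by
    rw [Complex.re_ofReal_mul]
    rcases hj with rfl | rfl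
    · rw [pow_one, null_om_re]
    · rw [null_om2_re]
  unfold ell
  rw [h4, h5]
  nlinarith

theorem null_vertex_sign (j : ℕ) :
    (om^j = 1 ∧ 0 < ell (rv * om^j)) ∨ (om^j ≠ 1 ∧ ell (rv * om^j) < 0) := by
  have hmod : om^j = om^(j % 3) := by
    have := null_pow_mod 1 j
    simpa using this
  have h3 : j % 3 < 3 := Nat.mod_lt _ (by norm_num)
  rw [hmod]
  have hne1 : om ≠ 1 := by
    intro h
    have := congrArg Complex.re h
    rw [null_om_re, Complex.one_re] at this
    norm_num at this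
  have hne2 : om^2 ≠ 1 := by
    intro h
    have := congrArg Complex.re h
    rw [null_om2_re, Complex.one_re] at this
    norm_num at this
  interval_cases j % 3
  · left
    refine ⟨pow_zero _, ?_⟩
    simpa using ell_rv
  · right
    exact ⟨by simpa using hne1, null_ell_om (Or.inl rfl)⟩
  · right
    exact ⟨hne2, null_ell_om (Or.inr rfl)⟩

theorem null_vert_ne {F : ℂ → ℂ} (hF : AGF F) {g t : ℂ → ℂ} (h : Gp g t) (k : ℕ) :
    ell (g (rv * om^k)) ≠ 0 := by
  intro h0
  have hb : g (rv * om^k) ∈ ball (0:ℂ) 1 := (vert_crit hF (vert_map h k)).1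
  obtain ⟨g', t', e, hg', hT⟩ := null_bring hF hb h0
  have hV : g' (g (rv * om^k)) ∈ Vert := vert_map ((null_H_Gp hg').comp h) k
  have hc := (vert_crit hF hV).2.2.1
  have : ∃ j : ℕ, g' (g (rv * om^k)) = rv * om^j := by
    by_contra hcon
    push Not at hcon
    exact hF.reg _ hT hcon hc
  obtain ⟨j, hj⟩ := this
  obtain ⟨c, _, hc'⟩ := (null_H_ell hg').2 _ hb
  rw [h0, mul_zero, mul_zero, hj] at hc'
  rcases null_vertex_sign j with hs | hs
  · linarith [hs.2]
  · linarith [hs.2]

theorem null_cont {g t : ℂ → ℂ} (h : Gp g t) : ContinuousOn g (ball 0 1) := by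
  induction h with
  | one => exact continuousOn_id
  | cj _ ih => exact Complex.continuous_conj.comp_continuousOn ih
  | rt _ ih => exact continuousOn_const.mul ih
  | @rf g t hg ih =>
    have h1 : ContinuousOn s0 (ball 0 1) := by
      unfold s0
      apply ContinuousOn.div
      · exact (continuous_const.add (continuous_const.mul Complex.continuous_conj)).neg.continuousOn
      · exact (continuous_const.add Complex.continuous_conj).continuousOn
      · intro z hz
        have h2 : conj z ∈ ball (0:ℂ) 1 := by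
          simpa using hz
        have := null_den (u := 1) (by simp) h2
        simpa using this
    exact h1.comp ih (fun z hz => hg.mapsTo hz)

theorem null_ell_cont : Continuous ell := by
  unfold ell
  fun_prop

theorem null_seg {g t : ℂ → ℂ} (h : Gp g t) {z : ℂ} (hz : z ∈ Tri) (hs : ell (g 0) * ell (g z) < 0) :
    ∃ q ∈ Tin, ell (g q) = 0 := by
  have hcont : ContinuousOn (fun r : ℝ => ell (g ((r:ℂ) * z))) (Icc 0 1) := by
    apply null_ell_cont.comp_continuousOn
    apply (null_cont h).comp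
    · exact (Complex.continuous_ofReal.mul continuous_const).continuousOn
    · intro r hr
      have h1 : ‖z‖ < 1 := hz.1
      rw [mem_ball_zero_iff, norm_mul, Complex.norm_real, Real.norm_of_nonneg hr.1]
      calc r * ‖z‖ ≤ 1 * ‖z‖ := by
            gcongr
            exact hr.2
        _ < 1 := by rwa [one_mul]
  have h0 : ell (g (((0:ℝ):ℂ) * z)) = ell (g 0) := by simp
  have h1 : ell (g (((1:ℝ):ℂ) * z)) = ell (g z) := by simp
  have hex : ∃ r ∈ Icc (0:ℝ) 1, ell (g ((r:ℂ) * z)) = 0 := by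
    rcases lt_trichotomy (ell (g 0)) 0 with hn | hn | hn
    · have hp : 0 < ell (g z) := by
        by_contra hcon
        push Not at hcon
        nlinarith
      have := intermediate_value_Icc (zero_le_one) hcont
      obtain ⟨r, hr, hr0⟩ := this (show (0:ℝ) ∈ Icc _ _ from ⟨by rw [h0]; exact hn.le, by rw [h1]; exact hp.le⟩)
      exact ⟨r, hr, hr0⟩
    · rw [hn, zero_mul] at hs
      exact absurd hs (lt_irrefl _)
    · have hp : ell (g z) < 0 := by
        by_contra hcon
        push Not at hcon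
        nlinarith
      have := intermediate_value_Icc' (zero_le_one) hcont
      obtain ⟨r, hr, hr0⟩ := this (show (0:ℝ) ∈ Icc _ _ from ⟨by rw [h1]; exact hp.le, by rw [h0]; exact hn.le⟩)
      exact ⟨r, hr, hr0⟩
  obtain ⟨r, hr, hr0⟩ := hex
  refine ⟨(r:ℂ) * z, tri_star hz hr.1 (lt_of_le_of_ne hr.2 ?_), hr0⟩
  rintro rfl
  rw [Complex.ofReal_one, one_mul] at hr0
  rw [hr0, mul_zero] at hs
  exact lt_irrefl _ hs

theorem null_zero_mem : (0:ℂ) ∈ Tin := by
  refine ⟨by simp, fun k => ?_⟩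
  simp

/-- the computation on a face of the strip -/
theorem null_calc {e : ℝ} (he : e = 1 ∨ e = -1) (j : ℕ → ℕ)
    (hsum : om^(j 0) + om^(j 1) + om^(j 2) = 0) {g t : ℂ → ℂ}
    (hc : ∀ k : ℕ, 0 < ell (g (rv * om^k)) ↔ 0 < e * ell (rv * om^(j k)))
    (ht : ∀ k : ℕ, t (om^k) - t 0 = e * om^(j k)) : LL t g c0 = 0 := by
  have hterm : ∀ k : ℕ, (conj (t (om^k) - t 0) * c0 (g (rv * om^k))).re
      = if e = 1 then 0 else -(om^(j k)).im := by
    intro k
    rw [ht k]
    unfold c0
    rcases he with rfl | rfl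
    · rw [if_pos rfl]
      rcases null_vertex_sign (j k) with hs | hs
      · rw [if_pos ((hc k).mpr (by linarith [hs.2])), hs.1]
        simp
      · rw [if_neg (fun h => by linarith [(hc k).mp h, hs.2])]
        simp
    · have hne : ¬ ((-1:ℝ) = 1) := by norm_num
      rw [if_neg hne]
      rcases null_vertex_sign (j k) with hs | hs
      · rw [if_neg (fun h => by linarith [(hc k).mp h, hs.2]), hs.1]
        simp
      · rw [if_pos ((hc k).mpr (by linarith [hs.2]))]
        simp
        rw [← map_pow, Complex.conj_im]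
  unfold LL
  simp only [Finset.sum_range_succ, Finset.sum_range_zero, hterm]
  rcases he with rfl | rfl
  · simp
  · have him := congrArg Complex.im hsum
    simp only [Complex.add_im, Complex.zero_im] at him
    have hne : ¬ ((-1:ℝ) = 1) := by norm_num
    rw [if_neg hne, if_neg hne, if_neg hne]
    linarith

theorem null_strip {F : ℂ → ℂ} (hF : AGF F) {g t : ℂ → ℂ} (h : Gp g t) {q : ℂ} (hq : q ∈ Tin)
    (hl : ell (g q) = 0) : LL t g c0 = 0 := by
  have hqb : q ∈ ball (0:ℂ) 1 := by simpa using hq.1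
  have hb : g q ∈ ball (0:ℂ) 1 := h.mapsTo hqb
  obtain ⟨g', t', e, hg', hT⟩ := null_bring hF hb hl
  obtain ⟨m, hm⟩ := rigid hF ((null_H_Gp hg').comp h) hq hT
  obtain ⟨l, hl'⟩ := null_H_t hg'
  obtain ⟨he, hell⟩ := null_H_ell hg'
  have hee : e * e = 1 := by rcases he with rfl | rfl <;> norm_num
  have heeC : (e:ℂ) * e = 1 := by exact_mod_cast hee
  have hvb : ∀ k : ℕ, (rv:ℂ) * om^k ∈ ball (0:ℂ) 1 := by
    intro k
    rw [mem_ball_zero_iff, norm_mul, norm_pow, om_norm, one_pow, mul_one, Complex.norm_real,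
      Real.norm_of_nonneg rv_pos.le]
    exact rv_lt
  have hconjpow : ∀ k : ℕ, conj (om^k) = om^(2*k) := by
    intro k
    rw [map_pow, om_conj, pow_mul]
  -- common data
  have main : ∀ j : ℕ → ℕ, om^(j 0) + om^(j 1) + om^(j 2) = 0 →
      (∀ k : ℕ, g' (g (rv * om^k)) = rv * om^(j k)) →
      (∀ k : ℕ, t' (t (om^k)) = om^(j k)) → t' (t 0) = 0 → LL t g c0 = 0 := by
    intro j hsum hg1 ht1 ht0
    refine null_calc he j hsum ?_ ?_
    · intro k
      obtain ⟨c, hc, hce⟩ := hell _ (h.mapsTo (hvb k))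
      rw [← hg1 k, hce]
      have : e * (e * (c * ell (g (rv * om^k)))) = c * ell (g (rv * om^k)) := by
        rw [← mul_assoc, hee, one_mul]
      rw [this]
      constructor
      · intro h1
        exact mul_pos hc h1
      · intro h1
        exact (mul_pos_iff_of_pos_left hc).mp h1
    · intro k
      have h1 := ht1 k
      rw [hl'] at h1 ht0
      have h2 : (e:ℂ) * (t (om^k) - t 0) = om^(j k) := by linear_combination h1 - ht0
      calc t (om^k) - t 0 = (e * e) * (t (om^k) - t 0) := by rw [heeC, one_mul]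
        _ = e * (e * (t (om^k) - t 0)) := by ring
        _ = e * om^(j k) := by rw [h2]
  rcases hm with ⟨hm1, hm2⟩ | ⟨hm1, hm2⟩
  · refine main (fun k => m + k) ?_ ?_ ?_ ?_
    · have := om_sum
      simp only [pow_add, pow_zero, pow_one]
      linear_combination om^m * this
    · intro k
      rw [hm1 _ (hvb k), pow_add]
      ring
    · intro k
      rw [hm2, pow_add]
    · rw [hm2, mul_zero]
  · refine main (fun k => m + 2 * k) ?_ ?_ ?_ ?_
    · have h1 := om_sum
      have h2 := om_cube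
      simp only [pow_add, mul_zero, mul_one, pow_zero]
      linear_combination om^m * h1 + om^m * om * h2
    · intro k
      rw [hm1 _ (hvb k), map_mul, hconjpow, Complex.conj_ofReal, pow_add]
      ring
    · intro k
      rw [hm2, hconjpow, pow_add]
    · rw [hm2, map_zero, mul_zero]

/-- sum of the three edge vectors of a triangle -/
theorem null_edges {g t : ℂ → ℂ} (h : Gp g t) :
    (∑ k ∈ Finset.range 3, (t (om^k) - t 0)) = 0 := by
  obtain ⟨A, B, ζ, l, _, _, hcase⟩ := h.form
  have h1 := om_sum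
  have h2 := om_cube
  simp only [Finset.sum_range_succ, Finset.sum_range_zero, pow_zero, pow_one]
  rcases hcase with ⟨_, ht⟩ | ⟨_, ht⟩
  · rw [ht, ht, ht, ht]
    linear_combination ζ * h1
  · rw [ht, ht, ht, ht]
    have h3 : conj om = om^2 := om_conj
    have h4 : conj (om^2) = om := null_conj_om2
    rw [h3, h4, map_one, map_zero]
    linear_combination ζ * h1

theorem null_field {F : ℂ → ℂ} (hF : AGF F) {g t : ℂ → ℂ} (h : Gp g t) : LL t g c0 = 0 := by
  by_cases hall : ∀ k ∈ Finset.range 3, 0 < ell (g (rv * om^k))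
  · -- all three vertices are displaced by `I`
    unfold LL
    have h1 : ∀ k ∈ Finset.range 3, (conj (t (om^k) - t 0) * c0 (g (rv * om^k))).re
        = (t (om^k) - t 0).im := by
      intro k hk
      unfold c0
      rw [if_pos (hall k hk)]
      simp
      ring
    rw [Finset.sum_congr rfl h1]
    have h2 := congrArg Complex.im (null_edges h)
    rw [Complex.im_sum] at h2
    rw [h2]
    simp
  · push Not at hall
    obtain ⟨k', _, hk'⟩ := hall
    have hk'' : ell (g (rv * om^k')) < 0 := lt_of_le_of_ne hk' (null_vert_ne hF h k')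
    by_cases hnone : ∀ k ∈ Finset.range 3, ¬ 0 < ell (g (rv * om^k))
    · unfold LL
      rw [Finset.sum_eq_zero, mul_zero]
      intro k hk
      unfold c0
      rw [if_neg (hnone k hk)]
      simp
    · push Not at hnone
      obtain ⟨k, _, hk⟩ := hnone
      have hq : ∃ q ∈ Tin, ell (g q) = 0 := by
        rcases lt_trichotomy (ell (g 0)) 0 with hn | hn | hn
        · exact null_seg h (rv_mem k) (mul_neg_of_neg_of_pos hn hk)
        · exact ⟨0, null_zero_mem, hn⟩
        · exact null_seg h (rv_mem k') (mul_neg_of_pos_of_neg hn hk'')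
      obtain ⟨q, hqT, hq0⟩ := hq
      exact null_strip hF h hqT hq0

end AG
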