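import Pool.Agent.Bloch.Rig
import Pool.Agent.Bloch.Face
import Pool.Agent.Bloch.Vtx
import Pool.Agent.Bloch.Geom

set_option autoImplicit false

noncomputable section

namespace AG

open Complex Metric Set
open scoped ComplexConjugate

/-! ## module VSUM (uses RIG, FACE, VTX, GEOM) -/

theorem vsum_AB {A B : ℂ} (hAB : ‖A‖^2 - ‖B‖^2 = 1) : A * conj A - B * conj B = 1 := by
  rw [Complex.mul_conj, Complex.mul_conj, ← Complex.ofReal_sub, Complex.normSq_eq_norm_sq,
    Complex.normSq_eq_norm_sq, hAB, Complex.ofReal_one]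

/-- image of a ball under a Moebius map contains a ball -/
theorem vsum_ball {A B : ℂ} (hAB : ‖A‖^2 - ‖B‖^2 = 1) {q w : ℂ} {c δ : ℝ} (hq : ‖q‖ < 1)
    (hc : 0 < c) (hc4 : c ≤ 1/4) (hcδ : 2 * c ≤ δ)
    (hw : ‖w - (A * q + B) / (conj B * q + conj A)‖ <
      c * (1 - ‖(A * q + B) / (conj B * q + conj A)‖^2)) :
    ∃ z, ‖z - q‖ < δ ∧ (A * z + B) / (conj B * z + conj A) = w := by
  have hABc := vsum_AB hAB
  set D : ℂ := conj B * q + conj A with hD
  have hD0 : D ≠ 0 := rig_den hAB hq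
  have hDn : 0 < ‖D‖ := norm_pos_iff.2 hD0
  set p : ℂ := (A * q + B) / D with hp
  have hpD : p * D = A * q + B := div_mul_cancel₀ _ hD0
  -- 1 - |p|^2
  have h1 : (1 - ‖p‖^2) * ‖D‖^2 = 1 - ‖q‖^2 := by
    have e1 : ‖p‖^2 * ‖D‖^2 = ‖A * q + B‖^2 := by rw [← mul_pow, ← norm_mul, hpD]
    have e2 : ((‖D‖^2 - ‖A * q + B‖^2 : ℝ) : ℂ) = ((1 - ‖q‖^2 : ℝ) : ℂ) := by
      push_cast
      rw [← Complex.mul_conj', ← Complex.mul_conj', ← Complex.mul_conj', hD]
      simp only [map_add, map_mul, Complex.conj_conj]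
      linear_combination (1 - q * conj q) * hABc
    have e3 : ‖D‖^2 - ‖A * q + B‖^2 = 1 - ‖q‖^2 := by exact_mod_cast e2
    linear_combination e3 - e1
  have hq2 : 0 < 1 - ‖q‖^2 := by
    have := norm_nonneg q
    nlinarith
  have h2 : 0 < 1 - ‖p‖^2 := by
    have : 0 < (1 - ‖p‖^2) * ‖D‖^2 := by rw [h1]; exact hq2
    exact (pos_iff_pos_of_mul_pos this).2 (by positivity)
  -- the denominator of the inverse
  set E : ℂ := A - conj B * p with hE
  have hED : E * D = 1 := by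
    rw [hE, sub_mul, mul_assoc, hpD, hD]
    linear_combination hABc
  have hEn : ‖E‖ * ‖D‖ = 1 := by rw [← norm_mul, hED, norm_one]
  set W : ℂ := A - conj B * w with hW
  have hWE : W = E - conj B * (w - p) := by rw [hW, hE]; ring
  -- lower bound of |D|
  have hDl : ‖B‖ * (1 - ‖q‖^2) ≤ 2 * ‖D‖ := by
    have e1 : ‖A‖ - ‖B‖ * ‖q‖ ≤ ‖D‖ := by
      have : ‖conj A‖ - ‖conj B * q‖ ≤ ‖conj A + conj B * q‖ := by
        have := norm_sub_norm_le (conj A) (-(conj B * q))
        rwa [norm_neg, sub_neg_eq_add] at this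
      rw [norm_mul, Complex.norm_conj, Complex.norm_conj] at this
      rw [hD, add_comm]
      exact this
    have e2 : ‖B‖ ≤ ‖A‖ := by
      have h3 := norm_nonneg A
      have h4 := norm_nonneg B
      by_contra hcon
      push Not at hcon
      nlinarith
    have e3 := norm_nonneg B
    have e4 := norm_nonneg q
    have e5 : 1 - ‖q‖^2 ≤ 2 * (1 - ‖q‖) := by nlinarith [sq_nonneg (1 - ‖q‖)]
    have e6 := mul_le_mul_of_nonneg_left e5 e3
    nlinarith
  have hWn : 1 / (2 * ‖D‖) ≤ ‖W‖ := by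
    have e1 : ‖E‖ - ‖conj B * (w - p)‖ ≤ ‖W‖ := by
      rw [hWE]
      exact norm_sub_norm_le _ _
    have e2 : ‖conj B * (w - p)‖ ≤ 1 / (2 * ‖D‖) := by
      rw [norm_mul, Complex.norm_conj, le_div_iff₀ (by positivity)]
      have e3 : ‖w - p‖ ≤ c * (1 - ‖p‖^2) := hw.le
      have e4 : 0 ≤ ‖B‖ := norm_nonneg B
      calc ‖B‖ * ‖w - p‖ * (2 * ‖D‖) ≤ ‖B‖ * (c * (1 - ‖p‖^2)) * (2 * ‖D‖) := by gcongr
        _ = (2 * c) * (‖B‖ * ((1 - ‖p‖^2) * ‖D‖^2)) / ‖D‖ := by field_simp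
        _ = (2 * c) * (‖B‖ * (1 - ‖q‖^2)) / ‖D‖ := by rw [h1]
        _ ≤ (2 * (1/4)) * (2 * ‖D‖) / ‖D‖ := by gcongr
        _ = 1 := by field_simp; norm_num
    have e5 : ‖E‖ = 2 * (1 / (2 * ‖D‖)) := by
      have : ‖E‖ = 1 / ‖D‖ := by rw [eq_div_iff hDn.ne', hEn]
      rw [this]; field_simp
    linarith
  have hWn0 : 0 < ‖W‖ := lt_of_lt_of_le (by positivity) hWn
  have hW0 : W ≠ 0 := norm_pos_iff.1 hWn0
  refine ⟨(conj A * w - B) / W, ?_, ?_⟩
  · have e1 : (conj A * w - B) / W - q = D * (w - p) / W := by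
      rw [div_sub' hW0, div_left_inj' hW0, mul_sub, mul_comm D p, hpD, hD, hW]
      ring
    rw [e1, norm_div, norm_mul, div_lt_iff₀ hWn0]
    have e2 : δ * (1 / (2 * ‖D‖)) ≤ δ * ‖W‖ := by
      have : 0 ≤ δ := by linarith
      gcongr
    refine lt_of_lt_of_le ?_ e2
    calc ‖D‖ * ‖w - p‖ < ‖D‖ * (c * (1 - ‖p‖^2)) := by gcongr
      _ = (2 * c) * ((1 - ‖p‖^2) * ‖D‖^2) * (1 / (2 * ‖D‖)) := by field_simp
      _ = (2 * c) * (1 - ‖q‖^2) * (1 / (2 * ‖D‖)) := by rw [h1]
      _ ≤ δ * 1 * (1 / (2 * ‖D‖)) := by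
        have : 0 ≤ δ := by linarith
        gcongr
        have := sq_nonneg ‖q‖
        linarith
      _ = δ * (1 / (2 * ‖D‖)) := by ring
  · have e1 : A * ((conj A * w - B) / W) + B = w / W := by
      rw [mul_div_assoc', div_add' _ _ _ hW0, div_left_inj' hW0, hW]
      linear_combination w * hABc
    have e2 : conj B * ((conj A * w - B) / W) + conj A = 1 / W := by
      rw [mul_div_assoc', div_add' _ _ _ hW0, div_left_inj' hW0, hW]
      linear_combination hABc
    rw [e1, e2]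
    field_simp

theorem vsum_om_pow (k : ℕ) : om^k = 1 ∨ om^k = om ∨ om^k = om^2 := by
  have h : om^k = om^(k % 3) := by
    conv_lhs => rw [← Nat.div_add_mod k 3, pow_add, pow_mul, om_cube, one_pow, one_mul]
  rw [h]
  have h2 : k % 3 < 3 := Nat.mod_lt _ (by norm_num)
  interval_cases (k % 3)
  · left; simp
  · right; left; simp
  · right; right; rfl

theorem vsum_ball_om {δ : ℝ} (hδ : δ ≤ rv/4) {x y : ℂ} (hx : ‖x - (rv/2 : ℝ)‖ < δ)
    (hy : ‖y - (rv/2 : ℝ)‖ < δ) {k : ℕ} (h : y = om^k * x) : om^k = 1 := by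
  have hrv := rv_pos
  have e1 : |x.re - rv/2| < rv/4 := by
    have := Complex.abs_re_le_norm (x - (rv/2 : ℝ))
    rw [Complex.sub_re, Complex.ofReal_re] at this
    linarith
  have e2 : |x.im| < rv/4 := by
    have := Complex.abs_im_le_norm (x - (rv/2 : ℝ))
    rw [Complex.sub_im, Complex.ofReal_im, sub_zero] at this
    linarith
  have e3 : |y.re - rv/2| < rv/4 := by
    have := Complex.abs_re_le_norm (y - (rv/2 : ℝ))
    rw [Complex.sub_re, Complex.ofReal_re] at this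
    linarith
  rw [abs_lt] at e1 e2 e3
  have hs0 : 0 ≤ Real.sqrt 3 := Real.sqrt_nonneg 3
  have hs2 : Real.sqrt 3 ≤ 2 := by
    rw [show (2:ℝ) = Real.sqrt 4 by rw [show (4:ℝ) = 2^2 by norm_num]; exact (Real.sqrt_sq (by norm_num)).symm]
    exact Real.sqrt_le_sqrt (by norm_num)
  have key : ∀ s : ℝ, |s| ≤ 2 → s * x.im ≤ rv / 2 := by
    intro s hs
    have : |s * x.im| ≤ 2 * (rv/4) := by
      rw [abs_mul]
      have h3 : |x.im| ≤ rv/4 := (abs_lt.2 e2).le
      gcongr
    have := (abs_le.1 this).2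
    linarith
  rcases vsum_om_pow k with h1 | h1 | h1
  · exact h1
  · exfalso
    rw [h1] at h
    have h2 : y.re = -(1/2) * x.re - Real.sqrt 3 / 2 * x.im := by
      rw [h, Complex.mul_re]
      simp only [om]
      ring
    have h3 := key (-Real.sqrt 3) (by rw [abs_neg, abs_of_nonneg hs0]; exact hs2)
    nlinarith
  · exfalso
    rw [h1] at h
    have h2 : y.re = -(1/2) * x.re + Real.sqrt 3 / 2 * x.im := by
      rw [h, ← om_conj, Complex.mul_re]
      simp only [om, Complex.conj_re, Complex.conj_im]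
      ring
    have h3 := key (Real.sqrt 3) (by rw [abs_of_nonneg hs0]; exact hs2)
    nlinarith

theorem vert_sum {F : ℂ → ℂ} (hF : AGF F) : Summable (fun v : Vert => (1 - ‖(v:ℂ)‖^2)^2) := by
  have hrv := rv_pos
  have hrv1 := rv_lt
  -- the base ball
  set q : ℂ := ((rv/2 : ℝ) : ℂ) with hq
  have hqT : q ∈ Tin := by
    have h1 := tri_star (rv_mem 0) (r := 1/2) (by norm_num) (by norm_num)
    have h2 : ((1/2 : ℝ) : ℂ) * ((rv:ℂ) * om^0) = q := by
      rw [hq, pow_zero, mul_one]; push_cast; ring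
    rwa [h2] at h1
  have hqn : ‖q‖ < 1 := hqT.1
  obtain ⟨δ0, hδ0, hball⟩ := Metric.isOpen_iff.1 tin_open q hqT
  set δ : ℝ := min δ0 (rv/4) with hδ
  have hδp : 0 < δ := lt_min hδ0 (by linarith)
  have hδ4 : δ ≤ rv/4 := min_le_right _ _
  have hTin : ∀ z, ‖z - q‖ < δ → z ∈ Tin := by
    intro z hz
    apply hball
    rw [mem_ball, dist_eq_norm]
    exact lt_of_lt_of_le hz (min_le_left _ _)
  set c : ℝ := δ/2 with hc
  have hcp : 0 < c := by rw [hc]; linarith
  have hc4 : c ≤ 1/4 := by rw [hc]; linarith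
  -- choose a motion for each vertex
  choose g t A B ζ l hG hgv using fun v : Vert => vert_or v.2
  have hform : ∀ v : Vert, ∀ z ∈ ball (0:ℂ) 1, g v z = (A v * z + B v) / (conj (B v) * z + conj (A v)) :=
    fun v => (hG v).2.2.2.1
  have hAB : ∀ v : Vert, ‖A v‖^2 - ‖B v‖^2 = 1 := fun v => (hG v).2.1
  let p : Vert → ℂ := fun v => g v q
  have hpn : ∀ v, ‖p v‖ < 1 := fun v => by
    simpa using (hG v).1.mapsTo (by simpa using hqn)
  let U : Vert → Set ℂ := fun v => ball (p v) (c * (1 - ‖p v‖^2))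
  have hpos : ∀ v, 0 < 1 - ‖p v‖^2 := fun v => by
    have h1 := hpn v
    have h2 := norm_nonneg (p v)
    nlinarith
  -- every point of U v is g v of a point of the base ball
  have hU : ∀ v, ∀ w ∈ U v, ∃ z, ‖z - q‖ < δ ∧ g v z = w := by
    intro v w hw
    have hqb : q ∈ ball (0:ℂ) 1 := by simpa using hqn
    have h1 : p v = (A v * q + B v) / (conj (B v) * q + conj (A v)) := hform v q hqb
    have hw' : ‖w - p v‖ < c * (1 - ‖p v‖^2) := by
      have : w ∈ ball (p v) (c * (1 - ‖p v‖^2)) := hw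
      rwa [mem_ball, dist_eq_norm] at this
    rw [h1] at hw'
    obtain ⟨z, hz, hz2⟩ := vsum_ball (δ := δ) (hAB v) hqn hcp hc4 (by rw [hc]; linarith) hw'
    refine ⟨z, hz, ?_⟩
    rw [hform v z (by simpa using (hTin z hz).1)]
    exact hz2
  -- disjointness
  have hdisj : ∀ v v' : Vert, v ≠ v' → Disjoint (U v) (U v') := by
    intro v v' hne
    rw [Set.disjoint_left]
    intro w hw hw'
    apply hne
    obtain ⟨b, hb, hb2⟩ := hU v w hw
    obtain ⟨b', hb', hb2'⟩ := hU v' w hw'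
    obtain ⟨gi, ti, hgi, hinv, hinvt⟩ := (hG v').1.inv
    have hcomp := hgi.comp (hG v).1
    have hbT := hTin b hb
    have hbT' := hTin b' hb'
    have hbb : b ∈ ball (0:ℂ) 1 := by simpa using hbT.1
    have hbb' : b' ∈ ball (0:ℂ) 1 := by simpa using hbT'.1
    have e1 : gi (g v b) = b' := by rw [hb2, ← hb2', (hinv b' hbb').1]
    have hrb : (rv:ℂ) ∈ ball (0:ℂ) 1 := by
      rw [mem_ball_zero_iff, Complex.norm_real, Real.norm_of_nonneg hrv.le]
      exact hrv1
    obtain ⟨k, hk⟩ := rigid hF hcomp hbT (by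
      show gi (g v b) ∈ Tri
      rw [e1]; exact tin_sub hbT')
    have key : gi (g v rv) = rv := by
      rcases hk with ⟨hk1, _⟩ | ⟨hk1, _⟩
      · have e2 : b' = om^k * b := by rw [← e1]; exact hk1 b hbb
        have e3 := vsum_ball_om hδ4 hb hb' e2
        have e4 := hk1 rv hrb
        rw [e3, one_mul] at e4
        exact e4
      · have e2 : b' = om^k * conj b := by rw [← e1]; exact hk1 b hbb
        have hbc : ‖conj b - (rv/2 : ℝ)‖ < δ := by
          have : conj b - ((rv/2 : ℝ) : ℂ) = conj (b - q) := by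
            rw [map_sub, hq, Complex.conj_ofReal]
          rw [this, Complex.norm_conj]
          exact hb
        have e3 := vsum_ball_om hδ4 hbc hb' e2
        have e4 := hk1 rv hrb
        rw [e3, one_mul, Complex.conj_ofReal] at e4
        exact e4
    have hgr : g v rv ∈ ball (0:ℂ) 1 := (hG v).1.mapsTo hrb
    have e5 : g v' (gi (g v rv)) = g v rv := (hinv _ hgr).2
    rw [key] at e5
    apply Subtype.ext
    rw [← hgv v, ← hgv v', e5]
  -- comparison on a face
  obtain ⟨K, hK, hface⟩ := face_comp rv hrv1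
  have hcmp : ∀ v : Vert, 1 - ‖(v:ℂ)‖^2 ≤ K * (1 - ‖p v‖^2) := by
    intro v
    have h1 := hface (g v) (t v) (hG v).1 q rv
      (by rw [hq, Complex.norm_real, Real.norm_of_nonneg (by linarith)]; linarith)
      (by rw [Complex.norm_real, Real.norm_of_nonneg hrv.le])
    rw [hgv v] at h1
    exact h1
  have hvn : ∀ v : Vert, 0 ≤ 1 - ‖(v:ℂ)‖^2 := by
    intro v
    have h1 : (v:ℂ) ∈ ball (0:ℂ) 1 := (vert_crit hF v.2).1
    rw [mem_ball_zero_iff] at h1
    have h2 := norm_nonneg (v:ℂ)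
    nlinarith
  -- area
  have hsum : ∀ S : Finset Vert, ∑ v ∈ S, (c * (1 - ‖p v‖^2))^2 ≤ 1 := by
    intro S
    have hvol : ∑ v ∈ S, MeasureTheory.volume (U v) ≤ MeasureTheory.volume (ball (0:ℂ) 1) := by
      rw [← MeasureTheory.measure_biUnion_finset (fun v _ v' _ hne => hdisj v v' hne)
        (fun v _ => measurableSet_ball)]
      apply MeasureTheory.measure_mono
      intro w hw
      simp only [mem_iUnion] at hw
      obtain ⟨v, _, hv⟩ := hw
      obtain ⟨z, hz, rfl⟩ := hU v w hv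
      exact (hG v).1.mapsTo (by simpa using (hTin z hz).1)
    have h1 : ∀ v, MeasureTheory.volume (U v) = ENNReal.ofReal ((c * (1 - ‖p v‖^2))^2 * Real.pi) := by
      intro v
      have hr : 0 ≤ c * (1 - ‖p v‖^2) := (mul_pos hcp (hpos v)).le
      show MeasureTheory.volume (ball (p v) (c * (1 - ‖p v‖^2))) = _
      rw [Complex.volume_ball, ENNReal.ofReal_mul (p := (c * (1 - ‖p v‖^2))^2) (by positivity),
        ENNReal.ofReal_pow hr]
      congr 1
      rw [← NNReal.coe_real_pi, ENNReal.ofReal_coe_nnreal]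
    have h2 : MeasureTheory.volume (ball (0:ℂ) 1) = ENNReal.ofReal Real.pi := by
      rw [Complex.volume_ball, ← NNReal.coe_real_pi, ENNReal.ofReal_coe_nnreal]
      simp
    simp_rw [h1] at hvol
    rw [h2, ← ENNReal.ofReal_sum_of_nonneg (fun v _ => by positivity),
      ENNReal.ofReal_le_ofReal_iff Real.pi_pos.le, ← Finset.sum_mul] at hvol
    have hpi := Real.pi_pos
    have h3 : (∑ v ∈ S, (c * (1 - ‖p v‖^2))^2) * Real.pi ≤ 1 * Real.pi := by rw [one_mul]; exact hvol
    exact le_of_mul_le_mul_right h3 hpi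
  refine summable_of_sum_le (c := (K/c)^2) (fun v => by positivity) fun S => ?_
  calc ∑ v ∈ S, (1 - ‖(v:ℂ)‖^2)^2 ≤ ∑ v ∈ S, (K/c)^2 * (c * (1 - ‖p v‖^2))^2 := by
        apply Finset.sum_le_sum
        intro v _
        rw [← mul_pow]
        have h1 : K / c * (c * (1 - ‖p v‖^2)) = K * (1 - ‖p v‖^2) := by
          field_simp
        rw [h1]
        have := hcmp v
        have := hvn v
        gcongr
    _ = (K/c)^2 * ∑ v ∈ S, (c * (1 - ‖p v‖^2))^2 := by rw [Finset.mul_sum]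
    _ ≤ (K/c)^2 * 1 := by
        have := hsum S
        gcongr
    _ = (K/c)^2 := mul_one _

end AG
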