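import Pool.Agent.Bloch.Pull
import Pool.Agent.Bloch.Null
import Pool.Agent.Bloch.Orb
import Pool.Agent.Bloch.Face
import Pool.Agent.Bloch.Vtx
import Pool.Agent.Bloch.Vsum

set_option autoImplicit false

noncomputable section

namespace AG

open Complex Metric Set Filter Topology
open scoped ComplexConjugate

theorem limit_c0 (z : ℂ) : ‖c0 z‖ ≤ 1 := by
  unfold c0
  split_ifs <;> simp

/-- centres of faces accumulate at every boundary point -/
theorem limit_seq {F : ℂ → ℂ} (hF : AGF F) {ξ : ℂ} (h1 : ‖ξ‖ = 1) (c : ℂ → ℂ)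
    (hb : ∀ z, ‖c z‖ ≤ 1) (hL : ∀ g t : ℂ → ℂ, Gp g t → LL t g c = 0) (hH : HypH) :
    ∃ p : ℕ → ℂ, Tendsto p atTop (𝓝 ξ) ∧ ∀ n,
      (∑' u : Vert, c u * (((u:ℂ) - p n)^2 * (1 - conj (p n) * u)^2 *
        deriv (deriv F) u)⁻¹).re = 0 := by
  obtain ⟨K, hK, hdiam⟩ := face_diam rv rv_lt
  have hz : ∀ n : ℕ, ((1 - 1 / ((n:ℝ) + 1) : ℝ) : ℂ) * ξ ∈ ball (0:ℂ) 1 := by
    intro n
    have h2 : (0:ℝ) < 1 / ((n:ℝ) + 1) := by positivity
    have h3 : 1 / ((n:ℝ) + 1) ≤ 1 := by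
      rw [div_le_one (by positivity)]
      linarith [(Nat.cast_nonneg n : (0:ℝ) ≤ n)]
    rw [mem_ball_zero_iff, norm_mul, norm_real, h1, mul_one, Real.norm_of_nonneg (by linarith)]
    linarith
  choose g t A B ζ l hg z' hz' hgz using fun n => cover hF (hz n)
  refine ⟨fun n => g n 0, ?_, fun n => pull_null hH hF c hb hL (hg n)⟩
  have h2 : Tendsto (fun n : ℕ => 1 / ((n:ℝ) + 1)) atTop (𝓝 0) :=
    tendsto_one_div_add_atTop_nhds_zero_nat
  rw [tendsto_iff_norm_sub_tendsto_zero]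
  have h3 : ∀ n, ‖g n 0 - ξ‖ ≤ (2 * K + 1) * (1 / ((n:ℝ) + 1)) := by
    intro n
    have hn1 : (0:ℝ) < 1 / ((n:ℝ) + 1) := by positivity
    have hn2 : 1 / ((n:ℝ) + 1) ≤ 1 := by
      rw [div_le_one (by positivity)]
      linarith [(Nat.cast_nonneg n : (0:ℝ) ≤ n)]
    have h4 := hdiam (g n) (t n) (hg n).1 (z' n) 0 (tri_rv (hz' n)) (by
      rw [norm_zero]; exact rv_pos.le)
    rw [hgz n] at h4
    set x : ℝ := 1 / ((n:ℝ) + 1) with hx
    have h5 : ‖((1 - x : ℝ) : ℂ) * ξ‖ = 1 - x := by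
      rw [norm_mul, norm_real, h1, mul_one, Real.norm_of_nonneg (by linarith)]
    rw [h5] at h4
    have h6 : ‖((1 - x : ℝ) : ℂ) * ξ - ξ‖ = x := by
      have : ((1 - x : ℝ) : ℂ) * ξ - ξ = ((-x : ℝ) : ℂ) * ξ := by push_cast; ring
      rw [this, norm_mul, norm_real, h1, mul_one, Real.norm_eq_abs, abs_neg, abs_of_pos hn1]
    calc ‖g n 0 - ξ‖ = ‖(g n 0 - ((1 - x : ℝ) : ℂ) * ξ) + (((1 - x : ℝ) : ℂ) * ξ - ξ)‖ := by
          congr 1; ring
      _ ≤ ‖g n 0 - ((1 - x : ℝ) : ℂ) * ξ‖ + ‖((1 - x : ℝ) : ℂ) * ξ - ξ‖ := norm_add_le _ _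
      _ ≤ K * (1 - (1 - x)^2) + x := by rw [h6]; linarith
      _ ≤ (2 * K + 1) * x := by nlinarith [mul_nonneg hK.le (sq_nonneg x)]
  refine squeeze_zero (fun n => norm_nonneg _) h3 ?_
  simpa using h2.const_mul (2 * K + 1)

theorem limit_null (hH : HypH) {F : ℂ → ℂ} (hF : AGF F) {ξ : ℂ} (h1 : ‖ξ‖ = 1) (h2 : ξ.re < 1/(4*aa)) :
    (ξ^2 * ∑' u : Vert, c0 u * (((u:ℂ) - ξ)^4 * deriv (deriv F) u)⁻¹).re = 0 := by
  obtain ⟨p, hp, hp0⟩ := limit_seq hF h1 c0 limit_c0 (fun g t h => null_field hF h) hH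
  obtain ⟨C, hC, hF2⟩ := vert_F2 hF
  have hsum := vert_sum hF
  set δ : ℝ := 1/(4*aa) - ξ.re with hδ
  have hδ0 : 0 < δ := by rw [hδ]; linarith
  have haa : 0 < aa := by linarith [aa_gt]
  -- vertices in the support of c0 are far from ξ
  have hfar : ∀ u : Vert, c0 u ≠ 0 → δ ≤ ‖(u:ℂ) - ξ‖ := by
    intro u hu
    have h3 : 0 < ell u := by
      by_contra h
      exact hu (by unfold c0; rw [if_neg h])
    have h4 : 1/(4*aa) ≤ (u:ℂ).re := by
      rw [div_le_iff₀ (by positivity)]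
      unfold ell at h3
      nlinarith [sq_nonneg ‖(u:ℂ)‖]
    calc δ ≤ (u:ℂ).re - ξ.re := by rw [hδ]; linarith
      _ = ((u:ℂ) - ξ).re := by simp
      _ ≤ ‖(u:ℂ) - ξ‖ := re_le_norm _
  have hcξ : conj ξ * ξ = 1 := by
    rw [mul_comm, mul_conj, normSq_eq_norm_sq, h1]; simp
  have hξ0 : ξ ≠ 0 := by
    intro h0; rw [h0, norm_zero] at h1; exact zero_ne_one h1
  have hcξ' : conj ξ = ξ⁻¹ := eq_inv_of_mul_eq_one_left hcξ
  have hone : ∀ u : ℂ, 1 - conj ξ * u = - (ξ⁻¹ * (u - ξ)) := by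
    intro u
    rw [hcξ']
    field_simp
    ring
  -- limit of the series
  have hlim : Tendsto (fun n => ∑' u : Vert, c0 u * (((u:ℂ) - p n)^2 * (1 - conj (p n) * u)^2 *
        deriv (deriv F) u)⁻¹) atTop (𝓝 (∑' u : Vert, c0 u * (((u:ℂ) - ξ)^2 * (1 - conj ξ * u)^2 *
        deriv (deriv F) u)⁻¹)) := by
    refine tendsto_tsum_of_dominated_convergence
      (bound := fun u : Vert => (δ/2)⁻¹^4 * C * (1 - ‖(u:ℂ)‖^2)^2) (hsum.mul_left _) ?_ ?_
    · intro u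
      by_cases hu : c0 u = 0
      · simp only [hu, zero_mul]
        exact tendsto_const_nhds
      · have h3 := hfar u hu
        have h4 : (u:ℂ) - ξ ≠ 0 := norm_pos_iff.1 (lt_of_lt_of_le hδ0 h3)
        have h5 : 1 - conj ξ * (u:ℂ) ≠ 0 := by
          rw [hone]; exact neg_ne_zero.2 (mul_ne_zero (inv_ne_zero hξ0) h4)
        have h6 : Tendsto (fun n => ((u:ℂ) - p n)^2 * (1 - conj (p n) * u)^2 *
            deriv (deriv F) u) atTop (𝓝 (((u:ℂ) - ξ)^2 * (1 - conj ξ * u)^2 *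
            deriv (deriv F) u)) := by
          have h7 : Tendsto (fun n => conj (p n)) atTop (𝓝 (conj ξ)) :=
            (continuous_conj.tendsto ξ).comp hp
          exact (((tendsto_const_nhds.sub hp).pow 2).mul
            ((tendsto_const_nhds.sub (h7.mul tendsto_const_nhds)).pow 2)).mul tendsto_const_nhds
        refine (h6.inv₀ ?_).const_mul _
        exact mul_ne_zero (mul_ne_zero (pow_ne_zero 2 h4) (pow_ne_zero 2 h5))
          (vert_crit hF u.2).2.2.2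
    · have h8 : ∀ᶠ n in atTop, ‖p n - ξ‖ < δ/2 := by
        have := (tendsto_iff_norm_sub_tendsto_zero.1 hp).eventually (gt_mem_nhds (half_pos hδ0))
        exact this
      filter_upwards [h8] with n hn u
      by_cases hu : c0 u = 0
      · rw [hu, zero_mul, norm_zero]
        positivity
      · have h3 := hfar u hu
        have hu1 : ‖(u:ℂ)‖ < 1 := by simpa using (vert_crit hF u.2).1
        have h4 : δ/2 ≤ ‖(u:ℂ) - p n‖ := by
          have : ‖(u:ℂ) - ξ‖ ≤ ‖(u:ℂ) - p n‖ + ‖p n - ξ‖ := by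
            have e : (u:ℂ) - ξ = ((u:ℂ) - p n) + (p n - ξ) := by ring
            rw [e]; exact norm_add_le _ _
          linarith
        have h5 : δ/2 ≤ ‖1 - conj (p n) * (u:ℂ)‖ := by
          have e1 : ‖1 - conj ξ * (u:ℂ)‖ = ‖(u:ℂ) - ξ‖ := by
            rw [hone, norm_neg, norm_mul, norm_inv, h1, inv_one, one_mul]
          have e2 : 1 - conj ξ * (u:ℂ) = (1 - conj (p n) * u) + conj (p n - ξ) * u := by
            rw [map_sub]; ring
          have e3 : ‖1 - conj ξ * (u:ℂ)‖ ≤ ‖1 - conj (p n) * (u:ℂ)‖ + ‖p n - ξ‖ := by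
            calc ‖1 - conj ξ * (u:ℂ)‖ ≤ ‖1 - conj (p n) * (u:ℂ)‖ + ‖conj (p n - ξ) * (u:ℂ)‖ := by
                  rw [e2]; exact norm_add_le _ _
              _ ≤ ‖1 - conj (p n) * (u:ℂ)‖ + ‖p n - ξ‖ := by
                  rw [norm_mul, norm_conj]
                  have := mul_le_of_le_one_right (norm_nonneg (p n - ξ)) hu1.le
                  linarith
          rw [e1] at e3
          linarith
        have h6 : ‖(deriv (deriv F) (u:ℂ))⁻¹‖ ≤ C * (1 - ‖(u:ℂ)‖^2)^2 := by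
          refine le_trans ?_ (hF2 u u.2)
          have hvc := vert_crit hF u.2
          rw [mul_inv, norm_mul, norm_inv ((u:ℂ)^2), norm_pow]
          have : 1 ≤ (‖(u:ℂ)‖^2)⁻¹ := by
            rw [one_le_inv₀ (by have := norm_pos_iff.2 hvc.2.1; positivity)]
            exact pow_le_one₀ (norm_nonneg _) hu1.le
          exact le_mul_of_one_le_left (norm_nonneg _) this
        have hδ2 : 0 < δ/2 := half_pos hδ0
        have i1 : ‖((u:ℂ) - p n)‖⁻¹^2 ≤ (δ/2)⁻¹^2 :=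
          pow_le_pow_left₀ (by positivity) (inv_anti₀ hδ2 h4) 2
        have i2 : ‖(1 - conj (p n) * (u:ℂ))‖⁻¹^2 ≤ (δ/2)⁻¹^2 :=
          pow_le_pow_left₀ (by positivity) (inv_anti₀ hδ2 h5) 2
        rw [norm_mul, mul_inv, mul_inv, norm_mul, norm_mul, norm_inv, norm_inv, norm_pow, norm_pow,
          ← inv_pow, ← inv_pow]
        calc ‖c0 (u:ℂ)‖ * (‖((u:ℂ) - p n)‖⁻¹^2 * ‖(1 - conj (p n) * (u:ℂ))‖⁻¹^2 *
              ‖(deriv (deriv F) (u:ℂ))⁻¹‖)
            ≤ 1 * ((δ/2)⁻¹^2 * (δ/2)⁻¹^2 * (C * (1 - ‖(u:ℂ)‖^2)^2)) := by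
              gcongr
              exact limit_c0 _
          _ = (δ/2)⁻¹^4 * C * (1 - ‖(u:ℂ)‖^2)^2 := by ring
  have hre : (∑' u : Vert, c0 u * (((u:ℂ) - ξ)^2 * (1 - conj ξ * u)^2 *
        deriv (deriv F) u)⁻¹).re = 0 := by
    have h9 := (continuous_re.tendsto _).comp hlim
    have h10 : (re ∘ fun n => ∑' u : Vert, c0 u * (((u:ℂ) - p n)^2 * (1 - conj (p n) * u)^2 *
        deriv (deriv F) u)⁻¹) = fun _ => (0:ℝ) := by
      funext n
      exact hp0 n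
    rw [h10] at h9
    exact (tendsto_nhds_unique h9 tendsto_const_nhds)
  rw [← hre, ← tsum_mul_left]
  congr 1
  refine tsum_congr fun u => ?_
  rw [hone]
  by_cases hu : c0 u = 0
  · rw [hu]; ring
  · have h4 : (u:ℂ) - ξ ≠ 0 := norm_pos_iff.1 (lt_of_lt_of_le hδ0 (hfar u hu))
    have h5 := (vert_crit hF u.2).2.2.2
    field_simp

end AG
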