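import Pool.Agent.Bloch.Defs

set_option autoImplicit false

noncomputable section

namespace AG

open Complex Metric Set Filter
open scoped ComplexConjugate Topology

/-! ## module POLE -/

/-- Analyticity of sums of fourth powers of simple fractions. -/
theorem pole_diff {ι : Type} (a : ι → ℂ) (hsum : Summable fun i => ‖a i‖) (g : ι → ℂ → ℂ)
    {U : Set ℂ} (hU : IsOpen U) {d : ℝ} (hd : 0 < d) (hg : ∀ i, Differentiable ℂ (g i))
    (hb : ∀ i, a i ≠ 0 → ∀ z ∈ U, d ≤ ‖g i z‖) :
    DifferentiableOn ℂ (fun z => ∑' i, a i * ((g i z)^4)⁻¹) U ∧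
      ∀ z ∈ U, Summable (fun i => a i * ((g i z)^4)⁻¹) := by
  have hle : ∀ (i : ι) (z : ℂ), z ∈ U → ‖a i * ((g i z)^4)⁻¹‖ ≤ ‖a i‖ * (d^4)⁻¹ := by
    intro i z hz
    by_cases hi : a i = 0
    · simp [hi]
    · rw [norm_mul, norm_inv, norm_pow]
      apply mul_le_mul_of_nonneg_left _ (norm_nonneg _)
      apply inv_anti₀ (by positivity)
      exact pow_le_pow_left₀ hd.le (hb i hi z hz) 4
  have hs : Summable fun i => ‖a i‖ * (d^4)⁻¹ := hsum.mul_right _
  refine ⟨?_, ?_⟩
  · apply differentiableOn_tsum_of_summable_norm hs _ hU hle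
    intro i
    by_cases hi : a i = 0
    · simp only [hi, zero_mul]
      exact differentiableOn_const _
    · apply DifferentiableOn.const_mul
      apply DifferentiableOn.inv
      · exact ((hg i).pow 4).differentiableOn
      · intro z hz h
        have h1 := hb i hi z hz
        rw [pow_eq_zero_iff (by norm_num)] at h
        rw [h, norm_zero] at h1
        linarith
  · intro z hz
    exact Summable.of_norm_bounded hs (fun i => hle i z hz)

/-- The function `E` vanishes on the arc. -/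
theorem pole_arc {ι : Type} (u a : ι → ℂ) {ξ : ℂ} (hξ : ‖ξ‖ = 1)
    (h : (ξ^2 * ∑' i, a i * ((u i - ξ)^4)⁻¹).re = 0) :
    (∑' i, a i * ((u i - ξ)^4)⁻¹) + ∑' i, conj (a i) * ((1 - conj (u i) * ξ)^4)⁻¹ = 0 := by
  have hξ0 : ξ ≠ 0 := by
    intro h0; rw [h0, norm_zero] at hξ; norm_num at hξ
  have hcc : conj ξ * ξ = 1 := by
    rw [← normSq_eq_conj_mul_self, normSq_eq_norm_sq, hξ]; norm_num
  have hc : conj ξ = ξ⁻¹ := eq_inv_of_mul_eq_one_left hcc
  have h1 : conj (ξ^2 * ∑' i, a i * ((u i - ξ)^4)⁻¹)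
      = ξ^2 * ∑' i, conj (a i) * ((1 - conj (u i) * ξ)^4)⁻¹ := by
    rw [map_mul, Complex.conj_tsum, ← tsum_mul_left, ← tsum_mul_left]
    apply tsum_congr
    intro i
    rw [map_pow, map_mul, map_inv₀, map_pow, map_sub, hc]
    have h2 : (1 - conj (u i) * ξ)^4 = (conj (u i) - ξ⁻¹)^4 * ξ^4 := by
      have : (conj (u i) - ξ⁻¹)^4 * ξ^4 = ((conj (u i)) * ξ - ξ⁻¹ * ξ)^4 := by
        rw [← mul_pow, sub_mul]
      rw [this, inv_mul_cancel₀ hξ0]
      ring
    rw [h2, mul_inv]
    field_simp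
  have h2 : ξ^2 * ((∑' i, a i * ((u i - ξ)^4)⁻¹) +
      ∑' i, conj (a i) * ((1 - conj (u i) * ξ)^4)⁻¹) = 0 := by
    rw [mul_add, ← h1, Complex.add_conj, h]
    simp
  rcases mul_eq_zero.1 h2 with h3 | h3
  · exact absurd h3 (pow_ne_zero 2 hξ0)
  · exact h3

theorem pole {ι : Type} (u a : ι → ℂ) (hu : Function.Injective u) (hu1 : ∀ i, ‖u i‖ < 1)
    (hfin : ∀ R : ℝ, R < 1 → {i | ‖u i‖ ≤ R}.Finite) (hsum : Summable fun i => ‖a i‖)
    {q : ℝ} (hq : 0 < q) (hq1 : q < 1) (huq : ∀ i, a i ≠ 0 → q ≤ (u i).re)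
    (h : ∀ ξ : ℂ, ‖ξ‖ = 1 → ξ.re < q → (ξ^2 * ∑' i, a i * ((u i - ξ)^4)⁻¹).re = 0) (i : ι) : a i = 0 := by
  classical
  have hsum' : Summable fun i => ‖conj (a i)‖ := by
    simpa only [Complex.norm_conj] using hsum
  set P : ℂ → ℂ := fun z => ∑' i, a i * ((u i - z)^4)⁻¹ with hP
  set Q : ℂ → ℂ := fun z => ∑' i, conj (a i) * ((1 - conj (u i) * z)^4)⁻¹ with hQ
  set U : Set ℂ := {z | z.re < q / 2} with hUdef
  have hUo : IsOpen U := isOpen_lt Complex.continuous_re continuous_const
  have hUc : Convex ℝ U := convex_halfSpace_re_lt _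
  have hdu : ∀ i, Differentiable ℂ (fun z : ℂ => u i - z) := fun i =>
    (differentiable_const _).sub differentiable_id
  have hdv : ∀ i, Differentiable ℂ (fun z : ℂ => 1 - conj (u i) * z) := fun i =>
    (differentiable_const _).sub (differentiable_id.const_mul _)
  have hPU := pole_diff a hsum (fun i z => u i - z) hUo (by positivity : 0 < q / 2) hdu (by
    intro i hi z hz
    have h1 := huq i hi
    have h2 : z.re < q / 2 := hz
    have h3 : (u i - z).re ≤ ‖u i - z‖ := re_le_norm _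
    rw [sub_re] at h3
    linarith)
  have hQU := pole_diff (fun i => conj (a i)) hsum' (fun i z => 1 - conj (u i) * z) hUo
    (by positivity : 0 < q * (q / 2)) hdv (by
    intro i hi z hz
    have hi' : a i ≠ 0 := fun h0 => hi (by simp [h0])
    have h1 := huq i hi'
    have h2 : z.re < q / 2 := hz
    have h0 : u i ≠ 0 := by
      intro h0
      rw [h0, zero_re] at h1
      linarith
    have h0' : conj (u i) ≠ 0 := by simpa using h0
    have h3 : 1 - conj (u i) * z = conj (u i) * ((conj (u i))⁻¹ - z) := by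
      rw [mul_sub, mul_inv_cancel₀ h0']
    have h4 : q ≤ ‖u i‖ := h1.trans (re_le_norm _)
    have h5 : q ≤ ((conj (u i))⁻¹).re := by
      rw [inv_re, conj_re, normSq_conj]
      have h6 : 0 < normSq (u i) := normSq_pos.2 h0
      rw [le_div_iff₀ h6]
      have h7 : normSq (u i) ≤ 1 := by
        rw [normSq_eq_norm_sq]
        have := (hu1 i).le
        have := norm_nonneg (u i)
        nlinarith
      nlinarith
    have h8 : q / 2 ≤ ‖(conj (u i))⁻¹ - z‖ := by
      have := re_le_norm ((conj (u i))⁻¹ - z)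
      rw [sub_re] at this
      linarith
    rw [h3, norm_mul, Complex.norm_conj]
    exact mul_le_mul h4 h8 (by positivity) (norm_nonneg _))
  -- E vanishes on U
  have hE : AnalyticOnNhd ℂ (fun z => P z + Q z) U :=
    (hPU.1.add hQU.1).analyticOnNhd hUo
  have hEz : EqOn (fun z => P z + Q z) 0 U := by
    apply hE.eqOn_zero_of_preconnected_of_frequently_eq_zero hUc.isPreconnected
      (z₀ := -1) (by simp only [hUdef, mem_ofPred_eq, neg_re, one_re]; linarith)
    have hT : Tendsto (fun θ : ℝ => -exp (θ * I)) (𝓝[>] 0) (𝓝[≠] (-1)) := by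
      rw [tendsto_nhdsWithin_iff]
      refine ⟨?_, ?_⟩
      · have hc : Continuous (fun θ : ℝ => -exp (θ * I)) := by fun_prop
        have := hc.tendsto 0
        simp only [ofReal_zero, zero_mul, exp_zero] at this
        exact this.mono_left nhdsWithin_le_nhds
      · have h1 : Ioo (0 : ℝ) 1 ∈ 𝓝[>] (0 : ℝ) := Ioo_mem_nhdsGT one_pos
        filter_upwards [h1] with θ hθ
        simp only [mem_compl_iff, mem_singleton_iff]
        intro h2
        have h3 := congrArg Complex.im h2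
        simp only [neg_im, exp_ofReal_mul_I_im, one_im, neg_zero, neg_eq_zero] at h3
        have h4 : 0 < Real.sin θ := Real.sin_pos_of_pos_of_lt_pi hθ.1
          (lt_trans hθ.2 (by linarith [Real.pi_gt_three]))
        linarith
    apply hT.frequently
    apply Eventually.frequently
    have h1 : Ioo (0 : ℝ) 1 ∈ 𝓝[>] (0 : ℝ) := Ioo_mem_nhdsGT one_pos
    filter_upwards [h1] with θ hθ
    have h2 : ‖-exp (θ * I)‖ = 1 := by rw [norm_neg, norm_exp_ofReal_mul_I]
    apply pole_arc u a h2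
    apply h _ h2
    rw [neg_re, exp_ofReal_mul_I_re]
    have h3 : 0 < Real.cos θ := Real.cos_pos_of_mem_Ioo
      ⟨by linarith [Real.pi_gt_three, hθ.1], by linarith [Real.pi_gt_three, hθ.2]⟩
    linarith
  -- the contradiction
  by_contra hi
  set ρ : ℝ := ‖u i‖ with hρ
  have hρ1 : ρ < 1 := hu1 i
  have hρ0 : 0 ≤ ρ := norm_nonneg _
  set R0 : ℝ := (2 * ρ + 1) / 3 with hR0
  set R : ℝ := (ρ + 2) / 3 with hR
  have hRR : R0 < R := by rw [hR0, hR]; linarith
  have hR1 : R < 1 := by rw [hR]; linarith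
  have hρR : ρ < R0 := by rw [hR0]; linarith
  set J : Finset ι := ((hfin R hR1).subset
    (fun j (hj : j ∈ {j | ‖u j‖ ≤ R ∧ a j ≠ 0}) => hj.1)).toFinset with hJ
  have hJm : ∀ j, j ∈ J ↔ ‖u j‖ ≤ R ∧ a j ≠ 0 := by
    intro j
    rw [hJ, Finite.mem_toFinset, mem_ofPred_eq]
  have hiJ : i ∈ J := (hJm i).2 ⟨by linarith, hi⟩
  set b : ι → ℂ := fun j => if j ∈ J then 0 else a j with hb
  set c : ι → ℂ := fun j => if j ∈ J then a j else 0 with hc
  have hbs : Summable fun j => ‖b j‖ := by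
    apply Summable.of_nonneg_of_le (fun j => norm_nonneg _) _ hsum
    intro j
    simp only [hb]
    split_ifs
    · simp
    · exact le_rfl
  have hBR := pole_diff b hbs (fun i z => u i - z) (isOpen_ball (x := (0 : ℂ)) (ε := R0))
    (sub_pos.2 hRR) hdu (by
    intro j hj z hz
    rw [mem_ball_zero_iff] at hz
    have h1 : j ∉ J := by
      intro h1
      exact hj (by simp only [hb]; exact if_pos h1)
    have h2 : a j ≠ 0 := by
      intro h2
      exact hj (by simp only [hb, h2, ite_self])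
    have h3 : R < ‖u j‖ := by
      by_contra h3
      exact h1 ((hJm j).2 ⟨not_lt.1 h3, h2⟩)
    have h4 := norm_sub_norm_le (u j) z
    linarith)
  have hQR := pole_diff (fun i => conj (a i)) hsum' (fun i z => 1 - conj (u i) * z)
    (isOpen_ball (x := (0 : ℂ)) (ε := R0)) (by linarith : 0 < 1 - R0) hdv (by
    intro j _ z hz
    rw [mem_ball_zero_iff] at hz
    have h4 := norm_sub_norm_le 1 (conj (u j) * z)
    rw [norm_one, norm_mul, Complex.norm_conj] at h4
    have h5 : ‖u j‖ * ‖z‖ ≤ 1 * ‖z‖ :=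
      mul_le_mul_of_nonneg_right (hu1 j).le (norm_nonneg _)
    linarith)
  set Φ : ℂ → ℂ := fun z => (∏ j ∈ J, (z - u j)^4) * ((∑' j, b j * ((u j - z)^4)⁻¹) + Q z) +
    ∑ k ∈ J, a k * ∏ j ∈ J.erase k, (z - u j)^4 with hΦ
  have hΦd : AnalyticOnNhd ℂ Φ (ball 0 R0) := by
    apply DifferentiableOn.analyticOnNhd _ isOpen_ball
    have hprod : ∀ S : Finset ι, Differentiable ℂ (fun z : ℂ => ∏ j ∈ S, (z - u j)^4) := by
      intro S
      apply Differentiable.fun_finsetProd
      intro j _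
      exact (differentiable_id.sub_const _).pow 4
    apply DifferentiableOn.add
    · exact (hprod J).differentiableOn.mul (hBR.1.add hQR.1)
    · apply DifferentiableOn.fun_sum
      intro k _
      exact ((hprod _).differentiableOn).const_mul _
  have hΦU : ∀ z ∈ ball (0 : ℂ) R0 ∩ U, Φ z = 0 := by
    rintro z ⟨hzR, hzU⟩
    have h1 : P z + Q z = 0 := hEz hzU
    have h2 : P z = (∑ k ∈ J, a k * ((u k - z)^4)⁻¹) + ∑' j, b j * ((u j - z)^4)⁻¹ := by
      have h3 : ∀ j, a j * ((u j - z)^4)⁻¹ = c j * ((u j - z)^4)⁻¹ + b j * ((u j - z)^4)⁻¹ := by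
        intro j
        rw [← add_mul]
        congr 1
        simp only [hb, hc]
        split_ifs <;> simp
      have h4 : ∀ j ∉ J, c j * ((u j - z)^4)⁻¹ = 0 := by
        intro j hj
        simp only [hc]
        rw [if_neg hj, zero_mul]
      rw [hP]
      simp only
      rw [tsum_congr h3, Summable.tsum_add (summable_of_ne_finset_zero h4) (hBR.2 z hzR),
        tsum_eq_sum h4]
      congr 1
      apply Finset.sum_congr rfl
      intro k hk
      simp only [hc]
      rw [if_pos hk]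
    have hne : ∀ j ∈ J, z - u j ≠ 0 := by
      intro j hj h0
      have h5 := huq j ((hJm j).1 hj).2
      have h6 : z.re < q / 2 := hzU
      rw [sub_eq_zero] at h0
      rw [← h0] at h5
      linarith
    have h7 : ∑ k ∈ J, a k * ∏ j ∈ J.erase k, (z - u j)^4
        = (∏ j ∈ J, (z - u j)^4) * ∑ k ∈ J, a k * ((u k - z)^4)⁻¹ := by
      rw [Finset.mul_sum]
      apply Finset.sum_congr rfl
      intro k hk
      rw [← Finset.mul_prod_erase J _ hk]
      have h8 : (u k - z)^4 = (z - u k)^4 := by ring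
      have h9 : (z - u k)^4 ≠ 0 := pow_ne_zero 4 (hne k hk)
      have h10 : (z - u k)^4 * ((z - u k)^4)⁻¹ = 1 := mul_inv_cancel₀ h9
      rw [h8]
      linear_combination (-(a k * ∏ j ∈ J.erase k, (z - u j)^4)) * h10
    rw [hΦ]
    simp only
    rw [h7, ← mul_add]
    have h8 : (∑' j, b j * ((u j - z)^4)⁻¹) + Q z + ∑ k ∈ J, a k * ((u k - z)^4)⁻¹ = 0 := by
      rw [← h1, h2]; ring
    rw [h8, mul_zero]
  have hΦ0 : EqOn Φ 0 (ball 0 R0) := by
    have h0 : (0 : ℂ) ∈ ball (0 : ℂ) R0 ∩ U :=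
      ⟨mem_ball_self (by linarith), by simp only [hUdef, mem_ofPred_eq, zero_re]; linarith⟩
    apply hΦd.eqOn_zero_of_preconnected_of_eventuallyEq_zero
      (convex_ball _ _).isPreconnected h0.1
    filter_upwards [(isOpen_ball.inter hUo).mem_nhds h0] with z hz
    exact hΦU z hz
  have h1 : Φ (u i) = 0 := hΦ0 (by rw [mem_ball_zero_iff]; exact hρR)
  rw [hΦ] at h1
  simp only at h1
  rw [← Finset.mul_prod_erase J _ hiJ, sub_self, zero_pow (by norm_num), zero_mul, zero_mul,
    zero_add, Finset.sum_eq_single i] at h1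
  · rcases mul_eq_zero.1 h1 with h2 | h2
    · exact hi h2
    · rw [Finset.prod_eq_zero_iff] at h2
      obtain ⟨j, hj, h3⟩ := h2
      rw [pow_eq_zero_iff (by norm_num), sub_eq_zero] at h3
      exact (Finset.mem_erase.1 hj).1 (hu h3).symm
  · intro k hk hki
    rw [Finset.prod_eq_zero (i := i)]
    · rw [mul_zero]
    · exact Finset.mem_erase.2 ⟨hki.symm, hiJ⟩
    · rw [sub_self, zero_pow (by norm_num)]
  · intro h2
    exact absurd hiJ h2

end AG
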