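import Pool.Agent.Bloch.Geom
import Pool.Agent.Bloch.Gp
import Pool.Agent.Bloch.Vtx
import Pool.Agent.Bloch.Vsum
import Pool.Agent.Bloch.Null
import Pool.Agent.Bloch.Agex
import Pool.Agent.Bloch.Limit
import Pool.Agent.Bloch.Pole

set_option autoImplicit false

noncomputable section

namespace AG

open Complex Metric Set
open scoped ComplexConjugate

/-! ## FINAL (assembled below) -/

theorem not_HypH : ¬ HypH := by
  intro hH
  obtain ⟨F, hF⟩ := exists_AG
  have haa : (2:ℝ) < aa := aa_gt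
  obtain ⟨C, hC, hF2⟩ := vert_F2 hF
  have hsum := vert_sum hF
  let ι : Type := Vert
  let u : ι → ℂ := fun v => v.1
  let a : ι → ℂ := fun v => c0 v.1 * (deriv (deriv F) v.1)⁻¹
  have hrv : (rv:ℂ) ∈ Vert := ⟨_, _, Gp.one, rfl⟩
  have hc0 : c0 (rv:ℂ) = I := by
    unfold c0
    rw [if_pos ell_rv]
  have key := pole u a (fun x y h => Subtype.ext h)
    (fun i => by simpa using (vert_crit hF i.2).1)
    (by
      intro R hR
      have h1 := vert_fin hF hR
      have : {i : ι | ‖u i‖ ≤ R} = Subtype.val ⁻¹' {v : ℂ | v ∈ Vert ∧ ‖v‖ ≤ R} := by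
        ext i
        constructor
        · intro h; exact ⟨i.2, h⟩
        · intro h; exact h.2
      rw [this]
      exact h1.preimage (Subtype.val_injective.injOn))
    (by
      refine Summable.of_nonneg_of_le (fun i => norm_nonneg _) (fun i => ?_) (hsum.mul_left C)
      have h1 := hF2 i.1 i.2
      have h2 : ‖u i‖ < 1 := by simpa using (vert_crit hF i.2).1
      have h3 : ‖c0 i.1‖ ≤ 1 := by
        unfold c0
        split_ifs <;> simp
      have h4 : (deriv (deriv F) i.1)⁻¹ = (i.1)^2 * ((i.1)^2 * deriv (deriv F) i.1)⁻¹ := by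
        have h5 := (vert_crit hF i.2).2.1
        rw [mul_inv, ← mul_assoc, mul_inv_cancel₀ (pow_ne_zero 2 h5), one_mul]
      show ‖c0 i.1 * (deriv (deriv F) i.1)⁻¹‖ ≤ _
      rw [norm_mul, h4, norm_mul, norm_pow]
      have h6 : ‖(i.1:ℂ)‖^2 ≤ 1 := by
        have : ‖(i.1:ℂ)‖ < 1 := h2
        nlinarith [norm_nonneg (i.1:ℂ)]
      calc ‖c0 i.1‖ * (‖(i.1:ℂ)‖^2 * ‖((i.1)^2 * deriv (deriv F) i.1)⁻¹‖)
          ≤ 1 * (1 * ‖((i.1)^2 * deriv (deriv F) i.1)⁻¹‖) := by gcongr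
        _ ≤ _ := by simpa using h1)
    (q := 1/(4*aa)) (by positivity) (by
      rw [div_lt_one (by positivity)]; linarith)
    (by
      intro i hi
      by_contra hcon
      apply hi
      have h2 : ‖u i‖ < 1 := by simpa using (vert_crit hF i.2).1
      have : c0 i.1 = 0 := by
        unfold c0
        rw [if_neg]
        unfold ell
        push Not at hcon ⊢
        have h3 : (u i).re * (4*aa) < 1 := by
          rwa [lt_div_iff₀ (by positivity)] at hcon
        have h4 : (0:ℝ) ≤ ‖(i.1:ℂ)‖^2 := by positivity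
        show 4*aa*(i.1:ℂ).re - 1 - ‖(i.1:ℂ)‖^2 ≤ 0
        have h5 : (u i).re = (i.1:ℂ).re := rfl
        rw [h5] at h3
        nlinarith
      show c0 i.1 * _ = 0
      rw [this, zero_mul])
    (by
      intro ξ h1 h2
      have h3 := limit_null hH hF h1 h2
      rw [← h3]
      congr 2
      apply tsum_congr
      intro i
      show c0 i.1 * (deriv (deriv F) i.1)⁻¹ * ((i.1 - ξ)^4)⁻¹ = _
      rw [mul_inv]
      ring)
    ⟨(rv:ℂ), hrv⟩
  have hne := (vert_crit hF hrv).2.2.2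
  have : c0 (rv:ℂ) * (deriv (deriv F) (rv:ℂ))⁻¹ = 0 := key
  rw [hc0] at this
  rcases mul_eq_zero.1 this with h | h
  · exact I_ne_zero h
  · exact hne (inv_eq_zero.1 h)

theorem final_S05862 : ¬ ((∀ f : ℂ → ℂ, DifferentiableOn ℂ f (Metric.ball (0:ℂ) 1) → f 0 = 0 → deriv f 0 = 1 →
      ∀ r : ℝ, r < (1 / Real.sqrt (1 + Real.sqrt 3)) *
          (Real.Gamma (1/3) * Real.Gamma (11/12) / Real.Gamma (1/4)) →
        ∃ S : Set ℂ, S ⊆ Metric.ball (0:ℂ) 1 ∧ IsOpen S ∧ IsConnected S ∧ Set.InjOn f S ∧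
          ∃ w : ℂ, Metric.ball w r ⊆ f '' S) ∧
    (∀ ε : ℝ, 0 < ε → ∃ f : ℂ → ℂ, DifferentiableOn ℂ f (Metric.ball (0:ℂ) 1) ∧ f 0 = 0 ∧
      deriv f 0 = 1 ∧
      ∀ S : Set ℂ, S ⊆ Metric.ball (0:ℂ) 1 → IsOpen S → IsConnected S → Set.InjOn f S →
        ∀ w : ℂ, ¬ (Metric.ball w ((1 / Real.sqrt (1 + Real.sqrt 3)) *
          (Real.Gamma (1/3) * Real.Gamma (11/12) / Real.Gamma (1/4)) + ε) ⊆ f '' S))) := by
  intro h
  exact not_HypH h.1

end AG
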