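import Pool.Agent.Bloch.PertA
import Pool.Agent.Bloch.Geom

/-!
Schlicht radius of a perturbed face.
-/

set_option autoImplicit false

noncomputable section

namespace AG

open Complex Metric Set
open scoped ComplexConjugate Topology

theorem pert_om3 : om^3 = 1 := by
  rw [pow_succ, pert_om2]
  have h3 : Real.sqrt 3 * Real.sqrt 3 = 3 := Real.mul_self_sqrt (by norm_num)
  unfold om
  apply Complex.ext
  · simp only [Complex.mul_re, Complex.one_re]; nlinarith
  · simp only [Complex.mul_im, Complex.one_im]; ring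

theorem pert_omn (j : ℕ) : ‖om^j‖ = 1 := by rw [norm_pow, critp_om_norm, one_pow]

theorem pert_conj (j : ℕ) : conj (om^j) = om^(2*j) := by
  have h1 : conj (om^j) * om^j = 1 := by
    rw [mul_comm, Complex.mul_conj, Complex.normSq_eq_norm_sq, pert_omn]; simp
  have h2 : om^(2*j) * om^j = 1 := by
    rw [← pow_add, show 2*j + j = 3*j by ring, pow_mul, pert_om3, one_pow]
  have h3 : om^j ≠ 0 := fun h => by
    have := congrArg norm h
    rw [pert_omn] at this; simp at this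
  exact mul_right_cancel₀ h3 (h1.trans h2.symm)

theorem pert_mod (j : ℕ) : om^j = om^(j % 3) := by
  conv_lhs => rw [← Nat.div_add_mod j 3, pow_add, pow_mul, pert_om3, one_pow, one_mul]

/-- The inverse of `F` on the central face. -/
def pertInv (F : ℂ → ℂ) : ℂ → ℂ := Function.invFunOn F Tri

theorem pert_inv_mem {F : ℂ → ℂ} (hF : AGF F) {w : ℂ} (hw : w ∈ Del) :
    pertInv F w ∈ Tri ∧ F (pertInv F w) = w := by
  have h : w ∈ F '' Tri := by rw [hF.img]; exact hw
  exact ⟨Function.invFunOn_mem h, Function.invFunOn_eq h⟩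

theorem pert_tri_ball {z : ℂ} (hz : z ∈ Tri) : z ∈ ball (0:ℂ) 1 := by
  rw [mem_ball_zero_iff]; exact hz.1

theorem pert_inv_F {F : ℂ → ℂ} (hF : AGF F) {z : ℂ} (hz : z ∈ Tri) : pertInv F (F z) = z :=
  (hF.inj.leftInvOn_invFunOn) hz

theorem pert_inv_cont {F : ℂ → ℂ} (hF : AGF F) : ContinuousOn (pertInv F) Del := by
  rw [continuousOn_iff_isClosed]
  intro Z hZ
  refine ⟨F '' (Tri ∩ Z), ?_, ?_⟩
  · refine IsCompact.isClosed (IsCompact.image_of_continuousOn (tri_compact.inter_right hZ) ?_)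
    exact hF.diff.continuousOn.mono (fun z hz => pert_tri_ball hz.1)
  · ext w
    constructor
    · rintro ⟨h1, h2⟩
      obtain ⟨h3, h4⟩ := pert_inv_mem hF h2
      exact ⟨⟨pertInv F w, ⟨h3, h1⟩, h4⟩, h2⟩
    · rintro ⟨⟨z, ⟨h1, h2⟩, rfl⟩, h3⟩
      refine ⟨?_, h3⟩
      change pertInv F (F z) ∈ Z
      rwa [pert_inv_F hF h1]

/-- A continuous nonvanishing function on a compact set is bounded below. -/
theorem pert_low {X : Type*} [TopologicalSpace X] {K : Set X} (hK : IsCompact K) {f : X → ℂ}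
    (hf : ContinuousOn f K) (h0 : ∀ x ∈ K, f x ≠ 0) : ∃ m > 0, ∀ x ∈ K, m ≤ ‖f x‖ := by
  obtain ⟨m, hm, hm'⟩ := hK.exists_forall_le' hf.norm (a := 0) (fun x hx => norm_pos_iff.2 (h0 x hx))
  exact ⟨m, hm, hm'⟩

theorem pert_three {P : ℕ → ℝ → Prop} (hP : ∀ j m m', m' ≤ m → P j m → P j m')
    (h : ∀ j, ∃ m > 0, P j m) : ∃ m > 0, ∀ j < 3, P j m := by
  obtain ⟨m0, h0, h0'⟩ := h 0
  obtain ⟨m1, h1, h1'⟩ := h 1
  obtain ⟨m2, h2, h2'⟩ := h 2
  refine ⟨min m0 (min m1 m2), lt_min h0 (lt_min h1 h2), ?_⟩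
  intro j hj
  interval_cases j
  · exact hP _ _ _ (min_le_left _ _) h0'
  · exact hP _ _ _ ((min_le_right _ _).trans (min_le_left _ _)) h1'
  · exact hP _ _ _ ((min_le_right _ _).trans (min_le_right _ _)) h2'

/-- points of `Del` far from a vertex -/
theorem pert_far {q : ℂ} (hq : q ∈ Del) (l : ℕ) :
    ‖q - bt * om^l‖ ≤ 2 * (bt - (q * conj (om^l)).re) := by
  have hbt := bt_pos
  set a : ℂ := q * conj (om^l) with ha
  have h1 : ‖q - bt * om^l‖ = ‖a - bt‖ := by
    have h2 : a - bt = (q - bt * om^l) * conj (om^l) := by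
      have h3 : om^l * conj (om^l) = 1 := by
        rw [Complex.mul_conj, Complex.normSq_eq_norm_sq, pert_omn]; simp
      rw [sub_mul, mul_assoc, h3, mul_one]
    rw [h2, norm_mul, Complex.norm_conj, pert_omn, mul_one]
  have h3 : ∀ k : ℕ, -(bt/2) ≤ (a * om^k).re := by
    intro k
    have := hq (2*l + k)
    rwa [pow_add, ← pert_conj, ← mul_assoc] at this
  have h4 := h3 1
  have h5 := h3 2
  rw [pow_one] at h4
  rw [pert_om2] at h5
  unfold om at h4
  simp only [Complex.mul_re] at h4 h5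
  have h6 : 0 < Real.sqrt 3 := by positivity
  have h7 : Real.sqrt 3 * Real.sqrt 3 = 3 := Real.mul_self_sqrt (by norm_num)
  have h8 : 0 ≤ bt - a.re := by linarith
  rw [h1]
  refine abs_le_of_sq_le_sq' ?_ (by linarith) |>.2
  rw [← Complex.normSq_eq_norm_sq, Complex.normSq_apply]
  simp only [Complex.sub_re, Complex.sub_im, Complex.ofReal_re, Complex.ofReal_im, sub_zero]
  have h9 : |Real.sqrt 3 * a.im| ≤ bt - a.re := abs_le.2 ⟨by linarith, by linarith⟩
  have h10 := sq_le_sq' (abs_le.1 h9).1 (abs_le.1 h9).2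
  have h11 : (Real.sqrt 3 * a.im)^2 = 3 * a.im^2 := by ring_nf; rw [Real.sq_sqrt (by norm_num)]; ring
  rw [h11] at h10
  nlinarith

/-- distance of a segment ending at the vertex `j` from another vertex -/
theorem pert_seg {q : ℂ} (hq : q ∈ Del) {l j : ℕ} (hl : l < 3) (hj : j < 3) (hlj : l ≠ j)
    {s2 t : ℝ} (h2 : 2 * s2 ≤ ‖q - bt * om^l‖) (hsb : s2 ≤ bt) (ht0 : 0 ≤ t) (ht1 : t ≤ 1) :
    s2 ≤ ‖q + t * (bt * om^j - q) - bt * om^l‖ := by
  have hbt := bt_pos
  have h1 := pert_far hq l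
  have h3 : (om^j * conj (om^l)).re = -1/2 := by
    interval_cases l <;> interval_cases j <;> first | (exact absurd rfl hlj) | skip
    · rw [pow_one]; simp [om]
    · rw [pert_om2]; simp
    · rw [pow_one]; simp [om]
    · rw [pert_om2, pow_one]; simp [om]
      nlinarith [Real.mul_self_sqrt (show (0:ℝ) ≤ 3 by norm_num)]
    · rw [pert_om2]; simp
    · rw [pert_om2, pow_one]; simp [om]
      nlinarith [Real.mul_self_sqrt (show (0:ℝ) ≤ 3 by norm_num)]
  have h4 : bt - ((q + t * (bt * om^j - q)) * conj (om^l)).re ≤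
      ‖q + t * (bt * om^j - q) - bt * om^l‖ := by
    have h5 : om^l * conj (om^l) = 1 := by
      rw [Complex.mul_conj, Complex.normSq_eq_norm_sq, pert_omn]; simp
    have h6 : (q + t * (bt * om^j - q) - bt * om^l) * conj (om^l) =
        (q + t * (bt * om^j - q)) * conj (om^l) - bt := by
      rw [sub_mul, mul_assoc (bt:ℂ), h5, mul_one]
    have h7 := Complex.abs_re_le_norm ((q + t * (bt * om^j - q) - bt * om^l) * conj (om^l))
    rw [norm_mul, Complex.norm_conj, pert_omn, mul_one, h6, Complex.sub_re, Complex.ofReal_re] at h7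
    have := (abs_le.1 h7).1
    linarith
  have h8 : ((q + t * (bt * om^j - q)) * conj (om^l)).re =
      (1 - t) * (q * conj (om^l)).re + t * (bt * (-1/2)) := by
    have h9 : (q + t * (bt * om^j - q)) * conj (om^l) =
        ((1 - t : ℝ) : ℂ) * (q * conj (om^l)) + ((t * bt : ℝ) : ℂ) * (om^j * conj (om^l)) := by
      push_cast; ring
    rw [h9, Complex.add_re, Complex.re_ofReal_mul, Complex.re_ofReal_mul, h3]
    ring
  rw [h8] at h4
  have h9 : s2 ≤ bt - (q * conj (om^l)).re := by linarith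
  have h10 : (1 - t) * s2 ≤ (1 - t) * (bt - (q * conj (om^l)).re) :=
    mul_le_mul_of_nonneg_left h9 (by linarith)
  have h11 : t * s2 ≤ t * (3/2 * bt) := mul_le_mul_of_nonneg_left (by linarith) ht0
  nlinarith

theorem pert_seg_del {q : ℂ} (hq : q ∈ Del) (j : ℕ) {t : ℝ} (ht0 : 0 ≤ t) (ht1 : t ≤ 1)
    (hW : (bt:ℂ) * om^j ∈ Del) : q + t * (bt * om^j - q) ∈ Del := by
  intro k
  have h1 := hq k
  have h2 := hW k
  have h9 : (q + t * (bt * om^j - q)) * om^k =
        ((1 - t : ℝ) : ℂ) * (q * om^k) + (t : ℂ) * (bt * om^j * om^k) := by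
      push_cast; ring
  rw [h9, Complex.add_re, Complex.re_ofReal_mul, Complex.re_ofReal_mul]
  nlinarith

theorem pert_consts {F : ℂ → ℂ} (hF : AGF F) {s : ℝ} (hs : 0 < s) (hsr : rv + 2 * s < 1)
    (hiso : ∀ j : ℕ, ∀ z ∈ ball ((rv:ℂ) * om^j) s, F z = bt * om^j → z = rv * om^j) :
    ∃ s2 ρ m2 : ℝ, 0 < s2 ∧ 0 < ρ ∧ 0 < m2 ∧ s2 ≤ bt / 8 ∧ ρ ≤ s / 4 ∧
      (∀ j < 3, ∀ z ∈ Tri, ‖F z - bt * om^j‖ ≤ 2 * s2 → ‖z - rv * om^j‖ < s / 4) ∧
      (∀ j < 3, ∀ z : ℂ, ‖z - rv * om^j‖ = s / 2 → 4 * s2 ≤ ‖F z - bt * om^j‖) ∧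
      (∀ ζ ∈ Tri, (∀ j < 3, s2 ≤ ‖F ζ - bt * om^j‖) → ∀ z, ‖z - ζ‖ = ρ → m2 ≤ ‖F z - F ζ‖) := by
  have hbt := bt_pos
  have hvF : ∀ j : ℕ, F (rv * om^j) = bt * om^j := by
    intro j
    have h1 : (rv:ℂ) ∈ ball (0:ℂ) 1 := by
      rw [mem_ball_zero_iff, Complex.norm_real, Real.norm_of_nonneg critp_rv_pos.le]
      exact critp_rv_lt
    rw [mul_comm, critp_rot hF j h1, hF.vert, mul_comm]
  have hball : ∀ j : ℕ, ∀ z : ℂ, ‖z - rv * om^j‖ ≤ s → z ∈ ball (0:ℂ) 1 := by
    intro j z hz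
    rw [mem_ball_zero_iff]
    have h1 : ‖z‖ ≤ ‖z - rv * om^j‖ + ‖(rv:ℂ) * om^j‖ := by
      have := norm_add_le (z - rv * om^j) (rv * om^j)
      simpa using this
    rw [norm_mul, pert_omn, Complex.norm_real, Real.norm_of_nonneg critp_rv_pos.le] at h1
    linarith
  -- first constant
  obtain ⟨m1, hm1, hm1'⟩ := pert_three
    (P := fun j m => ∀ z : ℂ, ‖z - rv * om^j‖ = s / 2 → m ≤ ‖F z - bt * om^j‖)
    (fun j m m' hmm h z hz => hmm.trans (h z hz)) (by
      intro j
      obtain ⟨m, hm, hm'⟩ := pert_low (K := sphere ((rv:ℂ) * om^j) (s/2)) (isCompact_sphere _ _)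
        (f := fun z => F z - bt * om^j)
        ((hF.diff.continuousOn.mono (fun z hz => hball j z (by
          rw [mem_sphere, dist_eq_norm] at hz; linarith))).sub continuousOn_const)
        (by
          intro z hz h0
          rw [mem_sphere, dist_eq_norm] at hz
          have := hiso j z (by rw [mem_ball, dist_eq_norm]; linarith) (sub_eq_zero.1 h0)
          rw [this, sub_self, norm_zero] at hz
          linarith)
      exact ⟨m, hm, fun z hz => hm' z (by rwa [mem_sphere, dist_eq_norm])⟩)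
  obtain ⟨m3, hm3, hm3'⟩ := pert_three
    (P := fun j m => ∀ z ∈ Tri, s / 4 ≤ ‖z - rv * om^j‖ → m ≤ ‖F z - bt * om^j‖)
    (fun j m m' hmm h z hz hz2 => hmm.trans (h z hz hz2)) (by
      intro j
      obtain ⟨m, hm, hm'⟩ := pert_low (K := Tri ∩ {z | s / 4 ≤ ‖z - rv * om^j‖})
        (tri_compact.inter_right (isClosed_le continuous_const (by fun_prop)))
        (f := fun z => F z - bt * om^j)
        ((hF.diff.continuousOn.mono (fun z hz => pert_tri_ball hz.1)).sub continuousOn_const)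
        (by
          rintro z ⟨hz, hz2⟩ h0
          have h1 : F z = F (rv * om^j) := by rw [hvF]; exact sub_eq_zero.1 h0
          have := hF.inj hz (rv_mem j) h1
          change s / 4 ≤ ‖z - rv * om^j‖ at hz2
          rw [this, sub_self, norm_zero] at hz2
          linarith)
      exact ⟨m, hm, fun z hz hz2 => hm' z ⟨hz, hz2⟩⟩)
  set s2 : ℝ := min (bt / 8) (min (m1 / 4) (m3 / 4)) with hs2
  have hs20 : 0 < s2 := lt_min (by linarith) (lt_min (by linarith) (by linarith))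
  have hs2b : s2 ≤ bt / 8 := min_le_left _ _
  have hs21 : s2 ≤ m1 / 4 := (min_le_right _ _).trans (min_le_left _ _)
  have hs23 : s2 ≤ m3 / 4 := (min_le_right _ _).trans (min_le_right _ _)
  -- the regular part
  set T : Set ℂ := Tri ∩ ⋂ j ∈ Finset.range 3, {ζ | ζ ∈ Tri → s2 ≤ ‖F ζ - bt * om^j‖} with hT
  have hTeq : T = {ζ | ζ ∈ Tri ∧ ∀ j < 3, s2 ≤ ‖F ζ - bt * om^j‖} := by
    ext ζ
    simp only [hT, mem_inter_iff, mem_iInter, Finset.mem_range, mem_ofPred_eq]
    constructor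
    · rintro ⟨h1, h2⟩; exact ⟨h1, fun j hj => h2 j hj h1⟩
    · rintro ⟨h1, h2⟩; exact ⟨h1, fun j hj _ => h2 j hj⟩
  have hTc : IsCompact T := by
    have h1 : T = Tri ∩ (fun ζ => min (‖F ζ - bt * om^0‖) (min (‖F ζ - bt * om^1‖)
        (‖F ζ - bt * om^2‖))) ⁻¹' (Ici s2) := by
      rw [hTeq]
      ext ζ
      simp only [mem_ofPred_eq, mem_inter_iff, mem_preimage, mem_Ici, le_min_iff]
      constructor
      · rintro ⟨h1, h2⟩
        exact ⟨h1, h2 0 (by norm_num), h2 1 (by norm_num), h2 2 (by norm_num)⟩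
      · rintro ⟨h1, h2, h3, h4⟩
        refine ⟨h1, fun j hj => ?_⟩
        interval_cases j
        · exact h2
        · exact h3
        · exact h4
    rw [h1]
    have hc : ContinuousOn F Tri := hF.diff.continuousOn.mono (fun z hz => pert_tri_ball hz)
    have hc2 : ContinuousOn (fun ζ => min (‖F ζ - bt * om^0‖) (min (‖F ζ - bt * om^1‖)
        (‖F ζ - bt * om^2‖))) Tri :=
      ContinuousOn.inf (hc.sub continuousOn_const).norm
        (ContinuousOn.inf (hc.sub continuousOn_const).norm (hc.sub continuousOn_const).norm)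
    exact tri_compact.of_isClosed_subset
      (hc2.preimage_isClosed_of_isClosed tri_compact.isClosed isClosed_Ici) inter_subset_left
  -- uniform injectivity
  have hloc : ∀ ζ : T, ∃ U : Set ℂ, IsOpen U ∧ (ζ:ℂ) ∈ U ∧ InjOn F U := by
    rintro ⟨ζ, hζ⟩
    rw [hTeq] at hζ
    have h1 : deriv F ζ ≠ 0 := by
      refine hF.reg ζ hζ.1 (fun k hk => ?_)
      have h2 := hζ.2 (k % 3) (Nat.mod_lt _ (by norm_num))
      rw [hk, hvF, pert_mod k, sub_self, norm_zero] at h2
      linarith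
    have h2 : ContDiffAt ℂ 1 F ζ :=
      (hF.diff.contDiffOn isOpen_ball).contDiffAt (isOpen_ball.mem_nhds (pert_tri_ball hζ.1))
    have h3 : HasStrictDerivAt F (deriv F ζ) ζ := h2.hasStrictDerivAt one_ne_zero
    have h4 := h3.hasStrictFDerivAt_equiv h1
    refine ⟨(h4.toOpenPartialHomeomorph F).source, (h4.toOpenPartialHomeomorph F).open_source,
      h4.mem_toOpenPartialHomeomorph_source, ?_⟩
    exact (h4.toOpenPartialHomeomorph F).injOn
  choose U hU1 hU2 hU3 using hloc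
  obtain ⟨ρ0, hρ0, hρ0'⟩ := lebesgue_number_lemma_of_metric hTc hU1
    (fun ζ hζ => mem_iUnion.2 ⟨⟨ζ, hζ⟩, hU2 ⟨ζ, hζ⟩⟩)
  set ρ : ℝ := min (ρ0 / 2) (s / 4) with hρ
  have hρp : 0 < ρ := lt_min (by linarith) (by linarith)
  have hρs : ρ ≤ s / 4 := min_le_right _ _
  have hρρ : ρ ≤ ρ0 / 2 := min_le_left _ _
  have hballT : ∀ ζ ∈ Tri, ∀ u : ℂ, ‖u‖ ≤ s / 4 → ζ + u ∈ ball (0:ℂ) 1 := by
    intro ζ hζ u hu
    rw [mem_ball_zero_iff]
    have h1 := norm_add_le ζ u
    have h2 := tri_rv hζ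
    linarith
  obtain ⟨m2, hm2, hm2'⟩ := pert_low (K := T ×ˢ sphere (0:ℂ) ρ) (hTc.prod (isCompact_sphere _ _))
    (f := fun x => F (x.1 + x.2) - F x.1)
    (by
      refine ContinuousOn.sub ?_ ?_
      · refine hF.diff.continuousOn.comp (by fun_prop) ?_
        rintro ⟨ζ, u⟩ ⟨h1, h2⟩
        refine hballT ζ h1.1 u ?_
        have : ‖u‖ = ρ := by simpa using h2
        rw [this]; exact hρs
      · refine hF.diff.continuousOn.comp (by fun_prop) ?_
        rintro ⟨ζ, u⟩ ⟨h1, h2⟩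
        exact pert_tri_ball h1.1)
    (by
      rintro ⟨ζ, u⟩ ⟨h1, h2⟩ h0
      have hu : ‖u‖ = ρ := by simpa using h2
      obtain ⟨i, hi⟩ := hρ0' ζ h1
      have h3 := hU3 i (hi (show ζ + u ∈ ball ζ ρ0 by
        rw [mem_ball, dist_eq_norm, add_sub_cancel_left, hu]; linarith)) (hi (mem_ball_self hρ0))
        (sub_eq_zero.1 h0)
      have h4 : u = 0 := by simpa using h3
      rw [h4, norm_zero] at hu
      linarith)
  refine ⟨s2, ρ, m2, hs20, hρp, hm2, hs2b, hρs, ?_, ?_, ?_⟩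
  · intro j hj z hz hz2
    by_contra hcon
    push Not at hcon
    have := hm3' j hj z hz hcon
    linarith
  · intro j hj z hz
    have := hm1' j hj z hz
    linarith
  · intro ζ hζ hζ2 z hz
    have h1 : (ζ, z - ζ) ∈ T ×ˢ sphere (0:ℂ) ρ := by
      refine ⟨?_, by simpa using hz⟩
      rw [hTeq]
      exact ⟨hζ, hζ2⟩
    have := hm2' _ h1
    simpa using this

/-- The last part of the lifting, near the vertex. -/
theorem pert_stage2 {F : ℂ → ℂ} {s s2 R δ : ℝ} {v W v' wj w : ℂ} {k Ψ σ : ℂ → ℂ} {r t1 : ℝ}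
    (hs : 0 < s) (hvR : ∀ z, ‖z - v‖ ≤ s / 2 → z ∈ ball (0:ℂ) R)
    (hkb : ∀ z ∈ ball (0:ℂ) R, ‖k z‖ ≤ δ)
    (hlow : ∀ z : ℂ, ‖z - v‖ = s / 2 → 4 * s2 ≤ ‖F z - W‖)
    (hwj : wj = F v' + k v') (hd : deriv (fun x => F x + k x) v' = 0)
    (huniq : ∀ z ∈ ball v s, F z + k z = F v' + k v' → z = v')
    (hΨ : ContinuousOn Ψ (ball 0 R))
    (ho : ∀ O : Set ℂ, O ⊆ ball (0:ℂ) R → IsOpen O → IsOpen (Ψ '' O))
    (hσ : ContinuousOn σ (ball w r))
    (hinv : ∀ w' ∈ ball w r, ∀ z ∈ ball (0:ℂ) R, Ψ z = σ w' →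
      F z + k z = w' ∧ deriv (fun x => F x + k x) z ≠ 0)
    (hr : ‖w - wj‖ < r) (ht0 : 0 ≤ t1) (ht1 : t1 ≤ 1)
    (hp : ∀ t ∈ Icc t1 1, ‖w + t * (wj - w) - W‖ + δ < 4 * s2)
    (hz : ∃ z, ‖z - v‖ ≤ s / 2 ∧ Ψ z = σ (w + t1 * (wj - w))) : False := by
  have hmem : ∀ t ∈ Icc t1 1, w + (t:ℂ) * (wj - w) ∈ ball w r := by
    intro t ht
    have h0 : 0 ≤ t := ht0.trans ht.1
    rw [mem_ball, dist_eq_norm, add_sub_cancel_left, norm_mul, Complex.norm_real,
      Real.norm_of_nonneg h0, norm_sub_rev]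
    calc t * ‖w - wj‖ ≤ 1 * ‖w - wj‖ := mul_le_mul_of_nonneg_right ht.2 (norm_nonneg _)
      _ < r := by rw [one_mul]; exact hr
  have hpc : Continuous fun t : ℝ => w + (t:ℂ) * (wj - w) := by fun_prop
  obtain ⟨z, hz1, hz2⟩ := pert_track (γ := fun t => σ (w + t * (wj - w))) (c := fun _ => v)
    hΨ ho ht1 (hσ.comp hpc.continuousOn hmem) continuousOn_const
    (fun t _ z hz => hvR z (by rwa [mem_closedBall, dist_eq_norm] at hz))
    (by
      intro t ht z hz hcon
      obtain ⟨h1, -⟩ := hinv _ (hmem t ht) z (hvR z hz.le) hcon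
      have h2 := hlow z hz
      have h3 := hp t ht
      have h4 := hkb z (hvR z hz.le)
      have h5 : F z - W = (w + t * (wj - w) - W) - k z := by rw [← h1]; ring
      have h6 := norm_sub_le (w + t * (wj - w) - W) (k z)
      rw [← h5] at h6
      linarith) hz
  have h1mem : (1:ℝ) ∈ Icc t1 1 := ⟨ht1, le_rfl⟩
  obtain ⟨h1, h2⟩ := hinv _ (hmem 1 h1mem) z (hvR z hz1) hz2
  have h3 : w + ((1:ℝ):ℂ) * (wj - w) = F v' + k v' := by rw [← hwj]; push_cast; ring
  rw [h3] at h1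
  have h4 := huniq z (by rw [mem_ball, dist_eq_norm]; linarith) h1
  rw [h4] at h2
  exact h2 hd

theorem pert {F : ℂ → ℂ} (hF : AGF F) : ∃ R κ C : ℝ, rv < R ∧ R < 1 ∧ 0 < κ ∧ 0 < C ∧
    ∀ (k : ℂ → ℂ) (δ : ℝ), δ ≤ κ → DifferentiableOn ℂ k (ball 0 R) → (∀ z ∈ ball (0:ℂ) R, ‖k z‖ ≤ δ) →
    ∀ (Ψ σ : ℂ → ℂ) (z0 : ℂ) (r : ℝ), ContinuousOn Ψ (ball 0 R) →
    (∀ O : Set ℂ, O ⊆ ball (0:ℂ) R → IsOpen O → IsOpen (Ψ '' O)) → z0 ∈ Tri →
    ContinuousOn σ (ball (F z0 + k z0) r) → σ (F z0 + k z0) = Ψ z0 →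
    (∀ w ∈ ball (F z0 + k z0) r, ∀ z ∈ ball (0:ℂ) R, Ψ z = σ w →
      F z + k z = w ∧ deriv (fun x => F x + k x) z ≠ 0) →
    r ≤ bt + (1/3) * ∑ j ∈ Finset.range 3, (conj (om^j) * k (rv*om^j)).re + C * δ^2 := by
  have hbt := bt_pos
  obtain ⟨s, κ1, C1, hs, hκ1, hC1, hsr, hcrit⟩ := crit_pert hF
  have hvF : ∀ j : ℕ, F (rv * om^j) = bt * om^j := by
    intro j
    have h1 : (rv:ℂ) ∈ ball (0:ℂ) 1 := by
      rw [mem_ball_zero_iff, Complex.norm_real, Real.norm_of_nonneg critp_rv_pos.le]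
      exact critp_rv_lt
    rw [mul_comm, critp_rot hF j h1, hF.vert, mul_comm]
  have hWDel : ∀ j : ℕ, (bt:ℂ) * om^j ∈ Del := by
    intro j
    rw [← hvF, ← hF.img]
    exact ⟨_, rv_mem j, rfl⟩
  have hiso : ∀ j : ℕ, ∀ z ∈ ball ((rv:ℂ) * om^j) s, F z = bt * om^j → z = rv * om^j := by
    intro j z hz hFz
    obtain ⟨v', hv', h1, h2, h3⟩ := hcrit (rv * om^j) j rfl (fun _ => 0) 0 hκ1.le
      (differentiableOn_const 0) (fun _ _ => by simp)
    have h4 : F v' = bt * om^j := by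
      have h5 : ‖F v' + 0 - (bt * om^j + 0)‖ ≤ 0 := by simpa using h2
      have h6 := norm_le_zero_iff.1 h5
      simpa [sub_eq_zero] using h6
    have h5 := h3 z hz (by simp [hFz, h4])
    have h6 := h3 (rv * om^j) (mem_ball_self hs) (by simp [hvF, h4])
    rw [h5, h6]
  obtain ⟨s2, ρ, m2, hs2, hρ, hm2, hs2b, hρs, hA, hB, hC⟩ := pert_consts hF hs hsr hiso
  set R : ℝ := (1 + rv + 2 * s) / 2 with hR
  have hR1 : rv + 2 * s < R := by rw [hR]; linarith
  have hR2 : R < 1 := by rw [hR]; linarith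
  have hrv := critp_rv_pos
  refine ⟨R, min κ1 (min (1 / C1) (min (m2 / 4) (min (s2 / 4) (bt / 16)))),
    (25 + 2 * bt * C1) / bt, by linarith, hR2, ?_, by positivity, ?_⟩
  · refine lt_min hκ1 (lt_min (by positivity) (lt_min (by positivity) (lt_min (by positivity)
      (by positivity))))
  intro k δ hδ hk hkb Ψ σ z0 r hΨ ho hz0 hσ hσ0 hinv
  have hδ1 : δ ≤ κ1 := hδ.trans (min_le_left _ _)
  have hδa := hδ.trans (min_le_right _ _)
  have hδ2 : δ ≤ 1 / C1 := hδa.trans (min_le_left _ _)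
  have hδb := hδa.trans (min_le_right _ _)
  have hδ3 : δ ≤ m2 / 4 := hδb.trans (min_le_left _ _)
  have hδc := hδb.trans (min_le_right _ _)
  have hδ4 : δ ≤ s2 / 4 := hδc.trans (min_le_left _ _)
  have hδ5 : δ ≤ bt / 16 := hδc.trans (min_le_right _ _)
  have hR0 : 0 < R := by linarith
  have hδ0 : 0 ≤ δ := (norm_nonneg _).trans (hkb 0 (mem_ball_self hR0))
  have hCδ : C1 * δ ≤ 1 := by
    have := mul_le_mul_of_nonneg_left hδ2 hC1.le
    rwa [mul_one_div, div_self hC1.ne'] at this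
  have hz0R : z0 ∈ ball (0:ℂ) R := by
    rw [mem_ball_zero_iff]
    have := tri_rv hz0
    linarith
  -- the critical values
  have hballv : ∀ j : ℕ, ∀ z : ℂ, ‖z - rv * om^j‖ < 2 * s → z ∈ ball (0:ℂ) R := by
    intro j z hz
    rw [mem_ball_zero_iff]
    have h1 : ‖z‖ ≤ ‖z - rv * om^j‖ + ‖(rv:ℂ) * om^j‖ := by
      have := norm_add_le (z - rv * om^j) (rv * om^j)
      simpa using this
    rw [norm_mul, pert_omn, Complex.norm_real, Real.norm_of_nonneg critp_rv_pos.le] at h1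
    linarith
  have hex : ∀ j : ℕ, ∃ v' ∈ ball ((rv:ℂ) * om^j) s, deriv (fun x => F x + k x) v' = 0 ∧
      ‖F v' + k v' - (bt * om^j + k (rv * om^j))‖ ≤ C1 * δ^2 ∧
      ∀ z ∈ ball ((rv:ℂ) * om^j) s, F z + k z = F v' + k v' → z = v' := by
    intro j
    have hsub : ball ((rv:ℂ) * om^j) (2*s) ⊆ ball 0 R := fun z hz => hballv j z (by
      rwa [mem_ball, dist_eq_norm] at hz)
    exact hcrit _ j rfl k δ hδ1 (hk.mono hsub) (fun z hz => hkb z (hsub hz))
  choose v' hv' hvd hvv hvu using hex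
  have hkv : ∀ j : ℕ, ‖k (rv * om^j)‖ ≤ δ := fun j => hkb _ (hballv j _ (by simp [hs]))
  set w : ℂ := F z0 + k z0 with hw
  have hC1δ : C1 * δ^2 ≤ δ := by
    calc C1 * δ^2 = (C1 * δ) * δ := by ring
      _ ≤ 1 * δ := mul_le_mul_of_nonneg_right hCδ hδ0
      _ = δ := one_mul _
  have hwW : ∀ j : ℕ, ‖F (v' j) + k (v' j) - bt * om^j‖ ≤ 2 * δ := by
    intro j
    have h1 : F (v' j) + k (v' j) - bt * om^j =
        (F (v' j) + k (v' j) - (bt * om^j + k (rv * om^j))) + k (rv * om^j) := by ring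
    rw [h1]
    calc _ ≤ ‖F (v' j) + k (v' j) - (bt * om^j + k (rv * om^j))‖ + ‖k (rv * om^j)‖ :=
          norm_add_le _ _
      _ ≤ δ + δ := add_le_add ((hvv j).trans hC1δ) (hkv j)
      _ = 2 * δ := by ring
  have hFz0 : F z0 ∈ Del := by rw [← hF.img]; exact ⟨z0, hz0, rfl⟩
  -- comparison of the two paths
  have hpath : ∀ j : ℕ, ∀ t : ℝ, 0 ≤ t → t ≤ 1 →
      ‖(w + t * (F (v' j) + k (v' j) - w)) - (F z0 + t * (bt * om^j - F z0))‖ ≤ 2 * δ := by
    intro j t ht0 ht1
    have h1 : (w + t * (F (v' j) + k (v' j) - w)) - (F z0 + t * (bt * om^j - F z0)) =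
        ((1 - t : ℝ) : ℂ) * k z0 + (t : ℂ) * (F (v' j) + k (v' j) - bt * om^j) := by
      rw [hw]; push_cast; ring
    rw [h1]
    calc _ ≤ ‖((1 - t : ℝ) : ℂ) * k z0‖ + ‖(t : ℂ) * (F (v' j) + k (v' j) - bt * om^j)‖ :=
          norm_add_le _ _
      _ = (1 - t) * ‖k z0‖ + t * ‖F (v' j) + k (v' j) - bt * om^j‖ := by
          rw [norm_mul, norm_mul, Complex.norm_real, Complex.norm_real,
            Real.norm_of_nonneg ht0, Real.norm_of_nonneg (by linarith)]
      _ ≤ (1 - t) * (2 * δ) + t * (2 * δ) := by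
          refine add_le_add (mul_le_mul_of_nonneg_left ?_ (by linarith))
            (mul_le_mul_of_nonneg_left (hwW j) ht0)
          have := hkb z0 hz0R
          linarith
      _ = 2 * δ := by ring
  have hdist : ∀ j : ℕ, ∀ t : ℝ, t ≤ 1 → ‖F z0 + t * (bt * om^j - F z0) - bt * om^j‖ =
      (1 - t) * ‖F z0 - bt * om^j‖ := by
    intro j t ht1
    have h1 : F z0 + t * (bt * om^j - F z0) - bt * om^j =
        ((1 - t : ℝ) : ℂ) * (F z0 - bt * om^j) := by push_cast; ring
    rw [h1, norm_mul, Complex.norm_real, Real.norm_of_nonneg (by linarith)]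
  -- final stage for the vertex j
  have hfin : ∀ j < 3, ∀ t1 : ℝ, 0 ≤ t1 → t1 ≤ 1 → (1 - t1) * ‖F z0 - bt * om^j‖ ≤ 2 * s2 →
      ‖w - (F (v' j) + k (v' j))‖ < r →
      (∃ z, ‖z - rv * om^j‖ ≤ s / 2 ∧ Ψ z = σ (w + t1 * (F (v' j) + k (v' j) - w))) → False := by
    intro j hj t1 ht0 ht1 h1 h2 h3
    refine pert_stage2 (W := bt * om^j) hs (fun z hz => hballv j z (by linarith)) hkb (hB j hj) rfl
      (hvd j) (hvu j) hΨ ho hσ hinv h2 ht0 ht1 ?_ h3
    intro t ht
    have h0t : 0 ≤ t := ht0.trans ht.1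
    have h4 := hpath j t h0t ht.2
    have h5 := hdist j t ht.2
    have h6 : w + t * (F (v' j) + k (v' j) - w) - bt * om^j =
        ((w + t * (F (v' j) + k (v' j) - w)) - (F z0 + t * (bt * om^j - F z0))) +
        (F z0 + t * (bt * om^j - F z0) - bt * om^j) := by ring
    rw [h6]
    have h7 : (1 - t) * ‖F z0 - bt * om^j‖ ≤ (1 - t1) * ‖F z0 - bt * om^j‖ :=
      mul_le_mul_of_nonneg_right (by linarith [ht.1]) (norm_nonneg _)
    calc _ ≤ (2 * δ + (1 - t) * ‖F z0 - bt * om^j‖) + δ := by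
          refine add_le_add_left ((norm_add_le _ _).trans ?_) _
          rw [h5]
          exact add_le_add_left h4 _
      _ < 4 * s2 := by linarith
  have hLlow : -δ ≤ (1/3) * ∑ j ∈ Finset.range 3, (conj (om^j) * k (rv*om^j)).re := by
    have h1 : ∀ j ∈ Finset.range 3, -δ ≤ (conj (om^j) * k (rv*om^j)).re := by
      intro j _
      have := Complex.abs_re_le_norm (conj (om^j) * k (rv*om^j))
      rw [norm_mul, Complex.norm_conj, pert_omn, one_mul] at this
      have := (abs_le.1 (this.trans (hkv j))).1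
      exact this
    have h2 := Finset.sum_le_sum h1
    rw [Finset.sum_const, Finset.card_range, nsmul_eq_mul] at h2
    push_cast at h2
    linarith
  have hK0 : 0 ≤ (25 + 2 * bt * C1) / bt * δ^2 := by positivity
  rcases le_or_gt r (bt / 2) with hr2 | hr2
  · linarith
  -- every critical value is outside the disc
  have hall : ∀ j < 3, r ≤ ‖w - (F (v' j) + k (v' j))‖ := by
    by_contra hcon
    push Not at hcon
    obtain ⟨j, hj, hlt⟩ := hcon
    rcases le_or_gt (‖F z0 - bt * om^j‖) (2 * s2) with hnear | hfar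
    · refine hfin j hj 0 le_rfl zero_le_one (by linarith) hlt ⟨z0, ?_, ?_⟩
      · have := hA j hj z0 hz0 hnear
        linarith
      · simp only [Complex.ofReal_zero, zero_mul, add_zero]
        exact hσ0.symm
    · -- no vertex is near
      have hothers : ∀ l < 3, 2 * s2 ≤ ‖F z0 - bt * om^l‖ := by
        intro l hl
        by_contra hcon
        push Not at hcon
        -- the radius would be small
        have hlt' : ‖w - (F (v' l) + k (v' l))‖ < r := by
          have h1 : w - (F (v' l) + k (v' l)) =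
              (F z0 - bt * om^l) + k z0 - (F (v' l) + k (v' l) - bt * om^l) := by
            rw [hw]; ring
          rw [h1]
          calc _ ≤ ‖F z0 - bt * om^l‖ + ‖k z0‖ + ‖F (v' l) + k (v' l) - bt * om^l‖ :=
                (norm_sub_le _ _).trans (add_le_add_left (norm_add_le _ _) _)
            _ ≤ 2 * s2 + δ + 2 * δ := add_le_add (add_le_add hcon.le (hkb z0 hz0R)) (hwW l)
            _ < r := by linarith
        refine hfin l hl 0 le_rfl zero_le_one (by linarith) hlt' ⟨z0, ?_, ?_⟩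
        · have := hA l hl z0 hz0 hcon.le
          linarith
        · simp only [Complex.ofReal_zero, zero_mul, add_zero]
          exact hσ0.symm
      set D : ℝ := ‖F z0 - bt * om^j‖ with hD
      have hD0 : 0 < D := by linarith
      set t1 : ℝ := 1 - 2 * s2 / D with ht1
      have ht10 : 0 ≤ t1 := by
        rw [ht1, sub_nonneg, div_le_one hD0]; exact hfar.le
      have ht11 : t1 ≤ 1 := by
        have : 0 ≤ 2 * s2 / D := by positivity
        linarith
      have ht1D : (1 - t1) * D = 2 * s2 := by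
        rw [ht1]; field_simp; ring
      -- first stage
      have hdel : ∀ t ∈ Icc 0 t1, F z0 + t * (bt * om^j - F z0) ∈ Del := fun t ht =>
        pert_seg_del hFz0 j ht.1 (ht.2.trans ht11) (hWDel j)
      have hmem : ∀ t ∈ Icc 0 t1, w + (t:ℂ) * (F (v' j) + k (v' j) - w) ∈ ball w r := by
        intro t ht
        rw [mem_ball, dist_eq_norm, add_sub_cancel_left, norm_mul, Complex.norm_real,
          Real.norm_of_nonneg ht.1, norm_sub_rev]
        calc t * ‖w - (F (v' j) + k (v' j))‖ ≤ 1 * ‖w - (F (v' j) + k (v' j))‖ :=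
              mul_le_mul_of_nonneg_right (ht.2.trans ht11) (norm_nonneg _)
          _ < r := by rw [one_mul]; exact hlt
      have hpc : Continuous fun t : ℝ => w + (t:ℂ) * (F (v' j) + k (v' j) - w) := by fun_prop
      have hpc0 : Continuous fun t : ℝ => F z0 + (t:ℂ) * (bt * om^j - F z0) := by fun_prop
      have hcR : ∀ t ∈ Icc 0 t1, ∀ z, ‖z - pertInv F (F z0 + t * (bt * om^j - F z0))‖ ≤ ρ →
          z ∈ ball (0:ℂ) R := by
        intro t ht z hz
        have h1 := tri_rv (pert_inv_mem hF (hdel t ht)).1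
        rw [mem_ball_zero_iff]
        have h2 := norm_add_le (z - pertInv F (F z0 + t * (bt * om^j - F z0)))
          (pertInv F (F z0 + t * (bt * om^j - F z0)))
        rw [sub_add_cancel] at h2
        linarith
      obtain ⟨z1, hz1, hz1'⟩ := pert_track (γ := fun t => σ (w + t * (F (v' j) + k (v' j) - w)))
        (c := fun t => pertInv F (F z0 + t * (bt * om^j - F z0)))
        (ρ := ρ) hΨ ho ht10 (hσ.comp hpc.continuousOn hmem)
        ((pert_inv_cont hF).comp hpc0.continuousOn hdel)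
        (fun t ht z hz => hcR t ht z (by rwa [mem_closedBall, dist_eq_norm] at hz))
        (by
          intro t ht z hz hcon
          obtain ⟨h1, -⟩ := hinv _ (hmem t ht) z (hcR t ht z hz.le) hcon
          obtain ⟨h2, h3⟩ := pert_inv_mem hF (hdel t ht)
          have h4 := hC _ h2 (by
            intro l hl
            rw [h3]
            rcases eq_or_ne l j with hlj | hlj
            · rw [hlj, hdist j t (ht.2.trans ht11)]
              have h5 : (1 - t1) * D ≤ (1 - t) * D :=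
                mul_le_mul_of_nonneg_right (by linarith [ht.2]) hD0.le
              rw [ht1D] at h5
              linarith
            · exact pert_seg hFz0 hl hj hlj (hothers l hl) (by linarith) ht.1 (ht.2.trans ht11)) z hz
          rw [h3] at h4
          have h5 : F z - (F z0 + t * (bt * om^j - F z0)) =
              ((w + t * (F (v' j) + k (v' j) - w)) - (F z0 + t * (bt * om^j - F z0))) - k z := by
            rw [← h1]; ring
          rw [h5] at h4
          have h6 := norm_sub_le ((w + t * (F (v' j) + k (v' j) - w)) -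
            (F z0 + t * (bt * om^j - F z0))) (k z)
          have h7 := hpath j t ht.1 (ht.2.trans ht11)
          have h8 := hkb z (hcR t ht z hz.le)
          linarith)
        ⟨z0, by simp [pert_inv_F hF hz0, hρ.le], by
          simp only [Complex.ofReal_zero, zero_mul, add_zero]; exact hσ0.symm⟩
      refine hfin j hj t1 ht10 ht11 ht1D.le hlt ⟨z1, ?_, hz1'⟩
      have ht1m : t1 ∈ Icc 0 t1 := ⟨ht10, le_rfl⟩
      obtain ⟨h2, h3⟩ := pert_inv_mem hF (hdel t1 ht1m)
      have h4 := hA j hj _ h2 (by rw [h3, hdist j t1 ht11]; exact ht1D.le)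
      have h5 := norm_add_le (z1 - pertInv F (F z0 + t1 * (bt * om^j - F z0)))
        (pertInv F (F z0 + t1 * (bt * om^j - F z0)) - rv * om^j)
      rw [sub_add_sub_cancel] at h5
      linarith
  exact pert_alg (κ := fun j => k (rv * om^j)) (w := fun j => F (v' j) + k (v' j)) hFz0 hbt
    (by linarith) hδ0 hC1.le hCδ (by linarith) (hkb z0 hz0R) (fun j _ => hkv j)
    (fun j _ => hvv j) hall

end AG
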