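import Pool.Agent.Bloch.Critp

/-!
Schlicht radius of a perturbed face, part 1: path lifting, and the algebra of the circumradius.
-/

set_option autoImplicit false

noncomputable section

namespace AG

open Complex Metric Set
open scoped ComplexConjugate Topology

/-- Path lifting near a moving centre. -/
theorem pert_track {Ψ : ℂ → ℂ} {R : ℝ} (hc : ContinuousOn Ψ (ball 0 R))
    (ho : ∀ O : Set ℂ, O ⊆ ball (0:ℂ) R → IsOpen O → IsOpen (Ψ '' O))
    {a b ρ : ℝ} (hab : a ≤ b) {γ c : ℝ → ℂ} (hγ : ContinuousOn γ (Icc a b))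
    (hcc : ContinuousOn c (Icc a b))
    (hsub : ∀ t ∈ Icc a b, closedBall (c t) ρ ⊆ ball 0 R)
    (hnb : ∀ t ∈ Icc a b, ∀ z, ‖z - c t‖ = ρ → Ψ z ≠ γ t)
    (h0 : ∃ z, ‖z - c a‖ ≤ ρ ∧ Ψ z = γ a) : ∃ z, ‖z - c b‖ ≤ ρ ∧ Ψ z = γ b := by
  set s : Set ℝ := {t | ∃ z, ‖z - c t‖ ≤ ρ ∧ Ψ z = γ t} with hs
  have hclosed : IsClosed (s ∩ Icc a b) := by
    set P : Set (ℝ × ℂ) := Icc a b ×ˢ closedBall (0:ℂ) ρ with hP
    have hPc : IsCompact P := isCompact_Icc.prod (isCompact_closedBall _ _)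
    have hmaps : ∀ x ∈ P, c x.1 + x.2 ∈ ball (0:ℂ) R := by
      intro x hx
      refine hsub x.1 hx.1 ?_
      rw [mem_closedBall, dist_eq_norm, add_sub_cancel_left]
      simpa using hx.2
    have h1 : ContinuousOn (fun x : ℝ × ℂ => c x.1 + x.2) P :=
      (hcc.comp continuousOn_fst (fun x hx => hx.1)).add continuousOn_snd
    have h2 : ContinuousOn (fun x : ℝ × ℂ => Ψ (c x.1 + x.2) - γ x.1) P :=
      (hc.comp h1 hmaps).sub (hγ.comp continuousOn_fst (fun x hx => hx.1))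
    have h3 : IsClosed (P ∩ (fun x : ℝ × ℂ => Ψ (c x.1 + x.2) - γ x.1) ⁻¹' {0}) :=
      h2.preimage_isClosed_of_isClosed hPc.isClosed isClosed_singleton
    have h4 : IsCompact (P ∩ (fun x : ℝ × ℂ => Ψ (c x.1 + x.2) - γ x.1) ⁻¹' {0}) :=
      hPc.of_isClosed_subset h3 inter_subset_left
    have h5 : s ∩ Icc a b = Prod.fst '' (P ∩ (fun x : ℝ × ℂ => Ψ (c x.1 + x.2) - γ x.1) ⁻¹' {0}) := by
      ext t
      constructor
      · rintro ⟨⟨z, hz, hz2⟩, ht⟩
        refine ⟨(t, z - c t), ⟨⟨ht, by simpa using hz⟩, ?_⟩, rfl⟩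
        simp [hz2]
      · rintro ⟨⟨t', u⟩, ⟨⟨ht, hu⟩, h6⟩, rfl⟩
        refine ⟨⟨c t' + u, by simpa using hu, ?_⟩, ht⟩
        simpa [sub_eq_zero] using h6
    rw [h5]
    exact (h4.image continuous_fst).isClosed
  have hmain : Icc a b ⊆ s := by
    refine hclosed.Icc_subset_of_forall_exists_gt h0 ?_
    rintro t ⟨⟨z, hz, hz2⟩, ht⟩ y hy
    have htI : t ∈ Icc a b := Ico_subset_Icc_self ht
    have hlt : ‖z - c t‖ < ρ := lt_of_le_of_ne hz (fun h => hnb t htI z h hz2)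
    have hzR : z ∈ ball (0:ℂ) R := hsub t htI (by rwa [mem_closedBall, dist_eq_norm])
    obtain ⟨η1, hη1, hη1'⟩ := Metric.isOpen_iff.1 isOpen_ball z hzR
    set η : ℝ := min η1 ((ρ - ‖z - c t‖)/2) with hη
    have hη0 : 0 < η := lt_min hη1 (by linarith)
    have hO : ball z η ⊆ ball (0:ℂ) R := (ball_subset_ball (min_le_left _ _)).trans hη1'
    have hopen := ho (ball z η) hO isOpen_ball
    have hmem : γ t ∈ Ψ '' ball z η := ⟨z, mem_ball_self hη0, hz2⟩
    have e1 : ∀ᶠ t' in 𝓝[Icc a b] t, γ t' ∈ Ψ '' ball z η :=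
      (hγ t htI) (hopen.mem_nhds hmem)
    have e2 : ∀ᶠ t' in 𝓝[Icc a b] t, c t' ∈ ball (c t) ((ρ - ‖z - c t‖)/2) :=
      (hcc t htI) (ball_mem_nhds _ (by linarith))
    have e3 : ∀ᶠ t' in 𝓝[>] t, t' ∈ Ioc t y := Ioc_mem_nhdsGT hy
    have hle : 𝓝[>] t ≤ 𝓝[Icc a b] t := by
      rw [← nhdsWithin_Ioc_eq_nhdsGT ht.2]
      exact nhdsWithin_mono _ (fun x hx => ⟨ht.1.trans hx.1.le, hx.2⟩)
    obtain ⟨t', ht1, ht2, ht3⟩ := ((e1.filter_mono hle).and ((e2.filter_mono hle).and e3)).exists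
    obtain ⟨z', hz', hz'2⟩ := ht1
    refine ⟨t', ⟨z', ?_, hz'2⟩, ht3⟩
    rw [mem_ball, dist_eq_norm] at hz' ht2
    have h6 : z' - c t' = (z' - z) + (z - c t) - (c t' - c t) := by ring
    rw [h6]
    have h7 : η ≤ (ρ - ‖z - c t‖)/2 := min_le_right _ _
    calc ‖(z' - z) + (z - c t) - (c t' - c t)‖ ≤ ‖z' - z‖ + ‖z - c t‖ + ‖c t' - c t‖ :=
          (norm_sub_le _ _).trans (add_le_add_left (norm_add_le _ _) _)
      _ ≤ ρ := by linarith
  exact hmain (right_mem_Icc.2 hab)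

/-- Sum over the three indices in coordinates. -/
theorem pert_om2 : om^2 = ⟨-1/2, -(Real.sqrt 3 / 2)⟩ := by
  have h3 : Real.sqrt 3 * Real.sqrt 3 = 3 := Real.mul_self_sqrt (by norm_num)
  unfold om
  apply Complex.ext
  · simp [pow_two]
    nlinarith
  · simp [pow_two]
    ring

theorem pert_re (j : ℕ) (z : ℂ) : (conj (om^j) * z).re = (z * conj (om^j)).re := by
  rw [mul_comm]

/-- The weighted sum of the squared distances. -/
theorem pert_alg1 {p κ0 : ℂ} {κ w : ℕ → ℂ} {δ C1 r : ℝ} (hbt : 0 < bt) (hr0 : 0 ≤ r)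
    (hδ0 : 0 ≤ δ) (hC1 : 0 ≤ C1) (hCδ : C1 * δ ≤ 1) (hκ0 : ‖κ0‖ ≤ δ) {j : ℕ}
    (hκ : ‖κ j‖ ≤ δ) (hw : ‖w j - (bt * om^j + κ j)‖ ≤ C1 * δ^2)
    (hr : r ≤ ‖p + κ0 - w j‖) :
    r^2 ≤ (‖p‖^2 - 2 * bt * (conj (om^j) * p).re + bt^2) +
      2 * ((conj p * κ0).re - (conj p * κ j).re - bt * (conj (om^j) * κ0).re +
        bt * (conj (om^j) * κ j).re) + (2 * (‖p‖ + bt) * (C1 * δ^2) + 9 * δ^2) := by
  have homn : ‖om^j‖ = 1 := by rw [norm_pow, critp_om_norm, one_pow]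
  set e : ℂ := w j - (bt * om^j + κ j) with he
  set P : ℂ := p - bt * om^j with hP
  have hPn : ‖P‖ ≤ ‖p‖ + bt := by
    calc ‖P‖ ≤ ‖p‖ + ‖(bt:ℂ) * om^j‖ := norm_sub_le _ _
      _ = ‖p‖ + bt := by
        rw [norm_mul, homn, mul_one, Complex.norm_real, Real.norm_of_nonneg hbt.le]
  have hD : p + κ0 - w j = P + (κ0 - κ j - e) := by
    simp only [he, hP]; ring
  have hen : ‖κ0 - κ j - e‖ ≤ 3 * δ := by
    calc ‖κ0 - κ j - e‖ ≤ ‖κ0‖ + ‖κ j‖ + ‖e‖ :=
          (norm_sub_le _ _).trans (add_le_add_left (norm_sub_le _ _) _)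
      _ ≤ δ + δ + δ := by
        refine add_le_add (add_le_add hκ0 hκ) (hw.trans ?_)
        calc C1 * δ^2 = (C1 * δ) * δ := by ring
          _ ≤ 1 * δ := mul_le_mul_of_nonneg_right hCδ hδ0
          _ = δ := one_mul _
      _ = 3 * δ := by ring
  have h1 : r^2 ≤ ‖P + (κ0 - κ j - e)‖^2 := by
    rw [← hD]; exact pow_le_pow_left₀ hr0 hr 2
  have h2 : ‖P + (κ0 - κ j - e)‖^2 = ‖P‖^2 + 2 * (conj P * (κ0 - κ j - e)).re +
      ‖κ0 - κ j - e‖^2 := by
    simp only [← Complex.normSq_eq_norm_sq, Complex.normSq_apply, Complex.add_re, Complex.add_im,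
      Complex.mul_re, Complex.conj_re, Complex.conj_im]
    ring
  have h3 : (conj P * (κ0 - κ j - e)).re = ((conj p * κ0).re - (conj p * κ j).re -
      bt * (conj (om^j) * κ0).re + bt * (conj (om^j) * κ j).re) - (conj P * e).re := by
    simp only [hP, map_sub, map_mul, Complex.conj_ofReal, Complex.sub_re, Complex.sub_im,
      Complex.mul_re, Complex.mul_im, Complex.ofReal_re, Complex.ofReal_im]
    ring
  have h4 : -(conj P * e).re ≤ (‖p‖ + bt) * (C1 * δ^2) := by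
    have h5 := Complex.abs_re_le_norm (conj P * e)
    rw [norm_mul, Complex.norm_conj] at h5
    have h6 : ‖P‖ * ‖e‖ ≤ (‖p‖ + bt) * (C1 * δ^2) := by
      gcongr
    have := (abs_le.1 (h5.trans h6)).1
    linarith
  have h5 : ‖P‖^2 = ‖p‖^2 - 2 * bt * (conj (om^j) * p).re + bt^2 := by
    have h6 : Complex.normSq (om^j) = 1 := by
      rw [Complex.normSq_eq_norm_sq, homn, one_pow]
    rw [Complex.normSq_apply] at h6
    simp only [hP, ← Complex.normSq_eq_norm_sq, Complex.normSq_apply, Complex.sub_re,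
      Complex.sub_im, Complex.mul_re, Complex.mul_im, Complex.ofReal_re, Complex.ofReal_im,
      Complex.conj_re, Complex.conj_im]
    linear_combination bt^2 * h6
  have h6 : ‖κ0 - κ j - e‖^2 ≤ 9 * δ^2 := by
    have := pow_le_pow_left₀ (norm_nonneg _) hen 2
    linarith
  rw [h2, h3, h5] at h1
  linarith

/-- The algebra of the circumradius. -/
theorem pert_alg {p κ0 : ℂ} {κ w : ℕ → ℂ} {δ C1 r : ℝ} (hp : p ∈ Del) (hbt : 0 < bt) (hr0 : 0 ≤ r)
    (hδ0 : 0 ≤ δ) (hC1 : 0 ≤ C1) (hCδ : C1 * δ ≤ 1) (hδb : δ ≤ bt / 2) (hκ0 : ‖κ0‖ ≤ δ)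
    (hκ : ∀ j < 3, ‖κ j‖ ≤ δ) (hw : ∀ j < 3, ‖w j - (bt * om^j + κ j)‖ ≤ C1 * δ^2)
    (hr : ∀ j < 3, r ≤ ‖p + κ0 - w j‖) :
    r ≤ bt + (1/3) * ∑ j ∈ Finset.range 3, (conj (om^j) * κ j).re
      + (25 + 2 * bt * C1) / bt * δ^2 := by
  set h : ℝ := Real.sqrt 3 / 2 with hh
  have h34 : h * h = 3/4 := by
    have h3 : Real.sqrt 3 * Real.sqrt 3 = 3 := Real.mul_self_sqrt (by norm_num)
    rw [hh]; nlinarith
  have om0 : conj (om^0) = ⟨1, 0⟩ := by
    apply Complex.ext <;> simp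
  have om1 : conj (om^1) = ⟨-1/2, -h⟩ := by
    rw [pow_one]
    apply Complex.ext <;> simp [om, hh]
  have om2 : conj (om^2) = ⟨-1/2, h⟩ := by
    rw [pert_om2]
    apply Complex.ext <;> simp [hh]
  have e0 := pert_alg1 hbt hr0 hδ0 hC1 hCδ hκ0 (hκ 0 (by norm_num)) (hw 0 (by norm_num))
    (hr 0 (by norm_num))
  have e1 := pert_alg1 hbt hr0 hδ0 hC1 hCδ hκ0 (hκ 1 (by norm_num)) (hw 1 (by norm_num))
    (hr 1 (by norm_num))
  have e2 := pert_alg1 hbt hr0 hδ0 hC1 hCδ hκ0 (hκ 2 (by norm_num)) (hw 2 (by norm_num))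
    (hr 2 (by norm_num))
  have p0 := hp 0
  have p1 := hp 2
  have p2 := hp 1
  have hn : ∀ j : ℕ, ∀ z : ℂ, |(conj (om^j) * z).re| ≤ ‖z‖ := by
    intro j z
    have := Complex.abs_re_le_norm (conj (om^j) * z)
    rwa [norm_mul, Complex.norm_conj, norm_pow, critp_om_norm, one_pow, one_mul] at this
  have hs : ∀ j < 3, |(conj p * κ j).re| ≤ ‖p‖ * δ := by
    intro j hj
    have := Complex.abs_re_le_norm (conj p * κ j)
    rw [norm_mul, Complex.norm_conj] at this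
    exact this.trans (mul_le_mul_of_nonneg_left (hκ j hj) (norm_nonneg _))
  have hq : ∀ j < 3, |(conj (om^j) * κ j).re| ≤ δ := fun j hj => (hn j _).trans (hκ j hj)
  have s0' := abs_le.1 (hs 0 (by norm_num))
  have s1' := abs_le.1 (hs 1 (by norm_num))
  have s2' := abs_le.1 (hs 2 (by norm_num))
  have q0' := abs_le.1 (hq 0 (by norm_num))
  have q1' := abs_le.1 (hq 1 (by norm_num))
  have q2' := abs_le.1 (hq 2 (by norm_num))
  have g0' := abs_le.1 (hn 0 p)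
  have g1' := abs_le.1 (hn 1 p)
  have g2' := abs_le.1 (hn 2 p)
  rw [Finset.sum_range_succ, Finset.sum_range_succ, Finset.sum_range_succ, Finset.sum_range_zero,
    zero_add]
  have hP2 : ‖p‖^2 = p.re * p.re + p.im * p.im := by
    rw [← Complex.normSq_eq_norm_sq, Complex.normSq_apply]
  -- the linear relations
  have r1 : (conj (om^0) * p).re + (conj (om^1) * p).re + (conj (om^2) * p).re = 0 := by
    rw [om0, om1, om2]; simp only [Complex.mul_re]; ring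
  have r2 : (conj (om^0) * p).re^2 + (conj (om^1) * p).re^2 + (conj (om^2) * p).re^2
      = 3/2 * ‖p‖^2 := by
    rw [om0, om1, om2, hP2]; simp only [Complex.mul_re]
    linear_combination (2 * p.im^2) * h34
  have r3 : (conj (om^0) * κ0).re + (conj (om^1) * κ0).re + (conj (om^2) * κ0).re = 0 := by
    rw [om0, om1, om2]; simp only [Complex.mul_re]; ring
  have r4 : (conj (om^0) * p).re * (conj (om^0) * κ0).re +
      (conj (om^1) * p).re * (conj (om^1) * κ0).re +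
      (conj (om^2) * p).re * (conj (om^2) * κ0).re = 3/2 * (conj p * κ0).re := by
    rw [om0, om1, om2]; simp only [Complex.mul_re, Complex.conj_re, Complex.conj_im]
    linear_combination (2 * p.im * κ0.im) * h34
  have r5 : (p * om^0).re = (conj (om^0) * p).re := by
    rw [om0]; simp
  have r6 : (p * om^2).re = (conj (om^1) * p).re := by
    rw [om1, pert_om2, ← hh]; simp only [Complex.mul_re]; ring
  have r7 : (p * om^1).re = (conj (om^2) * p).re := by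
    rw [om2, pow_one]; unfold om; rw [← hh]; simp only [Complex.mul_re]; ring
  rw [r5] at p0
  rw [r6] at p1
  rw [r7] at p2
  generalize (conj (om^0) * p).re = g0 at *
  generalize (conj (om^1) * p).re = g1 at *
  generalize (conj (om^2) * p).re = g2 at *
  generalize (conj (om^0) * κ0).re = f0 at *
  generalize (conj (om^1) * κ0).re = f1 at *
  generalize (conj (om^2) * κ0).re = f2 at *
  generalize (conj (om^0) * κ 0).re = q0 at *
  generalize (conj (om^1) * κ 1).re = q1 at *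
  generalize (conj (om^2) * κ 2).re = q2 at *
  generalize (conj p * κ 0).re = s0 at *
  generalize (conj p * κ 1).re = s1 at *
  generalize (conj p * κ 2).re = s2 at *
  generalize (conj p * κ0).re = t at *
  have hN : 0 ≤ ‖p‖ := norm_nonneg p
  generalize ‖p‖ = N at *
  have U0 : 0 ≤ bt + 2 * g0 := by linarith
  have U1 : 0 ≤ bt + 2 * g1 := by linarith
  have U2 : 0 ≤ bt + 2 * g2 := by linarith
  have m0 := mul_le_mul_of_nonneg_left e0 U0
  have m1 := mul_le_mul_of_nonneg_left e1 U1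
  have m2 := mul_le_mul_of_nonneg_left e2 U2
  have t0 : (bt + 2 * g0) * (-s0) ≤ (bt + 2 * g0) * (N * δ) :=
    mul_le_mul_of_nonneg_left (by linarith) U0
  have t1 : (bt + 2 * g1) * (-s1) ≤ (bt + 2 * g1) * (N * δ) :=
    mul_le_mul_of_nonneg_left (by linarith) U1
  have t2 : (bt + 2 * g2) * (-s2) ≤ (bt + 2 * g2) * (N * δ) :=
    mul_le_mul_of_nonneg_left (by linarith) U2
  have hab : ∀ {a b A B : ℝ}, -A ≤ a ∧ a ≤ A → -B ≤ b ∧ b ≤ B → a * b ≤ A * B := by
    intro a b A B ha hb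
    have h1 : |a| ≤ A := abs_le.2 ha
    have h2 : |b| ≤ B := abs_le.2 hb
    calc a * b ≤ |a * b| := le_abs_self _
      _ = |a| * |b| := abs_mul _ _
      _ ≤ A * B := mul_le_mul h1 h2 (abs_nonneg _) ((abs_nonneg _).trans h1)
  have v0 := hab g0' q0'
  have v1 := hab g1' q1'
  have v2 := hab g2' q2'
  set E : ℝ := 2 * (N + bt) * (C1 * δ^2) + 9 * δ^2 with hE
  -- the weighted sum
  have key : 3 * bt * r^2 ≤ 3 * bt * (bt^2 - N^2 + E + 6 * N * δ + 2 * bt * ((q0 + q1 + q2)/3)) := by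
    have hsum := add_le_add (add_le_add m0 m1) m2
    have hL : (bt + 2 * g0) * r^2 + (bt + 2 * g1) * r^2 + (bt + 2 * g2) * r^2 = 3 * bt * r^2 := by
      linear_combination (2 * r^2) * r1
    rw [hL] at hsum
    refine hsum.trans ?_
    have hR : (bt + 2 * g0) * (N^2 - 2 * bt * g0 + bt^2 + 2 * (t - s0 - bt * f0 + bt * q0) + E) +
        (bt + 2 * g1) * (N^2 - 2 * bt * g1 + bt^2 + 2 * (t - s1 - bt * f1 + bt * q1) + E) +
        (bt + 2 * g2) * (N^2 - 2 * bt * g2 + bt^2 + 2 * (t - s2 - bt * f2 + bt * q2) + E) =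
        3 * bt * (bt^2 - N^2 + E) + 2 * ((bt + 2 * g0) * (-s0) + (bt + 2 * g1) * (-s1) +
          (bt + 2 * g2) * (-s2)) + 2 * bt^2 * (q0 + q1 + q2) +
          4 * bt * (g0 * q0 + g1 * q1 + g2 * q2) := by
      linear_combination (2 * N^2 + 2 * bt^2 + 4 * t + 2 * E - 2 * bt^2) * r1 - 4 * bt * r2
        - (2 * bt^2) * r3 - 4 * bt * r4
    rw [hR]
    have hT : (bt + 2 * g0) * (N * δ) + (bt + 2 * g1) * (N * δ) + (bt + 2 * g2) * (N * δ)
        = 3 * bt * (N * δ) := by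
      linear_combination (2 * (N * δ)) * r1
    have hb4 : 4 * bt * (g0 * q0 + g1 * q1 + g2 * q2) ≤ 4 * bt * (N * δ + N * δ + N * δ) :=
      mul_le_mul_of_nonneg_left (by linarith) (by linarith)
    linarith
  have key2 : r^2 ≤ bt^2 - N^2 + E + 6 * N * δ + 2 * bt * ((q0 + q1 + q2)/3) :=
    le_of_mul_le_mul_left key (by linarith)
  have hE2 : E ≤ 2 * N * δ + (2 * bt * C1 + 9) * δ^2 := by
    have h1 : N * (C1 * δ^2) ≤ N * δ := by
      refine mul_le_mul_of_nonneg_left ?_ hN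
      calc C1 * δ^2 = (C1 * δ) * δ := by ring
        _ ≤ 1 * δ := mul_le_mul_of_nonneg_right hCδ hδ0
        _ = δ := one_mul _
    rw [hE]
    linarith
  have key3 : r^2 ≤ bt^2 + 2 * bt * ((q0 + q1 + q2)/3) + (25 + 2 * bt * C1) * δ^2 := by
    linarith [sq_nonneg (N - 4 * δ)]
  set L : ℝ := (q0 + q1 + q2)/3 with hL
  have hLδ : -(bt/2) ≤ L := by rw [hL]; linarith
  set K : ℝ := (25 + 2 * bt * C1) / bt with hK
  have hbK : bt * K = 25 + 2 * bt * C1 := by rw [hK]; field_simp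
  have hK0 : 0 ≤ K := by rw [hK]; positivity
  have hgoal : bt + 1/3 * (q0 + q1 + q2) + K * δ^2 = bt + L + K * δ^2 := by rw [hL]; ring
  rw [hgoal]
  have hM : 0 ≤ bt + L + K * δ^2 := by
    have : 0 ≤ K * δ^2 := by positivity
    linarith
  have hKδ : 0 ≤ K * δ^2 := by positivity
  refine abs_le_of_sq_le_sq' ?_ hM |>.2
  have h1 : (bt + L + K * δ^2)^2 = (bt + L)^2 + 2 * (bt + L) * (K * δ^2) + (K * δ^2)^2 := by ring
  rw [h1]
  rw [← hbK] at key3
  have h2 : 0 ≤ (bt + 2 * L) * (K * δ^2) := mul_nonneg (by linarith) hKδ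
  linarith [sq_nonneg L, sq_nonneg (K * δ^2)]

end AG
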