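import Pool.Agent.Bloch.Trunc
import Pool.Agent.Bloch.Vtx
import Pool.Agent.Bloch.Gp

set_option autoImplicit false

noncomputable section

namespace AG

open Complex Metric Set
open scoped ComplexConjugate

/-- change of base point in the linear functional -/
theorem pull_LL {c : ℂ → ℂ} {g t : ℂ → ℂ} {A B ζ l : ℂ} (h : Gpo g t A B ζ l)
    (hL : ∀ g t : ℂ → ℂ, Gp g t → LL t g c = 0) (g' t' : ℂ → ℂ) (h' : Gp g' t') :
    LL t' g' (fun z => conj ζ * c (g z)) = 0 := by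
  have h1 := hL _ _ (h.1.comp h')
  rw [← h1]
  unfold LL
  congr 1
  refine Finset.sum_congr rfl fun k _ => ?_
  congr 1
  simp only [h.2.2.2.2]
  have : ζ * t' (om ^ k) + l - (ζ * t' 0 + l) = ζ * (t' (om ^ k) - t' 0) := by ring
  rw [this, map_mul]
  ring

/-- the bijection of the vertices given by a motion -/
theorem pull_equiv {F : ℂ → ℂ} (hF : AGF F) {g t : ℂ → ℂ} (h : Gp g t) :
    ∃ e : Vert ≃ Vert, ∀ v : Vert, ((e v : Vert) : ℂ) = g v := by
  obtain ⟨g', t', h', hi, -⟩ := h.inv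
  refine ⟨⟨fun v => ⟨g v, vert_comp h v.2⟩, fun v => ⟨g' v, vert_comp h' v.2⟩, ?_, ?_⟩, ?_⟩
  · intro v
    exact Subtype.ext (hi v (vert_crit hF v.2).1).1
  · intro v
    exact Subtype.ext (hi v (vert_crit hF v.2).1).2
  · intro v
    rfl

theorem pull_alg {A B ζ v f : ℂ} (hn : ‖A‖^2 - ‖B‖^2 = 1) (hζ : ‖ζ‖ = 1) (hv : v ≠ 0)
    (hf : f ≠ 0) (hd : conj B * v + conj A ≠ 0) (y : ℂ) :
    conj ζ * y * (v^2 * f)⁻¹ = ((‖A‖^4 : ℝ) : ℂ)⁻¹ *
      (y * (((A * v + B) / (conj B * v + conj A) - B / conj A)^2 *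
        (1 - conj (B / conj A) * ((A * v + B) / (conj B * v + conj A)))^2 *
        (ζ * f * (conj B * v + conj A)^4))⁻¹) := by
  have hA : A * conj A = ((‖A‖ ^ 2 : ℝ) : ℂ) := by
    rw [mul_conj, normSq_eq_norm_sq]
  have hB : B * conj B = ((‖B‖ ^ 2 : ℝ) : ℂ) := by
    rw [mul_conj, normSq_eq_norm_sq]
  have hAB : A * conj A - B * conj B = 1 := by
    rw [hA, hB, ← ofReal_sub, hn, ofReal_one]
  have hA0 : A ≠ 0 := by
    intro h0
    rw [h0, norm_zero] at hn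
    nlinarith [sq_nonneg ‖B‖]
  have hcA : conj A ≠ 0 := by simpa using hA0
  have hζζ : conj ζ * ζ = 1 := by
    rw [mul_comm, mul_conj, normSq_eq_norm_sq, hζ]; simp
  have hζ0 : ζ ≠ 0 := by
    intro h0; rw [h0, norm_zero] at hζ; exact zero_ne_one hζ
  have e1 : (A * v + B) / (conj B * v + conj A) - B / conj A =
      v / ((conj B * v + conj A) * conj A) := by
    rw [div_sub_div _ _ hd hcA, div_eq_div_iff (mul_ne_zero hd hcA) (mul_ne_zero hd hcA)]
    linear_combination ((conj B * v + conj A) * conj A * v) * hAB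
  have e2 : 1 - conj (B / conj A) * ((A * v + B) / (conj B * v + conj A)) =
      1 / (A * (conj B * v + conj A)) := by
    rw [map_div₀, conj_conj, div_mul_div_comm, eq_div_iff (mul_ne_zero hA0 hd), sub_mul,
      div_mul_cancel₀ _ (mul_ne_zero hA0 hd)]
    linear_combination hAB
  have hA4 : ((‖A‖^4 : ℝ) : ℂ) = (A * conj A)^2 := by
    rw [hA]; push_cast; ring
  have hcζ : conj ζ = ζ⁻¹ := eq_inv_of_mul_eq_one_left hζζ
  rw [e1, e2, hA4, hcζ]
  generalize conj B * v + conj A = D at hd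
  generalize conj A = A' at hcA
  field_simp

theorem pull_null (hH : HypH) {F : ℂ → ℂ} (hF : AGF F) (c : ℂ → ℂ) (hb : ∀ z, ‖c z‖ ≤ 1)
    (hL : ∀ g t : ℂ → ℂ, Gp g t → LL t g c = 0) {g t : ℂ → ℂ} {A B ζ l : ℂ} (h : Gpo g t A B ζ l) :
    (∑' u : Vert, c u * (((u:ℂ) - g 0)^2 * (1 - conj (g 0) * u)^2 * deriv (deriv F) u)⁻¹).re = 0 := by
  have h1 := trunc_null hH hF (fun z => conj ζ * c (g z)) (fun z => by
    rw [norm_mul, norm_conj, h.2.2.1, one_mul]; exact hb _) (pull_LL h hL)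
  obtain ⟨e, he⟩ := pull_equiv hF h.1
  have hA0 : A ≠ 0 := by
    intro h0
    have := h.2.1
    rw [h0, norm_zero] at this
    nlinarith [sq_nonneg ‖B‖]
  have h2 : (∑' v : Vert, conj ζ * c (g v) * ((v:ℂ)^2 * deriv (deriv F) v)⁻¹) =
      ((‖A‖^4 : ℝ) : ℂ)⁻¹ *
      ∑' u : Vert, c u * (((u:ℂ) - g 0)^2 * (1 - conj (g 0) * u)^2 * deriv (deriv F) u)⁻¹ := by
    rw [← e.tsum_eq (fun u : Vert => c u * (((u:ℂ) - g 0)^2 * (1 - conj (g 0) * u)^2 *
      deriv (deriv F) u)⁻¹), ← tsum_mul_left]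
    refine tsum_congr fun v => ?_
    have hvc := vert_crit hF v.2
    have h0 : g 0 = B / conj A := by
      rw [h.2.2.2.1 0 (by simp)]; simp
    rw [he v, vert_tr hF h v.2, h0]
    have h3 := pull_alg h.2.1 h.2.2.1 hvc.2.1 hvc.2.2.2 (vert_den h.2.1 hvc.1) (c (g v))
    rw [← h.2.2.2.1 v hvc.1] at h3
    exact h3
  have h3 : (∑' v : Vert, conj ζ * c (g v) * ((v:ℂ)^2 * deriv (deriv F) v)⁻¹).re = 0 := h1
  rw [h2, ← ofReal_inv, re_ofReal_mul] at h3
  rcases mul_eq_zero.1 h3 with h4 | h4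
  · exfalso
    have : ‖A‖^4 ≠ 0 := pow_ne_zero 4 (norm_ne_zero_iff.2 hA0)
    exact this (inv_eq_zero.1 h4)
  · exact h4

end AG
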