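import Pool.Agent.Bloch.Starh
import Pool.Agent.Bloch.Geom
import Pool.Agent.Bloch.Vtx

set_option autoImplicit false

noncomputable section

namespace AG

open Complex Metric Set
open scoped ComplexConjugate

/-! ## module STARF (uses STARH, VTX) -/

theorem starf_F2 {F : ℂ → ℂ} (hF : AGF F) : deriv (deriv F) 0 = 0 := by
  have hd := hF.diff
  have hd1 := hd.deriv isOpen_ball
  have h1 : ∀ z ∈ ball (0:ℂ) 1, deriv F (om * z) = deriv F z := by
    intro z hz
    have hom : om * z ∈ ball (0:ℂ) 1 := by
      rw [mem_ball_zero_iff, norm_mul, om_norm, one_mul]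
      rwa [mem_ball_zero_iff] at hz
    have h2 : HasDerivAt (fun z => F (om * z)) (deriv F (om * z) * om) z := by
      have h3 : HasDerivAt F (deriv F (om * z)) (om * z) :=
        (hd.differentiableAt (isOpen_ball.mem_nhds hom)).hasDerivAt
      have h4 : HasDerivAt (fun z : ℂ => om * z) om z := by
        simpa using (hasDerivAt_id z).const_mul om
      exact h3.comp z h4
    have h3 : HasDerivAt (fun z => om * F z) (om * deriv F z) z :=
      ((hd.differentiableAt (isOpen_ball.mem_nhds hz)).hasDerivAt).const_mul om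
    have h4 : (fun z => F (om * z)) =ᶠ[nhds z] fun z => om * F z := by
      filter_upwards [isOpen_ball.mem_nhds hz] with x hx
      exact hF.rt x hx
    have h5 := h2.unique (h3.congr_of_eventuallyEq h4)
    have h6 : om ≠ 0 := by
      intro h
      have := om_norm
      rw [h, norm_zero] at this
      exact zero_ne_one this
    have h7 : om * deriv F (om * z) = om * deriv F z := by rw [mul_comm]; exact h5
    exact mul_left_cancel₀ h6 h7
  have h0 : (0:ℂ) ∈ ball (0:ℂ) 1 := by simp
  have h2 : HasDerivAt (fun z => deriv F (om * z)) (deriv (deriv F) (om * 0) * om) 0 := by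
    have h3 : HasDerivAt (deriv F) (deriv (deriv F) (om * 0)) (om * 0) := by
      rw [mul_zero]
      exact (hd1.differentiableAt (isOpen_ball.mem_nhds h0)).hasDerivAt
    have h4 : HasDerivAt (fun z : ℂ => om * z) om 0 := by
      simpa using (hasDerivAt_id (0:ℂ)).const_mul om
    exact h3.comp (0:ℂ) h4
  have h3 : HasDerivAt (deriv F) (deriv (deriv F) 0) 0 :=
    (hd1.differentiableAt (isOpen_ball.mem_nhds h0)).hasDerivAt
  have h4 : (fun z => deriv F (om * z)) =ᶠ[nhds 0] deriv F := by
    filter_upwards [isOpen_ball.mem_nhds h0] with x hx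
    exact h1 x hx
  have h5 := h2.unique (h3.congr_of_eventuallyEq h4)
  rw [mul_zero] at h5
  have h6 : deriv (deriv F) 0 * (om - 1) = 0 := by
    linear_combination h5
  rcases mul_eq_zero.1 h6 with h | h
  · exact h
  · exfalso
    have h7 : om = 1 := by linear_combination h
    have h8 := om_sum
    rw [h7] at h8
    norm_num at h8

/-- the vector field -/
def starfV (F : ℂ → ℂ) (S : Finset ℂ) (c : ℂ → ℂ) (z : ℂ) : ℂ :=
  ∑ v ∈ S, (c v / deriv (deriv F) v / (z - v) -
    conj (c v / deriv (deriv F) v) * z^3 / (1 - conj v * z))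

/-- the variation -/
def starfh (F : ℂ → ℂ) (S : Finset ℂ) (c : ℂ → ℂ) (z : ℂ) : ℂ :=
  ∑ v ∈ S, (c v / deriv (deriv F) v * dslope (deriv F) v z -
    deriv F z * (conj (c v / deriv (deriv F) v) * z^3 / (1 - conj v * z)))

theorem starf_den {v z : ℂ} {ρ : ℝ} (hρ : 0 < ρ) (hv : ‖v‖ < ρ) (hz : ‖z‖ < 1/ρ) :
    1 - conj v * z ≠ 0 := by
  intro h
  have h1 : conj v * z = 1 := by linear_combination -h
  have h2 : ‖v‖ * ‖z‖ = 1 := by
    have := congrArg norm h1
    rwa [norm_mul, norm_conj, norm_one] at this
  have h3 : ‖v‖ * ‖z‖ ≤ ρ * ‖z‖ := mul_le_mul_of_nonneg_right hv.le (norm_nonneg _)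
  have h4 : ρ * ‖z‖ < ρ * (1/ρ) := mul_lt_mul_of_pos_left hz hρ
  have h5 : ρ * (1/ρ) = 1 := by field_simp
  linarith

theorem starf_den1 {v z : ℂ} (hv : ‖v‖ < 1) (hz : ‖z‖ ≤ 1) : 1 - conj v * z ≠ 0 := by
  intro h
  have h1 : conj v * z = 1 := by linear_combination -h
  have h2 : ‖v‖ * ‖z‖ = 1 := by
    have := congrArg norm h1
    rwa [norm_mul, norm_conj, norm_one] at this
  have h3 : ‖v‖ * ‖z‖ ≤ ‖v‖ * 1 := mul_le_mul_of_nonneg_left hz (norm_nonneg _)
  linarith

theorem star_fin (hH : HypH) {F : ℂ → ℂ} (hF : AGF F) (S : Finset ℂ) (hS : ∀ v ∈ S, v ∈ Vert)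
    (c : ℂ → ℂ) (hc : ∀ z, z ∉ S → c z = 0) (η : ℝ)
    (hη : ∀ g t : ℂ → ℂ, Gp g t → LL t g c ≤ η) :
    - bt * (∑ v ∈ S, c v * (v^2 * deriv (deriv F) v)⁻¹).re ≤ η := by
  have hd := hF.diff
  have hd1 := hd.deriv isOpen_ball
  have hv1 : ∀ v ∈ S, ‖v‖ < 1 := fun v hv => by
    have := (vert_crit hF (hS v hv)).1
    rwa [mem_ball_zero_iff] at this
  -- the radius
  obtain ⟨ρ, hρ0, hρ1, hρS⟩ : ∃ ρ : ℝ, 0 < ρ ∧ ρ < 1 ∧ ∀ v ∈ S, ‖v‖ < ρ := by
    rcases S.eq_empty_or_nonempty with h | h
    · exact ⟨1/2, by norm_num, by norm_num, by rw [h]; simp⟩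
    · obtain ⟨v0, hv0, hmax⟩ := S.exists_max_image (fun v => ‖v‖) h
      refine ⟨(‖v0‖ + 1)/2, by have := norm_nonneg v0; linarith, by have := hv1 v0 hv0; linarith, ?_⟩
      intro v hv
      have h1 := hmax v hv
      have h2 := hv1 v0 hv0
      linarith
  have hh : DifferentiableOn ℂ (starfh F S c) (ball 0 1) := by
    unfold starfh
    apply DifferentiableOn.fun_sum
    intro v hv
    have hvb : ball (0:ℂ) 1 ∈ nhds v :=
      isOpen_ball.mem_nhds (by rw [mem_ball_zero_iff]; exact hv1 v hv)
    have h1 : DifferentiableOn ℂ (dslope (deriv F) v) (ball 0 1) :=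
      (differentiableOn_dslope hvb).2 hd1
    refine (h1.const_mul _).sub (hd1.mul ?_)
    refine DifferentiableOn.div ?_ ?_ ?_
    · exact ((differentiableOn_id.pow 3).const_mul _)
    · exact (differentiableOn_const _).sub (differentiableOn_id.const_mul _)
    · intro z hz
      rw [mem_ball_zero_iff] at hz
      exact starf_den1 (hv1 v hv) hz.le
  have hV : DifferentiableOn ℂ (starfV F S c) {z | ρ < ‖z‖ ∧ ‖z‖ < 1/ρ} := by
    unfold starfV
    apply DifferentiableOn.fun_sum
    intro v hv
    refine DifferentiableOn.sub ?_ ?_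
    · refine DifferentiableOn.div (differentiableOn_const _)
        (differentiableOn_id.sub (differentiableOn_const _)) ?_
      intro z hz h
      have h1 : z = v := sub_eq_zero.1 h
      have h2 := hρS v hv
      rw [← h1] at h2
      exact lt_asymm h2 hz.1
    · refine DifferentiableOn.div ?_ ?_ ?_
      · exact ((differentiableOn_id.pow 3).const_mul _)
      · exact (differentiableOn_const _).sub (differentiableOn_id.const_mul _)
      · intro z hz
        exact starf_den hρ0 (hρS v hv) hz.2
  have htan : ∀ z, ‖z‖ = 1 → (starfV F S c z * conj z).re = 0 := by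
    intro z hz
    unfold starfV
    rw [Finset.sum_mul, re_sum]
    apply Finset.sum_eq_zero
    intro v hv
    have hzz : z * conj z = 1 := by
      rw [mul_conj, normSq_eq_norm_sq, hz]; norm_num
    have hz0 : z ≠ 0 := by
      intro h
      rw [h, norm_zero] at hz
      exact zero_ne_one hz
    have hcz : conj z = z⁻¹ := eq_inv_of_mul_eq_one_right hzz
    have hzv : z - v ≠ 0 := by
      intro h
      have h1 : z = v := sub_eq_zero.1 h
      have h2 := hv1 v hv
      rw [← h1] at h2
      linarith
    have hden : 1 - conj v * z ≠ 0 := starf_den1 (hv1 v hv) hz.le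
    set r : ℂ := c v / deriv (deriv F) v with hr
    set Q : ℂ := r / (z - v) * z⁻¹ with hQ
    have h1 : (r / (z - v) - conj r * z^3 / (1 - conj v * z)) * conj z = Q - conj Q := by
      have h2 : conj Q = conj r * z^3 / (1 - conj v * z) * conj z := by
        rw [hQ, map_mul, map_div₀, map_sub, map_inv₀, hcz, inv_inv]
        have h3 : z⁻¹ - conj v ≠ 0 := by
          intro h
          apply hden
          have : conj v = z⁻¹ := by linear_combination -h
          rw [this, inv_mul_cancel₀ hz0, sub_self]
        field_simp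
      rw [h2, sub_mul]
      congr 1
      rw [hcz]
    rw [h1, sub_re, conj_re, sub_self]
  have hFV : ∀ z, ρ < ‖z‖ → ‖z‖ < 1 → starfh F S c z = deriv F z * starfV F S c z := by
    intro z hz1 hz2
    unfold starfh starfV
    rw [Finset.mul_sum]
    apply Finset.sum_congr rfl
    intro v hv
    have hzv : z ≠ v := by
      intro h
      have h2 := hρS v hv
      rw [← h] at h2
      exact lt_asymm h2 hz1
    rw [dslope_of_ne _ hzv, slope_def_field, (vert_crit hF (hS v hv)).2.2.1]
    ring
  have hhv : ∀ u ∈ Vert, starfh F S c u = c u := by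
    intro u hu
    unfold starfh
    have hu0 := (vert_crit hF hu).2.2.1
    simp only [hu0, zero_mul, sub_zero]
    have h1 : ∀ v ∈ S, v ≠ u → c v / deriv (deriv F) v * dslope (deriv F) v u = 0 := by
      intro v hv hne
      rw [dslope_of_ne _ (Ne.symm hne), slope_def_field, hu0, (vert_crit hF (hS v hv)).2.2.1]
      simp
    by_cases huS : u ∈ S
    · rw [Finset.sum_eq_single_of_mem u huS (fun v hv hne => h1 v hv hne), dslope_same]
      exact div_mul_cancel₀ _ (vert_crit hF hu).2.2.2
    · rw [hc u huS]
      apply Finset.sum_eq_zero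
      intro v hv
      apply h1 v hv
      intro h
      exact huS (h ▸ hv)
  have hLL : ∀ g t : ℂ → ℂ, Gp g t → LL t g (starfh F S c) ≤ η := by
    intro g t hgt
    have : LL t g (starfh F S c) = LL t g c := by
      unfold LL
      congr 1
      apply Finset.sum_congr rfl
      intro k _
      rw [hhv _ (vert_map hgt k)]
    rw [this]
    exact hη g t hgt
  have hmain := star_h hH hF (starfh F S c) (starfV F S c) hρ0 hρ1 hh hV htan hFV η hLL
  -- the derivative at the centre
  have hder : deriv (starfh F S c) 0 = - ∑ v ∈ S, c v * (v^2 * deriv (deriv F) v)⁻¹ := by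
    have h1 : HasDerivAt (starfh F S c)
        (∑ v ∈ S, -(c v * (v^2 * deriv (deriv F) v)⁻¹)) 0 := by
      unfold starfh
      apply HasDerivAt.fun_sum
      intro v hv
      have hv0 : v ≠ 0 := (vert_crit hF (hS v hv)).2.1
      have hF2 : deriv (deriv F) v ≠ 0 := (vert_crit hF (hS v hv)).2.2.2
      have h0b : ball (0:ℂ) 1 ∈ nhds (0:ℂ) := isOpen_ball.mem_nhds (by simp)
      have hF'0 : HasDerivAt (deriv F) 0 0 := by
        have := (hd1.differentiableAt h0b).hasDerivAt
        rwa [starf_F2 hF] at this
      -- first part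
      have hA : HasDerivAt (fun z => c v / deriv (deriv F) v * dslope (deriv F) v z)
          (c v / deriv (deriv F) v * (-(1/v^2))) 0 := by
        apply HasDerivAt.const_mul
        have hB : HasDerivAt (fun z => deriv F z / (z - v)) (-(1/v^2)) 0 := by
          have h2 : HasDerivAt (fun z : ℂ => z - v) 1 0 := (hasDerivAt_id (0:ℂ)).sub_const v
          have h3 := hF'0.div h2 (by simpa using hv0)
          refine h3.congr_deriv ?_
          rw [hF.one]
          field_simp
          ring
        refine hB.congr_of_eventuallyEq ?_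
        have hne : {z : ℂ | z ≠ v} ∈ nhds (0:ℂ) := isOpen_ne.mem_nhds (Ne.symm hv0)
        filter_upwards [hne] with z hz
        rw [dslope_of_ne _ hz, slope_def_field, (vert_crit hF (hS v hv)).2.2.1, sub_zero]
      have hC : HasDerivAt (fun z => deriv F z * (conj (c v / deriv (deriv F) v) * z^3 /
          (1 - conj v * z))) 0 0 := by
        have h2 : HasDerivAt (fun z : ℂ => conj (c v / deriv (deriv F) v) * z^3 /
          (1 - conj v * z)) 0 0 := by
          have h3 : HasDerivAt (fun z : ℂ => conj (c v / deriv (deriv F) v) * z^3) 0 0 := by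
            have := ((hasDerivAt_pow 3 (0:ℂ)).const_mul (conj (c v / deriv (deriv F) v)))
            simpa using this
          have h4 : HasDerivAt (fun z : ℂ => 1 - conj v * z) (-conj v) 0 := by
            have := ((hasDerivAt_id (0:ℂ)).const_mul (conj v)).const_sub 1
            simpa using this
          have h5 := h3.div h4 (by simp)
          refine h5.congr_deriv ?_
          simp
        have h6 := hF'0.mul h2
        refine h6.congr_deriv ?_
        simp
      refine (hA.sub hC).congr_deriv ?_
      field_simp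
      ring
    rw [h1.deriv, Finset.sum_neg_distrib]
  rw [hder, neg_re] at hmain
  linarith

end AG
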