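import Pool.Agent.Bloch.Pert

/-!
Injective holomorphic functions have nonzero derivative; the perturbation estimate for schlicht
domains.
-/

set_option autoImplicit false

noncomputable section

namespace AG

open Complex Metric Set
open scoped ComplexConjugate Topology

/-- If `f` is injective and open on `S`, the inverse is continuous. -/
theorem wrap_inv_cont {f : ℂ → ℂ} {S : Set ℂ} (hi : InjOn f S) (hS : IsOpen S)
    (ho : ∀ O ⊆ S, IsOpen O → IsOpen (f '' O)) : ContinuousOn (Function.invFunOn f S) (f '' S) := by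
  rw [_root_.continuousOn_iff']
  intro W hW
  refine ⟨f '' (S ∩ W), ho _ inter_subset_left (hS.inter hW), ?_⟩
  ext y
  constructor
  · rintro ⟨h1, ⟨x, hx, rfl⟩⟩
    have h2 : Function.invFunOn f S (f x) = x := hi.leftInvOn_invFunOn hx
    refine ⟨⟨x, ⟨hx, ?_⟩, rfl⟩, ⟨x, hx, rfl⟩⟩
    change Function.invFunOn f S (f x) ∈ W at h1
    rwa [h2] at h1
  · rintro ⟨⟨x, ⟨hx, hxW⟩, rfl⟩, h3⟩
    have h2 : Function.invFunOn f S (f x) = x := hi.leftInvOn_invFunOn hx
    refine ⟨?_, h3⟩
    change Function.invFunOn f S (f x) ∈ W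
    rwa [h2]

theorem inj_deriv {f : ℂ → ℂ} {U : Set ℂ} (hU : IsOpen U) (hf : DifferentiableOn ℂ f U)
    (hi : InjOn f U) {z : ℂ} (hz : z ∈ U) : deriv f z ≠ 0 := by
  have han : AnalyticOnNhd ℂ f U := hf.analyticOnNhd hU
  have hdan : AnalyticAt ℂ (deriv f) z := (han z hz).deriv
  have hne : ∀ᶠ w in 𝓝[≠] z, deriv f w ≠ 0 := by
    rcases hdan.eventually_eq_zero_or_eventually_ne_zero with h | h
    · exfalso
      obtain ⟨ε, hε, hball⟩ := Metric.eventually_nhds_iff_ball.1 (h.and (hU.mem_nhds hz))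
      have hc : ∀ w ∈ ball z ε, f w = f z := by
        intro w hw
        have := (convex_ball z ε).norm_image_sub_le_of_norm_hasDerivWithin_le (f := f)
          (f' := fun _ => 0) (C := 0) (s := ball z ε) (x := z) (y := w)
          (fun x hx => by
            have h1 := (hf.differentiableAt (hU.mem_nhds (hball x hx).2)).hasDerivAt
            rw [(hball x hx).1] at h1
            exact h1.hasDerivWithinAt) (fun x hx => by simp) (mem_ball_self hε) hw
        rw [zero_mul] at this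
        exact sub_eq_zero.1 (norm_le_zero_iff.1 this)
      have hw : z + (ε/2 : ℝ) ∈ ball z ε := by
        rw [mem_ball, dist_eq_norm, add_sub_cancel_left, Complex.norm_real,
          Real.norm_of_nonneg (by positivity)]
        linarith
      have h1 := hi (hball _ hw).2 hz (hc _ hw)
      have h2 : ((ε/2 : ℝ) : ℂ) = 0 := by simpa using h1
      have h3 : ε/2 = 0 := by exact_mod_cast h2
      linarith
    · exact h
  rw [eventually_nhdsWithin_iff] at hne
  obtain ⟨ε, hε, hball⟩ := Metric.eventually_nhds_iff_ball.1 (hne.and (hU.mem_nhds hz))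
  set B := ball z ε with hB
  have hBU : B ⊆ U := fun x hx => (hball x hx).2
  have hBi : InjOn f B := hi.mono hBU
  have hopen : ∀ O ⊆ B, IsOpen O → IsOpen (f '' O) := by
    rcases (han.mono hBU).is_constant_or_isOpen (convex_ball z ε).isPreconnected with h | h
    · exfalso
      obtain ⟨c, hc⟩ := h
      have hw : z + (ε/2 : ℝ) ∈ B := by
        rw [hB, mem_ball, dist_eq_norm, add_sub_cancel_left, Complex.norm_real,
          Real.norm_of_nonneg (by positivity)]
        linarith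
      have h1 := hBi hw (mem_ball_self hε) ((hc _ hw).trans (hc _ (mem_ball_self hε)).symm)
      have h2 : ((ε/2 : ℝ) : ℂ) = 0 := by simpa using h1
      have h3 : ε/2 = 0 := by exact_mod_cast h2
      linarith
    · exact h
  set σ := Function.invFunOn f B with hσ
  have hσc : ContinuousOn σ (f '' B) := wrap_inv_cont hBi isOpen_ball hopen
  have hV : IsOpen (f '' B) := hopen B subset_rfl isOpen_ball
  have hleft : ∀ x ∈ B, σ (f x) = x := fun x hx => hBi.leftInvOn_invFunOn hx
  have hd : DifferentiableOn ℂ σ (f '' B \ {f z}) := by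
    rintro y ⟨⟨x, hx, rfl⟩, hy⟩
    have hxz : x ≠ z := fun h => hy (by rw [h]; rfl)
    have h1 : HasDerivAt f (deriv f x) (σ (f x)) := by
      rw [hleft x hx]
      exact (hf.differentiableAt (hU.mem_nhds (hBU hx))).hasDerivAt
    have h2 : ∀ᶠ y in 𝓝 (f x), f (σ y) = y := by
      filter_upwards [hV.mem_nhds ⟨x, hx, rfl⟩] with y hy
      exact Function.invFunOn_eq hy
    exact (HasDerivAt.of_local_left_inverse (hσc.continuousAt (hV.mem_nhds ⟨x, hx, rfl⟩)) h1
      ((hball x hx).1 hxz) h2).differentiableAt.differentiableWithinAt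
  have hzV : f z ∈ f '' B := ⟨z, mem_ball_self hε, rfl⟩
  have hD := (differentiableOn_compl_singleton_and_continuousAt_iff (hV.mem_nhds hzV)).1
    ⟨hd, hσc.continuousAt (hV.mem_nhds hzV)⟩
  have h1 := (hD.differentiableAt (hV.mem_nhds hzV)).hasDerivAt
  have h2 := (hf.differentiableAt (hU.mem_nhds hz)).hasDerivAt
  have h3 := HasDerivAt.comp z h1 h2
  have h4 : (σ ∘ f) =ᶠ[𝓝 z] id := by
    filter_upwards [isOpen_ball.mem_nhds (mem_ball_self hε)] with x hx
    exact hleft x hx
  have h5 := (hasDerivAt_id z).congr_of_eventuallyEq h4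
  have h6 := h3.unique h5
  intro h7
  rw [h7, mul_zero] at h6
  exact zero_ne_one h6

theorem wrap_open {f : ℂ → ℂ} {S : Set ℂ} (hf : DifferentiableOn ℂ f S) (hS : IsOpen S)
    (hi : InjOn f S) : ∀ O ⊆ S, IsOpen O → IsOpen (f '' O) := by
  intro O hOS hO
  rw [isOpen_iff_mem_nhds]
  rintro y ⟨x, hx, rfl⟩
  have h1 : ContDiffAt ℂ 1 f x := (hf.contDiffOn hS).contDiffAt (hS.mem_nhds (hOS hx))
  have h2 : HasStrictDerivAt f (deriv f x) x := h1.hasStrictDerivAt one_ne_zero
  rw [← h2.map_nhds_eq (inj_deriv hS hf hi (hOS hx))]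
  exact Filter.image_mem_map (hO.mem_nhds hx)

theorem wrap_EM {t : ℂ → ℂ} (ht : EM t) (a b : ℂ) : ‖t a - t b‖ = ‖a - b‖ := by
  obtain ⟨ζ, l, hζ, h | h⟩ := ht
  · rw [h, h]
    have : ζ * a + l - (ζ * b + l) = ζ * (a - b) := by ring
    rw [this, norm_mul, hζ, one_mul]
  · rw [h, h]
    have : ζ * conj a + l - (ζ * conj b + l) = ζ * conj (a - b) := by rw [map_sub]; ring
    rw [this, norm_mul, hζ, one_mul, Complex.norm_conj]

theorem pert2 {F : ℂ → ℂ} (hF : AGF F) : ∃ R κ C : ℝ, rv < R ∧ R < 1 ∧ 0 < κ ∧ 0 < C ∧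
    ∀ (k : ℂ → ℂ) (δ : ℝ), δ ≤ κ → DifferentiableOn ℂ k (ball 0 R) → (∀ z ∈ ball (0:ℂ) R, ‖k z‖ ≤ δ) →
    ∀ (f Ψ t : ℂ → ℂ) (S : Set ℂ) (z0 : ℂ) (r : ℝ), ContinuousOn Ψ (ball 0 R) → InjOn Ψ (ball 0 R) →
    (∀ O : Set ℂ, O ⊆ ball (0:ℂ) R → IsOpen O → IsOpen (Ψ '' O)) →
    DifferentiableOn ℂ f S → IsOpen S → InjOn f S → EM t →
    (∀ z ∈ ball (0:ℂ) R, f (Ψ z) = t (F z + k z)) → z0 ∈ Tri → Ψ z0 ∈ S →
    ball (f (Ψ z0)) r ⊆ f '' S →
    r ≤ bt + (1/3) * ∑ j ∈ Finset.range 3, (conj (om^j) * k (rv*om^j)).re + C * δ^2 := by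
  obtain ⟨R, κ, C, hrv, hR1, hκ, hC, hmain⟩ := pert hF
  refine ⟨R, κ, C, hrv, hR1, hκ, hC, ?_⟩
  intro k δ hδ hk hkb f Ψ t S z0 r hΨ hΨi ho hf hS hi ht hft hz0 hz0S hball
  have hz0R : z0 ∈ ball (0:ℂ) R := by
    rw [mem_ball_zero_iff]
    have := tri_rv hz0
    linarith
  have htc : Continuous t := by
    obtain ⟨ζ, l, hζ, h | h⟩ := ht
    · rw [show t = fun w => ζ * w + l from funext h]; fun_prop
    · rw [show t = fun w => ζ * conj w + l from funext h]
      exact (continuous_const.mul Complex.continuous_conj).add continuous_const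
  have hmaps : ∀ w ∈ ball (F z0 + k z0) r, t w ∈ f '' S := by
    intro w hw
    apply hball
    rw [mem_ball, dist_eq_norm] at hw ⊢
    rw [hft z0 hz0R, wrap_EM ht]
    exact hw
  refine hmain k δ hδ hk hkb Ψ (fun w => Function.invFunOn f S (t w)) z0 r hΨ ho hz0
    ((wrap_inv_cont hi hS (wrap_open hf hS hi)).comp htc.continuousOn hmaps) ?_ ?_
  · rw [← hft z0 hz0R]
    exact hi.leftInvOn_invFunOn hz0S
  · intro w hw z hz hzw
    have h1 : f (Function.invFunOn f S (t w)) = t w := Function.invFunOn_eq (hmaps w hw)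
    have h2 : Function.invFunOn f S (t w) ∈ S := Function.invFunOn_mem (hmaps w hw)
    change Ψ z = Function.invFunOn f S (t w) at hzw
    rw [← hzw] at h1 h2
    constructor
    · rw [hft z hz] at h1
      have h3 := wrap_EM ht (F z + k z) w
      rw [h1, sub_self, norm_zero] at h3
      exact sub_eq_zero.1 (norm_eq_zero.1 h3.symm)
    · -- the set where the functions are defined and injective
      have hc : ContinuousAt Ψ z := hΨ.continuousAt (isOpen_ball.mem_nhds hz)
      have hnb : ∀ᶠ x in 𝓝 z, x ∈ ball (0:ℂ) R ∧ Ψ x ∈ S :=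
        Filter.Eventually.and (isOpen_ball.mem_nhds hz) (hc (hS.mem_nhds h2))
      obtain ⟨ε, hε, hU⟩ := Metric.eventually_nhds_iff_ball.1 hnb
      refine inj_deriv (U := ball z ε) isOpen_ball ?_ ?_ (mem_ball_self hε)
      · refine DifferentiableOn.add (hF.diff.mono (fun x hx => ?_)) (hk.mono (fun x hx => (hU x hx).1))
        exact ball_subset_ball hR1.le (hU x hx).1
      · intro x hx y hy hxy
        have h3 : f (Ψ x) = f (Ψ y) := by
          rw [hft x (hU x hx).1, hft y (hU y hy).1]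
          change F x + k x = F y + k y at hxy
          rw [hxy]
        exact hΨi (hU x hx).1 (hU y hy).1 (hi (hU x hx).2 (hU y hy).2 h3)

end AG
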