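import Pool.Agent.Bloch.Geom
import Pool.Agent.Bloch.Gp
import Pool.Agent.Bloch.Face
import Pool.Agent.Bloch.Orb
import Pool.Agent.Bloch.Vtx
import Pool.Agent.Bloch.Wrap
import Pool.Agent.Bloch.Feps

set_option autoImplicit false

noncomputable section

namespace AG

open Complex Metric Set
open scoped ComplexConjugate

/-! # STARH -/

/-- open mapping for injective holomorphic functions -/
theorem starh_open {f : ℂ → ℂ} {U : Set ℂ} (hU : IsOpen U) (hf : DifferentiableOn ℂ f U)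
    (hi : InjOn f U) {O : Set ℂ} (hO : O ⊆ U) (hOo : IsOpen O) : IsOpen (f '' O) := by
  rw [isOpen_iff_mem_nhds]
  rintro _ ⟨z, hz, rfl⟩
  have han : AnalyticAt ℂ f z := hf.analyticAt (hU.mem_nhds (hO hz))
  rcases han.eventually_constant_or_nhds_le_map_nhds with h | h
  · exfalso
    have h2 : ∀ᶠ w in nhds z, w ∈ U := hU.mem_nhds (hO hz)
    have h3 := (h.and h2)
    obtain ⟨ε, hε, hb⟩ := Metric.eventually_nhds_iff_ball.1 h3
    have h4 : z + ((ε/2 : ℝ) : ℂ) ∈ ball z ε := by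
      simp only [mem_ball, dist_eq_norm, add_sub_cancel_left, norm_real, Real.norm_eq_abs]
      rw [abs_of_pos (by positivity)]; linarith
    have h5 := hb _ h4
    have h6 := hi h5.2 (hO hz) h5.1
    have h7 : ((ε/2 : ℝ) : ℂ) = 0 := by
      have := congrArg (fun x => x - z) h6
      simpa using this
    have h8 : ε/2 = 0 := by exact_mod_cast h7
    linarith
  · have h1 : f '' O ∈ Filter.map f (nhds z) := by
      rw [Filter.mem_map]
      exact Filter.mem_of_superset (hOo.mem_nhds hz) (subset_preimage_image f O)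
    exact h h1

/-- inverse of an injective holomorphic map is holomorphic -/
theorem starh_inv {f : ℂ → ℂ} {U : Set ℂ} (hU : IsOpen U) (hf : DifferentiableOn ℂ f U)
    (hi : InjOn f U) : DifferentiableOn ℂ (Function.invFunOn f U) (f '' U) := by
  rintro _ ⟨z, hz, rfl⟩
  have hinv : ∀ x ∈ U, Function.invFunOn f U (f x) = x := fun x hx =>
    hi.leftInvOn_invFunOn hx
  have hop : IsOpen (f '' U) := starh_open hU hf hi (le_refl _) hU
  have hcont : ContinuousAt (Function.invFunOn f U) (f z) := by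
    rw [ContinuousAt, hinv z hz]
    intro N hN
    rw [Filter.mem_map]
    have h1 : N ∩ U ∈ nhds z := Filter.inter_mem hN (hU.mem_nhds hz)
    obtain ⟨O, hO, hOo, hzO⟩ := _root_.mem_nhds_iff.1 h1
    have h2 : f '' O ∈ nhds (f z) :=
      (starh_open hU hf hi (hO.trans inter_subset_right) hOo).mem_nhds ⟨z, hzO, rfl⟩
    refine Filter.mem_of_superset h2 ?_
    rintro _ ⟨x, hx, rfl⟩
    show Function.invFunOn f U (f x) ∈ N
    rw [hinv x (hO hx).2]
    exact (hO hx).1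
  have hd : HasDerivAt f (deriv f z) z := (hf.differentiableAt (hU.mem_nhds hz)).hasDerivAt
  have hne := inj_deriv hU hf hi hz
  have h3 : HasDerivAt (Function.invFunOn f U) (deriv f z)⁻¹ (f z) := by
    refine HasDerivAt.of_local_left_inverse (f := f) hcont ?_ hne ?_
    · rw [hinv z hz]; exact hd
    · filter_upwards [hop.mem_nhds ⟨z, hz, rfl⟩] with y hy
      exact Function.invFunOn_eq (by simpa using hy)
  exact h3.differentiableAt.differentiableWithinAt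

/-- far faces: some pair has all its vertices near the circle, so `0 ≤ η` -/
theorem starh_eta {F : ℂ → ℂ} (hF : AGF F) (h V : ℂ → ℂ) {ρ : ℝ} (h1 : ρ < 1)
    (hFV : ∀ z, ρ < ‖z‖ → ‖z‖ < 1 → h z = deriv F z * V z)
    (η : ℝ) (hη : ∀ g t : ℂ → ℂ, Gp g t → LL t g h ≤ η) : 0 ≤ η := by
  obtain ⟨K, hK, hface⟩ := face_comp rv rv_lt
  set ρ' : ℝ := max ρ 0 with hρ'
  have hρ'0 : 0 ≤ ρ' := le_max_right _ _
  have hρ'1 : ρ' < 1 := max_lt h1 one_pos
  have hρ'sq : 0 < 1 - ρ'^2 := by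
    have := pow_lt_pow_left₀ hρ'1 hρ'0 two_ne_zero
    rw [one_pow] at this; linarith
  have hd : 0 < (1 - ρ'^2) / (K * 2) := by
    apply div_pos hρ'sq
    positivity
  -- choose a real point x near 1
  set e : ℝ := min (1/2) ((1 - ρ'^2) / (K * 2) / 2) with he
  have he0 : 0 < e := lt_min (by norm_num) (by positivity)
  have he1 : e ≤ 1/2 := min_le_left _ _
  have he2 : e ≤ (1 - ρ'^2) / (K * 2) / 2 := min_le_right _ _
  have hx : ((1 - e : ℝ) : ℂ) ∈ ball (0:ℂ) 1 := by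
    rw [mem_ball_zero_iff, norm_real, Real.norm_eq_abs, abs_of_pos (by linarith)]
    linarith
  obtain ⟨g, t, A, B, ζ, l, hG, z', hz', hgz⟩ := cover hF hx
  have hLL := hη g t hG.1
  have : LL t g h = 0 := by
    unfold LL
    have h2 : ∀ k : ℕ, h (g (rv * om^k)) = 0 := by
      intro k
      have hn : ‖(rv:ℂ) * om^k‖ ≤ rv := by
        rw [norm_mul, norm_pow, om_norm, one_pow, mul_one, norm_real, Real.norm_eq_abs,
          abs_of_pos rv_pos]
      have h3 := hface g t hG.1 z' (rv * om^k) (tri_rv hz') hn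
      have h4 := vert_crit hF (vert_map hG.1 k)
      have h5 : ‖g z'‖ = 1 - e := by
        rw [hgz, norm_real, Real.norm_eq_abs, abs_of_pos (by linarith)]
      rw [h5] at h3
      have h6 : 1 - (1 - e)^2 ≤ 2 * e := by
        have := sq_nonneg e
        linarith
      have h7 : K * (1 - (1-e)^2) ≤ K * (2 * e) := by gcongr
      have h8 : K * (2 * e) ≤ (1 - ρ'^2) / 2 := by
        have : K * (2 * e) ≤ K * (2 * ((1 - ρ'^2) / (K * 2) / 2)) := by gcongr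
        refine this.trans (le_of_eq ?_)
        field_simp
      have h9 : 1 - ‖g (rv * om^k)‖^2 < 1 - ρ'^2 := by linarith
      have h10 : ρ' < ‖g (rv * om^k)‖ := lt_of_pow_lt_pow_left₀ 2 (norm_nonneg _) (by linarith)
      have h11 : ρ < ‖g (rv * om^k)‖ := lt_of_le_of_lt (le_max_left _ _) h10
      have h12 : ‖g (rv * om^k)‖ < 1 := by simpa using h4.1
      rw [hFV _ h11 h12, h4.2.2.1, zero_mul]
    simp [h2]
  linarith

/-- bound for the linear term -/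
theorem starh_lin (k : ℂ → ℂ) (δ : ℝ) (hk : ∀ j : ℕ, ‖k (rv*om^j)‖ ≤ δ) :
    (1/3) * ∑ j ∈ Finset.range 3, (conj (om^j) * k (rv*om^j)).re ≤ δ := by
  have h1 : ∀ j : ℕ, (conj (om^j) * k (rv*om^j)).re ≤ δ := by
    intro j
    refine (re_le_norm _).trans ?_
    rw [norm_mul, RCLike.norm_conj, norm_pow, om_norm, one_pow, one_mul]
    exact hk j
  simp only [Finset.sum_range_succ, Finset.sum_range_zero]
  have := h1 0
  have := h1 1
  have := h1 2
  linarith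

/-- the conclusion of `pert2` -/
def PertC (F : ℂ → ℂ) (R κ C : ℝ) : Prop :=
  ∀ (k : ℂ → ℂ) (δ : ℝ), δ ≤ κ → DifferentiableOn ℂ k (ball 0 R) → (∀ z ∈ ball (0:ℂ) R, ‖k z‖ ≤ δ) →
    ∀ (f Ψ t : ℂ → ℂ) (S : Set ℂ) (z0 : ℂ) (r : ℝ), ContinuousOn Ψ (ball 0 R) → InjOn Ψ (ball 0 R) →
    (∀ O : Set ℂ, O ⊆ ball (0:ℂ) R → IsOpen O → IsOpen (Ψ '' O)) →
    DifferentiableOn ℂ f S → IsOpen S → InjOn f S → EM t →
    (∀ z ∈ ball (0:ℂ) R, f (Ψ z) = t (F z + k z)) → z0 ∈ Tri → Ψ z0 ∈ S →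
    ball (f (Ψ z0)) r ⊆ f '' S →
    r ≤ bt + (1/3) * ∑ j ∈ Finset.range 3, (conj (om^j) * k (rv*om^j)).re + C * δ^2

theorem starh_gdiff {g t : ℂ → ℂ} {A B ζ l : ℂ} (hG : Gpo g t A B ζ l) {R : ℝ} (hR : R < 1) :
    DifferentiableOn ℂ g (ball 0 R) := by
  obtain ⟨-, hAB, -, hg, -⟩ := hG
  have h1 : DifferentiableOn ℂ (fun z => (A * z + B) / (conj B * z + conj A)) (ball 0 R) := by
    intro z hz
    apply DifferentiableAt.differentiableWithinAt
    apply DifferentiableAt.div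
    · fun_prop
    · fun_prop
    · intro h0
      have h2 : conj A = - (conj B * z) := by linear_combination h0
      have h3 : ‖A‖ = ‖B‖ * ‖z‖ := by
        have := congrArg norm h2
        rwa [norm_neg, norm_mul, RCLike.norm_conj, RCLike.norm_conj] at this
      rw [mem_ball_zero_iff] at hz
      have hz1 : ‖z‖ < 1 := hz.trans hR
      have h4 : ‖A‖ ≤ ‖B‖ := by
        rw [h3]
        nlinarith [norm_nonneg B, norm_nonneg z]
      nlinarith [norm_nonneg A, norm_nonneg B]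
  refine h1.congr ?_
  intro z hz
  exact hg z (ball_subset_ball hR.le hz)

theorem starh_ginj {g t : ℂ → ℂ} (hG : Gp g t) {R : ℝ} (hR : R < 1) : InjOn g (ball 0 R) := by
  obtain ⟨g', t', -, hinv, -⟩ := hG.inv
  intro x hx y hy hxy
  have h3 := (hinv x (ball_subset_ball hR.le hx)).1
  have h4 := (hinv y (ball_subset_ball hR.le hy)).1
  rw [← h3, ← h4, hxy]

theorem starh_rvR {R : ℝ} (hR : rv < R) (j : ℕ) : ‖(rv:ℂ) * om^j‖ < R := by
  rw [norm_mul, norm_pow, om_norm, one_pow, mul_one, norm_real, Real.norm_eq_abs,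
    abs_of_pos rv_pos]
  exact hR

theorem starh_conj_mul {ζ : ℂ} (hζ : ‖ζ‖ = 1) : conj ζ * ζ = 1 := by
  rw [mul_comm, mul_conj, normSq_eq_norm_sq, hζ]; norm_num

theorem starh_inner {F : ℂ → ℂ} (hF : AGF F) (h f : ℂ → ℂ) {R κ C1 C2 M ε η ρi : ℝ}
    (hR0 : rv < R) (hR1 : R < 1) (hC2 : 0 < C2) (hε : 0 < ε) (hε1 : ε < 1)
    (hδκ : (C2 + M) * ε ≤ κ)
    (hpert : PertC F R κ C1) (hη : ∀ g t : ℂ → ℂ, Gp g t → LL t g h ≤ η)
    (hfd : DifferentiableOn ℂ f (ball 0 1))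
    (hfi : ∀ z, ‖z‖ < ρi → ‖f z - (F z + ε * h z)‖ ≤ C2 * ε^2)
    (hMb : ∀ z, ‖z‖ ≤ ρi → ‖h z‖ ≤ M)
    {g t : ℂ → ℂ} {A B ζ l : ℂ} (hG : Gpo g t A B ζ l) (hgR : ∀ z, ‖z‖ < R → ‖g z‖ < ρi)
    {z' : ℂ} (hz' : z' ∈ Tri) (S : Set ℂ) (r : ℝ) (hS : S ⊆ ball (0:ℂ) 1) (hSo : IsOpen S)
    (hSi : InjOn f S) (hz0 : g z' ∈ S) (hball : ball (f (g z')) r ⊆ f '' S) :
    r ≤ bt + ε * η + C2 * ε^2 + C1 * ((C2 + M) * ε)^2 := by
  have hgdiff := starh_gdiff hG hR1
  obtain ⟨hGp, -, hζ, hgform, ht⟩ := hG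
  have hfS : DifferentiableOn ℂ f S := hfd.mono hS
  have hζζ := starh_conj_mul hζ
  have hmaps : MapsTo g (ball 0 R) (ball 0 1) := by
    intro z hz
    apply hGp.mapsTo
    rw [mem_ball_zero_iff] at hz ⊢
    exact hz.trans hR1
  have hkdiff : DifferentiableOn ℂ (fun z => conj ζ * (f (g z) - F (g z))) (ball 0 R) :=
    ((hfd.comp hgdiff hmaps).sub (hF.diff.comp hgdiff hmaps)).const_mul _
  have hkeq : ∀ z, ‖z‖ < R → ‖conj ζ * (f (g z) - (F (g z) + ε * h (g z)))‖ ≤ C2 * ε^2 := by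
    intro z hz
    rw [norm_mul, RCLike.norm_conj, hζ, one_mul]
    exact hfi _ (hgR z hz)
  have hkb : ∀ z ∈ ball (0:ℂ) R, ‖conj ζ * (f (g z) - F (g z))‖ ≤ (C2 + M) * ε := by
    intro z hz
    rw [mem_ball_zero_iff] at hz
    have h3 : conj ζ * (f (g z) - F (g z))
      = conj ζ * (f (g z) - (F (g z) + ε * h (g z))) + conj ζ * (ε * h (g z)) := by
      ring
    rw [h3]
    refine (norm_add_le _ _).trans ?_
    have h4 : ‖conj ζ * (ε * h (g z))‖ ≤ ε * M := by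
      rw [norm_mul, RCLike.norm_conj, hζ, one_mul, norm_mul, norm_real, Real.norm_eq_abs,
        abs_of_pos hε]
      have := hMb (g z) (hgR z hz).le
      gcongr
    have h5 := hkeq z hz
    have h6 : C2 * ε^2 ≤ C2 * ε := by
      have : ε^2 ≤ ε := by nlinarith
      gcongr
    linarith
  have hfk : ∀ z ∈ ball (0:ℂ) R, f (g z) = t (F z + conj ζ * (f (g z) - F (g z))) := by
    intro z hz
    have hz1 : z ∈ ball (0:ℂ) 1 := ball_subset_ball hR1.le hz
    have h3 := comp_F hF hGp hz1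
    rw [ht] at h3
    rw [ht]
    have : ζ * (F z + conj ζ * (f (g z) - F (g z))) + l
      = (ζ * F z + l) + (conj ζ * ζ) * (f (g z) - F (g z)) := by ring
    rw [this, hζζ, ← h3]; ring
  have hres := hpert (fun z => conj ζ * (f (g z) - F (g z))) ((C2 + M) * ε) hδκ hkdiff hkb f g t S z' r
    hgdiff.continuousOn (starh_ginj hGp hR1)
    (fun O hO hOo => starh_open isOpen_ball hgdiff (starh_ginj hGp hR1) hO hOo) hfS hSo hSi
    ⟨ζ, l, hζ, Or.inl ht⟩ hfk hz' hz0 hball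
  have h3 := starh_lin (fun z => conj ζ * (f (g z) - (F (g z) + ε * h (g z)))) (C2 * ε^2)
    (fun j => hkeq _ (starh_rvR hR0 j))
  have h4 := hη g t hGp
  have h5 : (1/3) * ∑ j ∈ Finset.range 3, (conj (om^j) * (conj ζ * (f (g (rv*om^j)) - F (g (rv*om^j))))).re
    = ε * LL t g h + (1/3) * ∑ j ∈ Finset.range 3, (conj (om^j) *
      (conj ζ * (f (g (rv*om^j)) - (F (g (rv*om^j)) + ε * h (g (rv*om^j)))))).re := by
    unfold LL
    have key : ∀ j : ℕ, (conj (om^j) * (conj ζ * (f (g (rv*om^j)) - F (g (rv*om^j))))).re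
      = ε * (conj (t (om^j) - t 0) * h (g (rv*om^j))).re + (conj (om^j) *
      (conj ζ * (f (g (rv*om^j)) - (F (g (rv*om^j)) + ε * h (g (rv*om^j)))))).re := by
      intro j
      have e1 : t (om^j) - t 0 = ζ * om^j := by rw [ht, ht]; ring
      rw [e1, map_mul]
      have e2 : (ε:ℝ) * (conj ζ * conj (om^j) * h (g (rv*om^j))).re
        = ((ε:ℂ) * (conj ζ * conj (om^j) * h (g (rv*om^j)))).re := by
        rw [re_ofReal_mul]
      rw [e2, ← add_re]
      congr 1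
      ring
    simp only [Finset.sum_range_succ, Finset.sum_range_zero, key]
    ring
  rw [h5] at hres
  have h6 : ε * LL t g h ≤ ε * η := by gcongr
  linarith

theorem starh_outer {F : ℂ → ℂ} (hF : AGF F) (f φ : ℂ → ℂ) {R κ C1 δ ρo : ℝ}
    (hR0 : rv < R) (hR1 : R < 1)
    (hδκ : δ ≤ κ)
    (hpert : PertC F R κ C1)
    (hfd : DifferentiableOn ℂ f (ball 0 1))
    (hφd : DifferentiableOn ℂ φ {z | ρo < ‖z‖ ∧ ‖z‖ < 1})
    (hφi : InjOn φ {z | ρo < ‖z‖ ∧ ‖z‖ < 1})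
    (hφ : ∀ z, ρo < ‖z‖ → ‖z‖ < 1 → ‖f z - F (φ z)‖ ≤ δ)
    {g t : ℂ → ℂ} {A B ζ l : ℂ} (hG : Gpo g t A B ζ l)
    (hgim : ∀ z, ‖z‖ < R → g z ∈ φ '' {z | ρo < ‖z‖ ∧ ‖z‖ < 1})
    {z' z0 : ℂ} (hz' : z' ∈ Tri) (hgz : g z' = φ z0) (hz0a : ρo < ‖z0‖) (hz0b : ‖z0‖ < 1)
    (S : Set ℂ) (r : ℝ) (hS : S ⊆ ball (0:ℂ) 1) (hSo : IsOpen S)
    (hSi : InjOn f S) (hz0 : z0 ∈ S) (hball : ball (f z0) r ⊆ f '' S) :
    r ≤ bt + δ + C1 * δ^2 := by
  have hgdiff := starh_gdiff hG hR1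
  obtain ⟨hGp, -, hζ, hgform, ht⟩ := hG
  have hfS : DifferentiableOn ℂ f S := hfd.mono hS
  have hζζ := starh_conj_mul hζ
  have hUo : IsOpen {z : ℂ | ρo < ‖z‖ ∧ ‖z‖ < 1} := (isOpen_lt continuous_const continuous_norm).inter
    (isOpen_lt continuous_norm continuous_const)
  have hmaps : MapsTo g (ball 0 R) (ball 0 1) := by
    intro z hz
    apply hGp.mapsTo
    rw [mem_ball_zero_iff] at hz ⊢
    exact hz.trans hR1
  have hχd := starh_inv hUo hφd hφi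
  obtain ⟨χ, hχ⟩ : ∃ χ, χ = Function.invFunOn φ {z : ℂ | ρo < ‖z‖ ∧ ‖z‖ < 1} := ⟨_, rfl⟩
  rw [← hχ] at hχd
  have hΨU : ∀ z, ‖z‖ < R → (ρo < ‖χ (g z)‖ ∧ ‖χ (g z)‖ < 1) ∧ φ (χ (g z)) = g z := by
    intro z hz
    have h3 := hgim z hz
    rw [hχ]
    exact ⟨Function.invFunOn_mem h3, Function.invFunOn_eq h3⟩
  have hΨdiff : DifferentiableOn ℂ (fun z => χ (g z)) (ball 0 R) := by
    refine hχd.comp hgdiff ?_
    intro z hz
    exact hgim z (by simpa using hz)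
  have hginj := starh_ginj hGp hR1
  have hΨinj : InjOn (fun z => χ (g z)) (ball 0 R) := by
    intro x hx y hy hxy
    apply hginj hx hy
    rw [← (hΨU x (by simpa using hx)).2, ← (hΨU y (by simpa using hy)).2]
    simp only at hxy
    rw [hxy]
  have hΨz' : χ (g z') = z0 := by
    rw [hgz, hχ]
    exact hφi.leftInvOn_invFunOn ⟨hz0a, hz0b⟩
  have hΨmaps : MapsTo (fun z => χ (g z)) (ball 0 R) (ball 0 1) := by
    intro z hz
    have := (hΨU z (by simpa using hz)).1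
    simpa using this.2
  have hkdiff : DifferentiableOn ℂ (fun z => conj ζ * (f (χ (g z)) - F (g z))) (ball 0 R) :=
    ((hfd.comp hΨdiff hΨmaps).sub (hF.diff.comp hgdiff hmaps)).const_mul _
  have hkb : ∀ z ∈ ball (0:ℂ) R, ‖conj ζ * (f (χ (g z)) - F (g z))‖ ≤ δ := by
    intro z hz
    rw [mem_ball_zero_iff] at hz
    obtain ⟨h3, h4⟩ := hΨU z hz
    rw [norm_mul, RCLike.norm_conj, hζ, one_mul]
    have h5 := hφ _ h3.1 h3.2
    rwa [h4] at h5
  have hfk : ∀ z ∈ ball (0:ℂ) R, f (χ (g z)) = t (F z + conj ζ * (f (χ (g z)) - F (g z))) := by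
    intro z hz
    have hz1 : z ∈ ball (0:ℂ) 1 := ball_subset_ball hR1.le hz
    have h3 := comp_F hF hGp hz1
    rw [ht] at h3
    rw [ht]
    have : ζ * (F z + conj ζ * (f (χ (g z)) - F (g z))) + l
      = (ζ * F z + l) + (conj ζ * ζ) * (f (χ (g z)) - F (g z)) := by ring
    rw [this, hζζ, ← h3]; ring
  have hres := hpert (fun z => conj ζ * (f (χ (g z)) - F (g z))) δ hδκ hkdiff hkb f
    (fun z => χ (g z)) t S z' r hΨdiff.continuousOn hΨinj
    (fun O hO hOo => starh_open isOpen_ball hΨdiff hΨinj hO hOo) hfS hSo hSi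
    ⟨ζ, l, hζ, Or.inl ht⟩ hfk hz' (by rw [hΨz']; exact hz0) (by rw [hΨz']; exact hball)
  have hlin := starh_lin (fun z => conj ζ * (f (χ (g z)) - F (g z))) δ
    (fun j => hkb _ (by rw [mem_ball_zero_iff]; exact starh_rvR hR0 j))
  linarith

/-- choice of the radii -/
theorem starh_radii {ρo K : ℝ} (h0 : 0 < ρo) (h1 : ρo < 1) (hK : 1 ≤ K) :
    ∃ ρo' ρ2' ρ2 ρi : ℝ, ρo < ρo' ∧ ρo' < 1 ∧ 0 < ρ2' ∧ ρ2' < ρ2 ∧ ρ2 < 1 ∧ ρo < ρ2 ∧ ρo < ρi ∧ ρi < 1 ∧
      (∀ x y : ℝ, 0 ≤ x → ρ2' < y → 1 - x^2 ≤ K * (1 - y^2) → ρo' < x) ∧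
      (∀ x y : ℝ, 0 ≤ y → y < ρ2 → 1 - y^2 ≤ K * (1 - x^2) → x < ρi) := by
  have hKpos : 0 < K := lt_of_lt_of_le one_pos hK
  obtain ⟨ρo', hρo'⟩ : ∃ x, x = (ρo + 1)/2 := ⟨_, rfl⟩
  have a1 : ρo < ρo' := by linarith
  have a2 : ρo' < 1 := by linarith
  have a0 : 0 < ρo' := by linarith
  have a3 : ρo'^2 < 1 := by
    have := pow_lt_pow_left₀ a2 a0.le (two_ne_zero)
    rwa [one_pow] at this
  have hq2a : 0 < (1 - ρo'^2)/(2*K) := by
    apply div_pos _ (by positivity)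
    linarith
  have hq2b : (1 - ρo'^2)/(2*K) ≤ (1 - ρo'^2)/2 := by
    apply div_le_div_of_nonneg_left _ (by norm_num) (by linarith)
    linarith
  obtain ⟨q2, hq2⟩ : ∃ x, x = 1 - (1 - ρo'^2)/(2*K) := ⟨_, rfl⟩
  have hsq0 : 0 < ρo'^2 := by positivity
  have hq2pos : 0 < q2 := by rw [hq2]; linarith
  have hq2lt : q2 < 1 := by rw [hq2]; linarith
  have hq2o : ρo'^2 < q2 := by rw [hq2]; linarith
  obtain ⟨ρ2', hρ2'⟩ : ∃ x, x = Real.sqrt q2 := ⟨_, rfl⟩
  have b1 : ρ2'^2 = q2 := by rw [hρ2']; exact Real.sq_sqrt hq2pos.le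
  have b2 : 0 < ρ2' := by rw [hρ2']; exact Real.sqrt_pos.2 hq2pos
  have b3 : ρ2' < 1 := lt_of_pow_lt_pow_left₀ 2 zero_le_one (by rw [b1, one_pow]; exact hq2lt)
  have b4 : ρo' < ρ2' := lt_of_pow_lt_pow_left₀ 2 b2.le (by rw [b1]; exact hq2o)
  obtain ⟨ρ2, hρ2⟩ : ∃ x, x = (1 + ρ2')/2 := ⟨_, rfl⟩
  have c1 : ρ2' < ρ2 := by linarith
  have c2 : ρ2 < 1 := by linarith
  have c3 : 0 < ρ2 := by linarith
  have c4 : ρ2^2 < 1 := by
    have := pow_lt_pow_left₀ c2 c3.le (two_ne_zero)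
    rwa [one_pow] at this
  have hq3a : 0 < (1 - ρ2^2)/K := by
    apply div_pos _ (by positivity)
    linarith
  have hq3b : (1 - ρ2^2)/K ≤ 1 := by
    rw [div_le_iff₀ (by positivity)]
    have := sq_nonneg ρ2
    linarith
  obtain ⟨q3, hq3⟩ : ∃ x, x = 1 - (1 - ρ2^2)/K := ⟨_, rfl⟩
  have hq3pos : 0 ≤ q3 := by rw [hq3]; linarith
  have hq3lt : q3 < 1 := by rw [hq3]; linarith
  obtain ⟨ρ3, hρ3⟩ : ∃ x, x = Real.sqrt q3 := ⟨_, rfl⟩
  have d1 : ρ3^2 = q3 := by rw [hρ3]; exact Real.sq_sqrt hq3pos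
  have d2 : 0 ≤ ρ3 := by rw [hρ3]; exact Real.sqrt_nonneg _
  have d3 : ρ3 < 1 := lt_of_pow_lt_pow_left₀ 2 zero_le_one (by rw [d1, one_pow]; exact hq3lt)
  obtain ⟨ρi, hρi⟩ : ∃ x, x = max ((1 + ρ3)/2) ((1+ρo)/2) := ⟨_, rfl⟩
  have e1 : ρi < 1 := by rw [hρi]; apply max_lt <;> linarith
  have e2 : ρ3 < ρi := by
    rw [hρi]; exact lt_of_lt_of_le (by linarith : ρ3 < (1 + ρ3)/2) (le_max_left _ _)
  have e3 : ρo < ρi := by
    rw [hρi]; exact lt_of_lt_of_le (by linarith : ρo < (1 + ρo)/2) (le_max_right _ _)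
  refine ⟨ρo', ρ2', ρ2, ρi, a1, a2, b2, c1, c2, by linarith, e3, e1, ?_, ?_⟩
  · intro x y hx hy hxy
    have f0 : ρ2'^2 < y^2 := pow_lt_pow_left₀ hy b2.le two_ne_zero
    have f1 : 1 - y^2 < 1 - q2 := by linarith
    have f2 : K * (1 - y^2) < K * (1 - q2) := mul_lt_mul_of_pos_left f1 hKpos
    have f3 : K * (1 - q2) = (1 - ρo'^2)/2 := by rw [hq2]; field_simp; ring
    have f4 : ρo'^2 < x^2 := by linarith
    exact lt_of_pow_lt_pow_left₀ 2 hx f4
  · intro x y hy0 hy hxy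
    have f0 : y^2 < ρ2^2 := pow_lt_pow_left₀ hy hy0 two_ne_zero
    have f1 : 1 - ρ2^2 < 1 - y^2 := by linarith
    have f2 : (1 - ρ2^2)/K < 1 - x^2 := by
      rw [div_lt_iff₀ hKpos]; linarith
    have f3 : x^2 < ρ3^2 := by rw [d1, hq3]; linarith
    have f4 : x < ρ3 := lt_of_pow_lt_pow_left₀ 2 d2 f3
    linarith

theorem starh_main {F : ℂ → ℂ} (hF : AGF F) (h V : ℂ → ℂ) {ρ : ℝ} (h0 : 0 < ρ) (h1 : ρ < 1)
    (hh : DifferentiableOn ℂ h (ball 0 1))
    (hV : DifferentiableOn ℂ V {z | ρ < ‖z‖ ∧ ‖z‖ < 1/ρ})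
    (htan : ∀ z, ‖z‖ = 1 → (V z * conj z).re = 0)
    (hFV : ∀ z, ρ < ‖z‖ → ‖z‖ < 1 → h z = deriv F z * V z)
    (η : ℝ) (hη : ∀ g t : ℂ → ℂ, Gp g t → LL t g h ≤ η) :
    ∃ ε1 > 0, ∃ C > 0, ∃ ρi > 0, ρi < 1 ∧ ∀ ε : ℝ, 0 < ε → ε < ε1 → ∃ f : ℂ → ℂ,
      DifferentiableOn ℂ f (ball 0 1) ∧ (∀ z, ‖z‖ < ρi → ‖f z - (F z + ε * h z)‖ ≤ C * ε^2) ∧
      ∀ (S : Set ℂ) (z0 : ℂ) (r : ℝ), S ⊆ ball (0:ℂ) 1 → IsOpen S → InjOn f S → z0 ∈ S →
        ball (f z0) r ⊆ f '' S → r ≤ bt + ε * η + C * ε^2 := by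
  have hη0 : 0 ≤ η := starh_eta hF h V h1 hFV η hη
  obtain ⟨R, κ, C1, hR0, hR1, hκ, hC1, hpert⟩ := pert2 hF
  obtain ⟨K0, hK0, hface0⟩ := face_comp R hR1
  obtain ⟨K, hKdef⟩ : ∃ K, K = max K0 1 := ⟨_, rfl⟩
  have hK1 : 1 ≤ K := by rw [hKdef]; exact le_max_right _ _
  have hface : ∀ g t : ℂ → ℂ, Gp g t → ∀ z z' : ℂ, ‖z‖ ≤ R →
    ‖z'‖ ≤ R → 1 - ‖g z'‖^2 ≤ K * (1 - ‖g z‖^2) := by
    intro g t hg z z' hz hz'
    refine (hface0 g t hg z z' hz hz').trans ?_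
    have hb : g z ∈ ball (0:ℂ) 1 := hg.mapsTo (by
      rw [mem_ball_zero_iff]; exact lt_of_le_of_lt hz hR1)
    rw [mem_ball_zero_iff] at hb
    have : 0 ≤ 1 - ‖g z‖^2 := by nlinarith [norm_nonneg (g z)]
    have h2 : K0 ≤ K := by rw [hKdef]; exact le_max_left _ _
    exact mul_le_mul_of_nonneg_right h2 this
  have hρo1 : (ρ+1)/2 < 1 := by linarith
  have hρo0 : ρ < (ρ+1)/2 := by linarith
  obtain ⟨ρo, hρo⟩ : ∃ x, x = (ρ+1)/2 := ⟨_, rfl⟩
  rw [← hρo] at hρo1 hρo0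
  have hρopos : 0 < ρo := h0.trans hρo0
  obtain ⟨ρo', ρ2', ρ2, ρi, a1, a2, a3, a4, a5, a6, a7, a8, hrad1, hrad2⟩ := starh_radii hρopos hρo1 hK1
  have hρipos : 0 < ρi := hρopos.trans a7
  obtain ⟨ε0, hε0, C2, hC2, hfeps⟩ := feps hF.diff h V h0 hρo0 a7 a8 hh hV htan hFV
  -- bound of h
  have hcpt : IsCompact (closedBall (0:ℂ) ρi) := isCompact_closedBall _ _
  have hhc : ContinuousOn h (closedBall (0:ℂ) ρi) := by
    refine hh.continuousOn.mono (closedBall_subset_ball a8)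
  obtain ⟨M0, hM0⟩ := hcpt.exists_bound_of_continuousOn hhc
  obtain ⟨M, hM⟩ : ∃ x, x = max M0 0 := ⟨_, rfl⟩
  have hMnn : 0 ≤ M := by rw [hM]; exact le_max_right _ _
  have hMb : ∀ z, ‖z‖ ≤ ρi → ‖h z‖ ≤ M := fun z hz => by
    rw [hM]
    exact (hM0 z (by rwa [mem_closedBall_zero_iff])).trans (le_max_left _ _)
  -- constants
  obtain ⟨C3, hC3⟩ : ∃ x, x = C2 + C1 * (C2 + M)^2 := ⟨_, rfl⟩
  have hC3pos : 0 < C3 := by rw [hC3]; positivity
  have hC23 : C2 ≤ C3 := by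
    rw [hC3]
    have : 0 ≤ C1 * (C2 + M)^2 := by positivity
    linarith
  refine ⟨min ε0 (min 1 (min (κ/(C2 + M + 1)) (min ((ρo' - ρo)/C2) ((ρ2 - ρ2')/C2)))), ?_,
    C3, hC3pos, ρi, hρipos, a8, ?_⟩
  · refine lt_min hε0 (lt_min one_pos (lt_min (by positivity) (lt_min ?_ ?_)))
    · apply div_pos _ hC2; linarith
    · apply div_pos _ hC2; linarith
  intro ε hε hεlt
  simp only [lt_min_iff] at hεlt
  obtain ⟨e1, e2, e3, e4, e5⟩ := hεlt
  rw [lt_div_iff₀ hC2] at e4 e5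
  rw [lt_div_iff₀ (by positivity)] at e3
  have e7 : ε^2 ≤ ε := by
    rw [sq]; exact mul_le_of_le_one_left hε.le e2.le
  obtain ⟨f, φ, hfd, hfi, hφd, hφ, hφi, hφs⟩ := hfeps ε hε e1
  refine ⟨f, hfd, ?_, ?_⟩
  · intro z hz
    refine (hfi z hz).trans ?_
    gcongr
  intro S z0 r hS hSo hSi hz0 hball
  have hz0b : ‖z0‖ < 1 := by simpa using hS hz0
  rcases lt_or_ge ‖z0‖ ρ2 with hin | hout
  · -- inner case
    have hz0b' : z0 ∈ ball (0:ℂ) 1 := by simpa using hz0b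
    obtain ⟨g, t, A, B, ζ, l, hG, z', hz', hgz⟩ := cover hF hz0b'
    have hz'R : ‖z'‖ ≤ R := (tri_rv hz').trans hR0.le
    have hgR : ∀ z, ‖z‖ < R → ‖g z‖ < ρi := by
      intro z hz
      have h3 := hface g t hG.1 z z' hz.le hz'R
      rw [hgz] at h3
      exact hrad2 _ _ (norm_nonneg _) hin h3
    have hδκ : (C2 + M) * ε ≤ κ := by
      have : (C2 + M) * ε ≤ ε * (C2 + M + 1) := by linarith
      linarith
    have hres := starh_inner hF h f hR0 hR1 hC2 hε e2 hδκ hpert hη hfd hfi hMb hG hgR hz' S r hS hSo hSi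
      (by rw [hgz]; exact hz0) (by rw [hgz]; exact hball)
    have : C1 * ((C2 + M) * ε)^2 = C1 * (C2 + M)^2 * ε^2 := by ring
    rw [this] at hres
    rw [hC3, add_mul]
    linarith
  · -- outer case
    have hAz0 : ρo < ‖z0‖ := by linarith
    obtain ⟨hφ1, hφ2, hφ3⟩ := hφ z0 hAz0 hz0b
    have hw0 : ρ2' < ‖φ z0‖ := by
      have h3 : ‖z0‖ - ‖φ z0‖ ≤ ‖φ z0 - z0‖ := by
        rw [← norm_neg (φ z0 - z0), neg_sub]
        exact norm_sub_norm_le _ _
      linarith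
    have hw0b : φ z0 ∈ ball (0:ℂ) 1 := by simpa using hφ1
    obtain ⟨g, t, A, B, ζ, l, hG, z', hz', hgz⟩ := cover hF hw0b
    have hz'R : ‖z'‖ ≤ R := (tri_rv hz').trans hR0.le
    have hgim : ∀ z, ‖z‖ < R → g z ∈ φ '' {z | ρo < ‖z‖ ∧ ‖z‖ < 1} := by
      intro z hz
      have h3 := hface g t hG.1 z' z hz'R hz.le
      rw [hgz] at h3
      have h8 := hrad1 _ _ (norm_nonneg _) hw0 h3
      have h9 : ‖g z‖ < 1 := by
        have := hG.1.mapsTo (z := z) (by rw [mem_ball_zero_iff]; linarith)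
        simpa using this
      obtain ⟨x, hx1, hx2, hx3⟩ := hφs (g z) (by linarith) h9
      exact ⟨x, ⟨hx1, hx2⟩, hx3⟩
    have h10 : C2 * ε^2 ≤ C2 * ε := by gcongr
    have hδκ : C2 * ε^2 ≤ κ := by
      have : C2 * ε ≤ ε * (C2 + M + 1) := by
        have := mul_nonneg hε.le hMnn
        linarith
      linarith
    have hres := starh_outer hF f φ hR0 hR1 hδκ hpert hfd hφd hφi (fun z hz1 hz2 => (hφ z hz1 hz2).2.2)
      hG hgim hz' hgz hAz0 hz0b S r hS hSo hSi hz0 hball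
    have h12 : C1 * (C2 * ε^2)^2 ≤ C1 * (C2 + M)^2 * ε^2 := by
      have h11 : (C2 * ε^2)^2 ≤ ((C2 + M) * ε)^2 := by
        have : 0 ≤ C2 * ε^2 := by positivity
        have h13 : C2 * ε^2 ≤ (C2 + M) * ε := by
          have := mul_nonneg hε.le hMnn
          linarith
        gcongr
      calc C1 * (C2 * ε^2)^2 ≤ C1 * ((C2 + M) * ε)^2 := by gcongr
        _ = _ := by ring
    rw [hC3, add_mul]
    have := mul_nonneg hε.le hη0
    linarith

theorem star_h (hH : HypH) {F : ℂ → ℂ} (hF : AGF F) (h V : ℂ → ℂ) {ρ : ℝ} (h0 : 0 < ρ) (h1 : ρ < 1)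
    (hh : DifferentiableOn ℂ h (ball 0 1))
    (hV : DifferentiableOn ℂ V {z | ρ < ‖z‖ ∧ ‖z‖ < 1/ρ})
    (htan : ∀ z, ‖z‖ = 1 → (V z * conj z).re = 0)
    (hFV : ∀ z, ρ < ‖z‖ → ‖z‖ < 1 → h z = deriv F z * V z)
    (η : ℝ) (hη : ∀ g t : ℂ → ℂ, Gp g t → LL t g h ≤ η) : bt * (deriv h 0).re ≤ η := by
  obtain ⟨ε1, hε1, C, hC, ρi, hρi0, hρi1, hmain⟩ := starh_main hF h V h0 h1 hh hV htan hFV η hη
  have hbt := bt_pos
  -- it suffices to show the inequality up to O(ε)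
  obtain ⟨C', hC'⟩ : ∃ x, x = C + bt * (C / (ρi/2)) := ⟨_, rfl⟩
  have hC'pos : 0 < C' := by rw [hC']; positivity
  have key : ∀ ε : ℝ, 0 < ε → ε < ε1 → bt * (deriv h 0).re ≤ η + C' * ε := by
    intro ε hε hεlt
    obtain ⟨f, hfd, hfi, hfb⟩ := hmain ε hε hεlt
    have hb0 : ball (0:ℂ) 1 ∈ nhds (0:ℂ) := ball_mem_nhds _ one_pos
    have hfd0 : DifferentiableAt ℂ f 0 := hfd.differentiableAt hb0
    have hFd0 : DifferentiableAt ℂ F 0 := hF.diff.differentiableAt hb0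
    have hhd0 : DifferentiableAt ℂ h 0 := hh.differentiableAt hb0
    -- derivative estimate
    have hder : ‖deriv f 0 - (1 + ε * deriv h 0)‖ ≤ C * ε^2 / (ρi/2) := by
      have h2 : deriv (fun z => f z - (F z + ε * h z)) 0 = deriv f 0 - (1 + ε * deriv h 0) := by
        have h3 : HasDerivAt (fun z => f z - (F z + ε * h z)) (deriv f 0 - (deriv F 0 + ε * deriv h 0)) 0 :=
          hfd0.hasDerivAt.sub (hFd0.hasDerivAt.add (hhd0.hasDerivAt.const_mul _))
        rw [h3.deriv, hF.one]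
      rw [← h2]
      apply Complex.norm_deriv_le_of_forall_mem_sphere_norm_le (by positivity)
      · have hd : DifferentiableOn ℂ (fun z => f z - (F z + ε * h z)) (ball 0 1) :=
          hfd.sub (hF.diff.add (hh.const_mul _))
        apply DifferentiableOn.diffContOnCl
        refine hd.mono ?_
        refine (closure_ball_subset_closedBall).trans (closedBall_subset_ball (by linarith))
      · intro z hz
        rw [mem_sphere_zero_iff_norm] at hz
        exact hfi z (by rw [hz]; linarith)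
    -- nonvanishing of the derivative or trivial
    have hre : 1 + ε * (deriv h 0).re - C * ε^2/(ρi/2) ≤ ‖deriv f 0‖ := by
      have h3 : (deriv f 0 - (1 + ε * deriv h 0)).re = (deriv f 0).re - (1 + ε * (deriv h 0).re) := by
        simp
      have h4 := abs_le.1 ((abs_re_le_norm _).trans hder)
      rw [h3] at h4
      have h5 := re_le_norm (deriv f 0)
      linarith [h4.1]
    have hmainineq : ‖deriv f 0‖ * bt ≤ bt + ε * η + C * ε^2 := by
      by_cases hz : deriv f 0 = 0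
      · -- use the trivial schlicht disc bound with S small: radius 0
        rw [hz, norm_zero, zero_mul]
        have := hfb ∅ 0 0
        have hη0 : 0 ≤ η := starh_eta hF h V h1 hFV η hη
        positivity
      · by_contra hcon
        push Not at hcon
        have hnpos : 0 < ‖deriv f 0‖ := norm_pos_iff.2 hz
        have hη0 : 0 ≤ η := starh_eta hF h V h1 hFV η hη
        -- choose r < bt with ‖f'(0)‖ r > ...
        obtain ⟨r, hr1, hr2⟩ := exists_between ((div_lt_iff₀' hnpos).2 hcon)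
        have hrpos : 0 < r := lt_of_le_of_lt (by positivity) hr1
        rw [div_lt_iff₀' hnpos] at hr1
        obtain ⟨S, hS, hSo, -, hSi, w, hw⟩ := hH (fun z => (f z - f 0) / deriv f 0)
          ((hfd.sub_const _).div_const _) (by simp) (by
            rw [deriv_div_const, deriv_sub_const]; field_simp) r hr2
        have hwm : w ∈ (fun z => (f z - f 0) / deriv f 0) '' S := hw (mem_ball_self hrpos)
        obtain ⟨z0, hz0S, hz0w⟩ := hwm
        simp only at hz0w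
        have hres := hfb S z0 (‖deriv f 0‖ * r) hS hSo (by
          intro x hx y hy hxy
          apply hSi hx hy
          simp only [hxy]) hz0S (by
          intro y hy
          rw [mem_ball, dist_eq_norm] at hy
          have h3 : (y - f 0) / deriv f 0 ∈ ball w r := by
            rw [mem_ball, dist_eq_norm, ← hz0w, ← sub_div, norm_div, div_lt_iff₀ hnpos]
            have : y - f 0 - (f z0 - f 0) = y - f z0 := by ring
            rw [this]; linarith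
          obtain ⟨x, hx, hxy⟩ := hw h3
          refine ⟨x, hx, ?_⟩
          simp only at hxy
          field_simp at hxy
          linear_combination hxy)
        linarith
    have h6 : (1 + ε * (deriv h 0).re - C * ε^2/(ρi/2)) * bt ≤ ‖deriv f 0‖ * bt :=
      mul_le_mul_of_nonneg_right hre hbt.le
    have h7 : ε * (bt * (deriv h 0).re) ≤ ε * (η + C' * ε) := by
      have h8 : C' * ε^2 = C * ε^2 + bt * (C * ε^2/(ρi/2)) := by rw [hC']; ring
      have h9 : ε * (η + C' * ε) = ε * η + C' * ε^2 := by ring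
      rw [h9, h8]
      linarith
    exact le_of_mul_le_mul_left h7 hε
  -- limit
  apply le_of_forall_pos_le_add
  intro e he
  have h2 := key (min (ε1/2) (e/C')) (by positivity) (lt_of_le_of_lt (min_le_left _ _) (by linarith))
  refine h2.trans ?_
  have h3 : C' * min (ε1/2) (e/C') ≤ C' * (e/C') := by
    gcongr
    exact min_le_right _ _
  have h4 : C' * (e/C') = e := by field_simp
  linarith

end AG
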