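import Pool.Agent.Bloch.Starf
import Pool.Agent.Bloch.Geom
import Pool.Agent.Bloch.Gp
import Pool.Agent.Bloch.Face
import Pool.Agent.Bloch.Vtx
import Pool.Agent.Bloch.Vsum

set_option autoImplicit false

noncomputable section

namespace AG

open Complex Metric Set Filter
open scoped ComplexConjugate Topology

/-! ## module TRUNC (uses STARF, VTX, VSUM, FACE) -/

def truncChi (N : ℝ) (z : ℂ) : ℝ := max 0 (1 + Real.log (1 - ‖z‖^2) / N)

theorem trunc_chi_nonneg (N : ℝ) (z : ℂ) : 0 ≤ truncChi N z := le_max_left _ _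

theorem trunc_pos {z : ℂ} (hz : ‖z‖ < 1) : 0 < 1 - ‖z‖^2 := by
  nlinarith [norm_nonneg z]

theorem trunc_chi_le {N : ℝ} (hN : 0 < N) {z : ℂ} (hz : ‖z‖ < 1) : truncChi N z ≤ 1 := by
  unfold truncChi
  have h1 : Real.log (1 - ‖z‖^2) ≤ 0 :=
    Real.log_nonpos (trunc_pos hz).le (by nlinarith [norm_nonneg z])
  have h2 : Real.log (1 - ‖z‖^2) / N ≤ 0 := div_nonpos_of_nonpos_of_nonneg h1 hN.le
  exact max_le (by norm_num) (by linarith)

theorem trunc_chi_diff {N : ℝ} (hN : 0 < N) (z z' : ℂ) {L : ℝ}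
    (h : |Real.log (1 - ‖z‖^2) - Real.log (1 - ‖z'‖^2)| ≤ L) :
    |truncChi N z - truncChi N z'| ≤ L / N := by
  unfold truncChi
  have h1 : |max 0 (1 + Real.log (1 - ‖z‖^2) / N) - max 0 (1 + Real.log (1 - ‖z'‖^2) / N)| ≤
      |(1 + Real.log (1 - ‖z‖^2) / N) - (1 + Real.log (1 - ‖z'‖^2) / N)| := by
    have := abs_max_sub_max_le_max (0:ℝ) (1 + Real.log (1 - ‖z‖^2) / N) 0
      (1 + Real.log (1 - ‖z'‖^2) / N)
    refine this.trans (max_le ?_ le_rfl)
    rw [sub_self, abs_zero]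
    exact abs_nonneg _
  refine h1.trans ?_
  have h2 : (1 + Real.log (1 - ‖z‖^2) / N) - (1 + Real.log (1 - ‖z'‖^2) / N) =
      (Real.log (1 - ‖z‖^2) - Real.log (1 - ‖z'‖^2)) / N := by ring
  rw [h2, abs_div, abs_of_pos hN]
  exact div_le_div_of_nonneg_right h hN.le

theorem trunc_chi_zero {N : ℝ} (hN : 0 < N) {z : ℂ} (hz : ‖z‖ < 1)
    (hR : 1 - Real.exp (-N) / 2 < ‖z‖) : truncChi N z = 0 := by
  unfold truncChi
  apply max_eq_left
  have h1 : 1 - ‖z‖^2 ≤ Real.exp (-N) := by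
    have h2 : 1 - ‖z‖^2 = (1 - ‖z‖) * (1 + ‖z‖) := by ring
    rw [h2]
    have h3 : (1 - ‖z‖) * (1 + ‖z‖) ≤ (1 - ‖z‖) * 2 :=
      mul_le_mul_of_nonneg_left (by linarith) (by linarith)
    linarith
  have h2 : Real.log (1 - ‖z‖^2) ≤ -N := by
    rw [Real.log_le_iff_le_exp (trunc_pos hz)]
    exact h1
  have h3 : Real.log (1 - ‖z‖^2) / N ≤ -1 := by
    rw [div_le_iff₀ hN]
    linarith
  linarith

theorem trunc_chi_tendsto (z : ℂ) : Tendsto (fun n : ℕ => truncChi (n + 1) z) atTop (𝓝 1) := by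
  unfold truncChi
  have h1 : Tendsto (fun n : ℕ => Real.log (1 - ‖z‖^2) / ((n:ℝ) + 1)) atTop (𝓝 0) := by
    have h2 : Tendsto (fun n : ℕ => (n:ℝ) + 1) atTop atTop :=
      tendsto_atTop_add_const_right _ _ tendsto_natCast_atTop_atTop
    exact Tendsto.div_atTop tendsto_const_nhds h2
  have h2 : Tendsto (fun n : ℕ => 1 + Real.log (1 - ‖z‖^2) / ((n:ℝ) + 1)) atTop (𝓝 (1 + 0)) :=
    tendsto_const_nhds.add h1
  have h3 : Tendsto (fun n : ℕ => max 0 (1 + Real.log (1 - ‖z‖^2) / ((n:ℝ) + 1))) atTop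
      (𝓝 (max 0 (1 + 0))) := tendsto_const_nhds.max h2
  simpa using h3

theorem trunc_iso {g t : ℂ → ℂ} (h : Gp g t) (k : ℕ) : ‖t (om^k) - t 0‖ = 1 := by
  obtain ⟨A, B, ζ, l, _, hζ, h1⟩ := Gp.form h
  have hk : ‖om^k‖ = 1 := by rw [norm_pow, om_norm, one_pow]
  rcases h1 with ⟨_, h2⟩ | ⟨_, h2⟩
  · rw [h2, h2]
    have : ζ * om^k + l - (ζ * 0 + l) = ζ * om^k := by ring
    rw [this, norm_mul, hζ, hk, one_mul]
  · rw [h2, h2]
    have : ζ * conj (om^k) + l - (ζ * conj 0 + l) = ζ * conj (om^k) := by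
      rw [map_zero]; ring
    rw [this, norm_mul, hζ, norm_conj, hk, one_mul]

theorem trunc_one (hH : HypH) {F : ℂ → ℂ} (hF : AGF F) : ∃ L : ℝ,
    ∀ (c : ℂ → ℂ) (_ : ∀ z, ‖c z‖ ≤ 1) (_ : ∀ g t : ℂ → ℂ, Gp g t → LL t g c = 0) (n : ℕ),
      - (∑' v : Vert, (truncChi (n + 1) v : ℂ) *
        (c v * ((v:ℂ)^2 * deriv (deriv F) v)⁻¹)).re ≤ L / (n + 1) := by
  obtain ⟨K, hK, hcomp⟩ := face_comp rv rv_lt
  refine ⟨Real.log K / bt, ?_⟩
  intro c hb hL n
  have hN : (0:ℝ) < (n:ℝ) + 1 := by positivity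
  obtain ⟨N, hNdef⟩ : ∃ N : ℝ, N = (n:ℝ) + 1 := ⟨_, rfl⟩
  rw [← hNdef] at hN
  obtain ⟨R, hR⟩ : ∃ R : ℝ, R = 1 - Real.exp (-N) / 2 := ⟨_, rfl⟩
  have hR1 : R < 1 := by
    rw [hR]
    have := Real.exp_pos (-N)
    linarith
  have hfin := vert_fin hF hR1
  obtain ⟨S, hSdef⟩ : ∃ S : Finset ℂ, S = hfin.toFinset := ⟨_, rfl⟩
  have hSmem : ∀ v, v ∈ S ↔ (v ∈ Vert ∧ ‖v‖ ≤ R) := by
    intro v
    rw [hSdef, Set.Finite.mem_toFinset]
    rfl
  have hv1 : ∀ v ∈ Vert, ‖v‖ < 1 := fun v hv => by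
    have := (vert_crit hF hv).1
    rwa [mem_ball_zero_iff] at this
  classical
  obtain ⟨cN, hcN⟩ : ∃ cN : ℂ → ℂ, cN = fun z => if z ∈ S then (truncChi N z : ℂ) * c z else 0 :=
    ⟨_, rfl⟩
  have hcNv : ∀ v ∈ Vert, cN v = (truncChi N v : ℂ) * c v := by
    intro v hv
    rw [hcN]
    simp only
    split_ifs with h
    · rfl
    · rw [hSmem] at h
      have h2 : R < ‖v‖ := by
        by_contra hcon
        push Not at hcon
        exact h ⟨hv, hcon⟩
      rw [hR] at h2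
      rw [trunc_chi_zero hN (hv1 v hv) h2]
      simp
  -- the bound of the linear functional
  have hLL : ∀ g t : ℂ → ℂ, Gp g t → LL t g cN ≤ Real.log K / N := by
    intro g t hgt
    have hu : ∀ k : ℕ, g (rv * om^k) ∈ Vert := fun k => vert_map hgt k
    have hnk : ∀ k : ℕ, ‖(rv:ℂ) * om^k‖ ≤ rv := by
      intro k
      rw [norm_mul, norm_pow, om_norm, one_pow, mul_one, Complex.norm_real, Real.norm_eq_abs,
        abs_of_pos rv_pos]
    have hlog : ∀ j k : ℕ, Real.log (1 - ‖g (rv * om^j)‖^2) ≤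
        Real.log K + Real.log (1 - ‖g (rv * om^k)‖^2) := by
      intro j k
      have h1 := hcomp g t hgt (rv * om^k) (rv * om^j) (hnk k) (hnk j)
      have h2 := trunc_pos (hv1 _ (hu j))
      have h3 := trunc_pos (hv1 _ (hu k))
      rw [← Real.log_mul hK.ne' h3.ne']
      exact Real.log_le_log h2 h1
    have hdiff : ∀ k : ℕ, |truncChi N (g (rv * om^k)) - truncChi N (g (rv * om^0))| ≤
        Real.log K / N := by
      intro k
      apply trunc_chi_diff hN
      rw [abs_le]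
      constructor
      · linarith [hlog 0 k]
      · linarith [hlog k 0]
    have h1 : LL t g cN = truncChi N (g (rv * om^0)) * LL t g c +
        (1/3) * ∑ k ∈ Finset.range 3, (truncChi N (g (rv * om^k)) - truncChi N (g (rv * om^0))) *
          (conj (t (om^k) - t 0) * c (g (rv * om^k))).re := by
      have h2 : ∀ k : ℕ, (conj (t (om^k) - t 0) * cN (g (rv * om^k))).re =
          truncChi N (g (rv * om^k)) * (conj (t (om^k) - t 0) * c (g (rv * om^k))).re := by
        intro k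
        rw [hcNv _ (hu k)]
        have h2 : conj (t (om^k) - t 0) * ((truncChi N (g (rv * om^k)) : ℂ) * c (g (rv * om^k))) =
          (truncChi N (g (rv * om^k)) : ℂ) * (conj (t (om^k) - t 0) * c (g (rv * om^k))) := by ring
        rw [h2, re_ofReal_mul]
      unfold LL
      simp only [h2]
      simp only [Finset.sum_range_succ, Finset.sum_range_zero]
      ring
    rw [h1, hL g t hgt, mul_zero, zero_add]
    have h2 : ∀ k ∈ Finset.range 3,
        (truncChi N (g (rv * om^k)) - truncChi N (g (rv * om^0))) *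
          (conj (t (om^k) - t 0) * c (g (rv * om^k))).re ≤ Real.log K / N := by
      intro k _
      have h3 : |(conj (t (om^k) - t 0) * c (g (rv * om^k))).re| ≤ 1 := by
        refine (abs_re_le_norm _).trans ?_
        rw [norm_mul, norm_conj, trunc_iso hgt, one_mul]
        exact hb _
      refine (le_abs_self _).trans ?_
      rw [abs_mul]
      calc _ ≤ Real.log K / N * 1 := mul_le_mul (hdiff k) h3 (abs_nonneg _)
            ((abs_nonneg _).trans (hdiff k))
        _ = _ := mul_one _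
    have h3 := Finset.sum_le_sum h2
    simp only [Finset.sum_const, Finset.card_range, nsmul_eq_mul] at h3
    push_cast at h3
    linarith
  have hmain := star_fin hH hF S (fun v hv => ((hSmem v).1 hv).1) cN
    (fun z hz => by rw [hcN]; simp only; rw [if_neg hz]) (Real.log K / N) hLL
  -- the sum
  have hsum : ∑' v : Vert, (truncChi N v : ℂ) * (c v * ((v:ℂ)^2 * deriv (deriv F) v)⁻¹) =
      ∑ v ∈ S, cN v * (v^2 * deriv (deriv F) v)⁻¹ := by
    have h1 : ∀ v : Vert, (truncChi N v : ℂ) * (c v * ((v:ℂ)^2 * deriv (deriv F) v)⁻¹) =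
        (fun z : ℂ => cN z * (z^2 * deriv (deriv F) z)⁻¹) v := by
      intro v
      simp only
      rw [hcNv v.1 v.2]
      ring
    rw [tsum_congr h1, tsum_subtype Vert (fun z : ℂ => cN z * (z^2 * deriv (deriv F) z)⁻¹),
      tsum_eq_sum (s := S)]
    · apply Finset.sum_congr rfl
      intro v hv
      rw [Set.indicator_of_mem ((hSmem v).1 hv).1]
    · intro z hz
      by_cases hzV : z ∈ Vert
      · rw [Set.indicator_of_mem hzV, hcN]
        simp only
        rw [if_neg hz, zero_mul]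
      · rw [Set.indicator_of_notMem hzV]
  rw [← hNdef, hsum]
  have hbt := bt_pos
  have h5 : Real.log K / bt / N = (Real.log K / N) / bt := by ring
  rw [h5, le_div_iff₀ hbt]
  linarith

theorem trunc_null (hH : HypH) {F : ℂ → ℂ} (hF : AGF F) (c : ℂ → ℂ) (hb : ∀ z, ‖c z‖ ≤ 1)
    (hL : ∀ g t : ℂ → ℂ, Gp g t → LL t g c = 0) :
    (∑' v : Vert, c v * ((v:ℂ)^2 * deriv (deriv F) v)⁻¹).re = 0 := by
  obtain ⟨L, hone⟩ := trunc_one hH hF
  obtain ⟨C, hC, hF2⟩ := vert_F2 hF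
  have hsum := (vert_sum hF).mul_left C
  have hv1 : ∀ v ∈ Vert, ‖v‖ < 1 := fun v hv => by
    have := (vert_crit hF hv).1
    rwa [mem_ball_zero_iff] at this
  have htend : ∀ c' : ℂ → ℂ, (∀ z, ‖c' z‖ ≤ 1) →
      Tendsto (fun n : ℕ => ∑' v : Vert, (truncChi (n + 1) v : ℂ) *
        (c' v * ((v:ℂ)^2 * deriv (deriv F) v)⁻¹)) atTop
        (𝓝 (∑' v : Vert, c' v * ((v:ℂ)^2 * deriv (deriv F) v)⁻¹)) := by
    intro c' hc'
    refine tendsto_tsum_of_dominated_convergence hsum ?_ ?_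
    · intro v
      have h1 : Tendsto (fun n : ℕ => (truncChi (n + 1) v : ℂ)) atTop (𝓝 ((1:ℝ):ℂ)) :=
        (continuous_ofReal.tendsto 1).comp (trunc_chi_tendsto (v:ℂ))
      have h2 := h1.mul_const (c' v * ((v:ℂ)^2 * deriv (deriv F) v)⁻¹)
      simpa using h2
    · refine Eventually.of_forall fun n v => ?_
      rw [norm_mul, norm_mul, Complex.norm_real, Real.norm_eq_abs,
        abs_of_nonneg (trunc_chi_nonneg _ _)]
      have h1 := trunc_chi_le (N := (n:ℝ) + 1) (by positivity) (hv1 v.1 v.2)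
      calc truncChi (n + 1) v * (‖c' v‖ * ‖((v:ℂ)^2 * deriv (deriv F) v)⁻¹‖)
          ≤ 1 * (1 * ‖((v:ℂ)^2 * deriv (deriv F) v)⁻¹‖) := by
            refine mul_le_mul h1 ?_ (by positivity) (by norm_num)
            exact mul_le_mul_of_nonneg_right (hc' _) (norm_nonneg _)
        _ ≤ _ := by
            rw [one_mul, one_mul]
            exact hF2 v.1 v.2
  have hlim0 : Tendsto (fun n : ℕ => L / ((n:ℝ) + 1)) atTop (𝓝 0) := by
    have h2 : Tendsto (fun n : ℕ => (n:ℝ) + 1) atTop atTop :=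
      tendsto_atTop_add_const_right _ _ tendsto_natCast_atTop_atTop
    exact Tendsto.div_atTop tendsto_const_nhds h2
  have hle : ∀ c' : ℂ → ℂ, (∀ z, ‖c' z‖ ≤ 1) → (∀ g t : ℂ → ℂ, Gp g t → LL t g c' = 0) →
      -(∑' v : Vert, c' v * ((v:ℂ)^2 * deriv (deriv F) v)⁻¹).re ≤ 0 := by
    intro c' hc' hL'
    have h1 := ((continuous_re.tendsto _).comp (htend c' hc')).neg
    exact le_of_tendsto_of_tendsto h1 hlim0 (Eventually.of_forall fun n => hone c' hc' hL' n)
  have h1 := hle c hb hL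
  have h2 := hle (fun z => - c z) (fun z => by rw [norm_neg]; exact hb z) (by
    intro g t hgt
    have h3 : LL t g (fun z => - c z) = - LL t g c := by
      unfold LL
      rw [← mul_neg, ← Finset.sum_neg_distrib]
      congr 1
      apply Finset.sum_congr rfl
      intro k _
      rw [mul_neg, neg_re]
    rw [h3, hL g t hgt, neg_zero])
  have h3 : (∑' v : Vert, (fun z => - c z) (v:ℂ) * ((v:ℂ)^2 * deriv (deriv F) v)⁻¹) =
      -∑' v : Vert, c v * ((v:ℂ)^2 * deriv (deriv F) v)⁻¹ := by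
    rw [← tsum_neg]
    apply tsum_congr
    intro v
    simp only
    ring
  rw [h3, neg_re] at h2
  linarith

end AG
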